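import Pool.Agent.Work.MP_6d379e_ag.Ab.CDefs

/-!
# Finite-dimensional algebras with only trivial idempotents   (size M-L)

Pure algebra.  `V` is a finite-dimensional nontrivial algebra over the algebraically closed field
`K` whose only idempotents are `0` and `1`.

1. One-sided inverses are two-sided (finite dimension).
2. Every `v` is nilpotent or a unit (Fitting): the chain `ker (v ^ n ·)`, `range (v ^ n ·)` of left
   multiplication; or: the commutative finite-dimensional algebra `K[v]` is a quotient
   `K[X] / (μ)`, `μ = X ^ a * ν` with `ν (0) ≠ 0`; by the Chinese remainder theorem there is an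
   idempotent `e` in it with `v ^ a` in `e V` and so on; it is `0` or `1`, so `v` is nilpotent
   or invertible.
3. Every `v` has `μ ∈ K` with `v - μ` not a unit (an eigenvalue of left multiplication by `v`), so
   `v - μ` is nilpotent; `μ` is unique (`μ - μ'` would be a difference of commuting nilpotents).
   Put `lam v = μ`.
4. The nilpotent elements form a two-sided ideal `J`: for `a` nilpotent and any `v`, `v * a` is not
   a unit (otherwise `a` has a left inverse, so it is a unit), so nilpotent; same for `a * v`; if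
   `a, b` are nilpotent and `a + b = u` is a unit then `u⁻¹ * a + u⁻¹ * b = 1` with
   `u⁻¹ * a` nilpotent, so `u⁻¹ * b = 1 - u⁻¹ * a` is a unit: contradiction.  Hence `lam` is an
   algebra homomorphism with kernel `J`.
5. `J ^ N = ⊥` : the descending chain of subspaces `J ^ k` stabilizes (`k` large:
   `J ^ k = J ^ (2 k)`...); a finitely generated nil ideal in a finite-dimensional algebra is
   nilpotent: `J` is contained in the Jacobson radical (every `1 - a` with `a ∈ J` is a unit), and
   the Jacobson radical of an Artinian ring is nilpotent (in Mathlib: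
   `IsSemiprimaryRing`/`IsArtinianRing` API); or by Nakayama: if `J ^ k = J ^ (k + 1) ≠ 0`, then the
   left module `M = J ^ k` is finitely generated with `J * M = M`, so `M = 0` (a minimal generating
   set `x_1, ..., x_n` has `x_n = ∑ a_i x_i`, `a_i ∈ J`, `(1 - a_n) x_n ∈ span of the others`).
-/

namespace Pool.Agent.Work.MP_6d379e_ag.Ab

variable {K : Type*} [NontriviallyNormedField K] [IsAlgClosed K]
variable {V : Type*} [Ring V] [Algebra K V] [FiniteDimensional K V]

private theorem ex_eig [Nontrivial V] (h : ∀ p : V, p * p = p → p = 0 ∨ p = 1) (v : V) :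
    ∃ μ : K, IsNilpotent (v - algebraMap K V μ) := by
  obtain ⟨μ, hμ⟩ := spectrum.nonempty_of_isAlgClosed_of_finiteDimensional K v
  have hμ' : ¬ IsUnit (algebraMap K V μ - v) := hμ
  refine ⟨μ, ?_⟩
  have hint : IsIntegral K v := Algebra.IsIntegral.isIntegral v
  have h0 : minpoly K v ≠ 0 := minpoly.ne_zero hint
  obtain ⟨q, hq, hnd⟩ :=
    Polynomial.exists_eq_pow_rootMultiplicity_mul_and_not_dvd (minpoly K v) h0 μ
  obtain ⟨n, hn⟩ : ∃ n, n = Polynomial.rootMultiplicity μ (minpoly K v) := ⟨_, rfl⟩
  rw [← hn] at hq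
  have hco : IsCoprime ((Polynomial.X - Polynomial.C μ) ^ (n + 1)) q := by
    apply IsCoprime.pow_left
    exact ((Polynomial.irreducible_X_sub_C μ).coprime_iff_not_dvd).2 hnd
  obtain ⟨a, b, hab⟩ := hco
  have hp : Polynomial.aeval v (minpoly K v) = 0 := minpoly.aeval K v
  have he : Polynomial.aeval v (b * q) * Polynomial.aeval v (b * q) =
      Polynomial.aeval v (b * q) := by
    rw [← map_mul]
    have h1 : b * q * (b * q) = b * q - a * b * (Polynomial.X - Polynomial.C μ) * minpoly K v := by
      rw [hq]
      linear_combination (b * q) * hab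
    rw [h1, map_sub, map_mul _ (a * b * (Polynomial.X - Polynomial.C μ)), hp, mul_zero, sub_zero]
  have hx : Polynomial.aeval v ((Polynomial.X - Polynomial.C μ) ^ (n + 1)) =
      (v - algebraMap K V μ) ^ (n + 1) := by
    rw [map_pow, map_sub, Polynomial.aeval_X, Polynomial.aeval_C]
  rcases h _ he with h1 | h1
  · exfalso
    have h2 := congrArg (Polynomial.aeval v) hab
    rw [map_add, h1, add_zero, map_one, map_mul, hx] at h2
    have h3 : (v - algebraMap K V μ) ^ (n + 1) * Polynomial.aeval v a = 1 := by
      rw [← h2, ← hx, ← map_mul, ← map_mul, mul_comm]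
    have h4 : IsUnit ((v - algebraMap K V μ) ^ (n + 1)) := ⟨⟨_, _, h3, h2⟩, rfl⟩
    have h5 : IsUnit (v - algebraMap K V μ) := (isUnit_pow_iff (Nat.succ_ne_zero n)).1 h4
    apply hμ'
    rw [← neg_sub]
    exact h5.neg
  · refine ⟨n + 1, ?_⟩
    have h2 : Polynomial.aeval v ((Polynomial.X - Polynomial.C μ) ^ (n + 1)) *
        Polynomial.aeval v (b * q) = 0 := by
      rw [← map_mul]
      have h3 : (Polynomial.X - Polynomial.C μ) ^ (n + 1) * (b * q) =
          b * (Polynomial.X - Polynomial.C μ) * minpoly K v := by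
        rw [hq]
        ring
      rw [h3, map_mul, hp, mul_zero]
    rw [h1, mul_one, hx] at h2
    exact h2

omit [IsAlgClosed K] [FiniteDimensional K V] in
/-- the eigenvalue is unique -/
private theorem eig_unique [Nontrivial V] {v : V} {μ μ' : K}
    (h : IsNilpotent (v - algebraMap K V μ)) (h' : IsNilpotent (v - algebraMap K V μ')) :
    μ = μ' := by
  have hc : Commute (v - algebraMap K V μ') (v - algebraMap K V μ) := by
    have c1 : Commute v (algebraMap K V μ) := (Algebra.commutes μ v).symm
    have c2 : Commute (algebraMap K V μ') v := Algebra.commutes μ' v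
    have c3 : Commute (algebraMap K V μ') (algebraMap K V μ) := Algebra.commutes μ' _
    exact ((Commute.refl v).sub_right c1).sub_left (c2.sub_right c3)
  have h1 : IsNilpotent ((v - algebraMap K V μ') - (v - algebraMap K V μ)) := hc.isNilpotent_sub h' h
  have h2 : (v - algebraMap K V μ') - (v - algebraMap K V μ) = algebraMap K V (μ - μ') := by
    rw [map_sub]
    abel
  rw [h2] at h1
  obtain ⟨n, hn⟩ := h1
  rw [← map_pow] at hn
  have h3 : (μ - μ') ^ n = 0 := (algebraMap K V).injective (by rw [hn, map_zero])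
  have h4 : μ - μ' = 0 := eq_zero_of_pow_eq_zero h3
  exact sub_eq_zero.1 h4

omit [NontriviallyNormedField K] [IsAlgClosed K] [Algebra K V] [FiniteDimensional K V] in
private theorem not_unit_of_nil [Nontrivial V] {a : V} (ha : IsNilpotent a) : ¬ IsUnit a := by
  intro h
  obtain ⟨n, hn⟩ := ha
  have h1 := h.pow n
  rw [hn] at h1
  exact not_isUnit_zero h1

/-- nilpotent or unit -/
private theorem nil_or_unit (K : Type*) [NontriviallyNormedField K] [IsAlgClosed K]
    {V : Type*} [Ring V] [Algebra K V] [FiniteDimensional K V] [Nontrivial V]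
    (h : ∀ p : V, p * p = p → p = 0 ∨ p = 1) (v : V) :
    IsNilpotent v ∨ IsUnit v := by
  obtain ⟨μ, hμ⟩ := ex_eig (K := K) h v
  by_cases h0 : μ = 0
  · left
    rw [h0, map_zero, sub_zero] at hμ
    exact hμ
  · right
    have h1 : IsUnit (algebraMap K V μ) := (IsUnit.mk0 μ h0).map (algebraMap K V)
    have h2 : Commute (v - algebraMap K V μ) (algebraMap K V μ) := (Algebra.commutes μ _).symm
    have h3 := IsNilpotent.isUnit_add_left_of_commute hμ h1 h2
    have h4 : algebraMap K V μ + (v - algebraMap K V μ) = v := by abel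
    rw [h4] at h3
    exact h3

omit [NontriviallyNormedField K] [IsAlgClosed K] [Algebra K V] [FiniteDimensional K V] in
private theorem left_inv_nil [Nontrivial V] {a b : V} (ha : IsNilpotent a) (h : b * a = 1) :
    False := by
  obtain ⟨n, hn⟩ := ha
  have h1 : ∀ n : ℕ, b ^ n * a ^ n = 1 := by
    intro n
    induction n with
    | zero => rw [pow_zero, pow_zero, mul_one]
    | succ n ih =>
      rw [pow_succ, pow_succ', mul_assoc, ← mul_assoc b a, h, one_mul, ih]
  have h2 := h1 n
  rw [hn, mul_zero] at h2
  exact zero_ne_one h2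

omit [NontriviallyNormedField K] [IsAlgClosed K] [Algebra K V] [FiniteDimensional K V] in
private theorem right_inv_nil [Nontrivial V] {a b : V} (ha : IsNilpotent a) (h : a * b = 1) :
    False := by
  obtain ⟨n, hn⟩ := ha
  have h1 : ∀ n : ℕ, a ^ n * b ^ n = 1 := by
    intro n
    induction n with
    | zero => rw [pow_zero, pow_zero, mul_one]
    | succ n ih =>
      rw [pow_succ, pow_succ', mul_assoc, ← mul_assoc a b, h, one_mul, ih]
  have h2 := h1 n
  rw [hn, zero_mul] at h2
  exact zero_ne_one h2

private theorem nil_mul_left (K : Type*) [NontriviallyNormedField K] [IsAlgClosed K]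
    {V : Type*} [Ring V] [Algebra K V] [FiniteDimensional K V] [Nontrivial V]
    (h : ∀ p : V, p * p = p → p = 0 ∨ p = 1) (v : V)
    {a : V} (ha : IsNilpotent a) : IsNilpotent (v * a) := by
  rcases nil_or_unit K h (v * a) with h1 | h1
  · exact h1
  · exfalso
    obtain ⟨u, hu⟩ := h1
    refine left_inv_nil ha (b := (↑u⁻¹ : V) * v) ?_
    rw [mul_assoc, ← hu, Units.inv_mul]

private theorem nil_mul_right (K : Type*) [NontriviallyNormedField K] [IsAlgClosed K]
    {V : Type*} [Ring V] [Algebra K V] [FiniteDimensional K V] [Nontrivial V]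
    (h : ∀ p : V, p * p = p → p = 0 ∨ p = 1) (v : V)
    {a : V} (ha : IsNilpotent a) : IsNilpotent (a * v) := by
  rcases nil_or_unit K h (a * v) with h1 | h1
  · exact h1
  · exfalso
    obtain ⟨u, hu⟩ := h1
    refine right_inv_nil ha (b := v * (↑u⁻¹ : V)) ?_
    rw [← mul_assoc, ← hu, Units.mul_inv]

private theorem nil_add (K : Type*) [NontriviallyNormedField K] [IsAlgClosed K]
    {V : Type*} [Ring V] [Algebra K V] [FiniteDimensional K V] [Nontrivial V]
    (h : ∀ p : V, p * p = p → p = 0 ∨ p = 1)
    {a b : V} (ha : IsNilpotent a) (hb : IsNilpotent b) : IsNilpotent (a + b) := by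
  rcases nil_or_unit K h (a + b) with h1 | h1
  · exact h1
  · exfalso
    obtain ⟨u, hu⟩ := h1
    have h2 : (↑u⁻¹ : V) * a + ↑u⁻¹ * b = 1 := by rw [← mul_add, ← hu, Units.inv_mul]
    have h3 : IsUnit (1 - (↑u⁻¹ : V) * a) := (nil_mul_left K h _ ha).isUnit_one_sub
    have h4 : 1 - (↑u⁻¹ : V) * a = ↑u⁻¹ * b := by
      rw [← h2]
      abel
    rw [h4] at h3
    exact not_unit_of_nil (nil_mul_left K h _ hb) h3

theorem local_lam [Nontrivial V] (h : ∀ p : V, p * p = p → p = 0 ∨ p = 1) :
    ∃ (lam : V →ₐ[K] K) (N : ℕ), kerL lam ^ N = ⊥ ∧ (∀ v, lam v = 0 → v ^ N = 0) ∧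
      ∀ v, lam v ≠ 0 → IsUnit v := by
  choose l hl using fun v : V => ex_eig (K := K) h v
  have hu : ∀ (v : V) (μ : K), IsNilpotent (v - algebraMap K V μ) → l v = μ :=
    fun v μ hv => eig_unique (hl v) hv
  obtain ⟨lam, hlam⟩ : ∃ lam : V →ₐ[K] K, ∀ v, lam v = l v := by
    refine ⟨{ toFun := l, map_one' := ?_, map_mul' := ?_, map_zero' := ?_, map_add' := ?_,
              commutes' := ?_ }, fun v => rfl⟩
    · exact hu 1 1 (by rw [map_one, sub_self]; exact IsNilpotent.zero)
    · intro x y
      refine hu _ _ ?_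
      have h1 : x * y - algebraMap K V (l x * l y) =
          (x - algebraMap K V (l x)) * y + algebraMap K V (l x) * (y - algebraMap K V (l y)) := by
        rw [map_mul]
        noncomm_ring
      rw [h1]
      exact nil_add K h (nil_mul_right K h _ (hl x))
        (nil_mul_left K h _ (hl y))
    · exact hu 0 0 (by rw [map_zero, sub_zero]; exact IsNilpotent.zero)
    · intro x y
      refine hu _ _ ?_
      have h1 : x + y - algebraMap K V (l x + l y) =
          (x - algebraMap K V (l x)) + (y - algebraMap K V (l y)) := by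
        rw [map_add]
        abel
      rw [h1]
      exact nil_add K h (hl x) (hl y)
    · intro r
      refine hu _ _ ?_
      show IsNilpotent (algebraMap K V r - algebraMap K V r)
      rw [sub_self]
      exact IsNilpotent.zero
  have hker : ∀ v, v ∈ kerL lam → IsNilpotent v := by
    intro v hv
    have h1 : lam v = 0 := hv
    have h2 := hl v
    rw [← hlam v, h1, map_zero, sub_zero] at h2
    exact h2
  have hart : IsArtinianRing V := IsArtinianRing.of_finite K V
  obtain ⟨N, hN⟩ := IsArtinianRing.isNilpotent_jacobson_bot (R := V)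
  have hsub : ∀ v, v ∈ kerL lam → v ∈ Ideal.jacobson (⊥ : Ideal V) := by
    intro v hv
    rw [Ideal.mem_jacobson_iff]
    intro y
    have h1 : IsUnit (1 + y * v) := (nil_mul_left K h y (hker v hv)).isUnit_one_add
    obtain ⟨u, hu'⟩ := h1
    refine ⟨(↑u⁻¹ : V), ?_⟩
    have h2 : (↑u⁻¹ : V) * y * v + ↑u⁻¹ - 1 = 0 := by
      have h3 : (↑u⁻¹ : V) * (1 + y * v) = 1 := by rw [← hu', Units.inv_mul]
      rw [mul_add, mul_one, ← mul_assoc] at h3
      rw [← h3]
      abel
    rw [h2]
    exact Ideal.zero_mem _
  have hpow : ∀ n : ℕ, ∀ v, v ∈ kerL lam ^ n → v ∈ (Ideal.jacobson (⊥ : Ideal V)) ^ n := by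
    intro n
    induction n with
    | zero =>
      intro v _
      rw [Submodule.pow_zero, Ideal.one_eq_top]
      trivial
    | succ n ih =>
      intro v hv
      rw [Submodule.pow_succ] at hv
      have h1 : kerL lam ^ n * kerL lam ≤
          ((Ideal.jacobson (⊥ : Ideal V)) ^ (n + 1)).restrictScalars K := by
        rw [Submodule.mul_le]
        intro a ha b hb
        show a * b ∈ (Ideal.jacobson (⊥ : Ideal V)) ^ (n + 1)
        rw [Submodule.pow_succ]
        exact Ideal.mul_mem_mul (ih a ha) (hsub b hb)
      exact h1 hv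
  have hbot : kerL lam ^ N = ⊥ := by
    rw [eq_bot_iff]
    intro v hv
    have h1 := hpow N v hv
    rw [hN] at h1
    exact h1
  refine ⟨lam, N, hbot, fun v hv => ?_, fun v hv => ?_⟩
  · have h1 : v ^ N ∈ kerL lam ^ N := Submodule.pow_mem_pow _ (show v ∈ kerL lam from hv) N
    rw [hbot] at h1
    exact h1
  · rcases nil_or_unit K h v with h1 | h1
    · exfalso
      apply hv
      rw [hlam]
      exact hu v 0 (by rw [map_zero, sub_zero]; exact h1)
    · exact h1

end Pool.Agent.Work.MP_6d379e_ag.Ab
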