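import Pool.Agent.Work.MP_6d379e_ag.Ab.Lpol

/-!
# Closure properties of analytic functions on a box   (size M)

* `anOn_add`, `anOn_neg`, `anOn_smul`, `anOn_lpol`, ... : approximate by Laurent polynomials.
* `anOn_lim` : triangle inequality.
* `anOn_bdd` : `f` is within `1` of a Laurent polynomial, which is bounded (`lpol_bdd`).
* `anOn_mul` : let `‖f‖ ≤ C`, `‖g‖ ≤ C` on the box, `C ≥ 1`, and `ε ≤ 1`; choose `P, Q` within
  `ε / (4 * C)` of `f, g`; `f g - P Q = (f - P) g + P (g - Q)`, `‖P‖ ≤ C + 1`; use `lpol_mul`.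
* `anOn_geom` : uniform limit of the finite geometric sums `∑ n in range N, (-h) ^ n`, since
  `(1 + h)⁻¹ - ∑ n in range N, (-h) ^ n = (-h) ^ N / (1 + h)` and `‖1 + h‖ = 1`.
-/

namespace Pool.Agent.Work.MP_6d379e_ag.Ab

variable {ι : Type*} [Fintype ι] {K : Type*} [NontriviallyNormedField K]
variable {U V : Set (Tor ι K)} {f g : Tor ι K → K} {q : Tor ι K} {a b : ι → ℤ}

theorem anOn_mono (h : V ⊆ U) (hf : AnOn U f) : AnOn V f := by
  intro ε hε
  obtain ⟨P, hP⟩ := hf ε hε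
  exact ⟨P, fun t ht => hP t (h ht)⟩

theorem anOn_congr (h : ∀ t ∈ U, g t = f t) (hf : AnOn U f) : AnOn U g := by
  intro ε hε
  obtain ⟨P, hP⟩ := hf ε hε
  refine ⟨P, fun t ht => ?_⟩
  rw [h t ht]
  exact hP t ht

theorem anOn_lpol (U : Set (Tor ι K)) (P : (ι → ℤ) →₀ K) : AnOn U (lpol P) := by
  intro ε hε
  refine ⟨P, fun t _ => ?_⟩
  rw [sub_self, norm_zero]
  exact hε.le

theorem anOn_const (U : Set (Tor ι K)) (c : K) : AnOn U fun _ => c := by
  refine anOn_congr (fun t _ => ?_) (anOn_lpol U (Finsupp.single 0 c))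
  rw [lpol_single, mon_zero, mul_one]

theorem anOn_mon (U : Set (Tor ι K)) (k : ι → ℤ) : AnOn U (mon k) := by
  refine anOn_congr (fun t _ => ?_) (anOn_lpol U (Finsupp.single k 1))
  rw [lpol_single, one_mul]

theorem anOn_add (hf : AnOn U f) (hg : AnOn U g) : AnOn U fun t => f t + g t := by
  intro ε hε
  obtain ⟨P, hP⟩ := hf (ε / 2) (half_pos hε)
  obtain ⟨Q, hQ⟩ := hg (ε / 2) (half_pos hε)
  refine ⟨P + Q, fun t ht => ?_⟩
  have h1 : f t + g t - lpol (P + Q) t = (f t - lpol P t) + (g t - lpol Q t) := by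
    rw [lpol_add]
    ring
  rw [h1]
  have h2 := norm_add_le (f t - lpol P t) (g t - lpol Q t)
  have h3 := hP t ht
  have h4 := hQ t ht
  linarith

theorem anOn_neg (hf : AnOn U f) : AnOn U fun t => -f t := by
  intro ε hε
  obtain ⟨P, hP⟩ := hf ε hε
  refine ⟨-P, fun t ht => ?_⟩
  have h1 : -f t - lpol (-P) t = -(f t - lpol P t) := by
    rw [lpol_neg]
    ring
  rw [h1, norm_neg]
  exact hP t ht

theorem anOn_sub (hf : AnOn U f) (hg : AnOn U g) : AnOn U fun t => f t - g t :=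
  anOn_congr (fun _ _ => sub_eq_add_neg _ _) (anOn_add hf (anOn_neg hg))

theorem anOn_smul (c : K) (hf : AnOn U f) : AnOn U fun t => c * f t := by
  intro ε hε
  have hc : 0 < ‖c‖ + 1 := by positivity
  obtain ⟨P, hP⟩ := hf (ε / (‖c‖ + 1)) (div_pos hε hc)
  refine ⟨c • P, fun t ht => ?_⟩
  have h1 : c * f t - lpol (c • P) t = c * (f t - lpol P t) := by
    rw [lpol_smul]
    ring
  rw [h1, norm_mul]
  have h2 := hP t ht
  calc ‖c‖ * ‖f t - lpol P t‖ ≤ (‖c‖ + 1) * (ε / (‖c‖ + 1)) := by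
        apply mul_le_mul (by linarith) h2 (norm_nonneg _) hc.le
    _ = ε := by field_simp

theorem anOn_sum {α : Type*} (S : Finset α) {F : α → Tor ι K → K}
    (hF : ∀ i ∈ S, AnOn U (F i)) : AnOn U fun t => ∑ i ∈ S, F i t := by
  classical
  induction S using Finset.induction_on with
  | empty =>
    refine anOn_congr (fun t _ => ?_) (anOn_const U (0 : K))
    rw [Finset.sum_empty]
  | insert i S hi ih =>
    refine anOn_congr (fun t _ => ?_) (anOn_add (hF i (Finset.mem_insert_self i S))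
      (ih fun j hj => hF j (Finset.mem_insert_of_mem hj)))
    rw [Finset.sum_insert hi]

theorem anOn_lim (h : ∀ ε : ℝ, 0 < ε → ∃ g : Tor ι K → K, AnOn U g ∧ ∀ t ∈ U, ‖f t - g t‖ ≤ ε) :
    AnOn U f := by
  intro ε hε
  obtain ⟨g, hg, h1⟩ := h (ε / 2) (half_pos hε)
  obtain ⟨P, hP⟩ := hg (ε / 2) (half_pos hε)
  refine ⟨P, fun t ht => ?_⟩
  have h2 : f t - lpol P t = (f t - g t) + (g t - lpol P t) := by ring
  rw [h2]
  have h3 := norm_add_le (f t - g t) (g t - lpol P t)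
  have h4 := h1 t ht
  have h5 := hP t ht
  linarith

theorem anOn_bdd (hf : AnOn (BB q a b) f) : ∃ C : ℝ, ∀ t ∈ BB q a b, ‖f t‖ ≤ C := by
  obtain ⟨P, hP⟩ := hf 1 one_pos
  obtain ⟨C, hC⟩ := lpol_bdd q a b P
  refine ⟨1 + C, fun t ht => ?_⟩
  have h1 : f t = (f t - lpol P t) + lpol P t := by ring
  rw [h1]
  have h2 := norm_add_le (f t - lpol P t) (lpol P t)
  have h3 := hP t ht
  have h4 := hC t ht
  linarith

theorem anOn_mul (hf : AnOn (BB q a b) f) (hg : AnOn (BB q a b) g) :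
    AnOn (BB q a b) fun t => f t * g t := by
  intro ε hε
  obtain ⟨C1, hC1⟩ := anOn_bdd hf
  obtain ⟨C2, hC2⟩ := anOn_bdd hg
  obtain ⟨C, hC0, hCf, hCg⟩ : ∃ C : ℝ, 0 ≤ C ∧ (∀ t ∈ BB q a b, ‖f t‖ ≤ C) ∧
      ∀ t ∈ BB q a b, ‖g t‖ ≤ C := by
    refine ⟨|C1| + |C2|, by positivity, fun t ht => ?_, fun t ht => ?_⟩
    · have h1 := hC1 t ht
      have h2 := le_abs_self C1
      have h3 := abs_nonneg C2
      linarith
    · have h1 := hC2 t ht
      have h2 := le_abs_self C2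
      have h3 := abs_nonneg C1
      linarith
  have hD : 0 < 2 * C + 1 := by linarith
  obtain ⟨δ, hδ0, hδ1, hδ2⟩ : ∃ δ : ℝ, 0 < δ ∧ δ ≤ 1 ∧ δ * (2 * C + 1) ≤ ε := by
    refine ⟨min 1 (ε / (2 * C + 1)), lt_min one_pos (div_pos hε hD), min_le_left _ _, ?_⟩
    calc min 1 (ε / (2 * C + 1)) * (2 * C + 1) ≤ ε / (2 * C + 1) * (2 * C + 1) :=
          mul_le_mul_of_nonneg_right (min_le_right _ _) hD.le
      _ = ε := div_mul_cancel₀ ε hD.ne'
  obtain ⟨P, hP⟩ := hf δ hδ0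
  obtain ⟨Q, hQ⟩ := hg δ hδ0
  obtain ⟨R, hR⟩ := lpol_mul P Q
  refine ⟨R, fun t ht => ?_⟩
  have h1 : f t * g t - lpol R t =
      (f t - lpol P t) * g t + (f t - (f t - lpol P t)) * (g t - lpol Q t) := by
    rw [hR]
    ring
  rw [h1]
  have h2 := hP t ht
  have h3 := hQ t ht
  have h4 := hCf t ht
  have h5 := hCg t ht
  have h6 : ‖f t - (f t - lpol P t)‖ ≤ C + 1 := by
    have h7 := norm_sub_le (f t) (f t - lpol P t)
    linarith
  calc ‖(f t - lpol P t) * g t + (f t - (f t - lpol P t)) * (g t - lpol Q t)‖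
      ≤ ‖(f t - lpol P t) * g t‖ + ‖(f t - (f t - lpol P t)) * (g t - lpol Q t)‖ :=
        norm_add_le _ _
    _ = ‖f t - lpol P t‖ * ‖g t‖ + ‖f t - (f t - lpol P t)‖ * ‖g t - lpol Q t‖ := by
        rw [norm_mul, norm_mul]
    _ ≤ δ * C + (C + 1) * δ :=
        add_le_add (mul_le_mul h2 h5 (norm_nonneg _) hδ0.le)
          (mul_le_mul h6 h3 (norm_nonneg _) (by linarith))
    _ = δ * (2 * C + 1) := by ring
    _ ≤ ε := hδ2

theorem anOn_pow (n : ℕ) (hf : AnOn (BB q a b) f) : AnOn (BB q a b) fun t => f t ^ n := by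
  induction n with
  | zero => exact anOn_congr (fun t _ => pow_zero _) (anOn_const _ (1 : K))
  | succ n ih => exact anOn_congr (fun t _ => pow_succ _ _) (anOn_mul ih hf)

theorem anOn_prod {α : Type*} (S : Finset α) {F : α → Tor ι K → K}
    (hF : ∀ i ∈ S, AnOn (BB q a b) (F i)) : AnOn (BB q a b) fun t => ∏ i ∈ S, F i t := by
  classical
  induction S using Finset.induction_on with
  | empty =>
    refine anOn_congr (fun t _ => ?_) (anOn_const _ (1 : K))
    rw [Finset.prod_empty]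
  | insert i S hi ih =>
    refine anOn_congr (fun t _ => ?_) (anOn_mul (hF i (Finset.mem_insert_self i S))
      (ih fun j hj => hF j (Finset.mem_insert_of_mem hj)))
    rw [Finset.prod_insert hi]

theorem anOn_mul_circ (hf : AnOn circ f) (hg : AnOn circ g) :
    AnOn circ fun t => f t * g t := by
  rw [← BB_one (0 : ι → ℤ) 0] at hf hg ⊢
  exact anOn_mul hf hg

theorem anOn_bdd_circ (hf : AnOn circ f) :
    ∃ C : ℝ, ∀ t ∈ (circ : Set (Tor ι K)), ‖f t‖ ≤ C := by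
  rw [← BB_one (0 : ι → ℤ) 0] at hf ⊢
  exact anOn_bdd hf

theorem anOn_geom [IsUltrametricDist K] (hf : AnOn (BB q a b) f) {ρ : ℝ} (hρ : ρ < 1)
    (h : ∀ t ∈ BB q a b, ‖f t‖ ≤ ρ) : AnOn (BB q a b) fun t => (1 + f t)⁻¹ := by
  refine anOn_lim fun ε hε => ?_
  obtain ⟨N, hN⟩ := exists_pow_lt_of_lt_one hε (max_lt hρ one_pos : max ρ 0 < 1)
  refine ⟨fun t => ∑ n ∈ Finset.range N, (-f t) ^ n,
    anOn_sum _ fun n _ => anOn_pow n (anOn_neg hf), fun t ht => ?_⟩
  have h1 := h t ht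
  have h2 : ‖1 + f t‖ = 1 := by
    have h5 : ‖(1 : K)‖ ≠ ‖f t‖ := by
      rw [norm_one]
      exact (lt_of_le_of_lt h1 hρ).ne'
    rw [IsUltrametricDist.norm_add_eq_max_of_norm_ne_norm h5, norm_one]
    exact max_eq_left (by linarith)
  have h3 : 1 + f t ≠ 0 := by
    rw [← norm_pos_iff, h2]
    exact one_pos
  have h4 : (1 + f t)⁻¹ - ∑ n ∈ Finset.range N, (-f t) ^ n = (1 + f t)⁻¹ * (-f t) ^ N := by
    have h5 := geom_sum_mul (-f t) N
    have h6 : ∑ n ∈ Finset.range N, (-f t) ^ n = (1 + f t)⁻¹ * (1 - (-f t) ^ N) := by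
      rw [eq_inv_mul_iff_mul_eq₀ h3]
      linear_combination -h5
    rw [h6]
    ring
  rw [h4, norm_mul, norm_inv, h2, inv_one, one_mul, norm_pow, norm_neg]
  exact (pow_le_pow_left₀ (norm_nonneg _) (h1.trans (le_max_left ρ 0)) N).trans hN.le

end Pool.Agent.Work.MP_6d379e_ag.Ab
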