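import Pool.Agent.Work.MP_6d379e_ag.Ab.CDefs

/-!
# Vector-valued analytic functions on the polycircle   (size M)

`V`, `W` finite-dimensional.  `AnA2 c` says exactly that `z ↦ c (z ∘ inl) (z ∘ inr)` is `AnA` on the
product torus with index type `κ ⊕ κ` (unfold `J2`); so every statement on `AnA2` is an instance of
the one for `AnA` on `κ ⊕ κ`, composed with monomial maps (`anOn_isMono`, `isMono_inl`,
`isMono_inr`, `isMono_mul`, which preserve `circ`).

* `anA_of_basis` : every functional is a combination of the coordinates.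
* `anA_mul` : expand both factors in a basis: `ℓ (c x * d x)` is a finite sum of
  `coord b (c x) * coord b' (d x) * ℓ (b * b')` (`anOn_mul_circ`, `anOn_smul`, `anOn_sum`).
* `anA2_alpha` : `α y (w x) = ∑ b, coord b (w x) • α y b`.
* `anA_iff_scalar` : for `V = K` the functionals are multiplications.
-/

namespace Pool.Agent.Work.MP_6d379e_ag.Ab

variable {κ κ' : Type*} [Fintype κ] [Fintype κ'] {K : Type*} [NontriviallyNormedField K]

section mod

variable {V W : Type*} [AddCommGroup V] [Module K V] [AddCommGroup W] [Module K W]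
variable {c d : Tor κ K → V} {c2 d2 : Tor κ K → Tor κ K → V}

theorem anA_congr (h : ∀ x ∈ (circ : Set (Tor κ K)), d x = c x) (hc : AnA c) : AnA d :=
  fun ℓ => anOn_congr (fun t ht => by rw [h t ht]) (hc ℓ)

private theorem cinl {z : Tor (κ ⊕ κ) K} (hz : z ∈ (circ : Set (Tor (κ ⊕ κ) K))) :
    (fun j => z (Sum.inl j)) ∈ (circ : Set (Tor κ K)) := fun j => hz (Sum.inl j)

private theorem cinr {z : Tor (κ ⊕ κ) K} (hz : z ∈ (circ : Set (Tor (κ ⊕ κ) K))) :
    (fun j => z (Sum.inr j)) ∈ (circ : Set (Tor κ K)) := fun j => hz (Sum.inr j)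

private theorem celim {x y : Tor κ K} (hx : x ∈ (circ : Set (Tor κ K)))
    (hy : y ∈ (circ : Set (Tor κ K))) :
    (Sum.elim x y : Tor (κ ⊕ κ) K) ∈ (circ : Set (Tor (κ ⊕ κ) K)) := by
  intro i
  rcases i with i | i
  · exact hx i
  · exact hy i

private theorem cmul {x y : Tor κ K} (hx : x ∈ (circ : Set (Tor κ K)))
    (hy : y ∈ (circ : Set (Tor κ K))) : x * y ∈ (circ : Set (Tor κ K)) := by
  intro i
  rw [Pi.mul_apply, Units.val_mul, norm_mul, hx i, hy i, one_mul]

theorem anA2_congr (h : ∀ x ∈ (circ : Set (Tor κ K)), ∀ y ∈ (circ : Set (Tor κ K)),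
    d2 x y = c2 x y) (hc : AnA2 c2) : AnA2 d2 := by
  intro ℓ
  refine anOn_congr (fun z hz => ?_) (hc ℓ)
  show ℓ (d2 _ _) = ℓ (c2 _ _)
  rw [h _ (cinl hz) _ (cinr hz)]

theorem anA_const (v : V) : AnA fun _ : Tor κ K => v := fun ℓ => anOn_const _ (ℓ v)

theorem anA_add (hc : AnA c) (hd : AnA d) : AnA fun x => c x + d x :=
  fun ℓ => anOn_congr (fun _ _ => map_add ℓ _ _) (anOn_add (hc ℓ) (hd ℓ))

theorem anA_sub (hc : AnA c) (hd : AnA d) : AnA fun x => c x - d x :=
  fun ℓ => anOn_congr (fun _ _ => map_sub ℓ _ _) (anOn_sub (hc ℓ) (hd ℓ))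

theorem anA_smul {g : Tor κ K → K} (hg : AnOn circ g) (hc : AnA c) :
    AnA fun x => g x • c x :=
  fun ℓ => anOn_congr (fun t _ => by rw [map_smul, smul_eq_mul]) (anOn_mul_circ hg (hc ℓ))

theorem anA_sum {α : Type*} (S : Finset α) {F : α → Tor κ K → V} (hF : ∀ i ∈ S, AnA (F i)) :
    AnA fun x => ∑ i ∈ S, F i x :=
  fun ℓ => anOn_congr (fun _ _ => map_sum ℓ _ _)
    (anOn_sum S (F := fun i x => ℓ (F i x)) fun i hi => hF i hi ℓ)

theorem anA_lin (T : V →ₗ[K] W) (hc : AnA c) : AnA fun x => T (c x) :=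
  fun ℓ => hc (ℓ ∘ₗ T)

theorem anA_comp {τ : Tor κ' K → Tor κ K} (hτ : IsMono τ)
    (hτc : ∀ x ∈ (circ : Set (Tor κ' K)), τ x ∈ (circ : Set (Tor κ K))) (hc : AnA c) :
    AnA fun x => c (τ x) :=
  fun ℓ => anOn_isMono hτ hτc (hc ℓ)

theorem anA_of_basis {n : ℕ} (b : Module.Basis (Fin n) K V)
    (h : ∀ i, AnOn circ fun x => b.coord i (c x)) : AnA c := by
  intro ℓ
  refine anOn_congr (fun t _ => ?_)
    (anOn_sum Finset.univ (F := fun i t => ℓ (b i) * b.coord i (c t))
      fun i _ => anOn_smul (ℓ (b i)) (h i))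
  conv_lhs => rw [← b.sum_repr (c t)]
  rw [map_sum]
  refine Finset.sum_congr rfl fun i _ => ?_
  rw [map_smul, smul_eq_mul, mul_comm, Module.Basis.coord_apply]

theorem anA_scalar {g : Tor κ K → K} : AnA g ↔ AnOn circ g := by
  constructor
  · intro h
    exact h LinearMap.id
  · intro h ℓ
    refine anOn_congr (fun t _ => ?_) (anOn_smul (ℓ 1) h)
    rw [mul_comm, ← smul_eq_mul, ← map_smul, smul_eq_mul, mul_one]

theorem anA2_scalar {g : Tor κ K → Tor κ K → K} : AnA2 g ↔ AnOn circ (J2 g) :=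
  anA_scalar (g := J2 g)

theorem anA2_iff : AnA2 c2 ↔
    AnA (fun z : Tor (κ ⊕ κ) K => c2 (fun j => z (Sum.inl j)) (fun j => z (Sum.inr j))) :=
  Iff.rfl

theorem anA2_fst (hc : AnA c) : AnA2 fun x _ => c x :=
  anA2_iff.2 (anA_comp isMono_inl (fun _ hz => cinl hz) hc)

theorem anA2_snd (hc : AnA c) : AnA2 fun _ y => c y :=
  anA2_iff.2 (anA_comp isMono_inr (fun _ hz => cinr hz) hc)

theorem anA2_comp_mul (hc : AnA c) : AnA2 fun x y => c (x * y) :=
  anA2_iff.2 (anA_comp (isMono_mul isMono_inl isMono_inr) (fun _ hz => cmul (cinl hz) (cinr hz)) hc)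

theorem anA2_lin (T : V →ₗ[K] W) (hc : AnA2 c2) : AnA2 fun x y => T (c2 x y) :=
  fun ℓ => hc (ℓ ∘ₗ T)

theorem anA2_fibx (hc : AnA2 c2) {y : Tor κ K} (hy : y ∈ (circ : Set (Tor κ K))) :
    AnA fun x => c2 x y :=
  fun ℓ => anOn_isMono (isMono_elim isMono_id (isMono_const y)) (fun _ hx => celim hx hy) (hc ℓ)

theorem anA2_fiby (hc : AnA2 c2) {x : Tor κ K} (hx : x ∈ (circ : Set (Tor κ K))) :
    AnA fun y => c2 x y :=
  fun ℓ => anOn_isMono (isMono_elim (isMono_const x) isMono_id) (fun _ hy => celim hx hy) (hc ℓ)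

theorem anA2_sub (hc : AnA2 c2) (hd : AnA2 d2) : AnA2 fun x y => c2 x y - d2 x y :=
  anA2_iff.2 (anA_sub (anA2_iff.1 hc) (anA2_iff.1 hd))

theorem anA2_alpha [FiniteDimensional K V] {α : Tor κ K → V →ₗ[K] V}
    (hα : ∀ v, AnA fun y => α y v) (hc : AnA c) : AnA2 fun x y => α y (c x) := by
  have h1 : AnA2 fun x y => ∑ b, (Module.finBasis K V).coord b (c x) •
      α y (Module.finBasis K V b) := by
    refine anA2_iff.2 (anA_sum Finset.univ fun b _ => ?_)
    refine anA_smul ?_ ?_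
    · exact anA_scalar.1 (anA2_iff.1 (anA2_fst (anA_lin ((Module.finBasis K V).coord b) hc)))
    · exact anA2_iff.1 (anA2_snd (hα (Module.finBasis K V b)))
  refine anA2_congr (fun x _ y _ => ?_) h1
  conv_lhs => rw [← (Module.finBasis K V).sum_repr (c x)]
  rw [map_sum]
  refine Finset.sum_congr rfl fun i _ => ?_
  rw [map_smul, Module.Basis.coord_apply]

end mod

section alg

variable {V : Type*} [Ring V] [Algebra K V] [FiniteDimensional K V]
variable {c d : Tor κ K → V} {c2 d2 : Tor κ K → Tor κ K → V}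

theorem anA_mul (hc : AnA c) (hd : AnA d) : AnA fun x => c x * d x := by
  have h1 : AnA fun x => ∑ i, ∑ j, ((Module.finBasis K V).coord i (c x) *
      (Module.finBasis K V).coord j (d x)) • (Module.finBasis K V i * Module.finBasis K V j) := by
    refine anA_sum Finset.univ fun i _ => anA_sum Finset.univ fun j _ => ?_
    exact anA_smul (anOn_mul_circ (hc _) (hd _)) (anA_const _)
  refine anA_congr (fun x _ => ?_) h1
  conv_lhs => rw [← (Module.finBasis K V).sum_repr (c x), ← (Module.finBasis K V).sum_repr (d x)]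
  rw [Finset.sum_mul_sum]
  refine Finset.sum_congr rfl fun i _ => Finset.sum_congr rfl fun j _ => ?_
  rw [smul_mul_smul_comm, Module.Basis.coord_apply, Module.Basis.coord_apply]

theorem anA_pow (n : ℕ) (hc : AnA c) : AnA fun x => c x ^ n := by
  induction n with
  | zero => exact anA_congr (fun x _ => pow_zero _) (anA_const (1 : V))
  | succ n ih => exact anA_congr (fun x _ => pow_succ _ _) (anA_mul ih hc)

theorem anA2_mul (hc : AnA2 c2) (hd : AnA2 d2) : AnA2 fun x y => c2 x y * d2 x y :=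
  anA2_iff.2 (anA_mul (anA2_iff.1 hc) (anA2_iff.1 hd))

end alg

end Pool.Agent.Work.MP_6d379e_ag.Ab
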