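import Pool.Agent.Work.MP_6d379e_ag.Ab.CAna

/-!
# Mean values of vector-valued functions   (size M)

* `avgA_apply` : `ℓ = ∑ b, ℓ b • coord b`, linearity of `avg = cf · 0` (`cf_sum`, `cf_smul`).
* `avgA_ext_iff`-type arguments: two vectors are equal iff all functionals agree.
* `avgA_translate` : `cf_translate` at exponent `0` (`mon_zero`).
* `avgA_mem` : a subspace is the common kernel of functionals
  (`Submodule.exists_le_ker_of_notMem` / dual annihilator); for such `ℓ`,
  `ℓ (avgA c) = avg 0 = 0`.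
* `avgA_an` : `ℓ (avgA (c · y)) = cf (fun x => ℓ (c x y)) 0`, analytic in `y` by `xcf_an` on the
  product `circ x circ` : use `An2 1 0 0` (`BB_one`, `Sum.elim 1 1 = 1`), `F x y = ℓ (c x y)`.
-/

namespace Pool.Agent.Work.MP_6d379e_ag.Ab

variable {κ : Type*} [Fintype κ] {K : Type*} [NontriviallyNormedField K]
variable [IsUltrametricDist K] [CompleteSpace K] [IsAlgClosed K] [CharZero K]
variable {V W : Type*} [AddCommGroup V] [Module K V] [FiniteDimensional K V]
variable [AddCommGroup W] [Module K W] [FiniteDimensional K W]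
variable {c d : Tor κ K → V}

omit [IsUltrametricDist K] [CompleteSpace K] [IsAlgClosed K] [CharZero K] in
private theorem ca_ext {v w : V} (h : ∀ ℓ : V →ₗ[K] K, ℓ v = ℓ w) : v = w :=
  (Module.finBasis K V).ext_elem fun i => h ((Module.finBasis K V).coord i)

theorem avgA_apply (hc : AnA c) (ℓ : V →ₗ[K] K) : ℓ (avgA c) = avg fun x => ℓ (c x) := by
  have h1 : (fun x => ℓ (c x)) = fun x => ∑ b, (fun (b : Fin (Module.finrank K V)) (x : Tor κ K) =>
      ℓ (Module.finBasis K V b) * (Module.finBasis K V).coord b (c x)) b x := by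
    funext x
    have h2 := (Module.finBasis K V).sum_repr (c x)
    have h3 := congrArg ℓ h2
    rw [map_sum] at h3
    rw [← h3]
    refine Finset.sum_congr rfl fun b _ => ?_
    rw [map_smul, smul_eq_mul, mul_comm]
    rfl
  unfold avg
  rw [h1, cf_sum Finset.univ (fun b _ => anOn_smul _ (hc ((Module.finBasis K V).coord b)))]
  unfold avgA
  rw [map_sum]
  refine Finset.sum_congr rfl fun b _ => ?_
  rw [map_smul, smul_eq_mul, cf_smul _ (hc ((Module.finBasis K V).coord b)), mul_comm]
  rfl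

theorem avgA_congr (h : ∀ x ∈ (circ : Set (Tor κ K)), c x = d x) : avgA c = avgA d := by
  unfold avgA avg
  refine Finset.sum_congr rfl fun b _ => ?_
  rw [cf_congr (f := fun x => (Module.finBasis K V).coord b (c x))
    (g := fun x => (Module.finBasis K V).coord b (d x)) fun x hx => by rw [h x hx]]

theorem avgA_const (v : V) : avgA (fun _ : Tor κ K => v) = v := by
  refine ca_ext (K := K) fun ℓ => ?_
  rw [avgA_apply (anA_const v)]
  exact cf_const (ℓ v)

theorem avgA_add (hc : AnA c) (hd : AnA d) :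
    avgA (fun x => c x + d x) = avgA c + avgA d := by
  refine ca_ext (K := K) fun ℓ => ?_
  rw [avgA_apply (anA_add hc hd), map_add, avgA_apply hc, avgA_apply hd]
  unfold avg
  simp only [map_add]
  rw [cf_add (hc ℓ) (hd ℓ)]
  rfl

theorem avgA_sub (hc : AnA c) (hd : AnA d) :
    avgA (fun x => c x - d x) = avgA c - avgA d := by
  refine ca_ext (K := K) fun ℓ => ?_
  rw [avgA_apply (anA_sub hc hd), map_sub, avgA_apply hc, avgA_apply hd]
  unfold avg
  simp only [map_sub]
  rw [cf_sub (hc ℓ) (hd ℓ)]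
  rfl

theorem avgA_lin (T : V →ₗ[K] W) (hc : AnA c) : avgA (fun x => T (c x)) = T (avgA c) := by
  refine ca_ext (K := K) fun ℓ => ?_
  rw [avgA_apply (anA_lin T hc)]
  exact (avgA_apply hc (ℓ.comp T)).symm

theorem avgA_translate (hc : AnA c) {s : Tor κ K} (hs : s ∈ (circ : Set (Tor κ K))) :
    avgA (fun x => c (x * s)) = avgA c := by
  have h1 : AnA fun x => c (x * s) :=
    anA_comp (isMono_mul isMono_id (isMono_const s)) (fun x hx => circ_mul hx hs) hc
  refine ca_ext (K := K) fun ℓ => ?_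
  rw [avgA_apply h1, avgA_apply hc]
  have h2 : (fun x => ℓ (c (x * s))) = fun x => (fun x => ℓ (c x)) (s * x) := by
    funext x
    show ℓ (c (x * s)) = ℓ (c (s * x))
    rw [mul_comm]
  unfold avg
  rw [h2, cf_translate hs (hc ℓ), mon_zero, one_mul]

theorem avgA_mem {S : Submodule K V} (hc : AnA c)
    (h : ∀ x ∈ (circ : Set (Tor κ K)), c x ∈ S) : avgA c ∈ S := by
  by_contra hn
  obtain ⟨ℓ, h1, h2⟩ := Submodule.exists_le_ker_of_notMem hn
  apply h1
  rw [avgA_apply hc]
  unfold avg
  rw [cf_eq_zero fun x hx => h2 (h x hx)]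
  rfl

theorem avgA_an {c2 : Tor κ K → Tor κ K → V} (hc : AnA2 c2) :
    AnA fun y => avgA fun x => c2 x y := by
  intro ℓ
  have h1 : An2 (1 : Tor κ K) 0 0 fun x y => ℓ (c2 x y) := by
    refine anOn_mono ?_ (hc ℓ)
    intro z hz
    obtain ⟨z1, z2⟩ := (mem_BB_sum (1 : Tor κ K) 0 0 z).1 hz
    rw [BB_one] at z2
    rintro (i | i)
    · exact z1 i
    · exact z2 i
  have h2 := xcf_an h1 0
  rw [BB_one] at h2
  exact anOn_congr (fun y hy => avgA_apply (anA2_fibx hc hy) ℓ) h2

theorem avgA_scalar {g : Tor κ K → K} (hg : AnOn circ g) : avgA g = avg g :=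
  avgA_apply (anA_scalar.2 hg) LinearMap.id

theorem avg_le {g : Tor κ K → K} (hg : AnOn circ g) {C : ℝ}
    (h : ∀ x ∈ (circ : Set (Tor κ K)), ‖g x‖ ≤ C) : ‖avg g‖ ≤ C :=
  cf_le_circ hg h 0

end Pool.Agent.Work.MP_6d379e_ag.Ab
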