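import Pool.Agent.Work.MP_6d379e_ag.Ab.Glob

/-!
# Joint analyticity on (polycircle) x (torus)   (size M)

Write `D r = {z | (∀ j, ‖z (inl j)‖ = 1) ∧ ∀ i, r⁻¹ ≤ ‖z (inr i)‖ ≤ r}`.
With `‖q i‖ < 1` these sets are cofinal with the boxes
`BB (Sum.elim 1 q) (Sum.elim 0 N) (Sum.elim 0 N)` (`mem_BB_sum`, `ibox_subset_BB`,
`BB_subset_ibox`): `ana2_iff_An2`.  Algebra: `Alg` on the boxes.

* `ana2_comp` : `(x, t) ↦ (σ x t, τ x t)` is a monomial map of the product tori (`isMono_elim`); it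
  maps `D r` into some `D r'` : first components by `hc`, second components by `isMono_ibox`
  applied on `ibox r` of the product torus (which contains `D r`); then `anOn_isMono`.
* `ana2_fst` : the map `z ↦ z ∘ inl` is monomial and maps `D r` into `circ`.
* `ana2_fib` : `t ↦ Sum.elim x t` is monomial (constant and identity), maps `ibox r` into `D r`.
* `ana2_at` : `x ↦ Sum.elim x t` maps `circ` into `D r` for large `r`.
* `ana2_zero_of_circ` : for fixed `x` use `ana_eq_of_circ`.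
-/

namespace Pool.Agent.Work.MP_6d379e_ag.Ab

variable {ι κ ι' κ' : Type*} [Fintype ι] [Fintype κ] [Fintype ι'] [Fintype κ']
variable {K : Type*} [NontriviallyNormedField K]
variable {q : Tor ι K} {F G : Tor κ K → Tor ι K → K}

private theorem box_sub (q : Tor ι K) (a b : ι → ℤ) : ∃ r : ℝ, 1 ≤ r ∧
    BB (Sum.elim (1 : Tor κ K) q) (Sum.elim (0 : κ → ℤ) a) (Sum.elim (0 : κ → ℤ) b) ⊆
      {z : Tor (κ ⊕ ι) K | (∀ j, ‖(z (Sum.inl j) : K)‖ = 1) ∧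
        ∀ i, r⁻¹ ≤ ‖(z (Sum.inr i) : K)‖ ∧ ‖(z (Sum.inr i) : K)‖ ≤ r} := by
  obtain ⟨r, hr, h⟩ := BB_subset_ibox q a b
  refine ⟨r, hr, fun z hz => ?_⟩
  rw [mem_BB_sum] at hz
  exact ⟨hz.1, h hz.2⟩

private theorem sub_box {q : Tor ι K} (hq : ∀ i, ‖(q i : K)‖ < 1) (r : ℝ) : ∃ N : ℕ,
    {z : Tor (κ ⊕ ι) K | (∀ j, ‖(z (Sum.inl j) : K)‖ = 1) ∧
        ∀ i, r⁻¹ ≤ ‖(z (Sum.inr i) : K)‖ ∧ ‖(z (Sum.inr i) : K)‖ ≤ r} ⊆
    BB (Sum.elim (1 : Tor κ K) q) (Sum.elim (0 : κ → ℤ) (fun _ => (N : ℤ)))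
      (Sum.elim (0 : κ → ℤ) (fun _ => (N : ℤ))) := by
  obtain ⟨N, h⟩ := ibox_subset_BB hq r
  refine ⟨N, fun z hz => ?_⟩
  rw [mem_BB_sum]
  exact ⟨hz.1, h hz.2⟩

private theorem sub_ibox {r : ℝ} (hr : 1 ≤ r) :
    {z : Tor (κ ⊕ ι) K | (∀ j, ‖(z (Sum.inl j) : K)‖ = 1) ∧
        ∀ i, r⁻¹ ≤ ‖(z (Sum.inr i) : K)‖ ∧ ‖(z (Sum.inr i) : K)‖ ≤ r} ⊆ ibox r := by
  intro z hz i
  rcases i with j | i
  · rw [hz.1 j]
    exact ⟨inv_le_one_of_one_le₀ hr, hr⟩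
  · exact hz.2 i

private theorem mem_ibox (t : Tor ι K) : ∃ r : ℝ, 1 ≤ r ∧ t ∈ (ibox r : Set (Tor ι K)) := by
  obtain ⟨r, hr, h⟩ := BB_subset_ibox t (fun _ => 1) (fun _ => -1)
  refine ⟨r, hr, h fun i => ?_⟩
  show ‖(t i : K)‖ ^ (1 : ℤ) ≤ ‖(t i : K)‖ ∧ ‖(t i : K)‖ ≤ ‖(t i : K)‖ ^ (-(-1 : ℤ))
  rw [neg_neg, zpow_one]
  exact ⟨le_rfl, le_rfl⟩

theorem ana2_iff_An2 (hq : ∀ i, ‖(q i : K)‖ < 1) :
    Ana2 F ↔ ∀ N : ℕ, An2 q (fun _ => (N : ℤ)) (fun _ => (N : ℤ)) F := by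
  constructor
  · intro hF N
    obtain ⟨r, hr, h⟩ := box_sub (κ := κ) q (fun _ => (N : ℤ)) (fun _ => (N : ℤ))
    exact anOn_mono h (hF r hr)
  · intro hF r _
    obtain ⟨N, h⟩ := sub_box (κ := κ) hq r
    exact anOn_mono h (hF N)

theorem ana2_An2 (hF : Ana2 F) (q : Tor ι K) (a b : ι → ℤ) : An2 q a b F := by
  obtain ⟨r, hr, h⟩ := box_sub (κ := κ) q a b
  exact anOn_mono h (hF r hr)

theorem ana2_congr (h : ∀ x ∈ (circ : Set (Tor κ K)), ∀ t, G x t = F x t) (hF : Ana2 F) :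
    Ana2 G :=
  fun r hr => anOn_congr (fun z hz => h _ hz.1 _) (hF r hr)

theorem ana2_const (c : K) : Ana2 fun (_ : Tor κ K) (_ : Tor ι K) => c :=
  fun _ _ => anOn_const _ c

theorem ana2_add (hF : Ana2 F) (hG : Ana2 G) : Ana2 fun x t => F x t + G x t :=
  fun r hr => anOn_add (hF r hr) (hG r hr)

theorem ana2_neg (hF : Ana2 F) : Ana2 fun x t => -F x t :=
  fun r hr => anOn_neg (hF r hr)

theorem ana2_sub (hF : Ana2 F) (hG : Ana2 G) : Ana2 fun x t => F x t - G x t :=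
  fun r hr => anOn_sub (hF r hr) (hG r hr)

theorem ana2_mul (hF : Ana2 F) (hG : Ana2 G) : Ana2 fun x t => F x t * G x t := by
  obtain ⟨q, hq⟩ := exists_small ι K
  refine (ana2_iff_An2 hq).2 fun N => ?_
  exact anOn_mul (ana2_An2 hF q _ _) (ana2_An2 hG q _ _)

theorem ana2_smul (c : K) (hF : Ana2 F) : Ana2 fun x t => c * F x t :=
  fun r hr => anOn_smul c (hF r hr)

theorem ana2_sum {α : Type*} (S : Finset α) {F : α → Tor κ K → Tor ι K → K}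
    (hF : ∀ i ∈ S, Ana2 (F i)) : Ana2 fun x t => ∑ i ∈ S, F i x t := by
  intro r hr
  exact anOn_sum (F := fun i => J2 (F i)) S fun i hi => hF i hi r hr

theorem ana2_fst {g : Tor κ K → K} (hg : AnOn circ g) :
    Ana2 fun (x : Tor κ K) (_ : Tor ι K) => g x :=
  fun _ _ => anOn_isMono isMono_inl (fun _ hz => hz.1) hg

theorem ana2_comp {σ : Tor κ' K → Tor ι' K → Tor κ K} {τ : Tor κ' K → Tor ι' K → Tor ι K}
    (hσ : IsMono fun z : Tor (κ' ⊕ ι') K => σ (fun j => z (Sum.inl j)) (fun i => z (Sum.inr i)))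
    (hτ : IsMono fun z : Tor (κ' ⊕ ι') K => τ (fun j => z (Sum.inl j)) (fun i => z (Sum.inr i)))
    (hc : ∀ x ∈ (circ : Set (Tor κ' K)), ∀ t, σ x t ∈ (circ : Set (Tor κ K)))
    (hF : Ana2 F) : Ana2 fun x t => F (σ x t) (τ x t) := by
  intro r hr
  obtain ⟨r', hr', h⟩ := isMono_ibox hτ hr
  have h1 := hF r' hr'
  refine anOn_isMono (isMono_elim hσ hτ) ?_ h1
  exact fun z hz => ⟨hc _ hz.1 _, h z (sub_ibox hr hz)⟩

theorem ana2_of_ana {τ : Tor κ K → Tor ι' K → Tor ι K}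
    (hτ : IsMono fun z : Tor (κ ⊕ ι') K => τ (fun j => z (Sum.inl j)) (fun i => z (Sum.inr i)))
    {f : Tor ι K → K} (hf : Ana f) : Ana2 fun x t => f (τ x t) := by
  intro r hr
  obtain ⟨r', hr', h⟩ := isMono_ibox hτ hr
  exact anOn_isMono hτ (fun z hz => h z (sub_ibox hr hz)) (hf r' hr')

theorem ana2_translate (s : Tor ι K) (hF : Ana2 F) : Ana2 fun x t => F x (s * t) :=
  ana2_comp (σ := fun x _ => x) (τ := fun _ t => s * t) isMono_inl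
    (isMono_mul (isMono_const s) isMono_inr) (fun _ hx _ => hx) hF

theorem ana2_fib (hF : Ana2 F) {x : Tor κ K} (hx : x ∈ (circ : Set (Tor κ K))) :
    Ana (F x) := by
  intro r hr
  have h1 := hF r hr
  refine anOn_isMono (isMono_elim (isMono_const x) isMono_id) ?_ h1
  exact fun _ ht => ⟨hx, ht⟩

theorem ana2_at (hF : Ana2 F) (t : Tor ι K) : AnOn circ fun x => F x t := by
  obtain ⟨r, hr, h⟩ := mem_ibox t
  have h1 := hF r hr
  refine anOn_isMono (isMono_elim isMono_id (isMono_const t)) ?_ h1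
  exact fun _ hx => ⟨hx, h⟩

section mat

variable {ν ν' ν'' : Type*} [Fintype ν] [Fintype ν'] [Fintype ν'']

theorem ana2M_congr {Φ Ψ : Tor κ K → Tor ι K → Matrix ν ν' K}
    (h : ∀ x ∈ (circ : Set (Tor κ K)), ∀ t, Ψ x t = Φ x t) (hΦ : Ana2M Φ) : Ana2M Ψ :=
  fun i j => ana2_congr (fun x hx t => by rw [h x hx t]) (hΦ i j)

theorem ana2M_add {Φ Ψ : Tor κ K → Tor ι K → Matrix ν ν' K} (hΦ : Ana2M Φ) (hΨ : Ana2M Ψ) :
    Ana2M fun x t => Φ x t + Ψ x t :=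
  fun i j => ana2_add (hΦ i j) (hΨ i j)

theorem ana2M_sub {Φ Ψ : Tor κ K → Tor ι K → Matrix ν ν' K} (hΦ : Ana2M Φ) (hΨ : Ana2M Ψ) :
    Ana2M fun x t => Φ x t - Ψ x t :=
  fun i j => ana2_sub (hΦ i j) (hΨ i j)

theorem ana2M_mul {Φ : Tor κ K → Tor ι K → Matrix ν ν' K} {Ψ : Tor κ K → Tor ι K → Matrix ν' ν'' K}
    (hΦ : Ana2M Φ) (hΨ : Ana2M Ψ) : Ana2M fun x t => Φ x t * Ψ x t := by
  intro i j
  have h1 : (fun x t => (Φ x t * Ψ x t) i j) = fun x t => ∑ k, Φ x t i k * Ψ x t k j := by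
    funext x t
    rw [Matrix.mul_apply]
  rw [h1]
  exact ana2_sum Finset.univ fun k _ => ana2_mul (hΦ i k) (hΨ k j)

theorem ana2M_smul {g : Tor κ K → K} (hg : AnOn circ g) {Φ : Tor κ K → Tor ι K → Matrix ν ν' K}
    (hΦ : Ana2M Φ) : Ana2M fun x t => g x • Φ x t :=
  fun i j => ana2_mul (ana2_fst hg) (hΦ i j)

theorem ana2M_of_anaM {τ : Tor κ K → Tor ι' K → Tor ι K}
    (hτ : IsMono fun z : Tor (κ ⊕ ι') K => τ (fun j => z (Sum.inl j)) (fun i => z (Sum.inr i)))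
    {Φ : Tor ι K → Matrix ν ν' K} (hΦ : AnaM Φ) : Ana2M fun x t => Φ (τ x t) :=
  fun i j => ana2_of_ana hτ (hΦ i j)

theorem ana2M_comp {σ : Tor κ' K → Tor ι' K → Tor κ K} {τ : Tor κ' K → Tor ι' K → Tor ι K}
    (hσ : IsMono fun z : Tor (κ' ⊕ ι') K => σ (fun j => z (Sum.inl j)) (fun i => z (Sum.inr i)))
    (hτ : IsMono fun z : Tor (κ' ⊕ ι') K => τ (fun j => z (Sum.inl j)) (fun i => z (Sum.inr i)))
    (hc : ∀ x ∈ (circ : Set (Tor κ' K)), ∀ t, σ x t ∈ (circ : Set (Tor κ K)))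
    {Φ : Tor κ K → Tor ι K → Matrix ν ν' K} (hΦ : Ana2M Φ) :
    Ana2M fun x t => Φ (σ x t) (τ x t) :=
  fun i j => ana2_comp hσ hτ hc (hΦ i j)

theorem ana2M_fib {Φ : Tor κ K → Tor ι K → Matrix ν ν' K} (hΦ : Ana2M Φ) {x : Tor κ K}
    (hx : x ∈ (circ : Set (Tor κ K))) : AnaM (Φ x) :=
  fun i j => ana2_fib (hΦ i j) hx

end mat

end Pool.Agent.Work.MP_6d379e_ag.Ab
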