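import Pool.Agent.Work.MP_6d379e_ag.Ab.Fib
import Pool.Agent.Work.MP_6d379e_ag.Ab.Glob2

/-!
# Definitions for the cocycle part (FIXED, do not change)

`V` is a finite-dimensional algebra over `K` (not necessarily commutative).

* `AnA c` : the function `c : Tor κ K → V` is analytic on the polycircle (all linear functionals).
* `AnA2 c` : the same for functions of two variables in the polycircle.
* `avgA c` : the mean value over the polycircle.
* `CocD c ci α` : twisted cocycle data.
* `twc` : the cocycle twisted by `w`; `twa` : the twisted action.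
-/

namespace Pool.Agent.Work.MP_6d379e_ag.Ab

variable {κ : Type*} [Fintype κ] {K : Type*} [NontriviallyNormedField K]
variable {V : Type*} [Ring V] [Algebra K V]

/-- analytic functions on the polycircle with values in a finite-dimensional space -/
def AnA {V : Type*} [AddCommGroup V] [Module K V] (c : Tor κ K → V) : Prop :=
  ∀ ℓ : V →ₗ[K] K, AnOn circ fun x => ℓ (c x)

/-- analytic functions of two variables in the polycircle -/
def AnA2 {V : Type*} [AddCommGroup V] [Module K V] (c : Tor κ K → Tor κ K → V) : Prop :=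
  ∀ ℓ : V →ₗ[K] K, AnOn circ (J2 fun x y => ℓ (c x y))

/-- the mean value of a vector-valued function over the polycircle -/
noncomputable def avgA {V : Type*} [AddCommGroup V] [Module K V] [FiniteDimensional K V]
    (c : Tor κ K → V) : V :=
  ∑ b, avg (fun x => (Module.finBasis K V).coord b (c x)) • Module.finBasis K V b

/-- twisted cocycle data: `c x y` invertible with inverse `ci x y`, `α y` algebra endomorphisms -/
structure CocD (c ci : Tor κ K → Tor κ K → V) (α : Tor κ K → V →ₐ[K] V) : Prop where
  an_c : AnA2 c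
  an_ci : AnA2 ci
  an_α : ∀ v, AnA fun y => α y v
  inv : ∀ x ∈ (circ : Set (Tor κ K)), ∀ y ∈ (circ : Set (Tor κ K)),
    c x y * ci x y = 1 ∧ ci x y * c x y = 1
  one_left : ∀ y ∈ (circ : Set (Tor κ K)), c 1 y = 1
  one_right : ∀ x ∈ (circ : Set (Tor κ K)), c x 1 = 1
  coc : ∀ x ∈ (circ : Set (Tor κ K)), ∀ y ∈ (circ : Set (Tor κ K)),
    ∀ z ∈ (circ : Set (Tor κ K)), c (x * y) z * α z (c x y) = c x (y * z) * c y z
  tw : ∀ y ∈ (circ : Set (Tor κ K)), ∀ z ∈ (circ : Set (Tor κ K)), ∀ v,
    α (y * z) v * c y z = c y z * α z (α y v)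

/-- an analytic invertible function, normalized at `1` -/
structure UnA (w wi : Tor κ K → V) : Prop where
  an : AnA w
  an_i : AnA wi
  inv : ∀ x ∈ (circ : Set (Tor κ K)), w x * wi x = 1 ∧ wi x * w x = 1
  one : w 1 = 1

/-- the twisted cocycle -/
def twc (c : Tor κ K → Tor κ K → V) (α : Tor κ K → V →ₐ[K] V) (w wi : Tor κ K → V) :
    Tor κ K → Tor κ K → V := fun x y => wi (x * y) * c x y * α y (w x) * w y

/-- `w` splits the cocycle -/
def Splits (c : Tor κ K → Tor κ K → V) (α : Tor κ K → V →ₐ[K] V) (w : Tor κ K → V) : Prop :=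
  ∀ x ∈ (circ : Set (Tor κ K)), ∀ y ∈ (circ : Set (Tor κ K)),
    w (x * y) = c x y * α y (w x) * w y

/-- the kernel of the augmentation, as a subspace -/
def kerL (lam : V →ₐ[K] K) : Submodule K V := LinearMap.ker lam.toLinearMap

end Pool.Agent.Work.MP_6d379e_ag.Ab
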