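import Pool.Agent.Work.MP_6d379e_ag.Ab.CAvg

/-!
# Splitting a scalar cocycle close to one   (size M-L)

Everything on `circ`.

`iter_step` : let `u x = avg (fun z => c x z)`.  `u` is analytic (`xcf_an`, exchange of the two
variables, or `avgA_an` for the function with the variables exchanged, `avgA_scalar`),
`‖u x - 1‖ ≤ ρ` (mean value of `c x z - 1`, `avg_le`), `u 1 = 1`.
Put `c' x y = c x y * u (x * y) * (u x)⁻¹ * (u y)⁻¹`.  With `h = c - 1`, `η = u - 1` the cocycle
identity reads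
`h (xy) z + h x y + h (xy) z * h x y = h x (yz) + h y z + h x (yz) * h y z`.
Mean value over `z` (the function `z ↦ h x (y * z)` has the mean value `η x`, translation):
`η (xy) + h x y + η (xy) * h x y = η x + η y + avg (fun z => h x (yz) * h y z)`.
So `‖η (xy) + h x y - η x - η y‖ ≤ ρ ^ 2`, and
`c' x y - 1 = (c x y * u (xy) - u x * u y) / (u x * u y)` has numerator
`h x y + η (xy) - η x - η y + h x y * η (xy) - η x * η y` of norm at most `ρ ^ 2`, and
`‖u x‖ = 1`.  `c'` is again a normalized cocycle, and its analyticity follows from `anOn_geom`.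

`iter_split` : iterate: `c 0 = c`, `c (n + 1)` from `c n`, `u n` the mean values,
`ρ n` with `ρ 0 = ρ`, `ρ (n + 1) = (ρ n) ^ 2`, so `ρ n ≤ ρ ^ (n + 1) → 0`.  Let
`w n x = ∏ j in range n, (u j x)⁻¹`; then `‖w n x‖ = 1`,
`‖w (n + 1) x - w n x‖ ≤ ρ n`, so `w n` converges uniformly on `circ` to an analytic `w`
(`anOn_lim`) with `‖w x - 1‖ ≤ ρ`, `w 1 = 1`.  By induction
`c n x y = c x y * w n x * w n y * (w n (xy))⁻¹`, and `c n x y → 1`; in the limit
`w (xy) = c x y * w x * w y`.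
-/

namespace Pool.Agent.Work.MP_6d379e_ag.Ab

variable {κ : Type*} [Fintype κ] {K : Type*} [NontriviallyNormedField K]
variable [IsUltrametricDist K] [CompleteSpace K] [IsAlgClosed K] [CharZero K]

/-- a normalized scalar cocycle with distance at most `ρ` from one -/
structure SCoc (ρ : ℝ) (c : Tor κ K → Tor κ K → K) : Prop where
  an : AnOn circ (J2 c)
  le : ∀ x ∈ (circ : Set (Tor κ K)), ∀ y ∈ (circ : Set (Tor κ K)), ‖c x y - 1‖ ≤ ρ
  one_left : ∀ y ∈ (circ : Set (Tor κ K)), c 1 y = 1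
  one_right : ∀ x ∈ (circ : Set (Tor κ K)), c x 1 = 1
  coc : ∀ x ∈ (circ : Set (Tor κ K)), ∀ y ∈ (circ : Set (Tor κ K)),
    ∀ z ∈ (circ : Set (Tor κ K)), c (x * y) z * c x y = c x (y * z) * c y z

/-- the mean value in the second variable -/
private noncomputable def mU (c : Tor κ K → Tor κ K → K) (x : Tor κ K) : K :=
  avg fun z => c x z

/-- the corrected cocycle -/
private noncomputable def mC (c : Tor κ K → Tor κ K → K) : Tor κ K → Tor κ K → K :=
  fun x y => c x y * mU c (x * y) * (mU c x)⁻¹ * (mU c y)⁻¹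

omit [IsUltrametricDist K] [CompleteSpace K] [IsAlgClosed K] [CharZero K] in
private theorem fst_circ {z : Tor (κ ⊕ κ) K} (hz : z ∈ (circ : Set (Tor (κ ⊕ κ) K))) :
    (fun j => z (Sum.inl j)) ∈ (circ : Set (Tor κ K)) := fun i => hz (Sum.inl i)

omit [IsUltrametricDist K] [CompleteSpace K] [IsAlgClosed K] [CharZero K] in
private theorem snd_circ {z : Tor (κ ⊕ κ) K} (hz : z ∈ (circ : Set (Tor (κ ⊕ κ) K))) :
    (fun j => z (Sum.inr j)) ∈ (circ : Set (Tor κ K)) := fun i => hz (Sum.inr i)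

private theorem sec_an {ρ : ℝ} {c : Tor κ K → Tor κ K → K} (hc : SCoc ρ c) {x : Tor κ K}
    (hx : x ∈ (circ : Set (Tor κ K))) : AnOn circ fun z => c x z := by
  have h1 : IsMono (fun z : Tor κ K => (Sum.elim x z : Tor (κ ⊕ κ) K)) :=
    isMono_elim (isMono_const x) isMono_id
  refine anOn_isMono h1 (V := circ) (f := J2 c) ?_ hc.an
  intro z hz i
  rcases i with i | i
  · exact hx i
  · exact hz i

private theorem mU_an {ρ : ℝ} {c : Tor κ K → Tor κ K → K} (hc : SCoc ρ c) :
    AnOn circ (mU c) := by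
  have h1 : IsMono (fun z : Tor (κ ⊕ κ) K =>
      (Sum.elim (fun j => z (Sum.inr j)) (fun j => z (Sum.inl j)) : Tor (κ ⊕ κ) K)) :=
    isMono_elim isMono_inr isMono_inl
  have h2 : AnOn circ (J2 fun x y => c y x) := by
    refine anOn_isMono h1 (V := circ) (f := J2 c) ?_ hc.an
    intro z hz i
    rcases i with i | i
    · exact hz (Sum.inr i)
    · exact hz (Sum.inl i)
  have h3 : AnA2 (fun x y => c y x) := anA2_scalar.2 h2
  have h4 := anA_scalar.1 (avgA_an h3)
  refine anOn_congr (fun x hx => ?_) h4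
  exact (avgA_scalar (sec_an hc hx)).symm

private theorem mU_le {ρ : ℝ} {c : Tor κ K → Tor κ K → K} (hc : SCoc ρ c) {x : Tor κ K}
    (hx : x ∈ (circ : Set (Tor κ K))) : ‖mU c x - 1‖ ≤ ρ := by
  have h1 := sec_an hc hx
  have h2 : AnOn circ (fun _ : Tor κ K => (1 : K)) := anOn_const _ _
  have h3 : mU c x - 1 = avg (fun z => c x z - 1) := by
    unfold mU avg
    rw [cf_sub h1 h2, Pi.sub_apply, cf_const]
  rw [h3]
  exact avg_le (anOn_sub h1 h2) fun z hz => hc.le x hx z hz

omit [CompleteSpace K] [IsAlgClosed K] [CharZero K] in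
private theorem near_ne {ρ : ℝ} (h1 : ρ < 1) {a : K} (ha : ‖a - 1‖ ≤ ρ) : ‖a‖ = 1 := by
  have h2 : ‖a - 1‖ < ‖(1 : K)‖ := by
    rw [norm_one]
    exact lt_of_le_of_lt ha h1
  have h3 : a = (a - 1) + 1 := by ring
  rw [h3, IsUltrametricDist.norm_add_eq_max_of_norm_ne_norm h2.ne, max_eq_right h2.le, norm_one]

private theorem mU_norm {ρ : ℝ} (h1 : ρ < 1) {c : Tor κ K → Tor κ K → K} (hc : SCoc ρ c)
    {x : Tor κ K} (hx : x ∈ (circ : Set (Tor κ K))) : ‖mU c x‖ = 1 :=
  near_ne h1 (mU_le hc hx)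

private theorem mU_ne {ρ : ℝ} (h1 : ρ < 1) {c : Tor κ K → Tor κ K → K} (hc : SCoc ρ c)
    {x : Tor κ K} (hx : x ∈ (circ : Set (Tor κ K))) : mU c x ≠ 0 := by
  intro h
  have h2 := mU_norm h1 hc hx
  rw [h, norm_zero] at h2
  exact zero_ne_one h2

private theorem mU_one {ρ : ℝ} {c : Tor κ K → Tor κ K → K} (hc : SCoc ρ c) :
    mU c 1 = 1 := by
  unfold mU avg
  rw [cf_congr (g := fun _ => (1 : K)) (fun z hz => hc.one_left z hz), cf_const]

private theorem mU_inv_an {ρ : ℝ} (h1 : ρ < 1) {c : Tor κ K → Tor κ K → K} (hc : SCoc ρ c) :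
    AnOn circ (fun x => (mU c x)⁻¹) := by
  have h2 : AnOn circ (fun x : Tor κ K => mU c x - 1) := anOn_sub (mU_an hc) (anOn_const _ _)
  rw [← BB_one (0 : κ → ℤ) 0] at h2 ⊢
  have h3 := anOn_geom h2 h1 (fun t ht => by
    rw [BB_one] at ht
    exact mU_le hc ht)
  refine anOn_congr (fun t _ => ?_) h3
  rw [add_sub_cancel]

private theorem est {ρ : ℝ} (h0 : 0 ≤ ρ) (h1 : ρ < 1) {c : Tor κ K → Tor κ K → K}
    (hc : SCoc ρ c) {x y : Tor κ K} (hx : x ∈ (circ : Set (Tor κ K)))
    (hy : y ∈ (circ : Set (Tor κ K))) : ‖mC c x y - 1‖ ≤ ρ ^ 2 := by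
  have hxy : x * y ∈ (circ : Set (Tor κ K)) := circ_mul hx hy
  -- the function `z ↦ c x (y * z)`
  have a1 := sec_an hc hx
  have a2 := sec_an hc hy
  have a3 : AnOn circ (fun z : Tor κ K => c x (y * z)) :=
    anOn_isMono (isMono_mul (isMono_const y) isMono_id) (V := circ)
      (f := fun z => c x z) (fun z hz => circ_mul hy hz) a1
  have a4 : avg (fun z : Tor κ K => c x (y * z)) = mU c x := by
    unfold avg mU avg
    rw [cf_translate (f := fun z => c x z) hy a1, mon_zero, one_mul]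
  have hone : AnOn circ (fun _ : Tor κ K => (1 : K)) := anOn_const _ _
  have a5 : AnOn circ (fun z : Tor κ K => (c x (y * z) - 1) * (c y z - 1)) :=
    anOn_mul_circ (anOn_sub a3 hone) (anOn_sub a2 hone)
  obtain ⟨E, hE⟩ : ∃ E, E = avg (fun z : Tor κ K => (c x (y * z) - 1) * (c y z - 1)) :=
    ⟨_, rfl⟩
  have hEle : ‖E‖ ≤ ρ ^ 2 := by
    rw [hE]
    refine avg_le a5 fun z hz => ?_
    rw [norm_mul, pow_two]
    exact mul_le_mul (hc.le x hx _ (circ_mul hy hz)) (hc.le y hy z hz) (norm_nonneg _) h0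
  have key : c x y * mU c (x * y) = mU c x + mU c y - 1 + E := by
    have b1 : c x y * mU c (x * y) = cf (fun z => c x y * c (x * y) z) 0 := by
      rw [cf_smul _ (sec_an hc hxy)]
      rfl
    have b2 : cf (fun z => c x y * c (x * y) z) =
        cf (fun z => ((c x (y * z) + c y z) - 1) + (c x (y * z) - 1) * (c y z - 1)) := by
      refine cf_congr fun z hz => ?_
      have e := hc.coc x hx y hy z hz
      linear_combination e
    rw [b1, b2, cf_add (anOn_sub (anOn_add a3 a2) hone) a5, cf_sub (anOn_add a3 a2) hone,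
      cf_add a3 a2]
    simp only [Pi.add_apply, Pi.sub_apply]
    rw [cf_const]
    have e1 : cf (fun z : Tor κ K => c x (y * z)) 0 = mU c x := a4
    have e2 : cf (fun z : Tor κ K => c y z) 0 = mU c y := rfl
    have e3 : cf (fun z : Tor κ K => (c x (y * z) - 1) * (c y z - 1)) 0 = E := hE.symm
    rw [e1, e2, e3]
  have nx := mU_norm h1 hc hx
  have ny := mU_norm h1 hc hy
  have zx := mU_ne h1 hc hx
  have zy := mU_ne h1 hc hy
  have f1 : mC c x y - 1 = (E - (mU c x - 1) * (mU c y - 1)) * ((mU c x)⁻¹ * (mU c y)⁻¹) := by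
    unfold mC
    rw [key]
    field_simp
    ring
  rw [f1, norm_mul, norm_mul, norm_inv, norm_inv, nx, ny, inv_one, mul_one, mul_one]
  rw [sub_eq_add_neg]
  refine le_trans (IsUltrametricDist.norm_add_le_max _ _) (max_le hEle ?_)
  rw [norm_neg, norm_mul, pow_two]
  exact mul_le_mul (mU_le hc hx) (mU_le hc hy) (norm_nonneg _) h0

private theorem step_core {ρ : ℝ} (h0 : 0 ≤ ρ) (h1 : ρ < 1) {c : Tor κ K → Tor κ K → K}
    (hc : SCoc ρ c) : SCoc (ρ ^ 2) (mC c) := by
  have hz : ∀ x ∈ (circ : Set (Tor κ K)), mU c x ≠ 0 := fun x hx => mU_ne h1 hc hx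
  refine ⟨?_, fun x hx y hy => est h0 h1 hc hx hy, ?_, ?_, ?_⟩
  · have b1 : AnOn circ (fun z : Tor (κ ⊕ κ) K =>
        mU c ((fun j => z (Sum.inl j)) * (fun j => z (Sum.inr j)))) :=
      anOn_isMono (isMono_mul isMono_inl isMono_inr) (V := circ)
        (fun z hz => circ_mul (fst_circ hz) (snd_circ hz)) (mU_an hc)
    have b2 : AnOn circ (fun z : Tor (κ ⊕ κ) K => (mU c (fun j => z (Sum.inl j)))⁻¹) :=
      anOn_isMono (τ := fun (z : Tor (κ ⊕ κ) K) (j : κ) => z (Sum.inl j)) isMono_inl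
        (V := circ) (f := fun x => (mU c x)⁻¹) (fun z hz => fst_circ hz) (mU_inv_an h1 hc)
    have b3 : AnOn circ (fun z : Tor (κ ⊕ κ) K => (mU c (fun j => z (Sum.inr j)))⁻¹) :=
      anOn_isMono (τ := fun (z : Tor (κ ⊕ κ) K) (j : κ) => z (Sum.inr j)) isMono_inr
        (V := circ) (f := fun x => (mU c x)⁻¹) (fun z hz => snd_circ hz) (mU_inv_an h1 hc)
    exact anOn_mul_circ (anOn_mul_circ (anOn_mul_circ hc.an b1) b2) b3
  · intro y hy
    have h2 := hz y hy
    unfold mC
    rw [hc.one_left y hy, one_mul, mU_one hc, inv_one, one_mul, mul_one, mul_inv_cancel₀ h2]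
  · intro x hx
    have h2 := hz x hx
    unfold mC
    rw [hc.one_right x hx, mul_one, mU_one hc, inv_one, one_mul, mul_one, mul_inv_cancel₀ h2]
  · intro x hx y hy z hz'
    have n1 := hz x hx
    have n2 := hz y hy
    have n3 := hz z hz'
    have n4 := hz _ (circ_mul hx hy)
    have n5 := hz _ (circ_mul hy hz')
    have e := hc.coc x hx y hy z hz'
    unfold mC
    rw [← mul_assoc x y z]
    field_simp
    linear_combination (mU c (x * y * z)) * e

theorem iter_step {ρ : ℝ} (h0 : 0 ≤ ρ) (h1 : ρ < 1) {c : Tor κ K → Tor κ K → K}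
    (hc : SCoc ρ c) : ∃ u : Tor κ K → K, AnOn circ u ∧
      (∀ x ∈ (circ : Set (Tor κ K)), ‖u x - 1‖ ≤ ρ) ∧ u 1 = 1 ∧
      SCoc (ρ ^ 2) (fun x y => c x y * u (x * y) * (u x)⁻¹ * (u y)⁻¹) := by
  refine ⟨mU c, mU_an hc, fun x hx => mU_le hc hx, mU_one hc, ?_⟩
  exact step_core h0 h1 hc

theorem iter_split {ρ : ℝ} (h0 : 0 ≤ ρ) (h1 : ρ < 1) {c : Tor κ K → Tor κ K → K}
    (hc : SCoc ρ c) : ∃ w : Tor κ K → K, AnOn circ w ∧
      (∀ x ∈ (circ : Set (Tor κ K)), ‖w x - 1‖ ≤ ρ) ∧ w 1 = 1 ∧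
      ∀ x ∈ (circ : Set (Tor κ K)), ∀ y ∈ (circ : Set (Tor κ K)),
        w (x * y) = c x y * w x * w y := by
  -- the iteration
  have hpos : ∀ n : ℕ, 0 ≤ ρ ^ 2 ^ n := fun n => pow_nonneg h0 _
  have hlt : ∀ n : ℕ, ρ ^ 2 ^ n < 1 := fun n => pow_lt_one₀ h0 h1 (by positivity)
  obtain ⟨C, hC0, hCs⟩ : ∃ C : ℕ → Tor κ K → Tor κ K → K, C 0 = c ∧
      ∀ n, C (n + 1) = mC (C n) :=
    ⟨fun n => mC^[n] c, rfl, fun n => Function.iterate_succ_apply' _ _ _⟩
  have hC : ∀ n, SCoc (ρ ^ 2 ^ n) (C n) := by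
    intro n
    induction n with
    | zero =>
      rw [hC0, pow_zero, pow_one]
      exact hc
    | succ n ih =>
      rw [hCs]
      have h2 := step_core (hpos n) (hlt n) ih
      have h3 : (ρ ^ 2 ^ n) ^ 2 = ρ ^ 2 ^ (n + 1) := by
        rw [← pow_mul, pow_succ]
      rw [h3] at h2
      exact h2
  obtain ⟨W, hW⟩ : ∃ W : ℕ → Tor κ K → K, ∀ n x,
      W n x = ∏ j ∈ Finset.range n, (mU (C j) x)⁻¹ := ⟨_, fun _ _ => rfl⟩
  have hW0 : ∀ x, W 0 x = 1 := fun x => by rw [hW, Finset.prod_range_zero]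
  have hWs : ∀ n x, W (n + 1) x = W n x * (mU (C n) x)⁻¹ := fun n x => by
    rw [hW, hW, Finset.prod_range_succ]
  have hWn : ∀ n, ∀ x ∈ (circ : Set (Tor κ K)), ‖W n x‖ = 1 := by
    intro n x hx
    induction n with
    | zero => rw [hW0, norm_one]
    | succ n ih =>
      rw [hWs, norm_mul, ih, norm_inv, mU_norm (hlt n) (hC n) hx, inv_one, mul_one]
  have hWan : ∀ n, AnOn circ (W n) := by
    intro n
    induction n with
    | zero => exact anOn_congr (fun x _ => hW0 x) (anOn_const _ (1 : K))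
    | succ n ih =>
      exact anOn_congr (fun x _ => hWs n x) (anOn_mul_circ ih (mU_inv_an (hlt n) (hC n)))
  have hW1 : ∀ n, W n 1 = 1 := by
    intro n
    induction n with
    | zero => rw [hW0]
    | succ n ih => rw [hWs, ih, mU_one (hC n), inv_one, mul_one]
  have hWd : ∀ n, ∀ x ∈ (circ : Set (Tor κ K)), ‖W (n + 1) x - W n x‖ ≤ ρ ^ 2 ^ n := by
    intro n x hx
    have n1 := mU_ne (hlt n) (hC n) hx
    have e : W (n + 1) x - W n x = -(W n x * (mU (C n) x)⁻¹ * (mU (C n) x - 1)) := by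
      rw [hWs]
      field_simp
      ring
    rw [e, norm_neg, norm_mul, norm_mul, hWn n x hx, norm_inv, mU_norm (hlt n) (hC n) hx,
      inv_one, one_mul, one_mul]
    exact mU_le (hC n) hx
  have hanti : ∀ m n : ℕ, m ≤ n → ρ ^ 2 ^ n ≤ ρ ^ 2 ^ m := fun m n hmn =>
    pow_le_pow_of_le_one h0 h1.le (Nat.pow_le_pow_right (by norm_num) hmn)
  have hWc : ∀ n k, ∀ x ∈ (circ : Set (Tor κ K)), ‖W (n + k) x - W n x‖ ≤ ρ ^ 2 ^ n := by
    intro n k x hx
    induction k with
    | zero =>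
      rw [add_zero, sub_self, norm_zero]
      exact hpos n
    | succ k ih =>
      have e : W (n + (k + 1)) x - W n x =
          (W (n + k + 1) x - W (n + k) x) + (W (n + k) x - W n x) := by
        rw [← add_assoc]
        ring
      rw [e]
      refine le_trans (IsUltrametricDist.norm_add_le_max _ _) (max_le ?_ ih)
      exact le_trans (hWd (n + k) x hx) (hanti _ _ (Nat.le_add_right _ _))
  have htend : Filter.Tendsto (fun n : ℕ => ρ ^ 2 ^ n) Filter.atTop (nhds 0) :=
    (tendsto_pow_atTop_nhds_zero_of_lt_one h0 h1).comp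
      (tendsto_pow_atTop_atTop_of_one_lt (by norm_num))
  have hcau : ∀ x ∈ (circ : Set (Tor κ K)), CauchySeq fun n => W n x := by
    intro x hx
    refine cauchySeq_of_le_tendsto_0 (fun n => 2 * ρ ^ 2 ^ n) ?_ ?_
    · intro n m N hn hm
      obtain ⟨k, rfl⟩ := Nat.exists_eq_add_of_le hn
      obtain ⟨l, rfl⟩ := Nat.exists_eq_add_of_le hm
      have e : W (N + k) x - W (N + l) x =
          (W (N + k) x - W N x) - (W (N + l) x - W N x) := by ring
      rw [dist_eq_norm, e]
      have k1 := norm_sub_le (W (N + k) x - W N x) (W (N + l) x - W N x)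
      have k2 := hWc N k x hx
      have k3 := hWc N l x hx
      linarith
    · have := htend.const_mul 2
      rwa [mul_zero] at this
  obtain ⟨w, hw⟩ : ∃ w : Tor κ K → K, ∀ x ∈ (circ : Set (Tor κ K)),
      Filter.Tendsto (fun n => W n x) Filter.atTop (nhds (w x)) := by
    classical
    refine ⟨fun x => if h : x ∈ (circ : Set (Tor κ K)) then
      (cauchySeq_tendsto_of_complete (hcau x h)).choose else 0, fun x hx => ?_⟩
    beta_reduce
    rw [dif_pos hx]
    exact (cauchySeq_tendsto_of_complete (hcau x hx)).choose_spec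
  have hwd : ∀ n, ∀ x ∈ (circ : Set (Tor κ K)), ‖w x - W n x‖ ≤ ρ ^ 2 ^ n := by
    intro n x hx
    have k1 : Filter.Tendsto (fun k => W k x - W n x) Filter.atTop (nhds (w x - W n x)) :=
      (hw x hx).sub_const _
    refine le_of_tendsto k1.norm ?_
    filter_upwards [Filter.eventually_ge_atTop n] with k hk
    obtain ⟨l, rfl⟩ := Nat.exists_eq_add_of_le hk
    exact hWc n l x hx
  refine ⟨w, ?_, ?_, ?_, ?_⟩
  · refine anOn_lim fun ε hε => ?_
    obtain ⟨n, hn⟩ := (htend.eventually (gt_mem_nhds hε)).exists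
    exact ⟨W n, hWan n, fun x hx => le_trans (hwd n x hx) hn.le⟩
  · intro x hx
    have k1 := hwd 0 x hx
    rw [hW0, pow_zero, pow_one] at k1
    exact k1
  · have k1 := hw 1 one_mem_circ
    have k2 : Filter.Tendsto (fun n => W n 1) Filter.atTop (nhds (1 : K)) := by
      simp only [hW1]
      exact tendsto_const_nhds
    exact tendsto_nhds_unique k1 k2
  · intro x hx y hy
    have hxy : x * y ∈ (circ : Set (Tor κ K)) := circ_mul hx hy
    have hind : ∀ n, C n x y * W n (x * y) = c x y * W n x * W n y := by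
      intro n
      induction n with
      | zero => simp only [hC0, hW0, mul_one]
      | succ n ih =>
        have n1 := mU_ne (hlt n) (hC n) hxy
        have n2 := mU_ne (hlt n) (hC n) hx
        have n3 := mU_ne (hlt n) (hC n) hy
        rw [hWs, hWs, hWs, hCs]
        unfold mC
        field_simp
        linear_combination ih
    have hC1 : Filter.Tendsto (fun n => C n x y) Filter.atTop (nhds (1 : K)) := by
      rw [tendsto_iff_norm_sub_tendsto_zero]
      refine squeeze_zero (fun n => norm_nonneg _) (fun n => (hC n).le x hx y hy) htend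
    have k1 := hC1.mul (hw _ hxy)
    have k2 : Filter.Tendsto (fun n => c x y * W n x * W n y) Filter.atTop
        (nhds (c x y * w x * w y)) :=
      ((tendsto_const_nhds.mul (hw x hx))).mul (hw y hy)
    simp only [hind] at k1
    have k3 := tendsto_nhds_unique k1 k2
    rw [one_mul] at k3
    exact k3

end Pool.Agent.Work.MP_6d379e_ag.Ab
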