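import Pool.Agent.Work.MP_6d379e_ag.Ab.CDefs

/-!
# Powers of the augmentation ideal   (size S-M)

`J = kerL lam`, powers of submodules of the algebra `V`.

* `ker_mul_mem` : `J ^ k * J ^ l = J ^ (k + l)` (`pow_add`, `Submodule.mul_mem_mul`).
* `ker_mul_left` : every `a : V` is `lam a • 1 + j` with `j ∈ J`, and `J * J ^ k = J ^ (k + 1) ≤ J ^ k`
  for `k ≥ 1` (`J * J ≤ J` because `lam` is multiplicative).
* `ker_anti` : from `J * J ≤ J`; for `1 ≤ k ≤ l`.
* `ker_nil` : `v ∈ J` implies `v ^ N ∈ J ^ N = ⊥`.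
* `lam_alpha` : for an algebra endomorphism `α` and `v ∈ J` the element `α v` is nilpotent, so
  `lam (α v) = 0`; in general `v = lam v • 1 + j`.
* `alpha_pow` : `α` maps `J` to `J`, so `J ^ k` to `J ^ k` (`Submodule.map_pow` for the algebra
  homomorphism `α`, or induction on `k` with `Submodule.mul_induction_on`).
-/

namespace Pool.Agent.Work.MP_6d379e_ag.Ab

variable {K : Type*} [NontriviallyNormedField K]
variable {V : Type*} [Ring V] [Algebra K V] {lam : V →ₐ[K] K} {N : ℕ}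

theorem mem_kerL {v : V} : v ∈ kerL lam ↔ lam v = 0 := by
  unfold kerL
  simp

theorem ker_mul_mem {k l : ℕ} {v w : V} (hv : v ∈ kerL lam ^ k) (hw : w ∈ kerL lam ^ l) :
    v * w ∈ kerL lam ^ (k + l) := by
  rw [pow_add]
  exact Submodule.mul_mem_mul hv hw

private theorem mul_le : kerL lam * kerL lam ≤ kerL lam := by
  rw [Submodule.mul_le]
  intro a ha b hb
  rw [mem_kerL] at ha hb ⊢
  rw [map_mul, ha, zero_mul]

private theorem pow_succ_le {k : ℕ} (hk : 1 ≤ k) : kerL lam ^ (k + 1) ≤ kerL lam ^ k := by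
  induction k, hk using Nat.le_induction with
  | base =>
    rw [pow_succ, pow_one]
    exact mul_le
  | succ k hk ih =>
    rw [pow_succ (kerL lam) (k + 1), pow_succ (kerL lam) k]
    exact mul_le_mul' ih le_rfl

theorem ker_anti {k l : ℕ} (hk : 1 ≤ k) (hkl : k ≤ l) : kerL lam ^ l ≤ kerL lam ^ k := by
  induction l, hkl using Nat.le_induction with
  | base => exact le_rfl
  | succ l hkl ih => exact (pow_succ_le (hk.trans hkl)).trans ih

private theorem dec (a : V) : ∃ j ∈ kerL lam, a = lam a • (1 : V) + j := by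
  refine ⟨a - lam a • (1 : V), ?_, by abel⟩
  rw [mem_kerL, map_sub, map_smul, map_one, smul_eq_mul, mul_one, sub_self]

theorem ker_mul_left {k : ℕ} (hk : 1 ≤ k) (a : V) {v : V} (hv : v ∈ kerL lam ^ k) :
    a * v ∈ kerL lam ^ k := by
  obtain ⟨j, hj, ha⟩ := dec (lam := lam) a
  rw [ha, add_mul, smul_mul_assoc, one_mul]
  refine Submodule.add_mem _ (Submodule.smul_mem _ _ hv) ?_
  have h1 : j * v ∈ kerL lam ^ (1 + k) := ker_mul_mem (by rwa [pow_one]) hv
  exact ker_anti hk (by omega) h1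

theorem ker_mul_right {k : ℕ} (hk : 1 ≤ k) (a : V) {v : V} (hv : v ∈ kerL lam ^ k) :
    v * a ∈ kerL lam ^ k := by
  obtain ⟨j, hj, ha⟩ := dec (lam := lam) a
  rw [ha, mul_add, mul_smul_comm, mul_one]
  refine Submodule.add_mem _ (Submodule.smul_mem _ _ hv) ?_
  have h1 : v * j ∈ kerL lam ^ (k + 1) := ker_mul_mem hv (by rwa [pow_one])
  exact ker_anti hk (by omega) h1

theorem ker_nil (hN : kerL lam ^ N = ⊥) {v : V} (hv : v ∈ kerL lam) : v ^ N = 0 := by
  have h1 : v ^ N ∈ kerL lam ^ N := Submodule.pow_mem_pow _ hv N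
  rw [hN, Submodule.mem_bot] at h1
  exact h1

theorem lam_alpha (hN : kerL lam ^ N = ⊥) (α : V →ₐ[K] V) (v : V) : lam (α v) = lam v := by
  obtain ⟨j, hj, ha⟩ := dec (lam := lam) v
  have h1 : lam (α j) = 0 := by
    have h2 : (lam (α j)) ^ N = 0 := by
      rw [← map_pow, ← map_pow, ker_nil hN hj, map_zero, map_zero]
    exact eq_zero_of_pow_eq_zero h2
  have h3 : α v = lam v • (1 : V) + α j := by
    conv_lhs => rw [ha]
    rw [map_add, map_smul, map_one]
  rw [h3, map_add, map_smul, map_one, h1, add_zero, smul_eq_mul, mul_one]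

theorem alpha_pow (hN : kerL lam ^ N = ⊥) (α : V →ₐ[K] V) {k : ℕ} {v : V}
    (hv : v ∈ kerL lam ^ k) : α v ∈ kerL lam ^ k := by
  have h0 : (kerL lam).map α.toLinearMap ≤ kerL lam := by
    rintro _ ⟨w, hw, rfl⟩
    rw [mem_kerL]
    show lam (α w) = 0
    rw [lam_alpha hN]
    exact mem_kerL.1 hw
  have h1 : (kerL lam ^ k).map α.toLinearMap ≤ kerL lam ^ k := by
    rw [Submodule.map_pow]
    exact pow_le_pow_left' h0 k
  exact h1 ⟨v, hv, rfl⟩

end Pool.Agent.Work.MP_6d379e_ag.Ab
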