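import Pool.Agent.Work.MP_6d379e_ag.Ab.Cf

/-!
# The Gauss norm is multiplicative; no zero divisors; units   (size M-L)

For `f` analytic on `circ` write `c = cf f`.  If `f` is not identically zero on `circ` then `c ≠ 0`
(`cf_eq`), and by `cf_dec` (`Wt_one`) the maximum `M f` of `‖c k‖` is attained on a nonempty finite
set `S f`, and the other coefficients have norm at most `M f - δ` for some `δ > 0`
(only finitely many exceed `M f / 2`).

Let `f, g` be analytic and not identically zero.  `TwoUniqueSums (κ → ℤ)` is an instance in Mathlib.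
Product formula: let `(k0, l0)` be such that the only pair in `S f × S g` with sum `k0 + l0` is
`(k0, l0)` (`UniqueAdd`).  Then `‖cf (f * g) (k0 + l0)‖ = M f * M g`.  Proof: let
`p = ∑ k in S f, cf f k * mon k`, `f = p + f'`; the coefficients of `f'` have norm `< M f`, with
maximum `M' < M f` (or `0`); similarly `g = r + g'`.  `cf (p r) (k0 + l0) = cf f k0 * cf g l0`
(a finite computation, `cf_sum`, `cf_mon`, `cf_mon_ne`, the uniqueness), and
`f g - p r = p g' + f' g` is bounded on `circ` by `max (M f * M(g')) (M(f') * M g) < M f * M g`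
(`ser_le`), so its coefficients are smaller (`cf_le_circ`).

* `mul_eq_zero_circ` : if `f, g` are not identically zero on `circ` then `S f`, `S g` are nonempty,
  there is a unique sum (`UniqueSums`), and `cf (f * g)` is nonzero at it, so `f * g` is not
  identically zero (`cf_eq_zero`).
* `unit_form` : `f g = 1` on `circ`.  All coefficients of `1` vanish except the one at `0`
  (`cf_const`, `cf_const_ne`).  If `S f` or `S g` had at least two elements, there would be two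
  unique sums (`TwoUniqueSums`), at two different exponents, where `cf (f g)` is nonzero:
  contradiction.  So `S f = {k}`, and with `c = cf f k` the function `f - c * mon k` has all
  coefficients of norm at most `ρ * ‖c‖`, `ρ < 1`; conclude by `ser_le`.
-/

namespace Pool.Agent.Work.MP_6d379e_ag.Ab

variable {κ : Type*} [Fintype κ]
variable {K : Type*} [NontriviallyNormedField K] [IsUltrametricDist K]
variable [CompleteSpace K] [IsAlgClosed K] [CharZero K]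
variable {f g : Tor κ K → K}

private theorem dom_data (hf : AnOn circ f) (hne : ∃ x ∈ (circ : Set (Tor κ K)), f x ≠ 0) :
    ∃ (M ρ : ℝ) (S : Finset (κ → ℤ)), 0 < M ∧ 0 ≤ ρ ∧ ρ < 1 ∧ S.Nonempty ∧
      (∀ k ∈ S, ‖cf f k‖ = M) ∧ (∀ k, ‖cf f k‖ ≤ M) ∧ ∀ k, k ∉ S → ‖cf f k‖ ≤ ρ * M := by
  classical
  obtain ⟨x, hx, hfx⟩ := hne
  obtain ⟨k0, hk0⟩ : ∃ k0, cf f k0 ≠ 0 := by
    by_contra hcon
    push Not at hcon
    apply hfx
    rw [cf_eq hf hx]
    unfold ser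
    simp [hcon]
  have hk0n : 0 < ‖cf f k0‖ := norm_pos_iff.2 hk0
  have hfin : {k | ‖cf f k0‖ / 2 < ‖cf f k‖}.Finite := by
    have h1 := cf_dec hf (‖cf f k0‖ / 2) (by positivity)
    refine h1.subset fun k hk => ?_
    show ‖cf f k0‖ / 2 < ‖cf f k‖ * Wt 1 0 0 k
    rw [Wt_one, mul_one]
    exact hk
  have hmemT : ∀ k, k ∈ hfin.toFinset ↔ ‖cf f k0‖ / 2 < ‖cf f k‖ := fun k => by
    rw [Set.Finite.mem_toFinset]
    exact Iff.rfl
  have hk0T : k0 ∈ hfin.toFinset := (hmemT k0).2 (by linarith)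
  obtain ⟨k1, hk1, hmax⟩ := Finset.exists_max_image hfin.toFinset (fun k => ‖cf f k‖) ⟨k0, hk0T⟩
  have hM0 : ‖cf f k0‖ ≤ ‖cf f k1‖ := hmax k0 hk0T
  have hMp : 0 < ‖cf f k1‖ := by linarith
  have hle : ∀ k, k ∉ hfin.toFinset → ‖cf f k‖ ≤ 1 / 2 * ‖cf f k1‖ := by
    intro k hk
    rw [hmemT, not_lt] at hk
    linarith
  have hall : ∀ k, ‖cf f k‖ ≤ ‖cf f k1‖ := by
    intro k
    by_cases hk : k ∈ hfin.toFinset
    · exact hmax k hk
    · have := hle k hk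
      linarith
  obtain ⟨ρ, hρ1, hρ2, hρ3⟩ : ∃ ρ : ℝ, 1 / 2 ≤ ρ ∧ ρ < 1 ∧
      ∀ k ∈ hfin.toFinset, ‖cf f k‖ ≠ ‖cf f k1‖ → ‖cf f k‖ ≤ ρ * ‖cf f k1‖ := by
    by_cases hR : (hfin.toFinset.filter (fun k => ‖cf f k‖ ≠ ‖cf f k1‖)).Nonempty
    · obtain ⟨k2, hk2, hmax2⟩ := Finset.exists_max_image _ (fun k => ‖cf f k‖) hR
      obtain ⟨h3, h4⟩ := Finset.mem_filter.1 hk2
      have h5 : ‖cf f k2‖ < ‖cf f k1‖ := lt_of_le_of_ne (hmax k2 h3) h4
      refine ⟨max (1 / 2) (‖cf f k2‖ / ‖cf f k1‖), le_max_left _ _,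
        max_lt (by norm_num) ((div_lt_one hMp).2 h5), fun k hk hkn => ?_⟩
      have h6 := hmax2 k (Finset.mem_filter.2 ⟨hk, hkn⟩)
      have h7 : ‖cf f k2‖ / ‖cf f k1‖ * ‖cf f k1‖ = ‖cf f k2‖ := div_mul_cancel₀ _ hMp.ne'
      have h8 := mul_le_mul_of_nonneg_right
        (le_max_right (1 / 2) (‖cf f k2‖ / ‖cf f k1‖)) hMp.le
      have h9 : ‖cf f k‖ ≤ ‖cf f k2‖ := h6
      linarith
    · rw [Finset.not_nonempty_iff_eq_empty] at hR
      refine ⟨1 / 2, le_rfl, by norm_num, fun k hk hkn => ?_⟩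
      have h3 : k ∈ hfin.toFinset.filter (fun k => ‖cf f k‖ ≠ ‖cf f k1‖) :=
        Finset.mem_filter.2 ⟨hk, hkn⟩
      rw [hR] at h3
      exact absurd h3 (Finset.notMem_empty k)
  refine ⟨‖cf f k1‖, ρ, hfin.toFinset.filter (fun k => ‖cf f k‖ = ‖cf f k1‖), hMp,
    by linarith, hρ2, ⟨k1, Finset.mem_filter.2 ⟨hk1, rfl⟩⟩,
    fun k hk => (Finset.mem_filter.1 hk).2, hall, fun k hk => ?_⟩
  by_cases hkT : k ∈ hfin.toFinset
  · exact hρ3 k hkT fun h => hk (Finset.mem_filter.2 ⟨hkT, h⟩)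
  · have h3 := hle k hkT
    have h4 := mul_le_mul_of_nonneg_right hρ1 hMp.le
    linarith

private theorem dom_sub (hf : AnOn circ f) {S : Finset (κ → ℤ)} {δ : ℝ} (hδ : 0 ≤ δ)
    (hS : ∀ k, k ∉ S → ‖cf f k‖ ≤ δ) {x : Tor κ K} (hx : x ∈ (circ : Set (Tor κ K))) :
    ‖f x - ∑ k ∈ S, cf f k * mon k x‖ ≤ δ := by
  rw [cf_eq hf hx]
  exact ser_sub_sum_le (q := 1) (a := 0) (b := 0) (cf_dec hf) (by rw [BB_one]; exact hx) S hδ
    (fun k hk => by rw [Wt_one, mul_one]; exact hS k hk)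

private theorem dom_le (hf : AnOn circ f) {C : ℝ} (hC : 0 ≤ C) (h : ∀ k, ‖cf f k‖ ≤ C)
    {x : Tor κ K} (hx : x ∈ (circ : Set (Tor κ K))) : ‖f x‖ ≤ C := by
  rw [cf_eq hf hx]
  exact ser_le (q := 1) (a := 0) (b := 0) (cf_dec hf) (by rw [BB_one]; exact hx) hC
    (fun k => by rw [Wt_one, mul_one]; exact h k)

/-- the coefficient of a product of two Laurent polynomials at a unique sum -/
private theorem dom_poly (c d : (κ → ℤ) → K) (S T : Finset (κ → ℤ)) {k0 l0 : κ → ℤ}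
    (hk : k0 ∈ S) (hl : l0 ∈ T) (hu : UniqueAdd S T k0 l0) :
    cf (fun x : Tor κ K => (∑ k ∈ S, c k * mon k x) * ∑ l ∈ T, d l * mon l x) (k0 + l0) =
      c k0 * d l0 := by
  have h1 : (fun x : Tor κ K => (∑ k ∈ S, c k * mon k x) * ∑ l ∈ T, d l * mon l x) =
      fun x => ∑ z ∈ S ×ˢ T, (c z.1 * d z.2) * mon (z.1 + z.2) x := by
    funext x
    rw [Finset.sum_mul_sum, Finset.sum_product]
    refine Finset.sum_congr rfl fun k _ => Finset.sum_congr rfl fun l _ => ?_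
    rw [mon_add]
    ring
  rw [h1, cf_sum (S ×ˢ T) (F := fun z x => (c z.1 * d z.2) * mon (z.1 + z.2) x)
    (fun z _ => anOn_smul _ (anOn_mon _ _))]
  rw [Finset.sum_eq_single (k0, l0)]
  · rw [cf_smul _ (anOn_mon _ _)]
    show c k0 * d l0 * cf (mon (k0 + l0)) (k0 + l0) = _
    rw [cf_mon, mul_one]
  · intro z hz hne
    obtain ⟨h2, h3⟩ := Finset.mem_product.1 hz
    rw [cf_smul _ (anOn_mon _ _), cf_mon_ne, mul_zero]
    intro h4
    obtain ⟨h5, h6⟩ := hu h2 h3 h4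
    exact hne (Prod.ext h5 h6)
  · intro h2
    exact absurd (Finset.mem_product.2 ⟨hk, hl⟩) h2

/-- the Gauss norm is multiplicative at a unique sum -/
private theorem dom_prod (hf : AnOn circ f) (hg : AnOn circ g) {Mf Mg ρf ρg : ℝ}
    {S T : Finset (κ → ℤ)} (hMf : 0 < Mf) (hMg : 0 < Mg) (hρf : 0 ≤ ρf) (hρf1 : ρf < 1)
    (hρg : 0 ≤ ρg) (hρg1 : ρg < 1) (hS : ∀ k ∈ S, ‖cf f k‖ = Mf) (hT : ∀ k ∈ T, ‖cf g k‖ = Mg)
    (hSa : ∀ k, ‖cf f k‖ ≤ Mf) (hTa : ∀ k, ‖cf g k‖ ≤ Mg)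
    (hSc : ∀ k, k ∉ S → ‖cf f k‖ ≤ ρf * Mf) (hTc : ∀ k, k ∉ T → ‖cf g k‖ ≤ ρg * Mg)
    {k0 l0 : κ → ℤ} (hk : k0 ∈ S) (hl : l0 ∈ T) (hu : UniqueAdd S T k0 l0) :
    cf (fun x => f x * g x) (k0 + l0) ≠ 0 := by
  intro h0
  have hp : AnOn circ (fun x : Tor κ K => ∑ k ∈ S, cf f k * mon k x) :=
    anOn_sum S fun k _ => anOn_smul _ (anOn_mon _ _)
  have hr : AnOn circ (fun x : Tor κ K => ∑ l ∈ T, cf g l * mon l x) :=
    anOn_sum T fun l _ => anOn_smul _ (anOn_mon _ _)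
  have hMM : 0 < Mf * Mg := mul_pos hMf hMg
  have hb : ∀ x ∈ (circ : Set (Tor κ K)), ‖f x * g x -
      (∑ k ∈ S, cf f k * mon k x) * ∑ l ∈ T, cf g l * mon l x‖ ≤ max ρf ρg * (Mf * Mg) := by
    intro x hx
    have e1 := dom_sub hf (mul_nonneg hρf hMf.le) hSc hx
    have e2 := dom_sub hg (mul_nonneg hρg hMg.le) hTc hx
    have e3 := dom_le hf hMf.le hSa hx
    have e4 := dom_le hg hMg.le hTa hx
    have e5 : ‖∑ k ∈ S, cf f k * mon k x‖ ≤ Mf := by
      have h1 : ∑ k ∈ S, cf f k * mon k x = f x + -(f x - ∑ k ∈ S, cf f k * mon k x) := by ring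
      rw [h1]
      refine (IsUltrametricDist.norm_add_le_max _ _).trans
        (max_le e3 ((norm_neg _).le.trans (e1.trans ?_)))
      have := mul_le_mul_of_nonneg_right hρf1.le hMf.le
      linarith
    have h2 : f x * g x - (∑ k ∈ S, cf f k * mon k x) * ∑ l ∈ T, cf g l * mon l x =
        (f x - ∑ k ∈ S, cf f k * mon k x) * g x +
        (∑ k ∈ S, cf f k * mon k x) * (g x - ∑ l ∈ T, cf g l * mon l x) := by ring
    rw [h2]
    refine (IsUltrametricDist.norm_add_le_max _ _).trans (max_le ?_ ?_)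
    · rw [norm_mul]
      refine (mul_le_mul e1 e4 (norm_nonneg _) (mul_nonneg hρf hMf.le)).trans ?_
      rw [mul_assoc]
      exact mul_le_mul_of_nonneg_right (le_max_left _ _) hMM.le
    · rw [norm_mul]
      refine (mul_le_mul e5 e2 (norm_nonneg _) hMf.le).trans ?_
      have h3 : Mf * (ρg * Mg) = ρg * (Mf * Mg) := by ring
      rw [h3]
      exact mul_le_mul_of_nonneg_right (le_max_right _ _) hMM.le
  have h1 := cf_sub_le (anOn_mul_circ hf hg) (anOn_mul_circ hp hr) hb (k0 + l0)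
  rw [h0, dom_poly (cf f) (cf g) S T hk hl hu, zero_sub, norm_neg, norm_mul, hS k0 hk,
    hT l0 hl] at h1
  have h2 : max ρf ρg < 1 := max_lt hρf1 hρg1
  have h3 := mul_lt_mul_of_pos_right h2 hMM
  linarith

theorem mul_eq_zero_circ (hf : AnOn circ f) (hg : AnOn circ g)
    (h : ∀ x ∈ (circ : Set (Tor κ K)), f x * g x = 0) :
    (∀ x ∈ (circ : Set (Tor κ K)), f x = 0) ∨ ∀ x ∈ (circ : Set (Tor κ K)), g x = 0 := by
  by_contra hcon
  push Not at hcon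
  obtain ⟨hf0, hg0⟩ := hcon
  obtain ⟨Mf, ρf, S, a1, a2, a3, a4, a5, a6, a7⟩ := dom_data hf hf0
  obtain ⟨Mg, ρg, T, b1, b2, b3, b4, b5, b6, b7⟩ := dom_data hg hg0
  obtain ⟨k0, hk, l0, hl, hu⟩ := UniqueSums.uniqueAdd_of_nonempty a4 b4
  refine dom_prod hf hg a1 b1 a2 a3 b2 b3 a5 b5 a6 b6 a7 b7 hk hl hu ?_
  rw [cf_eq_zero h]
  rfl

theorem unit_form (hf : AnOn circ f) (hg : AnOn circ g)
    (h : ∀ x ∈ (circ : Set (Tor κ K)), f x * g x = 1) :
    ∃ (k : κ → ℤ) (c : K) (ρ : ℝ), c ≠ 0 ∧ 0 ≤ ρ ∧ ρ < 1 ∧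
      ∀ x ∈ (circ : Set (Tor κ K)), ‖f x - c * mon k x‖ ≤ ρ * ‖c‖ := by
  have h1 : (1 : Tor κ K) ∈ (circ : Set (Tor κ K)) := one_mem_circ
  have hf0 : ∃ x ∈ (circ : Set (Tor κ K)), f x ≠ 0 := by
    refine ⟨1, h1, fun h0 => ?_⟩
    have h2 := h 1 h1
    rw [h0, zero_mul] at h2
    exact zero_ne_one h2
  have hg0 : ∃ x ∈ (circ : Set (Tor κ K)), g x ≠ 0 := by
    refine ⟨1, h1, fun h0 => ?_⟩
    have h2 := h 1 h1
    rw [h0, mul_zero] at h2
    exact zero_ne_one h2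
  obtain ⟨Mf, ρf, S, a1, a2, a3, a4, a5, a6, a7⟩ := dom_data hf hf0
  obtain ⟨Mg, ρg, T, b1, b2, b3, b4, b5, b6, b7⟩ := dom_data hg hg0
  have hzero : ∀ k0 ∈ S, ∀ l0 ∈ T, UniqueAdd S T k0 l0 → k0 + l0 = 0 := by
    intro k0 hk l0 hl hu
    by_contra hne
    refine dom_prod hf hg a1 b1 a2 a3 b2 b3 a5 b5 a6 b6 a7 b7 hk hl hu ?_
    rw [cf_congr (g := fun _ => (1 : K)) h]
    exact cf_const_ne 1 hne
  have hcard : S.card * T.card ≤ 1 := by
    by_contra hcon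
    obtain ⟨p1, hp1, p2, hp2, hne, u1, u2⟩ :=
      TwoUniqueSums.uniqueAdd_of_one_lt_card (not_le.1 hcon)
    obtain ⟨c1, c2⟩ := Finset.mem_product.1 hp1
    obtain ⟨d1, d2⟩ := Finset.mem_product.1 hp2
    have e1 := hzero _ c1 _ c2 u1
    have e2 := hzero _ d1 _ d2 u2
    obtain ⟨e3, e4⟩ := u1 d1 d2 (e2.trans e1.symm)
    exact hne (Prod.ext e3.symm e4.symm)
  have hS1 : S.card = 1 := by
    have h2 : 0 < S.card := a4.card_pos
    have h3 : 0 < T.card := b4.card_pos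
    nlinarith
  obtain ⟨k, hk⟩ := Finset.card_eq_one.1 hS1
  have hkS : k ∈ S := by
    rw [hk]
    exact Finset.mem_singleton_self k
  refine ⟨k, cf f k, ρf, ?_, a2, a3, fun x hx => ?_⟩
  · rw [← norm_pos_iff, a5 k hkS]
    exact a1
  · have h2 := dom_sub hf (mul_nonneg a2 a1.le) a7 hx
    rw [hk, Finset.sum_singleton] at h2
    rw [a5 k hkS]
    exact h2

end Pool.Agent.Work.MP_6d379e_ag.Ab
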