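import Pool.Agent.Work.MP_6d379e_ag.Ab.CAvg
import Pool.Agent.Work.MP_6d379e_ag.Ab.Dom

/-!
# A normalized invertible scalar function on circ x circ is close to one   (size M)

Apply `unit_form` to `J2 c` on the product torus (index type `κ ⊕ κ`): there are exponents
`k` (restrictions `k1` to `inl`, `k2` to `inr`), a constant `C ≠ 0` and `ρ < 1` with
`‖c x y - C * mon k1 x * mon k2 y‖ ≤ ρ * ‖C‖` on `circ x circ`.
At `x = y = 1` : `‖1 - C‖ ≤ ρ * ‖C‖`, so `‖C‖ = 1` (otherwise `‖1 - C‖ = max 1 ‖C‖ ≥ ‖C‖`).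
At `y = 1` : `‖1 - C * mon k1 x‖ ≤ ρ` for all `x ∈ circ`.  If `k1 ≠ 0`, the coefficient at `k1` of
the function on the left is `-C` (`cf_const_ne`, `cf_mon`), of norm `1`; but it is at most `ρ` by
`cf_le_circ`: contradiction.  So `k1 = 0` and similarly `k2 = 0`; then
`‖c x y - 1‖ ≤ max ‖c x y - C‖ ‖C - 1‖ ≤ ρ`.
-/

namespace Pool.Agent.Work.MP_6d379e_ag.Ab

variable {κ : Type*} [Fintype κ] {K : Type*} [NontriviallyNormedField K]
variable [IsUltrametricDist K] [CompleteSpace K] [IsAlgClosed K] [CharZero K]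

omit [CompleteSpace K] [IsAlgClosed K] [CharZero K] [Fintype κ] in
private theorem cs_norm_one {C : K} {ρ : ℝ} (hρ : ρ < 1) (hC : C ≠ 0) (h0 : 0 ≤ ρ)
    (h : ‖1 - C‖ ≤ ρ * ‖C‖) : ‖C‖ = 1 := by
  have hC' : 0 < ‖C‖ := norm_pos_iff.2 hC
  by_contra hne
  have h1 : ‖(1 : K)‖ ≠ ‖C‖ := by
    rw [norm_one]
    exact fun h => hne h.symm
  have h2 : ‖1 - C‖ = max ‖(1 : K)‖ ‖C‖ := by
    rw [sub_eq_add_neg, ← norm_neg C] at *
    exact IsUltrametricDist.norm_add_eq_max_of_norm_ne_norm h1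
  have h3 : ‖C‖ ≤ ‖1 - C‖ := by
    rw [h2]
    exact le_max_right _ _
  have h4 : ρ * ‖C‖ < ‖C‖ := by nlinarith
  linarith

omit [CompleteSpace K] [IsAlgClosed K] [CharZero K] in
private theorem cs_exp_zero [CompleteSpace K] [IsAlgClosed K] [CharZero K] {C : K} {ρ : ℝ}
    (hρ : ρ < 1) (hC : ‖C‖ = 1) {k : κ → ℤ}
    (h : ∀ x ∈ (circ : Set (Tor κ K)), ‖1 - C * mon k x‖ ≤ ρ) : k = 0 := by
  by_contra hk
  have h1 := cf_sub_le (anOn_const circ (1 : K)) (anOn_smul C (anOn_mon circ k)) h k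
  rw [cf_const_ne (1 : K) hk, cf_smul C (anOn_mon circ k), cf_mon, mul_one, zero_sub, norm_neg,
    hC] at h1
  linarith

theorem scal_near_one {c ci : Tor κ K → Tor κ K → K} (hc : AnOn circ (J2 c))
    (hci : AnOn circ (J2 ci))
    (h : ∀ x ∈ (circ : Set (Tor κ K)), ∀ y ∈ (circ : Set (Tor κ K)), c x y * ci x y = 1)
    (h1 : ∀ y ∈ (circ : Set (Tor κ K)), c 1 y = 1)
    (h2 : ∀ x ∈ (circ : Set (Tor κ K)), c x 1 = 1) :
    ∃ ρ : ℝ, 0 ≤ ρ ∧ ρ < 1 ∧ ∀ x ∈ (circ : Set (Tor κ K)), ∀ y ∈ (circ : Set (Tor κ K)),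
      ‖c x y - 1‖ ≤ ρ := by
  obtain ⟨k, C, ρ, hC, h0, hρ, hk⟩ := unit_form hc hci (fun z hz =>
    h _ (fun j => hz (Sum.inl j)) _ (fun j => hz (Sum.inr j)))
  have hF : ∀ x ∈ (circ : Set (Tor κ K)), ∀ y ∈ (circ : Set (Tor κ K)),
      ‖c x y - C * (mon (fun j => k (Sum.inl j)) x * mon (fun j => k (Sum.inr j)) y)‖
        ≤ ρ * ‖C‖ := by
    intro x hx y hy
    have h3 := hk (Sum.elim x y : Tor (κ ⊕ κ) K) (by
      rintro (j | j)
      · exact hx j
      · exact hy j)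
    have h4 : k = Sum.elim (fun j => k (Sum.inl j)) (fun j => k (Sum.inr j)) := by
      funext j
      rcases j with j | j <;> rfl
    have h5 : mon k (Sum.elim x y : Tor (κ ⊕ κ) K)
        = mon (fun j => k (Sum.inl j)) x * mon (fun j => k (Sum.inr j)) y := by
      conv_lhs => rw [h4]
      rw [mon_elim]
      rfl
    rw [h5] at h3
    exact h3
  have m1 : (1 : Tor κ K) ∈ (circ : Set (Tor κ K)) := one_mem_circ
  have hC1 : ‖C‖ = 1 := by
    refine cs_norm_one hρ hC h0 ?_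
    have h3 := hF 1 m1 1 m1
    rw [mon_one, mon_one, mul_one, mul_one, h1 1 m1] at h3
    exact h3
  have hk1 : (fun j => k (Sum.inl j)) = 0 := by
    refine cs_exp_zero hρ hC1 fun x hx => ?_
    have h3 := hF x hx 1 m1
    rw [mon_one, mul_one, h2 x hx, hC1, mul_one] at h3
    exact h3
  have hk2 : (fun j => k (Sum.inr j)) = 0 := by
    refine cs_exp_zero hρ hC1 fun y hy => ?_
    have h3 := hF 1 m1 y hy
    rw [mon_one, one_mul, h1 y hy, hC1, mul_one] at h3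
    exact h3
  refine ⟨ρ, h0, hρ, fun x hx y hy => ?_⟩
  have h3 := hF x hx y hy
  rw [hk1, hk2, mon_zero, mon_zero, mul_one, mul_one, hC1, mul_one] at h3
  have h4 := hF 1 m1 1 m1
  rw [mon_one, mon_one, mul_one, mul_one, h1 1 m1, hC1, mul_one] at h4
  have h5 : c x y - 1 = (c x y - C) + (C - 1) := by ring
  rw [h5]
  refine (IsUltrametricDist.norm_add_le_max _ _).trans (max_le h3 ?_)
  rw [← norm_neg, neg_sub]
  exact h4

end Pool.Agent.Work.MP_6d379e_ag.Ab
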