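import Pool.Agent.Work.MP_6d379e_ag.Ab.CStep
import Pool.Agent.Work.MP_6d379e_ag.Ab.CScal
import Pool.Agent.Work.MP_6d379e_ag.Ab.CIter

/-!
# Every twisted cocycle splits   (size M)

* `splits_of_near` : descending induction on `k` from `N` to `1` (all data generalized): if
  `k ≥ N` then `c x y = 1` on `circ x circ` (`J ^ k ≤ J ^ N = ⊥`; for `N = 0` the ring is trivial,
  or use `k = max N 1`) and `w = 1` splits.  Otherwise `coc_step` gives `w, wi`, `twist_cocD` the
  twisted data, induction a splitting of them, and `splits_of_twist`, `una_mul`.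
* `splits_exists` : let `c0 x y = lam (c x y)`.  By `lam_alpha` it is a scalar cocycle, normalized,
  invertible with inverse `lam (ci x y)`; `scal_near_one` gives `ρ`, and `iter_split` gives `w0`
  with `w0 (xy) = c0 x y * w0 x * w0 y`, `‖w0 x - 1‖ ≤ ρ`.  `(w0 x)⁻¹` is analytic
  (`anOn_geom`, `BB_one`).  Take `w x = algebraMap (w0 x)`, `wi x = algebraMap (w0 x)⁻¹`;
  then `twc c α w wi x y - 1 ∈ kerL lam = kerL lam ^ 1`.  Apply `twist_cocD`, `splits_of_near`
  with `k = 1`, `splits_of_twist`, `una_mul`.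
-/

namespace Pool.Agent.Work.MP_6d379e_ag.Ab

variable {κ : Type*} [Fintype κ] {K : Type*} [NontriviallyNormedField K]
variable [IsUltrametricDist K] [CompleteSpace K] [IsAlgClosed K] [CharZero K]
variable {V : Type*} [Ring V] [Algebra K V] [FiniteDimensional K V]
variable {c ci : Tor κ K → Tor κ K → V} {α : Tor κ K → V →ₐ[K] V} {lam : V →ₐ[K] K} {N : ℕ}

omit [Fintype κ] [IsUltrametricDist K] [CompleteSpace K] [IsAlgClosed K] [CharZero K]
  [FiniteDimensional K V] in
private theorem cm_pos {lam : V →ₐ[K] K} {N : ℕ} (hN : kerL lam ^ N = ⊥) : 1 ≤ N := by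
  by_contra hcon
  have h0 : N = 0 := by omega
  rw [h0, pow_zero] at hN
  have h1 : (1 : V) ∈ (⊥ : Submodule K V) := by
    rw [← hN]
    exact Submodule.one_le.1 le_rfl
  rw [Submodule.mem_bot] at h1
  have h2 := congrArg lam h1
  rw [map_one, map_zero] at h2
  exact one_ne_zero h2

private theorem cm_ind {lam : V →ₐ[K] K} {N : ℕ} (hN : kerL lam ^ N = ⊥) (m : ℕ) :
    ∀ (k : ℕ) (c ci : Tor κ K → Tor κ K → V) (α : Tor κ K → V →ₐ[K] V), 1 ≤ k → N ≤ k + m →
      CocD c ci α → (∀ v, α 1 v = v) →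
      (∀ x ∈ (circ : Set (Tor κ K)), ∀ y ∈ (circ : Set (Tor κ K)),
        c x y - 1 ∈ kerL lam ^ k) →
      ∃ w wi : Tor κ K → V, UnA w wi ∧ Splits c α w := by
  induction m with
  | zero =>
    intro k c ci α hk hkN h h1 hc
    refine ⟨fun _ => 1, fun _ => 1, una_one, fun x hx y hy => ?_⟩
    have h2 := ker_anti (lam := lam) (cm_pos hN) (show N ≤ k by omega) (hc x hx y hy)
    rw [hN, Submodule.mem_bot, sub_eq_zero] at h2
    rw [h2, map_one, mul_one, mul_one]
  | succ m ih =>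
    intro k c ci α hk hkN h h1 hc
    obtain ⟨w, wi, hw, htw⟩ := coc_step hN h hk hc
    obtain ⟨ci', α', hC, h1', hα'⟩ := twist_cocD h h1 hw
    obtain ⟨w', wi', hw', hs'⟩ := ih (k + 1) _ ci' α' (by omega) (by omega) hC h1' htw
    exact ⟨_, _, una_mul hw hw', splits_of_twist hw hα' hs'⟩

theorem splits_of_near (hN : kerL lam ^ N = ⊥) (h : CocD c ci α) (h1 : ∀ v, α 1 v = v) {k : ℕ}
    (hk : 1 ≤ k)
    (hc : ∀ x ∈ (circ : Set (Tor κ K)), ∀ y ∈ (circ : Set (Tor κ K)),
      c x y - 1 ∈ kerL lam ^ k) :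
    ∃ w wi : Tor κ K → V, UnA w wi ∧ Splits c α w :=
  cm_ind hN N k c ci α hk (by omega) h h1 hc

theorem splits_exists (hN : kerL lam ^ N = ⊥) (h : CocD c ci α) (h1 : ∀ v, α 1 v = v) :
    ∃ w wi : Tor κ K → V, UnA w wi ∧ Splits c α w := by
  have a1 : AnOn circ (J2 fun x y => lam (c x y)) :=
    anA2_scalar.1 (anA2_lin lam.toLinearMap h.an_c)
  have a2 : AnOn circ (J2 fun x y => lam (ci x y)) :=
    anA2_scalar.1 (anA2_lin lam.toLinearMap h.an_ci)
  have b1 : ∀ y ∈ (circ : Set (Tor κ K)), lam (c 1 y) = 1 := fun y hy => by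
    rw [h.one_left y hy, map_one]
  have b2 : ∀ x ∈ (circ : Set (Tor κ K)), lam (c x 1) = 1 := fun x hx => by
    rw [h.one_right x hx, map_one]
  obtain ⟨ρ, hρ0, hρ1, hρ⟩ := scal_near_one a1 a2 (fun x hx y hy => by
    rw [← map_mul, (h.inv x hx y hy).1, map_one]) b1 b2
  have hS : SCoc ρ (fun x y => lam (c x y)) := by
    refine ⟨a1, hρ, b1, b2, fun x hx y hy z hz => ?_⟩
    have h2 := congrArg lam (h.coc x hx y hy z hz)
    rw [map_mul, map_mul, lam_alpha hN] at h2
    exact h2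
  obtain ⟨w0, c1, c2, c3, c4⟩ := iter_split hρ0 hρ1 hS
  have hw0 : ∀ x ∈ (circ : Set (Tor κ K)), w0 x ≠ 0 := by
    intro x hx h0
    have h2 := c2 x hx
    rw [h0, zero_sub, norm_neg, norm_one] at h2
    linarith
  have c1i : AnOn circ fun x => (w0 x)⁻¹ := by
    have h2 : AnOn (BB (1 : Tor κ K) 0 0) fun t => w0 t - 1 := by
      rw [BB_one]
      exact anOn_sub c1 (anOn_const circ 1)
    have h3 := anOn_geom h2 hρ1 (fun t ht => by
      rw [BB_one] at ht
      exact c2 t ht)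
    rw [BB_one] at h3
    refine anOn_congr (fun t _ => ?_) h3
    rw [add_sub_cancel]
  have hU : UnA (fun x => algebraMap K V (w0 x)) (fun x => algebraMap K V (w0 x)⁻¹) := by
    refine ⟨anA_lin (Algebra.linearMap K V) (anA_scalar.2 c1),
      anA_lin (Algebra.linearMap K V) (anA_scalar.2 c1i), fun x hx => ⟨?_, ?_⟩, ?_⟩
    · rw [← map_mul, mul_inv_cancel₀ (hw0 x hx), map_one]
    · rw [← map_mul, inv_mul_cancel₀ (hw0 x hx), map_one]
    · rw [c3, map_one]
  have hlamA : ∀ a : K, lam (algebraMap K V a) = a := fun a => lam.commutes a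
  have htw : ∀ x ∈ (circ : Set (Tor κ K)), ∀ y ∈ (circ : Set (Tor κ K)),
      twc c α (fun x => algebraMap K V (w0 x)) (fun x => algebraMap K V (w0 x)⁻¹) x y - 1
        ∈ kerL lam ^ 1 := by
    intro x hx y hy
    rw [pow_one, mem_kerL, map_sub, map_one]
    unfold twc
    rw [map_mul, map_mul, map_mul, lam_alpha hN, hlamA, hlamA, hlamA, sub_eq_zero]
    have h2 := c4 x hx y hy
    have h3 := hw0 (x * y) (circ_mul hx hy)
    have h4 : lam (c x y) * w0 x * w0 y = w0 (x * y) := h2.symm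
    rw [mul_assoc, mul_assoc, ← mul_assoc (lam (c x y)), h4, inv_mul_cancel₀ h3]
  obtain ⟨ci', α', hC, h1', hα'⟩ := twist_cocD h h1 hU
  obtain ⟨w', wi', hw', hs'⟩ := splits_of_near hN hC h1' le_rfl htw
  exact ⟨_, _, una_mul hU hw', splits_of_twist hU hα' hs'⟩

end Pool.Agent.Work.MP_6d379e_ag.Ab
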