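import Pool.Agent.Work.MP_6d379e_ag.Ab.CAna

/-!
# Twisting a cocycle   (size M)

All identities for points of `circ` (closed under products, `circ_mul`).
Let `c' = twc c α w wi`, `α' y v = wi y * α y v * w y` for `y ∈ circ` (an algebra homomorphism since
`w y * wi y = 1 = wi y * w y`) and `α' y = id` for `y ∉ circ` (classical choice).

* inverse of `c' x y` : `wi y * α y (wi x) * ci x y * w (x * y)`.
* analytic: `anA2_mul`, `anA2_comp_mul`, `anA2_alpha`, `anA2_snd`; `AnA` of `α' · v` : `anA_mul`
  (and `anA_congr`).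
* normalization: `c' 1 y = wi y * 1 * α y 1 * w y = 1`, `c' x 1 = wi x * 1 * α 1 (w x) * 1`; here
  `α 1 = id`: from `tw` with `y = z = 1` and `c 1 1 = 1` we get `α 1 v = α 1 (α 1 v)`, and from
  `coc` with `y = z = 1` : `c x 1 * α 1 (c x 1) = c x 1 * c 1 1`, which is not enough; so the
  hypothesis `h1 : α 1 = id` (on all `v`) is part of the statement, and `α' 1 = id` is part of the
  conclusion.
* `coc` for `c'` :
  `c' (x y) z * α' z (c' x y) = wi (xyz) c (xy) z α z (w (xy)) w z wi z α z (wi (xy) c x y α y (w x) w y) w z`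
  `= wi (xyz) c (xy) z α z (c x y) α z (α y (w x)) α z (w y) w z`, and
  `c' x (yz) * c' y z = wi (xyz) c x (yz) α (yz) (w x) w (yz) wi (yz) c y z α z (w y) w z`
  `= wi (xyz) c x (yz) α (yz) (w x) c y z α z (w y) w z`
  `= wi (xyz) c x (yz) c y z α z (α y (w x)) α z (w y) w z`   (`tw`); equal by `coc`.
* `tw` for `c'` : `α' (yz) v * c' y z = wi (yz) α (yz) v c y z α z (w y) w z`
  `= wi (yz) c y z α z (α y v) α z (w y) w z`, and
  `c' y z * α' z (α' y v) = wi (yz) c y z α z (w y) w z wi z α z (wi y α y v w y) w z`, the same.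
* `splits_of_twist` : `w' (xy) = wi (xy) c x y α y (w x) w y * (wi y α y (w' x) w y) * w' y`;
  multiply by `w (xy)` on the left:
  `w (xy) w' (xy) = c x y α y (w x) α y (w' x) w y w' y`.
-/

namespace Pool.Agent.Work.MP_6d379e_ag.Ab

variable {κ : Type*} [Fintype κ] {K : Type*} [NontriviallyNormedField K]
variable {V : Type*} [Ring V] [Algebra K V] [FiniteDimensional K V]
variable {c ci : Tor κ K → Tor κ K → V} {α α' : Tor κ K → V →ₐ[K] V} {w wi w' wi' : Tor κ K → V}

private theorem ct_inv4 {A B C D A' B' C' D' : V} (hA : A * A' = 1) (hB : B * B' = 1)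
    (hC : C * C' = 1) (hD : D * D' = 1) : A * B * C * D * (D' * C' * B' * A') = 1 := by
  have h1 : A * B * C * D * (D' * C' * B' * A') = A * (B * (C * (D * D') * C') * B') * A' := by
    simp only [mul_assoc]
  rw [h1, hD, mul_one, hC, mul_one, hB, mul_one, hA]

private theorem ct_map {f : V →ₐ[K] V} {a b : V} (h : a * b = 1) : f a * f b = 1 := by
  rw [← map_mul, h, map_one]

/-- the conjugated homomorphism -/
private def cj (a b : V) (hab : a * b = 1) (hba : b * a = 1) (f : V →ₐ[K] V) : V →ₐ[K] V :=
  AlgHom.ofLinearMap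
    ((LinearMap.mulLeft K b).comp ((LinearMap.mulRight K a).comp f.toLinearMap))
    (by
      show b * (f 1 * a) = 1
      rw [map_one, one_mul, hba])
    (by
      intro x y
      show b * (f (x * y) * a) = b * (f x * a) * (b * (f y * a))
      have h1 : b * (f x * a) * (b * (f y * a)) = b * (f x * ((a * b) * (f y * a))) := by
        simp only [mul_assoc]
      rw [h1, hab, one_mul, map_mul, mul_assoc])

private theorem cj_apply (a b : V) (hab : a * b = 1) (hba : b * a = 1) (f : V →ₐ[K] V) (v : V) :
    cj a b hab hba f v = b * f v * a := by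
  show b * (f v * a) = _
  rw [mul_assoc]

theorem una_one : UnA (fun _ : Tor κ K => (1 : V)) (fun _ => 1) :=
  ⟨anA_const 1, anA_const 1, fun _ _ => ⟨one_mul 1, one_mul 1⟩, rfl⟩

theorem una_mul (h : UnA w wi) (h' : UnA w' wi') :
    UnA (fun x => w x * w' x) (fun x => wi' x * wi x) := by
  refine ⟨anA_mul h.an h'.an, anA_mul h'.an_i h.an_i, fun x hx => ⟨?_, ?_⟩, ?_⟩
  · have h1 : w x * w' x * (wi' x * wi x) = w x * (w' x * wi' x) * wi x := by
      simp only [mul_assoc]
    rw [h1, (h'.inv x hx).1, mul_one, (h.inv x hx).1]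
  · have h1 : wi' x * wi x * (w x * w' x) = wi' x * (wi x * w x) * w' x := by
      simp only [mul_assoc]
    rw [h1, (h.inv x hx).2, mul_one, (h'.inv x hx).2]
  · show w 1 * w' 1 = 1
    rw [h.one, h'.one, one_mul]

theorem twist_cocD (h : CocD c ci α) (h1 : ∀ v, α 1 v = v) (hw : UnA w wi) :
    ∃ (ci' : Tor κ K → Tor κ K → V) (α' : Tor κ K → V →ₐ[K] V),
      CocD (twc c α w wi) ci' α' ∧ (∀ v, α' 1 v = v) ∧
      ∀ y ∈ (circ : Set (Tor κ K)), ∀ v, α' y v = wi y * α y v * w y := by
  classical
  let α' : Tor κ K → V →ₐ[K] V := fun y =>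
    if hy : y ∈ (circ : Set (Tor κ K)) then cj (w y) (wi y) (hw.inv y hy).1 (hw.inv y hy).2 (α y)
    else AlgHom.id K V
  have hα' : ∀ y ∈ (circ : Set (Tor κ K)), ∀ v, α' y v = wi y * α y v * w y := by
    intro y hy v
    have e : α' y = cj (w y) (wi y) (hw.inv y hy).1 (hw.inv y hy).2 (α y) := dif_pos hy
    rw [e, cj_apply]
  have hwi1 : wi 1 = 1 := by
    have h2 := (hw.inv 1 one_mem_circ).1
    rwa [hw.one, one_mul] at h2
  have halA : ∀ {u : Tor κ K → V}, AnA u → AnA2 fun x y => α y (u x) := fun hu =>
    anA2_alpha (α := fun y => (α y).toLinearMap) h.an_α hu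
  refine ⟨fun x y => wi y * α y (wi x) * ci x y * w (x * y), α', ⟨?_, ?_, ?_, ?_, ?_, ?_, ?_, ?_⟩,
    ?_, hα'⟩
  · exact anA2_mul (anA2_mul (anA2_mul (anA2_comp_mul hw.an_i) h.an_c) (halA hw.an))
      (anA2_snd hw.an)
  · exact anA2_mul (anA2_mul (anA2_mul (anA2_snd hw.an_i) (halA hw.an_i)) h.an_ci)
      (anA2_comp_mul hw.an)
  · exact fun v => anA_congr (fun y hy => hα' y hy v) (anA_mul (anA_mul hw.an_i (h.an_α v)) hw.an)
  · intro x hx y hy
    have hxy := circ_mul hx hy
    have a1 := hw.inv (x * y) hxy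
    have a2 := h.inv x hx y hy
    have a3 := hw.inv x hx
    have a4 := hw.inv y hy
    constructor
    · exact ct_inv4 a1.2 a2.1 (ct_map a3.1) a4.1
    · exact ct_inv4 a4.2 (ct_map a3.2) a2.2 a1.1
  · intro y hy
    show wi (1 * y) * c 1 y * α y (w 1) * w y = 1
    rw [one_mul, h.one_left y hy, mul_one, hw.one, map_one, mul_one, (hw.inv y hy).2]
  · intro x hx
    show wi (x * 1) * c x 1 * α 1 (w x) * w 1 = 1
    rw [mul_one x, h.one_right x hx, mul_one, h1, hw.one, mul_one, (hw.inv x hx).2]
  · intro x hx y hy z hz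
    rw [hα' z hz]
    show wi (x * y * z) * c (x * y) z * α z (w (x * y)) * w z *
        (wi z * α z (wi (x * y) * c x y * α y (w x) * w y) * w z) =
      wi (x * (y * z)) * c x (y * z) * α (y * z) (w x) * w (y * z) *
        (wi (y * z) * c y z * α z (w y) * w z)
    have hxy := circ_mul hx hy
    have hyz := circ_mul hy hz
    have k1 := (hw.inv z hz).1
    have k2 : α z (w (x * y)) * α z (wi (x * y)) = 1 := ct_map (hw.inv _ hxy).1
    have k3 := h.coc x hx y hy z hz
    have k4 := (hw.inv _ hyz).1
    have k5 := h.tw y hy z hz (w x)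
    rw [map_mul, map_mul, map_mul, ← mul_assoc x y z]
    generalize wi (x * y * z) = P at *
    generalize c (x * y) z = C1 at *
    generalize α z (w (x * y)) = W1 at *
    generalize α z (wi (x * y)) = W1' at *
    generalize α z (c x y) = E at *
    generalize α z (α y (w x)) = F at *
    generalize α z (w y) = G at *
    generalize c x (y * z) = C2 at *
    generalize α (y * z) (w x) = H at *
    generalize c y z = C3 at *
    generalize w (y * z) = wyz at *
    generalize wi (y * z) = wyzi at *
    generalize w z = wz at *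
    generalize wi z = wzi at *
    calc P * C1 * W1 * wz * (wzi * (W1' * E * F * G) * wz)
        = P * C1 * (W1 * ((wz * wzi) * W1')) * E * F * G * wz := by simp only [mul_assoc]
      _ = P * (C1 * E) * F * G * wz := by
          rw [k1, one_mul, k2, mul_one]
          simp only [mul_assoc]
      _ = P * (C2 * C3) * F * G * wz := by rw [k3]
      _ = P * C2 * (C3 * F) * G * wz := by simp only [mul_assoc]
      _ = P * C2 * (H * C3) * G * wz := by rw [k5]
      _ = P * C2 * H * (wyz * wyzi) * C3 * G * wz := by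
          rw [k4, mul_one]
          simp only [mul_assoc]
      _ = P * C2 * H * wyz * (wyzi * C3 * G * wz) := by simp only [mul_assoc]
  · intro y hy z hz v
    have hyz := circ_mul hy hz
    rw [hα' _ hyz, hα' z hz, hα' y hy]
    show wi (y * z) * α (y * z) v * w (y * z) * (wi (y * z) * c y z * α z (w y) * w z) =
      wi (y * z) * c y z * α z (w y) * w z * (wi z * α z (wi y * α y v * w y) * w z)
    have k1 := (hw.inv z hz).1
    have k2 : α z (w y) * α z (wi y) = 1 := ct_map (hw.inv _ hy).1
    have k4 := (hw.inv _ hyz).1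
    have k5 := h.tw y hy z hz v
    rw [map_mul, map_mul]
    generalize wi (y * z) = P at *
    generalize α (y * z) v = H at *
    generalize w (y * z) = Q at *
    generalize c y z = C3 at *
    generalize α z (w y) = G at *
    generalize α z (wi y) = G' at *
    generalize α z (α y v) = F at *
    generalize w z = wz at *
    generalize wi z = wzi at *
    calc P * H * Q * (P * C3 * G * wz) = P * H * (Q * P) * C3 * G * wz := by
          simp only [mul_assoc]
      _ = P * (H * C3) * G * wz := by
          rw [k4, mul_one]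
          simp only [mul_assoc]
      _ = P * (C3 * F) * G * wz := by rw [k5]
      _ = P * C3 * (G * ((wz * wzi) * G')) * F * G * wz := by
          rw [k1, one_mul, k2, mul_one]
          simp only [mul_assoc]
      _ = P * C3 * G * wz * (wzi * (G' * F * G) * wz) := by simp only [mul_assoc]
  · intro v
    rw [hα' 1 one_mem_circ, h1, hwi1, hw.one, one_mul, mul_one]

theorem splits_of_twist (hw : UnA w wi)
    (hα : ∀ y ∈ (circ : Set (Tor κ K)), ∀ v, α' y v = wi y * α y v * w y)
    (h' : Splits (twc c α w wi) α' w') : Splits c α (fun x => w x * w' x) := by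
  intro x hx y hy
  have hxy := circ_mul hx hy
  show w (x * y) * w' (x * y) = c x y * α y (w x * w' x) * (w y * w' y)
  have h2 := h' x hx y hy
  rw [hα y hy] at h2
  have h3 : twc c α w wi x y = wi (x * y) * c x y * α y (w x) * w y := rfl
  have k1 := (hw.inv y hy).1
  have k2 := (hw.inv _ hxy).1
  rw [h2, h3, map_mul]
  generalize w (x * y) = Q at *
  generalize wi (x * y) = P at *
  generalize c x y = C at *
  generalize α y (w x) = A at *
  generalize α y (w' x) = B at *
  generalize w y = wy at *
  generalize wi y = wyi at *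
  generalize w' y = wy' at *
  calc Q * (P * C * A * wy * (wyi * B * wy) * wy')
      = (Q * P) * (C * A * (wy * wyi) * B * wy * wy') := by simp only [mul_assoc]
    _ = C * (A * B) * (wy * wy') := by
        rw [k1, k2, one_mul, mul_one]
        simp only [mul_assoc]

end Pool.Agent.Work.MP_6d379e_ag.Ab
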