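import Pool.Agent.Work.MP_6d379e_ag.Ab.CAvg
import Pool.Agent.Work.MP_6d379e_ag.Ab.CKer
import Pool.Agent.Work.MP_6d379e_ag.Ab.CTwist

/-!
# One step along the powers of the augmentation ideal   (size M-L)

Let `J = kerL lam`, `j x y = c x y - 1 ∈ J ^ k` on `circ x circ`, `k ≥ 1`, and
`η y = avgA (fun x => j x y)`.  `η` is analytic (`avgA_an`), `η y ∈ J ^ k` for `y ∈ circ`
(`avgA_mem`), `η 1 = 0` (`one_right`, `avgA_congr`, `avgA_const`).  Put `w = 1 - η`,
`wi = ∑ n in range N, η ^ n`, inverse to each other on `circ` since `η ^ N = 0` (`ker_nil`).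

The cocycle identity gives, modulo `J ^ (2 k) ⊆ J ^ (k + 1)` (`ker_anti`, `ker_mul_mem`,
`alpha_pow`):  `j (xy) z + α z (j x y) - j x (yz) - j y z ∈ J ^ (k + 1)`.
Mean value over `x` for fixed `y, z ∈ circ` (`avgA_translate`, `avgA_lin` for `α z`,
`avgA_const`, `avgA_mem`):
`η z + α z (η y) - η (yz) - j y z ∈ J ^ (k + 1)`   (*).
Modulo `J ^ (k + 1)` : `wi (xy) ≡ 1 + η (xy)`, so
`twc x y = wi (xy) * c x y * α y (w x) * w y ≡ (1 + η (xy)) (1 + j x y) (1 - α y (η x)) (1 - η y)`
`≡ 1 + η (xy) + j x y - α y (η x) - η y ≡ 1` by (*) for `(x, y)`.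
(All products of two elements of `J ^ k` lie in `J ^ (k + 1)`; products with arbitrary elements
stay in `J ^ (k + 1)` by `ker_mul_left`, `ker_mul_right`.)
-/

namespace Pool.Agent.Work.MP_6d379e_ag.Ab

variable {κ : Type*} [Fintype κ] {K : Type*} [NontriviallyNormedField K]
variable [IsUltrametricDist K] [CompleteSpace K] [IsAlgClosed K] [CharZero K]
variable {V : Type*} [Ring V] [Algebra K V] [FiniteDimensional K V]
variable {c ci : Tor κ K → Tor κ K → V} {α : Tor κ K → V →ₐ[K] V} {lam : V →ₐ[K] K} {N : ℕ}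

omit [IsUltrametricDist K] [CompleteSpace K] [IsAlgClosed K] [CharZero K]
  [FiniteDimensional K V] in
private theorem cs_prod {k : ℕ} (hk : 1 ≤ k) {p q : V} (hp : p ∈ kerL lam ^ k)
    (hq : q ∈ kerL lam ^ k) : p * q ∈ kerL lam ^ (k + 1) :=
  ker_anti (by omega) (by omega) (ker_mul_mem hp hq)

omit [IsUltrametricDist K] [CompleteSpace K] [IsAlgClosed K] [CharZero K]
  [FiniteDimensional K V] in
private theorem cs_alg {k : ℕ} (hk : 1 ≤ k) {a b d e wi : V} (ha : a ∈ kerL lam ^ k)
    (hb : b ∈ kerL lam ^ k) (hd : d ∈ kerL lam ^ k) (he : e ∈ kerL lam ^ k)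
    (hw : (1 - a) * wi = 1) (hs : d + e - a - b ∈ kerL lam ^ (k + 1)) :
    wi * (1 + b) * (1 - e) * (1 - d) - 1 ∈ kerL lam ^ (k + 1) := by
  have hs1 : wi - 1 - a = a * a * wi := by
    have h1 : (1 + a) * ((1 - a) * wi) = 1 + a := by rw [hw, mul_one]
    have h2 : (1 + a) * ((1 - a) * wi) = wi - a * a * wi := by noncomm_ring
    rw [h2] at h1
    have h3 : wi = 1 + a + a * a * wi := by
      rw [← h1]
      abel
    have h4 : wi - 1 - a = (1 + a + a * a * wi) - 1 - a := by rw [← h3]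
    rw [h4]
    abel
  have hs1m : wi - 1 - a ∈ kerL lam ^ (k + 1) := by
    rw [hs1]
    exact ker_mul_right (by omega) wi (cs_prod hk ha ha)
  have hbe : b * e ∈ kerL lam ^ (k + 1) := cs_prod hk hb he
  have hbe' : b * e ∈ kerL lam ^ k := ker_anti hk (by omega) hbe
  have hu1 : b - e - b * e ∈ kerL lam ^ k :=
    Submodule.sub_mem _ (Submodule.sub_mem _ hb he) hbe'
  have hu1d : (b - e - b * e) * d ∈ kerL lam ^ (k + 1) := cs_prod hk hu1 hd
  have hu2 : b - e - b * e - d - (b - e - b * e) * d ∈ kerL lam ^ k :=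
    Submodule.sub_mem _ (Submodule.sub_mem _ hu1 hd) (ker_anti hk (by omega) hu1d)
  have hau2 : a * (b - e - b * e - d - (b - e - b * e) * d) ∈ kerL lam ^ (k + 1) :=
    cs_prod hk ha hu2
  have hs2 : (wi - 1 - a) * (1 + (b - e - b * e - d - (b - e - b * e) * d)) ∈
      kerL lam ^ (k + 1) := ker_mul_right (by omega) _ hs1m
  have key : wi * (1 + b) * (1 - e) * (1 - d) - 1 =
      -(d + e - a - b) - b * e - (b - e - b * e) * d +
        a * (b - e - b * e - d - (b - e - b * e) * d) +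
        (wi - 1 - a) * (1 + (b - e - b * e - d - (b - e - b * e) * d)) := by
    noncomm_ring
  rw [key]
  exact Submodule.add_mem _ (Submodule.add_mem _ (Submodule.sub_mem _ (Submodule.sub_mem _
    (Submodule.neg_mem _ hs) hbe) hu1d) hau2) hs2

theorem coc_step (hN : kerL lam ^ N = ⊥) (h : CocD c ci α) {k : ℕ} (hk : 1 ≤ k)
    (hc : ∀ x ∈ (circ : Set (Tor κ K)), ∀ y ∈ (circ : Set (Tor κ K)),
      c x y - 1 ∈ kerL lam ^ k) :
    ∃ w wi : Tor κ K → V, UnA w wi ∧
      ∀ x ∈ (circ : Set (Tor κ K)), ∀ y ∈ (circ : Set (Tor κ K)),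
        twc c α w wi x y - 1 ∈ kerL lam ^ (k + 1) := by
  have han : AnA2 fun x y => c x y - 1 := anA2_sub h.an_c (anA2_fst (anA_const 1))
  obtain ⟨η, hη⟩ : ∃ η : Tor κ K → V, η = fun y => avgA fun x => c x y - 1 := ⟨_, rfl⟩
  have hηe : ∀ y, η y = avgA fun x => c x y - 1 := fun y => by rw [hη]
  have hηan : AnA η := by
    rw [hη]
    exact avgA_an han
  have hηm : ∀ y ∈ (circ : Set (Tor κ K)), η y ∈ kerL lam ^ k := by
    intro y hy
    rw [hηe]
    exact avgA_mem (anA2_fibx han hy) fun x hx => hc x hx y hy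
  have hη1 : η 1 = 0 := by
    rw [hηe]
    refine (avgA_congr (d := fun _ => (0 : V)) fun x hx => ?_).trans (avgA_const 0)
    rw [h.one_right x hx, sub_self]
  have hnil : ∀ y ∈ (circ : Set (Tor κ K)), η y ^ N = 0 := by
    intro y hy
    refine ker_nil hN ?_
    have h1 := ker_anti (lam := lam) le_rfl hk (hηm y hy)
    rwa [pow_one] at h1
  have hinv : ∀ y ∈ (circ : Set (Tor κ K)),
      (1 - η y) * (∑ n ∈ Finset.range N, η y ^ n) = 1 ∧
      (∑ n ∈ Finset.range N, η y ^ n) * (1 - η y) = 1 := by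
    intro y hy
    constructor
    · rw [mul_neg_geom_sum, hnil y hy, sub_zero]
    · rw [geom_sum_mul_neg, hnil y hy, sub_zero]
  have hstar : ∀ y ∈ (circ : Set (Tor κ K)), ∀ z ∈ (circ : Set (Tor κ K)),
      η z + α z (η y) - η (y * z) - (c y z - 1) ∈ kerL lam ^ (k + 1) := by
    intro y hy z hz
    have hyz := circ_mul hy hz
    have e1 : AnA fun x => c (x * y) z - 1 :=
      anA_comp (c := fun x => c x z - 1) (isMono_mul isMono_id (isMono_const y))
        (fun x hx => circ_mul hx hy) (anA2_fibx han hz)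
    have e2 : AnA fun x => α z (c x y - 1) := anA_lin (α z).toLinearMap (anA2_fibx han hy)
    have e3 : AnA fun x => c x (y * z) - 1 := anA2_fibx han hyz
    have e4 : AnA fun _ : Tor κ K => c y z - 1 := anA_const _
    have a1 : avgA (fun x => c (x * y) z - 1) = η z := by
      rw [hηe]
      exact avgA_translate (anA2_fibx han hz) hy
    have a2 : avgA (fun x => α z (c x y - 1)) = α z (η y) := by
      rw [hηe]
      exact avgA_lin (α z).toLinearMap (anA2_fibx han hy)
    have a3 : avgA (fun x => c x (y * z) - 1) = η (y * z) := (hηe _).symm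
    have a4 : avgA (fun _ : Tor κ K => c y z - 1) = c y z - 1 := avgA_const _
    have htot : avgA (fun x => (c (x * y) z - 1) + α z (c x y - 1) - (c x (y * z) - 1) -
        (c y z - 1)) = η z + α z (η y) - η (y * z) - (c y z - 1) := by
      rw [avgA_sub (anA_sub (anA_add e1 e2) e3) e4, avgA_sub (anA_add e1 e2) e3,
        avgA_add e1 e2, a1, a2, a3, a4]
    rw [← htot]
    refine avgA_mem (anA_sub (anA_sub (anA_add e1 e2) e3) e4) fun x hx => ?_
    have hxy := circ_mul hx hy
    have j1 := hc (x * y) hxy z hz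
    have j2 : α z (c x y - 1) ∈ kerL lam ^ k := alpha_pow hN (α z) (hc x hx y hy)
    have j3 := hc x hx (y * z) hyz
    have j4 := hc y hy z hz
    have hcoc := h.coc x hx y hy z hz
    have hα : α z (c x y) = 1 + α z (c x y - 1) := by
      rw [map_sub, map_one]
      abel
    rw [hα] at hcoc
    have key : (c (x * y) z - 1) + α z (c x y - 1) - (c x (y * z) - 1) - (c y z - 1) =
        (c x (y * z) - 1) * (c y z - 1) - (c (x * y) z - 1) * α z (c x y - 1) := by
      have h1 : (c (x * y) z - 1) + α z (c x y - 1) - (c x (y * z) - 1) - (c y z - 1) =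
          (c x (y * z) - 1) * (c y z - 1) - (c (x * y) z - 1) * α z (c x y - 1) +
          (c (x * y) z * (1 + α z (c x y - 1)) - c x (y * z) * c y z) := by
        noncomm_ring
      rw [h1, hcoc, sub_self, add_zero]
    show (c (x * y) z - 1) + α z (c x y - 1) - (c x (y * z) - 1) - (c y z - 1) ∈ _
    rw [key]
    exact Submodule.sub_mem _ (cs_prod hk j3 j4) (cs_prod hk j1 j2)
  refine ⟨fun y => 1 - η y, fun y => ∑ n ∈ Finset.range N, η y ^ n, ⟨?_, ?_, hinv, ?_⟩, ?_⟩
  · exact anA_sub (anA_const 1) hηan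
  · exact anA_sum _ fun n _ => anA_pow n hηan
  · show 1 - η 1 = 1
    rw [hη1, sub_zero]
  · intro x hx y hy
    have hxy := circ_mul hx hy
    show (∑ n ∈ Finset.range N, η (x * y) ^ n) * c x y * α y (1 - η x) * (1 - η y) - 1 ∈ _
    have h1 : α y (1 - η x) = 1 - α y (η x) := by rw [map_sub, map_one]
    have h2 : c x y = 1 + (c x y - 1) := by abel
    rw [h1, h2]
    exact cs_alg hk (hηm _ hxy) (hc x hx y hy) (hηm y hy) (alpha_pow hN (α y) (hηm x hx))
      (hinv _ hxy).1 (hstar x hx y hy)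

end Pool.Agent.Work.MP_6d379e_ag.Ab
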