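import Pool.Agent.Work.MP_6d379e_ag.Ab.Coef
import Pool.Agent.Work.MP_6d379e_ag.Ab.Alg

/-!
# The coefficient family `cf f`   (size M)

All statements follow from `exists_coef`, `coef_unique`, `coef_bound(_Wt)`, `BB_one`
(`BB 1 0 0 = circ`), `circ_subset_BB`, `dec_one`.

* `cf_dec`, `cf_eq` : the condition in the definition of `cf` holds by `exists_coef` on
  `BB 1 0 0 = circ`.
* `cf_unique` : `coef_unique` with `t0 = 1`.
* `cf_dec_BB`, `hull_eq` : `exists_coef` on the box gives `c`; it is a coefficient family on `circ`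
  too, so `cf f = c`.
* `cf_congr` : the two conditions in the definition are the same proposition (propositional
  extensionality; if neither holds both are `0`).
* `cf_add` etc. : `ser_add` etc. and `cf_unique`.
* `cf_mon_mul` : reindex the series by `k ↦ k + l`.
* `cf_translate` : `ser_shift`; `‖mon k s‖ = 1`.
* `cf_sub_le` : `cf f - cf g` is the family of `f - g`; `coef_bound_Wt` on `BB 1 0 0`, `Wt_one`.
* `eq_of_circ` : `exists_coef` for `f` and `g` on the box and `coef_unique` at `t0`.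
* `cf_eq_zero` : `cf_unique` with `c = 0`.
-/

namespace Pool.Agent.Work.MP_6d379e_ag.Ab

variable {ι : Type*} [Fintype ι] {K : Type*} [NontriviallyNormedField K] [IsUltrametricDist K]
variable [CompleteSpace K] [IsAlgClosed K] [CharZero K]
variable {q : Tor ι K} {a b : ι → ℤ} {f g : Tor ι K → K}

private theorem one_norm (i : ι) : ‖(((1 : Tor ι K) i : Kˣ) : K)‖ ≤ 1 := by
  rw [Pi.one_apply, Units.val_one, norm_one]

private theorem mem_BB_one {t : Tor ι K} (ht : t ∈ (circ : Set (Tor ι K))) :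
    t ∈ BB (1 : Tor ι K) 0 0 := by
  rw [BB_one]
  exact ht

private theorem ser_zero' (t : Tor ι K) : ser (0 : (ι → ℤ) → K) t = 0 := by
  unfold ser
  simp only [Pi.zero_apply, zero_mul, tsum_zero]

private theorem cf_ex (hf : AnOn circ f) :
    ∃ c : (ι → ℤ) → K, Dec 1 0 0 c ∧ ∀ t ∈ circ, f t = ser c t := by
  have h1 : AnOn (BB (1 : Tor ι K) 0 0) f := by
    rw [BB_one]
    exact hf
  obtain ⟨c, hc, h⟩ := exists_coef (q := (1 : Tor ι K)) (a := 0) (b := 0) one_norm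
    (fun i => by simp) h1
  exact ⟨c, hc, fun t ht => h t (mem_BB_one ht)⟩

private theorem cf_spec (h : ∃ c : (ι → ℤ) → K, Dec 1 0 0 c ∧ ∀ t ∈ circ, f t = ser c t) :
    Dec 1 0 0 (cf f) ∧ ∀ t ∈ circ, f t = ser (cf f) t := by
  have h1 : cf f = h.choose := by
    unfold cf
    rw [dif_pos h]
  rw [h1]
  exact h.choose_spec

theorem cf_dec (hf : AnOn circ f) : Dec 1 0 0 (cf f) := (cf_spec (cf_ex hf)).1

theorem cf_eq (hf : AnOn circ f) {t : Tor ι K} (ht : t ∈ (circ : Set (Tor ι K))) :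
    f t = ser (cf f) t := (cf_spec (cf_ex hf)).2 t ht

theorem cf_unique {c : (ι → ℤ) → K} (hc : Dec 1 0 0 c)
    (h : ∀ t ∈ (circ : Set (Tor ι K)), f t = ser c t) : cf f = c := by
  obtain ⟨h1, h2⟩ := cf_spec ⟨c, hc, h⟩
  refine coef_unique h1 hc (t0 := 1) (mem_BB_one one_mem_circ) fun u hu => ?_
  rw [mul_one, ← h2 u hu, ← h u hu]

private theorem cf_BB (hq : ∀ i, ‖(q i : K)‖ ≤ 1) (ha : ∀ i, 0 ≤ a i) (hb : ∀ i, 0 ≤ b i)
    (hf : AnOn (BB q a b) f) : Dec q a b (cf f) ∧ ∀ t ∈ BB q a b, f t = ser (cf f) t := by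
  obtain ⟨c, hc, h⟩ := exists_coef hq (fun i => add_nonneg (ha i) (hb i)) hf
  have h1 : cf f = c :=
    cf_unique (dec_one hq ha hb hc) fun t ht => h t (circ_subset_BB hq ha hb ht)
  rw [h1]
  exact ⟨hc, h⟩

theorem cf_dec_BB (hq : ∀ i, ‖(q i : K)‖ ≤ 1) (ha : ∀ i, 0 ≤ a i) (hb : ∀ i, 0 ≤ b i)
    (hf : AnOn (BB q a b) f) : Dec q a b (cf f) := (cf_BB hq ha hb hf).1

theorem hull_eq (hq : ∀ i, ‖(q i : K)‖ ≤ 1) (ha : ∀ i, 0 ≤ a i) (hb : ∀ i, 0 ≤ b i)
    (hf : AnOn (BB q a b) f) {t : Tor ι K} (ht : t ∈ BB q a b) : hull f t = f t :=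
  ((cf_BB hq ha hb hf).2 t ht).symm

theorem cf_congr (h : ∀ t ∈ (circ : Set (Tor ι K)), f t = g t) : cf f = cf g := by
  by_cases h1 : ∃ c : (ι → ℤ) → K, Dec 1 0 0 c ∧ ∀ t ∈ circ, f t = ser c t
  · obtain ⟨c, hc, h2⟩ := h1
    rw [cf_unique hc h2, cf_unique (f := g) hc fun t ht => by rw [← h t ht, h2 t ht]]
  · have h2 : ¬ ∃ c : (ι → ℤ) → K, Dec 1 0 0 c ∧ ∀ t ∈ circ, g t = ser c t := by
      rintro ⟨c, hc, h2⟩
      exact h1 ⟨c, hc, fun t ht => by rw [h t ht, h2 t ht]⟩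
    unfold cf
    rw [dif_neg h1, dif_neg h2]

theorem cf_le (hq : ∀ i, ‖(q i : K)‖ ≤ 1) (ha : ∀ i, 0 ≤ a i) (hb : ∀ i, 0 ≤ b i)
    (hf : AnOn (BB q a b) f) {C : ℝ} (h : ∀ t ∈ BB q a b, ‖f t‖ ≤ C) (k : ι → ℤ) :
    ‖cf f k‖ * Wt q a b k ≤ C := by
  obtain ⟨h1, h2⟩ := cf_BB hq ha hb hf
  refine coef_bound_Wt hq (fun i => add_nonneg (ha i) (hb i)) h1 (fun t ht => ?_) k
  rw [← h2 t ht]
  exact h t ht

theorem cf_le_circ (hf : AnOn circ f) {C : ℝ} (h : ∀ t ∈ (circ : Set (Tor ι K)), ‖f t‖ ≤ C)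
    (k : ι → ℤ) : ‖cf f k‖ ≤ C := by
  have h1 : AnOn (BB (1 : Tor ι K) 0 0) f := by
    rw [BB_one]
    exact hf
  have h2 := cf_le (q := (1 : Tor ι K)) (a := 0) (b := 0) one_norm (fun i => le_rfl)
    (fun i => le_rfl) h1 (C := C) (fun t ht => h t (by rw [BB_one] at ht; exact ht)) k
  rw [Wt_one, mul_one] at h2
  exact h2

theorem cf_add (hf : AnOn circ f) (hg : AnOn circ g) :
    cf (fun t => f t + g t) = cf f + cf g := by
  refine cf_unique (dec_add (cf_dec hf) (cf_dec hg)) fun t ht => ?_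
  rw [ser_add (cf_dec hf) (cf_dec hg) (mem_BB_one ht), ← cf_eq hf ht, ← cf_eq hg ht]

theorem cf_neg (hf : AnOn circ f) : cf (fun t => -f t) = -cf f := by
  refine cf_unique (dec_neg (cf_dec hf)) fun t ht => ?_
  have h1 : ser (-cf f) t = -ser (cf f) t := by
    unfold ser
    rw [← tsum_neg]
    refine tsum_congr fun k => ?_
    rw [Pi.neg_apply, neg_mul]
  rw [h1, ← cf_eq hf ht]

theorem cf_sub (hf : AnOn circ f) (hg : AnOn circ g) :
    cf (fun t => f t - g t) = cf f - cf g := by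
  refine cf_unique (dec_sub (cf_dec hf) (cf_dec hg)) fun t ht => ?_
  rw [ser_sub (cf_dec hf) (cf_dec hg) (mem_BB_one ht), ← cf_eq hf ht, ← cf_eq hg ht]

theorem cf_smul (c : K) (hf : AnOn circ f) (k : ι → ℤ) :
    cf (fun t => c * f t) k = c * cf f k := by
  have h1 : cf (fun t => c * f t) = c • cf f := by
    refine cf_unique (dec_smul c (cf_dec hf)) fun t ht => ?_
    rw [ser_smul, ← cf_eq hf ht]
  rw [h1, Pi.smul_apply, smul_eq_mul]

theorem cf_sum {α : Type*} (S : Finset α) {F : α → Tor ι K → K}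
    (hF : ∀ i ∈ S, AnOn circ (F i)) (k : ι → ℤ) :
    cf (fun t => ∑ i ∈ S, F i t) k = ∑ i ∈ S, cf (F i) k := by
  classical
  induction S using Finset.induction_on with
  | empty =>
    have h1 : cf (fun t : Tor ι K => ∑ i ∈ (∅ : Finset α), F i t) = 0 := by
      refine cf_unique dec_zero fun t ht => ?_
      rw [ser_zero', Finset.sum_empty]
    rw [h1, Finset.sum_empty, Pi.zero_apply]
  | insert i S hi ih =>
    have h1 : (fun t : Tor ι K => ∑ j ∈ insert i S, F j t) =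
        fun t => F i t + ∑ j ∈ S, F j t := by
      funext t
      rw [Finset.sum_insert hi]
    have h2 : ∀ j ∈ S, AnOn circ (F j) := fun j hj => hF j (Finset.mem_insert_of_mem hj)
    rw [h1, cf_add (hF i (Finset.mem_insert_self i S)) (anOn_sum S h2), Pi.add_apply, ih h2,
      Finset.sum_insert hi]

private theorem cf_mon_aux (k : ι → ℤ) :
    cf (mon k : Tor ι K → K) = Pi.single k (1 : K) := by
  classical
  have h0 : ∀ l : ι → ℤ, l ≠ k → (Pi.single k (1 : K) : (ι → ℤ) → K) l = 0 := fun l hl =>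
    Pi.single_eq_of_ne hl 1
  refine cf_unique ?_ fun t _ => ?_
  · intro ε hε
    refine (Set.finite_singleton k).subset fun l hl => ?_
    by_contra hne
    have hne' : l ≠ k := hne
    have hl' : ε < ‖(Pi.single k (1 : K) : (ι → ℤ) → K) l‖ * Wt 1 0 0 l := hl
    rw [h0 l hne', norm_zero, zero_mul] at hl'
    exact absurd hl' (not_lt.2 hε.le)
  · unfold ser
    rw [tsum_eq_single k fun l hl => by rw [h0 l hl, zero_mul], Pi.single_eq_same, one_mul]

theorem cf_mon (k : ι → ℤ) : cf (mon k : Tor ι K → K) k = 1 := by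
  rw [cf_mon_aux, Pi.single_eq_same]

theorem cf_mon_ne {k l : ι → ℤ} (h : k ≠ l) : cf (mon k : Tor ι K → K) l = 0 := by
  rw [cf_mon_aux, Pi.single_eq_of_ne h.symm]

private theorem const_eq (c : K) : (fun _ : Tor ι K => c) = fun t => c * mon 0 t := by
  funext t
  rw [mon_zero, mul_one]

theorem cf_const (c : K) : cf (fun _ : Tor ι K => c) 0 = c := by
  rw [const_eq, cf_smul c (anOn_mon circ 0), cf_mon, mul_one]

theorem cf_const_ne (c : K) {k : ι → ℤ} (h : k ≠ 0) : cf (fun _ : Tor ι K => c) k = 0 := by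
  rw [const_eq, cf_smul c (anOn_mon circ 0), cf_mon_ne h.symm, mul_zero]

theorem cf_mon_mul (l : ι → ℤ) (hf : AnOn circ f) (k : ι → ℤ) :
    cf (fun t => mon l t * f t) k = cf f (k - l) := by
  have h1 : cf (fun t => mon l t * f t) = fun k => cf f (k - l) := by
    refine cf_unique ?_ fun t ht => ?_
    · intro ε hε
      refine ((cf_dec hf ε hε).image fun k => k + l).subset fun k hk => ?_
      refine ⟨k - l, ?_, sub_add_cancel k l⟩
      have hk' : ε < ‖cf f (k - l)‖ * Wt 1 0 0 k := hk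
      show ε < ‖cf f (k - l)‖ * Wt 1 0 0 (k - l)
      rw [Wt_one] at hk' ⊢
      exact hk'
    · have h2 : ser (fun k => cf f (k - l)) t = ∑' k, mon l t * (cf f k * mon k t) := by
        unfold ser
        rw [← (Equiv.addRight l).tsum_eq (fun k => cf f (k - l) * mon k t)]
        refine tsum_congr fun k => ?_
        show cf f (k + l - l) * mon (k + l) t = mon l t * (cf f k * mon k t)
        rw [add_sub_cancel_right, mon_add]
        ring
      rw [h2, tsum_mul_left, cf_eq hf ht]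
      rfl
  rw [h1]

theorem cf_translate {s : Tor ι K} (hs : s ∈ (circ : Set (Tor ι K))) (hf : AnOn circ f)
    (k : ι → ℤ) : cf (fun t => f (s * t)) k = mon k s * cf f k := by
  have h1 : cf (fun t => f (s * t)) = fun k => cf f k * mon k s := by
    refine cf_unique (dec_of_le (cf_dec hf) fun k => ?_) fun t ht => ?_
    · rw [norm_mul, norm_mon_circ k hs, mul_one]
    · rw [← ser_shift, ← cf_eq hf (circ_mul hs ht)]
  rw [h1, mul_comm]

theorem cf_sub_le (hf : AnOn circ f) (hg : AnOn circ g) {δ : ℝ}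
    (h : ∀ t ∈ (circ : Set (Tor ι K)), ‖f t - g t‖ ≤ δ) (k : ι → ℤ) :
    ‖cf f k - cf g k‖ ≤ δ := by
  have h1 := cf_le_circ (anOn_sub hf hg) h k
  rw [cf_sub hf hg, Pi.sub_apply] at h1
  exact h1

theorem cf_eq_zero (h : ∀ t ∈ (circ : Set (Tor ι K)), f t = 0) : cf f = 0 := by
  refine cf_unique dec_zero fun t ht => ?_
  rw [ser_zero', h t ht]

theorem eq_of_circ (hq : ∀ i, ‖(q i : K)‖ ≤ 1) (hab : ∀ i, 0 ≤ a i + b i)
    (hf : AnOn (BB q a b) f) (hg : AnOn (BB q a b) g) {t0 : Tor ι K} (ht0 : t0 ∈ BB q a b)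
    (h : ∀ u ∈ (circ : Set (Tor ι K)), f (u * t0) = g (u * t0)) :
    ∀ t ∈ BB q a b, f t = g t := by
  obtain ⟨c, hc, h1⟩ := exists_coef hq hab hf
  obtain ⟨c', hc', h2⟩ := exists_coef hq hab hg
  have h3 : c = c' := by
    refine coef_unique hc hc' ht0 fun u hu => ?_
    have hu0 : u * t0 ∈ BB q a b := circ_mul_mem_BB hu ht0
    rw [← h1 _ hu0, ← h2 _ hu0, h u hu]
  intro t ht
  rw [h1 t ht, h2 t ht, h3]

end Pool.Agent.Work.MP_6d379e_ag.Ab
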