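import Pool.Agent.Work.MP_6d379e_ag.Ab.VDefs

/-!
# Calculus of homomorphisms and isomorphisms   (size M)

Direct computations with the definitions (`VDefs` contains `isHom_comp`, `isHom_id`,
`isHom_one_mul`; `Glob` and `Glob2` contain the closure properties of `AnaM`, `Ana2M`).

* `isHom_translate`, `isBun_trans` : `lat m l * (x * t) = x * (lat m l * t)`.
* `trans_trans` : `trans x (trans y f) l t = f l (y * (x * t))`.
* `bunFam_trans` : `(x, t) ↦ f l (τ x * t)` is jointly analytic by `ana2M_of_anaM`.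
* `locB_iso` : `p ∈ End f'` idempotent gives the idempotent `Ψ * p * Φ ∈ End f`; it is `0` or
  `f 0`, and `p = Φ * (Ψ * p * Φ) * Ψ` (because `f' 0 * p = p = p * f' 0`).  `f' 0 ≠ 0` somewhere:
  otherwise `f 0 t = Ψ t * f' 0 t * Φ t = 0` for all `t`.
* `homSp_right`, `homSp_left` : composition with `Φ` and `Ψ` gives mutually inverse linear maps.
-/

namespace Pool.Agent.Work.MP_6d379e_ag.Ab

variable {ι κ ν : Type*} [Fintype ι] [Fintype κ] [Fintype ν]
variable {K : Type*} [NontriviallyNormedField K]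
variable {m : ι → Tor ι K} {f f' f'' : (ι → ℤ) → Tor ι K → Matrix ν ν K}
variable {Φ Ψ Φ' Ψ' : Tor ι K → Matrix ν ν K}

theorem isHom_add (h : IsHom m f f' Φ) (h' : IsHom m f f' Ψ) :
    IsHom m f f' (fun t => Φ t + Ψ t) := (HomSp m f f').add_mem h h'

theorem isHom_sub (h : IsHom m f f' Φ) (h' : IsHom m f f' Ψ) :
    IsHom m f f' (fun t => Φ t - Ψ t) := (HomSp m f f').sub_mem h h'

theorem isHom_smul (c : K) (h : IsHom m f f' Φ) : IsHom m f f' (fun t => c • Φ t) := (HomSp m f f').smul_mem c h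

theorem isHom_sum {α : Type*} (S : Finset α) {F : α → Tor ι K → Matrix ν ν K}
    (hF : ∀ i ∈ S, IsHom m f f' (F i)) : IsHom m f f' (fun t => ∑ i ∈ S, F i t) := by
  have h1 : (fun t => ∑ i ∈ S, F i t) = ∑ i ∈ S, F i := by
    funext t
    rw [Finset.sum_apply]
  rw [h1]
  exact (HomSp m f f').sum_mem fun i hi => hF i hi

theorem isHom_congr (h : IsHom m f f' Φ) (he : ∀ t, Ψ t = Φ t) : IsHom m f f' Ψ := by
  have h1 : Ψ = Φ := funext he
  rw [h1]
  exact h

theorem isIso_refl (hf : IsBun m f) : IsIso2 m f f (f 0) (f 0) := ⟨isHom_id hf, isHom_id hf, (isHom_id hf).src, (isHom_id hf).src⟩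

theorem isIso_symm (h : IsIso2 m f f' Φ Ψ) : IsIso2 m f' f Ψ Φ := ⟨h.inv, h.hom, h.right, h.left⟩

theorem isIso_trans (h : IsIso2 m f f' Φ Ψ) (h' : IsIso2 m f' f'' Φ' Ψ') :
    IsIso2 m f f'' (fun t => Φ' t * Φ t) (fun t => Ψ t * Ψ' t) := by
  refine ⟨isHom_comp h'.hom h.hom, isHom_comp h.inv h'.inv, fun t => ?_, fun t => ?_⟩
  · have h1 : Ψ t * Ψ' t * (Φ' t * Φ t) = Ψ t * (Ψ' t * Φ' t) * Φ t := by
      simp only [Matrix.mul_assoc]
    rw [h1, h'.left t, h.inv.src t, h.left t]
  · have h1 : Φ' t * Φ t * (Ψ t * Ψ' t) = Φ' t * (Φ t * Ψ t) * Ψ' t := by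
      simp only [Matrix.mul_assoc]
    rw [h1, h.right t, h'.hom.src t, h'.right t]

theorem isBun_trans (x : Tor ι K) (hf : IsBun m f) : IsBun m (trans x f) := by
  refine ⟨fun l => anaM_translate x (hf.an l), fun l l' t => ?_⟩
  show f (l + l') (x * t) = f l (x * (lat m l' * t)) * f l' (x * t)
  rw [hf.coc l l' (x * t), mul_left_comm]

theorem isHom_translate (x : Tor ι K) (h : IsHom m f f' Φ) :
    IsHom m (trans x f) (trans x f') (fun t => Φ (x * t)) := by
  refine ⟨anaM_translate x h.an, fun t => h.src (x * t), fun l t => ?_⟩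
  show Φ (x * (lat m l * t)) * f l (x * t) = f' l (x * t) * Φ (x * t)
  rw [← h.eqv l (x * t), mul_left_comm]

theorem isIso_translate (x : Tor ι K) (h : IsIso2 m f f' Φ Ψ) :
    IsIso2 m (trans x f) (trans x f') (fun t => Φ (x * t)) (fun t => Ψ (x * t)) := ⟨isHom_translate x h.hom, isHom_translate x h.inv, fun t => h.left (x * t),
    fun t => h.right (x * t)⟩

theorem trans_trans (x y : Tor ι K) (f : (ι → ℤ) → Tor ι K → Matrix ν ν K) :
    trans x (trans y f) = trans (y * x) f := by
  funext l t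
  show f l (y * (x * t)) = f l (y * x * t)
  rw [mul_assoc]

theorem trans_one (f : (ι → ℤ) → Tor ι K → Matrix ν ν K) : trans 1 f = f := by
  funext l t
  show f l (1 * t) = f l t
  rw [one_mul]

theorem bunFam_const (hf : IsBun m f) : BunFam m (fun _ : Tor κ K => f) :=
  ⟨fun l => ana2M_of_anaM (τ := fun _ t => t) isMono_inr (hf.an l), fun _ _ l l' t => hf.coc l l' t⟩

theorem bunFam_trans {τ : Tor κ K → Tor ι K} (hτ : IsMono τ) (hf : IsBun m f) :
    BunFam m (fun x => trans (τ x) f) :=
  ⟨fun l => ana2M_of_anaM (τ := fun x t => τ x * t)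
    (isMono_mul (isMono_comp hτ isMono_inl) isMono_inr) (hf.an l),
    fun x _ l l' t => (isBun_trans (τ x) hf).coc l l' t⟩

theorem locB_iso (hf : LocB m f) (hf' : IsBun m f') (h : IsIso2 m f f' Φ Ψ) :
    LocB m f' := by
  refine ⟨hf', ?_, fun p hp hpp => ?_⟩
  · obtain ⟨t, ht⟩ := hf.ne
    refine ⟨t, fun h0 => ht ?_⟩
    have h1 := h.inv.src t
    rw [h0, Matrix.mul_zero] at h1
    rw [← h.left t, ← h1, Matrix.zero_mul]
  · have e1 : ∀ t, Φ t * (Ψ t * (p t * Φ t)) * Ψ t = p t := by
      intro t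
      have h1 : Φ t * (Ψ t * (p t * Φ t)) * Ψ t = (Φ t * Ψ t) * p t * (Φ t * Ψ t) := by
        simp only [Matrix.mul_assoc]
      rw [h1, h.right t, isHom_one_mul hp t, hp.src t]
    have e2 : ∀ t, Ψ t * (p t * Φ t) * (Ψ t * (p t * Φ t)) = Ψ t * (p t * Φ t) := by
      intro t
      have h1 : Ψ t * (p t * Φ t) * (Ψ t * (p t * Φ t)) =
          Ψ t * ((p t * (Φ t * Ψ t)) * p t * Φ t) := by
        simp only [Matrix.mul_assoc]
      rw [h1, h.right t, hp.src t, hpp t]
    rcases hf.idem (fun t => Ψ t * (p t * Φ t)) (isHom_comp h.inv (isHom_comp hp h.hom)) e2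
      with h2 | h2
    · left
      intro t
      rw [← e1 t, h2 t, Matrix.mul_zero, Matrix.zero_mul]
    · right
      intro t
      rw [← e1 t, h2 t, h.hom.src t, h.right t]

theorem finrank_homSp_right (h : IsIso2 m f' f'' Φ Ψ) :
    Module.finrank K (HomSp m f f') = Module.finrank K (HomSp m f f'') := by
  let e : HomSp m f f' ≃ₗ[K] HomSp m f f'' :=
    { toFun := fun A => ⟨fun t => Φ t * A.1 t, isHom_comp h.hom A.2⟩
      map_add' := fun A B => Subtype.ext (funext fun t => Matrix.mul_add _ _ _)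
      map_smul' := fun c A => Subtype.ext (funext fun t => by
        show Φ t * (c • A.1 t) = c • (Φ t * A.1 t)
        exact Matrix.mul_smul _ _ _)
      invFun := fun B => ⟨fun t => Ψ t * B.1 t, isHom_comp h.inv B.2⟩
      left_inv := fun A => Subtype.ext (funext fun t => by
        show Ψ t * (Φ t * A.1 t) = A.1 t
        rw [← Matrix.mul_assoc, h.left t]
        exact isHom_one_mul A.2 t)
      right_inv := fun B => Subtype.ext (funext fun t => by
        show Φ t * (Ψ t * B.1 t) = B.1 t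
        rw [← Matrix.mul_assoc, h.right t]
        exact isHom_one_mul B.2 t) }
  exact e.finrank_eq

theorem finrank_homSp_left (h : IsIso2 m f' f'' Φ Ψ) :
    Module.finrank K (HomSp m f' f) = Module.finrank K (HomSp m f'' f) := by
  let e : HomSp m f' f ≃ₗ[K] HomSp m f'' f :=
    { toFun := fun A => ⟨fun t => A.1 t * Ψ t, isHom_comp A.2 h.inv⟩
      map_add' := fun A B => Subtype.ext (funext fun t => Matrix.add_mul _ _ _)
      map_smul' := fun c A => Subtype.ext (funext fun t => by
        show (c • A.1 t) * Ψ t = c • (A.1 t * Ψ t)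
        exact Matrix.smul_mul _ _ _)
      invFun := fun B => ⟨fun t => B.1 t * Φ t, isHom_comp B.2 h.hom⟩
      left_inv := fun A => Subtype.ext (funext fun t => by
        show A.1 t * Ψ t * Φ t = A.1 t
        rw [Matrix.mul_assoc, h.left t]
        exact A.2.src t)
      right_inv := fun B => Subtype.ext (funext fun t => by
        show B.1 t * Φ t * Ψ t = B.1 t
        rw [Matrix.mul_assoc, h.right t]
        exact B.2.src t) }
  exact e.finrank_eq

theorem embT_one [DecidableEq ι] (j : ι) : embT j (1 : Tor Unit K) = 1 := Function.update_eq_self j _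

theorem embT_circ [DecidableEq ι] (j : ι) {z : Tor Unit K}
    (hz : z ∈ (circ : Set (Tor Unit K))) : embT j z ∈ (circ : Set (Tor ι K)) := by
  intro i
  unfold embT
  by_cases h : i = j
  · subst h
    rw [Function.update_self]
    exact hz ()
  · rw [Function.update_of_ne h]
    exact one_mem_circ i

theorem embT_mono [DecidableEq ι] (j : ι) :
    IsMono (fun z : Tor Unit K => (embT j z : Tor ι K)) := by
  refine isMono_coord fun i => ?_
  by_cases h : i = j
  · subst h
    refine ⟨fun x _ => x (), isMono_reindex fun _ => (), fun x => ?_⟩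
    unfold embT
    rw [Function.update_self]
  · refine ⟨fun _ => 1, isMono_const 1, fun x => ?_⟩
    unfold embT
    rw [Function.update_of_ne h]

end Pool.Agent.Work.MP_6d379e_ag.Ab
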