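import Pool.Agent.Work.MP_6d379e_ag.Ab.Eval
import Pool.Agent.Work.MP_6d379e_ag.Ab.Iso

/-!
# The cocycle of an analytic family of isomorphisms   (size M-L)

`φ x : f → trans x f` isomorphism with inverse `ψ x`, for `x ∈ circ`.  So (pointwise)
`ψ x t * φ x t = f 0 t`, `φ x t * ψ x t = f 0 (x * t)`, `f 0 (x * t) * φ x t = φ x t = φ x t * f 0 t`,
`f 0 t * ψ x t = ψ x t = ψ x t * f 0 (x * t)`.

For `x, y ∈ circ` put `c x y = ψ (xy) t * φ x (y t) * φ y t` and
`ci x y = ψ y t * ψ x (y t) * φ (xy) t`, endomorphisms of `f` (`isHom_comp`, `isHom_translate`: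
`φ x (y ·)` is a homomorphism `trans y f → trans y (trans x f) = trans (x y) f`), and
`α y B = ψ y t * B (y t) * φ y t`.  Outside `circ` use `1` and the identity (classical choice).
* `α y` is an algebra homomorphism: `φ y t * ψ y t = f 0 (y t)` is the identity for `B (y t)`.
* `inv`, `one_left`, `one_right`, `α 1 = id` : from `φ 1 = ψ 1 = f 0`.
* `coc` : `c (xy) z * α z (c x y)` at `t` is
  `ψ (xyz) t φ (xy) (z t) φ z t ψ z t (ψ (xy) (z t) φ x (y z t) φ y (z t)) φ z t`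
  `= ψ (xyz) t φ (xy) (z t) ψ (xy) (z t) φ x (y z t) φ y (z t) φ z t`
  `= ψ (xyz) t φ x (y z t) φ y (z t) φ z t`; and `c x (yz) * c y z` is
  `ψ (xyz) t φ x (y z t) φ (yz) t ψ (yz) t φ y (z t) φ z t`, the same.
* `tw` : `α (yz) v * c y z = ψ (yz) t v (y z t) φ (yz) t ψ (yz) t φ y (z t) φ z t`
  `= ψ (yz) t v (y z t) φ y (z t) φ z t`, and
  `c y z * α z (α y v) = ψ (yz) t φ y (z t) φ z t ψ z t (ψ y (z t) v (y z t) φ y (z t)) φ z t`
  `= ψ (yz) t v (y z t) φ y (z t) φ z t`.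
* analyticity: `endA_anA2`, `endA_anA` and `Glob2` (`ana2M_comp`, `ana2M_mul`, `ana2M_of_anaM`); use
  `ana2M_congr` to ignore the values outside `circ`.
-/

namespace Pool.Agent.Work.MP_6d379e_ag.Ab

variable {ι ν : Type*} [Fintype ι] [Fintype ν]
variable {K : Type*} [NontriviallyNormedField K]
variable {m : ι → Tor ι K}

private theorem coc_alg {P A Z Z' A' X Y Q Q' F1 F2 F3 : Matrix ν ν K} (h1 : Z * Z' = F1)
    (h2 : A * F1 = A) (h3 : A * A' = F2) (h4 : F2 * X = X) (h5 : Q * Q' = F3)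
    (h6 : X * F3 = X) :
    P * A * Z * (Z' * (A' * X * Y) * Z) = P * X * Q * (Q' * Y * Z) := by
  have e1 : P * A * Z * (Z' * (A' * X * Y) * Z) = P * (((A * (Z * Z')) * A') * X) * Y * Z := by
    simp only [mul_assoc]
  have e2 : P * X * Q * (Q' * Y * Z) = P * (X * (Q * Q')) * Y * Z := by
    simp only [mul_assoc]
  rw [e1, e2, h1, h2, h3, h4, h5, h6]

private theorem tw_alg {W V Q Y Z Z' Y' F1 F3 : Matrix ν ν K} (h1 : Q * W = F3)
    (h2 : F3 * Y = Y) (h3 : Z * Z' = F1) (h4 : Y * F1 = Y) (h5 : Y * Y' = F3)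
    (h6 : F3 * V = V) :
    W * V * Q * (W * Y * Z) = W * Y * Z * (Z' * (Y' * V * Y) * Z) := by
  have e1 : W * V * Q * (W * Y * Z) = W * V * ((Q * W) * Y) * Z := by
    simp only [mul_assoc]
  have e2 : W * Y * Z * (Z' * (Y' * V * Y) * Z) = W * (((Y * (Z * Z')) * Y') * V) * Y * Z := by
    simp only [mul_assoc]
  rw [e1, e2, h1, h2, h3, h4, h5, h6]

private theorem inv_alg {P X Y Y' X' P' F0 F1 F2 : Matrix ν ν K} (h1 : Y * Y' = F1)
    (h2 : X * F1 = X) (h3 : X * X' = F2) (h4 : P * F2 = P) (h5 : P * P' = F0) :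
    P * X * Y * (Y' * X' * P') = F0 := by
  have e1 : P * X * Y * (Y' * X' * P') = P * ((X * (Y * Y')) * X') * P' := by
    simp only [mul_assoc]
  rw [e1, h1, h2, h3, h4, h5]

private theorem isHom_c {f : (ι → ℤ) → Tor ι K → Matrix ν ν K}
    {φ ψ : Tor ι K → Tor ι K → Matrix ν ν K}
    (hi : ∀ x ∈ (circ : Set (Tor ι K)), IsIso2 m f (trans x f) (φ x) (ψ x)) {x y : Tor ι K}
    (hx : x ∈ (circ : Set (Tor ι K))) (hy : y ∈ (circ : Set (Tor ι K))) :
    IsHom m f f (fun t => ψ (x * y) t * φ x (y * t) * φ y t) := by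
  have h1 := isHom_translate y (hi x hx).hom
  rw [trans_trans] at h1
  have h2 := isHom_comp (hi (x * y) (circ_mul hx hy)).inv (isHom_comp h1 (hi y hy).hom)
  exact isHom_congr h2 fun t => mul_assoc _ _ _

private theorem isHom_ci {f : (ι → ℤ) → Tor ι K → Matrix ν ν K}
    {φ ψ : Tor ι K → Tor ι K → Matrix ν ν K}
    (hi : ∀ x ∈ (circ : Set (Tor ι K)), IsIso2 m f (trans x f) (φ x) (ψ x)) {x y : Tor ι K}
    (hx : x ∈ (circ : Set (Tor ι K))) (hy : y ∈ (circ : Set (Tor ι K))) :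
    IsHom m f f (fun t => ψ y t * ψ x (y * t) * φ (x * y) t) := by
  have h1 := isHom_translate y (hi x hx).inv
  rw [trans_trans] at h1
  have h2 := isHom_comp (hi y hy).inv (isHom_comp h1 (hi (x * y) (circ_mul hx hy)).hom)
  exact isHom_congr h2 fun t => mul_assoc _ _ _

private theorem isHom_al {f : (ι → ℤ) → Tor ι K → Matrix ν ν K}
    {φ ψ : Tor ι K → Tor ι K → Matrix ν ν K}
    (hi : ∀ x ∈ (circ : Set (Tor ι K)), IsIso2 m f (trans x f) (φ x) (ψ x)) {y : Tor ι K}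
    (hy : y ∈ (circ : Set (Tor ι K))) {B : Tor ι K → Matrix ν ν K} (hB : IsHom m f f B) :
    IsHom m f f (fun t => ψ y t * B (y * t) * φ y t) := by
  have h1 := isHom_translate y hB
  have h2 := isHom_comp (hi y hy).inv (isHom_comp h1 (hi y hy).hom)
  exact isHom_congr h2 fun t => mul_assoc _ _ _

/-- the algebra homomorphism of `y` -/
private noncomputable def alH (E : BunB m ν) {φ ψ : Tor ι K → Tor ι K → Matrix ν ν K}
    (hi : ∀ x ∈ (circ : Set (Tor ι K)), IsIso2 m E.f (trans x E.f) (φ x) (ψ x)) {y : Tor ι K}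
    (hy : y ∈ (circ : Set (Tor ι K))) : EndA E →ₐ[K] EndA E :=
  AlgHom.ofLinearMap
    { toFun := fun B => EndA.mk (fun t => ψ y t * B.val (y * t) * φ y t)
        (isHom_al hi hy B.isHom)
      map_add' := fun B B' => EndA.ext' fun t => by
        show ψ y t * (B.val (y * t) + B'.val (y * t)) * φ y t =
          ψ y t * B.val (y * t) * φ y t + ψ y t * B'.val (y * t) * φ y t
        rw [mul_add, add_mul]
      map_smul' := fun r B => EndA.ext' fun t => by
        show ψ y t * (r • B.val (y * t)) * φ y t = r • (ψ y t * B.val (y * t) * φ y t)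
        rw [Matrix.mul_smul, Matrix.smul_mul] }
    (EndA.ext' fun t => by
      show ψ y t * E.f 0 (y * t) * φ y t = E.f 0 t
      have h1 : ψ y t * E.f 0 (y * t) = ψ y t := (hi y hy).inv.src t
      rw [h1]
      exact (hi y hy).left t)
    (fun B B' => EndA.ext' fun t => by
      show ψ y t * (B.val (y * t) * B'.val (y * t)) * φ y t =
        ψ y t * B.val (y * t) * φ y t * (ψ y t * B'.val (y * t) * φ y t)
      have h1 : φ y t * ψ y t = E.f 0 (y * t) := (hi y hy).right t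
      have h2 : B.val (y * t) * E.f 0 (y * t) = B.val (y * t) := B.isHom.src (y * t)
      have e1 : ψ y t * B.val (y * t) * φ y t * (ψ y t * B'.val (y * t) * φ y t) =
          ψ y t * (B.val (y * t) * (φ y t * ψ y t)) * B'.val (y * t) * φ y t := by
        simp only [mul_assoc]
      rw [e1, h1, h2]
      simp only [mul_assoc])

private theorem alH_val (E : BunB m ν) {φ ψ : Tor ι K → Tor ι K → Matrix ν ν K}
    (hi : ∀ x ∈ (circ : Set (Tor ι K)), IsIso2 m E.f (trans x E.f) (φ x) (ψ x)) {y : Tor ι K}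
    (hy : y ∈ (circ : Set (Tor ι K))) (B : EndA E) (t : Tor ι K) :
    (alH E hi hy B).val t = ψ y t * B.val (y * t) * φ y t := rfl

theorem exists_cocD (E : BunB m ν) [FiniteDimensional K (EndA E)]
    {φ ψ : Tor ι K → Tor ι K → Matrix ν ν K} (hφ : Ana2M φ) (hψ : Ana2M ψ)
    (hi : ∀ x ∈ (circ : Set (Tor ι K)), IsIso2 m E.f (trans x E.f) (φ x) (ψ x))
    (h1 : ∀ t, φ 1 t = E.f 0 t ∧ ψ 1 t = E.f 0 t) :
    ∃ (c ci : Tor ι K → Tor ι K → EndA E) (α : Tor ι K → EndA E →ₐ[K] EndA E),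
      CocD c ci α ∧ (∀ v, α 1 v = v) ∧
      (∀ x ∈ (circ : Set (Tor ι K)), ∀ y ∈ (circ : Set (Tor ι K)), ∀ t,
        (c x y).val t = ψ (x * y) t * φ x (y * t) * φ y t) ∧
      ∀ y ∈ (circ : Set (Tor ι K)), ∀ v t,
        (α y v).val t = ψ y t * v.val (y * t) * φ y t := by
  classical
  let c : Tor ι K → Tor ι K → EndA E := fun x y =>
    if h : x ∈ (circ : Set (Tor ι K)) ∧ y ∈ (circ : Set (Tor ι K)) then
      EndA.mk (fun t => ψ (x * y) t * φ x (y * t) * φ y t) (isHom_c hi h.1 h.2) else 1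
  let ci : Tor ι K → Tor ι K → EndA E := fun x y =>
    if h : x ∈ (circ : Set (Tor ι K)) ∧ y ∈ (circ : Set (Tor ι K)) then
      EndA.mk (fun t => ψ y t * ψ x (y * t) * φ (x * y) t) (isHom_ci hi h.1 h.2) else 1
  let α : Tor ι K → EndA E →ₐ[K] EndA E := fun y =>
    if h : y ∈ (circ : Set (Tor ι K)) then alH E hi h else AlgHom.id K (EndA E)
  have hc : ∀ x ∈ (circ : Set (Tor ι K)), ∀ y ∈ (circ : Set (Tor ι K)), ∀ t,
      (c x y).val t = ψ (x * y) t * φ x (y * t) * φ y t := by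
    intro x hx y hy t
    have e : c x y = EndA.mk (fun t => ψ (x * y) t * φ x (y * t) * φ y t)
        (isHom_c hi hx hy) := dif_pos ⟨hx, hy⟩
    rw [e]
    rfl
  have hci : ∀ x ∈ (circ : Set (Tor ι K)), ∀ y ∈ (circ : Set (Tor ι K)), ∀ t,
      (ci x y).val t = ψ y t * ψ x (y * t) * φ (x * y) t := by
    intro x hx y hy t
    have e : ci x y = EndA.mk (fun t => ψ y t * ψ x (y * t) * φ (x * y) t)
        (isHom_ci hi hx hy) := dif_pos ⟨hx, hy⟩
    rw [e]
    rfl
  have hα : ∀ y ∈ (circ : Set (Tor ι K)), ∀ v t,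
      (α y v).val t = ψ y t * v.val (y * t) * φ y t := by
    intro y hy v t
    have e : α y = alH E hi hy := dif_pos hy
    rw [e]
    exact alH_val E hi hy v t
  have hL : ∀ x ∈ (circ : Set (Tor ι K)), ∀ t, ψ x t * φ x t = E.f 0 t := fun x hx t =>
    (hi x hx).left t
  have hR : ∀ x ∈ (circ : Set (Tor ι K)), ∀ t, φ x t * ψ x t = E.f 0 (x * t) := fun x hx t =>
    (hi x hx).right t
  have hφs : ∀ x ∈ (circ : Set (Tor ι K)), ∀ t, φ x t * E.f 0 t = φ x t := fun x hx t =>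
    (hi x hx).hom.src t
  have hφt : ∀ x ∈ (circ : Set (Tor ι K)), ∀ t, E.f 0 (x * t) * φ x t = φ x t := fun x hx t =>
    isHom_one_mul (hi x hx).hom t
  have hψs : ∀ x ∈ (circ : Set (Tor ι K)), ∀ t, ψ x t * E.f 0 (x * t) = ψ x t := fun x hx t =>
    (hi x hx).inv.src t
  have hmL : IsMono (fun w : Tor ((ι ⊕ ι) ⊕ ι) K => fun j => w (Sum.inl (Sum.inl j))) :=
    isMono_reindex (fun j => Sum.inl (Sum.inl j))
  have hmR : IsMono (fun w : Tor ((ι ⊕ ι) ⊕ ι) K => fun j => w (Sum.inl (Sum.inr j))) :=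
    isMono_reindex (fun j => Sum.inl (Sum.inr j))
  have hmT : IsMono (fun w : Tor ((ι ⊕ ι) ⊕ ι) K => fun j => w (Sum.inr j)) := isMono_inr
  -- analytic building blocks
  have b1 : ∀ {χ : Tor ι K → Tor ι K → Matrix ν ν K}, Ana2M χ →
      Ana2M fun (z : Tor (ι ⊕ ι) K) t =>
        χ ((fun j => z (Sum.inl j)) * (fun j => z (Sum.inr j))) t := by
    intro χ hχ
    exact ana2M_comp
      (σ := fun (z : Tor (ι ⊕ ι) K) (_ : Tor ι K) =>
        (fun j => z (Sum.inl j)) * (fun j => z (Sum.inr j)))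
      (τ := fun _ t => t) (isMono_mul hmL hmR) hmT
      (fun z hz _ => circ_mul (fun j => hz (Sum.inl j)) (fun j => hz (Sum.inr j))) hχ
  have b2 : ∀ {χ : Tor ι K → Tor ι K → Matrix ν ν K}, Ana2M χ →
      Ana2M fun (z : Tor (ι ⊕ ι) K) t =>
        χ (fun j => z (Sum.inl j)) ((fun j => z (Sum.inr j)) * t) := by
    intro χ hχ
    exact ana2M_comp
      (σ := fun (z : Tor (ι ⊕ ι) K) (_ : Tor ι K) => (fun j => z (Sum.inl j)))
      (τ := fun (z : Tor (ι ⊕ ι) K) (t : Tor ι K) => (fun j => z (Sum.inr j)) * t)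
      hmL (isMono_mul hmR hmT) (fun z hz _ => fun j => hz (Sum.inl j)) hχ
  have b3 : ∀ {χ : Tor ι K → Tor ι K → Matrix ν ν K}, Ana2M χ →
      Ana2M fun (z : Tor (ι ⊕ ι) K) t => χ (fun j => z (Sum.inr j)) t := by
    intro χ hχ
    exact ana2M_comp
      (σ := fun (z : Tor (ι ⊕ ι) K) (_ : Tor ι K) => (fun j => z (Sum.inr j)))
      (τ := fun _ t => t) hmR hmT (fun z hz _ => fun j => hz (Sum.inr j)) hχ
  refine ⟨c, ci, α, ⟨?_, ?_, ?_, ?_, ?_, ?_, ?_, ?_⟩, ?_, hc, hα⟩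
  · refine endA_anA2 (ana2M_congr (fun z hz t => ?_) (ana2M_mul (ana2M_mul (b1 hψ) (b2 hφ)) (b3 hφ)))
    exact hc _ (fun j => hz (Sum.inl j)) _ (fun j => hz (Sum.inr j)) t
  · refine endA_anA2 (ana2M_congr (fun z hz t => ?_) (ana2M_mul (ana2M_mul (b3 hψ) (b2 hψ)) (b1 hφ)))
    exact hci _ (fun j => hz (Sum.inl j)) _ (fun j => hz (Sum.inr j)) t
  · intro v
    refine endA_anA (ana2M_congr (fun y hy t => hα y hy v t) (ana2M_mul (ana2M_mul hψ ?_) hφ))
    exact ana2M_of_anaM (τ := fun y t => y * t) (isMono_mul isMono_inl isMono_inr) v.isHom.an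
  · intro x hx y hy
    have hxy := circ_mul hx hy
    have a0 : ∀ t : Tor ι K, x * y * t = x * (y * t) := fun t => mul_assoc x y t
    constructor
    · refine EndA.ext' fun t => ?_
      rw [EndA.val_mul, EndA.val_one, hc x hx y hy, hci x hx y hy]
      exact inv_alg (hR y hy t) (hφs x hx _) (hR x hx _)
        (by rw [← a0]; exact hψs _ hxy t) (hL _ hxy t)
    · refine EndA.ext' fun t => ?_
      rw [EndA.val_mul, EndA.val_one, hc x hx y hy, hci x hx y hy]
      refine inv_alg (F1 := E.f 0 (x * (y * t))) (F2 := E.f 0 (y * t)) ?_ ?_ ?_ ?_ (hL y hy t)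
      · rw [← a0]
        exact hR _ hxy t
      · exact hψs x hx _
      · exact hL x hx _
      · exact hψs y hy t
  · intro y hy
    refine EndA.ext' fun t => ?_
    rw [EndA.val_one, hc 1 one_mem_circ y hy, one_mul, (h1 _).1, hψs y hy]
    exact hL y hy t
  · intro x hx
    refine EndA.ext' fun t => ?_
    rw [EndA.val_one, hc x hx 1 one_mem_circ, mul_one, one_mul, (h1 _).1, mul_assoc, hφs x hx]
    exact hL x hx t
  · intro x hx y hy z hz
    have hxy := circ_mul hx hy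
    have hyz := circ_mul hy hz
    refine EndA.ext' fun t => ?_
    rw [EndA.val_mul, EndA.val_mul, hα z hz, hc _ hxy z hz, hc x hx y hy, hc x hx _ hyz,
      hc y hy z hz, mul_assoc x y z, mul_assoc y z t]
    have a0 : ∀ t : Tor ι K, x * y * t = x * (y * t) := fun t => mul_assoc x y t
    have a1 : y * z * t = y * (z * t) := mul_assoc y z t
    refine coc_alg (hR z hz t) (hφs _ hxy _) (hR _ hxy _) ?_ (hR _ hyz t) ?_
    · rw [a0]
      exact hφt x hx _
    · rw [a1]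
      exact hφs x hx _
  · intro y hy z hz v
    have hyz := circ_mul hy hz
    refine EndA.ext' fun t => ?_
    rw [EndA.val_mul, EndA.val_mul, hα _ hyz, hα z hz, hα y hy, hc y hy z hz,
      mul_assoc y z t]
    have a1 : y * z * t = y * (z * t) := mul_assoc y z t
    refine tw_alg (F3 := E.f 0 (y * (z * t))) ?_ (hφt y hy _) (hR z hz t) (hφs y hy _)
      (hR y hy _) ?_
    · rw [← a1]
      exact hR _ hyz t
    · exact isHom_one_mul v.isHom _
  · intro v
    refine EndA.ext' fun t => ?_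
    rw [hα 1 one_mem_circ, one_mul, (h1 t).1, (h1 t).2, isHom_one_mul v.isHom, v.isHom.src]

end Pool.Agent.Work.MP_6d379e_ag.Ab
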