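import Pool.Agent.Work.MP_6d379e_ag.Ab.OneDir

/-!
# An invertible family in all directions   (size M)

For a finite set `S` of directions let `x_S` be the point with coordinates `x i` for `i ∈ S` and `1`
elsewhere.  Claim by Finset induction: there are `φ`, `ψ` jointly analytic with
`IsIso2 m f (trans x_S f) (φ x) (ψ x)` for all `x ∈ circ`.  `S = ∅` : `φ = ψ = f 0` (`isIso_refl`,
`trans_one`).  Step `insert j S` : `one_dir` gives `φ_j z : f → trans (embT j z) f`; translate it by
`x_S` (`isIso_translate`): `trans x_S f → trans x_S (trans (embT j (x j)) f) = trans x_{S ∪ {j}} f`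
(`trans_trans`), and compose.  Joint analyticity: `(x, t) ↦ φ_j (x j) (x_S * t)` by `ana2M_comp` (the
maps `x ↦ (x j)` and `(x, t) ↦ x_S * t` are monomial).  For `S = univ`, `x_S = x`.
Normalization: replace `φ x t` by `φ x t * ψ 1 t` and `ψ x t` by `φ 1 t * ψ x t`
(`φ 1`, `ψ 1` are inverse automorphisms of `f`).
-/

namespace Pool.Agent.Work.MP_6d379e_ag.Ab

variable {ι ν : Type*} [Fintype ι] [Fintype ν] [DecidableEq ι] [DecidableEq ν]
variable {K : Type*} [NontriviallyNormedField K] [IsUltrametricDist K]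
variable [CompleteSpace K] [IsAlgClosed K] [CharZero K]
variable {m : ι → Tor ι K} {f : (ι → ℤ) → Tor ι K → Matrix ν ν K}

private def xS (S : Finset ι) (x : Tor ι K) : Tor ι K := fun i => if i ∈ S then x i else 1

omit [Fintype ι] [IsUltrametricDist K] [CompleteSpace K] [IsAlgClosed K] [CharZero K] in
private theorem xS_empty (x : Tor ι K) : xS ∅ x = 1 := by
  funext i
  exact if_neg (Finset.notMem_empty i)

omit [IsUltrametricDist K] [CompleteSpace K] [IsAlgClosed K] [CharZero K] in
private theorem xS_univ (x : Tor ι K) : xS Finset.univ x = x := by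
  funext i
  exact if_pos (Finset.mem_univ i)

omit [Fintype ι] [IsUltrametricDist K] [CompleteSpace K] [IsAlgClosed K] [CharZero K] in
private theorem xS_insert {S : Finset ι} {j : ι} (hj : j ∉ S) (x : Tor ι K) :
    embT j (fun _ => x j) * xS S x = xS (insert j S) x := by
  funext i
  show Function.update (1 : Tor ι K) j (x j) i * (if i ∈ S then x i else 1) =
    if i ∈ insert j S then x i else 1
  by_cases hi : i = j
  · subst hi
    rw [Function.update_self, if_neg hj, mul_one, if_pos (Finset.mem_insert_self _ _)]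
  · rw [Function.update_of_ne hi, Pi.one_apply, one_mul]
    by_cases h1 : i ∈ S
    · rw [if_pos h1, if_pos (Finset.mem_insert_of_mem h1)]
    · rw [if_neg h1, if_neg (fun h => (Finset.mem_insert.1 h).elim hi h1)]

omit [IsUltrametricDist K] [CompleteSpace K] [IsAlgClosed K] [CharZero K] in
private theorem xS_mono (S : Finset ι) : IsMono (fun x : Tor ι K => xS S x) := by
  refine isMono_coord fun i => ?_
  by_cases h : i ∈ S
  · exact ⟨fun x => x, isMono_id, fun x => if_pos h⟩
  · exact ⟨fun _ => 1, isMono_const 1, fun x => if_neg h⟩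

private theorem multi_S (hm : Std m) (hf : LocB m f) (hh : Homog m f) (S : Finset ι) :
    ∃ φ ψ : Tor ι K → Tor ι K → Matrix ν ν K, Ana2M φ ∧ Ana2M ψ ∧
      ∀ x ∈ (circ : Set (Tor ι K)), IsIso2 m f (trans (xS S x) f) (φ x) (ψ x) := by
  induction S using Finset.induction_on with
  | empty =>
    refine ⟨fun _ => f 0, fun _ => f 0,
      ana2M_of_anaM (τ := fun _ t => t) isMono_inr (hf.bun.an 0),
      ana2M_of_anaM (τ := fun _ t => t) isMono_inr (hf.bun.an 0), fun x _ => ?_⟩
    rw [xS_empty, trans_one]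
    exact isIso_refl hf.bun
  | insert j S hj ih =>
    obtain ⟨φ, ψ, h1, h2, h3⟩ := ih
    obtain ⟨φ', ψ', h1', h2', h3'⟩ := one_dir hm hf hh j
    have hσ : IsMono fun z : Tor (ι ⊕ ι) K => (fun _ : Unit => z (Sum.inl j)) :=
      isMono_reindex (fun _ : Unit => Sum.inl j)
    have hτ : IsMono fun z : Tor (ι ⊕ ι) K =>
        xS S (fun j => z (Sum.inl j)) * (fun i => z (Sum.inr i)) :=
      isMono_mul (isMono_comp (xS_mono S) isMono_inl) isMono_inr
    refine ⟨fun x t => φ' (fun _ => x j) (xS S x * t) * φ x t,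
      fun x t => ψ x t * ψ' (fun _ => x j) (xS S x * t), ?_, ?_, fun x hx => ?_⟩
    · exact ana2M_mul (ana2M_comp (σ := fun x _ => (fun _ : Unit => x j))
        (τ := fun x t => xS S x * t) hσ hτ (fun x hx _ _ => hx j) h1') h1
    · exact ana2M_mul h2 (ana2M_comp (σ := fun x _ => (fun _ : Unit => x j))
        (τ := fun x t => xS S x * t) hσ hτ (fun x hx _ _ => hx j) h2')
    · have h4 := isIso_translate (xS S x) (h3' (fun _ => x j) (fun _ => hx j))
      rw [trans_trans, xS_insert hj] at h4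
      exact isIso_trans (h3 x hx) h4

theorem multi_dir (hm : Std m) (hf : LocB m f) (hh : Homog m f) :
    ∃ φ ψ : Tor ι K → Tor ι K → Matrix ν ν K, Ana2M φ ∧ Ana2M ψ ∧
      (∀ x ∈ (circ : Set (Tor ι K)), IsIso2 m f (trans x f) (φ x) (ψ x)) ∧
      ∀ t, φ 1 t = f 0 t ∧ ψ 1 t = f 0 t := by
  obtain ⟨φ, ψ, h1, h2, h3⟩ := multi_S hm hf hh Finset.univ
  have h4 : IsIso2 m f f (φ 1) (ψ 1) := by
    have h5 := h3 1 one_mem_circ
    rw [xS_univ, trans_one] at h5
    exact h5
  have hc : ∀ {Φ : Tor ι K → Tor ι K → Matrix ν ν K}, Ana2M Φ →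
      Ana2M fun (_ : Tor ι K) (t : Tor ι K) => Φ 1 t := by
    intro Φ hΦ
    exact ana2M_comp (σ := fun _ _ => (1 : Tor ι K)) (τ := fun _ t => t) (isMono_const 1)
      isMono_inr (fun _ _ _ => one_mem_circ) hΦ
  refine ⟨fun x t => φ x t * ψ 1 t, fun x t => φ 1 t * ψ x t, ana2M_mul h1 (hc h2),
    ana2M_mul (hc h1) h2, fun x hx => ?_, fun t => ⟨h4.right t, h4.right t⟩⟩
  have h5 := h3 x hx
  rw [xS_univ] at h5
  exact isIso_trans (isIso_symm h4) h5

end Pool.Agent.Work.MP_6d379e_ag.Ab
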