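import Pool.Agent.Work.MP_6d379e_ag.Ab.VDefs

/-!
# Definitions: flat actions of the polycircle, flat bundles (FIXED, do not change)

* `FlatAct e φ ψ` : `φ x t` is an isomorphism from the fibre of `e` at `t` to the fibre at `x * t`,
  with inverse `ψ x t`, and `φ (x * y) t = φ x (y * t) * φ y t` for `x, y` in the polycircle.
* `FlatData m f P Q ρ` : the bundle `f` is trivialized over the torus by `P`, `Q`, and its factor
  of automorphy in this trivialization is the representation `ρ` of the lattice.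
-/

namespace Pool.Agent.Work.MP_6d379e_ag.Ab

variable {ι ν : Type*} [Fintype ι] [Fintype ν] {K : Type*} [NontriviallyNormedField K]

/-- an action of the polycircle on the bundle `e` over the translations -/
structure FlatAct (e : Tor ι K → Matrix ν ν K) (φ ψ : Tor ι K → Tor ι K → Matrix ν ν K) :
    Prop where
  an_e : AnaM e
  an_φ : Ana2M φ
  an_ψ : Ana2M ψ
  idem : ∀ t, e t * e t = e t
  φ_src : ∀ x ∈ (circ : Set (Tor ι K)), ∀ t, φ x t * e t = φ x t
  φ_tgt : ∀ x ∈ (circ : Set (Tor ι K)), ∀ t, e (x * t) * φ x t = φ x t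
  ψ_src : ∀ x ∈ (circ : Set (Tor ι K)), ∀ t, ψ x t * e (x * t) = ψ x t
  ψ_tgt : ∀ x ∈ (circ : Set (Tor ι K)), ∀ t, e t * ψ x t = ψ x t
  left : ∀ x ∈ (circ : Set (Tor ι K)), ∀ t, ψ x t * φ x t = e t
  right : ∀ x ∈ (circ : Set (Tor ι K)), ∀ t, φ x t * ψ x t = e (x * t)
  mul : ∀ x ∈ (circ : Set (Tor ι K)), ∀ y ∈ (circ : Set (Tor ι K)), ∀ t,
    φ (x * y) t = φ x (y * t) * φ y t

/-- a flat trivialization of the bundle `f` -/
structure FlatData (m : ι → Tor ι K) (f : (ι → ℤ) → Tor ι K → Matrix ν ν K) {r : ℕ}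
    (P : Tor ι K → Matrix ν (Fin r) K) (Q : Tor ι K → Matrix (Fin r) ν K)
    (ρ : (ι → ℤ) → Matrix (Fin r) (Fin r) K) : Prop where
  anP : AnaM P
  anQ : AnaM Q
  QP : ∀ t, Q t * P t = 1
  PQ : ∀ t, P t * Q t = f 0 t
  one : ρ 0 = 1
  mul : ∀ l l', ρ (l + l') = ρ l * ρ l'
  eq : ∀ l t, f l t = P (lat m l * t) * ρ l * Q t

/-- the bundle is flat: it comes from a representation of the lattice -/
def IsFlatB (m : ι → Tor ι K) (f : (ι → ℤ) → Tor ι K → Matrix ν ν K) : Prop :=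
  ∃ (r : ℕ) (P : Tor ι K → Matrix ν (Fin r) K) (Q : Tor ι K → Matrix (Fin r) ν K)
    (ρ : (ι → ℤ) → Matrix (Fin r) (Fin r) K), FlatData m f P Q ρ

end Pool.Agent.Work.MP_6d379e_ag.Ab
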