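import Pool.Agent.Work.MP_6d379e_ag.Ab.CoA
import Pool.Agent.Work.MP_6d379e_ag.Ab.CMain
import Pool.Agent.Work.MP_6d379e_ag.Ab.AbsAlg
import Pool.Agent.Work.MP_6d379e_ag.Ab.Multi
import Pool.Agent.Work.MP_6d379e_ag.Ab.WDefs

/-!
# Flattening the family of isomorphisms   (size M)

Let `E` be the bundle `f` (`LocB`), `EndA E` finite-dimensional (`homSp_finite`), nontrivial, with
only trivial idempotents; `lam`, `N` from `local_lam`.  Take `φ0`, `ψ0` from `multi_dir`, the data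
`c, ci, α` from `exists_cocD` and `w, wi` from `splits_exists`
(`w (xy) = c x y * α y (w x) * w y`).  Put
`φ x t = φ0 x t * (w x).val t`, `ψ x t = (wi x).val t * ψ0 x t`.
For `x, y ∈ circ`:
`φ x (y t) * φ y t = φ0 x (y t) w x (y t) φ0 y t w y t`
`= φ0 x (y t) φ0 y t (ψ0 y t w x (y t) φ0 y t) w y t`     (`φ0 y t ψ0 y t = f 0 (y t)`)
`= φ0 (xy) t (c x y) t (α y (w x)) t (w y) t = φ0 (xy) t (w (xy)) t = φ (xy) t`
(`φ0 (xy) t * ψ0 (xy) t = f 0 (xy t)`).  Joint analyticity: `endA_ana2M`, `ana2M_mul`.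
`IsIso2 m f (trans x f) (φ x) (ψ x)` : composition with the automorphism `w x` of `f`
(inverse `wi x`).  `FlatAct` : all fields from `IsIso2` (`isHom_one_mul`, `src`, `left`, `right`).
-/

namespace Pool.Agent.Work.MP_6d379e_ag.Ab

variable {ι ν : Type*} [Fintype ι] [Fintype ν] [DecidableEq ι] [DecidableEq ν]
variable {K : Type*} [NontriviallyNormedField K] [IsUltrametricDist K]
variable [CompleteSpace K] [IsAlgClosed K] [CharZero K]
variable {m : ι → Tor ι K} {f : (ι → ℤ) → Tor ι K → Matrix ν ν K}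

omit [DecidableEq ι] [DecidableEq ν] [IsUltrametricDist K] [CompleteSpace K] [IsAlgClosed K]
  [CharZero K] [Fintype ι] in
private theorem fl_alg {A A' X Y Y' W V F1 F2 : Matrix ν ν K} (h1 : A * A' = F2)
    (h2 : F2 * X = X) (h3 : Y * Y' = F1) (h4 : X * F1 = X) :
    A * (A' * X * Y * (Y' * W * Y) * V) = X * W * (Y * V) := by
  have e1 : A * (A' * X * Y * (Y' * W * Y) * V) = ((A * A') * X) * (Y * Y') * W * Y * V := by
    simp only [mul_assoc]
  rw [e1, h1, h2, h3, h4]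
  simp only [mul_assoc]

theorem exists_flatAct (hm : Std m) (hf : LocB m f) (hh : Homog m f) :
    ∃ φ ψ : Tor ι K → Tor ι K → Matrix ν ν K, FlatAct (f 0) φ ψ ∧
      ∀ x ∈ (circ : Set (Tor ι K)), IsIso2 m f (trans x f) (φ x) (ψ x) := by
  obtain ⟨E, hE⟩ : ∃ E : BunB m ν, E.f = f := ⟨⟨f, hf.bun⟩, rfl⟩
  have hfin : FiniteDimensional K (EndA E) := by
    have h1 := homSp_finite hm E.isBun E.isBun
    exact h1
  obtain ⟨t0, ht0⟩ := hf.ne
  have hnt : Nontrivial (EndA E) := by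
    refine ⟨0, 1, fun h => ht0 ?_⟩
    have h1 := congrArg (fun Φ : EndA E => Φ.val t0) h
    have h2 : (0 : Matrix ν ν K) = E.f 0 t0 := h1
    rw [hE] at h2
    exact h2.symm
  have hid : ∀ p : EndA E, p * p = p → p = 0 ∨ p = 1 := by
    intro p hp
    have h1 := p.isHom
    rw [hE] at h1
    rcases hf.idem p.val h1 (fun t => congrArg (fun Φ : EndA E => Φ.val t) hp) with h2 | h2
    · left
      exact EndA.ext' fun t => h2 t
    · right
      refine EndA.ext' fun t => ?_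
      rw [EndA.val_one, hE]
      exact h2 t
  obtain ⟨lam, N, hN, _, _⟩ := local_lam (K := K) hid
  obtain ⟨φ0, ψ0, hφ0, hψ0, hi, h1⟩ := multi_dir hm hf hh
  rw [← hE] at hi h1
  obtain ⟨c, ci, α, hcoc, hα1, hc, hα⟩ := exists_cocD E hφ0 hψ0 hi h1
  obtain ⟨w, wi, hw, hs⟩ := splits_exists hN hcoc hα1
  have hiso : ∀ x ∈ (circ : Set (Tor ι K)), IsIso2 m E.f (trans x E.f)
      (fun t => φ0 x t * (w x).val t) (fun t => (wi x).val t * ψ0 x t) := by
    intro x hx
    refine isIso_trans (f' := E.f) ⟨(w x).isHom, (wi x).isHom, fun t => ?_, fun t => ?_⟩ (hi x hx)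
    · exact congrArg (fun Φ : EndA E => Φ.val t) (hw.inv x hx).2
    · exact congrArg (fun Φ : EndA E => Φ.val t) (hw.inv x hx).1
  rw [← hE]
  refine ⟨fun x t => φ0 x t * (w x).val t, fun x t => (wi x).val t * ψ0 x t, ?_, hiso⟩
  refine ⟨E.isBun.an 0, ana2M_mul hφ0 (endA_ana2M hw.an), ana2M_mul (endA_ana2M hw.an_i) hψ0,
    (isHom_id E.isBun).src, ?_, ?_, ?_, ?_, ?_, ?_, ?_⟩
  · exact fun x hx t => (hiso x hx).hom.src t
  · exact fun x hx t => isHom_one_mul (hiso x hx).hom t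
  · exact fun x hx t => (hiso x hx).inv.src t
  · exact fun x hx t => isHom_one_mul (hiso x hx).inv t
  · exact fun x hx t => (hiso x hx).left t
  · exact fun x hx t => (hiso x hx).right t
  · intro x hx y hy t
    have hxy := circ_mul hx hy
    show φ0 (x * y) t * (w (x * y)).val t =
      φ0 x (y * t) * (w x).val (y * t) * (φ0 y t * (w y).val t)
    have h2 : (w (x * y)).val t = ψ0 (x * y) t * φ0 x (y * t) * φ0 y t *
        (ψ0 y t * (w x).val (y * t) * φ0 y t) * (w y).val t := by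
      rw [hs x hx y hy, EndA.val_mul, EndA.val_mul, hc x hx y hy, hα y hy]
    rw [h2]
    refine fl_alg ((hi _ hxy).right t) ?_ ((hi y hy).right t) ((hi x hx).hom.src _)
    have h3 : (trans (x * y) E.f) 0 t = E.f 0 (x * (y * t)) := by
      show E.f 0 (x * y * t) = _
      rw [mul_assoc]
    rw [h3]
    exact isHom_one_mul (hi x hx).hom _

end Pool.Agent.Work.MP_6d379e_ag.Ab
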