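import Pool.Agent.Work.MP_6d379e_ag.Ab.Lpol

/-!
# Coefficients of a Laurent polynomial by averaging over roots of unity   (size M)

`exists_nat_norm_one`: in an ultrametric field all natural numbers have norm `≤ 1`
(`IsUltrametricDist.norm_natCast_le_one`), and they are nonzero (characteristic zero is only used
to keep the statement simple).  Not both `‖2‖ < 1` and `‖3‖ < 1` (otherwise `1 = 3 - 2` has norm
`< 1`).  If `‖2‖ = 1` take `N = 2 ^ (n + 1)`, otherwise `N = 3 ^ (n + 1)`.

`root_avg`: choose `N` with `‖(N : K)‖ = 1` and larger than `|k' i - k i|` for all `k'` in the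
support of `P` and all `i`.  `K` is algebraically closed of characteristic zero, so it has a
primitive `N`-th root of unity (`IsAlgClosed`, `HasEnoughRootsOfUnity`, or
`IsAlgClosed.exists_pow_nat_eq`/separability of `X ^ N - 1`), and every `N`-th root of unity has
norm `1`.  Let `Z` be the finite set of all `u : Tor ι K` with `u i ^ N = 1` for all `i`
(cardinality `N ^ |ι|`, a power of `N`, so its image in `K` has norm `1`).  For `k' ≠ k` in the
support there is `i` with `0 < |k' i - k i| < N`, hence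
`∑ u ∈ Z, mon (k' - k) u = 0` (the sum over the `i`-th coordinate is a full geometric sum of
powers of a nontrivial root of unity), so
`∑ u ∈ Z, (mon k u)⁻¹ * lpol P (u * t) = |Z| * P k * mon k t`.
All `‖mon k u‖ = 1`.  By the ultrametric inequality some `u ∈ Z` has
`‖lpol P (u * t)‖ ≥ ‖P k * mon k t‖`.
-/

namespace Pool.Agent.Work.MP_6d379e_ag.Ab

variable {ι : Type*} [Fintype ι] {K : Type*} [NontriviallyNormedField K] [IsUltrametricDist K]

private theorem norm_of_pow_eq_one {N : ℕ} (hN : N ≠ 0) {z : K} (h : z ^ N = 1) : ‖z‖ = 1 := by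
  have h1 : ‖z‖ ^ N = 1 := by rw [← norm_pow, h, norm_one]
  exact (pow_eq_one_iff_of_nonneg (norm_nonneg z) hN).mp h1

private theorem geom_zero {N : ℕ} {ζ : Kˣ} (hζ : IsPrimitiveRoot ζ N) (m : ℤ) :
    ∑ a : Fin N, (((ζ ^ (a : ℕ)) ^ m : Kˣ) : K) = if (N : ℤ) ∣ m then (N : K) else 0 := by
  have h1 : ∀ a : Fin N, (((ζ ^ (a : ℕ)) ^ m : Kˣ) : K) = ((ζ ^ m : Kˣ) : K) ^ (a : ℕ) := by
    intro a
    rw [← Units.val_pow_eq_pow_val]
    congr 1
    rw [← zpow_natCast (ζ ^ m) (a : ℕ), ← zpow_natCast ζ (a : ℕ), ← zpow_mul, ← zpow_mul,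
      mul_comm]
  rw [Finset.sum_congr rfl fun a _ => h1 a, Fin.sum_univ_eq_sum_range
    (fun a : ℕ => ((ζ ^ m : Kˣ) : K) ^ a) N]
  by_cases hd : (N : ℤ) ∣ m
  · rw [if_pos hd, (hζ.zpow_eq_one_iff_dvd m).mpr hd]
    simp
  · rw [if_neg hd]
    have hne : ((ζ ^ m : Kˣ) : K) ≠ 1 := by
      intro h
      exact hd ((hζ.zpow_eq_one_iff_dvd m).mp (Units.ext h))
    rw [geom_sum_eq hne]
    have h2 : ((ζ ^ m : Kˣ) : K) ^ N = 1 := by
      rw [← Units.val_pow_eq_pow_val, ← zpow_natCast, ← zpow_mul, mul_comm, zpow_mul,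
        zpow_natCast, hζ.pow_eq_one, one_zpow, Units.val_one]
    rw [h2, sub_self, zero_div]

private theorem sum_mon [DecidableEq ι] {N : ℕ} {ζ : Kˣ} (hζ : IsPrimitiveRoot ζ N) (m : ι → ℤ) :
    ∑ a : ι → Fin N, mon m (fun i => ζ ^ (a i : ℕ) : Tor ι K) =
      ∏ i, if (N : ℤ) ∣ m i then (N : K) else 0 := by
  have h1 : ∀ a : ι → Fin N, mon m (fun i => ζ ^ (a i : ℕ) : Tor ι K) =
      ∏ i, (((ζ ^ (a i : ℕ)) ^ m i : Kˣ) : K) := by
    intro a
    unfold mon
    rw [Units.coe_prod]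
  rw [Finset.sum_congr rfl fun a _ => h1 a]
  rw [← Finset.prod_congr rfl fun i _ => geom_zero hζ (m i), Finset.prod_univ_sum,
    Fintype.piFinset_univ]

theorem exists_nat_norm_one (K : Type*) [NontriviallyNormedField K] [IsUltrametricDist K]
    [CharZero K] (n : ℕ) : ∃ N : ℕ, n < N ∧ ‖(N : K)‖ = 1 := by
  have h2 : ‖((2 : ℕ) : K)‖ ≤ 1 := IsUltrametricDist.norm_natCast_le_one K 2
  have h3 : ‖((3 : ℕ) : K)‖ ≤ 1 := IsUltrametricDist.norm_natCast_le_one K 3
  have key : ∀ b : ℕ, 2 ≤ b → ‖(b : K)‖ = 1 → ∃ N : ℕ, n < N ∧ ‖(N : K)‖ = 1 := by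
    intro b hb hb1
    refine ⟨b ^ (n + 1), ?_, ?_⟩
    · have h4 : n + 1 < b ^ (n + 1) := Nat.lt_pow_self (by omega)
      omega
    · rw [Nat.cast_pow, norm_pow, hb1, one_pow]
  rcases h2.lt_or_eq with h2' | h2'
  · rcases h3.lt_or_eq with h3' | h3'
    · exfalso
      have h5 : (1 : K) = ((3 : ℕ) : K) - ((2 : ℕ) : K) := by
        push_cast
        norm_num
      have h6 : ‖(1 : K)‖ ≤ max ‖((3 : ℕ) : K)‖ ‖((2 : ℕ) : K)‖ := by
        rw [h5]
        rw [sub_eq_add_neg]
        refine (IsUltrametricDist.norm_add_le_max _ _).trans ?_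
        rw [norm_neg]
      rw [norm_one] at h6
      exact absurd h6 (not_le.mpr (max_lt h3' h2'))
    · exact key 3 (by norm_num) h3'
  · exact key 2 le_rfl h2'

theorem root_avg [IsAlgClosed K] [CharZero K] (P : (ι → ℤ) →₀ K) (t : Tor ι K) (k : ι → ℤ) :
    ∃ u ∈ (circ : Set (Tor ι K)), ‖P k‖ * ‖mon k t‖ ≤ ‖lpol P (u * t)‖ := by
  classical
  obtain ⟨N, hN, hN1⟩ := exists_nat_norm_one K
    (∑ k' ∈ P.support, ∑ i, (k' i - k i).natAbs)
  have hN0 : 0 < N := by omega
  haveI : NeZero N := ⟨hN0.ne'⟩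
  haveI : NeZero (N : K) := ⟨Nat.cast_ne_zero.mpr hN0.ne'⟩
  obtain ⟨z, hz⟩ := HasEnoughRootsOfUnity.exists_primitiveRoot K N
  obtain ⟨ζ, hζz⟩ := hz.isUnit hN0.ne'
  have hζ : IsPrimitiveRoot ζ N := by
    rw [← hζz] at hz
    exact IsPrimitiveRoot.coe_units_iff.mp hz
  have hζ1 : ‖(ζ : K)‖ = 1 := by
    refine norm_of_pow_eq_one hN0.ne' ?_
    rw [hζz]
    exact hz.pow_eq_one
  set U : (ι → Fin N) → Tor ι K := fun a i => ζ ^ (a i : ℕ) with hU
  have hUc : ∀ a, U a ∈ (circ : Set (Tor ι K)) := by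
    intro a i
    show ‖((ζ ^ (a i : ℕ) : Kˣ) : K)‖ = 1
    rw [Units.val_pow_eq_pow_val, norm_pow, hζ1, one_pow]
  have hterm : ∀ a, (mon k (U a))⁻¹ * lpol P (U a * t) =
      ∑ k' ∈ P.support, P k' * mon k' t * mon (k' - k) (U a) := by
    intro a
    have h1 : lpol P (U a * t) = ∑ k' ∈ P.support, P k' * mon k' (U a * t) := rfl
    rw [h1, Finset.mul_sum]
    refine Finset.sum_congr rfl fun k' _ => ?_
    rw [mon_sub, mon_mul]
    ring
  have hsum : ∑ a, (mon k (U a))⁻¹ * lpol P (U a * t) =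
      (N : K) ^ Fintype.card ι * (P k * mon k t) := by
    rw [Finset.sum_congr rfl fun a _ => hterm a]
    rw [Finset.sum_comm]
    have h2 : ∀ k' ∈ P.support, ∑ a, P k' * mon k' t * mon (k' - k) (U a) =
        if k' = k then (N : K) ^ Fintype.card ι * (P k * mon k t) else 0 := by
      intro k' hk'
      rw [← Finset.mul_sum, sum_mon hζ]
      by_cases hkk : k' = k
      · subst hkk
        rw [if_pos rfl]
        have h3 : (∏ i : ι, if (N : ℤ) ∣ (k' - k') i then (N : K) else 0) =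
            (N : K) ^ Fintype.card ι := by
          have h4 : ∀ i : ι, (if (N : ℤ) ∣ (k' - k') i then (N : K) else 0) = (N : K) := by
            intro i
            rw [if_pos]
            simp
          rw [Finset.prod_congr rfl fun i _ => h4 i, Finset.prod_const, Finset.card_univ]
        rw [h3]
        ring
      · rw [if_neg hkk]
        obtain ⟨i, hi⟩ : ∃ i, k' i ≠ k i := by
          by_contra hcon
          push Not at hcon
          exact hkk (funext hcon)
        have h5 : (∏ i : ι, if (N : ℤ) ∣ (k' - k) i then (N : K) else 0) = 0 := by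
          refine Finset.prod_eq_zero (Finset.mem_univ i) ?_
          rw [if_neg]
          intro hdvd
          have h6 : (k' i - k i).natAbs ≤ ∑ j, (k' j - k j).natAbs :=
            Finset.single_le_sum (f := fun j => (k' j - k j).natAbs)
              (fun j _ => Nat.zero_le _) (Finset.mem_univ i)
          have h7 : ∑ j, (k' j - k j).natAbs ≤
              ∑ k'' ∈ P.support, ∑ j, (k'' j - k j).natAbs :=
            Finset.single_le_sum (f := fun k'' : ι → ℤ => ∑ j, (k'' j - k j).natAbs)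
              (fun j _ => Nat.zero_le _) hk'
          have h8 : (N : ℤ) ∣ k' i - k i := hdvd
          have h9 : N ∣ (k' i - k i).natAbs := Int.natCast_dvd.mp h8
          have h10 : 0 < (k' i - k i).natAbs := by
            rw [Int.natAbs_pos]
            exact sub_ne_zero.mpr hi
          have h11 := Nat.le_of_dvd h10 h9
          omega
        rw [h5, mul_zero]
    rw [Finset.sum_congr rfl h2, Finset.sum_ite_eq']
    by_cases hk : k ∈ P.support
    · rw [if_pos hk]
    · rw [if_neg hk, Finsupp.notMem_support_iff.mp hk]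
      ring
  obtain ⟨a, -, ha⟩ := IsUltrametricDist.exists_norm_finsetSum_le_of_nonempty
    (t := (Finset.univ : Finset (ι → Fin N))) Finset.univ_nonempty
    (fun a => (mon k (U a))⁻¹ * lpol P (U a * t))
  refine ⟨U a, hUc a, ?_⟩
  rw [hsum, norm_mul, norm_pow, hN1, one_pow, one_mul, norm_mul, norm_mul, norm_inv,
    norm_mon_circ k (hUc a), inv_one, one_mul] at ha
  exact ha

end Pool.Agent.Work.MP_6d379e_ag.Ab
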