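import Pool.Agent.Work.MP_6d379e_ag.Ab.Ser
import Pool.Agent.Work.MP_6d379e_ag.Ab.Root

/-!
# Laurent coefficients: bound, uniqueness, existence   (size M)

* `coef_bound` : `C ≥ 0` (take `u = 1`).  Let `δ > 0`.  Choose a finite `S` containing `k` and all
  `k'` with `‖c k'‖ * Wt q a b k' > δ`; let `P` be the polynomial with coefficients `c` on `S`.
  `root_avg` gives `u ∈ circ` with `‖c k‖ * ‖mon k t0‖ ≤ ‖lpol P (u * t0)‖`; since
  `u * t0 ∈ BB q a b` (`circ_mul_mem_BB`) and `‖ser c (u * t0) - lpol P (u * t0)‖ ≤ δ`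
  (`ser_sub_sum_le`) we get `‖c k‖ * ‖mon k t0‖ ≤ max C δ`.  Let `δ → 0`.
* `coef_bound_Wt` : apply it at `t0 = corner q a b k`.
* `coef_unique` : apply `coef_bound` to `c - c'` with `C = 0`; `mon k t0 ≠ 0`.
* `exists_coef` : for every `n` choose `P n` with `‖f t - lpol (P n) t‖ ≤ 1 / (n + 1)` on the box.
  For `n ≤ m` the polynomial `P n - P m` is bounded by `1 / (n + 1)` on the box (ultrametric), so by
  `root_avg` at the corner of `k` one has `‖P n k - P m k‖ * Wt q a b k ≤ 1 / (n + 1)`.  So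
  `P n k` is a Cauchy sequence; let `c k` be its limit; `‖P n k - c k‖ * Wt q a b k ≤ 1 / (n + 1)`.
  Hence `{k | ε < ‖c k‖ * Wt q a b k}` is contained in the support of `P n` when `1 / (n + 1) ≤ ε`:
  `Dec q a b c`.  Finally `ser c t - lpol (P n) t` is the series with coefficients `c - P n`, bounded
  by `1 / (n + 1)` (`ser_le`), so `f t = ser c t`.
-/

namespace Pool.Agent.Work.MP_6d379e_ag.Ab

variable {ι : Type*} [Fintype ι] {K : Type*} [NontriviallyNormedField K] [IsUltrametricDist K]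
variable [CompleteSpace K] [IsAlgClosed K] [CharZero K]
variable {q : Tor ι K} {a b : ι → ℤ} {c c' : (ι → ℤ) → K}

private theorem nsub_le {K : Type*} [NontriviallyNormedField K] [IsUltrametricDist K] (x y : K) :
    ‖x - y‖ ≤ max ‖x‖ ‖y‖ := by
  rw [sub_eq_add_neg, ← norm_neg y]
  exact IsUltrametricDist.norm_add_le_max x (-y)

private theorem poly_of {ι : Type*} [Fintype ι] {K : Type*} [NontriviallyNormedField K]
    (S : Finset (ι → ℤ)) (c : (ι → ℤ) → K) :
    ∃ P : (ι → ℤ) →₀ K, (∀ k ∈ S, P k = c k) ∧ ∀ t : Tor ι K, lpol P t = ∑ k ∈ S, c k * mon k t := by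
  classical
  refine ⟨Finsupp.indicator S fun k _ => c k, fun k hk => Finsupp.indicator_of_mem hk _, fun t => ?_⟩
  unfold lpol
  rw [Finsupp.sum_of_support_subset _ (Finsupp.support_indicator_subset S _) _
    fun k _ => zero_mul _]
  exact Finset.sum_congr rfl fun k hk => by rw [Finsupp.indicator_of_mem hk]

theorem coef_bound (hc : Dec q a b c) {t0 : Tor ι K} (ht0 : t0 ∈ BB q a b) {C : ℝ}
    (h : ∀ u ∈ (circ : Set (Tor ι K)), ‖ser c (u * t0)‖ ≤ C) (k : ι → ℤ) :
    ‖c k‖ * ‖mon k t0‖ ≤ C := by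
  classical
  have hC : 0 ≤ C := (norm_nonneg _).trans (h 1 one_mem_circ)
  refine le_of_forall_pos_le_add fun δ hδ => ?_
  obtain ⟨P, hP1, hP2⟩ := poly_of (insert k (hc δ hδ).toFinset) c
  obtain ⟨u, hu, h1⟩ := root_avg P t0 k
  rw [hP1 k (Finset.mem_insert_self _ _)] at h1
  have hut := circ_mul_mem_BB hu ht0
  have h2 : ‖ser c (u * t0) - lpol P (u * t0)‖ ≤ δ := by
    rw [hP2]
    refine ser_sub_sum_le hc hut _ hδ.le fun j hj => ?_
    have h3 : j ∉ (hc δ hδ).toFinset := fun h4 => hj (Finset.mem_insert_of_mem h4)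
    rw [Set.Finite.mem_toFinset] at h3
    exact not_lt.1 h3
  have h4 : lpol P (u * t0) = ser c (u * t0) - (ser c (u * t0) - lpol P (u * t0)) := by ring
  have h5 : ‖lpol P (u * t0)‖ ≤ C + δ := by
    rw [h4]
    exact (norm_sub_le _ _).trans (add_le_add (h u hu) h2)
  exact h1.trans h5

theorem coef_bound_Wt (hq : ∀ i, ‖(q i : K)‖ ≤ 1) (hab : ∀ i, 0 ≤ a i + b i)
    (hc : Dec q a b c) {C : ℝ} (h : ∀ t ∈ BB q a b, ‖ser c t‖ ≤ C) (k : ι → ℤ) :
    ‖c k‖ * Wt q a b k ≤ C := by
  have hm := corner_mem hq hab k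
  exact coef_bound hc hm (fun u hu => h _ (circ_mul_mem_BB hu hm)) k

theorem coef_unique (hc : Dec q a b c) (hc' : Dec q a b c') {t0 : Tor ι K}
    (ht0 : t0 ∈ BB q a b)
    (h : ∀ u ∈ (circ : Set (Tor ι K)), ser c (u * t0) = ser c' (u * t0)) : c = c' := by
  funext k
  have h1 : ‖(c - c') k‖ * ‖mon k t0‖ ≤ 0 := by
    refine coef_bound (dec_sub hc hc') ht0 (fun u hu => ?_) k
    rw [ser_sub hc hc' (circ_mul_mem_BB hu ht0), h u hu, sub_self, norm_zero]
  have h2 : 0 < ‖mon k t0‖ := norm_pos_iff.2 (mon_ne_zero k t0)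
  have h3 : ‖(c - c') k‖ ≤ 0 := by
    by_contra h4
    exact absurd h1 (not_le.2 (mul_pos (not_le.1 h4) h2))
  have h5 := norm_le_zero_iff.1 h3
  rw [Pi.sub_apply] at h5
  exact sub_eq_zero.1 h5

theorem exists_coef (hq : ∀ i, ‖(q i : K)‖ ≤ 1) (hab : ∀ i, 0 ≤ a i + b i)
    {f : Tor ι K → K} (hf : AnOn (BB q a b) f) :
    ∃ c : (ι → ℤ) → K, Dec q a b c ∧ ∀ t ∈ BB q a b, f t = ser c t := by
  classical
  have hpos : ∀ n : ℕ, (0 : ℝ) < 1 / ((n : ℝ) + 1) := fun n => by positivity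
  have hanti : ∀ n m : ℕ, n ≤ m → (1 : ℝ) / ((m : ℝ) + 1) ≤ 1 / ((n : ℝ) + 1) := fun n m h =>
    one_div_le_one_div_of_le (by positivity) (by have : (n : ℝ) ≤ m := by exact_mod_cast h
                                                 linarith)
  choose P hP using fun n : ℕ => hf (1 / ((n : ℝ) + 1)) (hpos n)
  have key : ∀ (k : ι → ℤ) (n m : ℕ), n ≤ m → ‖P n k - P m k‖ * Wt q a b k ≤ 1 / ((n : ℝ) + 1) := by
    intro k n m hnm
    obtain ⟨u, hu, h1⟩ := root_avg (P n - P m) (corner q a b k) k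
    have hmem := circ_mul_mem_BB hu (corner_mem hq hab k)
    rw [Finsupp.sub_apply, lpol_sub] at h1
    refine h1.trans ?_
    have h2 : lpol (P n) (u * corner q a b k) - lpol (P m) (u * corner q a b k) =
        (f (u * corner q a b k) - lpol (P m) (u * corner q a b k)) -
          (f (u * corner q a b k) - lpol (P n) (u * corner q a b k)) := by ring
    rw [h2]
    refine (nsub_le _ _).trans (max_le ?_ (hP n _ hmem))
    exact (hP m _ hmem).trans (hanti n m hnm)
  have hcau : ∀ k, CauchySeq fun n => P n k := by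
    intro k
    have hW := Wt_pos q a b k
    refine cauchySeq_of_le_tendsto_0 (fun n : ℕ => 1 / ((n : ℝ) + 1) / Wt q a b k) ?_ ?_
    · intro n m N hn hm
      rw [dist_eq_norm, le_div_iff₀ hW]
      rcases le_total n m with h | h
      · exact (key k n m h).trans (hanti N n hn)
      · rw [norm_sub_rev]
        exact (key k m n h).trans (hanti N m hm)
    · have := (tendsto_one_div_add_atTop_nhds_zero_nat (𝕜 := ℝ)).div_const (Wt q a b k)
      rwa [zero_div] at this
  choose c hc using fun k => cauchySeq_tendsto_of_complete (hcau k)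
  have key2 : ∀ (k : ι → ℤ) (n : ℕ), ‖P n k - c k‖ * Wt q a b k ≤ 1 / ((n : ℝ) + 1) := by
    intro k n
    have h1 : Filter.Tendsto (fun m => ‖P n k - P m k‖ * Wt q a b k) Filter.atTop
        (nhds (‖P n k - c k‖ * Wt q a b k)) :=
      ((tendsto_const_nhds.sub (hc k)).norm).mul_const _
    refine le_of_tendsto h1 ?_
    filter_upwards [Filter.eventually_ge_atTop n] with m hm
    exact key k n m hm
  have key3 : ∀ (n : ℕ) (k : ι → ℤ), k ∉ (P n).support → ‖c k‖ * Wt q a b k ≤ 1 / ((n : ℝ) + 1) := by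
    intro n k hk
    have h1 := key2 k n
    rw [Finsupp.notMem_support_iff.1 hk, zero_sub, norm_neg] at h1
    exact h1
  have hdec : Dec q a b c := by
    intro ε hε
    obtain ⟨n, hn⟩ := exists_nat_one_div_lt hε
    refine (P n).support.finite_toSet.subset fun k hk => ?_
    by_contra h
    exact absurd (lt_of_lt_of_le hk (key3 n k h)) (not_lt.2 hn.le)
  refine ⟨c, hdec, fun t ht => ?_⟩
  have h1 : ∀ n : ℕ, ‖f t - ser c t‖ ≤ 1 / ((n : ℝ) + 1) := by
    intro n
    have h2 : f t - ser c t = (f t - lpol (P n) t) + ((∑ k ∈ (P n).support, (P n k - c k) * mon k t) -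
        (ser c t - ∑ k ∈ (P n).support, c k * mon k t)) := by
      have h3 : lpol (P n) t = ∑ k ∈ (P n).support, P n k * mon k t := rfl
      rw [h3]
      simp only [sub_mul, Finset.sum_sub_distrib]
      ring
    rw [h2]
    refine (IsUltrametricDist.norm_add_le_max _ _).trans (max_le (hP n t ht) ?_)
    refine (nsub_le _ _).trans (max_le ?_ ?_)
    · refine IsUltrametricDist.norm_sum_le_of_forall_le_of_nonneg (hpos n).le fun k _ => ?_
      rw [norm_mul]
      exact (mul_le_mul_of_nonneg_left (norm_mon_le_Wt ht k) (norm_nonneg _)).trans (key2 k n)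
    · exact ser_sub_sum_le hdec ht _ (hpos n).le fun k hk => key3 n k hk
  have h4 : ‖f t - ser c t‖ ≤ 0 :=
    ge_of_tendsto' tendsto_one_div_add_atTop_nhds_zero_nat h1
  exact sub_eq_zero.1 (norm_le_zero_iff.1 h4)

end Pool.Agent.Work.MP_6d379e_ag.Ab
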