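import Mathlib

/-!
# Decomposition of the identity into primitive idempotents   (size M)

Pure algebra.  Call a family `p : Fin n → V` good if its members are nonzero orthogonal idempotents
with sum `1`.  For a good family `n ≤ finrank K V` (nonzero orthogonal idempotents are linearly
independent).  There is a good family (the family `1` with `n = 1`, or the empty family if
`1 = 0`).  Take a good family with `n` maximal.  If `u` is an idempotent with
`p i * u = u = u * p i` and `u ≠ 0`, `u ≠ p i`, then replacing `p i` by `u` and `p i - u` gives a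
good family with `n + 1` members: contradiction.
-/

namespace Pool.Agent.Work.MP_6d379e_ag.Ab

variable {K : Type*} [Field K] {V : Type*} [Ring V] [Algebra K V] [FiniteDimensional K V]

/-- a family of nonzero orthogonal idempotents with sum `1` -/
private def Good (V : Type*) [Ring V] (n : ℕ) : Prop :=
  ∃ p : Fin n → V, (∀ i, p i * p i = p i) ∧ (∀ i j, i ≠ j → p i * p j = 0) ∧
    ∑ i, p i = 1 ∧ ∀ i, p i ≠ 0

private theorem good_le (K : Type*) [Field K] {V : Type*} [Ring V] [Algebra K V]
    [FiniteDimensional K V] {n : ℕ} (h : Good V n) : n ≤ Module.finrank K V := by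
  obtain ⟨p, h1, h2, _, h4⟩ := h
  have hli : LinearIndependent K p := by
    rw [Fintype.linearIndependent_iff]
    intro g hg i
    have h5 : p i * ∑ j, g j • p j = g i • p i := by
      rw [Finset.mul_sum, Finset.sum_eq_single i]
      · rw [mul_smul_comm, h1 i]
      · intro j _ hj
        rw [mul_smul_comm, h2 i j (Ne.symm hj), smul_zero]
      · intro hi
        exact absurd (Finset.mem_univ i) hi
    rw [hg, mul_zero] at h5
    rcases smul_eq_zero.1 h5.symm with h6 | h6
    · exact h6
    · exact absurd h6 (h4 i)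
  have h3 := hli.fintype_card_le_finrank
  rwa [Fintype.card_fin] at h3

private theorem good_ex (V : Type*) [Ring V] : ∃ n, Good V n := by
  by_cases h : (1 : V) = 0
  · refine ⟨0, fun i => i.elim0, fun i => i.elim0, fun i => i.elim0, ?_, fun i => i.elim0⟩
    rw [Finset.univ_eq_empty, Finset.sum_empty, h]
  · refine ⟨1, fun _ => 1, fun _ => mul_one 1, fun i j hij => absurd (Subsingleton.elim i j) hij,
      ?_, fun _ => h⟩
    rw [Fin.sum_univ_one]

private theorem good_succ {V : Type*} [Ring V] {n : ℕ} {p : Fin n → V}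
    (h1 : ∀ i, p i * p i = p i) (h2 : ∀ i j, i ≠ j → p i * p j = 0) (h3 : ∑ i, p i = 1)
    (h4 : ∀ i, p i ≠ 0) {i : Fin n} {u : V} (hu : u * u = u) (hl : p i * u = u)
    (hr : u * p i = u) (hu0 : u ≠ 0) (hui : u ≠ p i) : Good V (n + 1) := by
  have e1 : ∀ j, j ≠ i → p j * u = 0 := by
    intro j hj
    rw [← hl, ← mul_assoc, h2 j i hj, zero_mul]
  have e2 : ∀ j, j ≠ i → u * p j = 0 := by
    intro j hj
    rw [← hr, mul_assoc, h2 i j (Ne.symm hj), mul_zero]
  have k1 : ∀ j, u * (p j - if j = i then u else 0) = 0 := by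
    intro j
    by_cases hj : j = i
    · rw [if_pos hj, hj, mul_sub, hr, hu, sub_self]
    · rw [if_neg hj, sub_zero, e2 j hj]
  have k2 : ∀ j, (p j - if j = i then u else 0) * u = 0 := by
    intro j
    by_cases hj : j = i
    · rw [if_pos hj, hj, sub_mul, hl, hu, sub_self]
    · rw [if_neg hj, sub_zero, e1 j hj]
  have k3 : ∀ j, (p j - if j = i then u else 0) * (p j - if j = i then u else 0) =
      (p j - if j = i then u else 0) := by
    intro j
    by_cases hj : j = i
    · rw [if_pos hj, hj, mul_sub, sub_mul, sub_mul, h1, hl, hr, hu]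
      abel
    · rw [if_neg hj, sub_zero, h1]
  have k4 : ∀ j k, j ≠ k → (p j - if j = i then u else 0) * (p k - if k = i then u else 0) =
      0 := by
    intro j k hjk
    by_cases hj : j = i
    · have hk : k ≠ i := fun hk => hjk (hj.trans hk.symm)
      rw [if_pos hj, if_neg hk, sub_zero, sub_mul, h2 j k hjk, e2 k hk, sub_self]
    · by_cases hk : k = i
      · rw [if_neg hj, if_pos hk, sub_zero, mul_sub, h2 j k hjk, e1 j hj, sub_self]
      · rw [if_neg hj, if_neg hk, sub_zero, sub_zero, h2 j k hjk]
  refine ⟨Fin.cons u fun j => p j - if j = i then u else 0, ?_, ?_, ?_, ?_⟩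
  · intro j
    refine Fin.cases ?_ (fun j => ?_) j
    · rw [Fin.cons_zero, hu]
    · rw [Fin.cons_succ, k3]
  · intro j k
    refine Fin.cases ?_ (fun j => ?_) j
    · refine Fin.cases ?_ (fun k => ?_) k
      · intro h
        exact absurd rfl h
      · intro _
        rw [Fin.cons_zero, Fin.cons_succ, k1]
    · refine Fin.cases ?_ (fun k => ?_) k
      · intro _
        rw [Fin.cons_zero, Fin.cons_succ, k2]
      · intro h
        rw [Fin.cons_succ, Fin.cons_succ]
        exact k4 j k fun hjk => h (by rw [hjk])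
  · rw [Fin.sum_univ_succ, Fin.cons_zero]
    simp only [Fin.cons_succ]
    rw [Finset.sum_sub_distrib, h3, Finset.sum_ite_eq' Finset.univ i fun _ => u,
      if_pos (Finset.mem_univ i)]
    abel
  · intro j
    refine Fin.cases ?_ (fun j => ?_) j
    · rw [Fin.cons_zero]
      exact hu0
    · rw [Fin.cons_succ]
      by_cases hj : j = i
      · rw [if_pos hj, hj]
        exact fun h => hui (sub_eq_zero.1 h).symm
      · rw [if_neg hj, sub_zero]
        exact h4 j

theorem prim_dec (K : Type*) [Field K] (V : Type*) [Ring V] [Algebra K V]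
    [FiniteDimensional K V] :
    ∃ (n : ℕ) (p : Fin n → V), (∀ i, p i * p i = p i) ∧ (∀ i j, i ≠ j → p i * p j = 0) ∧
      ∑ i, p i = 1 ∧ (∀ i, p i ≠ 0) ∧
      ∀ i u, u * u = u → p i * u = u → u * p i = u → u = 0 ∨ u = p i := by
  have hb : BddAbove {n | Good V n} := ⟨Module.finrank K V, fun n hn => good_le K hn⟩
  have hmem : Good V (sSup {n | Good V n}) := Nat.sSup_mem (good_ex V) hb
  obtain ⟨p, h1, h2, h3, h4⟩ := hmem
  refine ⟨_, p, h1, h2, h3, h4, fun i u hu hl hr => ?_⟩
  by_contra hcon
  push Not at hcon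
  have h5 := good_succ h1 h2 h3 h4 hu hl hr hcon.1 hcon.2
  have h6 := le_csSup hb h5
  omega

end Pool.Agent.Work.MP_6d379e_ag.Ab
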