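import Pool.Agent.Work.MP_6d379e_ag.Ab.VDefs

/-!
# Direct summands   (size S-M)

`p` is an idempotent endomorphism of `f`.  Then `f 0 t * p t = p t = p t * f 0 t`
(`isHom_one_mul`, `src`) and `p (lat m l * t) * f l t = f l t * p t`.

* `isBun_sub` : `f (l + l') t p t = f l (l' t) f l' t p t`, and
  `f l (l' t) p (l' t) f l' t p t = f l (l' t) f l' t p t p t`.
* `isHom_sub_iff` : (⇒) `src` gives `Φ = Φ * (f 0 * p) = Φ * p`; `eqv` with `l = 0` gives
  `Φ = Φ * (f 0 p) = f' 0 p' Φ = p' Φ`; then `Φ f 0 = Φ p f 0 = Φ p = Φ` and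
  `Φ (l t) f l t = Φ (l t) p (l t) f l t = Φ (l t) f l t p t = f' l t p' t Φ t = f' l t Φ t`.
  (⇐) the same equations backwards.
* `dec_sum` : `f l t = f l t * f 0 t = ∑ i, f l t * p i t`.
* `dec_hom_of_loc` : from `isHom_sub_iff`.
-/

namespace Pool.Agent.Work.MP_6d379e_ag.Ab

variable {ι ν : Type*} [Fintype ι] [Fintype ν]
variable {K : Type*} [NontriviallyNormedField K]
variable {m : ι → Tor ι K} {f f' : (ι → ℤ) → Tor ι K → Matrix ν ν K}
variable {p p' Φ : Tor ι K → Matrix ν ν K}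

theorem isBun_sub (hf : IsBun m f) (hp : IsHom m f f p) (h2 : ∀ t, p t * p t = p t) :
    IsBun m (subB p f) := by
  refine ⟨fun l => anaM_mul (hf.an l) hp.an, fun l l' t => ?_⟩
  show f (l + l') t * p t = f l (lat m l' * t) * p (lat m l' * t) * (f l' t * p t)
  rw [mul_assoc (f l (lat m l' * t)), ← mul_assoc (p (lat m l' * t)), hp.eqv l' t, mul_assoc (f l' t),
    h2, hf.coc l l' t, mul_assoc]

theorem sub_zero' (hp : IsHom m f f p) (t : Tor ι K) : subB p f 0 t = p t :=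
  isHom_one_mul hp t

theorem trans_sub (x : Tor ι K) (p : Tor ι K → Matrix ν ν K)
    (f : (ι → ℤ) → Tor ι K → Matrix ν ν K) :
    trans x (subB p f) = subB (fun t => p (x * t)) (trans x f) := rfl

theorem isHom_sub_iff (hf : IsBun m f) (hf' : IsBun m f') (hp : IsHom m f f p)
    (h2 : ∀ t, p t * p t = p t) (hp' : IsHom m f' f' p') (h2' : ∀ t, p' t * p' t = p' t) :
    IsHom m (subB p f) (subB p' f') Φ ↔
      IsHom m f f' Φ ∧ (∀ t, p' t * Φ t = Φ t) ∧ ∀ t, Φ t * p t = Φ t := by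
  constructor
  · intro h
    have h3 : ∀ t, Φ t * p t = Φ t := by
      intro t
      have := h.src t
      rwa [sub_zero' hp t] at this
    have h4 : ∀ t, p' t * Φ t = Φ t := by
      intro t
      have := h.eqv 0 t
      rw [lat_zero, one_mul, sub_zero' hp t, sub_zero' hp' t, h3] at this
      exact this.symm
    refine ⟨⟨h.an, fun t => ?_, fun l t => ?_⟩, h4, h3⟩
    · conv_lhs => rw [← h3 t]
      rw [mul_assoc, hp.src t, h3 t]
    · conv_lhs => rw [← h3 (lat m l * t)]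
      rw [mul_assoc, hp.eqv l t]
      have h5 : Φ (lat m l * t) * (f l t * p t) = f' l t * p' t * Φ t := h.eqv l t
      rw [h5, mul_assoc, h4 t]
  · rintro ⟨h, h4, h3⟩
    refine ⟨h.an, fun t => ?_, fun l t => ?_⟩
    · rw [sub_zero' hp t, h3 t]
    · show Φ (lat m l * t) * (f l t * p t) = f' l t * p' t * Φ t
      rw [← mul_assoc, h.eqv l t, mul_assoc, h3 t, mul_assoc, h4 t]

theorem dec_sum (hf : IsBun m f) {n : ℕ} {p : Fin n → Tor ι K → Matrix ν ν K}
    (hp : DecB m f p) (l : ι → ℤ) (t : Tor ι K) : f l t = ∑ i, subB (p i) f l t := by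
  show f l t = ∑ i, f l t * p i t
  rw [← Matrix.mul_sum, hp.sum t]
  have h1 := hf.coc l 0 t
  rw [lat_zero, one_mul, add_zero] at h1
  exact h1

end Pool.Agent.Work.MP_6d379e_ag.Ab
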