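import Pool.Agent.Work.MP_6d379e_ag.Ab.HomFam
import Pool.Agent.Work.MP_6d379e_ag.Ab.PrimDec
import Pool.Agent.Work.MP_6d379e_ag.Ab.SubB

/-!
# Existence of a decomposition into indecomposable summands   (size M)

Apply `prim_dec` to the finite-dimensional algebra `EndA E`, `E` the bundle `f` (`homSp_finite`), and
take the underlying functions of the `p i`.  `LocB m (subB (p i) f)` : `isBun_sub`;
`subB (p i) f 0 = p i` is nonzero somewhere as `p i ≠ 0`; an idempotent endomorphism `q` of
`subB (p i) f` is by `isHom_sub_iff` an endomorphism of `f` with `p i * q = q = q * p i`, so it is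
`0` or `p i`.
-/

namespace Pool.Agent.Work.MP_6d379e_ag.Ab

variable {ι ν : Type*} [Fintype ι] [Fintype ν] [DecidableEq ι]
variable {K : Type*} [NontriviallyNormedField K] [IsUltrametricDist K]
variable [CompleteSpace K] [IsAlgClosed K] [CharZero K]
variable {m : ι → Tor ι K} {f : (ι → ℤ) → Tor ι K → Matrix ν ν K}

omit [DecidableEq ι] [IsUltrametricDist K] [CompleteSpace K] [IsAlgClosed K] [CharZero K] in
private theorem val_sum {E : BunB m ν} {α : Type*} (S : Finset α) (F : α → EndA E)
    (t : Tor ι K) : (∑ i ∈ S, F i).val t = ∑ i ∈ S, (F i).val t := by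
  classical
  induction S using Finset.induction_on with
  | empty => rw [Finset.sum_empty, Finset.sum_empty, EndA.val_zero]
  | insert i S hi ih =>
    rw [Finset.sum_insert hi, Finset.sum_insert hi, EndA.val_add, ih]

theorem exists_dec (hm : Std m) (hf : IsBun m f) :
    ∃ (n : ℕ) (p : Fin n → Tor ι K → Matrix ν ν K), DecB m f p := by
  obtain ⟨E, hE⟩ : ∃ E : BunB m ν, E.f = f := ⟨⟨f, hf⟩, rfl⟩
  subst hE
  haveI : FiniteDimensional K (EndA E) := homSp_finite hm E.isBun E.isBun
  obtain ⟨n, p, h1, h2, h3, h4, h5⟩ := prim_dec K (EndA E)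
  have hid : ∀ i t, (p i).val t * (p i).val t = (p i).val t := fun i t => by
    rw [← EndA.val_mul, h1]
  refine ⟨n, fun i => (p i).val, ⟨fun i => (p i).isHom, hid, fun i j hij t => ?_, fun t => ?_,
    fun i => ⟨isBun_sub hf (p i).isHom (hid i), ?_, fun q hq hqq => ?_⟩⟩⟩
  · rw [← EndA.val_mul, h2 i j hij, EndA.val_zero]
  · rw [← val_sum, h3, EndA.val_one]
  · by_contra hcon
    push Not at hcon
    apply h4 i
    refine EndA.ext' fun t => ?_
    rw [EndA.val_zero, ← hcon t, sub_zero' (p i).isHom t]
  · obtain ⟨k1, k2, k3⟩ := (isHom_sub_iff hf hf (p i).isHom (hid i) (p i).isHom (hid i)).1 hq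
    rcases h5 i (EndA.mk q k1) (EndA.ext' fun t => hqq t) (EndA.ext' fun t => k2 t)
      (EndA.ext' fun t => k3 t) with h6 | h6
    · left
      intro t
      have h7 := congrArg (fun Φ : EndA E => Φ.val t) h6
      exact h7
    · right
      intro t
      have h7 := congrArg (fun Φ : EndA E => Φ.val t) h6
      rw [sub_zero' (p i).isHom t]
      exact h7

end Pool.Agent.Work.MP_6d379e_ag.Ab
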