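import Mathlib

/-!
# MP_6d379e_ag, part Ab: homogeneous bundles on totally degenerate abeloids. Definitions

FIXED definitions (do not change).  Everything here is elementary: Laurent series on the torus.

* `Tor ι K = ι → Kˣ` : points of the analytic torus.
* `mon k t = ∏ i, t i ^ k i` : the monomials; `lpol P` : Laurent polynomial functions.
* `circ` : all `‖t i‖ = 1`;  `BB q a b` : the box `‖q i‖ ^ a i ≤ ‖t i‖ ≤ ‖q i‖ ^ (-(b i))`
  (here always `‖q i‖ ≤ 1`; when `‖q i‖ = 1` the `i`-th condition says `‖t i‖ = 1`).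
* `AnOn U f` : `f` is on `U` a uniform limit of Laurent polynomials.
* `ser c t = ∑' k, c k * mon k t` : Laurent series; `Dec q a b c` : the terms tend to zero on the
  box; `Wt q a b k` is the maximum of `‖mon k t‖` over the box.
* `cf f` : the coefficients of the Laurent expansion of `f` on the polycircle `circ`.
* `hull f` : the Laurent series `ser (cf f)`; `plus i f` (`minus i f`): its terms with `0 ≤ k i`
  (with `k i < 0`).
* `An2 q a b F` : `F x t` is jointly analytic for `x` in the polycircle and `t` in the box.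
-/

namespace Pool.Agent.Work.MP_6d379e_ag.Ab

/-- points of the torus -/
abbrev Tor (ι : Type*) (K : Type*) [Monoid K] := ι → Kˣ

section scalar

variable {ι κ : Type*} [Fintype ι] [Fintype κ] {K : Type*} [NontriviallyNormedField K]

/-- the monomial `t ^ k` -/
noncomputable def mon (k : ι → ℤ) (t : Tor ι K) : K := ((∏ i, t i ^ k i : Kˣ) : K)

/-- the Laurent polynomial function with coefficients `P` -/
noncomputable def lpol (P : (ι → ℤ) →₀ K) (t : Tor ι K) : K := P.sum fun k c => c * mon k t

/-- the unit polycircle -/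
def circ : Set (Tor ι K) := {t | ∀ i, ‖(t i : K)‖ = 1}

/-- the box with radii `‖q i‖ ^ a i` and `‖q i‖ ^ (-(b i))` -/
def BB (q : Tor ι K) (a b : ι → ℤ) : Set (Tor ι K) :=
  {t | ∀ i, ‖(q i : K)‖ ^ a i ≤ ‖(t i : K)‖ ∧ ‖(t i : K)‖ ≤ ‖(q i : K)‖ ^ (-(b i))}

/-- `f` is on `U` a uniform limit of Laurent polynomials -/
def AnOn (U : Set (Tor ι K)) (f : Tor ι K → K) : Prop :=
  ∀ ε : ℝ, 0 < ε → ∃ P : (ι → ℤ) →₀ K, ∀ t ∈ U, ‖f t - lpol P t‖ ≤ ε

open Classical in
/-- the point of the box at which `‖mon k t‖` is maximal -/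
noncomputable def corner (q : Tor ι K) (a b k : ι → ℤ) : Tor ι K :=
  fun i => if 0 ≤ k i then q i ^ (-(b i)) else q i ^ (a i)

/-- the maximum of `‖mon k t‖` over the box `BB q a b` -/
noncomputable def Wt (q : Tor ι K) (a b k : ι → ℤ) : ℝ := ‖mon k (corner q a b k)‖

/-- the terms of the Laurent series tend to zero on the box -/
def Dec (q : Tor ι K) (a b : ι → ℤ) (c : (ι → ℤ) → K) : Prop :=
  ∀ ε : ℝ, 0 < ε → {k | ε < ‖c k‖ * Wt q a b k}.Finite

/-- Laurent series -/
noncomputable def ser (c : (ι → ℤ) → K) (t : Tor ι K) : K := ∑' k, c k * mon k t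

open Classical in
/-- the coefficients of the Laurent expansion of `f` on the polycircle (junk value `0` if `f` is
not analytic there) -/
noncomputable def cf (f : Tor ι K → K) : (ι → ℤ) → K :=
  if h : ∃ c : (ι → ℤ) → K, Dec 1 0 0 c ∧ ∀ t ∈ circ, f t = ser c t then h.choose else 0

/-- the constant coefficient, the mean value of `f` over the polycircle -/
noncomputable def avg (f : Tor ι K → K) : K := cf f 0

/-- the Laurent series of `f` -/
noncomputable def hull (f : Tor ι K → K) : Tor ι K → K := ser (cf f)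

open Classical in
/-- the part with nonnegative exponents in the direction `i` of the Laurent series of `f` -/
noncomputable def plus (i : ι) (f : Tor ι K → K) : Tor ι K → K :=
  ser fun k => if 0 ≤ k i then cf f k else 0

open Classical in
/-- the part with negative exponents in the direction `i` of the Laurent series of `f` -/
noncomputable def minus (i : ι) (f : Tor ι K → K) : Tor ι K → K :=
  ser fun k => if 0 ≤ k i then 0 else cf f k

/-- a function of two variables as a function on the product torus -/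
def J2 (F : Tor κ K → Tor ι K → K) : Tor (κ ⊕ ι) K → K :=
  fun z => F (fun j => z (Sum.inl j)) (fun i => z (Sum.inr i))

/-- jointly analytic for `x` in the polycircle and `t` in the box -/
def An2 (q : Tor ι K) (a b : ι → ℤ) (F : Tor κ K → Tor ι K → K) : Prop :=
  AnOn (BB (Sum.elim (1 : Tor κ K) q) (Sum.elim (0 : κ → ℤ) a) (Sum.elim (0 : κ → ℤ) b)) (J2 F)

/-- the box `r⁻¹ ≤ ‖t i‖ ≤ r` -/
def ibox (r : ℝ) : Set (Tor ι K) := {t | ∀ i, r⁻¹ ≤ ‖(t i : K)‖ ∧ ‖(t i : K)‖ ≤ r}

/-- analytic on the whole torus -/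
def Ana (f : Tor ι K → K) : Prop := ∀ r : ℝ, 1 ≤ r → AnOn (ibox r) f

/-- jointly analytic for `x` in the polycircle and `t` in the whole torus -/
def Ana2 (F : Tor κ K → Tor ι K → K) : Prop :=
  ∀ r : ℝ, 1 ≤ r → AnOn {z : Tor (κ ⊕ ι) K | (∀ j, ‖(z (Sum.inl j) : K)‖ = 1) ∧
    ∀ i, r⁻¹ ≤ ‖(z (Sum.inr i) : K)‖ ∧ ‖(z (Sum.inr i) : K)‖ ≤ r} (J2 F)

/-- the monomial map `x ↦ (s i * ∏ j, x j ^ A i j)` -/
noncomputable def mmap (A : ι → κ → ℤ) (s : Tor ι K) (x : Tor κ K) : Tor ι K :=
  fun i => s i * ∏ j, x j ^ A i j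

/-- the map between tori is given by monomials (with coefficients) -/
def IsMono (τ : Tor κ K → Tor ι K) : Prop :=
  ∃ (A : ι → κ → ℤ) (s : Tor ι K), ∀ x, τ x = mmap A s x

end scalar

section bundles

variable {ι κ : Type*} [Fintype ι] [Fintype κ] {K : Type*} [NontriviallyNormedField K]
variable {ν ν' : Type*} [Fintype ν] [Fintype ν']

/-- matrices of analytic functions on the torus -/
def AnaM (Φ : Tor ι K → Matrix ν ν' K) : Prop := ∀ i j, Ana fun t => Φ t i j

/-- matrices of jointly analytic functions -/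
def Ana2M (Φ : Tor κ K → Tor ι K → Matrix ν ν' K) : Prop := ∀ i j, Ana2 fun x t => Φ x t i j

/-- the lattice element `∏ i, m i ^ l i` -/
noncomputable def lat (m : ι → Tor ι K) (l : ι → ℤ) : Tor ι K := ∏ i, m i ^ l i

/-- An analytic vector bundle on the quotient of the torus by the lattice generated by the `m i`,
whose pull back to the torus is a direct summand of a trivial bundle: `f 0` is the idempotent
(its image is the pull back) and `f l t` the isomorphism from the fibre at `t` to the fibre at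
`lat m l * t`. -/
structure IsBun (m : ι → Tor ι K) (f : (ι → ℤ) → Tor ι K → Matrix ν ν K) : Prop where
  an : ∀ l, AnaM (f l)
  coc : ∀ l l' t, f (l + l') t = f l (lat m l' * t) * f l' t

/-- `Φ` is a homomorphism of bundles from `f` to `f'`. -/
structure IsHom (m : ι → Tor ι K) (f f' : (ι → ℤ) → Tor ι K → Matrix ν ν K)
    (Φ : Tor ι K → Matrix ν ν K) : Prop where
  an : AnaM Φ
  src : ∀ t, Φ t * f 0 t = Φ t
  eqv : ∀ l t, Φ (lat m l * t) * f l t = f' l t * Φ t

/-- `Φ` and `Ψ` are mutually inverse isomorphisms of bundles. -/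
structure IsIso2 (m : ι → Tor ι K) (f f' : (ι → ℤ) → Tor ι K → Matrix ν ν K)
    (Φ Ψ : Tor ι K → Matrix ν ν K) : Prop where
  hom : IsHom m f f' Φ
  inv : IsHom m f' f Ψ
  left : ∀ t, Ψ t * Φ t = f 0 t
  right : ∀ t, Φ t * Ψ t = f' 0 t

/-- the translated bundle -/
def trans (x : Tor ι K) (f : (ι → ℤ) → Tor ι K → Matrix ν ν K) :
    (ι → ℤ) → Tor ι K → Matrix ν ν K := fun l t => f l (x * t)

/-- the bundle is homogeneous: isomorphic to all its translates -/
def Homog (m : ι → Tor ι K) (f : (ι → ℤ) → Tor ι K → Matrix ν ν K) : Prop :=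
  ∀ x : Tor ι K, ∃ Φ Ψ, IsIso2 m f (trans x f) Φ Ψ

/-- a standard lattice -/
structure Std (m : ι → Tor ι K) : Prop where
  lt : ∀ i, ‖(m i i : K)‖ < 1
  one : ∀ i j, i ≠ j → ‖(m i j : K)‖ = 1

/-- the box parameter of a standard lattice -/
def qq (m : ι → Tor ι K) : Tor ι K := fun i => m i i

end bundles

end Pool.Agent.Work.MP_6d379e_ag.Ab
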