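import Pool.Agent.Work.MP_6d379e_ag.Ab.Fib
import Pool.Agent.Work.MP_6d379e_ag.Ab.Glob2
import Pool.Agent.Work.MP_6d379e_ag.Ab.Dom

/-!
# Division by `x - z`   (size M)

`div_ana2` : for `t` put `c k t = cf (fun x => F x t) k` (`k : Unit → ℤ`).  For an integer `n` let
`Dn n x` be the Laurent polynomial in `x` equal to `(x ^ n - z ^ n) / (x - z)`:
`∑ j in range n, x ^ j * z ^ (n - 1 - j)` for `n ≥ 0`, and
`-∑ j in range (-n), x ^ (-j - 1) * z ^ (n + j)` for `n < 0`; so
`(x - z) * Dn n x = x ^ n - z ^ n` and `‖Dn n x‖ ≤ 1` on `circ`.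
`G x t = ∑' k, c k t * Dn (k ()) x`.  On every box `BB q a b`: the `c k` are analytic in `t`
(`xcf_an`) and uniformly small outside a finite set of `k` (`xcf_unif`), so `G` is a uniform limit
of finite sums `∑ k in S, c k t * Dn (k ()) x`, which are jointly analytic: `An2 q a b G`, hence
`Ana2 G` (`ana2_iff_An2` for some `q` with `‖q i‖ < 1`, `exists_small`).
For `x ∈ circ`: `F x t = ∑' k, c k t * mon k x` (`cf_eq` for `x ↦ F x t`) and
`0 = F z t = ∑' k, c k t * mon k z`; subtract (both series converge).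

`div_zero` : `(x - z) * g x = 0` on `circ` implies `g = 0` on `circ`: `mul_eq_zero_circ`; the
function `x - z` is not identically zero on `circ` (it is nonzero at `x = -z`, characteristic zero).
-/

namespace Pool.Agent.Work.MP_6d379e_ag.Ab

variable {ι : Type*} [Fintype ι]
variable {K : Type*} [NontriviallyNormedField K] [IsUltrametricDist K]
variable [CompleteSpace K] [IsAlgClosed K] [CharZero K]

omit [CompleteSpace K] [IsAlgClosed K] [CharZero K] [IsUltrametricDist K] in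
private theorem mon_pt' (k : Unit → ℤ) (x : Tor Unit K) : mon k x = (x () : K) ^ k () := by
  unfold mon
  rw [Fintype.prod_unique]
  show ((x () ^ k () : Kˣ) : K) = (x () : K) ^ k ()
  rw [Units.val_zpow_eq_zpow_val]

/-- the divided difference of `u ^ n` -/
private def dv (u v : K) : ℤ → K
  | Int.ofNat m => ∑ j ∈ Finset.range m, u ^ j * v ^ (m - 1 - j)
  | Int.negSucc m => -(u⁻¹ * v⁻¹ * ∑ j ∈ Finset.range (m + 1), u⁻¹ ^ j * v⁻¹ ^ (m + 1 - 1 - j))

omit [CompleteSpace K] [IsAlgClosed K] [CharZero K] [IsUltrametricDist K] in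
private theorem dv_mul {u v : K} (hu : u ≠ 0) (hv : v ≠ 0) (n : ℤ) :
    (u - v) * dv u v n = u ^ n - v ^ n := by
  rcases n with m | m
  · show (u - v) * (∑ j ∈ Finset.range m, u ^ j * v ^ (m - 1 - j)) = u ^ (m : ℤ) - v ^ (m : ℤ)
    have h1 := geom_sum₂_mul u v m
    rw [zpow_natCast, zpow_natCast, ← h1, mul_comm]
  · show (u - v) * (-(u⁻¹ * v⁻¹ * ∑ j ∈ Finset.range (m + 1), u⁻¹ ^ j * v⁻¹ ^ (m + 1 - 1 - j))) = _
    have h1 := geom_sum₂_mul u⁻¹ v⁻¹ (m + 1)
    rw [zpow_negSucc, zpow_negSucc, ← inv_pow, ← inv_pow, ← h1]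
    have h2 : (u - v) * (u⁻¹ * v⁻¹) = -(u⁻¹ - v⁻¹) := by
      field_simp
      ring
    linear_combination (-(∑ j ∈ Finset.range (m + 1), u⁻¹ ^ j * v⁻¹ ^ (m + 1 - 1 - j))) * h2

omit [CompleteSpace K] [IsAlgClosed K] [CharZero K] in
private theorem geo_norm {u v : K} (hu : ‖u‖ = 1) (hv : ‖v‖ = 1) (m : ℕ) :
    ‖∑ j ∈ Finset.range m, u ^ j * v ^ (m - 1 - j)‖ ≤ 1 := by
  refine IsUltrametricDist.norm_sum_le_of_forall_le_of_nonneg zero_le_one fun j _ => ?_
  rw [norm_mul, norm_pow, norm_pow, hu, hv, one_pow, one_pow, one_mul]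

omit [CompleteSpace K] [IsAlgClosed K] [CharZero K] in
private theorem dv_norm {u v : K} (hu : ‖u‖ = 1) (hv : ‖v‖ = 1) (n : ℤ) : ‖dv u v n‖ ≤ 1 := by
  rcases n with m | m
  · exact geo_norm hu hv m
  · show ‖-(u⁻¹ * v⁻¹ * ∑ j ∈ Finset.range (m + 1), u⁻¹ ^ j * v⁻¹ ^ (m + 1 - 1 - j))‖ ≤ 1
    rw [norm_neg, norm_mul, norm_mul, norm_inv, norm_inv, hu, hv, inv_one, one_mul, one_mul]
    exact geo_norm (by rw [norm_inv, hu, inv_one]) (by rw [norm_inv, hv, inv_one]) (m + 1)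

omit [CompleteSpace K] [IsAlgClosed K] [CharZero K] [IsUltrametricDist K] in
private theorem an_zp (n : ℤ) : AnOn circ fun x : Tor Unit K => (x () : K) ^ n := by
  refine anOn_congr (fun x _ => ?_) (anOn_mon circ fun _ : Unit => n)
  rw [mon_pt']

omit [CompleteSpace K] [IsAlgClosed K] [CharZero K] [IsUltrametricDist K] in
private theorem dv_an (v : K) (n : ℤ) : AnOn circ fun x : Tor Unit K => dv (x () : K) v n := by
  rcases n with m | m
  · refine anOn_congr (f := fun x : Tor Unit K => ∑ j ∈ Finset.range m,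
      v ^ (m - 1 - j) * (x () : K) ^ (j : ℤ)) (fun x _ => ?_) (anOn_sum _
      (F := fun j (x : Tor Unit K) => v ^ (m - 1 - j) * (x () : K) ^ (j : ℤ))
      fun j _ => anOn_smul _ (an_zp _))
    show ∑ j ∈ Finset.range m, (x () : K) ^ j * v ^ (m - 1 - j) = _
    refine Finset.sum_congr rfl fun j _ => ?_
    rw [zpow_natCast, mul_comm]
  · refine anOn_congr (f := fun x : Tor Unit K => ∑ j ∈ Finset.range (m + 1),
      (-(v⁻¹ * v⁻¹ ^ (m + 1 - 1 - j))) * (x () : K) ^ (-((j : ℤ) + 1))) (fun x _ => ?_)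
      (anOn_sum _ (F := fun j (x : Tor Unit K) =>
        (-(v⁻¹ * v⁻¹ ^ (m + 1 - 1 - j))) * (x () : K) ^ (-((j : ℤ) + 1)))
      fun j _ => anOn_smul _ (an_zp _))
    show -((x () : K)⁻¹ * v⁻¹ * ∑ j ∈ Finset.range (m + 1),
      (x () : K)⁻¹ ^ j * v⁻¹ ^ (m + 1 - 1 - j)) = _
    rw [Finset.mul_sum, ← Finset.sum_neg_distrib]
    refine Finset.sum_congr rfl fun j _ => ?_
    have h1 : (x () : K) ^ (-((j : ℤ) + 1)) = (x () : K)⁻¹ ^ (j + 1) := by
      rw [← inv_zpow', ← zpow_natCast]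
      push_cast
      rfl
    rw [h1, pow_succ]
    ring

private theorem ser_at_one (c : (Unit → ℤ) → K) :
    ser c (1 : Tor Unit K) = ∑' k, c k := by
  unfold ser
  exact tsum_congr fun k => by rw [mon_one, mul_one]

/-- the quotient -/
private noncomputable def qt (F : Tor Unit K → Tor ι K → K) (z : Tor Unit K) :
    Tor Unit K → Tor ι K → K :=
  fun x t => ser (fun k => cf (fun y => F y t) k * dv (x () : K) (z () : K) (k ()))
    (1 : Tor Unit K)

private theorem qt_dec {c : (Unit → ℤ) → K} (hc : Dec 1 0 0 c) {x z : Tor Unit K}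
    (hx : x ∈ (circ : Set (Tor Unit K))) (hz : z ∈ (circ : Set (Tor Unit K))) :
    Dec 1 0 0 (fun k => c k * dv (x () : K) (z () : K) (k ())) := by
  refine dec_of_le hc fun k => mul_le_mul_of_nonneg_right ?_ (Wt_pos _ _ _ _).le
  rw [norm_mul]
  calc ‖c k‖ * ‖dv (x () : K) (z () : K) (k ())‖ ≤ ‖c k‖ * 1 :=
        mul_le_mul_of_nonneg_left (dv_norm (hx ()) (hz ()) _) (norm_nonneg _)
    _ = ‖c k‖ := mul_one _

private theorem one_BB : (1 : Tor Unit K) ∈ BB (1 : Tor Unit K) 0 0 := by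
  rw [BB_one]
  exact one_mem_circ

private theorem qt_an2 {F : Tor Unit K → Tor ι K → K} {q : Tor ι K} {a b : ι → ℤ}
    (hF : An2 q a b F) {z : Tor Unit K} (hz : z ∈ (circ : Set (Tor Unit K))) :
    An2 q a b (qt F z) := by
  refine anOn_lim fun ε hε => ?_
  obtain ⟨S, hS⟩ := xcf_unif hF hε
  have m1 : ∀ w ∈ BB (Sum.elim (1 : Tor Unit K) q) (Sum.elim (0 : Unit → ℤ) a)
      (Sum.elim (0 : Unit → ℤ) b), (fun j => w (Sum.inl j)) ∈ (circ : Set (Tor Unit K)) :=
    fun w hw => ((mem_BB_sum q a b w).1 hw).1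
  have m2 : ∀ w ∈ BB (Sum.elim (1 : Tor Unit K) q) (Sum.elim (0 : Unit → ℤ) a)
      (Sum.elim (0 : Unit → ℤ) b), (fun i => w (Sum.inr i)) ∈ BB q a b :=
    fun w hw => ((mem_BB_sum q a b w).1 hw).2
  refine ⟨fun w => ∑ k ∈ S, cf (fun y => F y (fun i => w (Sum.inr i))) k *
    dv (w (Sum.inl ()) : K) (z () : K) (k ()), ?_, fun w hw => ?_⟩
  · refine anOn_sum S (F := fun k w => cf (fun y => F y (fun i => w (Sum.inr i))) k *
      dv (w (Sum.inl ()) : K) (z () : K) (k ())) fun k _ => ?_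
    exact anOn_mul (anOn_isMono isMono_inr m2 (xcf_an hF k))
      (anOn_isMono isMono_inl m1 (dv_an (z () : K) (k ())))
  · have hdec := qt_dec (cf_dec (an2_xfib hF (m2 w hw))) (m1 w hw) hz
    have h1 := ser_sub_sum_le hdec one_BB S hε.le (fun k hk => by
      rw [Wt_one, mul_one, norm_mul]
      calc ‖cf (fun y => F y (fun i => w (Sum.inr i))) k‖ *
            ‖dv (w (Sum.inl ()) : K) (z () : K) (k ())‖
          ≤ ‖cf (fun y => F y (fun i => w (Sum.inr i))) k‖ * 1 :=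
            mul_le_mul_of_nonneg_left (dv_norm (m1 w hw ()) (hz ()) _) (norm_nonneg _)
        _ ≤ ε := by
            rw [mul_one]
            exact hS _ (m2 w hw) k hk)
    simp only [mon_one, mul_one] at h1
    exact h1

private theorem qt_eq {F : Tor Unit K → Tor ι K → K} {t : Tor ι K}
    (hf : AnOn circ (fun y => F y t)) {x z : Tor Unit K}
    (hx : x ∈ (circ : Set (Tor Unit K))) (hz : z ∈ (circ : Set (Tor Unit K))) :
    F x t - F z t = ((x () : K) - (z () : K)) * qt F z x t := by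
  have hdx : x ∈ BB (1 : Tor Unit K) 0 0 := by
    rw [BB_one]
    exact hx
  have hdz : z ∈ BB (1 : Tor Unit K) 0 0 := by
    rw [BB_one]
    exact hz
  have h1 : F x t = ser (cf (fun y => F y t)) x := cf_eq hf hx
  have h2 : F z t = ser (cf (fun y => F y t)) z := cf_eq hf hz
  unfold qt
  rw [ser_at_one, h1, h2]
  unfold ser
  rw [← (summable_ser (cf_dec hf) hdx).tsum_sub (summable_ser (cf_dec hf) hdz), ← tsum_mul_left]
  refine tsum_congr fun k => ?_
  rw [mon_pt', mon_pt']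
  have h3 := dv_mul (x ()).ne_zero (z ()).ne_zero (k ())
  linear_combination (-(cf (fun y => F y t) k)) * h3

theorem div_ana2 {F : Tor Unit K → Tor ι K → K} (hF : Ana2 F) {z : Tor Unit K}
    (hz : z ∈ (circ : Set (Tor Unit K))) (h : ∀ t, F z t = 0) :
    ∃ G : Tor Unit K → Tor ι K → K, Ana2 G ∧
      ∀ x ∈ (circ : Set (Tor Unit K)), ∀ t, F x t = ((x () : K) - (z () : K)) * G x t := by
  obtain ⟨q, hq⟩ := exists_small ι K
  refine ⟨qt F z, (ana2_iff_An2 hq).2 fun N => qt_an2 (ana2_An2 hF q _ _) hz, fun x hx t => ?_⟩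
  rw [← qt_eq (ana2_at hF t) hx hz, h t, sub_zero]

theorem div_zero_circ {g : Tor Unit K → K} (hg : AnOn circ g) {z : Tor Unit K}
    (hz : z ∈ (circ : Set (Tor Unit K)))
    (h : ∀ x ∈ (circ : Set (Tor Unit K)), ((x () : K) - (z () : K)) * g x = 0) :
    ∀ x ∈ (circ : Set (Tor Unit K)), g x = 0 := by
  have ha : AnOn circ fun x : Tor Unit K => (x () : K) - (z () : K) := by
    refine anOn_sub (anOn_congr (fun x _ => ?_) (an_zp 1)) (anOn_const _ _)
    rw [zpow_one]
  rcases mul_eq_zero_circ ha hg h with h1 | h1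
  · exfalso
    have hm : (-z : Tor Unit K) ∈ (circ : Set (Tor Unit K)) := by
      intro i
      show ‖((-(z i) : Kˣ) : K)‖ = 1
      rw [Units.val_neg, norm_neg]
      exact hz i
    have h2 : ((-(z ()) : Kˣ) : K) - (z () : K) = 0 := h1 _ hm
    rw [Units.val_neg] at h2
    have h3 : (2 : K) * (z () : K) = 0 := by linear_combination -h2
    rcases mul_eq_zero.1 h3 with h4 | h4
    · exact two_ne_zero h4
    · exact (z ()).ne_zero h4
  · exact h1

end Pool.Agent.Work.MP_6d379e_ag.Ab
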