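import Pool.Agent.Work.MP_6d379e_ag.Ab.VDefs
import Pool.Agent.Work.MP_6d379e_ag.Ab.ZDiv

/-!
# Division of a family of homomorphisms by `x - z0`   (size M)

Entrywise `div_ana2` gives `Θ'` with `Ana2M Θ'` and `Θ x t = (x - z0) • Θ' x t` for `x ∈ circ`.
For `x ∈ circ` : `AnaM (Θ' x)` by `ana2M_fib`.  For fixed `l`, `t` the entries of
`Θ' x (lat m l * t) * f x l t - f' x l t * Θ' x t` are analytic functions of `x ∈ circ`
(`ana2_at`, products, sums) whose product with `x - z0` vanishes on `circ`, because `Θ x` is a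
homomorphism; so they vanish by `div_zero_circ` (also at `x = z0`).  Same for `src`.
-/

namespace Pool.Agent.Work.MP_6d379e_ag.Ab

variable {ι ν : Type*} [Fintype ι] [Fintype ν]
variable {K : Type*} [NontriviallyNormedField K] [IsUltrametricDist K]
variable [CompleteSpace K] [IsAlgClosed K] [CharZero K]
variable {m : ι → Tor ι K} {f f' : Tor Unit K → (ι → ℤ) → Tor ι K → Matrix ν ν K}

private theorem dh_key {M : Tor Unit K → Tor ι K → Matrix ν ν K} (hM : Ana2M M)
    {z0 : Tor Unit K} (hz0 : z0 ∈ (circ : Set (Tor Unit K)))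
    (h : ∀ y ∈ (circ : Set (Tor Unit K)), ∀ t, ((y () : K) - (z0 () : K)) • M y t = 0)
    {x : Tor Unit K} (hx : x ∈ (circ : Set (Tor Unit K))) (t : Tor ι K) : M x t = 0 := by
  ext i j
  refine div_zero_circ (ana2_at (hM i j) t) hz0 (fun y hy => ?_) x hx
  have h1 := congrFun (congrFun (h y hy t) i) j
  exact h1

theorem div_hom (hf : BunFam m f) (hf' : BunFam m f')
    {Θ : Tor Unit K → Tor ι K → Matrix ν ν K} (hΘ : Ana2M Θ)
    (hh : ∀ x ∈ (circ : Set (Tor Unit K)), IsHom m (f x) (f' x) (Θ x))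
    {z0 : Tor Unit K} (hz0 : z0 ∈ (circ : Set (Tor Unit K))) (h0 : ∀ t, Θ z0 t = 0) :
    ∃ Θ' : Tor Unit K → Tor ι K → Matrix ν ν K, Ana2M Θ' ∧
      (∀ x ∈ (circ : Set (Tor Unit K)), IsHom m (f x) (f' x) (Θ' x)) ∧
      ∀ x ∈ (circ : Set (Tor Unit K)), ∀ t, Θ x t = ((x () : K) - (z0 () : K)) • Θ' x t := by
  choose G hG hGe using fun i j => div_ana2 (hΘ i j) hz0 (fun t => by rw [h0 t]; rfl)
  obtain ⟨Θ', hΘ'⟩ : ∃ Θ' : Tor Unit K → Tor ι K → Matrix ν ν K,
      ∀ x t i j, Θ' x t i j = G i j x t := ⟨fun x t => Matrix.of fun i j => G i j x t,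
    fun _ _ _ _ => rfl⟩
  have hA : Ana2M Θ' := by
    intro i j
    have h1 : (fun x t => Θ' x t i j) = G i j := by
      funext x t
      exact hΘ' x t i j
    rw [h1]
    exact hG i j
  have hE : ∀ x ∈ (circ : Set (Tor Unit K)), ∀ t,
      Θ x t = ((x () : K) - (z0 () : K)) • Θ' x t := by
    intro x hx t
    ext i j
    rw [Matrix.smul_apply, hΘ', smul_eq_mul]
    exact hGe i j x hx t
  refine ⟨Θ', hA, fun x hx => ⟨ana2M_fib hA hx, fun t => ?_, fun l t => ?_⟩, hE⟩
  · have h1 := dh_key (M := fun x t => Θ' x t * f x 0 t - Θ' x t)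
      (ana2M_sub (ana2M_mul hA (hf.an 0)) hA) hz0 (fun y hy t => ?_) hx t
    · exact sub_eq_zero.1 h1
    · show ((y () : K) - (z0 () : K)) • (Θ' y t * f y 0 t - Θ' y t) = 0
      rw [smul_sub, ← Matrix.smul_mul, ← hE y hy t, (hh y hy).src t, sub_self]
  · have hT : Ana2M fun x t => Θ' x (lat m l * t) := fun i j => ana2_translate (lat m l) (hA i j)
    have h1 := dh_key (M := fun x t => Θ' x (lat m l * t) * f x l t - f' x l t * Θ' x t)
      (ana2M_sub (ana2M_mul hT (hf.an l)) (ana2M_mul (hf'.an l) hA)) hz0 (fun y hy t => ?_) hx t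
    · exact sub_eq_zero.1 h1
    · show ((y () : K) - (z0 () : K)) • (Θ' y (lat m l * t) * f y l t - f' y l t * Θ' y t) = 0
      rw [smul_sub, ← Matrix.smul_mul, ← Matrix.mul_smul, ← hE y hy t, ← hE y hy (lat m l * t),
        (hh y hy).eqv l t, sub_self]

end Pool.Agent.Work.MP_6d379e_ag.Ab
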