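import Pool.Agent.Work.MP_6d379e_ag.Ab.VDefs
import Pool.Agent.Work.MP_6d379e_ag.Ab.CAna

/-!
# Functionals on a finite-dimensional space of matrix functions are finite combinations of
evaluations; consequences for analytic families   (size M)

* `eval_repr` : the functionals `Φ ↦ Φ t i j` have common kernel `0` on `W`, so they span the dual
  of the finite-dimensional space `W` (`Subspace.dualAnnihilator`/`dualCoannihilator`, or choose
  successively functionals cutting down the common kernel); a functional is a finite combination.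
* `anA_of_ana2M` : by `eval_repr`, `ℓ (Θ x) = ∑ r, a r * (Θ x) (t r) (i r) (j r)`, analytic in `x`
  by `ana2_at`.
* `ana2M_of_anA` : `Θ x = ∑ b, coord b (Θ x) • b`; entries are finite sums of functions of `x`
  times analytic functions of `t` (`ana2_fst`, `ana2_of_ana`, `ana2_mul`, `ana2_sum`).
* the statements for `EndA E` are the special case `W = HomSp m E.f E.f`.
* `anA2_of_ana2M` : the same with the parameter `z = (x, y)` in the product torus
  (`anA2_iff`).
-/

namespace Pool.Agent.Work.MP_6d379e_ag.Ab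

variable {ι κ ν : Type*} [Fintype ι] [Fintype κ] [Fintype ν]
variable {K : Type*} [NontriviallyNormedField K]

/-- evaluation functional -/
private def evL (W : Submodule K (Tor ι K → Matrix ν ν K)) (p : Tor ι K × ν × ν) : W →ₗ[K] K where
  toFun Φ := (Φ : Tor ι K → Matrix ν ν K) p.1 p.2.1 p.2.2
  map_add' _ _ := rfl
  map_smul' _ _ := rfl

private theorem ev_span (W : Submodule K (Tor ι K → Matrix ν ν K)) [FiniteDimensional K W] :
    Submodule.span K (Set.range (evL W)) = ⊤ := by
  have h1 : (Submodule.span K (Set.range (evL W))).dualCoannihilator = ⊥ := by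
    rw [eq_bot_iff]
    intro Φ hΦ
    rw [Submodule.mem_dualCoannihilator] at hΦ
    rw [Submodule.mem_bot]
    apply Subtype.ext
    funext t
    ext i j
    exact hΦ (evL W (t, i, j)) (Submodule.subset_span ⟨_, rfl⟩)
  have h2 := Subspace.dualCoannihilator_dualAnnihilator_eq
    (W := Submodule.span K (Set.range (evL W)))
  rw [h1, Submodule.dualAnnihilator_bot] at h2
  exact h2.symm

theorem eval_repr {W : Submodule K (Tor ι K → Matrix ν ν K)} [FiniteDimensional K W]
    (ℓ : W →ₗ[K] K) : ∃ (n : ℕ) (t : Fin n → Tor ι K) (i j : Fin n → ν) (a : Fin n → K),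
      ∀ Φ : W, ℓ Φ = ∑ r, a r * (Φ : Tor ι K → Matrix ν ν K) (t r) (i r) (j r) := by
  classical
  have h1 : ℓ ∈ Submodule.span K (Set.range (evL W)) := by
    rw [ev_span]
    exact Submodule.mem_top
  rw [Finsupp.mem_span_range_iff_exists_finsupp] at h1
  obtain ⟨c, hc⟩ := h1
  let e := c.support.equivFin
  refine ⟨c.support.card, fun r => (e.symm r).1.1, fun r => (e.symm r).1.2.1,
    fun r => (e.symm r).1.2.2, fun r => c (e.symm r).1, fun Φ => ?_⟩
  have h2 : ℓ Φ = ∑ p ∈ c.support, c p * evL W p Φ := by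
    rw [← hc, Finsupp.sum, LinearMap.sum_apply]
    rfl
  rw [h2, ← Finset.sum_coe_sort c.support (fun p => c p * evL W p Φ),
    ← Equiv.sum_comp e.symm]
  rfl

theorem anA_of_ana2M {W : Submodule K (Tor ι K → Matrix ν ν K)} [FiniteDimensional K W]
    {Θ : Tor κ K → W} (h : Ana2M fun x t => (Θ x : Tor ι K → Matrix ν ν K) t) :
    AnA Θ := by
  intro ℓ
  obtain ⟨n, t, i, j, a, hℓ⟩ := eval_repr ℓ
  have h1 : (fun x => ℓ (Θ x)) =
      fun x => ∑ r, (fun (r : Fin n) (x : Tor κ K) =>
        a r * (Θ x : Tor ι K → Matrix ν ν K) (t r) (i r) (j r)) r x := by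
    funext x
    exact hℓ (Θ x)
  rw [h1]
  exact anOn_sum Finset.univ fun r _ => anOn_smul (a r) (ana2_at (h (i r) (j r)) (t r))

theorem ana2M_of_anA {W : Submodule K (Tor ι K → Matrix ν ν K)} [FiniteDimensional K W]
    (hW : ∀ Φ ∈ W, AnaM Φ) {Θ : Tor κ K → W} (h : AnA Θ) :
    Ana2M fun x t => (Θ x : Tor ι K → Matrix ν ν K) t := by
  intro i j
  have h1 : (fun x t => (Θ x : Tor ι K → Matrix ν ν K) t i j) = fun x t =>
      ∑ b, (fun (b : Fin (Module.finrank K W)) (x : Tor κ K) (t : Tor ι K) =>
        (Module.finBasis K W).coord b (Θ x) *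
          ((Module.finBasis K W b : W) : Tor ι K → Matrix ν ν K) t i j) b x t := by
    funext x t
    have h2 := (Module.finBasis K W).sum_repr (Θ x)
    have h3 := congrArg (evL W (t, i, j)) h2
    rw [map_sum] at h3
    exact h3.symm
  rw [h1]
  exact ana2_sum Finset.univ fun b _ => ana2_mul (ana2_fst (h ((Module.finBasis K W).coord b)))
    (ana2_of_ana (τ := fun _ t => t) isMono_inr (hW _ (Module.finBasis K W b).2 i j))

variable {m : ι → Tor ι K} {E : BunB m ν}

theorem endA_anA [FiniteDimensional K (EndA E)] {Θ : Tor κ K → EndA E}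
    (h : Ana2M fun x t => (Θ x).val t) : AnA Θ := by
  haveI : FiniteDimensional K ↥(HomSp m E.f E.f) :=
    inferInstanceAs (FiniteDimensional K (EndA E))
  exact anA_of_ana2M (W := HomSp m E.f E.f) (Θ := Θ) h

theorem endA_ana2M [FiniteDimensional K (EndA E)] {Θ : Tor κ K → EndA E} (h : AnA Θ) :
    Ana2M fun x t => (Θ x).val t := by
  haveI : FiniteDimensional K ↥(HomSp m E.f E.f) :=
    inferInstanceAs (FiniteDimensional K (EndA E))
  exact ana2M_of_anA (W := HomSp m E.f E.f) (fun _ hΦ => hΦ.an) (Θ := Θ) h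

theorem endA_anA2 [FiniteDimensional K (EndA E)] {Θ : Tor κ K → Tor κ K → EndA E}
    (h : Ana2M fun (z : Tor (κ ⊕ κ) K) t =>
      (Θ (fun j => z (Sum.inl j)) (fun j => z (Sum.inr j))).val t) : AnA2 Θ :=
  anA2_iff.2 (endA_anA h)

end Pool.Agent.Work.MP_6d379e_ag.Ab
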