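import Pool.Agent.Work.MP_6d379e_ag.Ab.LamEx
import Pool.Agent.Work.MP_6d379e_ag.Ab.Iso
import Pool.Agent.Work.MP_6d379e_ag.Ab.SubB

/-!
# The exchange property   (size M-L)

`f` is decomposed by `p`, `Φ : f → f'` is an isomorphism with inverse `Ψ`, and `p'` is an idempotent
endomorphism of `f'` with `LocB m (subB p' f')`.  Put `α j = p' * Φ * p j : f → f'` and
`β j = p j * Ψ * p' : f' → f` (pointwise products).  By `isHom_sub_iff`, `α j` is a homomorphism
`subB (p j) f → subB p' f'`, `β j` one in the other direction, and `α j * β j` is an endomorphism of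
`subB p' f'`; `∑ j, α j * β j = p' * Φ * f 0 * Ψ * p' = p' * f' 0 * p' = p' = subB p' f' 0`.
Take `L` for `subB p' f'` from `exists_lam`; `∑ j, L (α j * β j) = L (subB p' f' 0) = 1`, so some
`L (α j * β j) ≠ 0`, and `LamOn.unit` gives an inverse `u` of `α j * β j` in the endomorphisms of
`subB p' f'`.  Let `q = β j * u * α j`, an endomorphism of `subB (p j) f`; it is idempotent
(`β j u (α j β j) u α j = β j u α j`), and not zero everywhere
(`α j * q * β j = (α j β j) u (α j β j) = α j β j`, whose `L` is not zero; if `q = 0` then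
`α j β j = 0` and `L` of the zero function is `0`, by `smul` with `c = 0`).  By `LocB` of
`subB (p j) f`, `q = subB (p j) f 0`.  So `α j` and `β j * u` are inverse isomorphisms between
`subB (p j) f` and `subB p' f'`.
-/

namespace Pool.Agent.Work.MP_6d379e_ag.Ab

variable {ι ν : Type*} [Fintype ι] [Fintype ν] [DecidableEq ι] [DecidableEq ν]
variable {K : Type*} [NontriviallyNormedField K] [IsUltrametricDist K]
variable [CompleteSpace K] [IsAlgClosed K] [CharZero K]
variable {m : ι → Tor ι K} {f f' : (ι → ℤ) → Tor ι K → Matrix ν ν K}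

theorem exchange (hm : Std m) (hf : IsBun m f) (hf' : IsBun m f')
    {Φ Ψ : Tor ι K → Matrix ν ν K} (h : IsIso2 m f f' Φ Ψ) {n : ℕ}
    {p : Fin n → Tor ι K → Matrix ν ν K} (hp : DecB m f p) {p' : Tor ι K → Matrix ν ν K}
    (hp' : IsHom m f' f' p') (h2' : ∀ t, p' t * p' t = p' t) (hl : LocB m (subB p' f')) :
    ∃ (j : Fin n) (Φ' Ψ' : Tor ι K → Matrix ν ν K),
      IsIso2 m (subB (p j) f) (subB p' f') Φ' Ψ' := by
  obtain ⟨L, N, hL⟩ := exists_lam hm hl
  obtain ⟨α, hαd⟩ : ∃ α : Fin n → Tor ι K → Matrix ν ν K,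
      α = fun j t => p' t * (Φ t * p j t) := ⟨_, rfl⟩
  obtain ⟨β, hβd⟩ : ∃ β : Fin n → Tor ι K → Matrix ν ν K,
      β = fun j t => p j t * (Ψ t * p' t) := ⟨_, rfl⟩
  have hα : ∀ j, IsHom m (subB (p j) f) (subB p' f') (α j) := by
    intro j
    rw [hαd]
    refine (isHom_sub_iff hf hf' (hp.hom j) (hp.idem j) hp' h2').2
      ⟨isHom_comp hp' (isHom_comp h.hom (hp.hom j)), fun t => ?_, fun t => ?_⟩
    · show p' t * (p' t * (Φ t * p j t)) = p' t * (Φ t * p j t)
      rw [← mul_assoc (p' t) (p' t), h2']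
    · show p' t * (Φ t * p j t) * p j t = p' t * (Φ t * p j t)
      rw [mul_assoc, mul_assoc, hp.idem]
  have hβ : ∀ j, IsHom m (subB p' f') (subB (p j) f) (β j) := by
    intro j
    rw [hβd]
    refine (isHom_sub_iff hf' hf hp' h2' (hp.hom j) (hp.idem j)).2
      ⟨isHom_comp (hp.hom j) (isHom_comp h.inv hp'), fun t => ?_, fun t => ?_⟩
    · show p j t * (p j t * (Ψ t * p' t)) = p j t * (Ψ t * p' t)
      rw [← mul_assoc (p j t) (p j t), hp.idem]
    · show p j t * (Ψ t * p' t) * p' t = p j t * (Ψ t * p' t)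
      rw [mul_assoc, mul_assoc, h2']
  have hαβ : ∀ j, IsHom m (subB p' f') (subB p' f') (fun t => α j t * β j t) :=
    fun j => isHom_comp (hα j) (hβ j)
  have hL0 : L (fun _ => 0) = 0 := by
    have h1 := hL.smul 0 (subB p' f' 0) (isHom_id hl.bun)
    rw [zero_mul] at h1
    simp only [zero_smul] at h1
    exact h1
  have hsum : ∀ S : Finset (Fin n), L (fun t => ∑ j ∈ S, α j t * β j t) =
      ∑ j ∈ S, L (fun t => α j t * β j t) := by
    intro S
    induction S using Finset.induction_on with
    | empty =>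
      simp only [Finset.sum_empty]
      exact hL0
    | insert a S ha ih =>
      simp only [Finset.sum_insert ha]
      rw [← ih, ← hL.add _ _ (hαβ a) (isHom_sum S fun i _ => hαβ i)]
  have htot : ∀ t, ∑ j, α j t * β j t = subB p' f' 0 t := by
    intro t
    have h1 : ∀ j, α j t * β j t = p' t * Φ t * p j t * (Ψ t * p' t) := by
      intro j
      rw [hαd, hβd]
      show p' t * (Φ t * p j t) * (p j t * (Ψ t * p' t)) = _
      rw [mul_assoc (p' t), mul_assoc (Φ t), ← mul_assoc (p j t) (p j t), hp.idem]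
      simp only [mul_assoc]
    rw [Finset.sum_congr rfl fun j _ => h1 j, ← Finset.sum_mul, ← Finset.mul_sum, hp.sum t,
      mul_assoc (p' t), h.hom.src t, mul_assoc (p' t), ← mul_assoc (Φ t), h.right t,
      isHom_one_mul hp' t, h2', sub_zero' hp']
  have hone : ∑ j, L (fun t => α j t * β j t) = 1 := by
    rw [← hsum, ← hL.one]
    exact congrArg L (funext htot)
  obtain ⟨j, hj⟩ : ∃ j, L (fun t => α j t * β j t) ≠ 0 := by
    by_contra hcon
    push Not at hcon
    rw [Finset.sum_eq_zero fun j _ => hcon j] at hone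
    exact zero_ne_one hone
  obtain ⟨u, hu, hu1, hu2⟩ := hL.unit _ (hαβ j) hj
  have e1 : ∀ t, subB p' f' 0 t * u t = u t := fun t => isHom_one_mul hu t
  have e2 : ∀ t, subB p' f' 0 t * (α j t * β j t) = α j t * β j t :=
    fun t => isHom_one_mul (hαβ j) t
  have hq : IsHom m (subB (p j) f) (subB (p j) f) (fun t => β j t * u t * α j t) :=
    isHom_comp (isHom_comp (hβ j) hu) (hα j)
  have hqq : ∀ t, β j t * u t * α j t * (β j t * u t * α j t) = β j t * u t * α j t := by
    intro t
    have h1 : β j t * u t * α j t * (β j t * u t * α j t) =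
        β j t * ((u t * (α j t * β j t)) * u t) * α j t := by
      simp only [mul_assoc]
    rw [h1, hu2 t, e1 t]
  refine ⟨j, α j, fun t => β j t * u t, hα j, isHom_comp (hβ j) hu, fun t => ?_, fun t => ?_⟩
  · rcases (hp.loc j).idem _ hq hqq with h0 | h1
    · exfalso
      apply hj
      have h2 : (fun t => α j t * β j t) = fun _ => 0 := by
        funext t
        have h3 : α j t * (β j t * u t * α j t) * β j t =
            (α j t * β j t * u t) * (α j t * β j t) := by
          simp only [mul_assoc]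
        rw [h0 t, mul_zero, zero_mul, hu1 t, e2 t] at h3
        exact h3.symm
      rw [h2, hL0]
    · exact h1 t
  · show α j t * (β j t * u t) = _
    rw [← mul_assoc]
    exact hu1 t

end Pool.Agent.Work.MP_6d379e_ag.Ab
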