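import Pool.Agent.Work.MP_6d379e_ag.Ab.Mono

/-!
# The lattice   (size S-M)

* `lat_zero`, `lat_add`, `lat_single`, `lat_neg`, `lat_comm` : products of integer powers in the
  commutative group `Tor ι K`.
* `norm_lat` : for a standard lattice `‖(lat m l) j‖ = ∏ i, ‖m i j‖ ^ l i = ‖m j j‖ ^ l j`.
* `lat_mul_mem_BB` : `‖q j‖ ^ a j ≤ ‖q j‖ ^ l j * ‖t j‖ ≤ ‖q j‖ ^ (-(b j))` divided by
  `‖q j‖ ^ l j`, with `q = qq m`.
* `exists_lat_mem` : for every `j` choose `l j` with `‖q j‖ ≤ ‖q j‖ ^ l j * ‖t j‖ ≤ 1`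
  (`exists_mem_Ioc_zpow` or `exists_int`-type lemmas for `0 < ‖q j‖ < 1`).
* `isMono_lat` : multiplication by a constant.
-/

namespace Pool.Agent.Work.MP_6d379e_ag.Ab

variable {ι κ : Type*} [Fintype ι] [Fintype κ] {K : Type*} [NontriviallyNormedField K]
variable {m : ι → Tor ι K}

private theorem prod_apply_lat (m : ι → Tor ι K) (l : ι → ℤ) (j : ι) :
    (lat m l) j = ∏ i, (m i j) ^ l i := by
  show (∏ i, m i ^ l i) j = ∏ i, (m i j) ^ l i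
  rw [Finset.prod_apply]
  rfl

theorem lat_zero (m : ι → Tor ι K) : lat m 0 = 1 := by
  show (∏ i, m i ^ (0 : ι → ℤ) i) = 1
  exact Finset.prod_eq_one fun i _ => zpow_zero (m i)

theorem lat_add (m : ι → Tor ι K) (l l' : ι → ℤ) : lat m (l + l') = lat m l * lat m l' := by
  show (∏ i, m i ^ (l i + l' i)) = (∏ i, m i ^ l i) * ∏ i, m i ^ l' i
  rw [← Finset.prod_mul_distrib]
  exact Finset.prod_congr rfl fun i _ => zpow_add (m i) _ _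

theorem lat_add_mul (m : ι → Tor ι K) (l l' : ι → ℤ) (t : Tor ι K) :
    lat m (l + l') * t = lat m l * (lat m l' * t) := by
  rw [lat_add, mul_assoc]

theorem lat_neg (m : ι → Tor ι K) (l : ι → ℤ) : lat m (-l) = (lat m l)⁻¹ := by
  show (∏ i, m i ^ (-(l i))) = (∏ i, m i ^ l i)⁻¹
  rw [← Finset.prod_inv_distrib]
  exact Finset.prod_congr rfl fun i _ => zpow_neg (m i) _

theorem lat_single [DecidableEq ι] (m : ι → Tor ι K) (i : ι) (n : ℤ) :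
    lat m (Pi.single i n) = m i ^ n := by
  show (∏ j, m j ^ (Pi.single i n : ι → ℤ) j) = m i ^ n
  rw [Finset.prod_eq_single i]
  · rw [Pi.single_eq_same]
  · intro j _ hj
    rw [Pi.single_eq_of_ne hj, zpow_zero]
  · intro h
    exact absurd (Finset.mem_univ _) h

theorem norm_lat (hm : Std m) (l : ι → ℤ) (j : ι) :
    ‖((lat m l) j : K)‖ = ‖(m j j : K)‖ ^ l j := by
  rw [prod_apply_lat, Units.coe_prod, norm_prod, Finset.prod_eq_single j]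
  · rw [Units.val_zpow_eq_zpow_val, norm_zpow]
  · intro i _ hi
    rw [Units.val_zpow_eq_zpow_val, norm_zpow, hm.one i j hi, one_zpow]
  · intro h
    exact absurd (Finset.mem_univ _) h

theorem qq_lt (hm : Std m) (i : ι) : ‖(qq m i : K)‖ < 1 := hm.lt i

theorem qq_le (hm : Std m) (i : ι) : ‖(qq m i : K)‖ ≤ 1 := (hm.lt i).le

theorem lat_mul_mem_BB (hm : Std m) (l a b : ι → ℤ) (t : Tor ι K) :
    lat m l * t ∈ BB (qq m) a b ↔ t ∈ BB (qq m) (a - l) (b + l) := by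
  refine forall_congr' fun i => ?_
  have hQ : 0 < ‖(qq m i : K)‖ := norm_pos_iff.2 (Units.ne_zero _)
  have h1 : ‖((lat m l * t) i : K)‖ = ‖(qq m i : K)‖ ^ l i * ‖(t i : K)‖ := by
    rw [Pi.mul_apply, Units.val_mul, norm_mul, norm_lat hm]
    rfl
  have h2 : ‖(qq m i : K)‖ ^ (a - l) i = ‖(qq m i : K)‖ ^ a i / ‖(qq m i : K)‖ ^ l i := by
    rw [Pi.sub_apply, zpow_sub₀ hQ.ne']
  have h3 : ‖(qq m i : K)‖ ^ (-((b + l) i)) = ‖(qq m i : K)‖ ^ (-(b i)) / ‖(qq m i : K)‖ ^ l i := by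
    rw [Pi.add_apply, neg_add, ← sub_eq_add_neg, zpow_sub₀ hQ.ne']
  rw [h1, h2, h3, div_le_iff₀' (zpow_pos hQ _), le_div_iff₀' (zpow_pos hQ _)]

private theorem ex_zpow {Q T : ℝ} (hQ : 0 < Q) (hQ1 : Q < 1) (hT : 0 < T) :
    ∃ n : ℤ, Q ≤ Q ^ n * T ∧ Q ^ n * T ≤ 1 := by
  obtain ⟨n, h1, h2⟩ := exists_mem_Ioc_zpow hT ((one_lt_inv₀ hQ).2 hQ1)
  have hp : 0 < Q ^ (n + 1) := zpow_pos hQ _
  refine ⟨n + 1, ?_, ?_⟩
  · have h3 : Q ^ (n + 1) * Q⁻¹ ^ n ≤ Q ^ (n + 1) * T := mul_le_mul_of_nonneg_left h1.le hp.le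
    have h4 : Q ^ (n + 1) * Q⁻¹ ^ n = Q := by
      rw [inv_zpow, ← zpow_neg, ← zpow_add₀ hQ.ne']
      have h5 : n + 1 + -n = 1 := by ring
      rw [h5, zpow_one]
    linarith
  · have h3 : Q ^ (n + 1) * T ≤ Q ^ (n + 1) * Q⁻¹ ^ (n + 1) := mul_le_mul_of_nonneg_left h2 hp.le
    have h4 : Q ^ (n + 1) * Q⁻¹ ^ (n + 1) = 1 := by
      rw [inv_zpow]
      exact mul_inv_cancel₀ hp.ne'
    linarith

theorem exists_lat_mem (hm : Std m) (t : Tor ι K) :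
    ∃ l : ι → ℤ, lat m l * t ∈ BB (qq m) (1 : ι → ℤ) (0 : ι → ℤ) := by
  have h : ∀ i, ∃ n : ℤ, ‖(qq m i : K)‖ ≤ ‖(qq m i : K)‖ ^ n * ‖(t i : K)‖ ∧
      ‖(qq m i : K)‖ ^ n * ‖(t i : K)‖ ≤ 1 := fun i =>
    ex_zpow (norm_pos_iff.2 (Units.ne_zero _)) (hm.lt i) (norm_pos_iff.2 (Units.ne_zero _))
  choose l hl using h
  refine ⟨l, fun i => ?_⟩
  have h1 : ‖((lat m l * t) i : K)‖ = ‖(qq m i : K)‖ ^ l i * ‖(t i : K)‖ := by
    rw [Pi.mul_apply, Units.val_mul, norm_mul, norm_lat hm]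
    rfl
  rw [h1, Pi.one_apply, zpow_one, Pi.zero_apply, neg_zero, zpow_zero]
  exact hl i

theorem exists_lat_mem_one (hm : Std m) (t : Tor ι K) :
    ∃ l : ι → ℤ, lat m l * t ∈ BB (qq m) (1 : ι → ℤ) (1 : ι → ℤ) := by
  obtain ⟨l, hl⟩ := exists_lat_mem hm t
  refine ⟨l, fun i => ⟨(hl i).1, (hl i).2.trans ?_⟩⟩
  have hQ : 0 < ‖(qq m i : K)‖ := norm_pos_iff.2 (Units.ne_zero _)
  rw [Pi.zero_apply, neg_zero, zpow_zero, Pi.one_apply, zpow_neg_one]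
  exact (one_le_inv₀ hQ).2 (hm.lt i).le

end Pool.Agent.Work.MP_6d379e_ag.Ab
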