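import Pool.Agent.Work.MP_6d379e_ag.Ab.XDefs
import Pool.Agent.Work.MP_6d379e_ag.Ab.Lat

/-!
# One step inwards   (size M-L)

Mirror image of `StepOut` (read its header).  Let `e = Pi.single i 1`, `q = qq m`,
`A1 = A (Pi.single i (-1))`, `1 ≤ b i`.  Multiplication by `lat m (Pi.single i (-1)) = (m i)⁻¹` maps
`BB q (a + e) (b - e)` into `BB q a b` (`lat_mul_mem_BB`).  Put `W = BB q a (b - e)` and

  `δ s t = A1 x t *ᵥ s ((m i)⁻¹ * t) - s t`   (analytic on `W`),
  `f s t j = s t j + minus i (fun t => δ s t j) t`      on `BB q a b`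
      (`minus_anOn`: the part with negative exponents in the direction `i` is analytic on `BB q a b`
       since only `b` changes in the direction `i`),
  `g s t j = (A1 x t *ᵥ s ((m i)⁻¹ * t)) j - plus i (fun t => δ s t j) t`
                                                        on `BB q (a + e) (b - e)` (`plus_anOn`),
  `L x s t j = hull (fun t => f s t j) t`.

`f = g` on `circ`; apply `Glue` with the roles exchanged: the first box is `(a + e, b - e)` with the
function `g`, the second box is `(a, b)` with the function `f`; the glued box is `(a + e, b)`, and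
`hull g = hull f` because `cf g = cf f` (`cf_congr`).
All five properties as in `StepOut`.
-/

set_option linter.unusedSectionVars false

namespace Pool.Agent.Work.MP_6d379e_ag.Ab

variable {ι κ σ : Type*} [Fintype ι] [Fintype κ] [Fintype σ] [DecidableEq ι]
variable {K : Type*} [NontriviallyNormedField K] [IsUltrametricDist K]
variable [CompleteSpace K] [IsAlgClosed K] [CharZero K]

/-! the data of the step -/

private structure SD (q : Tor ι K) (a b a1 b1 : ι → ℤ) (i : ι) (v : Tor ι K) : Prop where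
  hq : ∀ j, ‖(q j : K)‖ ≤ 1
  ha : ∀ j, 0 ≤ a j
  hb : ∀ j, 0 ≤ b j
  ha1 : ∀ j, 0 ≤ a1 j
  hb1 : ∀ j, 0 ≤ b1 j
  haj : ∀ j, j ≠ i → a1 j = a j
  hbj : ∀ j, j ≠ i → b1 j = b j
  haa : ∀ j, a j ≤ a1 j
  hbb : ∀ j, b1 j ≤ b j
  hv : ∀ t ∈ BB q a1 b1, v * t ∈ BB q a b

/-- the transported function -/
private def TT (B : Tor κ K → Tor ι K → Matrix σ σ K) (v : Tor ι K) (x : Tor κ K)
    (s : Tor ι K → σ → K) (t : Tor ι K) (j : σ) : K := (B x t).mulVec (s (v * t)) j

/-- the function on the large box -/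
private noncomputable def GG (B : Tor κ K → Tor ι K → Matrix σ σ K) (v : Tor ι K) (i : ι)
    (x : Tor κ K) (s : Tor ι K → σ → K) (j : σ) (t : Tor ι K) : K :=
  TT B v x s t j - plus i (fun t => TT B v x s t j - s t j) t

/-- the function on the small box -/
private noncomputable def FF (B : Tor κ K → Tor ι K → Matrix σ σ K) (v : Tor ι K) (i : ι)
    (x : Tor κ K) (s : Tor ι K → σ → K) (j : σ) (t : Tor ι K) : K :=
  s t j + minus i (fun t => TT B v x s t j - s t j) t

variable {q v : Tor ι K} {a b a1 b1 : ι → ℤ} {i : ι} {B : Tor κ K → Tor ι K → Matrix σ σ K}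

private theorem TT_eq (x : Tor κ K) (s : Tor ι K → σ → K) (t : Tor ι K) (j : σ) :
    TT B v x s t j = ∑ k, B x t j k * s (v * t) k := rfl

private theorem TT_add (x : Tor κ K) (s s' : Tor ι K → σ → K) (t : Tor ι K) (j : σ) :
    TT B v x (s + s') t j = TT B v x s t j + TT B v x s' t j := by
  rw [TT_eq, TT_eq, TT_eq, ← Finset.sum_add_distrib]
  refine Finset.sum_congr rfl fun k _ => ?_
  rw [Pi.add_apply, Pi.add_apply, mul_add]

private theorem TT_smul (x : Tor κ K) (c : K) (s : Tor ι K → σ → K) (t : Tor ι K) (j : σ) :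
    TT B v x (c • s) t j = c * TT B v x s t j := by
  rw [TT_eq, TT_eq, Finset.mul_sum]
  refine Finset.sum_congr rfl fun k _ => ?_
  rw [Pi.smul_apply, Pi.smul_apply, smul_eq_mul]
  ring

private theorem vmul_an (h : SD q a b a1 b1 i v) {f : Tor ι K → K} (hf : AnOn (BB q a b) f) :
    AnOn (BB q a1 b1) fun t => f (v * t) :=
  anOn_isMono (isMono_mul (isMono_const v) isMono_id) h.hv hf

private theorem vmul_an2 (h : SD q a b a1 b1 i v) {F : Tor κ K → Tor ι K → K}
    (hF : An2 q a b F) : An2 q a1 b1 fun x t => F x (v * t) := by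
  have h1 := anOn_isMono (isMono_elim (isMono_inl (ι := ι) (κ := κ) (K := K))
    (isMono_mul (isMono_const v) isMono_inr))
    (U := BB (Sum.elim (1 : Tor κ K) q) (Sum.elim (0 : κ → ℤ) a1) (Sum.elim (0 : κ → ℤ) b1))
    (fun z hz => by
      rw [mem_BB_sum] at hz ⊢
      exact ⟨hz.1, h.hv _ hz.2⟩) hF
  exact h1

private theorem sub_a (h : SD q a b a1 b1 i v) : BB q a b1 ⊆ BB q a b :=
  BB_mono h.hq (fun _ => le_rfl) h.hbb

private theorem sub_1 (h : SD q a b a1 b1 i v) : BB q a b1 ⊆ BB q a1 b1 :=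
  BB_mono h.hq h.haa (fun _ => le_rfl)

private theorem an2_mono {a' b' : ι → ℤ} (hq : ∀ j, ‖(q j : K)‖ ≤ 1) (ha : ∀ j, a' j ≤ a j)
    (hb : ∀ j, b' j ≤ b j) {F : Tor κ K → Tor ι K → K} (hF : An2 q a b F) : An2 q a' b' F := by
  refine anOn_mono (fun z hz => ?_) hF
  rw [mem_BB_sum] at hz ⊢
  exact ⟨hz.1, BB_mono hq ha hb hz.2⟩

private theorem TT_an (h : SD q a b a1 b1 i v) (hB : ∀ j k, An2 q a1 b1 fun x t => B x t j k)
    {x : Tor κ K} (hx : x ∈ (circ : Set (Tor κ K))) {s : Tor ι K → σ → K}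
    (hs : AnV (BB q a b) s) (j : σ) : AnOn (BB q a1 b1) fun t => TT B v x s t j :=
  anOn_sum Finset.univ fun k _ => anOn_mul (an2_fib (hB j k) hx) (vmul_an h (hs k))

private theorem TT_an2 (h : SD q a b a1 b1 i v) (hB : ∀ j k, An2 q a1 b1 fun x t => B x t j k)
    {S : Tor κ K → Tor ι K → σ → K} (hS : An2V q a b S) (j : σ) :
    An2 q a1 b1 fun x t => TT B v x (S x) t j :=
  anOn_sum Finset.univ fun k _ => anOn_mul (hB j k) (vmul_an2 h (hS k))

private theorem DD_an (h : SD q a b a1 b1 i v) (hB : ∀ j k, An2 q a1 b1 fun x t => B x t j k)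
    {x : Tor κ K} (hx : x ∈ (circ : Set (Tor κ K))) {s : Tor ι K → σ → K}
    (hs : AnV (BB q a b) s) (j : σ) : AnOn (BB q a b1) fun t => TT B v x s t j - s t j :=
  anOn_sub (anOn_mono (sub_1 h) (TT_an h hB hx hs j)) (anOn_mono (sub_a h) (hs j))

private theorem GG_an (h : SD q a b a1 b1 i v) (hB : ∀ j k, An2 q a1 b1 fun x t => B x t j k)
    {x : Tor κ K} (hx : x ∈ (circ : Set (Tor κ K))) {s : Tor ι K → σ → K}
    (hs : AnV (BB q a b) s) (j : σ) : AnOn (BB q a1 b1) (GG B v i x s j) :=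
  anOn_sub (TT_an h hB hx hs j) (plus_anOn h.hq h.ha h.hb1 (DD_an h hB hx hs j) h.haj)

private theorem FF_an (h : SD q a b a1 b1 i v) (hB : ∀ j k, An2 q a1 b1 fun x t => B x t j k)
    {x : Tor κ K} (hx : x ∈ (circ : Set (Tor κ K))) {s : Tor ι K → σ → K}
    (hs : AnV (BB q a b) s) (j : σ) : AnOn (BB q a b) (FF B v i x s j) :=
  anOn_add (hs j) (minus_anOn h.hq h.ha h.hb1 (DD_an h hB hx hs j) fun j hj => (h.hbj j hj).symm)

private theorem GG_eq_FF (h : SD q a b a1 b1 i v) (hB : ∀ j k, An2 q a1 b1 fun x t => B x t j k)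
    {x : Tor κ K} (hx : x ∈ (circ : Set (Tor κ K))) {s : Tor ι K → σ → K}
    (hs : AnV (BB q a b) s) (j : σ) {t : Tor ι K} (ht : t ∈ (circ : Set (Tor ι K))) :
    GG B v i x s j t = FF B v i x s j t := by
  have h1 := plus_add_minus h.hq h.ha h.hb1 (DD_an h hB hx hs j) i (circ_subset_BB h.hq h.ha h.hb1 ht)
  unfold GG FF
  have h2 : minus i (fun t => TT B v x s t j - s t j) t =
      (TT B v x s t j - s t j) - plus i (fun t => TT B v x s t j - s t j) t := by
    rw [← h1]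
    ring
  rw [h2]
  ring

private theorem hull_an (h : SD q a b a1 b1 i v) (hB : ∀ j k, An2 q a1 b1 fun x t => B x t j k)
    {x : Tor κ K} (hx : x ∈ (circ : Set (Tor κ K))) {s : Tor ι K → σ → K}
    (hs : AnV (BB q a b) s) (j : σ) : AnOn (BB q a1 b) (hull (GG B v i x s j)) :=
  glue_anOn h.hq h.ha1 h.hb1 h.ha h.hb (fun j hj => (h.haj j hj).symm)
    (fun j hj => (h.hbj j hj).symm) (GG_an h hB hx hs j) (FF_an h hB hx hs j)
    fun _ ht => GG_eq_FF h hB hx hs j ht

private theorem GG_dec (h : SD q a b a1 b1 i v) (hB : ∀ j k, An2 q a1 b1 fun x t => B x t j k)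
    {x : Tor κ K} (hx : x ∈ (circ : Set (Tor κ K))) {s : Tor ι K → σ → K}
    (hs : AnV (BB q a b) s) (j : σ) : Dec q a1 b (cf (GG B v i x s j)) := by
  have h1 := cf_dec_BB h.hq h.ha1 h.hb (hull_an h hB hx hs j)
  have h2 : cf (hull (GG B v i x s j)) = cf (GG B v i x s j) := by
    refine cf_congr fun t ht => ?_
    exact hull_eq h.hq h.ha1 h.hb1 (GG_an h hB hx hs j) (circ_subset_BB h.hq h.ha1 h.hb1 ht)
  rwa [h2] at h1

private theorem GG_add (h : SD q a b a1 b1 i v) (hB : ∀ j k, An2 q a1 b1 fun x t => B x t j k)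
    {x : Tor κ K} (hx : x ∈ (circ : Set (Tor κ K))) {s s' : Tor ι K → σ → K}
    (hs : AnV (BB q a b) s) (hs' : AnV (BB q a b) s') (j : σ) {t : Tor ι K}
    (ht : t ∈ (circ : Set (Tor ι K))) :
    GG B v i x (s + s') j t = GG B v i x s j t + GG B v i x s' j t := by
  unfold GG
  have h1 : (fun t => TT B v x (s + s') t j - (s + s') t j) =
      fun t => (TT B v x s t j - s t j) + (TT B v x s' t j - s' t j) := by
    funext t
    rw [TT_add, Pi.add_apply, Pi.add_apply]
    ring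
  rw [h1, plus_add h.hq h.ha h.hb1 (DD_an h hB hx hs j) (DD_an h hB hx hs' j) h.haj
    (circ_subset_BB h.hq h.ha1 h.hb1 ht), TT_add]
  ring

private theorem GG_smul (h : SD q a b a1 b1 i v) (hB : ∀ j k, An2 q a1 b1 fun x t => B x t j k)
    {x : Tor κ K} (hx : x ∈ (circ : Set (Tor κ K))) (c : K) {s : Tor ι K → σ → K}
    (hs : AnV (BB q a b) s) (j : σ) (t : Tor ι K) :
    GG B v i x (c • s) j t = c * GG B v i x s j t := by
  unfold GG
  have h1 : (fun t => TT B v x (c • s) t j - (c • s) t j) =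
      fun t => c * (TT B v x s t j - s t j) := by
    funext t
    rw [TT_smul, Pi.smul_apply, Pi.smul_apply, smul_eq_mul]
    ring
  rw [h1, plus_smul i c (anOn_mono (circ_subset_BB h.hq h.ha h.hb1) (DD_an h hB hx hs j)), TT_smul]
  ring

private theorem B_bd (hB : ∀ j k, An2 q a1 b1 fun x t => B x t j k) :
    ∃ C : ℝ, 1 ≤ C ∧ ∀ x ∈ (circ : Set (Tor κ K)), ∀ t ∈ BB q a1 b1, ∀ j k, ‖B x t j k‖ ≤ C := by
  choose C hC using fun j k => anOn_bdd (hB j k)
  refine ⟨1 + ∑ j, ∑ k, |C j k|, ?_, ?_⟩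
  · have : 0 ≤ ∑ j, ∑ k, |C j k| :=
      Finset.sum_nonneg fun j _ => Finset.sum_nonneg fun k _ => abs_nonneg _
    linarith
  · intro x hx t ht j k
    have h1 := hC j k (Sum.elim x t) (by
      rw [mem_BB_sum]
      exact ⟨hx, ht⟩)
    have h2 : ‖B x t j k‖ ≤ C j k := h1
    have h3 : |C j k| ≤ ∑ k, |C j k| :=
      Finset.single_le_sum (f := fun k => |C j k|) (fun k _ => abs_nonneg _) (Finset.mem_univ k)
    have h4 : ∑ k, |C j k| ≤ ∑ j, ∑ k, |C j k| :=
      Finset.single_le_sum (f := fun j => ∑ k, |C j k|)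
        (fun j _ => Finset.sum_nonneg fun k _ => abs_nonneg _) (Finset.mem_univ j)
    have h5 := le_abs_self (C j k)
    linarith

private theorem TT_bd (h : SD q a b a1 b1 i v) {C : ℝ} (hC : 1 ≤ C) {x : Tor κ K}
    (hBC : ∀ t ∈ BB q a1 b1, ∀ j k, ‖B x t j k‖ ≤ C) {s : Tor ι K → σ → K} {D : ℝ} (hD : 0 ≤ D)
    (hs : Bd (BB q a b) s D) (j : σ) {t : Tor ι K} (ht : t ∈ BB q a1 b1) :
    ‖TT B v x s t j‖ ≤ C * D := by
  rw [TT_eq]
  refine IsUltrametricDist.norm_sum_le_of_forall_le_of_nonneg (mul_nonneg (by linarith) hD) ?_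
  intro k _
  rw [norm_mul]
  exact mul_le_mul (hBC t ht j k) (hs _ (h.hv t ht) k) (norm_nonneg _) (by linarith)

private theorem add_bd {x y : K} {C : ℝ} (hx : ‖x‖ ≤ C) (hy : ‖y‖ ≤ C) : ‖x + y‖ ≤ C :=
  (IsUltrametricDist.norm_add_le_max x y).trans (max_le hx hy)

private theorem sub_bd {x y : K} {C : ℝ} (hx : ‖x‖ ≤ C) (hy : ‖y‖ ≤ C) : ‖x - y‖ ≤ C := by
  rw [sub_eq_add_neg]
  exact add_bd hx (by rwa [norm_neg])

private theorem step_gen (h : SD q a b a1 b1 i v) (hB : ∀ j k, An2 q a1 b1 fun x t => B x t j k) :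
    ∃ C : ℝ, 0 ≤ C ∧ OpB q a b a1 b C
      (fun (x : Tor κ K) (s : Tor ι K → σ → K) t j => hull (GG B v i x s j) t) := by
  obtain ⟨C, hC1, hC⟩ := B_bd hB
  refine ⟨C, by linarith, ?_, ?_, ?_, ?_, ?_⟩
  · intro x hx s hs j
    exact hull_an h hB hx hs j
  · intro S hS j
    have hSx : ∀ x ∈ (circ : Set (Tor κ K)), AnV (BB q a b) (S x) := fun x hx k =>
      an2_fib (hS k) hx
    have hD : An2 q a b1 fun x t => TT B v x (S x) t j - S x t j :=
      anOn_sub (an2_mono h.hq h.haa (fun _ => le_rfl) (TT_an2 h hB hS j))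
        (an2_mono h.hq (fun _ => le_rfl) h.hbb (hS j))
    have hG : An2 q a1 b1 fun x t => GG B v i x (S x) j t :=
      anOn_sub (TT_an2 h hB hS j) (plus_an2 h.hq h.ha h.hb1 hD h.haj)
    have hF : An2 q a b fun x t => FF B v i x (S x) j t :=
      anOn_add (hS j) (minus_an2 h.hq h.ha h.hb1 hD fun j hj => (h.hbj j hj).symm)
    exact glue_an2 (i := i) h.hq h.ha1 h.hb1 h.ha h.hb (fun j hj => (h.haj j hj).symm)
      (fun j hj => (h.hbj j hj).symm) hG hF
      fun x hx t ht => GG_eq_FF h hB hx (hSx x hx) j ht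
  · intro x hx s s' hs hs' t ht
    funext j
    show hull (GG B v i x (s + s') j) t = hull (GG B v i x s j) t + hull (GG B v i x s' j) t
    unfold hull
    have h0 : (circ : Set (Tor ι K)) ⊆ BB q a1 b1 := circ_subset_BB h.hq h.ha1 h.hb1
    rw [cf_congr (g := fun t => GG B v i x s j t + GG B v i x s' j t)
        (fun t ht => GG_add h hB hx hs hs' j ht),
      cf_add (anOn_mono h0 (GG_an h hB hx hs j)) (anOn_mono h0 (GG_an h hB hx hs' j)),
      ser_add (GG_dec h hB hx hs j) (GG_dec h hB hx hs' j) ht]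
  · intro x hx c s hs t ht
    funext j
    show hull (GG B v i x (c • s) j) t = c * hull (GG B v i x s j) t
    unfold hull
    have h0 : (circ : Set (Tor ι K)) ⊆ BB q a1 b1 := circ_subset_BB h.hq h.ha1 h.hb1
    have h1 : cf (GG B v i x (c • s) j) = c • cf (GG B v i x s j) := by
      rw [cf_congr (g := fun t => c * GG B v i x s j t) (fun t _ => GG_smul h hB hx c hs j t)]
      funext k
      rw [cf_smul c (anOn_mono h0 (GG_an h hB hx hs j)), Pi.smul_apply, smul_eq_mul]
    rw [h1, ser_smul]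
  · intro x hx s D hs hD hsD t ht j
    have hCD : D ≤ C * D := le_mul_of_one_le_left hD hC1
    have hT : ∀ t ∈ BB q a1 b1, ‖TT B v x s t j‖ ≤ C * D := fun t ht =>
      TT_bd h hC1 (hC x hx) hD hsD j ht
    have hdel : ∀ t ∈ BB q a b1, ‖TT B v x s t j - s t j‖ ≤ C * D := fun t ht =>
      sub_bd (hT t (sub_1 h ht)) ((hsD t (sub_a h ht) j).trans hCD)
    refine glue_le h.hq h.ha1 h.hb1 h.ha h.hb (fun j hj => (h.haj j hj).symm)
      (fun j hj => (h.hbj j hj).symm) (GG_an h hB hx hs j) (FF_an h hB hx hs j)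
      (fun t ht => GG_eq_FF h hB hx hs j ht) ?_ ?_ ht
    · intro t ht
      exact sub_bd (hT t ht) (plus_le h.hq h.ha h.hb1 (DD_an h hB hx hs j) h.haj hdel ht)
    · intro t ht
      exact add_bd ((hsD t ht j).trans hCD)
        (minus_le h.hq h.ha h.hb1 (DD_an h hB hx hs j) (fun j hj => (h.hbj j hj).symm) hdel ht)

theorem exists_stepIn {m : ι → Tor ι K} (hm : Std m)
    {A : (ι → ℤ) → Tor κ K → Tor ι K → Matrix σ σ K} (hA : CocSys m A) (a b : ι → ℤ)
    (ha : ∀ i, 0 ≤ a i) (hb : ∀ i, 0 ≤ b i) (i : ι) (hi : 1 ≤ b i) :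
    ∃ (C : ℝ) (L : Tor κ K → (Tor ι K → σ → K) → Tor ι K → σ → K), 0 ≤ C ∧
      OpB (qq m) a b (a + Pi.single i 1) b C L ∧ FixSol m A (a + Pi.single i 1) b L := by
  have hsi : ∀ j, (Pi.single i (1 : ℤ) : ι → ℤ) j = if j = i then 1 else 0 := fun j =>
    Pi.single_apply i 1 j
  have h : SD (qq m) a b (a + Pi.single i 1) (b - Pi.single i 1) i (lat m (Pi.single i (-1))) := by
    refine ⟨qq_le hm, ha, hb, ?_, ?_, ?_, ?_, ?_, ?_, ?_⟩
    · intro j
      have := ha j
      rw [Pi.add_apply, hsi]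
      split_ifs <;> omega
    · intro j
      have := hb j
      rw [Pi.sub_apply, hsi]
      split_ifs with h1
      · subst h1
        omega
      · omega
    · intro j hj
      rw [Pi.add_apply, hsi, if_neg hj, add_zero]
    · intro j hj
      rw [Pi.sub_apply, hsi, if_neg hj, sub_zero]
    · intro j
      rw [Pi.add_apply, hsi]
      split_ifs <;> omega
    · intro j
      rw [Pi.sub_apply, hsi]
      split_ifs <;> omega
    · intro t ht
      rw [lat_mul_mem_BB hm]
      have h1 : (Pi.single i (-1) : ι → ℤ) = - Pi.single i 1 := Pi.single_neg (f := fun _ => ℤ) i 1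
      rw [h1, sub_neg_eq_add, ← sub_eq_add_neg]
      exact ht
  have hB : ∀ j k, An2 (qq m) (a + Pi.single i 1) (b - Pi.single i 1)
      fun x t => A (Pi.single i (-1)) x t j k := fun j k =>
    ana2_An2 (hA.an (Pi.single i (-1)) j k) _ _ _
  obtain ⟨C, hC, hop⟩ := step_gen h hB
  refine ⟨C, _, hC, hop, ?_⟩
  intro x hx s hs t ht
  funext j
  obtain ⟨hs1, hs2⟩ := hs
  have hT : ∀ t, TT (A (Pi.single i (-1))) (lat m (Pi.single i (-1))) x s t j = s t j := fun t =>
    (congrFun (hs2 (Pi.single i (-1)) t) j).symm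
  have hG : GG (A (Pi.single i (-1))) (lat m (Pi.single i (-1))) i x s j = fun t => s t j := by
    funext t
    unfold GG
    rw [plus_zero i (fun t _ => by rw [hT t, sub_self]) t, hT t, sub_zero]
  show hull (GG (A (Pi.single i (-1))) (lat m (Pi.single i (-1))) i x s j) t = s t j
  rw [hG]
  exact hull_eq h.hq h.ha1 h.hb (ana_BB (hs1 j) _ _ _) ht

end Pool.Agent.Work.MP_6d379e_ag.Ab
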