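import Pool.Agent.Work.MP_6d379e_ag.Ab.XDefs
import Pool.Agent.Work.MP_6d379e_ag.Ab.Lat

/-!
# One step outwards   (size M-L)

Let `e = Pi.single i 1`, `q = qq m`, `A1 = A e`, `1 ≤ a i`.  Multiplication by `lat m e = m i` maps
`BB q (a - e) (b + e)` into `BB q a b` (`lat_mul_mem_BB`).  Put
`W = BB q (a - e) b` (all exponents nonnegative, `W ⊆ BB q a b`), and for a vector function `s`

  `δ s t = A1 x t *ᵥ s (lat m e * t) - s t`   (analytic on `W`),
  `f s t j = s t j + plus i (fun t => δ s t j) t`      on `BB q a b`,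
  `g s t j = (A1 x t *ᵥ s (lat m e * t)) j - minus i (fun t => δ s t j) t`
                                                        on `BB q (a - e) (b + e)`,
  `L x s t j = hull (fun t => f s t j) t`.

`plus i (δ ·)` is analytic on `BB q a b` (`plus_anOn` with target exponent `a`), `minus i (δ ·)` on
`BB q (a - e) (b + e)` (`minus_anOn`), and `f = g` on `circ` (`plus_add_minus` on `W`).
`Glue` (`glue_anOn`, `glue_le`, `glue_eq`, `glue_an2`) with the boxes `(a, b)` and
`(a - e, b + e)` gives everything on `BB q a (b + e)`: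

* `an` : `glue_anOn`.
* `joint` : all constructions preserve `An2` (`plus_an2`, `minus_an2`, `glue_an2`, substitution
  `t ↦ lat m e * t` is monomial, products `Alg`; the entries of `A1` are `Ana2`, so `An2` on every
  box by `ana2_An2`).
* `add`, `smul` : `δ` is linear, `plus_add`, `plus_smul`, `cf_add`, `cf_smul`, `ser_add`,
  `ser_smul` (note `hull f = ser (cf f)` and both coefficient families are `Dec` on
  `BB q a (b + e)`; only the values of `f` on `circ` matter, `cf_congr`).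
* `bd` : let `C1 ≥ 1` bound the entries of `A1` on `circ x BB q (a - e) (b + e)` (`anOn_bdd` on the
  product box).  If `‖s‖ ≤ D` on `BB q a b` then `A1 *ᵥ s (lat m e * ·)` is bounded by `C1 * D` on
  `BB q (a - e) (b + e)` (ultrametric), `δ` by `C1 * D` on `W`, so `f` and `g` by `C1 * D`
  (`plus_le`, `minus_le`), and `glue_le`.
* `FixSol` : for a solution `s` one has `δ s = 0` everywhere, so `plus = 0` (`plus_zero`),
  `f s = s`, and `hull` of `s` is `s` on `BB q a (b + e)` (`hull_eq`, as `s` is analytic there).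
-/

namespace Pool.Agent.Work.MP_6d379e_ag.Ab

variable {ι κ σ : Type*} [Fintype ι] [Fintype κ] [Fintype σ] [DecidableEq ι]
variable {K : Type*} [NontriviallyNormedField K] [IsUltrametricDist K]
variable [CompleteSpace K] [IsAlgClosed K] [CharZero K]

private theorem sub_nn {a : ι → ℤ} (ha : ∀ i, 0 ≤ a i) {i : ι} (hi : 1 ≤ a i) (j : ι) :
    0 ≤ (a - Pi.single i 1 : ι → ℤ) j := by
  rw [Pi.sub_apply]
  by_cases hj : j = i
  · subst hj
    rw [Pi.single_eq_same]
    omega
  · rw [Pi.single_eq_of_ne hj, sub_zero]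
    exact ha j

private theorem add_nn {b : ι → ℤ} (hb : ∀ i, 0 ≤ b i) (i : ι) (j : ι) :
    0 ≤ (b + Pi.single i 1 : ι → ℤ) j := by
  rw [Pi.add_apply]
  by_cases hj : j = i
  · subst hj
    rw [Pi.single_eq_same]
    have := hb j
    omega
  · rw [Pi.single_eq_of_ne hj, add_zero]
    exact hb j

private theorem sub_le' (a : ι → ℤ) (i j : ι) : (a - Pi.single i 1 : ι → ℤ) j ≤ a j := by
  rw [Pi.sub_apply]
  by_cases hj : j = i
  · subst hj
    rw [Pi.single_eq_same]
    omega
  · rw [Pi.single_eq_of_ne hj, sub_zero]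

private theorem le_add' (b : ι → ℤ) (i j : ι) : b j ≤ (b + Pi.single i 1 : ι → ℤ) j := by
  rw [Pi.add_apply]
  by_cases hj : j = i
  · subst hj
    rw [Pi.single_eq_same]
    omega
  · rw [Pi.single_eq_of_ne hj, add_zero]

private theorem sub_off (a : ι → ℤ) {i j : ι} (hj : j ≠ i) :
    (a - Pi.single i 1 : ι → ℤ) j = a j := by
  rw [Pi.sub_apply, Pi.single_eq_of_ne hj, sub_zero]

private theorem add_off (b : ι → ℤ) {i j : ι} (hj : j ≠ i) :
    (b + Pi.single i 1 : ι → ℤ) j = b j := by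
  rw [Pi.add_apply, Pi.single_eq_of_ne hj, add_zero]

private theorem an2_mono' {q : Tor ι K} {a b a' b' : ι → ℤ} {F : Tor κ K → Tor ι K → K}
    (hq : ∀ i, ‖(q i : K)‖ ≤ 1) (ha : ∀ i, a' i ≤ a i) (hb : ∀ i, b' i ≤ b i)
    (hF : An2 q a b F) : An2 q a' b' F := by
  refine anOn_mono (fun z hz => ?_) hF
  rw [mem_BB_sum] at hz ⊢
  exact ⟨hz.1, BB_mono hq ha hb hz.2⟩

section ops

variable {m : ι → Tor ι K} {A : (ι → ℤ) → Tor κ K → Tor ι K → Matrix σ σ K}
variable {a b : ι → ℤ} {i : ι} {x : Tor κ K} {s s' : Tor ι K → σ → K}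

variable (m A i) in
private noncomputable def Mf (x : Tor κ K) (s : Tor ι K → σ → K) (t : Tor ι K) : σ → K :=
  (A (Pi.single i 1) x t).mulVec (s (lat m (Pi.single i 1) * t))

variable (m A i) in
private noncomputable def df (x : Tor κ K) (s : Tor ι K → σ → K) (j : σ) (t : Tor ι K) : K :=
  Mf m A i x s t j - s t j

variable (m A i) in
private noncomputable def ff (x : Tor κ K) (s : Tor ι K → σ → K) (j : σ) (t : Tor ι K) : K :=
  s t j + plus i (df m A i x s j) t

variable (m A i) in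
private noncomputable def gf (x : Tor κ K) (s : Tor ι K → σ → K) (j : σ) (t : Tor ι K) : K :=
  Mf m A i x s t j - minus i (df m A i x s j) t

variable (m A i) in
private noncomputable def Lf (x : Tor κ K) (s : Tor ι K → σ → K) (t : Tor ι K) : σ → K :=
  fun j => hull (ff m A i x s j) t

private theorem Mf_apply (x : Tor κ K) (s : Tor ι K → σ → K) (t : Tor ι K) (j : σ) :
    Mf m A i x s t j =
      ∑ k, A (Pi.single i 1) x t j k * s (lat m (Pi.single i 1) * t) k := rfl

private theorem Mf_an (hm : Std m) (hA : CocSys m A) (hx : x ∈ (circ : Set (Tor κ K)))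
    (hs : AnV (BB (qq m) a b) s) (j : σ) :
    AnOn (BB (qq m) (a - Pi.single i 1) (b + Pi.single i 1)) (fun t => Mf m A i x s t j) := by
  refine anOn_congr (fun t _ => Mf_apply x s t j) (anOn_sum Finset.univ fun k _ => anOn_mul ?_ ?_)
  · exact ana_BB (ana2_fib (hA.an (Pi.single i 1) j k) hx) (qq m) _ _
  · exact anOn_isMono (isMono_mul (isMono_const (lat m (Pi.single i 1))) isMono_id)
      (fun t ht => (lat_mul_mem_BB hm (Pi.single i 1) a b t).2 ht) (hs k)

private theorem W_sub1 (hm : Std m) (a b : ι → ℤ) (i : ι) :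
    BB (qq m) (a - Pi.single i 1) b ⊆ BB (qq m) a b :=
  BB_mono (qq_le hm) (sub_le' a i) (fun _ => le_rfl)

private theorem W_sub2 (hm : Std m) (a b : ι → ℤ) (i : ι) :
    BB (qq m) (a - Pi.single i 1) b ⊆ BB (qq m) (a - Pi.single i 1) (b + Pi.single i 1) :=
  BB_mono (qq_le hm) (fun _ => le_rfl) (le_add' b i)

private theorem df_an (hm : Std m) (hA : CocSys m A) (hx : x ∈ (circ : Set (Tor κ K)))
    (hs : AnV (BB (qq m) a b) s) (j : σ) :
    AnOn (BB (qq m) (a - Pi.single i 1) b) (df m A i x s j) :=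
  anOn_sub (anOn_mono (W_sub2 hm a b i) (Mf_an hm hA hx hs j))
    (anOn_mono (W_sub1 hm a b i) (hs j))

private theorem ff_an (hm : Std m) (hA : CocSys m A) (ha : ∀ i, 0 ≤ a i) (hb : ∀ i, 0 ≤ b i)
    (hi : 1 ≤ a i) (hx : x ∈ (circ : Set (Tor κ K))) (hs : AnV (BB (qq m) a b) s) (j : σ) :
    AnOn (BB (qq m) a b) (ff m A i x s j) :=
  anOn_add (hs j) (plus_anOn (qq_le hm) (sub_nn ha hi) hb (df_an hm hA hx hs j)
    (fun j hj => (sub_off a hj).symm))

private theorem gf_an (hm : Std m) (hA : CocSys m A) (ha : ∀ i, 0 ≤ a i) (hb : ∀ i, 0 ≤ b i)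
    (hi : 1 ≤ a i) (hx : x ∈ (circ : Set (Tor κ K))) (hs : AnV (BB (qq m) a b) s) (j : σ) :
    AnOn (BB (qq m) (a - Pi.single i 1) (b + Pi.single i 1)) (gf m A i x s j) :=
  anOn_sub (Mf_an hm hA hx hs j) (minus_anOn (qq_le hm) (sub_nn ha hi) hb (df_an hm hA hx hs j)
    (fun _ hj => add_off b hj))

private theorem ff_eq_gf (hm : Std m) (hA : CocSys m A) (ha : ∀ i, 0 ≤ a i) (hb : ∀ i, 0 ≤ b i)
    (hi : 1 ≤ a i) (hx : x ∈ (circ : Set (Tor κ K))) (hs : AnV (BB (qq m) a b) s) (j : σ)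
    {t : Tor ι K} (ht : t ∈ (circ : Set (Tor ι K))) :
    ff m A i x s j t = gf m A i x s j t := by
  have h1 := plus_add_minus (qq_le hm) (sub_nn ha hi) hb (df_an hm hA hx hs j) i
    (circ_subset_BB (qq_le hm) (sub_nn ha hi) hb ht)
  have h2 : df m A i x s j t = Mf m A i x s t j - s t j := rfl
  show s t j + plus i (df m A i x s j) t = Mf m A i x s t j - minus i (df m A i x s j) t
  linear_combination h1 + h2

private theorem Lf_an (hm : Std m) (hA : CocSys m A) (ha : ∀ i, 0 ≤ a i) (hb : ∀ i, 0 ≤ b i)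
    (hi : 1 ≤ a i) (hx : x ∈ (circ : Set (Tor κ K))) (hs : AnV (BB (qq m) a b) s) (j : σ) :
    AnOn (BB (qq m) a (b + Pi.single i 1)) (hull (ff m A i x s j)) :=
  glue_anOn (qq_le hm) ha hb (sub_nn ha hi) (add_nn hb i) (fun _ hj => sub_off a hj)
    (fun _ hj => add_off b hj) (ff_an hm hA ha hb hi hx hs j) (gf_an hm hA ha hb hi hx hs j)
    (fun _ ht => ff_eq_gf hm hA ha hb hi hx hs j ht)

private theorem ff_dec (hm : Std m) (hA : CocSys m A) (ha : ∀ i, 0 ≤ a i) (hb : ∀ i, 0 ≤ b i)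
    (hi : 1 ≤ a i) (hx : x ∈ (circ : Set (Tor κ K))) (hs : AnV (BB (qq m) a b) s) (j : σ) :
    Dec (qq m) a (b + Pi.single i 1) (cf (ff m A i x s j)) := by
  have h1 := cf_dec_BB (qq_le hm) ha (add_nn hb i) (Lf_an hm hA ha hb hi hx hs j)
  have h2 : cf (hull (ff m A i x s j)) = cf (ff m A i x s j) :=
    cf_congr fun t ht => hull_eq (qq_le hm) ha hb (ff_an hm hA ha hb hi hx hs j)
      (circ_subset_BB (qq_le hm) ha hb ht)
  rw [h2] at h1
  exact h1

private theorem df_add (x : Tor κ K) (s s' : Tor ι K → σ → K) (j : σ) :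
    df m A i x (s + s') j = fun t => df m A i x s j t + df m A i x s' j t := by
  funext t
  show (A (Pi.single i 1) x t).mulVec
      (s (lat m (Pi.single i 1) * t) + s' (lat m (Pi.single i 1) * t)) j - (s t j + s' t j) =
    ((A (Pi.single i 1) x t).mulVec (s (lat m (Pi.single i 1) * t)) j - s t j) +
      ((A (Pi.single i 1) x t).mulVec (s' (lat m (Pi.single i 1) * t)) j - s' t j)
  rw [Matrix.mulVec_add, Pi.add_apply]
  ring

private theorem df_smul (x : Tor κ K) (c : K) (s : Tor ι K → σ → K) (j : σ) :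
    df m A i x (c • s) j = fun t => c * df m A i x s j t := by
  funext t
  show (A (Pi.single i 1) x t).mulVec (c • s (lat m (Pi.single i 1) * t)) j - c • s t j =
    c * ((A (Pi.single i 1) x t).mulVec (s (lat m (Pi.single i 1) * t)) j - s t j)
  rw [Matrix.mulVec_smul, Pi.smul_apply, smul_eq_mul, smul_eq_mul]
  ring

private theorem Mf_an2 (hm : Std m) (hA : CocSys m A) {S : Tor κ K → Tor ι K → σ → K}
    (hS : An2V (qq m) a b S) (j : σ) :
    An2 (qq m) (a - Pi.single i 1) (b + Pi.single i 1) (fun x t => Mf m A i x (S x) t j) := by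
  have h1 : ∀ k, An2 (qq m) (a - Pi.single i 1) (b + Pi.single i 1)
      (fun (x : Tor κ K) t => A (Pi.single i 1) x t j k * S x (lat m (Pi.single i 1) * t) k) := by
    intro k
    have h2 : An2 (qq m) (a - Pi.single i 1) (b + Pi.single i 1)
        (fun (x : Tor κ K) t => A (Pi.single i 1) x t j k) :=
      ana2_An2 (hA.an (Pi.single i 1) j k) (qq m) _ _
    have h3 : An2 (qq m) (a - Pi.single i 1) (b + Pi.single i 1)
        (fun (x : Tor κ K) t => S x (lat m (Pi.single i 1) * t) k) := by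
      have h4 : AnOn (BB (Sum.elim (1 : Tor κ K) (qq m)) (Sum.elim (0 : κ → ℤ) a)
          (Sum.elim (0 : κ → ℤ) b)) (J2 fun x t => S x t k) := hS k
      refine anOn_isMono (isMono_elim isMono_inl
        (isMono_mul (isMono_const (lat m (Pi.single i 1))) isMono_inr)) (fun z hz => ?_) h4
      rw [mem_BB_sum] at hz ⊢
      exact ⟨hz.1, (lat_mul_mem_BB hm (Pi.single i 1) a b _).2 hz.2⟩
    exact anOn_mul h2 h3
  have h5 : An2 (qq m) (a - Pi.single i 1) (b + Pi.single i 1)
      (fun (x : Tor κ K) t =>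
        ∑ k, A (Pi.single i 1) x t j k * S x (lat m (Pi.single i 1) * t) k) :=
    anOn_sum (F := fun k => J2 fun (x : Tor κ K) t =>
      A (Pi.single i 1) x t j k * S x (lat m (Pi.single i 1) * t) k) Finset.univ
      fun k _ => h1 k
  exact h5

private theorem df_an2 (hm : Std m) (hA : CocSys m A) {S : Tor κ K → Tor ι K → σ → K}
    (hS : An2V (qq m) a b S) (j : σ) :
    An2 (qq m) (a - Pi.single i 1) b (fun x => df m A i x (S x) j) := by
  have h1 : An2 (qq m) (a - Pi.single i 1) b (fun x t => Mf m A i x (S x) t j) :=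
    an2_mono' (qq_le hm) (fun _ => le_rfl) (le_add' b i) (Mf_an2 hm hA hS j)
  have h2 : An2 (qq m) (a - Pi.single i 1) b (fun x t => S x t j) :=
    an2_mono' (qq_le hm) (sub_le' a i) (fun _ => le_rfl) (hS j)
  exact anOn_sub h1 h2

end ops

theorem exists_stepOut {m : ι → Tor ι K} (hm : Std m)
    {A : (ι → ℤ) → Tor κ K → Tor ι K → Matrix σ σ K} (hA : CocSys m A) (a b : ι → ℤ)
    (ha : ∀ i, 0 ≤ a i) (hb : ∀ i, 0 ≤ b i) (i : ι) (hi : 1 ≤ a i) :
    ∃ (C : ℝ) (L : Tor κ K → (Tor ι K → σ → K) → Tor ι K → σ → K), 0 ≤ C ∧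
      OpB (qq m) a b a (b + Pi.single i 1) C L ∧ FixSol m A a (b + Pi.single i 1) L := by
  have hq := qq_le hm
  have ha' := sub_nn ha hi
  have hb' := add_nn hb i
  -- the bound of the matrix
  have hbd : ∀ j k : σ, ∃ C : ℝ, ∀ x ∈ (circ : Set (Tor κ K)),
      ∀ t ∈ BB (qq m) (a - Pi.single i 1) (b + Pi.single i 1),
        ‖A (Pi.single i 1) x t j k‖ ≤ C := by
    intro j k
    obtain ⟨C, hC⟩ := anOn_bdd (ana2_An2 (hA.an (Pi.single i 1) j k) (qq m)
      (a - Pi.single i 1) (b + Pi.single i 1))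
    refine ⟨C, fun x hx t ht => ?_⟩
    exact hC (Sum.elim x t) ((mem_BB_sum _ _ _ _).2 ⟨hx, ht⟩)
  choose Cf hCf using hbd
  obtain ⟨Cs, hCs0, hCs⟩ : ∃ Cs : ℝ, 0 ≤ Cs ∧ ∀ j, ∑ k, |Cf j k| ≤ Cs := by
    refine ⟨∑ j, ∑ k, |Cf j k|, by positivity, fun j => ?_⟩
    exact Finset.single_le_sum (f := fun j => ∑ k, |Cf j k|)
      (fun j _ => Finset.sum_nonneg fun k _ => abs_nonneg _) (Finset.mem_univ j)
  have hMb : ∀ x ∈ (circ : Set (Tor κ K)), ∀ (s : Tor ι K → σ → K) (D : ℝ), 0 ≤ D →
      Bd (BB (qq m) a b) s D → ∀ t ∈ BB (qq m) (a - Pi.single i 1) (b + Pi.single i 1),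
        ∀ j, ‖Mf m A i x s t j‖ ≤ Cs * D := by
    intro x hx s D hD hs t ht j
    rw [Mf_apply]
    refine (norm_sum_le _ _).trans ?_
    have h1 : ∀ k ∈ (Finset.univ : Finset σ),
        ‖A (Pi.single i 1) x t j k * s (lat m (Pi.single i 1) * t) k‖ ≤ |Cf j k| * D := by
      intro k _
      rw [norm_mul]
      exact mul_le_mul ((hCf j k x hx t ht).trans (le_abs_self _))
        (hs _ ((lat_mul_mem_BB hm (Pi.single i 1) a b t).2 ht) k) (norm_nonneg _) (abs_nonneg _)
    refine (Finset.sum_le_sum h1).trans ?_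
    rw [← Finset.sum_mul]
    exact mul_le_mul_of_nonneg_right (hCs j) hD
  have hdb : ∀ x ∈ (circ : Set (Tor κ K)), ∀ (s : Tor ι K → σ → K) (D : ℝ), 0 ≤ D →
      Bd (BB (qq m) a b) s D → ∀ j, ∀ t ∈ BB (qq m) (a - Pi.single i 1) b,
        ‖df m A i x s j t‖ ≤ (Cs + 1) * D := by
    intro x hx s D hD hs j t ht
    have h1 := hMb x hx s D hD hs t (W_sub2 hm a b i ht) j
    have h2 := hs t (W_sub1 hm a b i ht) j
    have h3 : ‖df m A i x s j t‖ ≤ ‖Mf m A i x s t j‖ + ‖s t j‖ := norm_sub_le _ _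
    linarith
  refine ⟨2 * Cs + 2, Lf m A i, by linarith, ⟨?_, ?_, ?_, ?_, ?_⟩, ?_⟩
  · intro x hx s hs j
    exact Lf_an hm hA ha hb hi hx hs j
  · intro S hS j
    have hSx : ∀ x ∈ (circ : Set (Tor κ K)), AnV (BB (qq m) a b) (S x) :=
      fun x hx k => an2_fib (hS k) hx
    have h1 : An2 (qq m) a b (fun x => ff m A i x (S x) j) :=
      anOn_add (hS j) (plus_an2 hq ha' hb (df_an2 hm hA hS j)
        (fun j hj => (sub_off a hj).symm))
    have h2 : An2 (qq m) (a - Pi.single i 1) (b + Pi.single i 1)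
        (fun x => gf m A i x (S x) j) :=
      anOn_sub (Mf_an2 hm hA hS j) (minus_an2 hq ha' hb (df_an2 hm hA hS j)
        (fun _ hj => add_off b hj))
    exact glue_an2 hq ha hb ha' hb' (fun _ hj => sub_off a hj) (fun _ hj => add_off b hj) h1 h2
      (fun x hx t ht => ff_eq_gf hm hA ha hb hi hx (hSx x hx) j ht)
  · intro x hx s s' hs hs' t ht
    funext j
    show ser (cf (ff m A i x (s + s') j)) t =
      ser (cf (ff m A i x s j)) t + ser (cf (ff m A i x s' j)) t
    have hci : (circ : Set (Tor ι K)) ⊆ BB (qq m) a b := circ_subset_BB hq ha hb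
    have h1 : cf (ff m A i x (s + s') j) =
        cf (fun t => ff m A i x s j t + ff m A i x s' j t) := by
      refine cf_congr fun u hu => ?_
      show (s u j + s' u j) + plus i (df m A i x (s + s') j) u =
        (s u j + plus i (df m A i x s j) u) + (s' u j + plus i (df m A i x s' j) u)
      rw [df_add, plus_add hq ha' hb (df_an hm hA hx hs j) (df_an hm hA hx hs' j)
        (fun j hj => (sub_off a hj).symm) (hci hu)]
      ring
    rw [h1, cf_add (anOn_mono hci (ff_an hm hA ha hb hi hx hs j))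
      (anOn_mono hci (ff_an hm hA ha hb hi hx hs' j)),
      ser_add (ff_dec hm hA ha hb hi hx hs j) (ff_dec hm hA ha hb hi hx hs' j) ht]
  · intro x hx c s hs t ht
    funext j
    show ser (cf (ff m A i x (c • s) j)) t = c * ser (cf (ff m A i x s j)) t
    have hci : (circ : Set (Tor ι K)) ⊆ BB (qq m) a b := circ_subset_BB hq ha hb
    have hci' : (circ : Set (Tor ι K)) ⊆ BB (qq m) (a - Pi.single i 1) b :=
      circ_subset_BB hq ha' hb
    have h1 : ff m A i x (c • s) j = fun t => c * ff m A i x s j t := by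
      funext u
      show c * s u j + plus i (df m A i x (c • s) j) u = c * (s u j + plus i (df m A i x s j) u)
      rw [df_smul, plus_smul i c (anOn_mono hci' (df_an hm hA hx hs j))]
      ring
    have h2 : cf (ff m A i x (c • s) j) = c • cf (ff m A i x s j) := by
      rw [h1]
      funext k
      rw [cf_smul c (anOn_mono hci (ff_an hm hA ha hb hi hx hs j)), Pi.smul_apply, smul_eq_mul]
    rw [h2, ser_smul]
  · intro x hx s D hs hD hsD t ht j
    refine glue_le hq ha hb ha' hb' (fun _ hj => sub_off a hj) (fun _ hj => add_off b hj)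
      (ff_an hm hA ha hb hi hx hs j) (gf_an hm hA ha hb hi hx hs j)
      (fun _ ht => ff_eq_gf hm hA ha hb hi hx hs j ht) (fun u hu => ?_) (fun u hu => ?_) ht
    · have h1 := hsD u hu j
      have h2 := plus_le hq ha' hb (df_an hm hA hx hs j) (fun j hj => (sub_off a hj).symm)
        (hdb x hx s D hD hsD j) hu
      have h3 : ‖ff m A i x s j u‖ ≤ ‖s u j‖ + ‖plus i (df m A i x s j) u‖ := norm_add_le _ _
      have h4 : 0 ≤ Cs * D := mul_nonneg hCs0 hD
      linarith
    · have h1 := hMb x hx s D hD hsD u hu j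
      have h2 := minus_le hq ha' hb (df_an hm hA hx hs j) (fun _ hj => add_off b hj)
        (hdb x hx s D hD hsD j) hu
      have h3 : ‖gf m A i x s j u‖ ≤ ‖Mf m A i x s u j‖ + ‖minus i (df m A i x s j) u‖ :=
        norm_sub_le _ _
      have h4 : 0 ≤ Cs * D := mul_nonneg hCs0 hD
      linarith
  · intro x hx s hs t ht
    obtain ⟨h1, h2⟩ := hs
    funext j
    show hull (ff m A i x s j) t = s t j
    have h3 : ∀ u ∈ (circ : Set (Tor ι K)), df m A i x s j u = 0 := by
      intro u _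
      show (A (Pi.single i 1) x u).mulVec (s (lat m (Pi.single i 1) * u)) j - s u j = 0
      rw [← h2 (Pi.single i 1) u, sub_self]
    have h4 : ff m A i x s j = fun u => s u j := by
      funext u
      show s u j + plus i (df m A i x s j) u = s u j
      rw [plus_zero i h3, add_zero]
    rw [h4]
    exact hull_eq hq ha hb' (ana_BB (h1 j) (qq m) _ _) ht

end Pool.Agent.Work.MP_6d379e_ag.Ab
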