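import Pool.Agent.Work.MP_6d379e_ag.Ab.OpAlg
import Pool.Agent.Work.MP_6d379e_ag.Ab.StepOut
import Pool.Agent.Work.MP_6d379e_ag.Ab.StepIn

/-!
# Extension operators from the box `(1, 1)` to the box `(2, 2)`   (size M)

Finset induction on the set `S` of directions already treated: first, for every `S`, there is an
operator from `(1, 1)` to `(1, 1 + indicator of S)` (one application of `exists_stepOut` in a new
direction `i ∉ S`, where `a i = 1`, composed by `opB_comp`, `fixSol_comp`; the exponent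
`1 + indicator S + Pi.single i 1` is `1 + indicator (insert i S)`); then with `b = 2` fixed the same
for the inner exponent with `exists_stepIn` (`b i = 2 ≥ 1`).  Start: `opB_id` (every `s` is fixed).
-/

namespace Pool.Agent.Work.MP_6d379e_ag.Ab

variable {ι κ σ : Type*} [Fintype ι] [Fintype κ] [Fintype σ] [DecidableEq ι]
variable {K : Type*} [NontriviallyNormedField K] [IsUltrametricDist K]
variable [CompleteSpace K] [IsAlgClosed K] [CharZero K]

private def ind (S : Finset ι) : ι → ℤ := fun i => if i ∈ S then 2 else 1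

private theorem ind_empty : ind (∅ : Finset ι) = (1 : ι → ℤ) := by
  funext i
  exact if_neg (Finset.notMem_empty i)

private theorem ind_univ : ind (Finset.univ : Finset ι) = (2 : ι → ℤ) := by
  funext i
  exact if_pos (Finset.mem_univ i)

private theorem ind_insert (S : Finset ι) (i : ι) (hi : i ∉ S) :
    ind S + Pi.single i 1 = ind (insert i S) := by
  funext j
  rw [Pi.add_apply]
  show (if j ∈ S then (2 : ℤ) else 1) + (Pi.single i 1 : ι → ℤ) j = if j ∈ insert i S then 2 else 1
  by_cases hj : j = i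
  · subst hj
    rw [if_neg hi, if_pos (Finset.mem_insert_self _ _), Pi.single_eq_same]
    norm_num
  · rw [Pi.single_eq_of_ne hj, add_zero]
    by_cases hS : j ∈ S
    · rw [if_pos hS, if_pos (Finset.mem_insert_of_mem hS)]
    · rw [if_neg hS, if_neg]
      intro h
      exact (Finset.mem_insert.1 h).elim hj hS

private theorem ind_nonneg (S : Finset ι) (i : ι) : 0 ≤ ind S i := by
  show (0 : ℤ) ≤ if i ∈ S then 2 else 1
  split_ifs
  · norm_num
  · norm_num

private theorem ext_out {m : ι → Tor ι K} (hm : Std m)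
    {A : (ι → ℤ) → Tor κ K → Tor ι K → Matrix σ σ K} (hA : CocSys m A) (S : Finset ι) :
    ∃ (C : ℝ) (L : Tor κ K → (Tor ι K → σ → K) → Tor ι K → σ → K), 0 ≤ C ∧
      OpB (qq m) (1 : ι → ℤ) (1 : ι → ℤ) (1 : ι → ℤ) (ind S) C L ∧
      FixSol m A (1 : ι → ℤ) (ind S) L := by
  induction S using Finset.induction_on with
  | empty =>
    rw [ind_empty]
    exact ⟨1, fun _ s => s, zero_le_one, opB_id _ _ _, fun _ _ _ _ _ _ => rfl⟩
  | insert i S hi ih =>
    obtain ⟨C, L, hC, h1, h2⟩ := ih
    obtain ⟨C', L', hC', h1', h2'⟩ := exists_stepOut hm hA (1 : ι → ℤ) (ind S)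
      (fun _ => zero_le_one) (ind_nonneg S) i le_rfl
    rw [ind_insert S i hi] at h1' h2'
    exact ⟨C' * C, fun x s => L' x (L x s), mul_nonneg hC' hC, opB_comp hC h1 h1',
      fixSol_comp h1' h1 h2 h2'⟩

private theorem ext_in {m : ι → Tor ι K} (hm : Std m)
    {A : (ι → ℤ) → Tor κ K → Tor ι K → Matrix σ σ K} (hA : CocSys m A) (S : Finset ι) :
    ∃ (C : ℝ) (L : Tor κ K → (Tor ι K → σ → K) → Tor ι K → σ → K), 0 ≤ C ∧
      OpB (qq m) (1 : ι → ℤ) (1 : ι → ℤ) (ind S) (2 : ι → ℤ) C L ∧
      FixSol m A (ind S) (2 : ι → ℤ) L := by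
  induction S using Finset.induction_on with
  | empty =>
    rw [ind_empty]
    have h := ext_out hm hA (Finset.univ : Finset ι)
    rw [ind_univ] at h
    exact h
  | insert i S hi ih =>
    obtain ⟨C, L, hC, h1, h2⟩ := ih
    obtain ⟨C', L', hC', h1', h2'⟩ := exists_stepIn hm hA (ind S) (2 : ι → ℤ)
      (ind_nonneg S) (fun _ => zero_le_two) i one_le_two
    rw [ind_insert S i hi] at h1' h2'
    exact ⟨C' * C, fun x s => L' x (L x s), mul_nonneg hC' hC, opB_comp hC h1 h1',
      fixSol_comp h1' h1 h2 h2'⟩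

theorem exists_ext {m : ι → Tor ι K} (hm : Std m)
    {A : (ι → ℤ) → Tor κ K → Tor ι K → Matrix σ σ K} (hA : CocSys m A) :
    ∃ (C : ℝ) (L : Tor κ K → (Tor ι K → σ → K) → Tor ι K → σ → K), 0 ≤ C ∧
      OpB (qq m) (1 : ι → ℤ) (1 : ι → ℤ) (2 : ι → ℤ) (2 : ι → ℤ) C L ∧
      FixSol m A (2 : ι → ℤ) (2 : ι → ℤ) L := by
  have h := ext_in hm hA (Finset.univ : Finset ι)
  rw [ind_univ] at h
  exact h

end Pool.Agent.Work.MP_6d379e_ag.Ab
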