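import Pool.Agent.Work.MP_6d379e_ag.Ab.Lpol

/-!
# Monomial maps and substitution   (size M)

* `isMono_mul` : add the exponent matrices and multiply the coefficients.  `isMono_zpow` : multiply
  the matrix by `n`.  `isMono_inl`, `isMono_inr` : the exponent matrix is the indicator of
  `z = Sum.inl j`.  `isMono_elim` : `Sum.elim` of the matrices.  `isMono_comp` : matrix product,
  coefficient `i ↦ s i * ∏ j, s' j ^ A i j`.  `isMono_coord` : build the matrix row by row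
  (choice).
* `anOn_isMono` : `lpol_mmap`.
* `isMono_ibox` : the norms of the coordinates of `mmap A s x` are
  `‖s i‖ * ∏ j, ‖x j‖ ^ A i j`, each factor lies between `r ^ (-|A i j|)` and `r ^ |A i j|`.
-/

namespace Pool.Agent.Work.MP_6d379e_ag.Ab

variable {ι κ κ' : Type*} [Fintype ι] [Fintype κ] [Fintype κ']
variable {K : Type*} [NontriviallyNormedField K]

private theorem mm_zpow_sum {G : Type*} [CommGroup G] {α : Type*} (S : Finset α) (f : α → ℤ)
    (x : G) : ∏ i ∈ S, x ^ f i = x ^ ∑ i ∈ S, f i := by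
  classical
  induction S using Finset.induction_on with
  | empty => simp
  | insert a S ha ih => rw [Finset.prod_insert ha, Finset.sum_insert ha, ih, zpow_add]

private theorem mmap_apply (A : ι → κ → ℤ) (s : Tor ι K) (x : Tor κ K) (i : ι) :
    mmap A s x i = s i * ∏ j, x j ^ A i j := rfl

private theorem mm_reindex (e : ι → κ) : IsMono (fun (x : Tor κ K) (i : ι) => x (e i)) := by
  classical
  refine ⟨fun i j => if j = e i then 1 else 0, 1, fun x => ?_⟩
  funext i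
  rw [mmap_apply, Finset.prod_eq_single (e i)]
  · rw [if_pos rfl, zpow_one, Pi.one_apply, one_mul]
  · intro j _ hj
    rw [if_neg hj, zpow_zero]
  · intro h
    exact absurd (Finset.mem_univ _) h

/-- both the norm and its inverse are at most `R` -/
private def Bd (R : ℝ) (x : Kˣ) : Prop := ‖(x : K)‖ ≤ R ∧ ‖(x : K)‖⁻¹ ≤ R

private theorem bd_nonneg {R : ℝ} {x : Kˣ} (h : Bd R x) : 0 ≤ R := (norm_nonneg _).trans h.1

private theorem bd_mul {R R' : ℝ} {x y : Kˣ} (h : Bd R x) (h' : Bd R' y) : Bd (R * R') (x * y) := by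
  constructor
  · rw [Units.val_mul, norm_mul]
    exact mul_le_mul h.1 h'.1 (norm_nonneg _) (bd_nonneg h)
  · rw [Units.val_mul, norm_mul, mul_inv]
    exact mul_le_mul h.2 h'.2 (inv_nonneg.2 (norm_nonneg _)) (bd_nonneg h)

private theorem bd_one : Bd 1 (1 : Kˣ) := by
  constructor
  · rw [Units.val_one, norm_one]
  · rw [Units.val_one, norm_one, inv_one]

private theorem bd_inv {R : ℝ} {x : Kˣ} (h : Bd R x) : Bd R x⁻¹ := by
  constructor
  · rw [Units.val_inv_eq_inv_val, norm_inv]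
    exact h.2
  · rw [Units.val_inv_eq_inv_val, norm_inv, inv_inv]
    exact h.1

private theorem bd_pow {R : ℝ} {x : Kˣ} (h : Bd R x) (n : ℕ) : Bd (R ^ n) (x ^ n) := by
  induction n with
  | zero =>
    rw [pow_zero, pow_zero]
    exact bd_one
  | succ n ih =>
    rw [pow_succ, pow_succ]
    exact bd_mul ih h

private theorem bd_zpow {R : ℝ} {x : Kˣ} (h : Bd R x) (n : ℤ) : Bd (R ^ n.natAbs) (x ^ n) := by
  rcases Int.natAbs_eq n with h1 | h1
  · have h2 : x ^ n = x ^ n.natAbs := by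
      conv_lhs => rw [h1]
      exact zpow_natCast x _
    rw [h2]
    exact bd_pow h _
  · have h2 : x ^ n = (x ^ n.natAbs)⁻¹ := by
      conv_lhs => rw [h1]
      rw [zpow_neg, zpow_natCast]
    rw [h2]
    exact bd_inv (bd_pow h _)

private theorem bd_prod {α : Type*} (S : Finset α) (R : α → ℝ) (x : α → Kˣ)
    (h : ∀ j ∈ S, Bd (R j) (x j)) : Bd (∏ j ∈ S, R j) (∏ j ∈ S, x j) := by
  classical
  induction S using Finset.induction_on with
  | empty =>
    rw [Finset.prod_empty, Finset.prod_empty]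
    exact bd_one
  | insert a S ha ih =>
    rw [Finset.prod_insert ha, Finset.prod_insert ha]
    exact bd_mul (h a (Finset.mem_insert_self a S)) (ih fun j hj => h j (Finset.mem_insert_of_mem hj))

theorem isMono_id : IsMono (fun t : Tor ι K => t) := mm_reindex id

theorem isMono_const (s : Tor ι K) : IsMono (fun _ : Tor κ K => s) := by
  refine ⟨0, s, fun x => ?_⟩
  funext i
  rw [mmap_apply]
  have h1 : ∏ j, x j ^ (0 : ι → κ → ℤ) i j = 1 :=
    Finset.prod_eq_one fun j _ => zpow_zero (x j)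
  rw [h1, mul_one]

theorem isMono_mul {τ σ : Tor κ K → Tor ι K} (hτ : IsMono τ) (hσ : IsMono σ) :
    IsMono (fun x => τ x * σ x) := by
  obtain ⟨A, s, h⟩ := hτ
  obtain ⟨A', s', h'⟩ := hσ
  refine ⟨fun i j => A i j + A' i j, s * s', fun x => ?_⟩
  show τ x * σ x = _
  funext i
  have h1 : ∏ j, x j ^ (A i j + A' i j) = (∏ j, x j ^ A i j) * ∏ j, x j ^ A' i j := by
    rw [← Finset.prod_mul_distrib]
    exact Finset.prod_congr rfl fun j _ => zpow_add (x j) _ _
  rw [Pi.mul_apply, h, h', mmap_apply, mmap_apply, mmap_apply, h1, Pi.mul_apply,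
    mul_mul_mul_comm]

theorem isMono_zpow (n : ℤ) {τ : Tor κ K → Tor ι K} (hτ : IsMono τ) :
    IsMono (fun x => τ x ^ n) := by
  obtain ⟨A, s, h⟩ := hτ
  refine ⟨fun i j => A i j * n, s ^ n, fun x => ?_⟩
  show τ x ^ n = _
  funext i
  have h1 : ∏ j, x j ^ (A i j * n) = (∏ j, x j ^ A i j) ^ n := by
    rw [← Finset.prod_zpow]
    exact Finset.prod_congr rfl fun j _ => zpow_mul (x j) _ _
  rw [Pi.pow_apply, h, mmap_apply, mmap_apply, h1, Pi.pow_apply, mul_zpow]

theorem isMono_pow (n : ℕ) {τ : Tor κ K → Tor ι K} (hτ : IsMono τ) :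
    IsMono (fun x => τ x ^ n) := by
  obtain ⟨A, s, h⟩ := isMono_zpow (n : ℤ) hτ
  refine ⟨A, s, fun x => ?_⟩
  rw [← h x]
  exact (zpow_natCast _ _).symm

theorem isMono_inv {τ : Tor κ K → Tor ι K} (hτ : IsMono τ) :
    IsMono (fun x => (τ x)⁻¹) := by
  obtain ⟨A, s, h⟩ := isMono_zpow (-1) hτ
  refine ⟨A, s, fun x => ?_⟩
  rw [← h x]
  exact (zpow_neg_one _).symm

theorem isMono_comp {τ : Tor κ K → Tor ι K} {σ : Tor κ' K → Tor κ K} (hτ : IsMono τ)
    (hσ : IsMono σ) : IsMono (fun x => τ (σ x)) := by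
  obtain ⟨A, s, h⟩ := hτ
  obtain ⟨A', s', h'⟩ := hσ
  refine ⟨fun i l => ∑ j, A' j l * A i j, fun i => s i * ∏ j, s' j ^ A i j, fun x => ?_⟩
  show τ (σ x) = _
  funext i
  have h1 : ∏ j, (σ x) j ^ A i j =
      (∏ j, s' j ^ A i j) * ∏ l, x l ^ ∑ j, A' j l * A i j := by
    have h2 : ∀ j, (σ x) j ^ A i j = s' j ^ A i j * ∏ l, x l ^ (A' j l * A i j) := by
      intro j
      rw [h', mmap_apply, mul_zpow, ← Finset.prod_zpow]
      congr 1
      exact Finset.prod_congr rfl fun l _ => (zpow_mul (x l) _ _).symm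
    simp only [h2]
    rw [Finset.prod_mul_distrib, Finset.prod_comm]
    congr 1
    exact Finset.prod_congr rfl fun l _ => mm_zpow_sum Finset.univ (fun j => A' j l * A i j) (x l)
  rw [h, mmap_apply, mmap_apply, h1, mul_assoc]

theorem isMono_inl : IsMono (fun (z : Tor (κ ⊕ ι) K) (j : κ) => z (Sum.inl j)) := mm_reindex Sum.inl

theorem isMono_inr : IsMono (fun (z : Tor (κ ⊕ ι) K) (i : ι) => z (Sum.inr i)) := mm_reindex Sum.inr

theorem isMono_elim {τ : Tor κ' K → Tor κ K} {σ : Tor κ' K → Tor ι K} (hτ : IsMono τ)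
    (hσ : IsMono σ) : IsMono (fun x => (Sum.elim (τ x) (σ x) : Tor (κ ⊕ ι) K)) := by
  obtain ⟨A, s, h⟩ := hτ
  obtain ⟨A', s', h'⟩ := hσ
  refine ⟨Sum.elim A A', Sum.elim s s', fun x => ?_⟩
  show Sum.elim (τ x) (σ x) = _
  funext i
  rcases i with i | i
  · rw [Sum.elim_inl, h, mmap_apply, mmap_apply, Sum.elim_inl, Sum.elim_inl]
  · rw [Sum.elim_inr, h', mmap_apply, mmap_apply, Sum.elim_inr, Sum.elim_inr]

/-- a map is monomial if each coordinate is the corresponding coordinate of a monomial map -/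
theorem isMono_coord {τ : Tor κ K → Tor ι K}
    (h : ∀ i, ∃ σ : Tor κ K → Tor ι K, IsMono σ ∧ ∀ x, τ x i = σ x i) : IsMono τ := by
  choose σ hσ hx using h
  choose A s hA using hσ
  refine ⟨fun i j => A i i j, fun i => s i i, fun x => ?_⟩
  funext i
  rw [hx, hA, mmap_apply, mmap_apply]

/-- reindexing of the coordinates -/
theorem isMono_reindex (e : ι → κ) : IsMono (fun (x : Tor κ K) (i : ι) => x (e i)) := mm_reindex e

theorem anOn_isMono {τ : Tor κ K → Tor ι K} (hτ : IsMono τ) {U : Set (Tor κ K)}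
    {V : Set (Tor ι K)} (hU : ∀ x ∈ U, τ x ∈ V) {f : Tor ι K → K} (hf : AnOn V f) :
    AnOn U (fun x => f (τ x)) := by
  obtain ⟨A, s, h⟩ := hτ
  intro ε hε
  obtain ⟨P, hP⟩ := hf ε hε
  obtain ⟨Q, hQ⟩ := lpol_mmap A s P
  refine ⟨Q, fun x hx => ?_⟩
  rw [hQ, ← h x]
  exact hP _ (hU x hx)

theorem isMono_ibox {τ : Tor κ K → Tor ι K} (hτ : IsMono τ) {r : ℝ} (hr : 1 ≤ r) :
    ∃ r' : ℝ, 1 ≤ r' ∧ ∀ x ∈ (ibox r : Set (Tor κ K)), τ x ∈ (ibox r' : Set (Tor ι K)) := by
  obtain ⟨A, s, h⟩ := hτ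
  have hr0 : 0 < r := lt_of_lt_of_le one_pos hr
  obtain ⟨b, hb⟩ : ∃ b : ι → ℝ, b = fun i =>
      (‖(s i : K)‖ + ‖(s i : K)‖⁻¹) * ∏ j, r ^ (A i j).natAbs := ⟨_, rfl⟩
  have hb0 : ∀ i, 0 ≤ b i := fun i => by
    rw [hb]
    positivity
  refine ⟨1 + ∑ i, b i, le_add_of_nonneg_right (Finset.sum_nonneg fun i _ => hb0 i),
    fun x hx i => ?_⟩
  have h1 : Bd (b i) (τ x i) := by
    rw [h, mmap_apply, hb]
    refine bd_mul ⟨le_add_of_nonneg_right (inv_nonneg.2 (norm_nonneg _)),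
      le_add_of_nonneg_left (norm_nonneg _)⟩ (bd_prod Finset.univ _ _ fun j _ => bd_zpow ?_ _)
    refine ⟨(hx j).2, ?_⟩
    exact inv_le_of_inv_le₀ hr0 (hx j).1
  have h2 : b i ≤ 1 + ∑ i, b i := by
    have := Finset.single_le_sum (fun i _ => hb0 i) (Finset.mem_univ i)
    linarith
  have h3 : 0 < ‖((τ x i : Kˣ) : K)‖ := norm_pos_iff.2 (Units.ne_zero _)
  exact ⟨inv_le_of_inv_le₀ h3 (h1.2.trans h2), h1.1.trans h2⟩

end Pool.Agent.Work.MP_6d379e_ag.Ab
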