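import Pool.Agent.Work.MP_6d379e_ag.Ab.Cf
import Pool.Agent.Work.MP_6d379e_ag.Ab.Mono

/-!
# Jointly analytic functions and coefficients in the fibres   (size M-L)

Let `F` be jointly analytic for `x` in the polycircle and `t ∈ BB q a b`, `0 ≤ a, b`.

By `exists_coef` on the product box, `J2 F = ser C` there, with `C` a family on
`κ ⊕ ι → ℤ`, and `Wt` of the product box at `Sum.elim k l` is `Wt q a b l` (`Wt_sum`).

* `an2_fib` : `t ↦ Sum.elim x t` is monomial and maps `BB q a b` into the product box.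
* `an2_xfib` : `x ↦ Sum.elim x t`, same, for `t ∈ BB q a b`.
* `an2_of_ser` : if `c · k` is analytic on `circ` for every `k`, and the terms are uniformly small
  off finite sets `S`, then `(x, t) ↦ ∑ k in S, c x k * mon k t` is jointly analytic (product of
  `c · k` composed with `z ↦ z ∘ inl` and of `mon k` composed with `z ↦ z ∘ inr`) and uniformly
  close to `F` (`ser_sub_sum_le` fibrewise; the fibre family is `Dec` because of the uniform
  estimate); `anOn_lim`.
* `fib_unif` : given `ε`, take a Laurent polynomial `P` on `κ ⊕ ι` within `ε` of `J2 F` on the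
  product box, and let `S` be the (finite) set of all `k = p ∘ inr`, `p ∈ P.support`.  For
  `x ∈ circ` the function `t ↦ lpol P (Sum.elim x t)` is a Laurent polynomial in `t` with exponents
  in `S`, so its `cf` vanishes at `k ∉ S`, and `cf_le` for the difference gives
  `‖cf (F x) k‖ * Wt q a b k ≤ ε`.
* `fib_cf_an` : same approximation: `x ↦ cf (lpol P (Sum.elim x ·)) k` is a Laurent polynomial in
  `x` (sum of `P p * mon (p ∘ inl) x` over `p` with `p ∘ inr = k`), within `ε` of `cf (F x) k`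
  by `cf_sub_le` (restrict to `circ ⊆ BB q a b`).
* `xcf_an`, `xcf_le` : the same with the roles of `x` and `t` exchanged: for `t ∈ BB q a b` the
  function `x ↦ F x t` is analytic on `circ`, its `k`-th coefficient is within `ε` of
  `∑ P p * mon (p ∘ inr) t` over `p` with `p ∘ inl = k`.
* `xcf_unif` : the same approximation, exponents `k` outside the finite set of `p ∘ inl`.
-/

namespace Pool.Agent.Work.MP_6d379e_ag.Ab

variable {ι κ : Type*} [Fintype ι] [Fintype κ]
variable {K : Type*} [NontriviallyNormedField K] [IsUltrametricDist K]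
variable [CompleteSpace K] [IsAlgClosed K] [CharZero K]
variable {q : Tor ι K} {a b : ι → ℤ} {F : Tor κ K → Tor ι K → K}

omit [IsUltrametricDist K] [CompleteSpace K] [IsAlgClosed K] [CharZero K] in
private theorem fb_mem {x : Tor κ K} (hx : x ∈ (circ : Set (Tor κ K))) {t : Tor ι K}
    (ht : t ∈ BB q a b) : (Sum.elim x t : Tor (κ ⊕ ι) K) ∈
      BB (Sum.elim (1 : Tor κ K) q) (Sum.elim (0 : κ → ℤ) a) (Sum.elim (0 : κ → ℤ) b) :=
  (mem_BB_sum q a b _).2 ⟨hx, ht⟩

omit [IsUltrametricDist K] [CompleteSpace K] [IsAlgClosed K] [CharZero K] in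
private theorem fb_mon (p : κ ⊕ ι → ℤ) (x : Tor κ K) (t : Tor ι K) :
    mon p (Sum.elim x t : Tor (κ ⊕ ι) K) =
      mon (fun j => p (Sum.inl j)) x * mon (fun i => p (Sum.inr i)) t := by
  have h1 : p = Sum.elim (fun j => p (Sum.inl j)) (fun i => p (Sum.inr i)) := by
    funext z
    rcases z with z | z <;> rfl
  conv_lhs => rw [h1]
  rw [mon_elim]
  rfl

omit [IsUltrametricDist K] [CompleteSpace K] [IsAlgClosed K] [CharZero K] in
private theorem fb_lpol_t (P : (κ ⊕ ι → ℤ) →₀ K) (x : Tor κ K) (t : Tor ι K) :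
    lpol P (Sum.elim x t : Tor (κ ⊕ ι) K) = ∑ p ∈ P.support,
      (P p * mon (fun j => p (Sum.inl j)) x) * mon (fun i => p (Sum.inr i)) t := by
  unfold lpol Finsupp.sum
  refine Finset.sum_congr rfl fun p _ => ?_
  show P p * mon p (Sum.elim x t) = _
  rw [fb_mon, mul_assoc]

omit [IsUltrametricDist K] [CompleteSpace K] [IsAlgClosed K] [CharZero K] in
private theorem fb_lpol_x (P : (κ ⊕ ι → ℤ) →₀ K) (x : Tor κ K) (t : Tor ι K) :
    lpol P (Sum.elim x t : Tor (κ ⊕ ι) K) = ∑ p ∈ P.support,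
      (P p * mon (fun i => p (Sum.inr i)) t) * mon (fun j => p (Sum.inl j)) x := by
  rw [fb_lpol_t]
  refine Finset.sum_congr rfl fun p _ => ?_
  ring

private theorem fb_cf [DecidableEq (ι → ℤ)] {α : Type*} (S : Finset α) (c : α → K) (e : α → ι → ℤ) (k : ι → ℤ) :
    cf (fun t : Tor ι K => ∑ p ∈ S, c p * mon (e p) t) k =
      ∑ p ∈ S, if e p = k then c p else 0 := by
  rw [cf_sum S (F := fun p t => c p * mon (e p) t) (fun p _ => anOn_smul _ (anOn_mon _ _))]
  refine Finset.sum_congr rfl fun p _ => ?_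
  rw [cf_smul _ (anOn_mon _ _)]
  split_ifs with h
  · rw [← h, cf_mon, mul_one]
  · rw [cf_mon_ne h, mul_zero]

omit [IsUltrametricDist K] [CompleteSpace K] [IsAlgClosed K] [CharZero K] in
private theorem fb_an {α : Type*} (U : Set (Tor ι K)) (S : Finset α) (c : α → K)
    (e : α → ι → ℤ) : AnOn U (fun t : Tor ι K => ∑ p ∈ S, c p * mon (e p) t) :=
  anOn_sum S (F := fun p t => c p * mon (e p) t) fun p _ => anOn_smul _ (anOn_mon _ _)

omit [IsUltrametricDist K] [CompleteSpace K] [IsAlgClosed K] [CharZero K] in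
private theorem fb_an_if {α : Type*} (U : Set (Tor ι K)) (S : Finset α) (c : α → K)
    (e : α → ι → ℤ) (r : α → Prop) [DecidablePred r] :
    AnOn U (fun t : Tor ι K => ∑ p ∈ S, if r p then c p * mon (e p) t else 0) := by
  refine anOn_sum S (F := fun p t => if r p then c p * mon (e p) t else 0) fun p _ => ?_
  by_cases h : r p
  · simp only [if_pos h]
    exact anOn_smul _ (anOn_mon _ _)
  · simp only [if_neg h]
    exact anOn_const _ _

theorem an2_fib (hF : An2 q a b F) {x : Tor κ K} (hx : x ∈ (circ : Set (Tor κ K))) :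
    AnOn (BB q a b) (F x) := by
  have h1 := anOn_isMono (isMono_elim (isMono_const x) isMono_id)
    (U := BB q a b) (fun t ht => fb_mem hx ht) hF
  exact h1

theorem an2_xfib (hF : An2 q a b F) {t : Tor ι K} (ht : t ∈ BB q a b) :
    AnOn circ (fun x => F x t) := by
  have h1 := anOn_isMono (isMono_elim isMono_id (isMono_const t))
    (U := (circ : Set (Tor κ K))) (fun x hx => fb_mem hx ht) hF
  exact h1

theorem fib_unif (hq : ∀ i, ‖(q i : K)‖ ≤ 1) (ha : ∀ i, 0 ≤ a i) (hb : ∀ i, 0 ≤ b i)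
    (hF : An2 q a b F) {ε : ℝ} (hε : 0 < ε) :
    ∃ S : Finset (ι → ℤ), ∀ x ∈ (circ : Set (Tor κ K)), ∀ k, k ∉ S →
      ‖cf (F x) k‖ * Wt q a b k ≤ ε := by
  classical
  obtain ⟨P, hP⟩ := hF ε hε
  refine ⟨P.support.image fun p i => p (Sum.inr i), fun x hx k hk => ?_⟩
  have hsub := circ_subset_BB hq ha hb
  have a1 := an2_fib hF hx
  have a2 : AnOn (BB q a b) (fun t => ∑ p ∈ P.support,
      (P p * mon (fun j => p (Sum.inl j)) x) * mon (fun i => p (Sum.inr i)) t) :=
    fb_an _ P.support (fun p => P p * mon (fun j => p (Sum.inl j)) x) _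
  have h1 : cf (fun t => ∑ p ∈ P.support,
      (P p * mon (fun j => p (Sum.inl j)) x) * mon (fun i => p (Sum.inr i)) t) k = 0 := by
    rw [fb_cf P.support (fun p => P p * mon (fun j => p (Sum.inl j)) x)
      (fun p i => p (Sum.inr i)) k]
    refine Finset.sum_eq_zero fun p hp => if_neg fun h => hk ?_
    exact Finset.mem_image.2 ⟨p, hp, h⟩
  have h2 := cf_le hq ha hb (anOn_sub a1 a2) (C := ε) (by
    intro t ht
    have h3 := hP _ (fb_mem hx ht)
    rw [fb_lpol_t] at h3
    exact h3) k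
  rw [cf_sub (anOn_mono hsub a1) (anOn_mono hsub a2), Pi.sub_apply, h1, sub_zero] at h2
  exact h2

theorem fib_cf_an (hq : ∀ i, ‖(q i : K)‖ ≤ 1) (ha : ∀ i, 0 ≤ a i) (hb : ∀ i, 0 ≤ b i)
    (hF : An2 q a b F) (k : ι → ℤ) : AnOn circ (fun x => cf (F x) k) := by
  classical
  have hsub := circ_subset_BB hq ha hb
  refine anOn_lim fun ε hε => ?_
  obtain ⟨P, hP⟩ := hF ε hε
  refine ⟨fun x => ∑ p ∈ P.support, if (fun i => p (Sum.inr i)) = k then
    P p * mon (fun j => p (Sum.inl j)) x else 0,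
    fb_an_if _ P.support (fun p => P p) (fun p j => p (Sum.inl j))
      (fun p => (fun i => p (Sum.inr i)) = k), fun x hx => ?_⟩
  have a2 : AnOn circ (fun t => ∑ p ∈ P.support,
      (P p * mon (fun j => p (Sum.inl j)) x) * mon (fun i => p (Sum.inr i)) t) :=
    fb_an _ P.support (fun p => P p * mon (fun j => p (Sum.inl j)) x) _
  have h1 := cf_sub_le (anOn_mono hsub (an2_fib hF hx)) a2 (δ := ε) (by
    intro t ht
    have h3 := hP _ (fb_mem hx (hsub ht))
    rw [fb_lpol_t] at h3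
    exact h3) k
  rw [fb_cf P.support (fun p => P p * mon (fun j => p (Sum.inl j)) x)
      (fun p i => p (Sum.inr i)) k] at h1
  exact h1

theorem an2_of_ser {c : Tor κ K → (ι → ℤ) → K} (hc : ∀ k, AnOn circ (fun x => c x k))
    (hu : ∀ ε : ℝ, 0 < ε → ∃ S : Finset (ι → ℤ), ∀ x ∈ (circ : Set (Tor κ K)), ∀ k, k ∉ S →
      ‖c x k‖ * Wt q a b k ≤ ε) : An2 q a b (fun x t => ser (c x) t) := by
  refine anOn_lim fun ε hε => ?_
  obtain ⟨S, hS⟩ := hu ε hε
  have m1 : ∀ z ∈ BB (Sum.elim (1 : Tor κ K) q) (Sum.elim (0 : κ → ℤ) a)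
      (Sum.elim (0 : κ → ℤ) b), (fun j => z (Sum.inl j)) ∈ (circ : Set (Tor κ K)) :=
    fun z hz => ((mem_BB_sum q a b z).1 hz).1
  have m2 : ∀ z ∈ BB (Sum.elim (1 : Tor κ K) q) (Sum.elim (0 : κ → ℤ) a)
      (Sum.elim (0 : κ → ℤ) b), (fun i => z (Sum.inr i)) ∈ BB q a b :=
    fun z hz => ((mem_BB_sum q a b z).1 hz).2
  refine ⟨fun z => ∑ k ∈ S, c (fun j => z (Sum.inl j)) k * mon k (fun i => z (Sum.inr i)),
    ?_, fun z hz => ?_⟩
  · refine anOn_sum S (F := fun k z => c (fun j => z (Sum.inl j)) k *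
      mon k (fun i => z (Sum.inr i))) fun k _ => ?_
    exact anOn_mul (anOn_isMono isMono_inl m1 (hc k)) (anOn_isMono isMono_inr m2 (anOn_mon _ k))
  · have hdec : Dec q a b (c fun j => z (Sum.inl j)) := by
      intro ε' hε'
      obtain ⟨S', hS'⟩ := hu ε' hε'
      refine (Finset.finite_toSet S').subset fun k hk => ?_
      by_contra hcon
      exact absurd (hS' _ (m1 z hz) k hcon) (not_le.2 hk)
    exact ser_sub_sum_le hdec (m2 z hz) S hε.le (fun k hk => hS _ (m1 z hz) k hk)

theorem xcf_an (hF : An2 q a b F) (k : κ → ℤ) :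
    AnOn (BB q a b) (fun t => cf (fun x => F x t) k) := by
  classical
  refine anOn_lim fun ε hε => ?_
  obtain ⟨P, hP⟩ := hF ε hε
  refine ⟨fun t => ∑ p ∈ P.support, if (fun j => p (Sum.inl j)) = k then
    P p * mon (fun i => p (Sum.inr i)) t else 0,
    fb_an_if _ P.support (fun p => P p) (fun p i => p (Sum.inr i))
      (fun p => (fun j => p (Sum.inl j)) = k), fun t ht => ?_⟩
  have a2 : AnOn circ (fun x => ∑ p ∈ P.support,
      (P p * mon (fun i => p (Sum.inr i)) t) * mon (fun j => p (Sum.inl j)) x) :=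
    fb_an _ P.support (fun p => P p * mon (fun i => p (Sum.inr i)) t) _
  have h1 := cf_sub_le (an2_xfib hF ht) a2 (δ := ε) (by
    intro x hx
    have h3 := hP _ (fb_mem hx ht)
    rw [fb_lpol_x] at h3
    exact h3) k
  rw [fb_cf P.support (fun p => P p * mon (fun i => p (Sum.inr i)) t)
      (fun p j => p (Sum.inl j)) k] at h1
  exact h1

theorem xcf_le (hF : An2 q a b F) {C : ℝ}
    (h : ∀ x ∈ (circ : Set (Tor κ K)), ∀ t ∈ BB q a b, ‖F x t‖ ≤ C) (k : κ → ℤ)
    {t : Tor ι K} (ht : t ∈ BB q a b) : ‖cf (fun x => F x t) k‖ ≤ C :=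
  cf_le_circ (an2_xfib hF ht) (fun x hx => h x hx t ht) k

theorem xcf_unif (hF : An2 q a b F) {ε : ℝ} (hε : 0 < ε) :
    ∃ S : Finset (κ → ℤ), ∀ t ∈ BB q a b, ∀ k, k ∉ S → ‖cf (fun x => F x t) k‖ ≤ ε := by
  classical
  obtain ⟨P, hP⟩ := hF ε hε
  refine ⟨P.support.image fun p j => p (Sum.inl j), fun t ht k hk => ?_⟩
  have a2 : AnOn circ (fun x => ∑ p ∈ P.support,
      (P p * mon (fun i => p (Sum.inr i)) t) * mon (fun j => p (Sum.inl j)) x) :=
    fb_an _ P.support (fun p => P p * mon (fun i => p (Sum.inr i)) t) _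
  have h1 := cf_sub_le (an2_xfib hF ht) a2 (δ := ε) (by
    intro x hx
    have h3 := hP _ (fb_mem hx ht)
    rw [fb_lpol_x] at h3
    exact h3) k
  have h2 : cf (fun x => ∑ p ∈ P.support,
      (P p * mon (fun i => p (Sum.inr i)) t) * mon (fun j => p (Sum.inl j)) x) k = 0 := by
    rw [fb_cf P.support (fun p => P p * mon (fun i => p (Sum.inr i)) t)
      (fun p j => p (Sum.inl j)) k]
    refine Finset.sum_eq_zero fun p hp => if_neg fun h => hk ?_
    exact Finset.mem_image.2 ⟨p, hp, h⟩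
  rw [h2, sub_zero] at h1
  exact h1

end Pool.Agent.Work.MP_6d379e_ag.Ab
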