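import Pool.Agent.Work.MP_6d379e_ag.Ab.XDefs
import Pool.Agent.Work.MP_6d379e_ag.Ab.Lat

/-!
# Extension of local solutions: the functional equation   (size M)

* `loc_path` : let `u` and `lat m n * u` lie in `B = BB (qq m) 1 1`.  Then
  `s u = A n x u *ᵥ s (lat m n * u)`.  Induction on `∑ i, |n i|`.  For `n = 0` this is `LocSol`
  with `l = 0`.  Otherwise choose `i` with `n i ≠ 0`, let `ε = 1` or `-1` be the sign of `n i`,
  `e = Pi.single i ε`.  Then `u' = lat m e * u ∈ B`: only the norm of the `i`-th coordinate changes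
  (`norm_lat`), and `‖q i‖ ^ ε * ‖u i‖` lies between `‖u i‖` and `‖q i‖ ^ n i * ‖u i‖` (or use
  `lat_mul_mem_BB`: `u ∈ BB q 1 1` and `u ∈ BB q (1 - n) (1 + n)` give `u ∈ BB q (1 - e) (1 + e)`).
  So `s u = A e x u *ᵥ s u'`, and by induction `s u' = A (n - e) x u' *ᵥ s (lat m (n - e) * u')`,
  and `A e x u * A (n - e) x u' = A n x u` by the cocycle rule.
* `gx_eq` : let `l` be the chosen index in the definition of `Gx` and `l'` another one with
  `lat m l' * t ∈ B`.  Apply `loc_path` to `u = lat m l * t`, `n = l' - l`, and the cocycle rule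
  `A l x t * A (l' - l) x (lat m l * t) = A l' x t`.
* `gx_eqn` : choose `l'` with `lat m l' * (lat m l * t) ∈ B` (`exists_lat_mem_one`); both sides are
  `A (l' + l) x t *ᵥ s (...)`.
* `gx_local` : `l = 0` and `LocSol` with `l = 0`.
* `gx_add`, `gx_smul`, `gx_congr` : immediate from the definition (the chosen index does not depend
  on `s`).
* `gx_ext` : two solutions in `Sol m A x` which agree on `B` are equal: functional equation and
  `exists_lat_mem_one`.
-/

namespace Pool.Agent.Work.MP_6d379e_ag.Ab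

variable {ι κ σ : Type*} [Fintype ι] [Fintype κ] [Fintype σ] [DecidableEq ι]
variable {K : Type*} [NontriviallyNormedField K]
variable {m : ι → Tor ι K} {A : (ι → ℤ) → Tor κ K → Tor ι K → Matrix σ σ K}
variable {x : Tor κ K} {s s' : Tor ι K → σ → K}

omit [Fintype κ] [Fintype σ] [DecidableEq ι] in
private theorem zpow_anti {y : ℝ} (h0 : 0 < y) (h1 : y ≤ 1) {k l : ℤ} (h : k ≤ l) :
    y ^ l ≤ y ^ k := zpow_le_zpow_right_of_le_one₀ h0 h1 h

private theorem lat_sub_mul (m : ι → Tor ι K) (n e : ι → ℤ) (u : Tor ι K) :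
    lat m (n - e) * (lat m e * u) = lat m n * u := by
  rw [← lat_add_mul, sub_add_cancel]

private theorem loc_path_aux (hm : Std m) (hA : CocSys m A) (hx : x ∈ (circ : Set (Tor κ K)))
    (hs : LocSol m A x s) (N : ℕ) : ∀ (n : ι → ℤ), ∑ i, (n i).natAbs = N → ∀ u : Tor ι K,
    u ∈ BB (qq m) (1 : ι → ℤ) (1 : ι → ℤ) →
    lat m n * u ∈ BB (qq m) (1 : ι → ℤ) (1 : ι → ℤ) →
    s u = (A n x u).mulVec (s (lat m n * u)) := by
  induction N with
  | zero =>
    intro n hn u hu hnu
    have h0 : n = 0 := by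
      funext i
      have h1 := (Finset.sum_eq_zero_iff.1 hn) i (Finset.mem_univ i)
      exact Int.natAbs_eq_zero.1 h1
    subst h0
    exact hs 0 (Or.inl rfl) u hu hnu
  | succ N ih =>
    intro n hn u hu hnu
    have hex : ∃ i, n i ≠ 0 := by
      by_contra hcon
      push Not at hcon
      have h1 : ∑ i, (n i).natAbs = 0 := Finset.sum_eq_zero fun i _ => by rw [hcon i]; rfl
      omega
    obtain ⟨i, hi⟩ := hex
    have hstep : ∀ ε : ℤ, (ε = 1 ∨ ε = -1) → (n i - ε).natAbs + 1 = (n i).natAbs →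
        ((0 < n i ∧ ε = 1) ∨ (n i < 0 ∧ ε = -1)) →
        s u = (A n x u).mulVec (s (lat m n * u)) := by
      intro ε hε habs hcase
      have he : ∀ j, (Pi.single i ε : ι → ℤ) j = if j = i then ε else 0 := fun j => by
        rw [Pi.single_apply]
      have hq0 : ∀ j, 0 < ‖(qq m j : K)‖ := fun j => norm_pos_iff.2 (qq m j).ne_zero
      have hnu' := (lat_mul_mem_BB hm n 1 1 u).1 hnu
      have hu' : lat m (Pi.single i ε) * u ∈ BB (qq m) (1 : ι → ℤ) (1 : ι → ℤ) := by
        rw [lat_mul_mem_BB hm]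
        intro j
        have h1 := hu j
        have h2 := hnu' j
        simp only [Pi.sub_apply, Pi.add_apply, Pi.one_apply] at h1 h2 ⊢
        rw [he j]
        by_cases hj : j = i
        · subst hj
          rw [if_pos rfl]
          rcases hcase with ⟨h3, h4⟩ | ⟨h3, h4⟩
          · subst h4
            exact ⟨(zpow_anti (hq0 j) (qq_le hm j) (by omega)).trans h2.1,
              h1.2.trans (zpow_anti (hq0 j) (qq_le hm j) (by omega))⟩
          · subst h4
            exact ⟨(zpow_anti (hq0 j) (qq_le hm j) (by omega)).trans h1.1,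
              h2.2.trans (zpow_anti (hq0 j) (qq_le hm j) (by omega))⟩
        · rw [if_neg hj, sub_zero, add_zero]
          exact h1
      have hl : (Pi.single i ε : ι → ℤ) = 0 ∨ ∃ i', (Pi.single i ε : ι → ℤ) = Pi.single i' 1 ∨
          (Pi.single i ε : ι → ℤ) = Pi.single i' (-1) := by
        right
        refine ⟨i, ?_⟩
        rcases hε with h | h
        · left
          rw [h]
        · right
          rw [h]
      have h1 := hs (Pi.single i ε) hl u hu hu'
      have hN : ∑ j, ((n - (Pi.single i ε : ι → ℤ)) j).natAbs = N := by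
        have h2 : ∑ j, ((n - (Pi.single i ε : ι → ℤ)) j).natAbs + 1 = ∑ j, (n j).natAbs := by
          rw [← Finset.add_sum_erase Finset.univ _ (Finset.mem_univ i),
            ← Finset.add_sum_erase Finset.univ (fun j => (n j).natAbs) (Finset.mem_univ i)]
          have h3 : ∑ j ∈ Finset.univ.erase i, ((n - (Pi.single i ε : ι → ℤ)) j).natAbs =
              ∑ j ∈ Finset.univ.erase i, (n j).natAbs := by
            refine Finset.sum_congr rfl fun j hj => ?_
            rw [Pi.sub_apply, he j, if_neg (Finset.ne_of_mem_erase hj), sub_zero]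
          rw [h3, Pi.sub_apply, he i, if_pos rfl]
          omega
        omega
      have h2 := ih (n - Pi.single i ε) hN (lat m (Pi.single i ε) * u) hu'
        (by rw [lat_sub_mul]; exact hnu)
      rw [lat_sub_mul] at h2
      have h3 := hA.coc (Pi.single i ε) (n - Pi.single i ε) x hx u
      rw [add_sub_cancel] at h3
      rw [h3, ← Matrix.mulVec_mulVec, ← h2]
      exact h1
    rcases lt_or_gt_of_ne hi with h | h
    · exact hstep (-1) (Or.inr rfl) (by omega) (Or.inr ⟨h, rfl⟩)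
    · exact hstep 1 (Or.inl rfl) (by omega) (Or.inl ⟨h, rfl⟩)

theorem loc_path (hm : Std m) (hA : CocSys m A) (hx : x ∈ (circ : Set (Tor κ K)))
    (hs : LocSol m A x s) (n : ι → ℤ) {u : Tor ι K}
    (hu : u ∈ BB (qq m) (1 : ι → ℤ) (1 : ι → ℤ))
    (hn : lat m n * u ∈ BB (qq m) (1 : ι → ℤ) (1 : ι → ℤ)) :
    s u = (A n x u).mulVec (s (lat m n * u)) :=
  loc_path_aux hm hA hx hs _ n rfl u hu hn

theorem gx_eq (hm : Std m) (hA : CocSys m A) (hx : x ∈ (circ : Set (Tor κ K)))
    (hs : LocSol m A x s) (l : ι → ℤ) (t : Tor ι K)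
    (hl : lat m l * t ∈ BB (qq m) (1 : ι → ℤ) (1 : ι → ℤ)) :
    Gx m A x s t = (A l x t).mulVec (s (lat m l * t)) := by
  have hex : ∃ l : ι → ℤ, lat m l * t ∈ BB (qq m) (1 : ι → ℤ) (1 : ι → ℤ) := ⟨l, hl⟩
  have h0 : Gx m A x s t = (A hex.choose x t).mulVec (s (lat m hex.choose * t)) := by
    unfold Gx
    rw [dif_pos hex]
  rw [h0]
  have h1 := loc_path hm hA hx hs (l - hex.choose) (u := lat m hex.choose * t) hex.choose_spec
    (by rw [lat_sub_mul]; exact hl)
  rw [lat_sub_mul] at h1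
  have h3 := hA.coc hex.choose (l - hex.choose) x hx t
  rw [add_sub_cancel] at h3
  rw [h3, ← Matrix.mulVec_mulVec, ← h1]

theorem gx_eqn (hm : Std m) (hA : CocSys m A) (hx : x ∈ (circ : Set (Tor κ K)))
    (hs : LocSol m A x s) (l : ι → ℤ) (t : Tor ι K) :
    Gx m A x s t = (A l x t).mulVec (Gx m A x s (lat m l * t)) := by
  obtain ⟨l', hl'⟩ := exists_lat_mem_one hm (lat m l * t)
  rw [gx_eq hm hA hx hs l' (lat m l * t) hl']
  have h1 : lat m (l + l') * t = lat m l' * (lat m l * t) := by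
    rw [add_comm, lat_add_mul]
  rw [gx_eq hm hA hx hs (l + l') t (by rw [h1]; exact hl'), h1, hA.coc l l' x hx t,
    ← Matrix.mulVec_mulVec]

theorem gx_local (hm : Std m) (hA : CocSys m A) (hx : x ∈ (circ : Set (Tor κ K)))
    (hs : LocSol m A x s) {t : Tor ι K} (ht : t ∈ BB (qq m) (1 : ι → ℤ) (1 : ι → ℤ)) :
    Gx m A x s t = s t := by
  have h1 : lat m 0 * t ∈ BB (qq m) (1 : ι → ℤ) (1 : ι → ℤ) := by
    rw [lat_zero, one_mul]
    exact ht
  rw [gx_eq hm hA hx hs 0 t h1]
  exact (hs 0 (Or.inl rfl) t ht h1).symm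

theorem gx_add (m : ι → Tor ι K) (A : (ι → ℤ) → Tor κ K → Tor ι K → Matrix σ σ K) (x : Tor κ K)
    (s s' : Tor ι K → σ → K) : Gx m A x (s + s') = Gx m A x s + Gx m A x s' := by
  funext t
  show Gx m A x (s + s') t = Gx m A x s t + Gx m A x s' t
  unfold Gx
  split_ifs with h
  · rw [Pi.add_apply, Matrix.mulVec_add]
  · rw [add_zero]

theorem gx_smul (m : ι → Tor ι K) (A : (ι → ℤ) → Tor κ K → Tor ι K → Matrix σ σ K) (x : Tor κ K)
    (c : K) (s : Tor ι K → σ → K) : Gx m A x (c • s) = c • Gx m A x s := by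
  funext t
  show Gx m A x (c • s) t = c • Gx m A x s t
  unfold Gx
  split_ifs with h
  · rw [Pi.smul_apply, Matrix.mulVec_smul]
  · rw [smul_zero]

theorem gx_congr (m : ι → Tor ι K) (A : (ι → ℤ) → Tor κ K → Tor ι K → Matrix σ σ K) (x : Tor κ K)
    (h : ∀ t ∈ BB (qq m) (1 : ι → ℤ) (1 : ι → ℤ), s t = s' t) :
    Gx m A x s = Gx m A x s' := by
  funext t
  unfold Gx
  split_ifs with h1
  · rw [h _ h1.choose_spec]
  · rfl

theorem sol_ext (hm : Std m) (hs : s ∈ Sol m A x) (hs' : s' ∈ Sol m A x)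
    (h : ∀ t ∈ BB (qq m) (1 : ι → ℤ) (1 : ι → ℤ), s t = s' t) : s = s' := by
  funext t
  obtain ⟨l, hl⟩ := exists_lat_mem_one hm t
  rw [hs.2 l t, hs'.2 l t, h _ hl]

theorem sol_loc (hs : s ∈ Sol m A x) : LocSol m A x s :=
  fun l _ t _ _ => hs.2 l t

end Pool.Agent.Work.MP_6d379e_ag.Ab
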