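import Pool.Agent.Work.MP_6d379e_ag.Ab.FinRep
import Pool.Agent.Work.MP_6d379e_ag.Ab.GxA

/-!
# The finite model of the solution spaces   (size M-L)

Take `N`, `β`, `k`, `i` from `exists_finRep`.  Let `q = qq m`.  The rows (functions
`ρ : Tor κ K → Fin N → K`) are:

(i) for `l = 0`, `l = Pi.single i0 1` or `l = Pi.single i0 (-1)`, for `j0 : σ` and `k0 : ι → ℤ`:
`ρ x j = cf (fun t => (β j x t - (A l x t) *ᵥ β j x (lat m l * t)) j0) k0`.
The set of `t` with `t ∈ BB q 1 1` and `lat m l * t ∈ BB q 1 1` is a box `W_l`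
(`lat_mul_mem_BB`): `BB q 1 1`, `BB q (1 - e) 1`, `BB q 1 (1 - e)` with `e = Pi.single i0 1`; all
exponents are nonnegative.  The function inside is jointly analytic on `circ x W_l`, so `ρ · j` is
analytic on `circ` (`fib_cf_an`).

(ii) for `j0 : Fin N` : `ρ x j = (if j = j0 then 1 else 0) - cf (fun t => β j x t (i j0)) (k j0)`;
again analytic by `fib_cf_an` on `BB q 1 1`.

Let `x ∈ circ` and `c ∈ kerR R x`.  By linearity of `cf` (`cf_sum`, `cf_smul`) rows (i) say that all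
coefficients of `(s_c t - A l x t *ᵥ s_c (lat m l * t)) j0`, `s_c = ∑ j, c j • β j x`, vanish, so
this function vanishes on `W_l` (`hull_eq`): this is `LocSol`.  If `s_c = 0` on `BB q 1 1`, rows
(ii) give `c j0 = cf (s_c · (i j0)) (k j0) = 0` (`cf_eq_zero`).
Let `s ∈ Sol m A x`, `c j = cf (s · (i j)) (k j)`; then `s = s_c` on `BB q 1 1`, rows (i) vanish
because the functions in question vanish on `W_l ⊇ circ` (`cf_eq_zero` after linearity), and rows
(ii) because `cf (s_c · (i j0)) (k j0) = cf (s · (i j0)) (k j0) = c j0` (`cf_congr`).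
-/

namespace Pool.Agent.Work.MP_6d379e_ag.Ab

variable {ι κ σ : Type*} [Fintype ι] [Fintype κ] [Fintype σ] [DecidableEq ι]
variable {K : Type*} [NontriviallyNormedField K] [IsUltrametricDist K]
variable [CompleteSpace K] [IsAlgClosed K] [CharZero K]

private def fmP (l : ι → ℤ) : Prop :=
  l = 0 ∨ ∃ i, l = Pi.single i 1 ∨ l = Pi.single i (-1)

private def fmA (l : ι → ℤ) : ι → ℤ := fun i => min 1 (1 - l i)

private def fmB (l : ι → ℤ) : ι → ℤ := fun i => min 1 (1 + l i)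

omit [Fintype ι] in
private theorem fm_nonneg {l : ι → ℤ} (h : fmP l) :
    (∀ i, 0 ≤ fmA l i) ∧ ∀ i, 0 ≤ fmB l i := by
  have h1 : ∀ i, -1 ≤ l i ∧ l i ≤ 1 := by
    intro i
    rcases h with h | ⟨i0, h | h⟩
    · rw [h]
      exact ⟨by norm_num, by norm_num⟩
    · rw [h, Pi.single_apply]
      split_ifs <;> norm_num
    · rw [h, Pi.single_apply]
      split_ifs <;> norm_num
  refine ⟨fun i => ?_, fun i => ?_⟩
  · have := h1 i
    show 0 ≤ min 1 (1 - l i)
    exact le_min (by norm_num) (by omega)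
  · have := h1 i
    show 0 ≤ min 1 (1 + l i)
    exact le_min (by norm_num) (by omega)

omit [DecidableEq ι] [IsUltrametricDist K] [CompleteSpace K] [IsAlgClosed K] [CharZero K] in
private theorem fm_mem {m : ι → Tor ι K} (hm : Std m) (l : ι → ℤ) (t : Tor ι K) :
    t ∈ BB (qq m) (fmA l) (fmB l) ↔
      t ∈ BB (qq m) (1 : ι → ℤ) (1 : ι → ℤ) ∧ lat m l * t ∈ BB (qq m) (1 : ι → ℤ) (1 : ι → ℤ) := by
  rw [lat_mul_mem_BB hm]
  constructor
  · intro h
    exact ⟨BB_mono (qq_le hm) (fun i => min_le_left _ _) (fun i => min_le_left _ _) h,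
      BB_mono (qq_le hm) (fun i => min_le_right _ _) (fun i => min_le_right _ _) h⟩
  · rintro ⟨h1, h2⟩ i
    refine ⟨?_, ?_⟩
    · show ‖(qq m i : K)‖ ^ (min 1 (1 - l i)) ≤ ‖(t i : K)‖
      rcases min_choice 1 (1 - l i) with h | h
      · rw [h]
        exact (h1 i).1
      · rw [h]
        exact (h2 i).1
    · show ‖(t i : K)‖ ≤ ‖(qq m i : K)‖ ^ (-(min 1 (1 + l i)))
      rcases min_choice 1 (1 + l i) with h | h
      · rw [h]
        exact (h1 i).2
      · rw [h]
        exact (h2 i).2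

omit [DecidableEq ι] in
private theorem fm_an2 {m : ι → Tor ι K} (hm : Std m)
    {A : (ι → ℤ) → Tor κ K → Tor ι K → Matrix σ σ K} (hA : CocSys m A)
    {β : Tor κ K → Tor ι K → σ → K} (hβ : An2V (qq m) (1 : ι → ℤ) (1 : ι → ℤ) β)
    (l : ι → ℤ) (j0 : σ) :
    An2 (qq m) (fmA l) (fmB l)
      (fun x t => β x t j0 - ((A l x t).mulVec (β x (lat m l * t))) j0) := by
  have hsub : ∀ z : Tor (κ ⊕ ι) K,
      z ∈ BB (Sum.elim (1 : Tor κ K) (qq m)) (Sum.elim (0 : κ → ℤ) (fmA l))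
        (Sum.elim (0 : κ → ℤ) (fmB l)) →
      z ∈ BB (Sum.elim (1 : Tor κ K) (qq m)) (Sum.elim (0 : κ → ℤ) (1 : ι → ℤ))
        (Sum.elim (0 : κ → ℤ) (1 : ι → ℤ)) := by
    intro z hz
    rw [mem_BB_sum] at hz ⊢
    exact ⟨hz.1, ((fm_mem hm l _).1 hz.2).1⟩
  have h1 : An2 (qq m) (fmA l) (fmB l) (fun x t => β x t j0) := anOn_mono hsub (hβ j0)
  have h2 : ∀ i1, An2 (qq m) (fmA l) (fmB l) (fun x t => A l x t j0 i1) :=
    fun i1 => ana2_An2 (hA.an l j0 i1) _ _ _
  have h3 : ∀ i1, An2 (qq m) (fmA l) (fmB l) (fun x t => β x (lat m l * t) i1) := by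
    intro i1
    have hτ : IsMono (fun z : Tor (κ ⊕ ι) K =>
        (Sum.elim (fun j => z (Sum.inl j)) (lat m l * fun i => z (Sum.inr i)) :
          Tor (κ ⊕ ι) K)) :=
      isMono_elim isMono_inl (isMono_mul (isMono_const (lat m l)) isMono_inr)
    have h4 := anOn_isMono hτ (U := BB (Sum.elim (1 : Tor κ K) (qq m))
      (Sum.elim (0 : κ → ℤ) (fmA l)) (Sum.elim (0 : κ → ℤ) (fmB l))) (fun z hz => by
        rw [mem_BB_sum] at hz ⊢
        exact ⟨hz.1, ((fm_mem hm l _).1 hz.2).2⟩) (hβ i1)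
    exact h4
  exact anOn_sub h1 (anOn_sum Finset.univ
    (F := fun i1 z => J2 (fun x t => A l x t j0 i1) z * J2 (fun x t => β x (lat m l * t) i1) z)
    fun i1 _ => anOn_mul (h2 i1) (h3 i1))

private theorem fm_lin {N : ℕ} (c : Fin N → K) (f : Fin N → Tor ι K → K)
    (hf : ∀ j, AnOn circ (f j)) (k : ι → ℤ) :
    cf (fun t => ∑ j, c j * f j t) k = ∑ j, cf (f j) k * c j := by
  rw [cf_sum Finset.univ (F := fun j t => c j * f j t) (fun j _ => anOn_smul _ (hf j))]
  refine Finset.sum_congr rfl fun j _ => ?_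
  rw [cf_smul _ (hf j), mul_comm]

omit [DecidableEq ι] [IsUltrametricDist K] [CompleteSpace K] [IsAlgClosed K] [CharZero K] in
private theorem fm_expand {m : ι → Tor ι K} {N : ℕ} (c : Fin N → K)
    (β : Fin N → Tor κ K → Tor ι K → σ → K) (M : Matrix σ σ K) (x : Tor κ K) (t : Tor ι K)
    (l : ι → ℤ) (j0 : σ) :
    (∑ j, c j • β j x t) j0 - (M.mulVec (∑ j, c j • β j x (lat m l * t))) j0 =
      ∑ j, c j * (β j x t j0 - (M.mulVec (β j x (lat m l * t))) j0) := by
  rw [Matrix.mulVec_sum, Finset.sum_apply, Finset.sum_apply, ← Finset.sum_sub_distrib]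
  refine Finset.sum_congr rfl fun j _ => ?_
  rw [Matrix.mulVec_smul, Pi.smul_apply, Pi.smul_apply, smul_eq_mul, smul_eq_mul, mul_sub]

theorem exists_finMod {m : ι → Tor ι K} (hm : Std m)
    {A : (ι → ℤ) → Tor κ K → Tor ι K → Matrix σ σ K} (hA : CocSys m A) :
    ∃ (N : ℕ) (R : Set (Tor κ K → Fin N → K)) (β : Fin N → Tor κ K → Tor ι K → σ → K),
      (∀ ρ ∈ R, ∀ j, AnOn circ fun x => ρ x j) ∧
      (∀ j, An2V (qq m) (1 : ι → ℤ) (1 : ι → ℤ) (β j)) ∧
      ∀ x ∈ (circ : Set (Tor κ K)),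
        (∀ c ∈ kerR R x, LocSol m A x (fun t => ∑ j, c j • β j x t)) ∧
        (∀ c ∈ kerR R x, (∀ t ∈ BB (qq m) (1 : ι → ℤ) (1 : ι → ℤ), ∑ j, c j • β j x t = 0) →
          c = 0) ∧
        (∀ s ∈ Sol m A x, ∃ c ∈ kerR R x, ∀ t ∈ BB (qq m) (1 : ι → ℤ) (1 : ι → ℤ),
          s t = ∑ j, c j • β j x t) := by
  classical
  obtain ⟨N, β, k, i, hβ, hrep⟩ := exists_finRep hm hA
  have hq := qq_le hm
  have h01 : ∀ i, 0 ≤ (1 : ι → ℤ) i := fun _ => by norm_num
  have hcb := circ_subset_BB hq h01 h01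
  obtain ⟨R1, hR1⟩ : ∃ R1 : Set (Tor κ K → Fin N → K), R1 =
      {ρ | ∃ l, fmP l ∧ ∃ (j0 : σ) (k0 : ι → ℤ), ρ = fun x j =>
        cf (fun t => β j x t j0 - ((A l x t).mulVec (β j x (lat m l * t))) j0) k0} := ⟨_, rfl⟩
  obtain ⟨R2, hR2⟩ : ∃ R2 : Set (Tor κ K → Fin N → K), R2 =
      {ρ | ∃ j0 : Fin N, ρ = fun x j =>
        (if j = j0 then 1 else 0) - cf (fun t => β j x t (i j0)) (k j0)} := ⟨_, rfl⟩
  have hrow1 : ∀ l, fmP l → ∀ (j0 : σ) (k0 : ι → ℤ), (fun x j =>
      cf (fun t => β j x t j0 - ((A l x t).mulVec (β j x (lat m l * t))) j0) k0) ∈ R1 ∪ R2 := by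
    intro l hl j0 k0
    left
    rw [hR1]
    exact ⟨l, hl, j0, k0, rfl⟩
  have hrow2 : ∀ j0 : Fin N, (fun x j =>
      (if j = j0 then 1 else 0) - cf (fun t => β j x t (i j0)) (k j0)) ∈ R1 ∪ R2 := by
    intro j0
    right
    rw [hR2]
    exact ⟨j0, rfl⟩
  have hcW : ∀ l, fmP l → (circ : Set (Tor ι K)) ⊆ BB (qq m) (fmA l) (fmB l) :=
    fun l hl => circ_subset_BB hq (fm_nonneg hl).1 (fm_nonneg hl).2
  -- linearity
  have hlin1 : ∀ x ∈ (circ : Set (Tor κ K)), ∀ (c : Fin N → K) (l : ι → ℤ), fmP l →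
      ∀ (j0 : σ) (k0 : ι → ℤ),
      cf (fun t => (∑ j, c j • β j x t) j0 -
        ((A l x t).mulVec (∑ j, c j • β j x (lat m l * t))) j0) k0 =
      ∑ j, cf (fun t => β j x t j0 - ((A l x t).mulVec (β j x (lat m l * t))) j0) k0 * c j := by
    intro x hx c l hl j0 k0
    rw [← fm_lin c (fun j t => β j x t j0 - ((A l x t).mulVec (β j x (lat m l * t))) j0)
      (fun j => anOn_mono (hcW l hl) (an2_fib (fm_an2 hm hA (hβ j) l j0) hx)) k0]
    congr 2
    funext t
    exact fm_expand c β (A l x t) x t l j0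
  have hlin2 : ∀ x ∈ (circ : Set (Tor κ K)), ∀ (c : Fin N → K) (j0 : Fin N),
      cf (fun t => (∑ j, c j • β j x t) (i j0)) (k j0) =
      ∑ j, cf (fun t => β j x t (i j0)) (k j0) * c j := by
    intro x hx c j0
    rw [← fm_lin c (fun j t => β j x t (i j0))
      (fun j => anOn_mono hcb (an2_fib (hβ j (i j0)) hx)) (k j0)]
    congr 2
    funext t
    rw [Finset.sum_apply]
    rfl
  have hrow2c : ∀ (x : Tor κ K) (c : Fin N → K) (j0 : Fin N),
      ∑ j, ((if j = j0 then 1 else 0) - cf (fun t => β j x t (i j0)) (k j0)) * c j =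
      c j0 - ∑ j, cf (fun t => β j x t (i j0)) (k j0) * c j := by
    intro x c j0
    simp only [sub_mul, Finset.sum_sub_distrib, ite_mul, one_mul, zero_mul,
      Finset.sum_ite_eq', Finset.mem_univ, if_true]
  refine ⟨N, R1 ∪ R2, β, ?_, hβ, ?_⟩
  · rintro ρ (hρ | hρ) j
    · rw [hR1] at hρ
      obtain ⟨l, hl, j0, k0, rfl⟩ := hρ
      exact fib_cf_an hq (fm_nonneg hl).1 (fm_nonneg hl).2 (fm_an2 hm hA (hβ j) l j0) k0
    · rw [hR2] at hρ
      obtain ⟨j0, rfl⟩ := hρ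
      exact anOn_sub (anOn_const _ _) (fib_cf_an hq h01 h01 (hβ j (i j0)) (k j0))
  · intro x hx
    refine ⟨?_, ?_, ?_⟩
    · intro c hc l hl t ht hlt
      have htW : t ∈ BB (qq m) (fmA l) (fmB l) := (fm_mem hm l t).2 ⟨ht, hlt⟩
      funext j0
      have hg0 : cf (fun t => (∑ j, c j • β j x t) j0 -
          ((A l x t).mulVec (∑ j, c j • β j x (lat m l * t))) j0) = 0 := by
        funext k0
        rw [hlin1 x hx c l hl j0 k0]
        exact hc _ (hrow1 l hl j0 k0)
      have hgan : AnOn (BB (qq m) (fmA l) (fmB l)) (fun t => (∑ j, c j • β j x t) j0 -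
          ((A l x t).mulVec (∑ j, c j • β j x (lat m l * t))) j0) := by
        have h1 := anOn_sum (U := BB (qq m) (fmA l) (fmB l)) Finset.univ
          (F := fun j t => c j * (β j x t j0 - ((A l x t).mulVec (β j x (lat m l * t))) j0))
          fun j _ => anOn_smul _ (an2_fib (fm_an2 hm hA (hβ j) l j0) hx)
        refine anOn_congr (fun t _ => ?_) h1
        exact fm_expand c β (A l x t) x t l j0
      have h2 := hull_eq hq (fm_nonneg hl).1 (fm_nonneg hl).2 hgan htW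
      have h3 : hull (fun t => (∑ j, c j • β j x t) j0 -
          ((A l x t).mulVec (∑ j, c j • β j x (lat m l * t))) j0) t = 0 := by
        unfold hull ser
        rw [hg0]
        simp
      rw [h3] at h2
      exact (sub_eq_zero.1 h2.symm)
    · intro c hc hz
      funext j0
      have h1 := hc _ (hrow2 j0)
      have h1' : ∑ j, ((if j = j0 then 1 else 0) - cf (fun t => β j x t (i j0)) (k j0)) * c j =
        0 := h1
      rw [hrow2c, ← hlin2 x hx c j0] at h1'
      have h2 : cf (fun t => (∑ j, c j • β j x t) (i j0)) = 0 := by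
        refine cf_eq_zero fun t ht => ?_
        rw [hz t (hcb ht)]
        rfl
      rw [h2, Pi.zero_apply, sub_zero] at h1'
      exact h1'
    · intro s hs
      have hs2 : ∀ t ∈ BB (qq m) (1 : ι → ℤ) (1 : ι → ℤ),
          s t = ∑ j, cf (fun t => s t (i j)) (k j) • β j x t := hrep x hx s hs
      refine ⟨fun j => cf (fun t => s t (i j)) (k j), ?_, hs2⟩
      rintro ρ (hρ | hρ)
      · rw [hR1] at hρ
        obtain ⟨l, hl, j0, k0, rfl⟩ := hρ
        show ∑ j, cf (fun t => β j x t j0 - ((A l x t).mulVec (β j x (lat m l * t))) j0) k0 *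
          cf (fun t => s t (i j)) (k j) = 0
        rw [← hlin1 x hx (fun j => cf (fun t => s t (i j)) (k j)) l hl j0 k0]
        have h1 : cf (fun t => (∑ j, cf (fun t => s t (i j)) (k j) • β j x t) j0 -
          ((A l x t).mulVec (∑ j, cf (fun t => s t (i j)) (k j) •
            β j x (lat m l * t))) j0) = 0 := by
          refine cf_eq_zero fun t ht => ?_
          obtain ⟨m1, m2⟩ := (fm_mem hm l t).1 (hcW l hl ht)
          rw [← hs2 t m1, ← hs2 _ m2, ← hs.2 l t, sub_self]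
        rw [h1]
        rfl
      · rw [hR2] at hρ
        obtain ⟨j0, rfl⟩ := hρ
        show ∑ j, ((if j = j0 then 1 else 0) - cf (fun t => β j x t (i j0)) (k j0)) *
          cf (fun t => s t (i j)) (k j) = 0
        rw [hrow2c x (fun j => cf (fun t => s t (i j)) (k j)) j0,
          ← hlin2 x hx (fun j => cf (fun t => s t (i j)) (k j)) j0]
        have h1 : cf (fun t => (∑ j, cf (fun t => s t (i j)) (k j) • β j x t) (i j0)) =
            cf (fun t => s t (i j0)) := by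
          refine cf_congr fun t ht => ?_
          rw [← hs2 t (hcb ht)]
        rw [h1, sub_self]

end Pool.Agent.Work.MP_6d379e_ag.Ab
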