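import Pool.Agent.Work.MP_6d379e_ag.Ab.OpAlg

/-!
# Neumann series   (size M-L)

`R` is an operator from the box to itself of norm `C < 1`.

* `neumann_unique` : `u` is bounded on the box by some `D ≥ 0` (`anOn_bdd`); `u = R x u` on the box
  gives the bound `C * D`, then `C ^ n * D` for all `n` (with `opB_congr` nothing else is needed:
  `Bd u D → Bd (R x u) (C * D) → Bd u (C * D)`), hence `u = 0`.
* `neumann` : let `T 0 = E`, `T (n + 1) x = R x (T n x)`.  All `T n` are jointly analytic
  (`joint`), and with `D` a bound of `E` on the product box, `T n` is bounded by `C ^ n * D` for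
  `x ∈ circ`, `t` in the box.  Put `β x t j = ∑' n, T n x t j`.  The partial sums `P N` satisfy
  `‖β x t j - P N x t j‖ ≤ C ^ N * D` (ultrametric) so `β` is jointly analytic (`anOn_lim` on the
  product box).  By `add` (and induction) `P (N + 1) x = E x + R x (P N x)` on the box for
  `x ∈ circ`, and `R x (β x) - R x (P N x) = R x (β x - P N x)` is bounded by `C * C ^ N * D`; pass
  to the limit.
-/

namespace Pool.Agent.Work.MP_6d379e_ag.Ab

variable {ι κ σ : Type*} [Fintype ι] [Fintype κ] [Fintype σ]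
variable {K : Type*} [NontriviallyNormedField K] [IsUltrametricDist K]
variable [CompleteSpace K] [IsAlgClosed K] [CharZero K]
variable {q : Tor ι K} {a b : ι → ℤ} {C : ℝ}
variable {R : Tor κ K → (Tor ι K → σ → K) → Tor ι K → σ → K}

omit [IsUltrametricDist K] [CompleteSpace K] [IsAlgClosed K] [CharZero K] in
private theorem nm_bdd {u : Tor ι K → σ → K} (hu : AnV (BB q a b) u) :
    ∃ D : ℝ, 0 ≤ D ∧ Bd (BB q a b) u D := by
  choose f hf using fun i => anOn_bdd (hu i)
  refine ⟨∑ i, |f i|, Finset.sum_nonneg fun i _ => abs_nonneg _, fun t ht i => ?_⟩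
  exact (hf i t ht).trans ((le_abs_self _).trans
    (Finset.single_le_sum (f := fun i => |f i|) (fun i _ => abs_nonneg _) (Finset.mem_univ i)))

omit [IsUltrametricDist K] [CompleteSpace K] [IsAlgClosed K] [CharZero K] in
private theorem nm_bdd2 {E : Tor κ K → Tor ι K → σ → K} (hE : An2V q a b E) :
    ∃ D : ℝ, 0 ≤ D ∧ ∀ x ∈ (circ : Set (Tor κ K)), Bd (BB q a b) (E x) D := by
  choose f hf using fun i => anOn_bdd (q := (Sum.elim (1 : Tor κ K) q : Tor (κ ⊕ ι) K))
    (a := Sum.elim (0 : κ → ℤ) a) (b := Sum.elim (0 : κ → ℤ) b) (hE i)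
  refine ⟨∑ i, |f i|, Finset.sum_nonneg fun i _ => abs_nonneg _, fun x hx t ht i => ?_⟩
  have h1 := hf i (Sum.elim x t : Tor (κ ⊕ ι) K) ((mem_BB_sum q a b _).2 ⟨hx, ht⟩)
  have h2 : ‖E x t i‖ ≤ f i := h1
  exact h2.trans ((le_abs_self _).trans
    (Finset.single_le_sum (f := fun i => |f i|) (fun i _ => abs_nonneg _) (Finset.mem_univ i)))

theorem neumann_unique (hC : 0 ≤ C) (hC1 : C < 1) (h : OpB q a b a b C R) {x : Tor κ K}
    (hx : x ∈ (circ : Set (Tor κ K))) {u : Tor ι K → σ → K} (hu : AnV (BB q a b) u)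
    (he : ∀ t ∈ BB q a b, u t = R x u t) : ∀ t ∈ BB q a b, u t = 0 := by
  obtain ⟨D, hD, hB⟩ := nm_bdd hu
  have hn : ∀ n : ℕ, Bd (BB q a b) u (C ^ n * D) := by
    intro n
    induction n with
    | zero =>
      rw [pow_zero, one_mul]
      exact hB
    | succ n ih =>
      intro t ht i
      have h1 := h.bd x hx u (C ^ n * D) hu (mul_nonneg (pow_nonneg hC n) hD) ih t ht i
      rw [he t ht]
      refine h1.trans (le_of_eq ?_)
      ring
  intro t ht
  funext i
  have h0 : Filter.Tendsto (fun n : ℕ => C ^ n * D) Filter.atTop (nhds 0) := by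
    have := (tendsto_pow_atTop_nhds_zero_of_lt_one hC hC1).mul_const D
    rwa [zero_mul] at this
  have h1 : ‖u t i‖ ≤ 0 := ge_of_tendsto' h0 fun n => hn n t ht i
  exact norm_le_zero_iff.1 h1

/-- the terms of the Neumann series -/
private def nT (R : Tor κ K → (Tor ι K → σ → K) → Tor ι K → σ → K)
    (E : Tor κ K → Tor ι K → σ → K) : ℕ → Tor κ K → Tor ι K → σ → K
  | 0 => E
  | n + 1 => fun x => R x (nT R E n x)

theorem neumann (hC : 0 ≤ C) (hC1 : C < 1) (h : OpB q a b a b C R)
    {E : Tor κ K → Tor ι K → σ → K} (hE : An2V q a b E) :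
    ∃ β : Tor κ K → Tor ι K → σ → K, An2V q a b β ∧
      ∀ x ∈ (circ : Set (Tor κ K)), ∀ t ∈ BB q a b, β x t = E x t + R x (β x) t := by
  obtain ⟨D, hD, hB⟩ := nm_bdd2 hE
  have hTan : ∀ n : ℕ, An2V q a b (nT R E n) := by
    intro n
    induction n with
    | zero => exact hE
    | succ n ih => exact h.joint _ ih
  have hTV : ∀ n : ℕ, ∀ x ∈ (circ : Set (Tor κ K)), AnV (BB q a b) (nT R E n x) :=
    fun n x hx i => an2_fib (hTan n i) hx
  have hTB : ∀ n : ℕ, ∀ x ∈ (circ : Set (Tor κ K)), Bd (BB q a b) (nT R E n x) (C ^ n * D) := by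
    intro n
    induction n with
    | zero =>
      intro x hx
      rw [pow_zero, one_mul]
      exact hB x hx
    | succ n ih =>
      intro x hx t ht i
      have h1 := h.bd x hx (nT R E n x) (C ^ n * D) (hTV n x hx)
        (mul_nonneg (pow_nonneg hC n) hD) (ih x hx) t ht i
      refine h1.trans (le_of_eq ?_)
      ring
  have h0 : Filter.Tendsto (fun n : ℕ => C ^ n * D) Filter.atTop (nhds 0) := by
    have := (tendsto_pow_atTop_nhds_zero_of_lt_one hC hC1).mul_const D
    rwa [zero_mul] at this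
  have hsum : ∀ x ∈ (circ : Set (Tor κ K)), ∀ t ∈ BB q a b, ∀ j,
      Summable fun n => nT R E n x t j := by
    intro x hx t ht j
    exact Summable.of_norm_bounded ((summable_geometric_of_lt_one hC hC1).mul_right D)
      fun n => hTB n x hx t ht j
  let β : Tor κ K → Tor ι K → σ → K := fun x t j => ∑' n, nT R E n x t j
  let P : ℕ → Tor κ K → Tor ι K → σ → K := fun N x t j => ∑ n ∈ Finset.range N, nT R E n x t j
  have hβP : ∀ N : ℕ, ∀ x ∈ (circ : Set (Tor κ K)), ∀ t ∈ BB q a b, ∀ j,
      ‖β x t j - P N x t j‖ ≤ C ^ N * D := by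
    intro N x hx t ht j
    have h1 := (hsum x hx t ht j).sum_add_tsum_nat_add N
    have h2 : β x t j - P N x t j = ∑' n, nT R E (n + N) x t j := by
      show (∑' n, nT R E n x t j) - ∑ n ∈ Finset.range N, nT R E n x t j = _
      rw [← h1]
      ring
    rw [h2]
    refine IsUltrametricDist.norm_tsum_le_of_forall_le_of_nonneg
      (mul_nonneg (pow_nonneg hC N) hD) fun n => ?_
    refine (hTB (n + N) x hx t ht j).trans (mul_le_mul_of_nonneg_right ?_ hD)
    exact pow_le_pow_of_le_one hC hC1.le (Nat.le_add_left N n)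
  have hPan : ∀ N : ℕ, An2V q a b (P N) := by
    intro N j
    exact anOn_sum (F := fun n => J2 fun x t => nT R E n x t j) (Finset.range N)
      fun n _ => hTan n j
  have hPV : ∀ N : ℕ, ∀ x ∈ (circ : Set (Tor κ K)), AnV (BB q a b) (P N x) :=
    fun N x hx i => an2_fib (hPan N i) hx
  have hβan : An2V q a b β := by
    intro j
    refine anOn_lim fun ε hε => ?_
    obtain ⟨N, hN⟩ := ((h0.eventually_lt_const hε)).exists
    refine ⟨J2 fun x t => P N x t j, hPan N j, fun z hz => ?_⟩
    obtain ⟨hz1, hz2⟩ := (mem_BB_sum q a b z).1 hz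
    exact (hβP N _ hz1 _ hz2 j).trans hN.le
  have hβV : ∀ x ∈ (circ : Set (Tor κ K)), AnV (BB q a b) (β x) :=
    fun x hx i => an2_fib (hβan i) hx
  have hz : AnV (BB q a b) (0 : Tor ι K → σ → K) := fun i => anOn_const _ 0
  have hPs : ∀ N : ℕ, ∀ x, P (N + 1) x = P N x + nT R E N x := by
    intro N x
    funext t j
    exact Finset.sum_range_succ _ _
  have hrec : ∀ N : ℕ, ∀ x ∈ (circ : Set (Tor κ K)), ∀ t ∈ BB q a b,
      P (N + 1) x t = E x t + R x (P N x) t := by
    intro N
    induction N with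
    | zero =>
      intro x hx t ht
      have e0 : P 0 x = 0 := by
        funext t j
        exact Finset.sum_range_zero _
      have h1 := h.add x hx 0 0 hz hz t ht
      rw [add_zero] at h1
      have h2 : R x 0 t = 0 := by
        have := left_eq_add.1 h1
        exact this
      rw [hPs, e0, zero_add, h2, add_zero]
      rfl
    | succ N ih =>
      intro x hx t ht
      have h1 := h.add x hx (P N x) (nT R E N x) (hPV N x hx) (hTV N x hx) t ht
      rw [hPs (N + 1), Pi.add_apply, ih x hx t ht, hPs N, h1, add_assoc]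
      rfl
  refine ⟨β, hβan, fun x hx t ht => ?_⟩
  funext j
  have hest : ∀ N : ℕ, ‖β x t j - (E x t j + R x (β x) t j)‖ ≤ (1 + C) * (C ^ N * D) := by
    intro N
    let s : Tor ι K → σ → K := β x - P N x
    have hsV : AnV (BB q a b) s := fun i => anOn_sub (hβV x hx i) (hPV N x hx i)
    have hsB : Bd (BB q a b) s (C ^ N * D) := fun t ht i => hβP N x hx t ht i
    have h1 := h.bd x hx s (C ^ N * D) hsV (mul_nonneg (pow_nonneg hC N) hD) hsB t ht j
    have h2 := h.add x hx (P N x) s (hPV N x hx) hsV t ht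
    have h3 : P N x + s = β x := add_sub_cancel _ _
    rw [h3] at h2
    have h4 := congrFun (hrec N x hx t ht) j
    have h5 := hβP (N + 1) x hx t ht j
    have h6 : β x t j - (E x t j + R x (β x) t j) =
        (β x t j - P (N + 1) x t j) - R x s t j := by
      rw [h4, h2]
      simp only [Pi.add_apply]
      ring
    rw [h6]
    have h7 : C ^ (N + 1) * D ≤ C ^ N * D :=
      mul_le_mul_of_nonneg_right (pow_le_pow_of_le_one hC hC1.le (Nat.le_succ N)) hD
    calc ‖(β x t j - P (N + 1) x t j) - R x s t j‖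
        ≤ ‖β x t j - P (N + 1) x t j‖ + ‖R x s t j‖ := norm_sub_le _ _
      _ ≤ C ^ N * D + C * (C ^ N * D) := add_le_add (h5.trans h7) h1
      _ = (1 + C) * (C ^ N * D) := by ring
  have h1 : Filter.Tendsto (fun n : ℕ => (1 + C) * (C ^ n * D)) Filter.atTop (nhds 0) := by
    have := h0.const_mul (1 + C)
    rwa [mul_zero] at this
  have h2 : ‖β x t j - (E x t j + R x (β x) t j)‖ ≤ 0 := ge_of_tendsto' h1 hest
  exact sub_eq_zero.1 (norm_le_zero_iff.1 h2)

end Pool.Agent.Work.MP_6d379e_ag.Ab
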