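import Pool.Agent.Work.MP_6d379e_ag.Ab.XDefs

/-!
# Truncation is close to the identity   (size M)

`Wt q 1 1 k = (∏ i, ‖q i‖ ^ |k i|) * Wt q 2 2 k` (product over `i`: for `0 ≤ k i` the exponents are
`-(1 * k i)` and `-(2 * k i)`, for `k i < 0` they are `1 * k i` and `2 * k i`).  Since all
`‖q i‖ < 1`, the set `S` of all `k` with `∏ i, ‖q i‖ ^ |k i| > ε` is finite (it is contained in a
cube).  Let `s` be analytic on `BB q 2 2`, bounded by `D`.  Then `‖cf (s · i) k‖ * Wt q 2 2 k ≤ D`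
(`cf_le`), so for `k ∉ S` the coefficients satisfy `‖cf (s · i) k‖ * Wt q 1 1 k ≤ ε * D`, and on
`BB q 1 1` the function `s - trF S s` is bounded by `ε * D` (`hull_eq`, `ser_sub_sum_le`).
`add`, `smul` : `cf_add`, `cf_smul`.  `an`, `joint` : `trF S s` is a Laurent polynomial in `t`; in
the joint case its coefficients `cf (S x · i) k` are analytic on `circ` (`fib_cf_an`), and products
of a function of `x` and a monomial in `t` are jointly analytic (`anOn_isMono` along the two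
projections of the product torus, `anOn_mul`).
-/

namespace Pool.Agent.Work.MP_6d379e_ag.Ab

variable {ι κ σ : Type*} [Fintype ι] [Fintype κ] [Fintype σ]
variable {K : Type*} [NontriviallyNormedField K] [IsUltrametricDist K]
variable [CompleteSpace K] [IsAlgClosed K] [CharZero K]

omit [Fintype κ] [Fintype σ] [IsUltrametricDist K] [CompleteSpace K] [IsAlgClosed K] [CharZero K] in
private theorem tr_Wt (q : Tor ι K) (n : ℤ) (k : ι → ℤ) :
    Wt q (fun _ => n) (fun _ => n) k = ∏ i, ‖(q i : K)‖ ^ (-(n * |k i|)) := by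
  unfold Wt
  rw [norm_mon]
  refine Finset.prod_congr rfl fun i _ => ?_
  unfold corner
  by_cases hk : 0 ≤ k i
  · rw [if_pos hk, Units.val_zpow_eq_zpow_val, norm_zpow, ← zpow_mul, abs_of_nonneg hk, neg_mul]
  · rw [if_neg hk, Units.val_zpow_eq_zpow_val, norm_zpow, ← zpow_mul,
      abs_of_neg (not_le.1 hk), mul_neg, neg_neg]

omit [Fintype κ] [Fintype σ] [IsUltrametricDist K] [CompleteSpace K] [IsAlgClosed K] [CharZero K] in
private theorem tr_Wt12 (q : Tor ι K) (k : ι → ℤ) :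
    Wt q (1 : ι → ℤ) (1 : ι → ℤ) k =
      (∏ i, ‖(q i : K)‖ ^ |k i|) * Wt q (2 : ι → ℤ) (2 : ι → ℤ) k := by
  have h1 : Wt q (1 : ι → ℤ) (1 : ι → ℤ) k = ∏ i, ‖(q i : K)‖ ^ (-(1 * |k i|)) := tr_Wt q 1 k
  have h2 : Wt q (2 : ι → ℤ) (2 : ι → ℤ) k = ∏ i, ‖(q i : K)‖ ^ (-(2 * |k i|)) := tr_Wt q 2 k
  rw [h1, h2, ← Finset.prod_mul_distrib]
  refine Finset.prod_congr rfl fun i _ => ?_
  have hQ : ‖(q i : K)‖ ≠ 0 := (norm_pos_iff.2 (Units.ne_zero _)).ne'
  rw [← zpow_add₀ hQ]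
  have h3 : -(1 * |k i|) = |k i| + -(2 * |k i|) := by ring
  rw [h3]

omit [Fintype κ] [Fintype σ] [IsUltrametricDist K] [CompleteSpace K] [IsAlgClosed K] [CharZero K] in
private theorem tr_fin {q : Tor ι K} (hq : ∀ i, ‖(q i : K)‖ < 1) {ε : ℝ} (hε : 0 < ε) :
    {k : ι → ℤ | ε < ∏ i, ‖(q i : K)‖ ^ |k i|}.Finite := by
  classical
  have h : ∀ i, ∃ n : ℕ, ‖(q i : K)‖ ^ n < ε := fun i => exists_pow_lt_of_lt_one hε (hq i)
  choose N hN using h
  refine (Set.finite_Icc (fun i => -(N i : ℤ)) (fun i => (N i : ℤ))).subset fun k hk => ?_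
  have hpos : ∀ i, 0 < ‖(q i : K)‖ := fun i => norm_pos_iff.2 (Units.ne_zero _)
  have h1 : ∀ i, |k i| ≤ (N i : ℤ) := by
    intro i
    by_contra hcon
    rw [not_le] at hcon
    have h2 : ∏ j, ‖(q j : K)‖ ^ |k j| ≤ ‖(q i : K)‖ ^ |k i| := by
      rw [← Finset.mul_prod_erase Finset.univ _ (Finset.mem_univ i)]
      refine mul_le_of_le_one_right (zpow_pos (hpos i) _).le ?_
      refine Finset.prod_le_one (fun j _ => (zpow_pos (hpos j) _).le) fun j _ => ?_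
      have h3 := zpow_le_zpow_right_of_le_one₀ (hpos j) (hq j).le (abs_nonneg (k j))
      rw [zpow_zero] at h3
      exact h3
    have h4 : ‖(q i : K)‖ ^ |k i| ≤ ‖(q i : K)‖ ^ (N i : ℤ) :=
      zpow_le_zpow_right_of_le_one₀ (hpos i) (hq i).le hcon.le
    rw [zpow_natCast] at h4
    have h5 := hN i
    have h6 : ε < ∏ j, ‖(q j : K)‖ ^ |k j| := hk
    linarith
  exact ⟨fun i => (abs_le.1 (h1 i)).1, fun i => (abs_le.1 (h1 i)).2⟩

omit [Fintype κ] [Fintype σ] [IsUltrametricDist K] [CompleteSpace K] [IsAlgClosed K] [CharZero K] in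
private theorem tr_sub {q : Tor ι K} (hq : ∀ i, ‖(q i : K)‖ < 1) :
    BB q (1 : ι → ℤ) (1 : ι → ℤ) ⊆ BB q (2 : ι → ℤ) (2 : ι → ℤ) :=
  BB_mono (fun i => (hq i).le) (fun _ => one_le_two) (fun _ => one_le_two)

theorem exists_trunc {q : Tor ι K} (hq : ∀ i, ‖(q i : K)‖ < 1) {ε : ℝ} (hε : 0 < ε) :
    ∃ S : Finset (ι → ℤ),
      OpB q (2 : ι → ℤ) (2 : ι → ℤ) (1 : ι → ℤ) (1 : ι → ℤ) ε
        (fun (_ : Tor κ K) (s : Tor ι K → σ → K) => s - trF S s) := by
  have hq1 : ∀ i, ‖(q i : K)‖ ≤ 1 := fun i => (hq i).le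
  have h2 : ∀ i, (0 : ℤ) ≤ (2 : ι → ℤ) i := fun _ => zero_le_two
  have h1 : ∀ i, (0 : ℤ) ≤ (1 : ι → ℤ) i := fun _ => zero_le_one
  have hcirc : (circ : Set (Tor ι K)) ⊆ BB q (2 : ι → ℤ) (2 : ι → ℤ) := circ_subset_BB hq1 h2 h2
  refine ⟨(tr_fin hq hε).toFinset, ?_, ?_, ?_, ?_, ?_⟩
  · intro x _ s hs i
    have e1 : AnOn (BB q (1 : ι → ℤ) (1 : ι → ℤ)) fun t => s t i := anOn_mono (tr_sub hq) (hs i)
    have e2 : AnOn (BB q (1 : ι → ℤ) (1 : ι → ℤ)) fun t =>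
        ∑ k ∈ (tr_fin hq hε).toFinset, cf (fun t => s t i) k * mon k t :=
      anOn_sum _ (F := fun k t => cf (fun t => s t i) k * mon k t)
        fun k _ => anOn_smul _ (anOn_mon _ k)
    exact anOn_sub e1 e2
  · intro F hF i
    have m1 : ∀ z ∈ BB (Sum.elim (1 : Tor κ K) q) (Sum.elim (0 : κ → ℤ) (1 : ι → ℤ))
        (Sum.elim (0 : κ → ℤ) (1 : ι → ℤ)), (fun j => z (Sum.inl j)) ∈ (circ : Set (Tor κ K)) :=
      fun z hz => ((mem_BB_sum q 1 1 z).1 hz).1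
    have m2 : ∀ z ∈ BB (Sum.elim (1 : Tor κ K) q) (Sum.elim (0 : κ → ℤ) (1 : ι → ℤ))
        (Sum.elim (0 : κ → ℤ) (1 : ι → ℤ)),
        (fun i => z (Sum.inr i)) ∈ BB q (1 : ι → ℤ) (1 : ι → ℤ) :=
      fun z hz => ((mem_BB_sum q 1 1 z).1 hz).2
    have hb : BB (Sum.elim (1 : Tor κ K) q) (Sum.elim (0 : κ → ℤ) (1 : ι → ℤ))
        (Sum.elim (0 : κ → ℤ) (1 : ι → ℤ)) ⊆
        BB (Sum.elim (1 : Tor κ K) q) (Sum.elim (0 : κ → ℤ) (2 : ι → ℤ))
        (Sum.elim (0 : κ → ℤ) (2 : ι → ℤ)) :=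
      fun z hz => (mem_BB_sum q 2 2 z).2 ⟨m1 z hz, tr_sub hq (m2 z hz)⟩
    have e1 := anOn_mono hb (hF i)
    have e2 : AnOn (BB (Sum.elim (1 : Tor κ K) q) (Sum.elim (0 : κ → ℤ) (1 : ι → ℤ))
        (Sum.elim (0 : κ → ℤ) (1 : ι → ℤ))) fun z =>
        ∑ k ∈ (tr_fin hq hε).toFinset,
          cf (fun t => F (fun j => z (Sum.inl j)) t i) k * mon k (fun i => z (Sum.inr i)) := by
      refine anOn_sum _ (F := fun k z => cf (fun t => F (fun j => z (Sum.inl j)) t i) k *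
        mon k (fun i => z (Sum.inr i))) fun k _ => ?_
      exact anOn_mul (anOn_isMono isMono_inl m1 (fib_cf_an hq1 h2 h2 (hF i) k))
        (anOn_isMono isMono_inr m2 (anOn_mon _ k))
    exact anOn_sub e1 e2
  · intro x _ s s' hs hs' t _
    funext i
    have e : cf (fun t => (s + s') t i) = cf (fun t => s t i) + cf (fun t => s' t i) :=
      cf_add (anOn_mono hcirc (hs i)) (anOn_mono hcirc (hs' i))
    show s t i + s' t i - ∑ k ∈ (tr_fin hq hε).toFinset, cf (fun t => (s + s') t i) k * mon k t =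
      (s t i - ∑ k ∈ (tr_fin hq hε).toFinset, cf (fun t => s t i) k * mon k t) +
      (s' t i - ∑ k ∈ (tr_fin hq hε).toFinset, cf (fun t => s' t i) k * mon k t)
    have e2 : ∑ k ∈ (tr_fin hq hε).toFinset, cf (fun t => (s + s') t i) k * mon k t =
        (∑ k ∈ (tr_fin hq hε).toFinset, cf (fun t => s t i) k * mon k t) +
        ∑ k ∈ (tr_fin hq hε).toFinset, cf (fun t => s' t i) k * mon k t := by
      rw [e, ← Finset.sum_add_distrib]
      exact Finset.sum_congr rfl fun k _ => by rw [Pi.add_apply, add_mul]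
    rw [e2]
    ring
  · intro x _ c s hs t _
    funext i
    have e : ∀ k, cf (fun t => (c • s) t i) k = c * cf (fun t => s t i) k := fun k =>
      cf_smul c (anOn_mono hcirc (hs i)) k
    show c * s t i - ∑ k ∈ (tr_fin hq hε).toFinset, cf (fun t => (c • s) t i) k * mon k t =
      c * (s t i - ∑ k ∈ (tr_fin hq hε).toFinset, cf (fun t => s t i) k * mon k t)
    have e2 : ∑ k ∈ (tr_fin hq hε).toFinset, cf (fun t => (c • s) t i) k * mon k t =
        c * ∑ k ∈ (tr_fin hq hε).toFinset, cf (fun t => s t i) k * mon k t := by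
      rw [Finset.mul_sum]
      exact Finset.sum_congr rfl fun k _ => by rw [e, mul_assoc]
    rw [e2]
    ring
  · intro x _ s D hs hD hB t ht i
    have hd1 : Dec q (1 : ι → ℤ) (1 : ι → ℤ) (cf fun t => s t i) :=
      cf_dec_BB hq1 h1 h1 (anOn_mono (tr_sub hq) (hs i))
    have hh : hull (fun t => s t i) t = s t i :=
      hull_eq hq1 h1 h1 (anOn_mono (tr_sub hq) (hs i)) ht
    have hk : ∀ k, k ∉ (tr_fin hq hε).toFinset →
        ‖cf (fun t => s t i) k‖ * Wt q (1 : ι → ℤ) (1 : ι → ℤ) k ≤ ε * D := by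
      intro k hk
      rw [Set.Finite.mem_toFinset, Set.mem_setOf_eq, not_lt] at hk
      have c1 := cf_le hq1 h2 h2 (hs i) (C := D) (fun t ht => hB t ht i) k
      have hp : 0 ≤ ∏ i, ‖(q i : K)‖ ^ |k i| :=
        Finset.prod_nonneg fun i _ => zpow_nonneg (norm_nonneg _) _
      rw [tr_Wt12]
      calc ‖cf (fun t => s t i) k‖ *
            ((∏ i, ‖(q i : K)‖ ^ |k i|) * Wt q (2 : ι → ℤ) (2 : ι → ℤ) k)
          = (∏ i, ‖(q i : K)‖ ^ |k i|) *
            (‖cf (fun t => s t i) k‖ * Wt q (2 : ι → ℤ) (2 : ι → ℤ) k) := by ring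
        _ ≤ (∏ i, ‖(q i : K)‖ ^ |k i|) * D := mul_le_mul_of_nonneg_left c1 hp
        _ ≤ ε * D := mul_le_mul_of_nonneg_right hk hD
    have h3 := ser_sub_sum_le hd1 ht (tr_fin hq hε).toFinset (mul_nonneg hε.le hD) hk
    show ‖s t i - ∑ k ∈ (tr_fin hq hε).toFinset, cf (fun t => s t i) k * mon k t‖ ≤ ε * D
    rw [← hh]
    exact h3

end Pool.Agent.Work.MP_6d379e_ag.Ab
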