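import Pool.Agent.Work.MP_6d379e_ag.Ab.ExtAll
import Pool.Agent.Work.MP_6d379e_ag.Ab.TruncOp
import Pool.Agent.Work.MP_6d379e_ag.Ab.Neum

/-!
# Solutions are combinations of finitely many analytic functions   (size M)

Let `q = qq m`, `L`, `C` from `exists_ext` (box `(1, 1)` to `(2, 2)`), `S` from `exists_trunc` with
`ε = 1 / (2 * (C + 1))`, and `R x s = L x s - trF S (L x s)`: by `opB_comp` it is an `OpB` from the
box `(1, 1)` to itself with constant `ε * C < 1`.  For `k ∈ S`, `i : σ` let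
`E_{k,i} t = Pi.single i (mon k t)` (constant in `x`, analytic) and `β_{k,i}` from `neumann`:
`β = E + R x β` on the box `(1, 1)`.

Let `x ∈ circ`, `s ∈ Sol m A x`.  By `FixSol`, `L x s = s` on the box `(2, 2)`, which contains
`circ`, so `cf (L x s · i) = cf (s · i)` (`cf_congr`), and on the box `(1, 1)`
`s = trF S (L x s) + R x s = ∑ cf (s · i) k • E_{k,i} + R x s`.
So `u = s - ∑ cf (s · i) k • β_{k,i} x` satisfies `u = R x u` on the box `(1, 1)` (linearity of
`R x` in the form `add`, `smul` and a finite induction), hence `u = 0` there (`neumann_unique`).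
Enumerate the pairs `(k, i)`, `k ∈ S`, by `Fin N`.
-/

namespace Pool.Agent.Work.MP_6d379e_ag.Ab

variable {ι κ σ : Type*} [Fintype ι] [Fintype κ] [Fintype σ] [DecidableEq ι]
variable {K : Type*} [NontriviallyNormedField K] [IsUltrametricDist K]
variable [CompleteSpace K] [IsAlgClosed K] [CharZero K]

omit [Fintype σ] [DecidableEq ι] [IsUltrametricDist K] [CompleteSpace K] [IsAlgClosed K]
  [CharZero K] in
private theorem FinRep_anV_smul {U : Set (Tor ι K)} (c : K) {s : Tor ι K → σ → K}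
    (hs : AnV U s) : AnV U (c • s) := fun i => anOn_smul c (hs i)

omit [Fintype σ] [DecidableEq ι] [IsUltrametricDist K] [CompleteSpace K] [IsAlgClosed K]
  [CharZero K] in
private theorem FinRep_anV_add {U : Set (Tor ι K)} {s s' : Tor ι K → σ → K}
    (hs : AnV U s) (hs' : AnV U s') : AnV U (s + s') := fun i => anOn_add (hs i) (hs' i)

omit [Fintype σ] [DecidableEq ι] [IsUltrametricDist K] [CompleteSpace K] [IsAlgClosed K]
  [CharZero K] in
private theorem FinRep_anV_zero (U : Set (Tor ι K)) : AnV U (0 : Tor ι K → σ → K) :=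
  fun _ => anOn_const U (0 : K)

omit [Fintype σ] [DecidableEq ι] [IsUltrametricDist K] [CompleteSpace K] [IsAlgClosed K]
  [CharZero K] in
private theorem FinRep_anV_sum {P : Type*} {U : Set (Tor ι K)} (c : P → K)
    {F : P → Tor ι K → σ → K} (hF : ∀ p, AnV U (F p)) (T : Finset P) :
    AnV U (∑ p ∈ T, c p • F p) := by
  classical
  induction T using Finset.induction_on with
  | empty =>
    rw [Finset.sum_empty]
    exact FinRep_anV_zero U
  | insert p T hp ih =>
    rw [Finset.sum_insert hp]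
    exact FinRep_anV_add (FinRep_anV_smul _ (hF p)) ih

omit [Fintype σ] [DecidableEq ι] [IsUltrametricDist K] [CompleteSpace K] [IsAlgClosed K]
  [CharZero K] in
private theorem FinRep_op_sum {q : Tor ι K} {a b a' b' : ι → ℤ} {C : ℝ}
    {R : Tor κ K → (Tor ι K → σ → K) → Tor ι K → σ → K} (h : OpB q a b a' b' C R)
    {x : Tor κ K} (hx : x ∈ (circ : Set (Tor κ K))) {P : Type*} (c : P → K)
    {F : P → Tor ι K → σ → K} (hF : ∀ p, AnV (BB q a b) (F p)) (T : Finset P) :
    ∀ t ∈ BB q a' b', R x (∑ p ∈ T, c p • F p) t = ∑ p ∈ T, c p • R x (F p) t := by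
  classical
  induction T using Finset.induction_on with
  | empty =>
    intro t ht
    rw [Finset.sum_empty, Finset.sum_empty]
    have h1 := h.smul x hx 0 0 (FinRep_anV_zero _) t ht
    rw [zero_smul, zero_smul] at h1
    exact h1
  | insert p T hp ih =>
    intro t ht
    rw [Finset.sum_insert hp, Finset.sum_insert hp,
      h.add x hx _ _ (FinRep_anV_smul _ (hF p)) (FinRep_anV_sum c hF T) t ht,
      h.smul x hx _ _ (hF p) t ht, ih t ht]

omit [DecidableEq ι] [IsUltrametricDist K] [CompleteSpace K] [IsAlgClosed K] [CharZero K]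
  [Fintype σ] in
private theorem FinRep_E [DecidableEq σ] (q : Tor ι K) (a b k : ι → ℤ) (i : σ) :
    An2V q a b (fun (_ : Tor κ K) (t : Tor ι K) => (Pi.single i (mon k t) : σ → K)) := by
  intro j
  by_cases hj : j = i
  · subst hj
    unfold An2
    refine anOn_congr (fun z _ => ?_) (anOn_mon _ (Sum.elim (0 : κ → ℤ) k))
    unfold J2
    rw [mon_elim, mon_zero, one_mul]
    exact Pi.single_eq_same _ _
  · unfold An2
    refine anOn_congr (fun z _ => ?_) (anOn_const _ (0 : K))
    unfold J2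
    exact Pi.single_eq_of_ne hj _

theorem exists_finRep {m : ι → Tor ι K} (hm : Std m)
    {A : (ι → ℤ) → Tor κ K → Tor ι K → Matrix σ σ K} (hA : CocSys m A) :
    ∃ (N : ℕ) (β : Fin N → Tor κ K → Tor ι K → σ → K) (k : Fin N → ι → ℤ) (i : Fin N → σ),
      (∀ j, An2V (qq m) (1 : ι → ℤ) (1 : ι → ℤ) (β j)) ∧
      ∀ x ∈ (circ : Set (Tor κ K)), ∀ s ∈ Sol m A x,
        ∀ t ∈ BB (qq m) (1 : ι → ℤ) (1 : ι → ℤ),
          s t = ∑ j, cf (fun t => s t (i j)) (k j) • β j x t := by
  classical
  obtain ⟨C, L, hC, hL, hfix⟩ := exists_ext hm hA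
  have hq : ∀ i, ‖(qq m i : K)‖ < 1 := hm.lt
  have hq' : ∀ i, ‖(qq m i : K)‖ ≤ 1 := fun i => (hq i).le
  have hε : (0 : ℝ) < 1 / (2 * (C + 1)) := by positivity
  obtain ⟨S, hS⟩ := exists_trunc (κ := κ) (σ := σ) hq hε
  have hR := opB_comp hC hL hS
  have hR0 : 0 ≤ 1 / (2 * (C + 1)) * C := by positivity
  have hR1 : 1 / (2 * (C + 1)) * C < 1 := by
    rw [div_mul_eq_mul_div, one_mul, div_lt_one (by positivity)]
    linarith
  -- the basic functions
  have hneu : ∀ p : S × σ, ∃ β : Tor κ K → Tor ι K → σ → K,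
      An2V (qq m) (1 : ι → ℤ) (1 : ι → ℤ) β ∧
      ∀ x ∈ (circ : Set (Tor κ K)), ∀ t ∈ BB (qq m) (1 : ι → ℤ) (1 : ι → ℤ),
        β x t = (Pi.single p.2 (mon p.1.1 t) : σ → K) +
          (fun (x : Tor κ K) (s : Tor ι K → σ → K) => L x s - trF S (L x s)) x (β x) t :=
    fun p => neumann hR0 hR1 hR (FinRep_E (κ := κ) (qq m) 1 1 p.1.1 p.2)
  choose β hβ hβe using hneu
  have key : ∀ x ∈ (circ : Set (Tor κ K)), ∀ s ∈ Sol m A x,
      ∀ t ∈ BB (qq m) (1 : ι → ℤ) (1 : ι → ℤ),
        s t = ∑ p : S × σ, cf (fun t => s t p.2) p.1.1 • β p x t := by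
    intro x hx s hs
    have hsA : ∀ i, Ana fun t => s t i := hs.1
    have hs1 : AnV (BB (qq m) (1 : ι → ℤ) (1 : ι → ℤ)) s := fun i => ana_BB (hsA i) _ _ _
    have hβ1 : ∀ p : S × σ, AnV (BB (qq m) (1 : ι → ℤ) (1 : ι → ℤ)) (β p x) :=
      fun p i => an2_fib (hβ p i) hx
    have hB := FinRep_anV_sum (fun p : S × σ => cf (fun t => s t p.2) p.1.1) hβ1 Finset.univ
    have hu : AnV (BB (qq m) (1 : ι → ℤ) (1 : ι → ℤ))
        (s + (-1 : K) • ∑ p : S × σ, cf (fun t => s t p.2) p.1.1 • β p x) :=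
      FinRep_anV_add hs1 (FinRep_anV_smul _ hB)
    -- the equation for the solution
    have hcirc : (circ : Set (Tor ι K)) ⊆ BB (qq m) (2 : ι → ℤ) (2 : ι → ℤ) :=
      circ_subset_BB hq' (fun _ => by simp) (fun _ => by simp)
    have h12 : BB (qq m) (1 : ι → ℤ) (1 : ι → ℤ) ⊆ BB (qq m) (2 : ι → ℤ) (2 : ι → ℤ) :=
      BB_mono hq' (fun _ => by simp) (fun _ => by simp)
    have hcf : ∀ i, cf (fun t => L x s t i) = cf (fun t => s t i) := fun i =>
      cf_congr fun t ht => by rw [hfix x hx s hs t (hcirc ht)]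
    have htr : ∀ t, trF S (L x s) t = trF S s t := by
      intro t
      funext i
      unfold trF
      rw [hcf i]
    have hseq : ∀ t ∈ BB (qq m) (1 : ι → ℤ) (1 : ι → ℤ),
        (L x s - trF S (L x s)) t = s t - trF S s t := by
      intro t ht
      rw [Pi.sub_apply, htr, hfix x hx s hs t (h12 ht)]
    have hEsum : ∀ t, trF S s t =
        ∑ p : S × σ, cf (fun t => s t p.2) p.1.1 • (Pi.single p.2 (mon p.1.1 t) : σ → K) := by
      intro t
      funext i
      unfold trF
      rw [Finset.sum_apply, Fintype.sum_prod_type, ← Finset.sum_coe_sort]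
      refine Finset.sum_congr rfl fun k _ => ?_
      rw [Finset.sum_eq_single i]
      · rw [Pi.smul_apply, Pi.single_eq_same, smul_eq_mul]
      · intro j _ hj
        rw [Pi.smul_apply, Pi.single_eq_of_ne hj.symm, smul_zero]
      · intro h
        exact absurd (Finset.mem_univ i) h
    have hz := neumann_unique hR0 hR1 hR hx hu (fun t ht => by
      have a1 := hR.add x hx s ((-1 : K) • ∑ p : S × σ, cf (fun t => s t p.2) p.1.1 • β p x) hs1
        (FinRep_anV_smul _ hB) t ht
      have a2 := hR.smul x hx (-1) _ hB t ht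
      have a3 := FinRep_op_sum hR hx (fun p : S × σ => cf (fun t => s t p.2) p.1.1) hβ1
        Finset.univ t ht
      rw [a1, a2, a3]
      have a4 : (s + (-1 : K) • ∑ p : S × σ, cf (fun t => s t p.2) p.1.1 • β p x) t =
          s t + (-1 : K) • ∑ p : S × σ, cf (fun t => s t p.2) p.1.1 • β p x t := by
        rw [Pi.add_apply, Pi.smul_apply, Finset.sum_apply]
        rfl
      have a5 : ∑ p : S × σ, cf (fun t => s t p.2) p.1.1 • β p x t =
          ∑ p : S × σ, cf (fun t => s t p.2) p.1.1 • (Pi.single p.2 (mon p.1.1 t) : σ → K) +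
          ∑ p : S × σ, cf (fun t => s t p.2) p.1.1 • (L x (β p x) - trF S (L x (β p x))) t := by
        rw [← Finset.sum_add_distrib]
        refine Finset.sum_congr rfl fun p _ => ?_
        rw [hβe p x hx t ht, smul_add]
      rw [a4, a5, ← hEsum, hseq t ht, smul_add]
      module)
    intro t ht
    have h1 := hz t ht
    rw [Pi.add_apply, Pi.smul_apply, Finset.sum_apply] at h1
    have h2 : s t = ∑ p : S × σ, (cf (fun t => s t p.2) p.1.1 • β p x) t := by
      have h3 : s t - ∑ p : S × σ, (cf (fun t => s t p.2) p.1.1 • β p x) t = 0 := by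
        rw [← h1, neg_smul, one_smul, sub_eq_add_neg]
      exact sub_eq_zero.1 h3
    exact h2
  refine ⟨Fintype.card (S × σ), fun j => β ((Fintype.equivFin (S × σ)).symm j),
    fun j => ((Fintype.equivFin (S × σ)).symm j).1.1,
    fun j => ((Fintype.equivFin (S × σ)).symm j).2, fun j => hβ _, ?_⟩
  intro x hx s hs t ht
  rw [key x hx s hs t ht]
  exact (Equiv.sum_comp (Fintype.equivFin (S × σ)).symm
    (fun p : S × σ => cf (fun t => s t p.2) p.1.1 • β p x t)).symm

end Pool.Agent.Work.MP_6d379e_ag.Ab
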