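import Pool.Agent.Work.MP_6d379e_ag.Ab.Cf
import Pool.Agent.Work.MP_6d379e_ag.Ab.Mono

/-!
# Functions analytic on the whole torus   (size M)

* `ibox_subset_BB` : since `‖q i‖ < 1` choose `N` with `‖q i‖ ^ N ≤ r⁻¹` for all `i`.
* `BB_subset_ibox` : `r` = the maximum of `1`, `‖q i‖ ^ (-(b i))`, `(‖q i‖ ^ a i)⁻¹`.
* `ana_iff_BB` : `anOn_mono` and the two inclusions.
* closure properties: on each `ibox r` choose `q` with `‖q i‖ < 1` (a nontrivially normed field has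
  a nonzero element of norm `< 1`), so that `Ana` is analyticity on all `BB q N N`
  (`ana_iff_BB`), and use `Alg` there.
* `ana_comp` : `isMono_ibox` and `anOn_isMono`.
* `ana_eq_of_circ` : `eq_of_circ` on a box containing `t0` and `t`.
* matrices: entries of a product are finite sums of products.
-/

namespace Pool.Agent.Work.MP_6d379e_ag.Ab

variable {ι κ : Type*} [Fintype ι] [Fintype κ]
variable {K : Type*} [NontriviallyNormedField K]
variable {q : Tor ι K} {f g : Tor ι K → K}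

theorem exists_small (ι K : Type*) [NontriviallyNormedField K] :
    ∃ q : Tor ι K, ∀ i, ‖(q i : K)‖ < 1 := by
  obtain ⟨x, hx0, hx1⟩ := NormedField.exists_norm_lt_one K
  exact ⟨fun _ => Units.mk0 x (norm_pos_iff.1 hx0), fun _ => hx1⟩

private theorem npos (q : Tor ι K) (i : ι) : 0 < ‖(q i : K)‖ := norm_pos_iff.2 (q i).ne_zero

theorem ibox_subset_BB (hq : ∀ i, ‖(q i : K)‖ < 1) (r : ℝ) :
    ∃ N : ℕ, (ibox r : Set (Tor ι K)) ⊆ BB q (fun _ => (N : ℤ)) (fun _ => (N : ℤ)) := by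
  have hm : 0 < max r 1 := lt_of_lt_of_le one_pos (le_max_right r 1)
  choose n hn using fun i => exists_pow_lt_of_lt_one (inv_pos.2 hm) (hq i)
  refine ⟨∑ i, n i, fun t ht i => ?_⟩
  obtain ⟨h1, h2⟩ := ht i
  have hr : 0 < r := lt_of_lt_of_le (npos t i) h2
  have hle : n i ≤ ∑ i, n i :=
    Finset.single_le_sum (fun j _ => Nat.zero_le (n j)) (Finset.mem_univ i)
  have h3 : ‖(q i : K)‖ ^ (∑ i, n i) ≤ (max r 1)⁻¹ :=
    (pow_le_pow_of_le_one (npos q i).le (hq i).le hle).trans (hn i).le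
  have h4 : (max r 1)⁻¹ ≤ r⁻¹ := inv_anti₀ hr (le_max_left r 1)
  refine ⟨?_, ?_⟩
  · show ‖(q i : K)‖ ^ (((∑ i, n i : ℕ)) : ℤ) ≤ ‖(t i : K)‖
    rw [zpow_natCast]
    exact (h3.trans h4).trans h1
  · show ‖(t i : K)‖ ≤ ‖(q i : K)‖ ^ (-(((∑ i, n i : ℕ)) : ℤ))
    rw [zpow_neg, zpow_natCast]
    have h5 : r ≤ (‖(q i : K)‖ ^ (∑ i, n i))⁻¹ := by
      rw [← inv_inv r]
      exact inv_anti₀ (pow_pos (npos q i) _) (h3.trans h4)
    exact h2.trans h5

theorem BB_subset_ibox (q : Tor ι K) (a b : ι → ℤ) :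
    ∃ r : ℝ, 1 ≤ r ∧ BB q a b ⊆ ibox r := by
  have hnn : ∀ i ∈ (Finset.univ : Finset ι),
      0 ≤ ‖(q i : K)‖ ^ (-(b i)) + (‖(q i : K)‖ ^ a i)⁻¹ := fun i _ =>
    add_nonneg (zpow_pos (npos q i) _).le (inv_pos.2 (zpow_pos (npos q i) _)).le
  have hs := Finset.sum_nonneg hnn
  refine ⟨1 + ∑ i, (‖(q i : K)‖ ^ (-(b i)) + (‖(q i : K)‖ ^ a i)⁻¹), by linarith,
    fun t ht i => ?_⟩
  obtain ⟨h1, h2⟩ := ht i
  have h3 := Finset.single_le_sum hnn (Finset.mem_univ i)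
  have h4 : 0 < ‖(q i : K)‖ ^ (-(b i)) := zpow_pos (npos q i) _
  have h5 : 0 < (‖(q i : K)‖ ^ a i)⁻¹ := inv_pos.2 (zpow_pos (npos q i) _)
  refine ⟨?_, by linarith⟩
  refine le_trans ?_ h1
  rw [← inv_inv (‖(q i : K)‖ ^ a i)]
  exact inv_anti₀ h5 (by linarith)

theorem ana_iff_BB (hq : ∀ i, ‖(q i : K)‖ < 1) :
    Ana f ↔ ∀ N : ℕ, AnOn (BB q (fun _ => (N : ℤ)) (fun _ => (N : ℤ))) f := by
  constructor
  · intro hf N
    obtain ⟨r, hr, h⟩ := BB_subset_ibox q (fun _ => (N : ℤ)) (fun _ => (N : ℤ))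
    exact anOn_mono h (hf r hr)
  · intro hf r _
    obtain ⟨N, h⟩ := ibox_subset_BB hq r
    exact anOn_mono h (hf N)

theorem ana_BB (hf : Ana f) (q : Tor ι K) (a b : ι → ℤ) : AnOn (BB q a b) f := by
  obtain ⟨r, hr, h⟩ := BB_subset_ibox q a b
  exact anOn_mono h (hf r hr)

theorem ana_circ (hf : Ana f) : AnOn circ f := by
  have h := ana_BB hf 1 0 0
  rw [BB_one] at h
  exact h

theorem ana_const (c : K) : Ana fun _ : Tor ι K => c := fun _ _ => anOn_const _ c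

theorem ana_mon (k : ι → ℤ) : Ana (mon k : Tor ι K → K) := fun _ _ => anOn_mon _ k

theorem ana_add (hf : Ana f) (hg : Ana g) : Ana fun t => f t + g t :=
  fun r hr => anOn_add (hf r hr) (hg r hr)

theorem ana_neg (hf : Ana f) : Ana fun t => -f t := fun r hr => anOn_neg (hf r hr)

theorem ana_sub (hf : Ana f) (hg : Ana g) : Ana fun t => f t - g t :=
  fun r hr => anOn_sub (hf r hr) (hg r hr)

theorem ana_smul (c : K) (hf : Ana f) : Ana fun t => c * f t :=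
  fun r hr => anOn_smul c (hf r hr)

theorem ana_mul (hf : Ana f) (hg : Ana g) : Ana fun t => f t * g t := by
  obtain ⟨q, hq⟩ := exists_small ι K
  exact (ana_iff_BB hq).2 fun N => anOn_mul (ana_BB hf q _ _) (ana_BB hg q _ _)

theorem ana_sum {α : Type*} (S : Finset α) {F : α → Tor ι K → K}
    (hF : ∀ i ∈ S, Ana (F i)) : Ana fun t => ∑ i ∈ S, F i t :=
  fun r hr => anOn_sum S fun i hi => hF i hi r hr

theorem ana_comp {τ : Tor κ K → Tor ι K} (hτ : IsMono τ) (hf : Ana f) :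
    Ana (fun x => f (τ x)) := by
  intro r hr
  obtain ⟨r', hr', h⟩ := isMono_ibox hτ hr
  exact anOn_isMono hτ h (hf r' hr')

private theorem isMono_translate (s : Tor ι K) : IsMono (fun t : Tor ι K => s * t) :=
  isMono_mul (isMono_const s) isMono_id

theorem ana_translate (s : Tor ι K) (hf : Ana f) : Ana (fun t => f (s * t)) :=
  ana_comp (isMono_translate s) hf

private theorem mem_some_ibox (t : Tor ι K) : ∃ r : ℝ, 1 ≤ r ∧ t ∈ (ibox r : Set (Tor ι K)) := by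
  obtain ⟨r, hr, h⟩ := BB_subset_ibox t (fun _ => 1) (fun _ => -1)
  refine ⟨r, hr, h fun i => ?_⟩
  show ‖(t i : K)‖ ^ (1 : ℤ) ≤ ‖(t i : K)‖ ∧ ‖(t i : K)‖ ≤ ‖(t i : K)‖ ^ (-(-1 : ℤ))
  rw [neg_neg, zpow_one]
  exact ⟨le_rfl, le_rfl⟩

private theorem ibox_mono {r r' : ℝ} (hr : 1 ≤ r) (h : r ≤ r') :
    (ibox r : Set (Tor ι K)) ⊆ ibox r' := by
  intro t ht i
  exact ⟨(inv_anti₀ (by linarith) h).trans (ht i).1, (ht i).2.trans h⟩

theorem ana_eq_of_circ [IsUltrametricDist K] [CompleteSpace K] [IsAlgClosed K] [CharZero K]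
    (hf : Ana f) (hg : Ana g) (t0 : Tor ι K)
    (h : ∀ u ∈ (circ : Set (Tor ι K)), f (u * t0) = g (u * t0)) (t : Tor ι K) : f t = g t := by
  obtain ⟨q, hq⟩ := exists_small ι K
  obtain ⟨r1, hr1, h1⟩ := mem_some_ibox t0
  obtain ⟨r2, hr2, h2⟩ := mem_some_ibox t
  obtain ⟨N, hN⟩ := ibox_subset_BB hq (max r1 r2)
  have ht0 := hN (ibox_mono hr1 (le_max_left r1 r2) h1)
  have ht := hN (ibox_mono hr2 (le_max_right r1 r2) h2)
  exact eq_of_circ (fun i => (hq i).le) (fun i => by positivity) (ana_BB hf q _ _)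
    (ana_BB hg q _ _) ht0 h t ht

section mat

variable {ν ν' ν'' : Type*} [Fintype ν] [Fintype ν'] [Fintype ν'']

theorem anaM_const (A : Matrix ν ν' K) : AnaM fun _ : Tor ι K => A :=
  fun i j => ana_const (A i j)

theorem anaM_add {Φ Ψ : Tor ι K → Matrix ν ν' K} (hΦ : AnaM Φ) (hΨ : AnaM Ψ) :
    AnaM fun t => Φ t + Ψ t := fun i j => ana_add (hΦ i j) (hΨ i j)

theorem anaM_sub {Φ Ψ : Tor ι K → Matrix ν ν' K} (hΦ : AnaM Φ) (hΨ : AnaM Ψ) :
    AnaM fun t => Φ t - Ψ t := fun i j => ana_sub (hΦ i j) (hΨ i j)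

theorem anaM_smul (c : K) {Φ : Tor ι K → Matrix ν ν' K} (hΦ : AnaM Φ) :
    AnaM fun t => c • Φ t := fun i j => ana_smul c (hΦ i j)

theorem anaM_mul {Φ : Tor ι K → Matrix ν ν' K} {Ψ : Tor ι K → Matrix ν' ν'' K}
    (hΦ : AnaM Φ) (hΨ : AnaM Ψ) : AnaM fun t => Φ t * Ψ t := by
  intro i j
  have h1 : (fun t => (Φ t * Ψ t) i j) = fun t => ∑ k, Φ t i k * Ψ t k j := by
    funext t
    rw [Matrix.mul_apply]
  rw [h1]
  exact ana_sum Finset.univ fun k _ => ana_mul (hΦ i k) (hΨ k j)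

theorem anaM_translate (s : Tor ι K) {Φ : Tor ι K → Matrix ν ν' K} (hΦ : AnaM Φ) :
    AnaM fun t => Φ (s * t) := fun i j => ana_translate s (hΦ i j)

theorem anaM_comp {τ : Tor κ K → Tor ι K} (hτ : IsMono τ) {Φ : Tor ι K → Matrix ν ν' K}
    (hΦ : AnaM Φ) : AnaM fun x => Φ (τ x) := fun i j => ana_comp hτ (hΦ i j)

end mat

end Pool.Agent.Work.MP_6d379e_ag.Ab
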