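import Pool.Agent.Work.MP_6d379e_ag.Ab.Split

/-!
# Gluing in the direction `i`   (size M)

`f` is analytic on `BB q a b`, `g` on `BB q a' b'`, the exponents agree outside the direction `i`,
all exponents are nonnegative, and `f = g` on the polycircle.  Then `cf f = cf g =: c` (`cf_congr`)
and `Dec q a b c`, `Dec q a' b' c` (`cf_dec_BB`).  For `0 ≤ k i` one has
`Wt q a b' k = Wt q a' b' k` (`Wt_plus`), for `k i < 0` one has `Wt q a b' k = Wt q a b k`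
(`Wt_minus`).  Hence `Dec q a b' c` (the set for `ε` is contained in the union of the two finite
sets), so the series `hull f = hull g` is analytic on `BB q a b'`; it agrees with `f` on `BB q a b`
and with `g` on `BB q a' b'` (`hull_eq`).  The bound: `cf_le` for `f` and for `g`, then `ser_le`.

* `glue2_an2` : the same with parameters: `an2_of_ser` with `c x k = cf (F x) k`, `fib_cf_an`,
  `fib_unif` for `F` and for `G`.
* `ext_glue` : `BB q a b' ⊆ BB q a b ∪ BB q a' b'`: a point `t` of `BB q a b'` either has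
  `‖t i‖ ≤ ‖q i‖ ^ (-(b i))`, so `t ∈ BB q a b`, or
  `‖t i‖ > ‖q i‖ ^ (-(b i)) ≥ 1 ≥ ‖q i‖ ^ (a' i)`, so `t ∈ BB q a' b'`.  By `hull_eq` the function
  `hull f` equals `f` on both boxes, hence on `BB q a b'`; use `glue_anOn` with `g = f`.
* `ext_glue2` : `ext_glue` for the product torus and the direction `Sum.inr i`
  (parameters `Sum.elim 1 q`, `Sum.elim 0 a` etc.).
-/

namespace Pool.Agent.Work.MP_6d379e_ag.Ab

variable {ι κ : Type*} [Fintype ι] [Fintype κ]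
variable {K : Type*} [NontriviallyNormedField K] [IsUltrametricDist K]
variable [CompleteSpace K] [IsAlgClosed K] [CharZero K]
variable {q : Tor ι K} {a b a' b' : ι → ℤ} {f g : Tor ι K → K} {F G : Tor κ K → Tor ι K → K}
variable {i : ι}

private theorem zpow_le_one_of_nonneg₀' {x : ℝ} (h0 : 0 < x) (h1 : x ≤ 1) {n : ℤ} (hn : 0 ≤ n) :
    x ^ n ≤ 1 := by
  obtain ⟨k, rfl⟩ := Int.eq_ofNat_of_zero_le hn
  rw [zpow_natCast]
  exact pow_le_one₀ h0.le h1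

omit [IsUltrametricDist K] [CompleteSpace K] [IsAlgClosed K] [CharZero K] in
private theorem wt_cases (q : Tor ι K) (haj : ∀ j, j ≠ i → a' j = a j)
    (hbj : ∀ j, j ≠ i → b' j = b j) (k : ι → ℤ) :
    Wt q a b' k = Wt q a b k ∨ Wt q a b' k = Wt q a' b' k := by
  rcases lt_or_ge (k i) 0 with hk | hk
  · exact Or.inl (Wt_minus q hbj hk)
  · exact Or.inr (Wt_plus q haj hk).symm

omit [IsUltrametricDist K] [CompleteSpace K] [IsAlgClosed K] [CharZero K] in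
private theorem glue_dec {c : (ι → ℤ) → K} (haj : ∀ j, j ≠ i → a' j = a j)
    (hbj : ∀ j, j ≠ i → b' j = b j) (h1 : Dec q a b c) (h2 : Dec q a' b' c) :
    Dec q a b' c := by
  intro ε hε
  refine ((h1 ε hε).union (h2 ε hε)).subset fun k hk => ?_
  rcases wt_cases q haj hbj k with h | h
  · left
    show ε < ‖c k‖ * Wt q a b k
    rw [← h]
    exact hk
  · right
    show ε < ‖c k‖ * Wt q a' b' k
    rw [← h]
    exact hk

private theorem glue_dec' (hq : ∀ i, ‖(q i : K)‖ ≤ 1) (ha : ∀ i, 0 ≤ a i) (hb : ∀ i, 0 ≤ b i)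
    (ha' : ∀ i, 0 ≤ a' i) (hb' : ∀ i, 0 ≤ b' i)
    (haj : ∀ j, j ≠ i → a' j = a j) (hbj : ∀ j, j ≠ i → b' j = b j)
    (hf : AnOn (BB q a b) f) (hg : AnOn (BB q a' b') g)
    (h : ∀ t ∈ (circ : Set (Tor ι K)), f t = g t) : Dec q a b' (cf f) := by
  have h1 := cf_dec_BB hq ha hb hf
  have h2 := cf_dec_BB hq ha' hb' hg
  rw [← cf_congr h] at h2
  exact glue_dec haj hbj h1 h2

theorem glue_anOn (hq : ∀ i, ‖(q i : K)‖ ≤ 1) (ha : ∀ i, 0 ≤ a i) (hb : ∀ i, 0 ≤ b i)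
    (ha' : ∀ i, 0 ≤ a' i) (hb' : ∀ i, 0 ≤ b' i)
    (haj : ∀ j, j ≠ i → a' j = a j) (hbj : ∀ j, j ≠ i → b' j = b j)
    (hf : AnOn (BB q a b) f) (hg : AnOn (BB q a' b') g)
    (h : ∀ t ∈ (circ : Set (Tor ι K)), f t = g t) : AnOn (BB q a b') (hull f) :=
  ser_anOn (glue_dec' hq ha hb ha' hb' haj hbj hf hg h)

theorem glue_eq (hq : ∀ i, ‖(q i : K)‖ ≤ 1)
    (ha' : ∀ i, 0 ≤ a' i) (hb' : ∀ i, 0 ≤ b' i)
    (hg : AnOn (BB q a' b') g)
    (h : ∀ t ∈ (circ : Set (Tor ι K)), f t = g t) {t : Tor ι K} (ht : t ∈ BB q a' b') :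
    hull f t = g t := by
  have h1 : hull f = hull g := by
    unfold hull
    rw [cf_congr h]
  rw [h1]
  exact hull_eq hq ha' hb' hg ht

theorem glue_le (hq : ∀ i, ‖(q i : K)‖ ≤ 1) (ha : ∀ i, 0 ≤ a i) (hb : ∀ i, 0 ≤ b i)
    (ha' : ∀ i, 0 ≤ a' i) (hb' : ∀ i, 0 ≤ b' i)
    (haj : ∀ j, j ≠ i → a' j = a j) (hbj : ∀ j, j ≠ i → b' j = b j)
    (hf : AnOn (BB q a b) f) (hg : AnOn (BB q a' b') g)
    (h : ∀ t ∈ (circ : Set (Tor ι K)), f t = g t) {C : ℝ}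
    (hfC : ∀ t ∈ BB q a b, ‖f t‖ ≤ C) (hgC : ∀ t ∈ BB q a' b', ‖g t‖ ≤ C)
    {t : Tor ι K} (ht : t ∈ BB q a b') : ‖hull f t‖ ≤ C := by
  have h1 : (1 : Tor ι K) ∈ BB q a b := circ_subset_BB hq ha hb one_mem_circ
  have hC : 0 ≤ C := (norm_nonneg _).trans (hfC 1 h1)
  refine ser_le (glue_dec' hq ha hb ha' hb' haj hbj hf hg h) ht hC fun k => ?_
  rcases wt_cases q haj hbj k with h2 | h2
  · rw [h2]
    exact cf_le hq ha hb hf hfC k
  · rw [h2, cf_congr h]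
    exact cf_le hq ha' hb' hg hgC k

theorem glue_an2 (hq : ∀ i, ‖(q i : K)‖ ≤ 1) (ha : ∀ i, 0 ≤ a i) (hb : ∀ i, 0 ≤ b i)
    (ha' : ∀ i, 0 ≤ a' i) (hb' : ∀ i, 0 ≤ b' i)
    (haj : ∀ j, j ≠ i → a' j = a j) (hbj : ∀ j, j ≠ i → b' j = b j)
    (hF : An2 q a b F) (hG : An2 q a' b' G)
    (h : ∀ x ∈ (circ : Set (Tor κ K)), ∀ t ∈ (circ : Set (Tor ι K)), F x t = G x t) :
    An2 q a b' (fun x => hull (F x)) := by
  refine an2_of_ser (c := fun x k => cf (F x) k) (fun k => fib_cf_an hq ha hb hF k) ?_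
  intro ε hε
  obtain ⟨S1, h1⟩ := fib_unif hq ha hb hF hε
  obtain ⟨S2, h2⟩ := fib_unif hq ha' hb' hG hε
  classical
  refine ⟨S1 ∪ S2, fun x hx k hk => ?_⟩
  rw [Finset.mem_union, not_or] at hk
  show ‖cf (F x) k‖ * Wt q a b' k ≤ ε
  rcases wt_cases q haj hbj k with h3 | h3
  · rw [h3]
    exact h1 x hx k hk.1
  · rw [h3, cf_congr (h x hx)]
    exact h2 x hx k hk.2

theorem ext_glue (hq : ∀ i, ‖(q i : K)‖ ≤ 1) (ha : ∀ i, 0 ≤ a i) (hb : ∀ i, 0 ≤ b i)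
    (ha' : ∀ i, 0 ≤ a' i) (hb' : ∀ i, 0 ≤ b' i)
    (haj : ∀ j, j ≠ i → a' j = a j) (hbj : ∀ j, j ≠ i → b' j = b j)
    (hf : AnOn (BB q a b) f) (hg : AnOn (BB q a' b') f) : AnOn (BB q a b') f := by
  refine anOn_congr (f := hull f) (fun t ht => ?_)
    (glue_anOn hq ha hb ha' hb' haj hbj hf hg fun _ _ => rfl)
  by_cases h1 : ‖(t i : K)‖ ≤ ‖(q i : K)‖ ^ (-(b i))
  · refine (hull_eq hq ha hb hf fun j => ?_).symm
    by_cases hj : j = i
    · subst hj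
      exact ⟨(ht j).1, h1⟩
    · refine ⟨(ht j).1, ?_⟩
      rw [← hbj j hj]
      exact (ht j).2
  · refine (hull_eq hq ha' hb' hg fun j => ?_).symm
    by_cases hj : j = i
    · subst hj
      refine ⟨?_, (ht j).2⟩
      have hpos : 0 < ‖(q j : K)‖ := norm_pos_iff.2 (q j).ne_zero
      have h2 : (1 : ℝ) ≤ ‖(q j : K)‖ ^ (-(b j)) := by
        rw [zpow_neg]
        refine (one_le_inv₀ (zpow_pos hpos _)).2 ?_
        exact zpow_le_one_of_nonneg₀' hpos (hq j) (hb j)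
      have h3 : ‖(q j : K)‖ ^ (a' j) ≤ 1 := zpow_le_one_of_nonneg₀' hpos (hq j) (ha' j)
      push Not at h1
      exact h3.trans (h2.trans h1.le)
    · refine ⟨?_, (ht j).2⟩
      rw [haj j hj]
      exact (ht j).1

theorem ext_glue2 (hq : ∀ i, ‖(q i : K)‖ ≤ 1) (ha : ∀ i, 0 ≤ a i) (hb : ∀ i, 0 ≤ b i)
    (ha' : ∀ i, 0 ≤ a' i) (hb' : ∀ i, 0 ≤ b' i)
    (haj : ∀ j, j ≠ i → a' j = a j) (hbj : ∀ j, j ≠ i → b' j = b j)
    (hF : An2 q a b F) (hG : An2 q a' b' F) : An2 q a b' F := by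
  refine ext_glue (i := Sum.inr i) (norm_elim_le_one hq) ?_ ?_ ?_ ?_ ?_ ?_ hF hG
  · rintro (j | j)
    · exact le_rfl
    · exact ha j
  · rintro (j | j)
    · exact le_rfl
    · exact hb j
  · rintro (j | j)
    · exact le_rfl
    · exact ha' j
  · rintro (j | j)
    · exact le_rfl
    · exact hb' j
  · rintro (j | j) hj
    · rfl
    · exact haj j fun e => hj (by rw [e])
  · rintro (j | j) hj
    · rfl
    · exact hbj j fun e => hj (by rw [e])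

end Pool.Agent.Work.MP_6d379e_ag.Ab
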