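import Pool.Agent.Work.MP_6d379e_ag.Ab.GxA

/-!
# Extension of local solutions: analyticity   (size M)

Let `q = qq m`, `G = Gx m A x (S x)`.  On `BB q 1 1` it equals `S x` (`gx_local`), so it is
(jointly) analytic there.  Claim: it is jointly analytic on `BB q a b` for all
`a b : ι → ℤ` with `1 ≤ a i`, `1 ≤ b i`.  Induction on `∑ i, (a i + b i)`, or: if it holds for
`(a, b)` then it holds for `(a, b + e)` and for `(a + e, b)`, `e = Pi.single i 1`.
* `(a, b + e)` : for `t ∈ BB q (a - e) (b + e)` one has `lat m e * t ∈ BB q a b`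
  (`lat_mul_mem_BB`), and `G t = A e x t *ᵥ G (lat m e * t)` (`gx_eqn`), so `G` is jointly analytic
  on `BB q (a - e) (b + e)` (monomial substitution, products); all exponents are nonnegative, and
  `ext_glue2` gives `BB q a (b + e)`.
* `(a + e, b)` : for `t ∈ BB q (a + e) (b - e)` use `Pi.single i (-1)`: `G` is jointly analytic on
  `BB q (a + e) (b - e)` and on `BB q a b`; `ext_glue2` with the first box `(a + e, b - e)` and the
  second box `(a, b)` gives `BB q (a + e) b`.
`ana2_iff_An2` then gives `Ana2` (for `N ≥ 1`; the box with `N = 0` is contained in the one with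
`N = 1`).
* `gx_fib` : the same with a single parameter: apply the same argument with `ext_glue` (or apply
  `gx_joint` to the empty index type of parameters, with `A' l _ t = A l x t`); the functional
  equation is `gx_eqn`.
-/

namespace Pool.Agent.Work.MP_6d379e_ag.Ab

variable {ι κ σ : Type*} [Fintype ι] [Fintype κ] [Fintype σ] [DecidableEq ι]
variable {K : Type*} [NontriviallyNormedField K] [IsUltrametricDist K]
variable [CompleteSpace K] [IsAlgClosed K] [CharZero K]
variable {m : ι → Tor ι K} {A : (ι → ℤ) → Tor κ K → Tor ι K → Matrix σ σ K}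

omit [DecidableEq ι] in
/-- translation of the box by a lattice element -/
private theorem gb_shift (hm : Std m) (hA : CocSys m A) {G : Tor κ K → Tor ι K → σ → K}
    (l : ι → ℤ) (hG : ∀ x ∈ (circ : Set (Tor κ K)), ∀ t,
      G x t = (A l x t).mulVec (G x (lat m l * t))) {a b : ι → ℤ} (h : An2V (qq m) a b G) :
    An2V (qq m) (a - l) (b + l) G := by
  intro j0
  have hτ : IsMono (fun z : Tor (κ ⊕ ι) K =>
      (Sum.elim (fun j => z (Sum.inl j)) (lat m l * fun i => z (Sum.inr i)) :
        Tor (κ ⊕ ι) K)) :=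
    isMono_elim isMono_inl (isMono_mul (isMono_const (lat m l)) isMono_inr)
  have h3 : ∀ i1, An2 (qq m) (a - l) (b + l) (fun x t => G x (lat m l * t) i1) := by
    intro i1
    have h4 := anOn_isMono hτ (U := BB (Sum.elim (1 : Tor κ K) (qq m))
      (Sum.elim (0 : κ → ℤ) (a - l)) (Sum.elim (0 : κ → ℤ) (b + l))) (fun z hz => by
        rw [mem_BB_sum] at hz ⊢
        exact ⟨hz.1, (lat_mul_mem_BB hm l a b _).2 hz.2⟩) (h i1)
    exact h4
  have h2 : ∀ i1, An2 (qq m) (a - l) (b + l) (fun x t => A l x t j0 i1) :=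
    fun i1 => ana2_An2 (hA.an l j0 i1) _ _ _
  refine anOn_congr (fun z hz => ?_) (anOn_sum Finset.univ
    (F := fun i1 z => J2 (fun x t => A l x t j0 i1) z * J2 (fun x t => G x (lat m l * t) i1) z)
    fun i1 _ => anOn_mul (h2 i1) (h3 i1))
  rw [mem_BB_sum] at hz
  show G (fun j => z (Sum.inl j)) (fun i => z (Sum.inr i)) j0 = _
  rw [hG _ hz.1]
  rfl

/-- all boxes -/
private theorem gb_all (hm : Std m) (hA : CocSys m A) {G : Tor κ K → Tor ι K → σ → K}
    (hG : ∀ l : ι → ℤ, ∀ x ∈ (circ : Set (Tor κ K)), ∀ t,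
      G x t = (A l x t).mulVec (G x (lat m l * t)))
    (h1 : An2V (qq m) (1 : ι → ℤ) (1 : ι → ℤ) G) (n : ℕ) :
    ∀ a b : ι → ℤ, (∀ i, 1 ≤ a i) → (∀ i, 1 ≤ b i) → ∑ i, (a i + b i) ≤ n →
      An2V (qq m) a b G := by
  have hq := qq_le hm
  have he1 : ∀ i0 : ι, ∀ j, j ≠ i0 → (Pi.single i0 (1 : ℤ) : ι → ℤ) j = 0 :=
    fun i0 j hj => by rw [Pi.single_apply, if_neg hj]
  have he0 : ∀ i0 : ι, (Pi.single i0 (1 : ℤ) : ι → ℤ) i0 = 1 :=
    fun i0 => by rw [Pi.single_apply, if_pos rfl]
  have hes : ∀ i0 : ι, ∑ i, (Pi.single i0 (1 : ℤ) : ι → ℤ) i = 1 := fun i0 => by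
    rw [Finset.sum_eq_single i0 (fun j _ hj => he1 i0 j hj)
      (fun h => absurd (Finset.mem_univ i0) h), he0]
  -- the two steps
  have hb : ∀ (i0 : ι) (a b : ι → ℤ), (∀ i, 1 ≤ a i) → (∀ i, 1 ≤ b i) →
      An2V (qq m) a b G → An2V (qq m) a (b + Pi.single i0 1) G := by
    intro i0 a b ha hb h j0
    have h2 := gb_shift hm hA (Pi.single i0 1) (hG _) h
    refine ext_glue2 (i := i0) hq (a := a) (b := b) (a' := a - Pi.single i0 1)
      (b' := b + Pi.single i0 1) (fun i => by have := ha i; omega)
      (fun i => by have := hb i; omega) (fun i => ?_) (fun i => ?_) (fun j hj => ?_)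
      (fun j hj => ?_) (h j0) (h2 j0)
    · rw [Pi.sub_apply]
      by_cases hi : i = i0
      · rw [hi, he0]
        have := ha i0
        omega
      · rw [he1 i0 i hi]
        have := ha i
        omega
    · rw [Pi.add_apply]
      by_cases hi : i = i0
      · rw [hi, he0]
        have := hb i0
        omega
      · rw [he1 i0 i hi]
        have := hb i
        omega
    · rw [Pi.sub_apply, he1 i0 j hj, sub_zero]
    · rw [Pi.add_apply, he1 i0 j hj, add_zero]
  have ha : ∀ (i0 : ι) (a b : ι → ℤ), (∀ i, 1 ≤ a i) → (∀ i, 1 ≤ b i) →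
      An2V (qq m) a b G → An2V (qq m) (a + Pi.single i0 1) b G := by
    intro i0 a b ha hb h j0
    have h2 := gb_shift hm hA (-Pi.single i0 1) (hG _) h
    rw [sub_neg_eq_add, ← sub_eq_add_neg] at h2
    refine ext_glue2 (i := i0) hq (a := a + Pi.single i0 1) (b := b - Pi.single i0 1) (a' := a)
      (b' := b) (fun i => ?_) (fun i => ?_) (fun i => by have := ha i; omega)
      (fun i => by have := hb i; omega) (fun j hj => ?_)
      (fun j hj => ?_) (h2 j0) (h j0)
    · rw [Pi.add_apply]
      by_cases hi : i = i0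
      · rw [hi, he0]
        have := ha i0
        omega
      · rw [he1 i0 i hi]
        have := ha i
        omega
    · rw [Pi.sub_apply]
      by_cases hi : i = i0
      · rw [hi, he0]
        have := hb i0
        omega
      · rw [he1 i0 i hi]
        have := hb i
        omega
    · rw [Pi.add_apply, he1 i0 j hj, add_zero]
    · rw [Pi.sub_apply, he1 i0 j hj, sub_zero]
  induction n with
  | zero =>
    intro a b ha1 hb1 hs
    have hem : ∀ i : ι, False := by
      intro i
      have h2 : a i + b i ≤ ∑ i, (a i + b i) :=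
        Finset.single_le_sum (f := fun i => a i + b i)
          (fun j _ => by have := ha1 j; have := hb1 j; show 0 ≤ a j + b j; omega)
          (Finset.mem_univ i)
      have := ha1 i
      have := hb1 i
      have h3 : ((0 : ℕ) : ℤ) = 0 := rfl
      omega
    have e1 : a = 1 := funext fun i => (hem i).elim
    have e2 : b = 1 := funext fun i => (hem i).elim
    rw [e1, e2]
    exact h1
  | succ n ih =>
    intro a b ha1 hb1 hs
    by_cases hall : (∀ i, a i = 1) ∧ ∀ i, b i = 1
    · have e1 : a = 1 := funext hall.1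
      have e2 : b = 1 := funext hall.2
      rw [e1, e2]
      exact h1
    · rw [not_and_or, not_forall, not_forall] at hall
      rcases hall with ⟨i0, hi0⟩ | ⟨i0, hi0⟩
      · have h2 := ih (a - Pi.single i0 1) b (fun i => by
          rw [Pi.sub_apply]
          by_cases hi : i = i0
          · rw [hi, he0]
            have := ha1 i0
            omega
          · rw [he1 i0 i hi]
            have := ha1 i
            omega) hb1 (by
          have h3 : ∑ i, ((a - Pi.single i0 1 : ι → ℤ) i + b i) +
              ∑ i, (Pi.single i0 (1 : ℤ) : ι → ℤ) i = ∑ i, (a i + b i) := by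
            rw [← Finset.sum_add_distrib]
            refine Finset.sum_congr rfl fun i _ => ?_
            rw [Pi.sub_apply]
            ring
          rw [hes i0] at h3
          push_cast at hs
          linarith)
        have h4 := ha i0 (a - Pi.single i0 1) b (fun i => by
          rw [Pi.sub_apply]
          by_cases hi : i = i0
          · rw [hi, he0]
            have := ha1 i0
            omega
          · rw [he1 i0 i hi]
            have := ha1 i
            omega) hb1 h2
        rw [sub_add_cancel] at h4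
        exact h4
      · have h2 := ih a (b - Pi.single i0 1) ha1 (fun i => by
          rw [Pi.sub_apply]
          by_cases hi : i = i0
          · rw [hi, he0]
            have := hb1 i0
            omega
          · rw [he1 i0 i hi]
            have := hb1 i
            omega) (by
          have h3 : ∑ i, (a i + (b - Pi.single i0 1 : ι → ℤ) i) +
              ∑ i, (Pi.single i0 (1 : ℤ) : ι → ℤ) i = ∑ i, (a i + b i) := by
            rw [← Finset.sum_add_distrib]
            refine Finset.sum_congr rfl fun i _ => ?_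
            rw [Pi.sub_apply]
            ring
          rw [hes i0] at h3
          push_cast at hs
          linarith)
        have h4 := hb i0 a (b - Pi.single i0 1) ha1 (fun i => by
          rw [Pi.sub_apply]
          by_cases hi : i = i0
          · rw [hi, he0]
            have := hb1 i0
            omega
          · rw [he1 i0 i hi]
            have := hb1 i
            omega) h2
        rw [sub_add_cancel] at h4
        exact h4

theorem gx_joint (hm : Std m) (hA : CocSys m A) {S : Tor κ K → Tor ι K → σ → K}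
    (hS : An2V (qq m) (1 : ι → ℤ) (1 : ι → ℤ) S)
    (hl : ∀ x ∈ (circ : Set (Tor κ K)), LocSol m A x (S x)) (i : σ) :
    Ana2 fun x t => Gx m A x (S x) t i := by
  have hq := qq_le hm
  rw [ana2_iff_An2 (qq_lt hm)]
  intro N
  have hbase : An2V (qq m) (1 : ι → ℤ) (1 : ι → ℤ) (fun x t => Gx m A x (S x) t) := by
    intro j0
    refine anOn_congr (fun z hz => ?_) (hS j0)
    rw [mem_BB_sum] at hz
    show Gx m A (fun j => z (Sum.inl j)) (S fun j => z (Sum.inl j)) (fun i => z (Sum.inr i)) j0 =
      S (fun j => z (Sum.inl j)) (fun i => z (Sum.inr i)) j0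
    rw [gx_local hm hA hz.1 (hl _ hz.1) hz.2]
  have h1 := gb_all hm hA (G := fun x t => Gx m A x (S x) t)
    (fun l x hx t => gx_eqn hm hA hx (hl x hx) l t) hbase
    (∑ _i : ι, ((N + 1) + (N + 1))) (fun _ => (N : ℤ) + 1) (fun _ => (N : ℤ) + 1)
    (fun _ => by omega) (fun _ => by omega) (by push_cast; exact le_rfl) i
  refine anOn_mono (fun z hz => ?_) h1
  rw [mem_BB_sum] at hz ⊢
  exact ⟨hz.1, BB_mono hq (fun _ => by show (N : ℤ) ≤ N + 1; omega)
    (fun _ => by show (N : ℤ) ≤ N + 1; omega) hz.2⟩

theorem gx_fib (hm : Std m) (hA : CocSys m A) {x : Tor κ K} (hx : x ∈ (circ : Set (Tor κ K)))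
    {s : Tor ι K → σ → K} (hs : AnV (BB (qq m) (1 : ι → ℤ) (1 : ι → ℤ)) s)
    (hl : LocSol m A x s) : Gx m A x s ∈ Sol m A x := by
  refine ⟨fun i => ?_, fun l t => gx_eqn hm hA hx hl l t⟩
  have hA' : CocSys m (fun l (_ : Tor (Fin 0) K) t => A l x t) := by
    refine ⟨fun l i j => ?_, fun l l' _ _ t => hA.coc l l' x hx t⟩
    exact ana2_of_ana (τ := fun (_ : Tor (Fin 0) K) (t : Tor ι K) => t) isMono_inr
      (f := fun t => A l x t i j) (ana2_fib (hA.an l i j) hx)
  have hS : An2V (qq m) (1 : ι → ℤ) (1 : ι → ℤ) (fun (_ : Tor (Fin 0) K) => s) := by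
    intro j0
    have h1 := anOn_isMono (isMono_inr (κ := Fin 0) (ι := ι) (K := K))
      (U := BB (Sum.elim (1 : Tor (Fin 0) K) (qq m)) (Sum.elim (0 : Fin 0 → ℤ) (1 : ι → ℤ))
        (Sum.elim (0 : Fin 0 → ℤ) (1 : ι → ℤ)))
      (fun z hz => ((mem_BB_sum _ _ _ z).1 hz).2) (hs j0)
    exact h1
  have h2 := gx_joint hm hA' hS (fun x' _ => hl) i
  exact ana2_fib h2 (x := 1) one_mem_circ

end Pool.Agent.Work.MP_6d379e_ag.Ab
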