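import Pool.Agent.Work.MP_6d379e_ag.Ab.XDefs
import Pool.Agent.Work.MP_6d379e_ag.Ab.Dom

/-!
# Analytic sections of a kernel of constant dimension   (size M-L)

Let `r = N - d`.  For a point `x` of `circ` the span of the rows `ρ x`, `ρ ∈ R`, in `Fin N → K`
has dimension `N - finrank (kerR R x) = r` (the kernel is the orthogonal complement for the
standard bilinear form).  Choose `r` rows `ρ_1, ..., ρ_r ∈ R` such that `ρ_1 x1, ..., ρ_r x1` is a
basis of the span at `x1`, and complete it by standard basis vectors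
`e_{j_1}, ..., e_{j_d}` to a basis of `Fin N → K`.  Let `M x` be the `N x N` matrix with these rows
(the first ones depend on `x`), `D x = det (M x)`, analytic on `circ`, `D x1 ≠ 0`.  Let `w` be the
vector with entries `0` at the first `r` places and `c1 j_a` at the other places, and
`v x = (M x).adjugate *ᵥ w`.  Then `M x *ᵥ v x = D x • w`, so `ρ_i x · v x = 0`, `i ≤ r`.

Let `ρ ∈ R`.  If `x ∈ circ` and `D x ≠ 0` then `ρ_1 x, ..., ρ_r x` are independent, so they span the
`r`-dimensional span of all rows at `x`, and `ρ x · v x = 0`.  So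
`D x * (ρ x · v x) = 0` for all `x ∈ circ`; by `mul_eq_zero_circ` and `D x1 ≠ 0` we get
`ρ x · v x = 0` on `circ`.  Finally `M x1 *ᵥ c1 = w` (as `c1` is in the kernel), so
`v x1 = D x1 • c1`, and `c x = (D x1)⁻¹ • v x` is the section.  The entries of `c` are polynomials
in analytic functions (`anOn_mul_circ`, `anOn_sum`, products over `Fin N`).
-/

namespace Pool.Agent.Work.MP_6d379e_ag.Ab

variable {κ : Type*} [Fintype κ]
variable {K : Type*} [NontriviallyNormedField K] [IsUltrametricDist K]
variable [CompleteSpace K] [IsAlgClosed K] [CharZero K]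

omit [Fintype κ] [IsUltrametricDist K] [CompleteSpace K] [IsAlgClosed K] [CharZero K] in
private theorem span_dot {N : ℕ} {S : Set (Fin N → K)} {c : Fin N → K}
    (h : ∀ w ∈ S, w ⬝ᵥ c = 0) {w : Fin N → K} (hw : w ∈ Submodule.span K S) : w ⬝ᵥ c = 0 := by
  induction hw using Submodule.span_induction with
  | mem w hw => exact h w hw
  | zero => exact zero_dotProduct c
  | add w w' _ _ h1 h2 => rw [add_dotProduct, h1, h2, add_zero]
  | smul a w _ h1 => rw [smul_dotProduct, h1, smul_zero]

omit [IsUltrametricDist K] [CompleteSpace K] [IsAlgClosed K] [CharZero K] in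
private theorem ker_fin {N : ℕ} (R : Set (Tor κ K → Fin N → K)) (x : Tor κ K) :
    Module.finrank K (Submodule.span K ((fun ρ : Tor κ K → Fin N → K => ρ x) '' R)) +
      Module.finrank K (kerR R x) = N := by
  have h1 : kerR R x = Submodule.dualCoannihilator
      ((Submodule.span K ((fun ρ : Tor κ K → Fin N → K => ρ x) '' R)).map
        (dotProductEquiv K (Fin N) : (Fin N → K) →ₗ[K] Module.Dual K (Fin N → K))) := by
    ext c
    rw [Submodule.mem_dualCoannihilator]
    constructor
    · intro hc φ hφ
      obtain ⟨w, hw, rfl⟩ := hφ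
      show w ⬝ᵥ c = 0
      refine span_dot ?_ hw
      rintro _ ⟨ρ, hρ, rfl⟩
      exact hc ρ hρ
    · intro h ρ hρ
      exact h _ ⟨ρ x, Submodule.subset_span ⟨ρ, hρ, rfl⟩, rfl⟩
  have h2 := Subspace.finrank_add_finrank_dualCoannihilator_eq
    ((Submodule.span K ((fun ρ : Tor κ K → Fin N → K => ρ x) '' R)).map
        (dotProductEquiv K (Fin N) : (Fin N → K) →ₗ[K] Module.Dual K (Fin N → K)))
  rw [← h1, LinearEquiv.finrank_map_eq, Module.finrank_fin_fun] at h2
  exact h2

omit [IsUltrametricDist K] [CompleteSpace K] [IsAlgClosed K] [CharZero K] in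
private theorem anOn_prod_circ {α : Type*} (S : Finset α) {F : α → Tor κ K → K}
    (hF : ∀ i ∈ S, AnOn circ (F i)) : AnOn circ fun t => ∏ i ∈ S, F i t := by
  have h := anOn_prod (q := (1 : Tor κ K)) (a := 0) (b := 0) S (F := F)
  rw [BB_one] at h
  exact h hF

omit [IsUltrametricDist K] [CompleteSpace K] [IsAlgClosed K] [CharZero K] in
private theorem anOn_det {N : ℕ} {M : Tor κ K → Matrix (Fin N) (Fin N) K}
    (hM : ∀ i j, AnOn circ fun x => M x i j) : AnOn circ fun x => (M x).det := by
  have h1 : (fun x => (M x).det) = fun x => ∑ σ : Equiv.Perm (Fin N),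
      (((Equiv.Perm.sign σ : ℤ) : K) * ∏ i, M x (σ i) i) := by
    funext x
    rw [Matrix.det_apply']
  rw [h1]
  exact anOn_sum Finset.univ fun σ _ =>
    anOn_smul _ (anOn_prod_circ Finset.univ fun i _ => hM (σ i) i)

omit [IsUltrametricDist K] [CompleteSpace K] [IsAlgClosed K] [CharZero K] in
private theorem anOn_adj {N : ℕ} {M : Tor κ K → Matrix (Fin N) (Fin N) K}
    (hM : ∀ i j, AnOn circ fun x => M x i j) (i j : Fin N) :
    AnOn circ fun x => (M x).adjugate i j := by
  have h1 : (fun x => (M x).adjugate i j) =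
      fun x => ((M x).updateRow j (Pi.single i 1)).det := by
    funext x
    rw [Matrix.adjugate_apply]
  rw [h1]
  refine anOn_det fun k l => ?_
  by_cases hk : k = j
  · subst hk
    have h2 : (fun x => ((M x).updateRow k (Pi.single i 1)) k l) =
        fun _ : Tor κ K => (Pi.single i 1 : Fin N → K) l := by
      funext x
      rw [Matrix.updateRow_self]
    rw [h2]
    exact anOn_const _ _
  · have h2 : (fun x => ((M x).updateRow j (Pi.single i 1)) k l) = fun x => M x k l := by
      funext x
      rw [Matrix.updateRow_ne hk]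
    rw [h2]
    exact hM k l

omit [IsUltrametricDist K] [CompleteSpace K] [IsAlgClosed K] [CharZero K] in
private theorem exists_matrix {N : ℕ} {R : Set (Tor κ K → Fin N → K)}
    (hR : ∀ ρ ∈ R, ∀ j, AnOn circ fun x => ρ x j) (x1 : Tor κ K) :
    ∃ (M : Tor κ K → Matrix (Fin N) (Fin N) K) (I : Set (Fin N)),
      (∀ i j, AnOn circ fun x => M x i j) ∧ (M x1).det ≠ 0 ∧
      (∀ i ∈ I, ∃ ρ ∈ R, ∀ x, M x i = ρ x) ∧
      Module.finrank K (Submodule.span K ((fun ρ : Tor κ K → Fin N → K => ρ x1) '' R)) =
        Nat.card I := by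
  classical
  obtain ⟨b, hbS, hbspan, hbli⟩ := exists_linearIndependent K
    ((fun ρ : Tor κ K → Fin N → K => ρ x1) '' R)
  obtain ⟨B, -, hbB, hspan, hBli⟩ := exists_linearIndepOn_id_extension (K := K)
    (s := b) (t := Set.univ) hbli (Set.subset_univ b)
  have hBli' : LinearIndependent K ((↑) : B → (Fin N → K)) := hBli
  have htop : (⊤ : Submodule K (Fin N → K)) ≤ Submodule.span K (Set.range ((↑) : B → (Fin N → K))) := by
    rw [Subtype.range_coe]
    intro w _
    exact hspan (Set.mem_univ w)
  let e0 : Module.Basis B K (Fin N → K) := Module.Basis.mk hBli' htop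
  haveI : Finite B := hBli'.finite
  haveI : Fintype B := Fintype.ofFinite B
  have hcard : Fintype.card B = N := by
    rw [← Module.finrank_eq_card_basis e0, Module.finrank_fin_fun]
  let e : Fin N ≃ B := (Fintype.equivFinOfCardEq hcard).symm
  have hch : ∀ y : b, ∃ ρ ∈ R, ρ x1 = (y : Fin N → K) := by
    intro y
    obtain ⟨ρ, hρ, h⟩ := hbS y.2
    exact ⟨ρ, hρ, h⟩
  choose rr hrR hrx using hch
  let M : Tor κ K → Matrix (Fin N) (Fin N) K := fun x i =>
    if h : ((e i : B) : Fin N → K) ∈ b then rr ⟨_, h⟩ x else (e i : B)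
  have hM1 : ∀ i, M x1 i = ((e i : B) : Fin N → K) := by
    intro i
    show (if h : ((e i : B) : Fin N → K) ∈ b then rr ⟨_, h⟩ x1 else (e i : B)) = _
    split_ifs with h
    · exact hrx ⟨_, h⟩
    · rfl
  refine ⟨M, {i | ((e i : B) : Fin N → K) ∈ b}, ?_, ?_, ?_, ?_⟩
  · intro i j
    by_cases h : ((e i : B) : Fin N → K) ∈ b
    · have h1 : (fun x => M x i j) = fun x => rr ⟨_, h⟩ x j := by
        funext x
        show (if h : ((e i : B) : Fin N → K) ∈ b then rr ⟨_, h⟩ x
          else ((e i : B) : Fin N → K)) j = _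
        rw [dif_pos h]
      rw [h1]
      exact hR _ (hrR _) j
    · have h1 : (fun x => M x i j) = fun _ => ((e i : B) : Fin N → K) j := by
        funext x
        show (if h : ((e i : B) : Fin N → K) ∈ b then rr ⟨_, h⟩ x
          else ((e i : B) : Fin N → K)) j = _
        rw [dif_neg h]
      rw [h1]
      exact anOn_const _ _
  · have h1 : LinearIndependent K (M x1).row := by
      have h2 : (M x1).row = ((↑) : B → (Fin N → K)) ∘ e := by
        funext i
        exact hM1 i
      rw [h2]
      exact hBli'.comp e e.injective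
    have h3 := Matrix.linearIndependent_rows_iff_isUnit.1 h1
    exact ((Matrix.isUnit_iff_isUnit_det _).1 h3).ne_zero
  · intro i hi
    refine ⟨rr ⟨_, hi⟩, hrR _, fun x => ?_⟩
    show (if h : ((e i : B) : Fin N → K) ∈ b then rr ⟨_, h⟩ x
          else ((e i : B) : Fin N → K)) = _
    exact dif_pos hi
  · rw [← hbspan]
    haveI : Finite b := Finite.Set.subset B hbB
    haveI : Fintype b := Fintype.ofFinite b
    have h1 : Module.finrank K (Submodule.span K b) = Fintype.card b := by
      have h2 := finrank_span_eq_card hbli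
      rw [Subtype.range_coe] at h2
      exact h2
    rw [h1, ← Nat.card_eq_fintype_card]
    refine Nat.card_congr ?_
    exact {
      toFun := fun y => ⟨e.symm ⟨y, hbB y.2⟩, by
        show ((e (e.symm ⟨y, hbB y.2⟩) : B) : Fin N → K) ∈ b
        rw [Equiv.apply_symm_apply]
        exact y.2⟩
      invFun := fun i => ⟨((e i.1 : B) : Fin N → K), i.2⟩
      left_inv := fun y => by
        apply Subtype.ext
        show ((e (e.symm ⟨y, hbB y.2⟩) : B) : Fin N → K) = y
        rw [Equiv.apply_symm_apply]
      right_inv := fun i => by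
        apply Subtype.ext
        show e.symm ⟨((e i.1 : B) : Fin N → K), _⟩ = i.1
        rw [Equiv.symm_apply_eq] }

theorem exists_section {N : ℕ} {R : Set (Tor κ K → Fin N → K)}
    (hR : ∀ ρ ∈ R, ∀ j, AnOn circ fun x => ρ x j) {d : ℕ}
    (hd : ∀ x ∈ (circ : Set (Tor κ K)), Module.finrank K (kerR R x) = d) {x1 : Tor κ K}
    (hx1 : x1 ∈ (circ : Set (Tor κ K))) {c1 : Fin N → K} (hc1 : c1 ∈ kerR R x1) :
    ∃ c : Tor κ K → Fin N → K, (∀ j, AnOn circ fun x => c x j) ∧
      (∀ x ∈ (circ : Set (Tor κ K)), c x ∈ kerR R x) ∧ c x1 = c1 := by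
  classical
  obtain ⟨M, I, hMan, hdet, hI, hfin⟩ := exists_matrix hR x1
  have hw : ∀ i ∈ I, (M x1).mulVec c1 i = 0 := by
    intro i hi
    obtain ⟨ρ, hρ, h⟩ := hI i hi
    show M x1 i ⬝ᵥ c1 = 0
    rw [h x1]
    exact hc1 ρ hρ
  set w : Fin N → K := (M x1).mulVec c1 with hwdef
  have hv : ∀ x, (M x).mulVec ((M x).adjugate.mulVec w) = (M x).det • w := by
    intro x
    rw [Matrix.mulVec_mulVec, Matrix.mul_adjugate, Matrix.smul_mulVec, Matrix.one_mulVec]
  have hvan : ∀ j, AnOn circ fun x => (M x).adjugate.mulVec w j := by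
    intro j
    have h1 : (fun x => (M x).adjugate.mulVec w j) =
        fun x => ∑ k, w k * (M x).adjugate j k := by
      funext x
      show ∑ k, (M x).adjugate j k * w k = _
      exact Finset.sum_congr rfl fun k _ => mul_comm _ _
    rw [h1]
    exact anOn_sum Finset.univ fun k _ => anOn_smul _ (anOn_adj hMan j k)
  refine ⟨fun x => ((M x1).det)⁻¹ • (M x).adjugate.mulVec w, ?_, ?_, ?_⟩
  · intro j
    exact anOn_smul _ (hvan j)
  · intro x hx
    refine Submodule.smul_mem _ _ ?_
    intro ρ hρ
    have hg : AnOn circ fun x => ∑ j, ρ x j * (M x).adjugate.mulVec w j :=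
      anOn_sum Finset.univ fun j _ => anOn_mul_circ (hR ρ hρ j) (hvan j)
    have hprod : ∀ x ∈ (circ : Set (Tor κ K)),
        (M x).det * ∑ j, ρ x j * (M x).adjugate.mulVec w j = 0 := by
      intro x hx
      by_cases hD : (M x).det = 0
      · rw [hD, zero_mul]
      have hli : LinearIndependent K (fun i => M x i) :=
        Matrix.linearIndependent_rows_of_det_ne_zero hD
      have hliI : LinearIndependent K (fun i : I => M x i) :=
        hli.comp (fun i : I => (i : Fin N)) Subtype.val_injective
      have hle : Submodule.span K (Set.range fun i : I => M x i) ≤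
          Submodule.span K ((fun ρ : Tor κ K → Fin N → K => ρ x) '' R) := by
        refine Submodule.span_mono ?_
        rintro _ ⟨i, rfl⟩
        obtain ⟨ρ', hρ', h⟩ := hI i i.2
        exact ⟨ρ', hρ', (h x).symm⟩
      have hrk : Module.finrank K (Submodule.span K
          ((fun ρ : Tor κ K → Fin N → K => ρ x) '' R)) ≤
          Module.finrank K (Submodule.span K (Set.range fun i : I => M x i)) := by
        rw [finrank_span_eq_card hliI, ← Nat.card_eq_fintype_card, ← hfin]
        have h1 := ker_fin R x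
        have h2 := ker_fin R x1
        rw [hd x hx] at h1
        rw [hd x1 hx1] at h2
        omega
      have heq := Submodule.eq_of_le_of_finrank_le hle hrk
      have hmem : ρ x ∈ Submodule.span K (Set.range fun i : I => M x i) := by
        rw [heq]
        exact Submodule.subset_span ⟨ρ, hρ, rfl⟩
      have h0 : ρ x ⬝ᵥ (M x).adjugate.mulVec w = 0 := by
        refine span_dot ?_ hmem
        rintro _ ⟨i, rfl⟩
        have h3 : (M x).mulVec ((M x).adjugate.mulVec w) i = (M x).det * w i := by
          rw [hv x]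
          rfl
        rw [hw i i.2, mul_zero] at h3
        exact h3
      have h4 : ∑ j, ρ x j * (M x).adjugate.mulVec w j = 0 := h0
      rw [h4, mul_zero]
    rcases mul_eq_zero_circ (anOn_det hMan) hg hprod with h | h
    · exact absurd (h x1 hx1) hdet
    · exact h x hx
  · show ((M x1).det)⁻¹ • (M x1).adjugate.mulVec w = c1
    rw [hwdef, Matrix.mulVec_mulVec, Matrix.adjugate_mul, Matrix.smul_mulVec, Matrix.one_mulVec,
      smul_smul, inv_mul_cancel₀ hdet, one_smul]

end Pool.Agent.Work.MP_6d379e_ag.Ab
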