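import Pool.Agent.Work.MP_6d379e_ag.Ab.FinMod
import Pool.Agent.Work.MP_6d379e_ag.Ab.GxB
import Pool.Agent.Work.MP_6d379e_ag.Ab.Rank

/-!
# Solution spaces: finite dimension, analytic families through a given solution   (size M)

Take `N`, `R`, `β` from `exists_finMod`.  For `x ∈ circ` the map
`Θ : kerR R x → Sol m A x`, `c ↦ Gx m A x (fun t => ∑ j, c j • β j x t)` is well defined
(`gx_fib`; the functions are analytic on the box because `β j` is jointly analytic: `an2_fib`),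
linear (`gx_add`, `gx_smul`), injective (on the box `Gx` is the function itself, `gx_local`, then
the second property of the model), surjective (third property and `sol_ext`).  So
`Sol m A x` is finite-dimensional and `finrank (kerR R x) = finrank (Sol m A x)`.

`thmY` : `s1` corresponds to `c1 ∈ kerR R x1`; take `c` from `exists_section` and
`S x = Gx m A x (fun t => ∑ j, c x j • β j x t)`; `gx_joint` (the inner functions are jointly
analytic on the box: functions of `x` times jointly analytic functions).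
-/

namespace Pool.Agent.Work.MP_6d379e_ag.Ab

variable {ι κ σ : Type*} [Fintype ι] [Fintype κ] [Fintype σ] [DecidableEq ι]
variable {K : Type*} [NontriviallyNormedField K] [IsUltrametricDist K]
variable [CompleteSpace K] [IsAlgClosed K] [CharZero K]
variable {m : ι → Tor ι K} {A : (ι → ℤ) → Tor κ K → Tor ι K → Matrix σ σ K}

omit [DecidableEq ι] [Fintype σ] in
private theorem comb_an {N : ℕ} {β : Fin N → Tor κ K → Tor ι K → σ → K}
    (hβ : ∀ j, An2V (qq m) (1 : ι → ℤ) (1 : ι → ℤ) (β j)) {x : Tor κ K}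
    (hx : x ∈ (circ : Set (Tor κ K))) (c : Fin N → K) :
    AnV (BB (qq m) (1 : ι → ℤ) (1 : ι → ℤ)) (fun t => ∑ j, c j • β j x t) := by
  intro i
  have h1 : AnOn (BB (qq m) (1 : ι → ℤ) (1 : ι → ℤ)) (fun t => ∑ j, c j * β j x t i) :=
    anOn_sum Finset.univ fun j _ => anOn_smul (c j) (an2_fib (hβ j i) hx)
  refine anOn_congr (fun t _ => ?_) h1
  show (∑ j, c j • β j x t) i = _
  rw [Finset.sum_apply]
  rfl

omit [DecidableEq ι] [Fintype σ] [IsUltrametricDist K] [CompleteSpace K] [IsAlgClosed K] [CharZero K] in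
private theorem comb_an2 {N : ℕ} {β : Fin N → Tor κ K → Tor ι K → σ → K}
    (hβ : ∀ j, An2V (qq m) (1 : ι → ℤ) (1 : ι → ℤ) (β j)) {c : Tor κ K → Fin N → K}
    (hc : ∀ j, AnOn circ fun x => c x j) :
    An2V (qq m) (1 : ι → ℤ) (1 : ι → ℤ) (fun x t => ∑ j, c x j • β j x t) := by
  intro i
  have h0 : ∀ j, An2 (qq m) (1 : ι → ℤ) (1 : ι → ℤ) (fun x _ => c x j) := fun j =>
    ana2_An2 (ana2_fst (hc j)) _ _ _
  have h1 : An2 (qq m) (1 : ι → ℤ) (1 : ι → ℤ) (fun x t => ∑ j, c x j * β j x t i) :=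
    anOn_sum Finset.univ (F := fun j z => J2 (fun x _ => c x j) z * J2 (fun x t => β j x t i) z)
      fun j _ => anOn_mul (h0 j) (hβ j i)
  refine anOn_congr (fun z _ => ?_) h1
  show (∑ j, c (fun j => z (Sum.inl j)) j • β j (fun j => z (Sum.inl j))
    (fun i => z (Sum.inr i))) i = _
  rw [Finset.sum_apply]
  rfl

private theorem exists_model (hm : Std m) (hA : CocSys m A) {N : ℕ}
    {R : Set (Tor κ K → Fin N → K)} {β : Fin N → Tor κ K → Tor ι K → σ → K}
    (hβ : ∀ j, An2V (qq m) (1 : ι → ℤ) (1 : ι → ℤ) (β j)) {x : Tor κ K}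
    (hx : x ∈ (circ : Set (Tor κ K)))
    (h1 : ∀ c ∈ kerR R x, LocSol m A x (fun t => ∑ j, c j • β j x t))
    (h2 : ∀ c ∈ kerR R x, (∀ t ∈ BB (qq m) (1 : ι → ℤ) (1 : ι → ℤ), ∑ j, c j • β j x t = 0) →
      c = 0)
    (h3 : ∀ s ∈ Sol m A x, ∃ c ∈ kerR R x, ∀ t ∈ BB (qq m) (1 : ι → ℤ) (1 : ι → ℤ),
      s t = ∑ j, c j • β j x t) :
    ∃ Θ : kerR R x ≃ₗ[K] Sol m A x, ∀ c : kerR R x, (Θ c : Tor ι K → σ → K) =
      Gx m A x (fun t => ∑ j, (c : Fin N → K) j • β j x t) := by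
  have hmem : ∀ c ∈ kerR R x, Gx m A x (fun t => ∑ j, c j • β j x t) ∈ Sol m A x :=
    fun c hc => gx_fib hm hA hx (comb_an hβ hx c) (h1 c hc)
  obtain ⟨Θ0, hΘ0⟩ : ∃ Θ0 : kerR R x →ₗ[K] Sol m A x, ∀ c : kerR R x,
      (Θ0 c : Tor ι K → σ → K) = Gx m A x (fun t => ∑ j, (c : Fin N → K) j • β j x t) := by
    refine ⟨{ toFun := fun c => ⟨_, hmem c c.2⟩, map_add' := ?_, map_smul' := ?_ }, fun c => rfl⟩
    · intro c c'
      refine Subtype.ext ?_
      show Gx m A x (fun t => ∑ j, ((c : Fin N → K) + (c' : Fin N → K)) j • β j x t) =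
        Gx m A x (fun t => ∑ j, (c : Fin N → K) j • β j x t) +
          Gx m A x (fun t => ∑ j, (c' : Fin N → K) j • β j x t)
      rw [← gx_add]
      have h4 : (fun t => ∑ j, ((c : Fin N → K) + (c' : Fin N → K)) j • β j x t) =
          (fun t => ∑ j, (c : Fin N → K) j • β j x t) +
            fun t => ∑ j, (c' : Fin N → K) j • β j x t := by
        funext t
        rw [Pi.add_apply, ← Finset.sum_add_distrib]
        refine Finset.sum_congr rfl fun j _ => ?_
        rw [Pi.add_apply, add_smul]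
      rw [h4]
    · intro r c
      refine Subtype.ext ?_
      show Gx m A x (fun t => ∑ j, (r • (c : Fin N → K)) j • β j x t) =
        r • Gx m A x (fun t => ∑ j, (c : Fin N → K) j • β j x t)
      rw [← gx_smul]
      have h4 : (fun t => ∑ j, (r • (c : Fin N → K)) j • β j x t) =
          r • (fun t => ∑ j, (c : Fin N → K) j • β j x t) := by
        funext t
        rw [Pi.smul_apply, Finset.smul_sum]
        refine Finset.sum_congr rfl fun j _ => ?_
        rw [Pi.smul_apply, smul_smul, smul_eq_mul]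
      rw [h4]
  have hinj : Function.Injective Θ0 := by
    rw [injective_iff_map_eq_zero]
    intro c hc
    refine Subtype.ext (h2 c c.2 fun t ht => ?_)
    have h5 : (Θ0 c : Tor ι K → σ → K) = 0 := by rw [hc]; rfl
    rw [hΘ0] at h5
    have h6 := gx_local hm hA hx (h1 c c.2) ht
    rw [h5] at h6
    exact h6.symm
  have hsurj : Function.Surjective Θ0 := by
    intro s
    obtain ⟨c, hc, hs⟩ := h3 s s.2
    refine ⟨⟨c, hc⟩, Subtype.ext ?_⟩
    rw [hΘ0]
    refine sol_ext hm (hmem c hc) s.2 fun t ht => ?_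
    rw [gx_local hm hA hx (h1 c hc) ht, hs t ht]
  exact ⟨LinearEquiv.ofBijective Θ0 ⟨hinj, hsurj⟩, fun c => hΘ0 c⟩

theorem sol_finite (hm : Std m) (hA : CocSys m A) {x : Tor κ K}
    (hx : x ∈ (circ : Set (Tor κ K))) : FiniteDimensional K (Sol m A x) := by
  obtain ⟨N, R, β, -, hβ, hmod⟩ := exists_finMod hm hA
  obtain ⟨h1, h2, h3⟩ := hmod x hx
  obtain ⟨Θ, -⟩ := exists_model hm hA hβ hx h1 h2 h3
  exact Module.Finite.equiv Θ

theorem thmY (hm : Std m) (hA : CocSys m A) {d : ℕ}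
    (hd : ∀ x ∈ (circ : Set (Tor κ K)), Module.finrank K (Sol m A x) = d) {x1 : Tor κ K}
    (hx1 : x1 ∈ (circ : Set (Tor κ K))) {s1 : Tor ι K → σ → K} (hs1 : s1 ∈ Sol m A x1) :
    ∃ S : Tor κ K → Tor ι K → σ → K, (∀ i, Ana2 fun x t => S x t i) ∧
      (∀ x ∈ (circ : Set (Tor κ K)), S x ∈ Sol m A x) ∧ S x1 = s1 := by
  obtain ⟨N, R, β, hR, hβ, hmod⟩ := exists_finMod hm hA
  have hdk : ∀ x ∈ (circ : Set (Tor κ K)), Module.finrank K (kerR R x) = d := by
    intro x hx
    obtain ⟨h1, h2, h3⟩ := hmod x hx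
    obtain ⟨Θ, -⟩ := exists_model hm hA hβ hx h1 h2 h3
    rw [Θ.finrank_eq, hd x hx]
  obtain ⟨h1, h2, h3⟩ := hmod x1 hx1
  obtain ⟨Θ, hΘ⟩ := exists_model hm hA hβ hx1 h1 h2 h3
  obtain ⟨c, hca, hck, hc1⟩ := exists_section hR hdk hx1 (Θ.symm ⟨s1, hs1⟩).2
  have hl : ∀ x ∈ (circ : Set (Tor κ K)), LocSol m A x (fun t => ∑ j, c x j • β j x t) :=
    fun x hx => (hmod x hx).1 (c x) (hck x hx)
  refine ⟨fun x => Gx m A x (fun t => ∑ j, c x j • β j x t), ?_, ?_, ?_⟩
  · intro i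
    exact gx_joint hm hA (S := fun x t => ∑ j, c x j • β j x t) (comb_an2 hβ hca) hl i
  · intro x hx
    exact gx_fib hm hA hx (comb_an hβ hx (c x)) (hl x hx)
  · show Gx m A x1 (fun t => ∑ j, c x1 j • β j x1 t) = s1
    rw [hc1, ← hΘ, LinearEquiv.apply_symm_apply]

end Pool.Agent.Work.MP_6d379e_ag.Ab
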