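import Pool.Agent.Work.MP_6d379e_ag.Ab.VDefs
import Pool.Agent.Work.MP_6d379e_ag.Ab.ThmY

/-!
# Homomorphism spaces are solution spaces   (size M-L)

Let `σ = ν × ν` and write a matrix function `Φ` as the vector function `s t (i, j) = Φ t i j`.
For families `f x`, `f' x` of bundles put
`A l x t (i, j) (i', j') = f' x (-l) (lat m l * t) i i' * f x l t j' j`,
so that `A l x t *ᵥ s` corresponds to `f' x (-l) (lat m l * t) * Φ * f x l t`.
`CocSys m A` : entries are products of jointly analytic functions (`ana2_translate`), and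
`A l x t` applied to `A l' x (lat m l * t)` applied to `Φ` is
`f'(-l)(l t) f'(-l')(l' l t) Φ f(l')(l t) f(l)(t) = f'(-(l + l'))(l l' t) Φ f(l + l')(t)`
by the cocycle rules (`x ∈ circ`; note `lat m (-l') * (lat m l' * u) = u`).

`Φ` is a homomorphism iff it is analytic and `Φ t = f'(-l)(l t) Φ (l t) f(l)(t)` for all `l, t`:
(⇒) `f'(-l)(l t) Φ (l t) f l t = f'(-l)(l t) f' l t Φ t = f' 0 t Φ t = Φ t` (`isHom_one_mul`).
(⇐) `l = 0` gives `Φ t = f' 0 t Φ t f 0 t`, so `Φ t f 0 t = Φ t` (`f 0` idempotent) and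
`f' 0 t Φ t = Φ t`; and
`f' l t Φ t = f' l t f'(-l)(l t) Φ (l t) f l t = f' 0 (l t) Φ (l t) f l t = Φ (l t) f l t`.
So `HomSp m (f x) (f' x)` is linearly isomorphic to `Sol m A x`.  `hom_fam` is `thmY`;
`homSp_finite` is `sol_finite` for the constant families with `κ = Unit` (at `x = 1`).
-/

namespace Pool.Agent.Work.MP_6d379e_ag.Ab

variable {ι κ ν : Type*} [Fintype ι] [Fintype κ] [Fintype ν] [DecidableEq ι]
variable {K : Type*} [NontriviallyNormedField K] [IsUltrametricDist K]
variable [CompleteSpace K] [IsAlgClosed K] [CharZero K]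
variable {m : ι → Tor ι K}

/-- the system of linear equations of the homomorphisms -/
private noncomputable def homA (m : ι → Tor ι K)
    (f f' : Tor κ K → (ι → ℤ) → Tor ι K → Matrix ν ν K) :
    (ι → ℤ) → Tor κ K → Tor ι K → Matrix (ν × ν) (ν × ν) K :=
  fun l x t => Matrix.of fun p q => f' x (-l) (lat m l * t) p.1 q.1 * f x l t q.2 p.2

/-- matrix functions as vector functions -/
private def uMe (ι K ν : Type*) [NontriviallyNormedField K] :
    (Tor ι K → Matrix ν ν K) ≃ₗ[K] (Tor ι K → ν × ν → K) where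
  toFun Φ := fun t p => Φ t p.1 p.2
  invFun s := fun t => Matrix.of fun i j => s t (i, j)
  map_add' _ _ := rfl
  map_smul' _ _ := rfl
  left_inv _ := rfl
  right_inv _ := rfl

omit [DecidableEq ι] [IsUltrametricDist K] [CompleteSpace K] [IsAlgClosed K] [CharZero K] in
private theorem homA_mulVec (m : ι → Tor ι K)
    (f f' : Tor κ K → (ι → ℤ) → Tor ι K → Matrix ν ν K) (l : ι → ℤ) (x : Tor κ K)
    (t : Tor ι K) (Φ : Matrix ν ν K) (p : ν × ν) :
    (homA m f f' l x t).mulVec (fun q => Φ q.1 q.2) p =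
      (f' x (-l) (lat m l * t) * Φ * f x l t) p.1 p.2 := by
  unfold homA Matrix.mulVec dotProduct
  rw [Matrix.mul_apply, Fintype.sum_prod_type, Finset.sum_comm]
  refine Finset.sum_congr rfl fun j _ => ?_
  rw [Matrix.mul_apply, Finset.sum_mul]
  refine Finset.sum_congr rfl fun i _ => ?_
  simp only [Matrix.of_apply]
  ring

omit [DecidableEq ι] [IsUltrametricDist K] [CompleteSpace K] [IsAlgClosed K] [CharZero K] in
private theorem homA_coc {f f' : Tor κ K → (ι → ℤ) → Tor ι K → Matrix ν ν K}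
    (hf : BunFam m f) (hf' : BunFam m f') : CocSys m (homA m f f') := by
  refine ⟨fun l p q => ?_, fun l l' x hx t => ?_⟩
  · exact ana2_mul (ana2_translate (lat m l) (hf'.an (-l) p.1 q.1)) (hf.an l q.2 p.2)
  · have e1 : f x (l + l') t = f x l' (lat m l * t) * f x l t := by
      rw [add_comm]
      exact hf.coc x hx l' l t
    have e2 : f' x (-(l + l')) (lat m (l + l') * t) =
        f' x (-l) (lat m l * t) * f' x (-l') (lat m l' * (lat m l * t)) := by
      have h1 : lat m (l + l') * t = lat m l' * (lat m l * t) := by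
        rw [add_comm, lat_add_mul]
      have h2 := hf'.coc x hx (-l) (-l') (lat m l' * (lat m l * t))
      have h3 : lat m (-l') * (lat m l' * (lat m l * t)) = lat m l * t := by
        rw [← lat_add_mul, neg_add_cancel, lat_zero, one_mul]
      rw [h3] at h2
      rw [h1, neg_add]
      exact h2
    ext p q
    unfold homA
    rw [Matrix.mul_apply]
    simp only [Matrix.of_apply]
    rw [e1, e2, Matrix.mul_apply, Matrix.mul_apply, Finset.sum_mul_sum,
      Fintype.sum_prod_type]
    refine Finset.sum_congr rfl fun i _ => Finset.sum_congr rfl fun j _ => ?_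
    ring

omit [DecidableEq ι] [IsUltrametricDist K] [CompleteSpace K] [IsAlgClosed K] [CharZero K] in
private theorem isHom_iff {F F' : (ι → ℤ) → Tor ι K → Matrix ν ν K}
    (hF : ∀ l l' t, F (l + l') t = F l (lat m l' * t) * F l' t)
    (hF' : ∀ l l' t, F' (l + l') t = F' l (lat m l' * t) * F' l' t)
    (Φ : Tor ι K → Matrix ν ν K) :
    IsHom m F F' Φ ↔ AnaM Φ ∧
      ∀ l t, Φ t = F' (-l) (lat m l * t) * Φ (lat m l * t) * F l t := by
  constructor
  · intro h
    refine ⟨h.an, fun l t => ?_⟩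
    rw [mul_assoc, h.eqv l t, ← mul_assoc, ← hF' (-l) l t, neg_add_cancel, isHom_one_mul h t]
  · rintro ⟨han, h⟩
    have h0 : ∀ t, Φ t = F' 0 t * Φ t * F 0 t := fun t => by
      have := h 0 t
      rw [lat_zero, one_mul, neg_zero] at this
      exact this
    have hFF : ∀ t, F 0 t * F 0 t = F 0 t := fun t => by
      have := hF 0 0 t
      rw [lat_zero, one_mul, add_zero] at this
      exact this.symm
    have hFF' : ∀ t, F' 0 t * F' 0 t = F' 0 t := fun t => by
      have := hF' 0 0 t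
      rw [lat_zero, one_mul, add_zero] at this
      exact this.symm
    have hsrc : ∀ t, Φ t * F 0 t = Φ t := fun t => by
      have k1 : Φ t * F 0 t = F' 0 t * Φ t * F 0 t * F 0 t := congrArg (· * F 0 t) (h0 t)
      rw [k1, mul_assoc (F' 0 t * Φ t), hFF, ← h0 t]
    have htgt : ∀ t, F' 0 t * Φ t = Φ t := fun t => by
      have k1 : F' 0 t * Φ t = F' 0 t * (F' 0 t * Φ t * F 0 t) := congrArg (F' 0 t * ·) (h0 t)
      rw [k1, ← mul_assoc, ← mul_assoc, hFF', ← h0 t]
    refine ⟨han, hsrc, fun l t => ?_⟩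
    have h1 : F' l t * F' (-l) (lat m l * t) = F' 0 (lat m l * t) := by
      have h2 := hF' l (-l) (lat m l * t)
      have h3 : lat m (-l) * (lat m l * t) = t := by
        rw [← lat_add_mul, neg_add_cancel, lat_zero, one_mul]
      rw [h3, add_neg_cancel] at h2
      exact h2.symm
    have k1 : F' l t * Φ t = F' l t * (F' (-l) (lat m l * t) * Φ (lat m l * t) * F l t) :=
      congrArg (F' l t * ·) (h l t)
    rw [k1, ← mul_assoc, ← mul_assoc, h1, htgt]

omit [DecidableEq ι] [IsUltrametricDist K] [CompleteSpace K] [IsAlgClosed K] [CharZero K] in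
private theorem mem_sol_iff {f f' : Tor κ K → (ι → ℤ) → Tor ι K → Matrix ν ν K}
    (hf : BunFam m f) (hf' : BunFam m f') {x : Tor κ K}
    (hx : x ∈ (circ : Set (Tor κ K))) (Φ : Tor ι K → Matrix ν ν K) :
    IsHom m (f x) (f' x) Φ ↔ uMe ι K ν Φ ∈ Sol m (homA m f f') x := by
  rw [isHom_iff (hf.coc x hx) (hf'.coc x hx)]
  constructor
  · rintro ⟨h1, h2⟩
    refine ⟨fun p => h1 p.1 p.2, fun l t => ?_⟩
    funext p
    refine Eq.trans ?_ (homA_mulVec m f f' l x t (Φ (lat m l * t)) p).symm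
    exact congrFun (congrFun (h2 l t) p.1) p.2
  · rintro ⟨h1, h2⟩
    refine ⟨fun i j => h1 (i, j), fun l t => ?_⟩
    ext i j
    have h3 := congrFun (h2 l t) (i, j)
    exact h3.trans (homA_mulVec m f f' l x t (Φ (lat m l * t)) (i, j))

omit [DecidableEq ι] [IsUltrametricDist K] [CompleteSpace K] [IsAlgClosed K] [CharZero K] in
private theorem homSp_eq {f f' : Tor κ K → (ι → ℤ) → Tor ι K → Matrix ν ν K}
    (hf : BunFam m f) (hf' : BunFam m f') {x : Tor κ K}
    (hx : x ∈ (circ : Set (Tor κ K))) :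
    HomSp m (f x) (f' x) = (Sol m (homA m f f') x).comap (uMe ι K ν).toLinearMap := by
  ext Φ
  exact mem_sol_iff hf hf' hx Φ

omit [DecidableEq ι] [IsUltrametricDist K] [CompleteSpace K] [IsAlgClosed K] [CharZero K] in
private theorem const_fam {f : (ι → ℤ) → Tor ι K → Matrix ν ν K} (hf : IsBun m f) :
    BunFam (κ := Unit) m (fun _ => f) := by
  refine ⟨fun l => ?_, fun x _ l l' t => hf.coc l l' t⟩
  exact ana2M_of_anaM (τ := fun (_ : Tor Unit K) (t : Tor ι K) => t) isMono_inr (hf.an l)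

theorem homSp_finite (hm : Std m) {f f' : (ι → ℤ) → Tor ι K → Matrix ν ν K}
    (hf : IsBun m f) (hf' : IsBun m f') : FiniteDimensional K (HomSp m f f') := by
  have h1 := const_fam hf
  have h2 := const_fam hf'
  have hx : (1 : Tor Unit K) ∈ (circ : Set (Tor Unit K)) := one_mem_circ
  have h3 := homSp_eq h1 h2 hx
  have h4 := sol_finite hm (homA_coc h1 h2) hx
  rw [show HomSp m f f' = _ from h3]
  exact Module.Finite.equiv ((uMe ι K ν).ofSubmodule' _).symm

theorem hom_fam (hm : Std m) {f f' : Tor κ K → (ι → ℤ) → Tor ι K → Matrix ν ν K}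
    (hf : BunFam m f) (hf' : BunFam m f') {d : ℕ}
    (hd : ∀ x ∈ (circ : Set (Tor κ K)), Module.finrank K (HomSp m (f x) (f' x)) = d)
    {x1 : Tor κ K} (hx1 : x1 ∈ (circ : Set (Tor κ K))) {Φ1 : Tor ι K → Matrix ν ν K}
    (h1 : IsHom m (f x1) (f' x1) Φ1) :
    ∃ Φ : Tor κ K → Tor ι K → Matrix ν ν K, Ana2M Φ ∧
      (∀ x ∈ (circ : Set (Tor κ K)), IsHom m (f x) (f' x) (Φ x)) ∧ Φ x1 = Φ1 := by
  have hA := homA_coc hf hf'
  have hd' : ∀ x ∈ (circ : Set (Tor κ K)),
      Module.finrank K (Sol m (homA m f f') x) = d := by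
    intro x hx
    rw [← hd x hx, homSp_eq hf hf' hx]
    exact ((uMe ι K ν).ofSubmodule' _).finrank_eq.symm
  obtain ⟨S, hS1, hS2, hS3⟩ := thmY hm hA hd' hx1 ((mem_sol_iff hf hf' hx1 Φ1).1 h1)
  refine ⟨fun x => (uMe ι K ν).symm (S x), fun i j => hS1 (i, j), fun x hx => ?_, ?_⟩
  · refine (mem_sol_iff hf hf' hx _).2 ?_
    rw [LinearEquiv.apply_symm_apply]
    exact hS2 x hx
  · show (uMe ι K ν).symm (S x1) = Φ1
    rw [hS3, LinearEquiv.symm_apply_apply]

end Pool.Agent.Work.MP_6d379e_ag.Ab
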