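import Pool.Agent.Work.MP_6d379e_ag.Ab.Exch

/-!
# The indecomposable summands of a homogeneous bundle are homogeneous   (size M-L)

Write `f_i = subB (p i) f`, and `f_i ≅ g` for the existence of `Φ, Ψ` with `IsIso2 m f_i g Φ Ψ`.

Step 1.  For every `y` and `i` there is `j` with `f_j ≅ trans y f_i`: apply `exchange` to an
isomorphism `f ≅ trans y f` and `p' = p i (y * ·)`, an idempotent endomorphism of `trans y f` with
`subB p' (trans y f) = trans y f_i` (`trans_sub`), which is `LocB` (translate of a `LocB`: an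
idempotent endomorphism of `trans y f_i` translated by `y⁻¹` is one of `f_i`; `trans_trans`,
`trans_one`).
Step 2.  Let `x` be given and `n` the number of summands (`n ≥ 1` as `i` exists).  `K` is
algebraically closed, so there is `y` with `y ^ (n !) = x` (coordinatewise).  Define
`i_0 = i` and `i_{k+1}` with `f_{i_{k+1}} ≅ trans y f_{i_k}`.  By induction
`f_{i_k} ≅ trans (y ^ k) f_i` (`isIso_translate`, `isIso_trans`).  Among `i_0, ..., i_n` two are
equal, `i_a = i_b`, `a < b ≤ n` (pigeonhole).  So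
`trans (y ^ a) f_i ≅ f_{i_a} = f_{i_b} ≅ trans (y ^ b) f_i`; translate by `y ^ (-a)`:
`f_i ≅ trans (y ^ c) f_i` with `c = b - a`, `1 ≤ c ≤ n`.
Step 3.  Iterating, `f_i ≅ trans ((y ^ c) ^ k) f_i` for all `k`; with `k = n ! / c` this is
`f_i ≅ trans x f_i`.
-/

namespace Pool.Agent.Work.MP_6d379e_ag.Ab

variable {ι ν : Type*} [Fintype ι] [Fintype ν] [DecidableEq ι] [DecidableEq ν]
variable {K : Type*} [NontriviallyNormedField K] [IsUltrametricDist K]
variable [CompleteSpace K] [IsAlgClosed K] [CharZero K]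
variable {m : ι → Tor ι K} {f : (ι → ℤ) → Tor ι K → Matrix ν ν K}

omit [DecidableEq ι] [DecidableEq ν] [IsUltrametricDist K] [CompleteSpace K] [IsAlgClosed K]
  [CharZero K] in
private theorem hs_loc {g : (ι → ℤ) → Tor ι K → Matrix ν ν K} (y : Tor ι K) (hg : LocB m g) :
    LocB m (trans y g) := by
  refine ⟨isBun_trans y hg.bun, ?_, fun q hq hqq => ?_⟩
  · obtain ⟨t, ht⟩ := hg.ne
    refine ⟨y⁻¹ * t, ?_⟩
    show g 0 (y * (y⁻¹ * t)) ≠ 0
    rw [mul_inv_cancel_left]
    exact ht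
  · have h1 := isHom_translate y⁻¹ hq
    rw [trans_trans, mul_inv_cancel, trans_one] at h1
    rcases hg.idem _ h1 (fun t => hqq _) with h2 | h2
    · left
      intro t
      have h3 := h2 (y * t)
      rw [inv_mul_cancel_left] at h3
      exact h3
    · right
      intro t
      have h3 := h2 (y * t)
      rw [inv_mul_cancel_left] at h3
      exact h3

omit [Fintype ν] [DecidableEq ν] [IsUltrametricDist K] [CompleteSpace K] [CharZero K]
  [DecidableEq ι] [Fintype ι] in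
private theorem hs_root (x : Tor ι K) {N : ℕ} (hN : 0 < N) : ∃ y : Tor ι K, y ^ N = x := by
  have h1 : ∀ i, ∃ z : Kˣ, z ^ N = x i := by
    intro i
    obtain ⟨z, hz⟩ := IsAlgClosed.exists_pow_nat_eq (x i : K) hN
    have hz0 : z ≠ 0 := by
      rintro rfl
      rw [zero_pow hN.ne'] at hz
      exact (x i).ne_zero hz.symm
    exact ⟨Units.mk0 z hz0, Units.ext (by rw [Units.val_pow_eq_pow_val, Units.val_mk0, hz])⟩
  choose y hy using h1
  exact ⟨y, funext hy⟩

theorem homog_sub (hm : Std m) (hf : IsBun m f) (hh : Homog m f) {n : ℕ}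
    {p : Fin n → Tor ι K → Matrix ν ν K} (hp : DecB m f p) (i : Fin n) :
    Homog m (subB (p i) f) := by
  have hstep : ∀ (y : Tor ι K) (i : Fin n), ∃ (j : Fin n) (Φ' Ψ' : Tor ι K → Matrix ν ν K),
      IsIso2 m (subB (p j) f) (trans y (subB (p i) f)) Φ' Ψ' := by
    intro y i
    obtain ⟨Φ, Ψ, h⟩ := hh y
    exact exchange hm hf (isBun_trans y hf) h hp (isHom_translate y (hp.hom i))
      (fun t => hp.idem i (y * t)) (hs_loc y (hp.loc i))
  intro x
  obtain ⟨y, hy⟩ := hs_root x (Nat.factorial_pos n)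
  choose J hJ using hstep y
  have hseq : ∀ k : ℕ, ∃ Φ Ψ, IsIso2 m (subB (p (J^[k] i)) f) (trans (y ^ k) (subB (p i) f))
      Φ Ψ := by
    intro k
    induction k with
    | zero =>
      rw [pow_zero, trans_one]
      exact ⟨_, _, isIso_refl (isBun_sub hf (hp.hom i) (hp.idem i))⟩
    | succ k ih =>
      obtain ⟨Φ, Ψ, h⟩ := ih
      obtain ⟨Φ', Ψ', h'⟩ := hJ (J^[k] i)
      have h2 := isIso_trans h' (isIso_translate y h)
      rw [trans_trans, ← pow_succ] at h2
      rw [Function.iterate_succ_apply']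
      exact ⟨_, _, h2⟩
  obtain ⟨a, b, hab, hJab⟩ : ∃ a b : ℕ, a < b ∧ b ≤ n ∧ J^[a] i = J^[b] i := by
    obtain ⟨a, b, hne, he⟩ := Fintype.exists_ne_map_eq_of_card_lt
      (fun k : Fin (n + 1) => J^[(k : ℕ)] i) (by simp)
    have ha := a.2
    have hb := b.2
    rcases lt_or_gt_of_ne (fun h => hne (Fin.ext h) : (a : ℕ) ≠ b) with h | h
    · exact ⟨a, b, h, by omega, he⟩
    · exact ⟨b, a, h, by omega, he.symm⟩
  obtain ⟨hbn, hJab⟩ := hJab
  obtain ⟨c, rfl⟩ := Nat.exists_eq_add_of_lt hab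
  have hone : ∃ Φ Ψ, IsIso2 m (subB (p i) f) (trans (y ^ (c + 1)) (subB (p i) f)) Φ Ψ := by
    obtain ⟨Φ, Ψ, h⟩ := hseq a
    obtain ⟨Φ', Ψ', h'⟩ := hseq (a + c + 1)
    rw [← hJab] at h'
    have h2 := isIso_translate (y ^ a)⁻¹ (isIso_trans (isIso_symm h) h')
    rw [trans_trans, trans_trans, mul_inv_cancel, trans_one, add_assoc, pow_add,
      mul_comm (y ^ a), mul_inv_cancel_right] at h2
    exact ⟨_, _, h2⟩
  have hall : ∀ k : ℕ, ∃ Φ Ψ, IsIso2 m (subB (p i) f)
      (trans ((y ^ (c + 1)) ^ k) (subB (p i) f)) Φ Ψ := by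
    intro k
    induction k with
    | zero =>
      rw [pow_zero, trans_one]
      exact ⟨_, _, isIso_refl (isBun_sub hf (hp.hom i) (hp.idem i))⟩
    | succ k ih =>
      obtain ⟨Φ, Ψ, h⟩ := ih
      obtain ⟨Φ', Ψ', h'⟩ := hone
      have h2 := isIso_trans h (isIso_translate ((y ^ (c + 1)) ^ k) h')
      rw [trans_trans, ← pow_succ'] at h2
      exact ⟨_, _, h2⟩
  obtain ⟨d, hd⟩ : (c + 1) ∣ n.factorial := Nat.dvd_factorial (Nat.succ_pos c) (by omega)
  obtain ⟨Φ, Ψ, h⟩ := hall d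
  rw [← pow_mul, ← hd, hy] at h
  exact ⟨Φ, Ψ, h⟩

end Pool.Agent.Work.MP_6d379e_ag.Ab
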