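import Pool.Agent.Work.MP_6d379e_ag.Ab.VDefs

/-!
# Definition of the augmentation of a local endomorphism algebra (FIXED, do not change)

`LamOn m f L N` : `L` is a multiplicative functional on the endomorphisms of `f` with nilpotent
kernel, all other endomorphisms are invertible, and `L` of an analytic family is analytic.
-/

namespace Pool.Agent.Work.MP_6d379e_ag.Ab

variable {ι ν : Type*} [Fintype ι] [Fintype ν] [DecidableEq ν]
variable {K : Type*} [NontriviallyNormedField K]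

/-- augmentation -/
structure LamOn (m : ι → Tor ι K) (f : (ι → ℤ) → Tor ι K → Matrix ν ν K)
    (L : (Tor ι K → Matrix ν ν K) → K) (N : ℕ) : Prop where
  one : L (f 0) = 1
  add : ∀ Φ Ψ, IsHom m f f Φ → IsHom m f f Ψ → L (fun t => Φ t + Ψ t) = L Φ + L Ψ
  smul : ∀ (c : K) Φ, IsHom m f f Φ → L (fun t => c • Φ t) = c * L Φ
  mul : ∀ Φ Ψ, IsHom m f f Φ → IsHom m f f Ψ → L (fun t => Φ t * Ψ t) = L Φ * L Ψ
  nil : ∀ Φ, IsHom m f f Φ → L Φ = 0 → ∀ t, Φ t ^ N = 0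
  unit : ∀ Φ, IsHom m f f Φ → L Φ ≠ 0 → ∃ Φ', IsHom m f f Φ' ∧
    (∀ t, Φ t * Φ' t = f 0 t) ∧ ∀ t, Φ' t * Φ t = f 0 t
  an : ∀ Θ : Tor Unit K → Tor ι K → Matrix ν ν K, Ana2M Θ →
    (∀ z ∈ (circ : Set (Tor Unit K)), IsHom m f f (Θ z)) → AnOn circ fun z => L (Θ z)

end Pool.Agent.Work.MP_6d379e_ag.Ab
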