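import Pool.Agent.Work.MP_6d379e_ag.Ab.LamDefs
import Pool.Agent.Work.MP_6d379e_ag.Ab.HomFam
import Pool.Agent.Work.MP_6d379e_ag.Ab.Eval
import Pool.Agent.Work.MP_6d379e_ag.Ab.AbsAlg

/-!
# Existence of the augmentation   (size M)

Let `E : BunB m ν` be the bundle `f` (with `hf.bun`).  `EndA E` is finite-dimensional
(`homSp_finite`) and nontrivial (`1 ≠ 0` because `f 0 ≠ 0` somewhere), and its only idempotents are
`0` and `1` (`LocB.idem`).  Take `lam`, `N` from `local_lam` and define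
`L Φ = lam ⟨Φ, h⟩` if `h : IsHom m f f Φ`, and `0` otherwise (classical choice).  All fields
translate: in `nil` use `N + 1` instead of `N` (powers in `EndA E` with exponent `≥ 1` are pointwise
matrix powers).  `an` : replace `Θ z` by `0` for `z ∉ circ` (`ana2M_congr`) to get a map
`Tor Unit K → EndA E`, which is `AnA` by `endA_anA`; so `lam` of it is analytic; on `circ` it agrees
with `L (Θ z)` (`anOn_congr`).
-/

namespace Pool.Agent.Work.MP_6d379e_ag.Ab

variable {ι ν : Type*} [Fintype ι] [Fintype ν] [DecidableEq ι] [DecidableEq ν]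
variable {K : Type*} [NontriviallyNormedField K] [IsUltrametricDist K]
variable [CompleteSpace K] [IsAlgClosed K] [CharZero K]
variable {m : ι → Tor ι K} {f : (ι → ℤ) → Tor ι K → Matrix ν ν K}

omit [DecidableEq ι] [IsUltrametricDist K] [CompleteSpace K] [IsAlgClosed K] [CharZero K] in
theorem endA_val_pow {E : BunB m ν} (Φ : EndA E) (n : ℕ) (t : Tor ι K) :
    (Φ ^ (n + 1)).val t = Φ.val t ^ (n + 1) := by
  induction n with
  | zero => rw [zero_add, pow_one, pow_one]
  | succ n ih => rw [pow_succ Φ, pow_succ (Φ.val t), EndA.val_mul, ih]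

theorem exists_lam (hm : Std m) (hf : LocB m f) :
    ∃ (L : (Tor ι K → Matrix ν ν K) → K) (N : ℕ), LamOn m f L N := by
  classical
  obtain ⟨E, hE⟩ : ∃ E : BunB m ν, E.f = f := ⟨⟨f, hf.bun⟩, rfl⟩
  subst hE
  have fd : FiniteDimensional K (EndA E) := homSp_finite hm hf.bun hf.bun
  have nt : Nontrivial (EndA E) := by
    obtain ⟨t, ht⟩ := hf.ne
    refine ⟨⟨1, 0, fun h => ht ?_⟩⟩
    have h1 : (1 : EndA E).val t = (0 : EndA E).val t := by rw [h]
    rwa [EndA.val_one, EndA.val_zero] at h1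
  have hid : ∀ p : EndA E, p * p = p → p = 0 ∨ p = 1 := by
    intro p hp
    have h1 : ∀ t, p.val t * p.val t = p.val t := fun t => by rw [← EndA.val_mul, hp]
    rcases hf.idem p.val p.isHom h1 with h2 | h2
    · exact Or.inl (EndA.ext' fun t => by rw [h2 t, EndA.val_zero])
    · exact Or.inr (EndA.ext' fun t => by rw [h2 t, EndA.val_one])
  obtain ⟨lam, N, -, hnil, hunit⟩ := local_lam (K := K) (V := EndA E) hid
  let L : (Tor ι K → Matrix ν ν K) → K :=
    fun Φ => if h : IsHom m E.f E.f Φ then lam (EndA.mk Φ h) else 0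
  have hL : ∀ Φ (h : IsHom m E.f E.f Φ), L Φ = lam (EndA.mk Φ h) := fun Φ h => dif_pos h
  have hL' : ∀ Φ : EndA E, L Φ.val = lam Φ := fun Φ => hL Φ.val Φ.isHom
  refine ⟨L, N + 1, ?_, ?_, ?_, ?_, ?_, ?_, ?_⟩
  · have h1 := hL' (1 : EndA E)
    rw [map_one] at h1
    exact h1
  · intro Φ Ψ h h'
    have h1 := hL' (EndA.mk Φ h + EndA.mk Ψ h')
    rw [map_add] at h1
    rw [hL Φ h, hL Ψ h']
    exact h1
  · intro c Φ h
    have h1 := hL' (c • EndA.mk Φ h)
    rw [map_smul, smul_eq_mul] at h1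
    rw [hL Φ h]
    exact h1
  · intro Φ Ψ h h'
    have h1 := hL' (EndA.mk Φ h * EndA.mk Ψ h')
    rw [map_mul] at h1
    rw [hL Φ h, hL Ψ h']
    exact h1
  · intro Φ h h0 t
    rw [hL Φ h] at h0
    have h1 : EndA.mk Φ h ^ (N + 1) = (0 : EndA E) := by rw [pow_succ, hnil _ h0, zero_mul]
    have h2 := endA_val_pow (EndA.mk Φ h) N t
    rw [h1] at h2
    exact h2.symm
  · intro Φ h h0
    rw [hL Φ h] at h0
    obtain ⟨u, hu⟩ := hunit _ h0
    refine ⟨(↑u⁻¹ : EndA E).val, (↑u⁻¹ : EndA E).isHom, fun t => ?_, fun t => ?_⟩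
    · have h1 : EndA.mk Φ h * (↑u⁻¹ : EndA E) = 1 := by rw [← hu, Units.mul_inv]
      have h2 : (EndA.mk Φ h * (↑u⁻¹ : EndA E)).val t = (1 : EndA E).val t := by rw [h1]
      exact h2
    · have h1 : (↑u⁻¹ : EndA E) * EndA.mk Φ h = 1 := by rw [← hu, Units.inv_mul]
      have h2 : ((↑u⁻¹ : EndA E) * EndA.mk Φ h).val t = (1 : EndA E).val t := by rw [h1]
      exact h2
  · intro Θ hΘ hh
    let Θ' : Tor Unit K → EndA E :=
      fun z => if hz : z ∈ (circ : Set (Tor Unit K)) then EndA.mk (Θ z) (hh z hz) else 0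
    have e1 : ∀ z (hz : z ∈ (circ : Set (Tor Unit K))), Θ' z = EndA.mk (Θ z) (hh z hz) :=
      fun z hz => dif_pos hz
    have h1 : Ana2M fun x t => (Θ' x).val t := by
      refine ana2M_congr (fun x hx t => ?_) hΘ
      rw [e1 x hx]
      rfl
    have h2 := endA_anA h1 lam.toLinearMap
    refine anOn_congr (fun z hz => ?_) h2
    rw [hL (Θ z) (hh z hz), e1 z hz]
    rfl

end Pool.Agent.Work.MP_6d379e_ag.Ab
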