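import Pool.Agent.Work.MP_6d379e_ag.Ab.Mon

/-!
# Laurent polynomial functions   (size M)

* `lpol_add`, `lpol_smul`, `lpol_single` : `Finsupp.sum_add_index`, `Finsupp.sum_smul_index`,
  `Finsupp.sum_single_index`.
* `lpol_mul` : take `R = ∑ over k in P.support, l in Q.support of single (k + l) (P k * Q l)` and
  use `mon_add`.
* `mon_mmap` : `∏ i, (s i * ∏ j, x j ^ A i j) ^ k i`
  `= (∏ i, s i ^ k i) * ∏ j, x j ^ (∑ i, k i * A i j)`.
* `lpol_mmap` : take `Q = ∑ k in P.support, single (fun j => ∑ i, k i * A i j) (P k * mon k s)`.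
* `lpol_le` : the ultrametric inequality for finite sums (`IsUltrametricDist.norm_sum_le` ...).
* `lpol_bdd` : a finite sum of the bounded functions `P k * mon k t`.
-/

namespace Pool.Agent.Work.MP_6d379e_ag.Ab

variable {ι κ : Type*} [Fintype ι] [Fintype κ] {K : Type*} [NontriviallyNormedField K]

private theorem lpol_eq (P : (ι → ℤ) →₀ K) (t : Tor ι K) :
    lpol P t = ∑ k ∈ P.support, P k * mon k t := rfl

private theorem zpow_sum' {G : Type*} [CommGroup G] {α : Type*} (S : Finset α) (f : α → ℤ) (x : G) :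
    ∏ i ∈ S, x ^ f i = x ^ ∑ i ∈ S, f i := by
  classical
  induction S using Finset.induction_on with
  | empty => simp
  | insert a S ha ih => rw [Finset.prod_insert ha, Finset.sum_insert ha, ih, zpow_add]

theorem lpol_zero (t : Tor ι K) : lpol (0 : (ι → ℤ) →₀ K) t = 0 := by
  unfold lpol
  exact Finsupp.sum_zero_index

theorem lpol_add (P Q : (ι → ℤ) →₀ K) (t : Tor ι K) :
    lpol (P + Q) t = lpol P t + lpol Q t := by
  unfold lpol
  exact Finsupp.sum_add_index' (fun k => zero_mul _) (fun k b c => add_mul b c _)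

theorem lpol_neg (P : (ι → ℤ) →₀ K) (t : Tor ι K) : lpol (-P) t = -lpol P t := by
  have h := lpol_add (-P) P t
  rw [neg_add_cancel, lpol_zero] at h
  exact eq_neg_of_add_eq_zero_left h.symm

theorem lpol_sub (P Q : (ι → ℤ) →₀ K) (t : Tor ι K) :
    lpol (P - Q) t = lpol P t - lpol Q t := by
  rw [sub_eq_add_neg, lpol_add, lpol_neg, ← sub_eq_add_neg]

theorem lpol_smul (c : K) (P : (ι → ℤ) →₀ K) (t : Tor ι K) :
    lpol (c • P) t = c * lpol P t := by
  unfold lpol
  rw [Finsupp.sum_smul_index (fun k => zero_mul _), Finsupp.mul_sum]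
  refine Finsupp.sum_congr fun k _ => ?_
  rw [mul_assoc]

theorem lpol_single (k : ι → ℤ) (c : K) (t : Tor ι K) :
    lpol (Finsupp.single k c) t = c * mon k t := by
  unfold lpol
  exact Finsupp.sum_single_index (zero_mul _)

private theorem lpol_sum {α : Type*} (S : Finset α) (f : α → ((ι → ℤ) →₀ K)) (t : Tor ι K) :
    lpol (∑ x ∈ S, f x) t = ∑ x ∈ S, lpol (f x) t := by
  classical
  induction S using Finset.induction_on with
  | empty => exact lpol_zero t
  | insert a S ha ih => rw [Finset.sum_insert ha, Finset.sum_insert ha, lpol_add, ih]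

theorem lpol_finset (S : Finset (ι → ℤ)) (c : (ι → ℤ) → K) :
    ∃ P : (ι → ℤ) →₀ K, ∀ t : Tor ι K, lpol P t = ∑ k ∈ S, c k * mon k t := by
  refine ⟨∑ k ∈ S, Finsupp.single k (c k), fun t => ?_⟩
  rw [lpol_sum]
  exact Finset.sum_congr rfl fun k _ => lpol_single k (c k) t

theorem lpol_mul (P Q : (ι → ℤ) →₀ K) :
    ∃ R : (ι → ℤ) →₀ K, ∀ t : Tor ι K, lpol R t = lpol P t * lpol Q t := by
  refine ⟨∑ k ∈ P.support, ∑ l ∈ Q.support, Finsupp.single (k + l) (P k * Q l), fun t => ?_⟩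
  rw [lpol_sum, lpol_eq P t, lpol_eq Q t, Finset.sum_mul_sum]
  refine Finset.sum_congr rfl fun k _ => ?_
  rw [lpol_sum]
  refine Finset.sum_congr rfl fun l _ => ?_
  rw [lpol_single, mon_add]
  ring

theorem mon_mmap (A : ι → κ → ℤ) (s : Tor ι K) (k : ι → ℤ) (x : Tor κ K) :
    mon k (mmap A s x) = mon k s * mon (fun j => ∑ i, k i * A i j) x := by
  unfold mon mmap
  rw [← Units.val_mul]
  congr 1
  simp only [mul_zpow, Finset.prod_mul_distrib]
  congr 1
  have h1 : ∀ i, (∏ j, x j ^ A i j) ^ k i = ∏ j, x j ^ (k i * A i j) := by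
    intro i
    rw [← Finset.prod_zpow]
    refine Finset.prod_congr rfl fun j _ => ?_
    rw [← zpow_mul, mul_comm]
  simp only [h1]
  rw [Finset.prod_comm]
  refine Finset.prod_congr rfl fun j _ => ?_
  exact zpow_sum' Finset.univ (fun i => k i * A i j) (x j)

theorem lpol_mmap (A : ι → κ → ℤ) (s : Tor ι K) (P : (ι → ℤ) →₀ K) :
    ∃ Q : (κ → ℤ) →₀ K, ∀ x : Tor κ K, lpol Q x = lpol P (mmap A s x) := by
  refine ⟨∑ k ∈ P.support, Finsupp.single (fun j => ∑ i, k i * A i j) (P k * mon k s),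
    fun x => ?_⟩
  rw [lpol_sum, lpol_eq P]
  refine Finset.sum_congr rfl fun k _ => ?_
  rw [lpol_single, mon_mmap, mul_assoc]

theorem lpol_le [IsUltrametricDist K] {q : Tor ι K} {a b : ι → ℤ} (P : (ι → ℤ) →₀ K) {C : ℝ}
    (hC : 0 ≤ C) (hP : ∀ k, ‖P k‖ * Wt q a b k ≤ C) {t : Tor ι K} (ht : t ∈ BB q a b) :
    ‖lpol P t‖ ≤ C := by
  rw [lpol_eq]
  refine IsUltrametricDist.norm_sum_le_of_forall_le_of_nonneg hC fun k _ => ?_
  rw [norm_mul]
  exact (mul_le_mul_of_nonneg_left (norm_mon_le_Wt ht k) (norm_nonneg _)).trans (hP k)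

theorem lpol_bdd (q : Tor ι K) (a b : ι → ℤ) (P : (ι → ℤ) →₀ K) :
    ∃ C : ℝ, ∀ t ∈ BB q a b, ‖lpol P t‖ ≤ C := by
  refine ⟨∑ k ∈ P.support, ‖P k‖ * Wt q a b k, fun t ht => ?_⟩
  rw [lpol_eq]
  refine (norm_sum_le _ _).trans (Finset.sum_le_sum fun k _ => ?_)
  rw [norm_mul]
  exact mul_le_mul_of_nonneg_left (norm_mon_le_Wt ht k) (norm_nonneg _)

end Pool.Agent.Work.MP_6d379e_ag.Ab
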