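import Pool.Agent.Work.MP_6d379e_ag.Ab.Defs

/-!
# Monomials, boxes and corners   (size S-M)

Everything is a direct computation with the definitions in `Defs`.

* `norm_mon` : the norm of a finite product of integer powers of units of a normed field
  (`norm_prod`, `norm_zpow`, `Units.val_zpow_eq_zpow_val`, `Units.coe_prod`).
* `norm_mon_le_Wt` : compare the factors one by one.  For `0 ≤ k i` use
  `‖t i‖ ≤ ‖q i‖ ^ (-(b i))` and monotonicity of `x ↦ x ^ (k i)`; for `k i < 0` use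
  `‖q i‖ ^ (a i) ≤ ‖t i‖` (both sides positive) and antitonicity.
* `corner_mem` : since `‖q i‖ ≤ 1` and `0 ≤ a i + b i` one has `‖q i‖ ^ a i ≤ ‖q i‖ ^ (-(b i))`.
* `one_le_Wt` : `1 ∈ BB q a b` and `mon k 1 = 1`.
* `mem_BB_sum`, `Wt_sum` : the `inl` coordinates have parameter `1`.
-/

namespace Pool.Agent.Work.MP_6d379e_ag.Ab

variable {ι κ : Type*} [Fintype ι] [Fintype κ] {K : Type*} [NontriviallyNormedField K]

theorem mon_zero (t : Tor ι K) : mon (0 : ι → ℤ) t = 1 := by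
  unfold mon
  simp

theorem mon_add (k l : ι → ℤ) (t : Tor ι K) : mon (k + l) t = mon k t * mon l t := by
  unfold mon
  simp only [Pi.add_apply, zpow_add, Finset.prod_mul_distrib, Units.val_mul]

theorem mon_neg (k : ι → ℤ) (t : Tor ι K) : mon (-k) t = (mon k t)⁻¹ := by
  unfold mon
  simp only [Pi.neg_apply, zpow_neg, Finset.prod_inv_distrib, Units.val_inv_eq_inv_val]

theorem mon_sub (k l : ι → ℤ) (t : Tor ι K) : mon (k - l) t = mon k t * (mon l t)⁻¹ := by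
  rw [sub_eq_add_neg, mon_add, mon_neg]

theorem mon_mul (k : ι → ℤ) (s t : Tor ι K) : mon k (s * t) = mon k s * mon k t := by
  unfold mon
  simp only [Pi.mul_apply, mul_zpow, Finset.prod_mul_distrib, Units.val_mul]

theorem mon_one (k : ι → ℤ) : mon k (1 : Tor ι K) = 1 := by
  unfold mon
  simp

theorem mon_inv (k : ι → ℤ) (t : Tor ι K) : mon k t⁻¹ = (mon k t)⁻¹ := by
  unfold mon
  simp only [Pi.inv_apply, inv_zpow, Finset.prod_inv_distrib, Units.val_inv_eq_inv_val]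

theorem mon_ne_zero (k : ι → ℤ) (t : Tor ι K) : mon k t ≠ 0 := by
  unfold mon
  exact Units.ne_zero _

theorem norm_mon (k : ι → ℤ) (t : Tor ι K) : ‖mon k t‖ = ∏ i, ‖(t i : K)‖ ^ k i := by
  unfold mon
  rw [Units.coe_prod, norm_prod]
  refine Finset.prod_congr rfl fun i _ => ?_
  rw [Units.val_zpow_eq_zpow_val, norm_zpow]

theorem norm_mon_circ (k : ι → ℤ) {t : Tor ι K} (ht : t ∈ (circ : Set (Tor ι K))) :
    ‖mon k t‖ = 1 := by
  rw [norm_mon]
  refine Finset.prod_eq_one fun i _ => ?_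
  rw [ht i, one_zpow]

theorem norm_mon_mul_circ (k : ι → ℤ) {u : Tor ι K} (hu : u ∈ (circ : Set (Tor ι K)))
    (t : Tor ι K) : ‖mon k (u * t)‖ = ‖mon k t‖ := by
  rw [mon_mul, norm_mul, norm_mon_circ k hu, one_mul]

theorem mon_elim (k : κ → ℤ) (l : ι → ℤ) (z : Tor (κ ⊕ ι) K) :
    mon (Sum.elim k l) z =
      mon k (fun j => z (Sum.inl j)) * mon l (fun i => z (Sum.inr i)) := by
  unfold mon
  rw [Fintype.prod_sum_type, Units.val_mul]
  rfl

theorem Wt_pos (q : Tor ι K) (a b k : ι → ℤ) : 0 < Wt q a b k := by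
  unfold Wt
  exact norm_pos_iff.2 (mon_ne_zero _ _)

private theorem zanti {x y : ℝ} (hx : 0 < x) (hxy : x ≤ y) {k : ℤ} (hk : k ≤ 0) :
    y ^ k ≤ x ^ k := by
  obtain ⟨n, hn⟩ := Int.eq_ofNat_of_zero_le (show 0 ≤ -k by omega)
  have e : k = -(n : ℤ) := by omega
  rw [e, zpow_neg, zpow_neg, zpow_natCast, zpow_natCast]
  exact inv_anti₀ (pow_pos hx n) (pow_le_pow_left₀ hx.le hxy n)

private theorem zmono {x y : ℝ} (hx : 0 ≤ x) (hxy : x ≤ y) {k : ℤ} (hk : 0 ≤ k) :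
    x ^ k ≤ y ^ k := by
  obtain ⟨n, rfl⟩ := Int.eq_ofNat_of_zero_le hk
  rw [zpow_natCast, zpow_natCast]
  exact pow_le_pow_left₀ hx hxy n

private theorem zexp {x : ℝ} (hx : 0 < x) (hx1 : x ≤ 1) {m n : ℤ} (h : m ≤ n) : x ^ n ≤ x ^ m :=
  zpow_le_zpow_right_of_le_one₀ hx hx1 h

private theorem qpos (q : Tor ι K) (i : ι) : 0 < ‖(q i : K)‖ := norm_pos_iff.2 (Units.ne_zero _)

theorem norm_mon_le_Wt {q : Tor ι K} {a b : ι → ℤ} {t : Tor ι K}
    (ht : t ∈ BB q a b) (k : ι → ℤ) : ‖mon k t‖ ≤ Wt q a b k := by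
  unfold Wt
  rw [norm_mon, norm_mon]
  refine Finset.prod_le_prod (fun i _ => zpow_nonneg (norm_nonneg _) _) fun i _ => ?_
  unfold corner
  by_cases hk : 0 ≤ k i
  · rw [if_pos hk, Units.val_zpow_eq_zpow_val, norm_zpow]
    exact zmono (norm_nonneg _) (ht i).2 hk
  · rw [if_neg hk, Units.val_zpow_eq_zpow_val, norm_zpow]
    exact zanti (zpow_pos (qpos q i) _) (ht i).1 (by omega)

theorem corner_mem {q : Tor ι K} (hq : ∀ i, ‖(q i : K)‖ ≤ 1) {a b : ι → ℤ}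
    (hab : ∀ i, 0 ≤ a i + b i) (k : ι → ℤ) : corner q a b k ∈ BB q a b := by
  intro i
  have h := zexp (qpos q i) (hq i) (show -(b i) ≤ a i by have := hab i; omega)
  unfold corner
  by_cases hk : 0 ≤ k i
  · rw [if_pos hk, Units.val_zpow_eq_zpow_val, norm_zpow]
    exact ⟨h, le_refl _⟩
  · rw [if_neg hk, Units.val_zpow_eq_zpow_val, norm_zpow]
    exact ⟨le_refl _, h⟩

theorem BB_one (a b : ι → ℤ) : BB (1 : Tor ι K) a b = circ := by
  ext t
  constructor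
  · intro h i
    have h1 := h i
    rw [Pi.one_apply, Units.val_one, norm_one, one_zpow, one_zpow] at h1
    exact le_antisymm h1.2 h1.1
  · intro h i
    rw [Pi.one_apply, Units.val_one, norm_one, one_zpow, one_zpow]
    exact ⟨(h i).ge, (h i).le⟩

theorem Wt_one (a b k : ι → ℤ) : Wt (1 : Tor ι K) a b k = 1 := by
  have h : corner (1 : Tor ι K) a b k = 1 := by
    funext i
    unfold corner
    rw [Pi.one_apply, one_zpow, one_zpow, ite_self]
  unfold Wt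
  rw [h, mon_one, norm_one]

theorem circ_mul_mem_BB {q : Tor ι K} {a b : ι → ℤ} {u t : Tor ι K}
    (hu : u ∈ (circ : Set (Tor ι K))) (ht : t ∈ BB q a b) : u * t ∈ BB q a b := by
  intro i
  rw [Pi.mul_apply, Units.val_mul, norm_mul, hu i, one_mul]
  exact ht i

theorem circ_subset_BB {q : Tor ι K} (hq : ∀ i, ‖(q i : K)‖ ≤ 1) {a b : ι → ℤ}
    (ha : ∀ i, 0 ≤ a i) (hb : ∀ i, 0 ≤ b i) : (circ : Set (Tor ι K)) ⊆ BB q a b := by
  intro t ht i
  have h1 := zexp (qpos q i) (hq i) (ha i)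
  have h2 := zexp (qpos q i) (hq i) (show -(b i) ≤ 0 by have := hb i; omega)
  rw [zpow_zero] at h1 h2
  rw [ht i]
  exact ⟨h1, h2⟩

theorem BB_mono {q : Tor ι K} (hq : ∀ i, ‖(q i : K)‖ ≤ 1) {a b a' b' : ι → ℤ}
    (ha : ∀ i, a i ≤ a' i) (hb : ∀ i, b i ≤ b' i) : BB q a b ⊆ BB q a' b' := by
  intro t ht i
  exact ⟨(zexp (qpos q i) (hq i) (ha i)).trans (ht i).1,
    (ht i).2.trans (zexp (qpos q i) (hq i) (by have := hb i; omega))⟩

theorem Wt_mono {q : Tor ι K} (hq : ∀ i, ‖(q i : K)‖ ≤ 1) {a b a' b' : ι → ℤ}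
    (hab : ∀ i, 0 ≤ a i + b i)
    (ha : ∀ i, a i ≤ a' i) (hb : ∀ i, b i ≤ b' i) (k : ι → ℤ) :
    Wt q a b k ≤ Wt q a' b' k := by
  exact norm_mon_le_Wt (BB_mono hq ha hb (corner_mem hq hab k)) k

theorem one_mem_circ : (1 : Tor ι K) ∈ (circ : Set (Tor ι K)) := by
  intro i
  rw [Pi.one_apply, Units.val_one, norm_one]

theorem circ_mul {u v : Tor ι K} (hu : u ∈ (circ : Set (Tor ι K)))
    (hv : v ∈ (circ : Set (Tor ι K))) : u * v ∈ (circ : Set (Tor ι K)) := by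
  intro i
  rw [Pi.mul_apply, Units.val_mul, norm_mul, hu i, hv i, one_mul]

theorem circ_inv {u : Tor ι K} (hu : u ∈ (circ : Set (Tor ι K))) :
    u⁻¹ ∈ (circ : Set (Tor ι K)) := by
  intro i
  rw [Pi.inv_apply, Units.val_inv_eq_inv_val, norm_inv, hu i, inv_one]

theorem one_le_Wt {q : Tor ι K} (hq : ∀ i, ‖(q i : K)‖ ≤ 1) {a b : ι → ℤ}
    (ha : ∀ i, 0 ≤ a i) (hb : ∀ i, 0 ≤ b i) (k : ι → ℤ) : 1 ≤ Wt q a b k := by
  have h := norm_mon_le_Wt (circ_subset_BB hq ha hb one_mem_circ) k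
  rw [mon_one, norm_one] at h
  exact h

theorem mem_BB_sum (q : Tor ι K) (a b : ι → ℤ) (z : Tor (κ ⊕ ι) K) :
    z ∈ BB (Sum.elim (1 : Tor κ K) q) (Sum.elim (0 : κ → ℤ) a) (Sum.elim (0 : κ → ℤ) b) ↔
      (fun j => z (Sum.inl j)) ∈ (circ : Set (Tor κ K)) ∧
        (fun i => z (Sum.inr i)) ∈ BB q a b := by
  constructor
  · intro h
    refine ⟨fun j => ?_, fun i => ?_⟩
    · have h1 := h (Sum.inl j)
      rw [Sum.elim_inl, Pi.one_apply, Units.val_one, norm_one, one_zpow, one_zpow] at h1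
      exact le_antisymm h1.2 h1.1
    · exact h (Sum.inr i)
  · rintro ⟨h1, h2⟩ (j | i)
    · rw [Sum.elim_inl, Pi.one_apply, Units.val_one, norm_one, one_zpow, one_zpow]
      exact ⟨(h1 j).ge, (h1 j).le⟩
    · exact h2 i

theorem Wt_sum (q : Tor ι K) (a b : ι → ℤ) (k : κ → ℤ) (l : ι → ℤ) :
    Wt (Sum.elim (1 : Tor κ K) q) (Sum.elim (0 : κ → ℤ) a) (Sum.elim (0 : κ → ℤ) b)
      (Sum.elim k l) = Wt q a b l := by
  unfold Wt
  rw [mon_elim]
  have h1 : (fun j => corner (Sum.elim (1 : Tor κ K) q) (Sum.elim (0 : κ → ℤ) a)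
      (Sum.elim (0 : κ → ℤ) b) (Sum.elim k l) (Sum.inl j)) = (1 : Tor κ K) := by
    funext j
    unfold corner
    have e : (Sum.elim (1 : Tor κ K) q (Sum.inl j) : Kˣ) = 1 := rfl
    rw [e, one_zpow, one_zpow, ite_self]
    rfl
  have h2 : (fun i => corner (Sum.elim (1 : Tor κ K) q) (Sum.elim (0 : κ → ℤ) a)
      (Sum.elim (0 : κ → ℤ) b) (Sum.elim k l) (Sum.inr i)) = corner q a b l := by
    funext i
    rfl
  rw [h1, h2, mon_one, one_mul]

theorem norm_elim_le_one {q : Tor ι K} (hq : ∀ i, ‖(q i : K)‖ ≤ 1) :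
    ∀ i, ‖((Sum.elim (1 : Tor κ K) q i : Kˣ) : K)‖ ≤ 1 := by
  rintro (j | i)
  · rw [Sum.elim_inl, Pi.one_apply, Units.val_one, norm_one]
  · exact hq i

end Pool.Agent.Work.MP_6d379e_ag.Ab
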