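import Pool.Agent.Work.MP_6d379e_ag.Ab.Cf

/-!
# The number of zeros on the circle is bounded   (size M)

`ZB n g` : whenever `g x = (∏ j, (x - z j)) * h x` on `circ` with `m` points `z j` of norm one and
`h` analytic, then `m ≤ n`.

Let `g` be analytic on `circ`, not identically zero.  Call a nonzero analytic `h` of type
`(M, B, T)` (`M > 0` real, `B ≤ T` integers) if `‖cf h k‖ ≤ M` for all `k`, with equality at
`k () = B` and `k () = T`, and `‖cf h k‖ < M` if `k () < B` or `T < k ()`.  Every nonzero analytic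
function has a unique type (`cf_dec`: the maximum is attained on a nonempty finite set).
If `h` has type `(M, B, T)` and `‖z‖ = 1` then `x ↦ (x - z) * h x` has type `(M, B, T + 1)`: its
`k`-th coefficient is `cf h (k - 1) - z * cf h k` (`cf_mon_mul`, `cf_smul`, `cf_sub`); use the
ultrametric inequality.  By induction `(∏ j, (x - z j)) * h` has type `(M, B, T + m)`, which is the
type `(M, B', T')` of `g`; so `m ≤ T' - B'`.
-/

namespace Pool.Agent.Work.MP_6d379e_ag.Ab

variable {K : Type*} [NontriviallyNormedField K]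

/-- `g` has at most `n` zeros on the circle, counted with multiplicity -/
def ZB (n : ℕ) (g : Tor Unit K → K) : Prop :=
  ∀ (m : ℕ) (z : Fin m → Tor Unit K) (h : Tor Unit K → K),
    (∀ j, z j ∈ (circ : Set (Tor Unit K))) → AnOn circ h →
    (∀ x ∈ (circ : Set (Tor Unit K)), g x = (∏ j, ((x () : K) - (z j () : K))) * h x) → m ≤ n

variable [IsUltrametricDist K] [CompleteSpace K] [IsAlgClosed K] [CharZero K]

/-- the type of an analytic function -/
private structure Ty (h : Tor Unit K → K) (M : ℝ) (B T : ℤ) : Prop where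
  pos : 0 < M
  le : ∀ k, ‖cf h k‖ ≤ M
  bot : ‖cf h (fun _ => B)‖ = M
  top : ‖cf h (fun _ => T)‖ = M
  lt : ∀ k : Unit → ℤ, k () < B ∨ T < k () → ‖cf h k‖ < M

omit [IsUltrametricDist K] [CompleteSpace K] [IsAlgClosed K] [CharZero K] in
private theorem Ty.unique {h : Tor Unit K → K} {M M' : ℝ} {B B' T T' : ℤ} (t : Ty h M B T)
    (t' : Ty h M' B' T') : B = B' ∧ T = T' := by
  have hM : M = M' := by
    apply le_antisymm
    · rw [← t.bot]
      exact t'.le _
    · rw [← t'.bot]
      exact t.le _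
  subst hM
  have h1 : ∀ {B B' T T' : ℤ}, Ty h M B T → Ty h M B' T' → B ≤ B' ∧ T' ≤ T := by
    intro B B' T T' t t'
    constructor
    · by_contra hc
      exact absurd t'.bot (t.lt (fun _ => B') (Or.inl (not_le.1 hc))).ne
    · by_contra hc
      exact absurd t'.top (t.lt (fun _ => T') (Or.inr (not_le.1 hc))).ne
  have h2 := h1 t t'
  have h3 := h1 t' t
  exact ⟨le_antisymm h2.1 h3.1, le_antisymm h3.2 h2.2⟩

omit [IsUltrametricDist K] [CompleteSpace K] [IsAlgClosed K] [CharZero K] in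
private theorem Ty.bt {h : Tor Unit K → K} {M : ℝ} {B T : ℤ} (t : Ty h M B T) : B ≤ T := by
  by_contra hc
  exact absurd t.top (t.lt (fun _ => T) (Or.inl (not_le.1 hc))).ne

private theorem ty_exists {g : Tor Unit K → K} (hg : AnOn circ g) {x0 : Tor Unit K}
    (hx0 : x0 ∈ (circ : Set (Tor Unit K))) (h0 : g x0 ≠ 0) : ∃ M B T, Ty g M B T := by
  have hfin : ∀ ε : ℝ, 0 < ε → {k | ε < ‖cf g k‖}.Finite := by
    intro ε hε
    have h1 : {k | ε < ‖cf g k‖ * Wt (1 : Tor Unit K) 0 0 k}.Finite := cf_dec hg ε hε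
    simp only [Wt_one, mul_one] at h1
    exact h1
  obtain ⟨k0, hk0⟩ : ∃ k, cf g k ≠ 0 := by
    by_contra hcon
    push Not at hcon
    have h1 : cf g = 0 := funext hcon
    apply h0
    rw [cf_eq hg hx0, h1]
    unfold ser
    simp only [Pi.zero_apply, zero_mul, tsum_zero]
  have hk0' : 0 < ‖cf g k0‖ := norm_pos_iff.2 hk0
  obtain ⟨kM, hkM⟩ : ∃ kM, ∀ k, ‖cf g k‖ ≤ ‖cf g kM‖ := by
    obtain ⟨kM, -, hkM⟩ := Set.exists_max_image _ (fun k => ‖cf g k‖)
      (hfin (‖cf g k0‖ / 2) (half_pos hk0')) ⟨k0, half_lt_self hk0'⟩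
    refine ⟨kM, fun k => ?_⟩
    have h1 : ‖cf g k0‖ ≤ ‖cf g kM‖ := hkM k0 (half_lt_self hk0')
    by_cases h2 : ‖cf g k0‖ / 2 < ‖cf g k‖
    · exact hkM k h2
    · linarith
  obtain ⟨M, hMdef⟩ : ∃ M : ℝ, M = ‖cf g kM‖ := ⟨_, rfl⟩
  have hM : 0 < M := by
    rw [hMdef]
    exact hk0'.trans_le (hkM k0)
  have hle : ∀ k, ‖cf g k‖ ≤ M := fun k => by rw [hMdef]; exact hkM k
  have hSfin : {k | ‖cf g k‖ = M}.Finite := by
    refine (hfin (M / 2) (half_pos hM)).subset fun k hk => ?_
    have hk' : ‖cf g k‖ = M := hk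
    show M / 2 < ‖cf g k‖
    rw [hk']
    exact half_lt_self hM
  obtain ⟨kb, hkb, hb⟩ := Set.exists_min_image _ (fun k : Unit → ℤ => k ()) hSfin
    ⟨kM, hMdef.symm⟩
  obtain ⟨kt, hkt, ht⟩ := Set.exists_max_image _ (fun k : Unit → ℤ => k ()) hSfin
    ⟨kM, hMdef.symm⟩
  have hb' : (fun _ : Unit => kb ()) = kb := rfl
  have ht' : (fun _ : Unit => kt ()) = kt := rfl
  refine ⟨M, kb (), kt (), hM, hle, by rw [hb']; exact hkb, by rw [ht']; exact hkt,
    fun k hk => lt_of_le_of_ne (hle k) fun h1 => ?_⟩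
  have h2 : kb () ≤ k () := hb k h1
  have h3 : k () ≤ kt () := ht k h1
  omega

omit [IsUltrametricDist K] [CompleteSpace K] [IsAlgClosed K] [CharZero K] in
private theorem mon_one' (x : Tor Unit K) : mon (fun _ => 1) x = (x () : K) := by
  unfold mon
  rw [Fintype.prod_unique, zpow_one]

omit [IsUltrametricDist K] [CompleteSpace K] [IsAlgClosed K] [CharZero K] in
private theorem lin_eq (z : K) (h : Tor Unit K → K) :
    (fun x : Tor Unit K => ((x () : K) - z) * h x) =
      fun x => mon (fun _ => 1) x * h x - z * h x := by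
  funext x
  rw [mon_one']
  ring

omit [IsUltrametricDist K] [CompleteSpace K] [IsAlgClosed K] [CharZero K] in
private theorem lin_an (z : K) {h : Tor Unit K → K} (hh : AnOn circ h) :
    AnOn circ (fun x : Tor Unit K => ((x () : K) - z) * h x) := by
  rw [lin_eq]
  exact anOn_sub (anOn_mul_circ (anOn_mon circ _) hh) (anOn_smul z hh)

private theorem lin_cf (z : K) {h : Tor Unit K → K} (hh : AnOn circ h) (k : Unit → ℤ) :
    cf (fun x : Tor Unit K => ((x () : K) - z) * h x) k =
      cf h (k - fun _ => 1) - z * cf h k := by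
  rw [lin_eq, cf_sub (anOn_mul_circ (anOn_mon circ _) hh) (anOn_smul z hh), Pi.sub_apply,
    cf_mon_mul _ hh, cf_smul z hh]

private theorem ty_step {z : K} (hz : ‖z‖ = 1) {h : Tor Unit K → K} (hh : AnOn circ h) {M : ℝ}
    {B T : ℤ} (t : Ty h M B T) :
    Ty (fun x : Tor Unit K => ((x () : K) - z) * h x) M B (T + 1) := by
  have hzn : ∀ k, ‖-(z * cf h k)‖ = ‖cf h k‖ := fun k => by rw [norm_neg, norm_mul, hz, one_mul]
  have hmx : ∀ k, ‖cf (fun x : Tor Unit K => ((x () : K) - z) * h x) k‖ ≤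
      max ‖cf h (k - fun _ => 1)‖ ‖cf h k‖ := by
    intro k
    rw [lin_cf z hh, sub_eq_add_neg]
    refine (IsUltrametricDist.norm_add_le_max _ _).trans ?_
    rw [hzn]
  have heq : ∀ k, ‖cf h (k - fun _ => 1)‖ ≠ ‖cf h k‖ →
      ‖cf (fun x : Tor Unit K => ((x () : K) - z) * h x) k‖ =
        max ‖cf h (k - fun _ => 1)‖ ‖cf h k‖ := by
    intro k hk
    rw [lin_cf z hh, sub_eq_add_neg, IsUltrametricDist.norm_add_eq_max_of_norm_ne_norm, hzn]
    rw [hzn]
    exact hk
  refine ⟨t.pos, fun k => (hmx k).trans (max_le (t.le _) (t.le _)), ?_, ?_, fun k hk => ?_⟩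
  · have h1 : ‖cf h ((fun _ => B) - fun _ => 1)‖ < M :=
      t.lt _ (Or.inl (by show B - 1 < B; omega))
    rw [heq _ (by rw [t.bot]; exact h1.ne), t.bot]
    exact max_eq_right h1.le
  · have h1 : ‖cf h (fun _ => T + 1)‖ < M := t.lt _ (Or.inr (by show T < T + 1; omega))
    have h2 : ((fun _ : Unit => T + 1) - fun _ => 1 : Unit → ℤ) = fun _ => T := by
      funext x
      show T + 1 - 1 = T
      omega
    have h3 : ‖cf h ((fun _ : Unit => T + 1) - fun _ => 1)‖ = M := by rw [h2]; exact t.top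
    rw [heq _ (by rw [h3]; exact h1.ne'), h3]
    exact max_eq_left h1.le
  · refine (hmx k).trans_lt (max_lt (t.lt _ ?_) (t.lt _ ?_))
    · show k () - 1 < B ∨ T < k () - 1
      omega
    · omega

private theorem prod_an : ∀ (m : ℕ) (z : Fin m → Tor Unit K) (h : Tor Unit K → K),
    AnOn circ h → AnOn circ fun x : Tor Unit K => (∏ j, ((x () : K) - (z j () : K))) * h x := by
  intro m
  induction m with
  | zero =>
    intro z h hh
    refine anOn_congr (fun x _ => ?_) hh
    rw [Fin.prod_univ_zero, one_mul]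
  | succ m ih =>
    intro z h hh
    refine anOn_congr (fun x _ => ?_) (lin_an (z 0 () : K) (ih (fun j => z j.succ) h hh))
    rw [Fin.prod_univ_succ, mul_assoc]

private theorem prod_ty {M : ℝ} {B T : ℤ} : ∀ (m : ℕ) (z : Fin m → Tor Unit K)
    (h : Tor Unit K → K), (∀ j, z j ∈ (circ : Set (Tor Unit K))) → AnOn circ h → Ty h M B T →
    Ty (fun x : Tor Unit K => (∏ j, ((x () : K) - (z j () : K))) * h x) M B (T + m) := by
  intro m
  induction m with
  | zero =>
    intro z h hz hh t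
    have h1 : (fun x : Tor Unit K => (∏ j, ((x () : K) - (z j () : K))) * h x) = h := by
      funext x
      rw [Fin.prod_univ_zero, one_mul]
    rw [h1, Nat.cast_zero, add_zero]
    exact t
  | succ m ih =>
    intro z h hz hh t
    have h1 : (fun x : Tor Unit K => (∏ j, ((x () : K) - (z j () : K))) * h x) =
        fun x => ((x () : K) - (z 0 () : K)) *
          ((∏ j : Fin m, ((x () : K) - (z j.succ () : K))) * h x) := by
      funext x
      rw [Fin.prod_univ_succ, mul_assoc]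
    have h2 := ih (fun j => z j.succ) h (fun j => hz j.succ) hh t
    have h3 := ty_step (hz 0 ()) (prod_an m (fun j => z j.succ) h hh) h2
    rw [h1, Nat.cast_succ, ← add_assoc]
    exact h3

theorem zb_exists {g : Tor Unit K → K} (hg : AnOn circ g) {x0 : Tor Unit K}
    (hx0 : x0 ∈ (circ : Set (Tor Unit K))) (h0 : g x0 ≠ 0) : ∃ n, ZB n g := by
  obtain ⟨M', B', T', t'⟩ := ty_exists hg hx0 h0
  refine ⟨(T' - B').toNat, fun m z h hz hh heq => ?_⟩
  have hh0 : h x0 ≠ 0 := by
    intro h1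
    apply h0
    rw [heq x0 hx0, h1, mul_zero]
  obtain ⟨M, B, T, t⟩ := ty_exists hh hx0 hh0
  have h1 := prod_ty m z h hz hh t
  have h2 : cf g = cf (fun x : Tor Unit K => (∏ j, ((x () : K) - (z j () : K))) * h x) :=
    cf_congr heq
  have h3 : Ty g M B (T + m) := by
    obtain ⟨a1, a2, a3, a4, a5⟩ := h1
    rw [← h2] at a2 a3 a4 a5
    exact ⟨a1, a2, a3, a4, a5⟩
  obtain ⟨h4, h5⟩ := h3.unique t'
  have h6 := t.bt
  omega

theorem zb_succ {n : ℕ} {g g' : Tor Unit K → K} {z : Tor Unit K}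
    (hz : z ∈ (circ : Set (Tor Unit K)))
    (h : ∀ x ∈ (circ : Set (Tor Unit K)), g x = ((x () : K) - (z () : K)) * g' x)
    (hg : ZB (n + 1) g) : ZB n g' := by
  intro m z' h' hz' hh' heq
  have h1 := hg (m + 1) (Fin.cons z z') h' (fun j => by
    refine Fin.cases ?_ (fun j => ?_) j
    · exact hz
    · exact hz' j) hh' (fun x hx => by
    rw [h x hx, heq x hx, Fin.prod_univ_succ, ← mul_assoc]
    rfl)
  omega

theorem zb_zero {g g' : Tor Unit K → K} {z : Tor Unit K}
    (hz : z ∈ (circ : Set (Tor Unit K))) (hg' : AnOn circ g')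
    (h : ∀ x ∈ (circ : Set (Tor Unit K)), g x = ((x () : K) - (z () : K)) * g' x)
    (hg : ZB 0 g) : False := by
  have h1 := hg 1 (fun _ => z) g' (fun _ => hz) hg' (fun x hx => by
    rw [h x hx, Fin.prod_univ_one])
  omega

end Pool.Agent.Work.MP_6d379e_ag.Ab
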