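import Pool.Agent.Work.MP_6d379e_ag.Ab.ZPoly
import Pool.Agent.Work.MP_6d379e_ag.Ab.Cf

/-!
# A function without zeros on the circle is invertible   (size M-L)

One variable: `Tor Unit K`, `x () ∈ Kˣ`.  Let `g` be analytic on `circ` without zeros there,
`c = cf g`, `M` the maximum of the `‖c k‖` (positive, attained on a nonempty finite set `S` of
exponents, `cf_dec`).

Suppose `S` has at least two elements; let `kb < kt` be the smallest and the largest one (as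
integers `k ()`), `w = kt - kb > 0`.  For `n : ℕ` let `p n` be the Laurent polynomial consisting of
the (finitely many) terms `c k * mon k` with `‖c k‖ > M * (1 / 2) ^ ((n + 1) * w)`;
`‖g - p n‖ ≤ M * (1 / 2) ^ ((n + 1) * w)` on `circ` (`ser_sub_sum_le`, `cf_eq`).  Multiplied by a
power of the variable, `p n` is a polynomial `P n` in the variable, to which `poly_root` applies
with this `M` and with `j0 - i0 = w`.  Construct `z n` of norm one with `p n (z n) = 0` and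
`‖z (n + 1) - z n‖ ≤ (1 / 2) ^ (n + 1)`: `z 0` from `poly_root` at `z = 1`; given `z n`,
`‖p (n + 1) (z n)‖ = ‖p (n + 1) (z n) - p n (z n)‖ ≤ M * (1 / 2) ^ ((n + 1) * w)`, and `poly_root`
at `z n` gives a root `z (n + 1)` of `P (n + 1)` of norm one with
`‖z n - z (n + 1)‖ ^ w ≤ (1 / 2) ^ ((n + 1) * w)`.  The sequence is Cauchy; its limit `z` has norm
one, and `g` is continuous on `circ` in the variable (uniform limit of Laurent polynomials), and
`‖g (z n)‖ ≤ M * (1 / 2) ^ ((n + 1) * w) → 0`; so `g z = 0`, a contradiction.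

So `S = {k}`; with `c0 = c k` the function `h = (g / (c0 * mon k)) - 1` is analytic on `circ` and
`‖h‖ ≤ ρ < 1` there; `(1 + h)⁻¹` is analytic (`anOn_geom` with `BB_one`), and
`g⁻¹ = c0⁻¹ * mon (-k) * (1 + h)⁻¹` on `circ`.
-/

namespace Pool.Agent.Work.MP_6d379e_ag.Ab

variable {K : Type*} [NontriviallyNormedField K] [IsUltrametricDist K]
variable [CompleteSpace K] [IsAlgClosed K] [CharZero K]

/-- the point with coordinate `u` -/
private def pt (u : Kˣ) : Tor Unit K := fun _ => u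

omit [IsUltrametricDist K] [CompleteSpace K] [IsAlgClosed K] [CharZero K] in
private theorem mon_pt (k : Unit → ℤ) (u : Kˣ) : mon k (pt u) = (u : K) ^ k () := by
  unfold mon
  rw [Fintype.prod_unique]
  show ((u ^ k () : Kˣ) : K) = (u : K) ^ k ()
  rw [Units.val_zpow_eq_zpow_val]

omit [IsUltrametricDist K] [CompleteSpace K] [IsAlgClosed K] [CharZero K] in
private theorem pt_circ {u : Kˣ} (hu : ‖(u : K)‖ = 1) : pt u ∈ (circ : Set (Tor Unit K)) :=
  fun _ => hu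

private theorem ext_unit {k l : Unit → ℤ} (h : k () = l ()) : k = l := by
  funext x
  exact h

omit [IsUltrametricDist K] [CompleteSpace K] [IsAlgClosed K] [CharZero K] in
/-- the coefficients of the polynomial attached to a finite set of exponents -/
private theorem coeff_aux (c : (Unit → ℤ) → K) (F : Finset (Unit → ℤ)) (N : ℕ)
    (hN : ∀ k ∈ F, 0 ≤ k () + N) (j : ℕ) :
    ((∑ k ∈ F, Polynomial.monomial (k () + (N : ℤ)).toNat (c k) : Polynomial K)).coeff j =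
      if (fun _ : Unit => (j : ℤ) - N) ∈ F then c (fun _ => (j : ℤ) - N) else 0 := by
  classical
  rw [Polynomial.finsetSum_coeff]
  have huniq : ∀ k ∈ F, (k () + (N : ℤ)).toNat = j → k = fun _ => (j : ℤ) - N := by
    intro k hk hj
    have h1 := hN k hk
    exact ext_unit (by show k () = (j : ℤ) - N; omega)
  by_cases h : (fun _ : Unit => (j : ℤ) - N) ∈ F
  · rw [if_pos h, Finset.sum_eq_single (fun _ : Unit => (j : ℤ) - N)]
    · rw [Polynomial.coeff_monomial, if_pos]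
      show ((j : ℤ) - N + N).toNat = j
      omega
    · intro k hk hne
      rw [Polynomial.coeff_monomial, if_neg]
      exact fun hj => hne (huniq k hk hj)
    · intro hh
      exact absurd h hh
  · rw [if_neg h]
    refine Finset.sum_eq_zero fun k hk => ?_
    rw [Polynomial.coeff_monomial, if_neg]
    intro hj
    apply h
    rw [← huniq k hk hj]
    exact hk

omit [IsUltrametricDist K] [CompleteSpace K] [IsAlgClosed K] [CharZero K] in
private theorem eval_aux (c : (Unit → ℤ) → K) (F : Finset (Unit → ℤ)) (N : ℕ)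
    (hN : ∀ k ∈ F, 0 ≤ k () + N) (u : Kˣ) :
    ((∑ k ∈ F, Polynomial.monomial (k () + (N : ℤ)).toNat (c k) : Polynomial K)).eval (u : K) =
      (u : K) ^ N * ∑ k ∈ F, c k * mon k (pt u) := by
  rw [Polynomial.eval_finsetSum, Finset.mul_sum]
  refine Finset.sum_congr rfl fun k hk => ?_
  rw [Polynomial.eval_monomial, mon_pt]
  have h1 : (u : K) ^ (k () + (N : ℤ)).toNat = (u : K) ^ k () * (u : K) ^ N := by
    rw [← zpow_natCast, Int.toNat_of_nonneg (hN k hk), zpow_add₀ u.ne_zero, zpow_natCast]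
  rw [h1]
  ring

/-- a root of a truncation near `u` -/
private theorem near_root {g : Tor Unit K → K} (hg : AnOn circ g) {M : ℝ} (hM : 0 < M)
    (hle : ∀ k, ‖cf g k‖ ≤ M) {kb kt : Unit → ℤ} (hlt : kb () < kt ()) (hkb : ‖cf g kb‖ = M)
    (hkt : ‖cf g kt‖ = M) (hb : ∀ k, ‖cf g k‖ = M → kb () ≤ k ())
    (ht : ∀ k, ‖cf g k‖ = M → k () ≤ kt ()) {u : Kˣ} (hu : ‖(u : K)‖ = 1) {δ : ℝ}
    (hδ : 0 < δ) (hδM : δ < M) :
    ∃ v : Kˣ, ‖(v : K)‖ = 1 ∧ ‖g (pt v)‖ ≤ δ ∧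
      ‖(u : K) - v‖ ^ (kt () - kb ()).toNat ≤ max ‖g (pt u)‖ δ / M := by
  classical
  have hfin : {k | δ < ‖cf g k‖ * Wt (1 : Tor Unit K) 0 0 k}.Finite := cf_dec hg δ hδ
  obtain ⟨F, hF⟩ : ∃ F : Finset (Unit → ℤ), ∀ k, k ∈ F ↔ δ < ‖cf g k‖ := by
    refine ⟨hfin.toFinset, fun k => ?_⟩
    rw [Set.Finite.mem_toFinset, Set.mem_ofPred_eq, Wt_one, mul_one]
  have happ : ∀ w : Kˣ, ‖(w : K)‖ = 1 →
      ‖g (pt w) - ∑ k ∈ F, cf g k * mon k (pt w)‖ ≤ δ := by
    intro w hw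
    rw [cf_eq hg (pt_circ hw)]
    refine ser_sub_sum_le (cf_dec hg) (by rw [BB_one]; exact pt_circ hw) F hδ.le fun k hk => ?_
    rw [Wt_one, mul_one]
    exact not_lt.1 fun h1 => hk ((hF k).2 h1)
  obtain ⟨N, hN⟩ : ∃ N : ℕ, ∀ k ∈ F, 0 ≤ k () + (N : ℤ) := by
    refine ⟨F.sup fun k => (k ()).natAbs, fun k hk => ?_⟩
    have h1 : (k ()).natAbs ≤ F.sup fun k => (k ()).natAbs :=
      Finset.le_sup (f := fun k : Unit → ℤ => (k ()).natAbs) hk
    omega
  obtain ⟨P, hP⟩ : ∃ P : Polynomial K,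
      P = ∑ k ∈ F, Polynomial.monomial (k () + (N : ℤ)).toNat (cf g k) := ⟨_, rfl⟩
  have hcoef : ∀ j : ℕ, P.coeff j =
      if (fun _ : Unit => (j : ℤ) - N) ∈ F then cf g (fun _ => (j : ℤ) - N) else 0 := by
    intro j
    rw [hP]
    exact coeff_aux (cf g) F N hN j
  have heval : ∀ w : Kˣ, ‖(w : K)‖ = 1 →
      ‖P.eval (w : K)‖ = ‖∑ k ∈ F, cf g k * mon k (pt w)‖ := by
    intro w hw
    rw [hP, eval_aux (cf g) F N hN w, norm_mul, norm_pow, hw, one_pow, one_mul]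
  have hkbF : kb ∈ F := (hF kb).2 (by rw [hkb]; exact hδM)
  have hktF : kt ∈ F := (hF kt).2 (by rw [hkt]; exact hδM)
  have hkbN := hN kb hkbF
  have hktN := hN kt hktF
  have hb' : (fun _ : Unit => (((kb () + (N : ℤ)).toNat : ℕ) : ℤ) - N) = kb :=
    ext_unit (by show (((kb () + (N : ℤ)).toNat : ℕ) : ℤ) - N = kb (); omega)
  have ht' : (fun _ : Unit => (((kt () + (N : ℤ)).toNat : ℕ) : ℤ) - N) = kt :=
    ext_unit (by show (((kt () + (N : ℤ)).toNat : ℕ) : ℤ) - N = kt (); omega)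
  obtain ⟨r, hr1, hr2, hr3⟩ := poly_root P hM (i0 := (kb () + (N : ℤ)).toNat)
    (j0 := (kt () + (N : ℤ)).toNat) (by omega)
    (by rw [hcoef, hb', if_pos hkbF, hkb]) (by rw [hcoef, ht', if_pos hktF, hkt])
    (fun i => by
      rw [hcoef]
      split_ifs
      · exact hle _
      · rw [norm_zero]
        exact hM.le)
    (fun i hi => by
      rw [hcoef]
      split_ifs with h1
      · refine lt_of_le_of_ne (hle _) fun h2 => ?_
        have h3 : kb () ≤ (i : ℤ) - N := hb _ h2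
        have h4 : (i : ℤ) - N ≤ kt () := ht _ h2
        omega
      · rw [norm_zero]
        exact hM) hu
  have hr0 : r ≠ 0 := by
    rw [← norm_pos_iff, hr1]
    exact one_pos
  refine ⟨Units.mk0 r hr0, hr1, ?_, ?_⟩
  · have h1 := happ (Units.mk0 r hr0) hr1
    have h2 := heval (Units.mk0 r hr0) hr1
    have h3 : P.eval ((Units.mk0 r hr0 : Kˣ) : K) = 0 := hr2
    rw [h3, norm_zero] at h2
    have h4 := norm_eq_zero.1 h2.symm
    rw [h4, sub_zero] at h1
    exact h1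
  · have hw : (kt () + (N : ℤ)).toNat - (kb () + (N : ℤ)).toNat = (kt () - kb ()).toNat := by
      omega
    rw [hw] at hr3
    refine hr3.trans (div_le_div_of_nonneg_right ?_ hM.le)
    rw [heval u hu]
    have h1 := happ u hu
    have h2 : ∑ k ∈ F, cf g k * mon k (pt u) =
        g (pt u) + (-(g (pt u) - ∑ k ∈ F, cf g k * mon k (pt u))) := by ring
    rw [h2]
    refine (IsUltrametricDist.norm_add_le_max _ _).trans ?_
    rw [norm_neg]
    exact max_le_max le_rfl h1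

omit [IsUltrametricDist K] [CompleteSpace K] [IsAlgClosed K] [CharZero K] in
/-- an analytic function is continuous in the variable -/
private theorem zero_of_lim {g : Tor Unit K → K} (hg : AnOn circ g) {z : ℕ → Kˣ}
    (hz : ∀ n, ‖(z n : K)‖ = 1) {w : Kˣ} (hw : ‖(w : K)‖ = 1)
    (hlim : Filter.Tendsto (fun n => (z n : K)) Filter.atTop (nhds (w : K)))
    (h0 : Filter.Tendsto (fun n => ‖g (pt (z n))‖) Filter.atTop (nhds 0)) : g (pt w) = 0 := by
  rw [← norm_eq_zero]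
  refine le_antisymm (le_of_forall_pos_le_add fun ε hε => ?_) (norm_nonneg _)
  obtain ⟨P, hP⟩ := hg (ε / 2) (half_pos hε)
  have hlp : ∀ u : Kˣ, lpol P (pt u) = ∑ k ∈ P.support, P k * (u : K) ^ k () := by
    intro u
    unfold lpol
    rw [Finsupp.sum]
    exact Finset.sum_congr rfl fun k _ => by rw [mon_pt]
  have hcont : Filter.Tendsto (fun n => lpol P (pt (z n))) Filter.atTop
      (nhds (lpol P (pt w))) := by
    simp only [hlp]
    refine tendsto_finsetSum _ fun k _ => Filter.Tendsto.const_mul _ ?_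
    exact ((continuousAt_zpow₀ (w : K) (k ()) (Or.inl w.ne_zero)).tendsto).comp hlim
  have h1 : ‖lpol P (pt w)‖ ≤ 0 + ε / 2 := by
    refine le_of_tendsto_of_tendsto' hcont.norm (h0.add_const (ε / 2)) fun n => ?_
    have h2 := hP (pt (z n)) (pt_circ (hz n))
    have h3 : lpol P (pt (z n)) = g (pt (z n)) - (g (pt (z n)) - lpol P (pt (z n))) := by ring
    rw [h3]
    exact (norm_sub_le _ _).trans (add_le_add le_rfl h2)
  have h2 := hP (pt w) (pt_circ hw)
  have h3 : g (pt w) = (g (pt w) - lpol P (pt w)) + lpol P (pt w) := by ring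
  rw [h3]
  have h4 := norm_add_le (g (pt w) - lpol P (pt w)) (lpol P (pt w))
  linarith

/-- if the maximum is attained twice then there is a zero -/
private theorem exists_zero {g : Tor Unit K → K} (hg : AnOn circ g) {M : ℝ} (hM : 0 < M)
    (hle : ∀ k, ‖cf g k‖ ≤ M) {kb kt : Unit → ℤ} (hlt : kb () < kt ()) (hkb : ‖cf g kb‖ = M)
    (hkt : ‖cf g kt‖ = M) (hb : ∀ k, ‖cf g k‖ = M → kb () ≤ k ())
    (ht : ∀ k, ‖cf g k‖ = M → k () ≤ kt ()) :
    ∃ w : Kˣ, ‖(w : K)‖ = 1 ∧ g (pt w) = 0 := by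
  classical
  obtain ⟨w, hw⟩ : ∃ w : ℕ, w = (kt () - kb ()).toNat := ⟨_, rfl⟩
  have hw1 : 1 ≤ w := by omega
  have hroot : ∀ u : Kˣ, ∀ δ : ℝ, ‖(u : K)‖ = 1 → 0 < δ → δ < M →
      ∃ v : Kˣ, ‖(v : K)‖ = 1 ∧ ‖g (pt v)‖ ≤ δ ∧
        ‖(u : K) - v‖ ^ w ≤ max ‖g (pt u)‖ δ / M := by
    intro u δ hu hδ hδM
    rw [hw]
    exact near_root hg hM hle hlt hkb hkt hb ht hu hδ hδM
  choose! v hv1 hv2 hv3 using hroot
  obtain ⟨dd, hdd⟩ : ∃ dd : ℕ → ℝ, ∀ n, dd n = M * (1 / 2) ^ ((n + 1) * w) :=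
    ⟨fun n => M * (1 / 2) ^ ((n + 1) * w), fun n => rfl⟩
  have hdpos : ∀ n, 0 < dd n := fun n => by rw [hdd]; positivity
  have hdlt : ∀ n, dd n < M := by
    intro n
    rw [hdd]
    have h1 : (1 / 2 : ℝ) ^ ((n + 1) * w) < 1 := by
      apply pow_lt_one₀ (by norm_num) (by norm_num)
      have : 0 < (n + 1) * w := Nat.mul_pos (Nat.succ_pos n) hw1
      omega
    nlinarith
  have hdle : ∀ n, dd (n + 1) ≤ dd n := by
    intro n
    rw [hdd, hdd]
    refine mul_le_mul_of_nonneg_left ?_ hM.le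
    exact pow_le_pow_of_le_one (by norm_num) (by norm_num) (Nat.mul_le_mul_right w (by omega))
  obtain ⟨z, hz0, hzs⟩ : ∃ z : ℕ → Kˣ, z 0 = v 1 (dd 0) ∧
      ∀ n, z (n + 1) = v (z n) (dd (n + 1)) :=
    ⟨fun n => Nat.rec (v 1 (dd 0)) (fun n zn => v zn (dd (n + 1))) n, rfl, fun n => rfl⟩
  have hone : ‖((1 : Kˣ) : K)‖ = 1 := by rw [Units.val_one, norm_one]
  have hz : ∀ n, ‖(z n : K)‖ = 1 ∧ ‖g (pt (z n))‖ ≤ dd n := by
    intro n
    induction n with
    | zero =>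
      rw [hz0]
      exact ⟨hv1 1 _ hone (hdpos 0) (hdlt 0), hv2 1 _ hone (hdpos 0) (hdlt 0)⟩
    | succ n ih =>
      rw [hzs]
      exact ⟨hv1 _ _ ih.1 (hdpos _) (hdlt _), hv2 _ _ ih.1 (hdpos _) (hdlt _)⟩
  have hdist : ∀ n, dist (z n : K) (z (n + 1) : K) ≤ 1 / 2 * (1 / 2 : ℝ) ^ n := by
    intro n
    rw [dist_eq_norm]
    have h1 := hv3 (z n) (dd (n + 1)) (hz n).1 (hdpos _) (hdlt _)
    rw [← hzs] at h1
    have h2 : max ‖g (pt (z n))‖ (dd (n + 1)) / M ≤ ((1 / 2 : ℝ) ^ (n + 1)) ^ w := by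
      rw [div_le_iff₀ hM, ← pow_mul]
      refine (max_le (hz n).2 (hdle n)).trans (le_of_eq ?_)
      rw [hdd, mul_comm]
    have h3 := h1.trans h2
    rw [pow_le_pow_iff_left₀ (norm_nonneg _) (by positivity) (by omega)] at h3
    refine h3.trans (le_of_eq ?_)
    rw [pow_succ, mul_comm]
  have hcau : CauchySeq fun n => (z n : K) :=
    cauchySeq_of_le_geometric (1 / 2) (1 / 2) (by norm_num) hdist
  obtain ⟨a, ha⟩ := cauchySeq_tendsto_of_complete hcau
  have hna : ‖a‖ = 1 := by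
    have h1 := ha.norm
    simp only [fun n => (hz n).1] at h1
    exact (tendsto_nhds_unique h1 tendsto_const_nhds)
  have ha0 : a ≠ 0 := by
    rw [← norm_pos_iff, hna]
    exact one_pos
  refine ⟨Units.mk0 a ha0, hna, zero_of_lim hg (fun n => (hz n).1) hna ha ?_⟩
  have hdz : Filter.Tendsto dd Filter.atTop (nhds 0) := by
    have h1 : ∀ n, dd n ≤ M * (1 / 2 : ℝ) ^ n := by
      intro n
      rw [hdd]
      refine mul_le_mul_of_nonneg_left ?_ hM.le
      refine pow_le_pow_of_le_one (by norm_num) (by norm_num) ?_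
      calc n ≤ (n + 1) * 1 := by omega
        _ ≤ (n + 1) * w := Nat.mul_le_mul_left _ hw1
    have h2 : Filter.Tendsto (fun n => M * (1 / 2 : ℝ) ^ n) Filter.atTop (nhds (M * 0)) :=
      (tendsto_pow_atTop_nhds_zero_of_lt_one (by norm_num) (by norm_num)).const_mul M
    rw [mul_zero] at h2
    exact squeeze_zero (fun n => (hdpos n).le) h1 h2
  exact squeeze_zero (fun n => norm_nonneg _) (fun n => (hz n).2) hdz

theorem inv_of_no_zero {g : Tor Unit K → K} (hg : AnOn circ g)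
    (h : ∀ x ∈ (circ : Set (Tor Unit K)), g x ≠ 0) : AnOn circ fun x => (g x)⁻¹ := by
  classical
  have hfin : ∀ ε : ℝ, 0 < ε → {k | ε < ‖cf g k‖}.Finite := by
    intro ε hε
    have h1 : {k | ε < ‖cf g k‖ * Wt (1 : Tor Unit K) 0 0 k}.Finite := cf_dec hg ε hε
    simp only [Wt_one, mul_one] at h1
    exact h1
  -- a nonzero coefficient
  obtain ⟨k0, hk0⟩ : ∃ k, cf g k ≠ 0 := by
    by_contra hcon
    push Not at hcon
    have h1 : cf g = 0 := funext hcon
    apply h 1 one_mem_circ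
    rw [cf_eq hg one_mem_circ, h1]
    unfold ser
    simp only [Pi.zero_apply, zero_mul, tsum_zero]
  have hk0' : 0 < ‖cf g k0‖ := norm_pos_iff.2 hk0
  -- the maximum
  obtain ⟨kM, hkM⟩ : ∃ kM, ∀ k, ‖cf g k‖ ≤ ‖cf g kM‖ := by
    obtain ⟨kM, -, hkM⟩ := Set.exists_max_image _ (fun k => ‖cf g k‖)
      (hfin (‖cf g k0‖ / 2) (half_pos hk0')) ⟨k0, half_lt_self hk0'⟩
    refine ⟨kM, fun k => ?_⟩
    have h1 : ‖cf g k0‖ ≤ ‖cf g kM‖ := hkM k0 (half_lt_self hk0')
    by_cases h2 : ‖cf g k0‖ / 2 < ‖cf g k‖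
    · exact hkM k h2
    · linarith
  obtain ⟨M, hMdef⟩ : ∃ M : ℝ, M = ‖cf g kM‖ := ⟨_, rfl⟩
  have hM : 0 < M := by
    rw [hMdef]
    exact hk0'.trans_le (hkM k0)
  have hle : ∀ k, ‖cf g k‖ ≤ M := fun k => by rw [hMdef]; exact hkM k
  have hSfin : {k | ‖cf g k‖ = M}.Finite := by
    refine (hfin (M / 2) (half_pos hM)).subset fun k hk => ?_
    have hk' : ‖cf g k‖ = M := hk
    show M / 2 < ‖cf g k‖
    rw [hk']
    exact half_lt_self hM
  obtain ⟨kb, hkb, hb⟩ := Set.exists_min_image _ (fun k : Unit → ℤ => k ()) hSfin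
    ⟨kM, hMdef.symm⟩
  obtain ⟨kt, hkt, ht⟩ := Set.exists_max_image _ (fun k : Unit → ℤ => k ()) hSfin
    ⟨kM, hMdef.symm⟩
  have hbt : kb () ≤ kt () := hb kt hkt
  rcases lt_or_eq_of_le hbt with hlt | heq
  · exfalso
    obtain ⟨w, hw1, hw2⟩ := exists_zero hg hM hle hlt hkb hkt hb ht
    exact h _ (pt_circ hw1) hw2
  -- the maximum is attained only at `kb`
  have hkbM : ‖cf g kb‖ = M := hkb
  have huniq : ∀ k, k ≠ kb → ‖cf g k‖ < M := by
    intro k hk
    refine lt_of_le_of_ne (hle k) fun h1 => hk ?_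
    have h2 : kb () ≤ k () := hb k h1
    have h3 : k () ≤ kt () := ht k h1
    exact ext_unit (by omega)
  obtain ⟨ρ, hρ0, hρM, hρ⟩ : ∃ ρ : ℝ, 0 ≤ ρ ∧ ρ < M ∧ ∀ k, k ≠ kb → ‖cf g k‖ ≤ ρ := by
    have hfin2 : {k | M / 2 < ‖cf g k‖ ∧ k ≠ kb}.Finite :=
      (hfin (M / 2) (half_pos hM)).subset fun k hk => hk.1
    by_cases hne : {k | M / 2 < ‖cf g k‖ ∧ k ≠ kb}.Nonempty
    · obtain ⟨k1, hk1, hmax⟩ := Set.exists_max_image _ (fun k => ‖cf g k‖) hfin2 hne
      refine ⟨‖cf g k1‖, norm_nonneg _, huniq k1 hk1.2, fun k hk => ?_⟩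
      by_cases h1 : M / 2 < ‖cf g k‖
      · exact hmax k ⟨h1, hk⟩
      · exact (not_lt.1 h1).trans hk1.1.le
    · refine ⟨M / 2, (half_pos hM).le, half_lt_self hM, fun k hk => ?_⟩
      by_contra h1
      exact hne ⟨k, not_le.1 h1, hk⟩
  obtain ⟨c0, hc0⟩ : ∃ c0 : K, c0 = cf g kb := ⟨_, rfl⟩
  have hc0n : ‖c0‖ = M := by rw [hc0]; exact hkbM
  have hc00 : c0 ≠ 0 := by
    rw [← norm_pos_iff, hc0n]
    exact hM
  -- the function `hh`
  have hmul : AnOn circ fun x : Tor Unit K => c0⁻¹ * (mon (-kb) x * g x) :=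
    anOn_smul c0⁻¹ (anOn_mul_circ (anOn_mon circ (-kb)) hg)
  have hh : AnOn circ fun x : Tor Unit K => c0⁻¹ * (mon (-kb) x * g x) - 1 :=
    anOn_sub hmul (anOn_const circ 1)
  have hbd : ∀ x ∈ (circ : Set (Tor Unit K)), ‖c0⁻¹ * (mon (-kb) x * g x) - 1‖ ≤ ρ / M := by
    intro x hx
    have h1 := ser_sub_sum_le (cf_dec hg) (t := x) (by rw [BB_one]; exact hx) {kb} hρ0
      (fun k hk => by
        rw [Wt_one, mul_one]
        exact hρ k fun h2 => hk (Finset.mem_singleton.2 h2))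
    rw [Finset.sum_singleton, ← cf_eq hg hx, ← hc0] at h1
    have hm0 : mon kb x ≠ 0 := mon_ne_zero kb x
    have h2 : c0⁻¹ * (mon (-kb) x * g x) - 1 =
        c0⁻¹ * ((mon kb x)⁻¹ * (g x - c0 * mon kb x)) := by
      rw [mon_neg]
      field_simp
    rw [h2, norm_mul, norm_mul, norm_inv, norm_inv, norm_mon_circ kb hx, hc0n, inv_one, one_mul,
      div_eq_inv_mul]
    exact mul_le_mul_of_nonneg_left h1 (inv_nonneg.2 hM.le)
  have hρ1 : ρ / M < 1 := (div_lt_one hM).2 hρM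
  have hgeom : AnOn circ fun x : Tor Unit K => (1 + (c0⁻¹ * (mon (-kb) x * g x) - 1))⁻¹ := by
    rw [← BB_one (0 : Unit → ℤ) 0] at hh ⊢
    exact anOn_geom hh hρ1 fun x hx => hbd x (by rw [BB_one] at hx; exact hx)
  refine anOn_congr (fun x hx => ?_)
    (anOn_smul c0⁻¹ (anOn_mul_circ (anOn_mon circ (-kb)) hgeom))
  have hm0 : mon kb x ≠ 0 := mon_ne_zero kb x
  have hg0 : g x ≠ 0 := h x hx
  rw [mon_neg]
  have h2 : (1 : K) + (c0⁻¹ * ((mon kb x)⁻¹ * g x) - 1) = c0⁻¹ * ((mon kb x)⁻¹ * g x) := by ring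
  rw [h2]
  field_simp

end Pool.Agent.Work.MP_6d379e_ag.Ab
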