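import Pool.Agent.Work.MP_6d379e_ag.Ab.OneStep
import Pool.Agent.Work.MP_6d379e_ag.Ab.ZFin
import Pool.Agent.Work.MP_6d379e_ag.Ab.ZUnit

/-!
# An invertible family in one direction   (size M-L)

Write `f_z = trans (embT j z) f`, `g_{Φ,Ψ} z = L (Ψ z * Φ z)`, analytic on `circ` (`LamOn.an`).

`one_fin` : start with `ext_right`, `ext_left` at `z0 = 1` and `θ = f 0` (`embT_one`, `trans_one`):
`g 1 = L (f 0 * f 0) = L (f 0) = 1 ≠ 0`, so `ZB n g` for some `n` (`zb_exists`).  Claim by induction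
on `n`: for every pair with `ZB n g` there is a pair with `g` nowhere zero on `circ`.  If `g` has a
zero `z0 ∈ circ`, `one_step` gives a pair with `g = (z - z0) * g'` on `circ`, `g'` analytic; for
`n = 0` this contradicts `zb_zero`, for `n + 1` use `zb_succ` and the induction hypothesis.

`one_dir` : take `L`, `N` from `exists_lam` and the pair with `g` nowhere zero; `1 / g` is analytic
(`inv_of_no_zero`).  The endomorphism `n z = (g z)⁻¹ • (Ψ z * Φ z) - f 0` has `L (n z) = 0`, so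
`(n z t) ^ N = 0`; let `u z t = (g z)⁻¹ • (f 0 t + ∑ k in 1 .. N - 1, (-n z t) ^ k)`, a jointly analytic
family of endomorphisms of `f` with `u * (Ψ Φ) = f 0` for `z ∈ circ` (geometric series; `f 0` is
the identity for `n`).  Put `φ = Φ`, `ψ = u * Ψ`.  `ψ φ = f 0`.  `φ ψ` is an idempotent endomorphism of
`f_z`; `f_z ≅ f` by homogeneity, so `LocB m f_z` (`locB_iso`, `isBun_trans`), and `φ ψ = 0` is
impossible because `ψ (φ ψ) φ = f 0` is nonzero somewhere; so `φ ψ = f_z 0`.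
-/

namespace Pool.Agent.Work.MP_6d379e_ag.Ab

variable {ι ν : Type*} [Fintype ι] [Fintype ν] [DecidableEq ι] [DecidableEq ν]
variable {K : Type*} [NontriviallyNormedField K] [IsUltrametricDist K]
variable [CompleteSpace K] [IsAlgClosed K] [CharZero K]
variable {m : ι → Tor ι K} {f : (ι → ℤ) → Tor ι K → Matrix ν ν K}

private theorem od_an {L : (Tor ι K → Matrix ν ν K) → K} {N : ℕ} (hL : LamOn m f L N) {j : ι}
    {Φ Ψ : Tor Unit K → Tor ι K → Matrix ν ν K} (hP : PairF m f j Φ Ψ) :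
    AnOn circ fun z => L (fun t => Ψ z t * Φ z t) :=
  hL.an (fun z t => Ψ z t * Φ z t) (ana2M_mul hP.an2 hP.an1)
    (fun z hz => isHom_comp (hP.hom2 z hz) (hP.hom1 z hz))

private theorem od_ind (hm : Std m) (hf : IsBun m f) (hh : Homog m f)
    {L : (Tor ι K → Matrix ν ν K) → K} {N : ℕ} (hL : LamOn m f L N) (j : ι) (n : ℕ) :
    ∀ Φ Ψ : Tor Unit K → Tor ι K → Matrix ν ν K, PairF m f j Φ Ψ →
      ZB n (fun z => L (fun t => Ψ z t * Φ z t)) →
      ∃ Φ' Ψ' : Tor Unit K → Tor ι K → Matrix ν ν K, PairF m f j Φ' Ψ' ∧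
        ∀ z ∈ (circ : Set (Tor Unit K)), L (fun t => Ψ' z t * Φ' z t) ≠ 0 := by
  induction n with
  | zero =>
    intro Φ Ψ hP hZ
    refine ⟨Φ, Ψ, hP, fun z hz h0 => ?_⟩
    obtain ⟨Φ', Ψ', hP', heq⟩ := one_step hm hf hh hL hP hz h0
    exact zb_zero hz (od_an hL hP') heq hZ
  | succ n ih =>
    intro Φ Ψ hP hZ
    by_cases hall : ∀ z ∈ (circ : Set (Tor Unit K)), L (fun t => Ψ z t * Φ z t) ≠ 0
    · exact ⟨Φ, Ψ, hP, hall⟩
    · push Not at hall
      obtain ⟨z, hz, h0⟩ := hall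
      obtain ⟨Φ', Ψ', hP', heq⟩ := one_step hm hf hh hL hP hz h0
      exact ih Φ' Ψ' hP' (zb_succ hz heq hZ)

theorem one_fin (hm : Std m) (hf : IsBun m f) (hh : Homog m f)
    {L : (Tor ι K → Matrix ν ν K) → K} {N : ℕ} (hL : LamOn m f L N) (j : ι) :
    ∃ Φ Ψ : Tor Unit K → Tor ι K → Matrix ν ν K, PairF m f j Φ Ψ ∧
      ∀ z ∈ (circ : Set (Tor Unit K)), L (fun t => Ψ z t * Φ z t) ≠ 0 := by
  have h1 : (1 : Tor Unit K) ∈ (circ : Set (Tor Unit K)) := one_mem_circ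
  have htr : trans (embT j (1 : Tor Unit K)) f = f := by rw [embT_one, trans_one]
  have hid := isHom_id hf
  obtain ⟨Φ, a1, a2, a3⟩ := ext_right hm hf hh j h1 (θ := f 0) (by rw [htr]; exact hid)
  obtain ⟨Ψ, b1, b2, b3⟩ := ext_left hm hf hh j h1 (θ := f 0) (by rw [htr]; exact hid)
  have hP : PairF m f j Φ Ψ := ⟨a1, b1, a2, b2⟩
  have hg1 : L (fun t => Ψ 1 t * Φ 1 t) ≠ 0 := by
    have h2 : (fun t => Ψ 1 t * Φ 1 t) = f 0 := by
      funext t
      rw [a3, b3]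
      exact hid.src t
    rw [h2, hL.one]
    exact one_ne_zero
  obtain ⟨n, hn⟩ := zb_exists (od_an hL hP) h1 hg1
  exact od_ind hm hf hh hL j n Φ Ψ hP hn

/-- the geometric series in a corner ring -/
private theorem od_geom {e n : Matrix ν ν K} {N : ℕ} (he : e * e = e) (hne : n * e = n)
    (hN : n ^ N = 0) : (e * ∑ k ∈ Finset.range (N + 1), (-n) ^ k) * (e + n) = e := by
  have h1 : (∑ k ∈ Finset.range (N + 1), (-n) ^ k) * (1 + n) = 1 := by
    have h2 := geom_sum_mul_neg (-n) (N + 1)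
    have h3 : (-n) ^ (N + 1) = 0 := by
      rw [neg_pow, pow_succ n, hN, zero_mul, mul_zero]
    rw [h3, sub_zero, sub_neg_eq_add] at h2
    exact h2
  have h4 : ∀ k : ℕ, (-n) ^ (k + 1) * (1 - e) = 0 := by
    intro k
    rw [pow_succ, mul_assoc, mul_sub, mul_one, neg_mul, hne, sub_self, mul_zero]
  have h5 : (∑ k ∈ Finset.range (N + 1), (-n) ^ k) * (1 - e) = 1 - e := by
    rw [Finset.sum_range_succ', add_mul, Finset.sum_mul, Finset.sum_eq_zero (fun k _ => h4 k),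
      zero_add, pow_zero, one_mul]
  have h6 : e + n = (1 + n) - (1 - e) := by abel
  rw [h6, mul_sub, mul_assoc, mul_assoc, h1, h5, mul_one, mul_sub, mul_one, he]
  abel

theorem one_dir (hm : Std m) (hf : LocB m f) (hh : Homog m f) (j : ι) :
    ∃ φ ψ : Tor Unit K → Tor ι K → Matrix ν ν K, Ana2M φ ∧ Ana2M ψ ∧
      ∀ z ∈ (circ : Set (Tor Unit K)), IsIso2 m f (trans (embT j z) f) (φ z) (ψ z) := by
  obtain ⟨L, N, hL⟩ := exists_lam hm hf
  obtain ⟨Φ, Ψ, hP, hne⟩ := one_fin hm hf.bun hh hL j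
  have hg := od_an hL hP
  have hgi := inv_of_no_zero hg hne
  have hid := isHom_id hf.bun
  have hf0 : Ana2M fun (_ : Tor Unit K) (t : Tor ι K) => f 0 t :=
    ana2M_of_anaM (τ := fun _ t => t) isMono_inr (hf.bun.an 0)
  obtain ⟨g, hgdef⟩ : ∃ g : Tor Unit K → K, g = fun z => L (fun t => Ψ z t * Φ z t) := ⟨_, rfl⟩
  have hgz : ∀ z, g z = L (fun t => Ψ z t * Φ z t) := fun z => by rw [hgdef]
  have hgi' : AnOn circ fun z => (g z)⁻¹ := by
    rw [hgdef]
    exact hgi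
  obtain ⟨n, hn⟩ : ∃ n : Tor Unit K → Tor ι K → Matrix ν ν K,
      ∀ z t, n z t = (g z)⁻¹ • (Ψ z t * Φ z t) + (-1 : K) • f 0 t := ⟨_, fun _ _ => rfl⟩
  have hA : ∀ z ∈ (circ : Set (Tor Unit K)), IsHom m f f (fun t => Ψ z t * Φ z t) :=
    fun z hz => isHom_comp (hP.hom2 z hz) (hP.hom1 z hz)
  have hnhom : ∀ z ∈ (circ : Set (Tor Unit K)), IsHom m f f (n z) := by
    intro z hz
    exact isHom_congr (isHom_add (isHom_smul ((g z)⁻¹) (hA z hz)) (isHom_smul (-1 : K) hid))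
      (fun t => hn z t)
  have hnL : ∀ z ∈ (circ : Set (Tor Unit K)), L (n z) = 0 := by
    intro z hz
    have h1 : n z = fun t => (g z)⁻¹ • (Ψ z t * Φ z t) + (-1 : K) • f 0 t := funext (hn z)
    have h2 := hL.add _ _ (isHom_smul ((g z)⁻¹) (hA z hz)) (isHom_smul (-1 : K) hid)
    rw [h1, h2, hL.smul _ _ (hA z hz), hL.smul _ _ hid, hL.one, hgz, inv_mul_cancel₀ (hne z hz)]
    ring
  have hnN : ∀ z ∈ (circ : Set (Tor Unit K)), ∀ t, n z t ^ N = 0 := fun z hz =>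
    hL.nil _ (hnhom z hz) (hnL z hz)
  have hnan : Ana2M n := by
    have h1 : Ana2M fun z t => (g z)⁻¹ • (Ψ z t * Φ z t) + (-1 : K) • f 0 t :=
      ana2M_add (ana2M_smul hgi' (ana2M_mul hP.an2 hP.an1))
        (ana2M_smul (g := fun _ => (-1 : K)) (anOn_const _ _) hf0)
    exact ana2M_congr (fun z _ t => hn z t) h1
  have hnn : Ana2M fun z t => -n z t := by
    have h1 : Ana2M fun z t => (-1 : K) • n z t :=
      ana2M_smul (g := fun _ => (-1 : K)) (anOn_const _ _) hnan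
    exact ana2M_congr (fun z _ t => by rw [neg_one_smul]) h1
  have hpan : ∀ k : ℕ, Ana2M fun z t => f 0 t * (-n z t) ^ k := by
    intro k
    induction k with
    | zero => exact ana2M_congr (fun z _ t => by rw [pow_zero, mul_one]) hf0
    | succ k ih =>
      exact ana2M_congr (fun z _ t => by rw [pow_succ, mul_assoc]) (ana2M_mul ih hnn)
  have hphom : ∀ z ∈ (circ : Set (Tor Unit K)), ∀ k : ℕ,
      IsHom m f f (fun t => f 0 t * (-n z t) ^ k) := by
    intro z hz k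
    induction k with
    | zero => exact isHom_congr hid (fun t => by rw [pow_zero, mul_one])
    | succ k ih =>
      have h1 : IsHom m f f (fun t => -n z t) :=
        isHom_congr (isHom_smul (-1 : K) (hnhom z hz)) (fun t => by rw [neg_one_smul])
      exact isHom_congr (isHom_comp ih h1) (fun t => by rw [pow_succ, mul_assoc])
  obtain ⟨S, hS⟩ : ∃ S : Tor Unit K → Tor ι K → Matrix ν ν K,
      ∀ z t, S z t = f 0 t * ∑ k ∈ Finset.range (N + 1), (-n z t) ^ k := ⟨_, fun _ _ => rfl⟩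
  have hSan : Ana2M S := by
    have h1 : Ana2M fun z t => ∑ k ∈ Finset.range (N + 1), f 0 t * (-n z t) ^ k := by
      intro i i'
      have h2 := ana2_sum (Finset.range (N + 1)) (fun k _ => hpan k i i')
      have h3 : (fun z t => (∑ k ∈ Finset.range (N + 1), f 0 t * (-n z t) ^ k) i i') =
          fun z t => ∑ k ∈ Finset.range (N + 1), (f 0 t * (-n z t) ^ k) i i' := by
        funext z t
        rw [Matrix.sum_apply]
      rw [h3]
      exact h2
    exact ana2M_congr (fun z _ t => by rw [hS, Finset.mul_sum]) h1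
  have hShom : ∀ z ∈ (circ : Set (Tor Unit K)), IsHom m f f (S z) := by
    intro z hz
    have h1 := isHom_sum (Finset.range (N + 1)) (fun k _ => hphom z hz k)
    exact isHom_congr h1 (fun t => by rw [hS, Finset.mul_sum])
  have hSB : ∀ z ∈ (circ : Set (Tor Unit K)), ∀ t,
      S z t * ((g z)⁻¹ • (Ψ z t * Φ z t)) = f 0 t := by
    intro z hz t
    have h1 : (g z)⁻¹ • (Ψ z t * Φ z t) = f 0 t + n z t := by
      rw [hn, neg_one_smul]
      abel
    rw [h1, hS]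
    exact od_geom (hid.src t) ((hnhom z hz).src t) (hnN z hz t)
  have hleft : ∀ z ∈ (circ : Set (Tor Unit K)), ∀ t,
      ((g z)⁻¹ • (S z t * Ψ z t)) * Φ z t = f 0 t := by
    intro z hz t
    rw [← hSB z hz t, Matrix.smul_mul, Matrix.mul_smul, mul_assoc]
  refine ⟨Φ, fun z t => (g z)⁻¹ • (S z t * Ψ z t), hP.an1,
    ana2M_smul hgi' (ana2M_mul hSan hP.an2), fun z hz => ?_⟩
  have hψ : IsHom m (trans (embT j z) f) f (fun t => (g z)⁻¹ • (S z t * Ψ z t)) :=
    isHom_smul _ (isHom_comp (hShom z hz) (hP.hom2 z hz))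
  refine ⟨hP.hom1 z hz, hψ, hleft z hz, ?_⟩
  obtain ⟨Θ, Θ', hiso⟩ := hh (embT j z)
  have hloc := locB_iso hf (isBun_trans (embT j z) hf.bun) hiso
  have hidem : ∀ t, (Φ z t * ((g z)⁻¹ • (S z t * Ψ z t))) *
      (Φ z t * ((g z)⁻¹ • (S z t * Ψ z t))) = Φ z t * ((g z)⁻¹ • (S z t * Ψ z t)) := by
    intro t
    have h1 : (Φ z t * ((g z)⁻¹ • (S z t * Ψ z t))) * (Φ z t * ((g z)⁻¹ • (S z t * Ψ z t))) =
        Φ z t * (((g z)⁻¹ • (S z t * Ψ z t)) * Φ z t) * ((g z)⁻¹ • (S z t * Ψ z t)) := by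
      simp only [mul_assoc]
    rw [h1, hleft z hz t, (hP.hom1 z hz).src t]
  rcases hloc.idem _ (isHom_comp (hP.hom1 z hz) hψ) hidem with h0 | h0
  · exfalso
    obtain ⟨t, ht⟩ := hf.ne
    apply ht
    have h1 : f 0 t = ((g z)⁻¹ • (S z t * Ψ z t)) * (Φ z t * ((g z)⁻¹ • (S z t * Ψ z t))) *
        Φ z t := by
      have h2 : ((g z)⁻¹ • (S z t * Ψ z t)) * (Φ z t * ((g z)⁻¹ • (S z t * Ψ z t))) * Φ z t =
          (((g z)⁻¹ • (S z t * Ψ z t)) * Φ z t) * (((g z)⁻¹ • (S z t * Ψ z t)) * Φ z t) := by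
        simp only [mul_assoc]
      rw [h2, hleft z hz t, hid.src t]
    rw [h1, h0 t, mul_zero, zero_mul]
  · exact h0

end Pool.Agent.Work.MP_6d379e_ag.Ab
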