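import Pool.Agent.Work.MP_6d379e_ag.Ab.LamEx
import Pool.Agent.Work.MP_6d379e_ag.Ab.Iso
import Pool.Agent.Work.MP_6d379e_ag.Ab.DivHom

/-!
# Removing one zero   (size M-L)

Write `f_z = trans (embT j z) f`, a family of bundles (`bunFam_trans`, `embT_mono`).

`ext_right`, `ext_left` : the dimensions of `HomSp m f f_z` and of `HomSp m f_z f` do not depend on
`z` : `f_z ≅ f` by homogeneity, `finrank_homSp_right/left`.  So `hom_fam` applies (with the constant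
family `bunFam_const`).

`one_step` : by homogeneity take an isomorphism `θ : f → f_{z0}` with inverse `θ'`.  Let
`v = θ' * Φ z0` and `v' = Ψ z0 * θ`, endomorphisms of `f`;
`v' * v = Ψ z0 * θ * θ' * Φ z0 = Ψ z0 * Φ z0` (`θ θ' = f_{z0} 0`, `isHom_one_mul`), so
`L v' * L v = L (Ψ z0 Φ z0) = 0`.
* Case `L v = 0`.  Extend `θ` to a family `Φ1` with `Φ1 z0 = θ`.  The family
  `Θ z = Φ z - Φ1 z * v` vanishes at `z0` (`θ θ' Φ z0 = Φ z0`); by `div_hom` `Θ = (z - z0) • Φ'`.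
  Take `Ψ' = Ψ`.  `Ψ Φ = (z - z0) • Ψ Φ' + (Ψ Φ1) v`, so
  `L (Ψ Φ) = (z - z0) * L (Ψ Φ') + L (Ψ Φ1) * L v = (z - z0) * L (Ψ Φ')`.
* Case `L v' = 0`.  Extend `θ'` to `Ψ1` with `Ψ1 z0 = θ'`.  `Ψ z - v' * Ψ1 z` vanishes at `z0`
  (`Ψ z0 θ θ' = Ψ z0 f_{z0} 0 = Ψ z0`), equals `(z - z0) • Ψ'`, and
  `L (Ψ Φ) = (z - z0) * L (Ψ' Φ) + L v' * L (Ψ1 Φ)`.
-/

namespace Pool.Agent.Work.MP_6d379e_ag.Ab

variable {ι ν : Type*} [Fintype ι] [Fintype ν] [DecidableEq ι] [DecidableEq ν]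
variable {K : Type*} [NontriviallyNormedField K] [IsUltrametricDist K]
variable [CompleteSpace K] [IsAlgClosed K] [CharZero K]
variable {m : ι → Tor ι K} {f : (ι → ℤ) → Tor ι K → Matrix ν ν K}

/-- a pair of families of homomorphisms to and from the translates in the direction `j` -/
structure PairF (m : ι → Tor ι K) (f : (ι → ℤ) → Tor ι K → Matrix ν ν K) (j : ι)
    (Φ Ψ : Tor Unit K → Tor ι K → Matrix ν ν K) : Prop where
  an1 : Ana2M Φ
  an2 : Ana2M Ψ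
  hom1 : ∀ z ∈ (circ : Set (Tor Unit K)), IsHom m f (trans (embT j z) f) (Φ z)
  hom2 : ∀ z ∈ (circ : Set (Tor Unit K)), IsHom m (trans (embT j z) f) f (Ψ z)

theorem ext_right (hm : Std m) (hf : IsBun m f) (hh : Homog m f) (j : ι) {z0 : Tor Unit K}
    (hz0 : z0 ∈ (circ : Set (Tor Unit K))) {θ : Tor ι K → Matrix ν ν K}
    (hθ : IsHom m f (trans (embT j z0) f) θ) :
    ∃ Φ : Tor Unit K → Tor ι K → Matrix ν ν K, Ana2M Φ ∧
      (∀ z ∈ (circ : Set (Tor Unit K)), IsHom m f (trans (embT j z) f) (Φ z)) ∧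
      Φ z0 = θ := by
  refine hom_fam hm (f := fun _ => f) (f' := fun z => trans (embT j z) f) (bunFam_const hf)
    (bunFam_trans (embT_mono j) hf) (d := Module.finrank K (HomSp m f f)) (fun x _ => ?_) hz0 hθ
  obtain ⟨Φ, Ψ, h⟩ := hh (embT j x)
  exact (finrank_homSp_right h).symm

theorem ext_left (hm : Std m) (hf : IsBun m f) (hh : Homog m f) (j : ι) {z0 : Tor Unit K}
    (hz0 : z0 ∈ (circ : Set (Tor Unit K))) {θ : Tor ι K → Matrix ν ν K}
    (hθ : IsHom m (trans (embT j z0) f) f θ) :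
    ∃ Ψ : Tor Unit K → Tor ι K → Matrix ν ν K, Ana2M Ψ ∧
      (∀ z ∈ (circ : Set (Tor Unit K)), IsHom m (trans (embT j z) f) f (Ψ z)) ∧
      Ψ z0 = θ := by
  refine hom_fam hm (f := fun z => trans (embT j z) f) (f' := fun _ => f)
    (bunFam_trans (embT_mono j) hf) (bunFam_const hf) (d := Module.finrank K (HomSp m f f))
    (fun x _ => ?_) hz0 hθ
  obtain ⟨Φ, Ψ, h⟩ := hh (embT j x)
  exact (finrank_homSp_left h).symm

theorem one_step (hm : Std m) (hf : IsBun m f) (hh : Homog m f)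
    {L : (Tor ι K → Matrix ν ν K) → K} {N : ℕ} (hL : LamOn m f L N) {j : ι}
    {Φ Ψ : Tor Unit K → Tor ι K → Matrix ν ν K} (hP : PairF m f j Φ Ψ) {z0 : Tor Unit K}
    (hz0 : z0 ∈ (circ : Set (Tor Unit K))) (h0 : L (fun t => Ψ z0 t * Φ z0 t) = 0) :
    ∃ Φ' Ψ' : Tor Unit K → Tor ι K → Matrix ν ν K, PairF m f j Φ' Ψ' ∧
      ∀ z ∈ (circ : Set (Tor Unit K)),
        L (fun t => Ψ z t * Φ z t) =
          ((z () : K) - (z0 () : K)) * L (fun t => Ψ' z t * Φ' z t) := by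
  obtain ⟨θ, θ', hθ⟩ := hh (embT j z0)
  have hv : IsHom m f f (fun t => θ' t * Φ z0 t) := isHom_comp hθ.inv (hP.hom1 z0 hz0)
  have hv' : IsHom m f f (fun t => Ψ z0 t * θ t) := isHom_comp (hP.hom2 z0 hz0) hθ.hom
  have hθθ : ∀ t, θ t * (θ' t * Φ z0 t) = Φ z0 t := by
    intro t
    rw [← mul_assoc, hθ.right t]
    exact isHom_one_mul (hP.hom1 z0 hz0) t
  have hθθ' : ∀ t, Ψ z0 t * θ t * θ' t = Ψ z0 t := by
    intro t
    rw [mul_assoc, hθ.right t]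
    exact (hP.hom2 z0 hz0).src t
  have hprod : L (fun t => Ψ z0 t * θ t) * L (fun t => θ' t * Φ z0 t) = 0 := by
    rw [← hL.mul _ _ hv' hv, ← h0]
    congr 1
    funext t
    rw [mul_assoc, hθθ]
  rcases mul_eq_zero.1 hprod with hc | hc
  · obtain ⟨Ψ1, an1, hom1, h1⟩ := ext_left hm hf hh j hz0 hθ.inv
    have hmon : Ana2M fun (_ : Tor Unit K) t => Ψ z0 t * θ t :=
      ana2M_of_anaM (τ := fun (_ : Tor Unit K) t => t) isMono_inr hv'.an
    obtain ⟨Ψ', an', hom', h2⟩ := div_hom (f := fun z => trans (embT j z) f) (f' := fun _ => f)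
      (bunFam_trans (embT_mono j) hf) (bunFam_const hf)
      (Θ := fun z t => Ψ z t - (Ψ z0 t * θ t) * Ψ1 z t)
      (ana2M_sub hP.an2 (ana2M_mul hmon an1))
      (fun z hz => isHom_sub (hP.hom2 z hz) (isHom_comp hv' (hom1 z hz))) hz0
      (fun t => by
        show Ψ z0 t - (Ψ z0 t * θ t) * Ψ1 z0 t = 0
        rw [h1, hθθ', sub_self])
    refine ⟨Φ, Ψ', ⟨hP.an1, an', hP.hom1, hom'⟩, fun z hz => ?_⟩
    have hA : IsHom m f f (fun t => Ψ' z t * Φ z t) := isHom_comp (hom' z hz) (hP.hom1 z hz)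
    have hB : IsHom m f f (fun t => Ψ1 z t * Φ z t) := isHom_comp (hom1 z hz) (hP.hom1 z hz)
    have h3 : (fun t => Ψ z t * Φ z t) = fun t =>
        ((z () : K) - (z0 () : K)) • (Ψ' z t * Φ z t) +
          (Ψ z0 t * θ t) * (Ψ1 z t * Φ z t) := by
      funext t
      have h4 : Ψ z t = ((z () : K) - (z0 () : K)) • Ψ' z t + (Ψ z0 t * θ t) * Ψ1 z t := by
        rw [← h2 z hz t, sub_add_cancel]
      rw [h4, add_mul, Matrix.smul_mul, mul_assoc (Ψ z0 t * θ t)]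
    rw [h3, hL.add _ _ (isHom_smul _ hA) (isHom_comp hv' hB), hL.smul _ _ hA,
      hL.mul _ _ hv' hB, hc, zero_mul, add_zero]
  · obtain ⟨Φ1, an1, hom1, h1⟩ := ext_right hm hf hh j hz0 hθ.hom
    have hmon : Ana2M fun (_ : Tor Unit K) t => θ' t * Φ z0 t :=
      ana2M_of_anaM (τ := fun (_ : Tor Unit K) t => t) isMono_inr hv.an
    obtain ⟨Φ', an', hom', h2⟩ := div_hom (f := fun _ => f) (f' := fun z => trans (embT j z) f)
      (bunFam_const hf) (bunFam_trans (embT_mono j) hf)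
      (Θ := fun z t => Φ z t - Φ1 z t * (θ' t * Φ z0 t))
      (ana2M_sub hP.an1 (ana2M_mul an1 hmon))
      (fun z hz => isHom_sub (hP.hom1 z hz) (isHom_comp (hom1 z hz) hv)) hz0
      (fun t => by
        show Φ z0 t - Φ1 z0 t * (θ' t * Φ z0 t) = 0
        rw [h1, hθθ, sub_self])
    refine ⟨Φ', Ψ, ⟨an', hP.an2, hom', hP.hom2⟩, fun z hz => ?_⟩
    have hA : IsHom m f f (fun t => Ψ z t * Φ' z t) := isHom_comp (hP.hom2 z hz) (hom' z hz)
    have hB : IsHom m f f (fun t => Ψ z t * Φ1 z t) := isHom_comp (hP.hom2 z hz) (hom1 z hz)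
    have h3 : (fun t => Ψ z t * Φ z t) = fun t =>
        ((z () : K) - (z0 () : K)) • (Ψ z t * Φ' z t) +
          (Ψ z t * Φ1 z t) * (θ' t * Φ z0 t) := by
      funext t
      have h4 : Φ z t = ((z () : K) - (z0 () : K)) • Φ' z t + Φ1 z t * (θ' t * Φ z0 t) := by
        rw [← h2 z hz t, sub_add_cancel]
      rw [h4, mul_add, Matrix.mul_smul, mul_assoc (Ψ z t)]
    rw [h3, hL.add _ _ (isHom_smul _ hA) (isHom_comp hB hv), hL.smul _ _ hA,
      hL.mul _ _ hB hv, hc, mul_zero, add_zero]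

end Pool.Agent.Work.MP_6d379e_ag.Ab
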