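import Pool.Agent.Work.MP_6d379e_ag.Ab.XDefs

/-!
# Bounded operators: congruence, composition, restriction   (size M)

* `opB_congr` : `s = s' + (s + (-1) • s')` as functions; `add` and `bd` with `D = 0` applied to
  `s + (-1) • s'` (which vanishes on the source box) give `L x s = L x s'` on the target box.
* `opB_comp` : `add` and `smul` for the composite use `opB_congr` for `L'` (because
  `L x (s + s') = L x s + L x s'` only on the box `BB q a' b'`).
* `opB_mono` : restrict the target (`BB_mono`, `anOn_mono`).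
* `fixSol_comp` : `L x s = s` on the middle box, `opB_congr` for `L'`, and `FixSol` of `L'`;
  elements of `Sol m A x` are analytic on all boxes (`ana_BB`).
-/

namespace Pool.Agent.Work.MP_6d379e_ag.Ab

variable {ι κ σ : Type*} [Fintype ι] [Fintype κ] [Fintype σ]
variable {K : Type*} [NontriviallyNormedField K]
variable {q : Tor ι K} {a b a' b' a'' b'' : ι → ℤ} {C C' : ℝ}
variable {L L' : Tor κ K → (Tor ι K → σ → K) → Tor ι K → σ → K}

private theorem anV_add {U : Set (Tor ι K)} {s s' : Tor ι K → σ → K} (h : AnV U s)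
    (h' : AnV U s') : AnV U (s + s') := fun i => anOn_add (h i) (h' i)

private theorem anV_smul {U : Set (Tor ι K)} {s : Tor ι K → σ → K} (c : K) (h : AnV U s) :
    AnV U (c • s) := fun i => anOn_smul c (h i)

theorem opB_congr (h : OpB q a b a' b' C L) {x : Tor κ K} (hx : x ∈ (circ : Set (Tor κ K)))
    {s s' : Tor ι K → σ → K} (hs : AnV (BB q a b) s) (hs' : AnV (BB q a b) s')
    (he : ∀ t ∈ BB q a b, s t = s' t) : ∀ t ∈ BB q a' b', L x s t = L x s' t := by
  intro t ht
  have hd : AnV (BB q a b) (s + (-1 : K) • s') := anV_add hs (anV_smul _ hs')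
  have h1 : s = s' + (s + (-1 : K) • s') := by
    funext t i
    simp only [Pi.add_apply, Pi.smul_apply, smul_eq_mul]
    ring
  have h2 : Bd (BB q a b) (s + (-1 : K) • s') 0 := by
    intro t ht i
    have h3 : (s + (-1 : K) • s') t i = 0 := by
      simp only [Pi.add_apply, Pi.smul_apply, smul_eq_mul, he t ht]
      ring
    rw [h3, norm_zero]
  have h4 := h.bd x hx _ 0 hd le_rfl h2
  have h5 : L x (s + (-1 : K) • s') t = 0 := by
    funext i
    have h6 := h4 t ht i
    rw [mul_zero] at h6
    exact norm_eq_zero.1 (le_antisymm h6 (norm_nonneg _))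
  have h7 := h.add x hx s' _ hs' hd t ht
  rw [← h1, h5, add_zero] at h7
  exact h7

theorem opB_id (q : Tor ι K) (a b : ι → ℤ) :
    OpB q a b a b 1 (fun (_ : Tor κ K) (s : Tor ι K → σ → K) => s) where
  an _ _ _ hs := hs
  joint _ hS := hS
  add _ _ _ _ _ _ _ _ := rfl
  smul _ _ _ _ _ _ _ := rfl
  bd _ _ _ D _ _ hB := by
    rw [one_mul]
    exact hB

theorem opB_comp (hC : 0 ≤ C) (h : OpB q a b a' b' C L) (h' : OpB q a' b' a'' b'' C' L') :
    OpB q a b a'' b'' (C' * C) (fun x s => L' x (L x s)) where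
  an x hx s hs := h'.an x hx _ (h.an x hx s hs)
  joint S hS := h'.joint (fun x => L x (S x)) (h.joint S hS)
  add x hx s s' hs hs' t ht := by
    have h1 := opB_congr h' hx (h.an x hx _ (anV_add hs hs'))
      (anV_add (h.an x hx s hs) (h.an x hx s' hs'))
      (fun t ht => h.add x hx s s' hs hs' t ht) t ht
    show L' x (L x (s + s')) t = L' x (L x s) t + L' x (L x s') t
    rw [h1]
    exact h'.add x hx _ _ (h.an x hx s hs) (h.an x hx s' hs') t ht
  smul x hx c s hs t ht := by
    have h1 := opB_congr h' hx (h.an x hx _ (anV_smul c hs)) (anV_smul c (h.an x hx s hs))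
      (fun t ht => h.smul x hx c s hs t ht) t ht
    show L' x (L x (c • s)) t = c • L' x (L x s) t
    rw [h1]
    exact h'.smul x hx c _ (h.an x hx s hs) t ht
  bd x hx s D hs hD hB := by
    rw [mul_assoc]
    exact h'.bd x hx _ (C * D) (h.an x hx s hs) (mul_nonneg hC hD) (h.bd x hx s D hs hD hB)

theorem opB_mono (hq : ∀ i, ‖(q i : K)‖ ≤ 1) (h : OpB q a b a' b' C L)
    (ha : ∀ i, a'' i ≤ a' i) (hb : ∀ i, b'' i ≤ b' i) : OpB q a b a'' b'' C L where
  an x hx s hs i := anOn_mono (BB_mono hq ha hb) (h.an x hx s hs i)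
  joint S hS i := by
    refine anOn_mono (BB_mono (norm_elim_le_one hq) ?_ ?_) (h.joint S hS i)
    · rintro (j | j)
      · exact le_rfl
      · exact ha j
    · rintro (j | j)
      · exact le_rfl
      · exact hb j
  add x hx s s' hs hs' t ht := h.add x hx s s' hs hs' t (BB_mono hq ha hb ht)
  smul x hx c s hs t ht := h.smul x hx c s hs t (BB_mono hq ha hb ht)
  bd x hx s D hs hD hB t ht := h.bd x hx s D hs hD hB t (BB_mono hq ha hb ht)

theorem fixSol_comp {m : ι → Tor ι K} {A : (ι → ℤ) → Tor κ K → Tor ι K → Matrix σ σ K}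
    (h' : OpB (qq m) a' b' a'' b'' C' L') (h : OpB (qq m) a b a' b' C L)
    (hf : FixSol m A a' b' L) (hf' : FixSol m A a'' b'' L') :
    FixSol m A a'' b'' (fun x s => L' x (L x s)) := by
  intro x hx s hs t ht
  show L' x (L x s) t = s t
  have hsA : ∀ a b : ι → ℤ, AnV (BB (qq m) a b) s := fun a b i => ana_BB (hs.1 i) (qq m) a b
  rw [opB_congr h' hx (h.an x hx s (hsA _ _)) (hsA _ _) (fun t ht => hf x hx s hs t ht) t ht]
  exact hf' x hx s hs t ht

end Pool.Agent.Work.MP_6d379e_ag.Ab
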