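import Pool.Agent.Work.MP_6d379e_ag.Ab.PLev

/-!
# The ring of analytic functions on `Y`   (size M)

Two functions of levels `N1`, `N2` become functions of the common level `N1 * N2`
(`levAn_up`, and `(a.1 (N1 * N2)) ^ N2 = a.1 N1`; for the other one use commutativity of `ℕ+`).

* `yAn_bdd` : `h` is within `1` of a level function, which is bounded (`levAn_bdd`, `til_pow`).
* `yAn_mul` : with `C ≥ 1` a bound of `h`, `h'` on the box and `ε ≤ 1`, approximate both within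
  `ε / (4 * C)`; `h h' - H H' = (h - H) h' + H (h' - H')`, `‖H‖ ≤ C + 1`.
* `yAn_lim` : triangle inequality.
* `yAn_congr` : only the values on `Y` matter.
-/

namespace Pool.Agent.Work.MP_6d379e_ag.Ab

variable {ι : Type*} [Fintype ι] {K : Type*} [NontriviallyNormedField K]
variable {m : ι → Tor ι K} {h h' : Tor ι K → Til m → K}

private theorem common {N1 N2 : ℕ+} {H1 H2 : Tor ι K → Abl m → K} (h1 : LevAn m N1 H1)
    (h2 : LevAn m N2 H2) : ∃ (N : ℕ+) (G1 G2 : Tor ι K → Abl m → K), LevAn m N G1 ∧ LevAn m N G2 ∧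
      ∀ (t : Tor ι K) (a : Til m), G1 t (a.1 N) = H1 t (a.1 N1) ∧ G2 t (a.1 N) = H2 t (a.1 N2) := by
  refine ⟨N1 * N2, fun t α => H1 t (α ^ (N2 : ℕ)), fun t α => H2 t (α ^ (N1 : ℕ)),
    levAn_up N2 h1, ?_, fun t a => ⟨?_, ?_⟩⟩
  · rw [mul_comm]
    exact levAn_up N1 h2
  · show H1 t ((a.1 (N1 * N2)) ^ (N2 : ℕ)) = _
    rw [a.2 N1 N2]
  · show H2 t ((a.1 (N1 * N2)) ^ (N1 : ℕ)) = _
    rw [mul_comm N1 N2, a.2 N2 N1]

theorem yAn_of_lev {N : ℕ+} {H : Tor ι K → Abl m → K} (hH : LevAn m N H) :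
    YAn m fun t a => H t (a.1 N) := by
  intro r _ ε hε
  refine ⟨N, H, hH, fun t _ a _ => ?_⟩
  rw [sub_self, norm_zero]
  exact hε.le

theorem yAn_congr (he : ∀ (t : Tor ι K) (a : Til m), a.1 1 = QuotientGroup.mk t →
    h' t a = h t a) (hh : YAn m h) : YAn m h' := by
  intro r hr ε hε
  obtain ⟨N, H, h1, h2⟩ := hh r hr ε hε
  refine ⟨N, H, h1, fun t ht a ha => ?_⟩
  rw [he t a ha]
  exact h2 t ht a ha

theorem yAn_const (c : K) : YAn m fun _ _ => c := yAn_of_lev (levAn_const 1 c)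

theorem yAn_fst {f : Tor ι K → K} (hf : Ana f) : YAn m fun t _ => f t :=
  yAn_of_lev (levAn_fst 1 hf)

theorem yAn_add (hh : YAn m h) (hh' : YAn m h') : YAn m fun t a => h t a + h' t a := by
  intro r hr ε hε
  obtain ⟨N1, H1, h1, h2⟩ := hh r hr (ε / 2) (half_pos hε)
  obtain ⟨N2, H2, h3, h4⟩ := hh' r hr (ε / 2) (half_pos hε)
  obtain ⟨N, G1, G2, g1, g2, g3⟩ := common h1 h3
  refine ⟨N, fun t α => G1 t α + G2 t α, levAn_add g1 g2, fun t ht a ha => ?_⟩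
  show ‖h t a + h' t a - (G1 t (a.1 N) + G2 t (a.1 N))‖ ≤ ε
  rw [(g3 t a).1, (g3 t a).2, add_sub_add_comm]
  calc _ ≤ ‖h t a - H1 t (a.1 N1)‖ + ‖h' t a - H2 t (a.1 N2)‖ := norm_add_le _ _
    _ ≤ ε / 2 + ε / 2 := add_le_add (h2 t ht a ha) (h4 t ht a ha)
    _ = ε := by ring

theorem yAn_sub (hh : YAn m h) (hh' : YAn m h') : YAn m fun t a => h t a - h' t a := by
  intro r hr ε hε
  obtain ⟨N1, H1, h1, h2⟩ := hh r hr (ε / 2) (half_pos hε)
  obtain ⟨N2, H2, h3, h4⟩ := hh' r hr (ε / 2) (half_pos hε)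
  obtain ⟨N, G1, G2, g1, g2, g3⟩ := common h1 h3
  refine ⟨N, fun t α => G1 t α - G2 t α, levAn_sub g1 g2, fun t ht a ha => ?_⟩
  show ‖h t a - h' t a - (G1 t (a.1 N) - G2 t (a.1 N))‖ ≤ ε
  rw [(g3 t a).1, (g3 t a).2, sub_sub_sub_comm]
  calc _ ≤ ‖h t a - H1 t (a.1 N1)‖ + ‖h' t a - H2 t (a.1 N2)‖ := norm_sub_le _ _
    _ ≤ ε / 2 + ε / 2 := add_le_add (h2 t ht a ha) (h4 t ht a ha)
    _ = ε := by ring

theorem yAn_bdd (hh : YAn m h) {r : ℝ} (hr : 1 ≤ r) :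
    ∃ C : ℝ, ∀ t ∈ (ibox r : Set (Tor ι K)), ∀ a : Til m, a.1 1 = QuotientGroup.mk t →
      ‖h t a‖ ≤ C := by
  obtain ⟨N, H, h1, h2⟩ := hh r hr 1 one_pos
  obtain ⟨C, hC⟩ := levAn_bdd h1 hr
  refine ⟨1 + C, fun t ht a ha => ?_⟩
  have h3 := h2 t ht a ha
  have h4 := hC t ht (a.1 N) (by rw [til_pow, ha])
  have h5 : h t a = (h t a - H t (a.1 N)) + H t (a.1 N) := by ring
  rw [h5]
  exact (norm_add_le _ _).trans (add_le_add h3 h4)

theorem yAn_mul (hh : YAn m h) (hh' : YAn m h') : YAn m fun t a => h t a * h' t a := by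
  intro r hr ε hε
  obtain ⟨C1, hC1⟩ := yAn_bdd hh hr
  obtain ⟨C2, hC2⟩ := yAn_bdd hh' hr
  obtain ⟨C, hC⟩ : ∃ C, C = max (max C1 C2) 1 := ⟨_, rfl⟩
  have hC1' : C1 ≤ C := by
    rw [hC]
    exact (le_max_left _ _).trans (le_max_left _ _)
  have hC2' : C2 ≤ C := by
    rw [hC]
    exact (le_max_right _ _).trans (le_max_left _ _)
  have hCone : 1 ≤ C := by
    rw [hC]
    exact le_max_right _ _
  obtain ⟨δ, hδ⟩ : ∃ δ, δ = min 1 (ε / (3 * C)) := ⟨_, rfl⟩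
  have hδ0 : 0 < δ := by
    rw [hδ]
    exact lt_min one_pos (div_pos hε (by linarith))
  have hδ1 : δ ≤ 1 := by
    rw [hδ]
    exact min_le_left _ _
  have hδ2 : δ * (3 * C) ≤ ε := by
    have h1 : δ ≤ ε / (3 * C) := by
      rw [hδ]
      exact min_le_right _ _
    rwa [le_div_iff₀ (by linarith)] at h1
  obtain ⟨N1, H1, h1, h2⟩ := hh r hr δ hδ0
  obtain ⟨N2, H2, h3, h4⟩ := hh' r hr δ hδ0
  obtain ⟨N, G1, G2, g1, g2, g3⟩ := common h1 h3
  refine ⟨N, fun t α => G1 t α * G2 t α, levAn_mul g1 g2, fun t ht a ha => ?_⟩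
  show ‖h t a * h' t a - G1 t (a.1 N) * G2 t (a.1 N)‖ ≤ ε
  rw [(g3 t a).1, (g3 t a).2]
  obtain ⟨x, hx⟩ : ∃ x, x = H1 t (a.1 N1) := ⟨_, rfl⟩
  obtain ⟨y, hy⟩ : ∃ y, y = H2 t (a.1 N2) := ⟨_, rfl⟩
  have e1 := h2 t ht a ha
  have e2 := h4 t ht a ha
  have e3 := hC1 t ht a ha
  have e4 := hC2 t ht a ha
  rw [← hx] at e1 ⊢
  rw [← hy] at e2 ⊢
  have e5 : ‖x‖ ≤ C + δ := by
    have h5 : x = h t a - (h t a - x) := by ring
    rw [h5]
    exact (norm_sub_le _ _).trans (add_le_add (e3.trans hC1') e1)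
  have e6 : h t a * h' t a - x * y = (h t a - x) * h' t a + x * (h' t a - y) := by ring
  rw [e6]
  calc _ ≤ ‖(h t a - x) * h' t a‖ + ‖x * (h' t a - y)‖ := norm_add_le _ _
    _ = ‖h t a - x‖ * ‖h' t a‖ + ‖x‖ * ‖h' t a - y‖ := by rw [norm_mul, norm_mul]
    _ ≤ δ * C + (C + δ) * δ := by
      refine add_le_add (mul_le_mul e1 (e4.trans hC2') (norm_nonneg _) hδ0.le)
        (mul_le_mul e5 e2 (norm_nonneg _) (by linarith))
    _ ≤ δ * (3 * C) := by nlinarith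
    _ ≤ ε := hδ2

theorem yAn_sum {α : Type*} (S : Finset α) {F : α → Tor ι K → Til m → K}
    (hF : ∀ i ∈ S, YAn m (F i)) : YAn m fun t a => ∑ i ∈ S, F i t a := by
  classical
  induction S using Finset.induction_on with
  | empty =>
    simp only [Finset.sum_empty]
    exact yAn_const 0
  | insert i S hi ih =>
    simp only [Finset.sum_insert hi]
    exact yAn_add (hF i (Finset.mem_insert_self i S))
      (ih fun j hj => hF j (Finset.mem_insert_of_mem hj))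

theorem yAn_lim (hh : ∀ ε : ℝ, 0 < ε → ∃ g : Tor ι K → Til m → K, YAn m g ∧
    ∀ (t : Tor ι K) (a : Til m), a.1 1 = QuotientGroup.mk t → ‖h t a - g t a‖ ≤ ε) :
    YAn m h := by
  intro r hr ε hε
  obtain ⟨g, h1, h2⟩ := hh (ε / 2) (half_pos hε)
  obtain ⟨N, H, h3, h4⟩ := h1 r hr (ε / 2) (half_pos hε)
  refine ⟨N, H, h3, fun t ht a ha => ?_⟩
  have h5 : h t a - H t (a.1 N) = (h t a - g t a) + (g t a - H t (a.1 N)) := by ring
  rw [h5]
  calc _ ≤ ‖h t a - g t a‖ + ‖g t a - H t (a.1 N)‖ := norm_add_le _ _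
    _ ≤ ε / 2 + ε / 2 := add_le_add (h2 t a ha) (h4 t ht a ha)
    _ = ε := by ring

end Pool.Agent.Work.MP_6d379e_ag.Ab
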