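import Pool.Agent.Work.MP_6d379e_ag.Ab.PAlg

/-!
# Characters of finite level   (size M)

For `(t, a) ∈ Y` choose `l, τ` with `t = lat m l * τ ^ n`, `a.1 n = mk τ` (`til_rep`), and put
`h t a = mon k τ * δ l`.  More precisely define `H t α` (`α : Abl m`) by such a choice if there are
`l, τ` with `t = lat m l * τ ^ n`, `α = mk τ` (else `0`) and `h t a = H t (a.1 n)`.
Independence of the choice: if also `t = lat m l' * τ' ^ n`, `mk τ' = mk τ`, then
`τ' = lat m l'' * τ` (`mk_eq_iff`), so `lat m (l' + n * l'' - l) = 1`, `l = l' + n * l''` by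
injectivity, and
`mon k τ' * δ l' = mon k (lat m l'') * mon k τ * δ l' = (δ l'') ^ n * mon k τ * δ l'
= mon k τ * δ l`.
On the component `l` the function is `τ ↦ H (lat m l * τ ^ n) (mk τ) = mon k τ * δ l`, so
`LevAn m n H`, `YAn m h` (`yAn_of_lev`).  `h (lat m l0 * t) a` : replace `l` by `l + l0`.
For the inverse use `-k` and `δ⁻¹`.
-/

namespace Pool.Agent.Work.MP_6d379e_ag.Ab

variable {ι : Type*} [Fintype ι] {K : Type*} [NontriviallyNormedField K]
variable {m : ι → Tor ι K}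

private theorem lat_nsmul (m : ι → Tor ι K) (n : ℕ) (l : ι → ℤ) :
    lat m (n • l) = lat m l ^ n := by
  induction n with
  | zero => rw [zero_nsmul, lat_zero, pow_zero]
  | succ n ih => rw [succ_nsmul, lat_add, ih, pow_succ]

private theorem char_aux (hinj : ∀ l, lat m l = 1 → l = 0) (k : ι → ℤ) (n : ℕ+)
    (δ : (ι → ℤ) → Kˣ) (hδ : ∀ l l', δ (l + l') = δ l * δ l')
    (hk : ∀ l, ((δ l : Kˣ) : K) ^ (n : ℕ) = mon k (lat m l)) :
    ∃ H : Tor ι K → Abl m → K, LevAn m n H ∧ ∀ (t : Tor ι K) (α : Abl m) (l : ι → ℤ)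
      (τ : Tor ι K), t = lat m l * τ ^ (n : ℕ) → α = QuotientGroup.mk τ →
        H t α = mon k τ * δ l := by
  classical
  have hδ0 : δ 0 = 1 := by
    have h1 := hδ 0 0
    rw [add_zero] at h1
    exact mul_eq_left.1 h1.symm
  have hδn : ∀ (j : ℕ) (l : ι → ℤ), δ (j • l) = δ l ^ j := by
    intro j l
    induction j with
    | zero => rw [zero_nsmul, hδ0, pow_zero]
    | succ j ih => rw [succ_nsmul, hδ, ih, pow_succ]
  have hwd : ∀ (l l' : ι → ℤ) (τ τ' : Tor ι K),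
      lat m l * τ ^ (n : ℕ) = lat m l' * τ' ^ (n : ℕ) →
      (QuotientGroup.mk τ : Abl m) = QuotientGroup.mk τ' →
      mon k τ * δ l = mon k τ' * δ l' := by
    intro l l' τ τ' h1 h2
    obtain ⟨l'', h3⟩ := (mk_eq_iff τ τ').1 h2
    rw [h3, mul_pow, ← lat_nsmul, ← mul_assoc, ← lat_add] at h1
    have h4 : lat m (l + (n : ℕ) • l'') = lat m l' := mul_right_cancel h1
    have h5 : lat m (l + (n : ℕ) • l'' + -l') = 1 := by
      rw [lat_add, h4, ← lat_add, add_neg_cancel, lat_zero]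
    have h6 : l' = l + (n : ℕ) • l'' := (eq_of_sub_eq_zero (by
      rw [sub_eq_add_neg]
      exact hinj _ h5)).symm
    rw [h6, hδ, hδn, h3, mon_mul, ← hk l'', Units.val_mul, Units.val_pow_eq_pow_val]
    ring
  obtain ⟨H, hH⟩ : ∃ H : Tor ι K → Abl m → K, ∀ (t : Tor ι K) (α : Abl m) (l : ι → ℤ)
      (τ : Tor ι K), t = lat m l * τ ^ (n : ℕ) → α = QuotientGroup.mk τ →
        H t α = mon k τ * δ l := by
    refine ⟨fun t α => if h : ∃ q : (ι → ℤ) × Tor ι K, t = lat m q.1 * q.2 ^ (n : ℕ) ∧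
      α = QuotientGroup.mk q.2 then mon k h.choose.2 * δ h.choose.1 else 0,
      fun t α l τ h1 h2 => ?_⟩
    have hex : ∃ q : (ι → ℤ) × Tor ι K, t = lat m q.1 * q.2 ^ (n : ℕ) ∧
        α = QuotientGroup.mk q.2 := ⟨(l, τ), h1, h2⟩
    simp only [dif_pos hex]
    have h3 := hex.choose_spec
    exact hwd _ _ _ _ (h3.1.symm.trans h1) (h3.2.symm.trans h2)
  refine ⟨H, fun l => ?_, hH⟩
  have h1 : (fun τ : Tor ι K => H (lat m l * τ ^ (n : ℕ)) (QuotientGroup.mk τ)) =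
      fun τ => ((δ l : Kˣ) : K) * mon k τ := by
    funext τ
    rw [hH _ _ l τ rfl rfl, mul_comm]
  rw [h1]
  exact ana_smul _ (ana_mon k)

theorem lev_char (hinj : ∀ l, lat m l = 1 → l = 0) (k : ι → ℤ) (n : ℕ+) (δ : (ι → ℤ) → Kˣ)
    (hδ : ∀ l l', δ (l + l') = δ l * δ l')
    (hk : ∀ l, ((δ l : Kˣ) : K) ^ (n : ℕ) = mon k (lat m l)) :
    ∃ h hi : Tor ι K → Til m → K, YAn m h ∧ YAn m hi ∧
      ∀ (t : Tor ι K) (a : Til m), a.1 1 = QuotientGroup.mk t →
        h t a * hi t a = 1 ∧ ∀ l, h (lat m l * t) a = δ l * h t a := by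
  obtain ⟨H, h1, h2⟩ := char_aux hinj k n δ hδ hk
  obtain ⟨H', h3, h4⟩ := char_aux hinj (-k) n (fun l => (δ l)⁻¹)
    (fun l l' => by rw [hδ, mul_inv]) (fun l => by
      rw [mon_neg, ← hk l, Units.val_inv_eq_inv_val, inv_pow])
  refine ⟨fun t a => H t (a.1 n), fun t a => H' t (a.1 n), yAn_of_lev h1, yAn_of_lev h3,
    fun t a ha => ?_⟩
  obtain ⟨l, τ, e1, e2⟩ := til_rep a ha n
  refine ⟨?_, fun l0 => ?_⟩
  · show H t (a.1 n) * H' t (a.1 n) = 1
    rw [h2 t _ l τ e1 e2, h4 t _ l τ e1 e2, mon_neg, Units.val_inv_eq_inv_val]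
    have h5 := mon_ne_zero k τ
    have h6 : ((δ l : Kˣ) : K) ≠ 0 := Units.ne_zero _
    field_simp
  · show H (lat m l0 * t) (a.1 n) = δ l0 * H t (a.1 n)
    rw [h2 t _ l τ e1 e2, h2 (lat m l0 * t) _ (l0 + l) τ (by rw [e1, lat_add, mul_assoc]) e2,
      hδ, Units.val_mul]
    ring

end Pool.Agent.Work.MP_6d379e_ag.Ab
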