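import Pool.Agent.Work.MP_6d379e_ag.Ab.PDefs

/-!
# The value group of the p-adic complex numbers   (size M)

Mathlib: `PadicAlgCl p` (the algebraic closure of `ℚ_[p]` with its spectral norm) is dense in
`ℂ_[p] = PadicComplex p`, its completion (`UniformSpace.Completion`), and the norm extends
(`PadicComplex.norm_extends`, `PadicComplex.coe_eq` ...).

* `cp_approx` : density.
* `alg_val` : for `y ≠ 0` in `PadicAlgCl p` the norm is the spectral norm: the maximum (over the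
  coefficients `a_i`, `i < n`, of the minimal polynomial over `ℚ_[p]`) of `‖a_i‖ ^ (1 / (n - i))`
  (`spectralNorm`, `spectralValue`, `spectralValueTerms`; the supremum is attained, the terms have
  finite range); it is positive, so `‖y‖ ^ (n - i) = ‖a_i‖` for some `i < n`, a power of
  `‖(p : ℚ_[p])‖ = p⁻¹` (`Padic.norm_eq_zpow_neg_valuation`).
  Alternative: `‖y‖ ^ n = ‖N y‖` for the norm of a finite extension.
* `cp_val` : approximate `x ≠ 0` by `y` with `‖x - y‖ < ‖x‖`; then `‖y‖ = ‖x‖`.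
* `cp_lt` : `‖(p : ℂ_[p])‖ = p⁻¹ < 1`.
-/

namespace Pool.Agent.Work.MP_6d379e_ag.Ab

variable (p : ℕ) [hp : Fact p.Prime]

theorem cp_approx (x : ℂ_[p]) {ε : ℝ} (hε : 0 < ε) :
    ∃ y : PadicAlgCl p, ‖x - (y : ℂ_[p])‖ < ε := by
  obtain ⟨y, hy⟩ :=
    (UniformSpace.Completion.denseRange_coe (α := PadicAlgCl p)).exists_dist_lt x hε
  exact ⟨y, by rwa [dist_eq_norm] at hy⟩

private theorem norm_cp : ‖(p : ℂ_[p])‖ = (p : ℝ)⁻¹ := by
  rw [← map_natCast (algebraMap ℚ_[p] ℂ_[p]) p, norm_algebraMap', Padic.norm_p]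

private theorem alg_val (y : PadicAlgCl p) (hy : y ≠ 0) :
    ∃ (n : ℕ) (k : ℤ), 0 < n ∧ ‖y‖ ^ n = ((p : ℝ)⁻¹) ^ k := by
  have hy0 : 0 < ‖y‖ := norm_pos_iff.2 hy
  obtain ⟨P, hP⟩ : ∃ P, P = minpoly ℚ_[p] y := ⟨_, rfl⟩
  have h1 : ‖y‖ = spectralValue P := by
    rw [hP]
    rfl
  have h2 : spectralValue P ∈ Set.range (spectralValueTerms P) :=
    (Set.range_nonempty _).csSup_mem (spectralValueTerms_finite_range P)
  obtain ⟨i, hi⟩ := h2
  rw [← h1] at hi
  have h3 : i < P.natDegree := by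
    by_contra h4
    rw [spectralValueTerms_of_natDegree_le P (not_lt.1 h4)] at hi
    exact hy0.ne hi
  rw [spectralValueTerms_of_lt_natDegree P h3] at hi
  have h4 : (0 : ℝ) < (P.natDegree : ℝ) - i := by
    have : (i : ℝ) < P.natDegree := by exact_mod_cast h3
    linarith
  have h5 : ‖y‖ ^ (P.natDegree - i) = ‖P.coeff i‖ := by
    rw [← hi, ← Real.rpow_natCast, ← Real.rpow_mul (norm_nonneg _), Nat.cast_sub h3.le,
      one_div, inv_mul_cancel₀ h4.ne', Real.rpow_one]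
  have h6 : P.coeff i ≠ 0 := by
    intro h7
    rw [h7, norm_zero] at h5
    exact (pow_pos hy0 _).ne' h5
  refine ⟨P.natDegree - i, (P.coeff i).valuation, by omega, ?_⟩
  rw [h5, Padic.norm_eq_zpow_neg_valuation h6, inv_zpow']

theorem cp_lt : ‖(p : ℂ_[p])‖ < 1 := by
  rw [norm_cp]
  exact inv_lt_one_of_one_lt₀ (by exact_mod_cast hp.1.one_lt)

theorem cp_val (x : ℂ_[p]) (hx : x ≠ 0) :
    ∃ (n : ℕ) (k : ℤ), 0 < n ∧ ‖x‖ ^ n = ‖(p : ℂ_[p])‖ ^ k := by
  have hx0 : 0 < ‖x‖ := norm_pos_iff.2 hx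
  obtain ⟨y, hy⟩ := cp_approx p x hx0
  have h1 : ‖(y : ℂ_[p])‖ = ‖x‖ := by
    apply le_antisymm
    · have h2 : (y : ℂ_[p]) = x + (-(x - y)) := by ring
      have h3 : ‖(y : ℂ_[p])‖ ≤ max ‖x‖ ‖-(x - (y : ℂ_[p]))‖ := by
        conv_lhs => rw [h2]
        exact IsUltrametricDist.norm_add_le_max _ _
      rw [norm_neg] at h3
      exact h3.trans (max_le le_rfl hy.le)
    · have h2 : x = (y : ℂ_[p]) + (x - y) := by ring
      have h3 : ‖x‖ ≤ max ‖(y : ℂ_[p])‖ ‖x - (y : ℂ_[p])‖ := by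
        conv_lhs => rw [h2]
        exact IsUltrametricDist.norm_add_le_max _ _
      rcases le_max_iff.1 h3 with h4 | h4
      · exact h4
      · exact absurd h4 (not_le.2 hy)
  rw [PadicComplex.norm_extends] at h1
  have hy0 : y ≠ 0 := by
    intro h2
    rw [h2, norm_zero] at h1
    exact hx0.ne h1
  obtain ⟨n, k, hn, h2⟩ := alg_val p y hy0
  exact ⟨n, k, hn, by rw [← h1, h2, norm_cp]⟩

end Pool.Agent.Work.MP_6d379e_ag.Ab
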