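import Pool.Agent.Work.MP_6d379e_ag.Ab.PCpA

/-!
# The residue field of the p-adic complex numbers is algebraic over the prime field   (size M-L)

Let `x : ℂ_[p]`, `‖x‖ = 1`.  Take `y : PadicAlgCl p` with `‖x - y‖ < 1` (`cp_approx`), so `‖y‖ = 1`.
The minimal polynomial of `y` over `ℚ_[p]` is monic of degree `n` with coefficients of norm `≤ 1`
(the spectral norm of `y` is `1`: every `‖a_i‖ ^ (1 / (n - i)) ≤ 1`).  So by induction every power
`y ^ k` is a combination `∑ i < n, a k i * y ^ i` with `a k i ∈ ℚ_[p]`, `‖a k i‖ ≤ 1`.  The residue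
classes modulo `p` of vectors in `ℤ_[p] ^ n` are finitely many (`PadicInt.toZMod`), so there are
`k < k'` with `‖a k i - a k' i‖ < 1` for all `i`; hence `‖y ^ k - y ^ k'‖ < 1`, and as `‖y ^ k‖ = 1`,
`‖1 - y ^ (k' - k)‖ < 1`.  Finally `‖x ^ s - y ^ s‖ < 1` for every `s` (`x ^ s - y ^ s` is divisible
by `x - y`), so `‖x ^ (k' - k) - 1‖ < 1`.

`cp_like` : collect `cp_lt`, `cp_val`, `cp_res`.
-/

namespace Pool.Agent.Work.MP_6d379e_ag.Ab

open Polynomial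

variable (p : ℕ) [hp : Fact p.Prime]

private theorem sum_lt {E : Type*} [NormedField E] (hE : ∀ a b : E, ‖a + b‖ ≤ max ‖a‖ ‖b‖)
    {s : Finset ℕ} {f : ℕ → E} (h : ∀ i ∈ s, ‖f i‖ < 1) : ‖∑ i ∈ s, f i‖ < 1 := by
  classical
  induction s using Finset.induction_on with
  | empty => simp
  | insert a s ha ih =>
    rw [Finset.sum_insert ha]
    refine lt_of_le_of_lt (hE _ _) (max_lt (h a (Finset.mem_insert_self _ _)) (ih fun i hi =>
      h i (Finset.mem_insert_of_mem hi)))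

private theorem pow_close {E : Type*} [NormedField E] (hE : ∀ a b : E, ‖a + b‖ ≤ max ‖a‖ ‖b‖)
    {x y : E} (hx : ‖x‖ ≤ 1) (hy : ‖y‖ ≤ 1) (h : ‖x - y‖ < 1) (s : ℕ) : ‖x ^ s - y ^ s‖ < 1 := by
  induction s with
  | zero => simp
  | succ s ih =>
    have e : x ^ (s + 1) - y ^ (s + 1) = x * (x ^ s - y ^ s) + (x - y) * y ^ s := by ring
    rw [e]
    refine lt_of_le_of_lt (hE _ _) (max_lt ?_ ?_)
    · rw [norm_mul]
      calc ‖x‖ * ‖x ^ s - y ^ s‖ ≤ 1 * ‖x ^ s - y ^ s‖ :=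
            mul_le_mul_of_nonneg_right hx (norm_nonneg _)
        _ < 1 := by rw [one_mul]; exact ih
    · rw [norm_mul, norm_pow]
      calc ‖x - y‖ * ‖y‖ ^ s ≤ ‖x - y‖ * 1 :=
            mul_le_mul_of_nonneg_left (pow_le_one₀ (norm_nonneg _) hy) (norm_nonneg _)
        _ < 1 := by rw [mul_one]; exact h

private theorem alg_res (y : PadicAlgCl p) (hy : ‖y‖ = 1) :
    ∃ s : ℕ, 0 < s ∧ ‖y ^ s - 1‖ < 1 := by
  set P : ℚ_[p][X] := minpoly ℚ_[p] y with hP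
  have hmon : P.Monic := minpoly.monic (Algebra.IsIntegral.isIntegral y)
  have hsv : spectralValue P ≤ 1 := by
    have : spectralNorm ℚ_[p] (PadicAlgCl p) y = 1 := by rw [PadicAlgCl.spectralNorm_eq, hy]
    exact this.le
  have hco : ∀ i, ‖P.coeff i‖ ≤ 1 := (spectralValue_le_one_iff hmon).1 hsv
  have hlift : P ∈ Polynomial.lifts (PadicInt.Coe.ringHom : ℤ_[p] →+* ℚ_[p]) := by
    rw [Polynomial.lifts_iff_coeff_lifts]
    intro i
    exact ⟨⟨P.coeff i, hco i⟩, rfl⟩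
  obtain ⟨Q, hQ, _, hQm⟩ := Polynomial.lifts_and_natDegree_eq_and_monic hlift hmon
  set φ : ℤ_[p] →+* PadicAlgCl p :=
    (algebraMap ℚ_[p] (PadicAlgCl p)).comp PadicInt.Coe.ringHom with hφ
  have hφn : ∀ a : ℤ_[p], ‖φ a‖ = ‖a‖ := by
    intro a
    show ‖((a : ℚ_[p]) : PadicAlgCl p)‖ = ‖a‖
    rw [PadicAlgCl.norm_extends]
    exact PadicInt.norm_def.symm
  have hQ0 : Polynomial.eval₂ φ y Q = 0 := by
    rw [hφ, ← Polynomial.eval₂_map, hQ]
    exact minpoly.aeval ℚ_[p] y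
  have hpow : ∀ k, Polynomial.eval₂ φ y (X ^ k %ₘ Q) = y ^ k := by
    intro k
    have h1 := congrArg (Polynomial.eval₂ φ y) (Polynomial.modByMonic_add_div (X ^ k : ℤ_[p][X]) Q)
    rw [Polynomial.eval₂_add, Polynomial.eval₂_mul, hQ0, zero_mul, add_zero] at h1
    rw [h1]
    simp
  -- pigeonhole
  obtain ⟨k, k', hne, hkk⟩ := Finite.exists_ne_map_eq_of_infinite
    (fun k : ℕ => fun i : Fin (Q.natDegree + 1) =>
      PadicInt.toZMod ((X ^ k %ₘ Q : ℤ_[p][X]).coeff i))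
  have hcl : ∀ i, ‖((X ^ k %ₘ Q : ℤ_[p][X]) - (X ^ k' %ₘ Q)).coeff i‖ < 1 := by
    intro i
    rw [Polynomial.coeff_sub]
    by_cases hi : i < Q.natDegree + 1
    · have h1 := congrFun hkk ⟨i, hi⟩
      have h2 : PadicInt.toZMod ((X ^ k %ₘ Q : ℤ_[p][X]).coeff i -
          (X ^ k' %ₘ Q : ℤ_[p][X]).coeff i) = 0 := by
        rw [map_sub, sub_eq_zero]
        exact h1
      have h3 : ((X ^ k %ₘ Q : ℤ_[p][X]).coeff i - (X ^ k' %ₘ Q : ℤ_[p][X]).coeff i) ∈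
          RingHom.ker (PadicInt.toZMod : ℤ_[p] →+* ZMod p) := h2
      rw [PadicInt.ker_toZMod] at h3
      exact PadicInt.mem_nonunits.1 h3
    · have hQ1 : ∀ k, (X ^ k %ₘ Q : ℤ_[p][X]).coeff i = 0 := by
        intro k
        refine Polynomial.coeff_eq_zero_of_natDegree_lt (lt_of_le_of_lt
          (Polynomial.natDegree_modByMonic_le _ hQm) (by omega))
      rw [hQ1, hQ1, sub_zero, norm_zero]
      exact one_pos
  have hUM := PadicAlgCl.isNonarchimedean p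
  have hd : ‖y ^ k - y ^ k'‖ < 1 := by
    rw [← hpow k, ← hpow k', ← Polynomial.eval₂_sub, Polynomial.eval₂_eq_sum_range]
    refine sum_lt (fun a b => hUM a b) (fun i _ => ?_)
    rw [norm_mul, norm_pow, hy, one_pow, mul_one, hφn]
    exact hcl i
  have key : ∀ a b : ℕ, a < b → ‖y ^ a - y ^ b‖ < 1 → ∃ s : ℕ, 0 < s ∧ ‖y ^ s - 1‖ < 1 := by
    intro a b hab h
    refine ⟨b - a, by omega, ?_⟩
    have e : y ^ a - y ^ b = - (y ^ a * (y ^ (b - a) - 1)) := by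
      rw [mul_sub, ← pow_add, Nat.add_sub_cancel' hab.le]
      ring
    rw [e, norm_neg, norm_mul, norm_pow, hy, one_pow, one_mul] at h
    exact h
  rcases lt_or_gt_of_ne hne with h | h
  · exact key k k' h hd
  · refine key k' k h ?_
    rw [norm_sub_rev]
    exact hd

theorem cp_res (x : ℂ_[p]) (hx : ‖x‖ = 1) : ∃ n : ℕ, 0 < n ∧ ‖x ^ n - 1‖ < 1 := by
  obtain ⟨y, hy⟩ := cp_approx p x one_pos
  have hUM : ∀ a b : ℂ_[p], ‖a + b‖ ≤ max ‖a‖ ‖b‖ := fun a b => PadicComplex.isNonarchimedean p a b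
  have hyn : ‖y‖ = 1 := by
    rw [← PadicComplex.norm_extends]
    have h1 : ‖(y : ℂ_[p])‖ ≤ 1 := by
      have := hUM ((y : ℂ_[p]) - x) x
      rw [sub_add_cancel, norm_sub_rev] at this
      exact this.trans (max_le hy.le hx.le)
    have h2 : 1 ≤ ‖(y : ℂ_[p])‖ := by
      by_contra hc
      push Not at hc
      have := hUM (x - (y : ℂ_[p])) y
      rw [sub_add_cancel, hx] at this
      exact absurd this (not_le.2 (max_lt hy hc))
    exact le_antisymm h1 h2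
  obtain ⟨s, hs, h1⟩ := alg_res p y hyn
  refine ⟨s, hs, ?_⟩
  have h2 : ‖x ^ s - (y : ℂ_[p]) ^ s‖ < 1 :=
    pow_close hUM hx.le (by rw [PadicComplex.norm_extends, hyn]) hy s
  have h3 : ‖(y : ℂ_[p]) ^ s - 1‖ < 1 := by
    have e : (y : ℂ_[p]) ^ s - 1 = ((y ^ s - 1 : PadicAlgCl p) : ℂ_[p]) := by
      rw [PadicComplex.coe_eq, PadicComplex.coe_eq, map_sub, map_pow, map_one]
    rw [e, PadicComplex.norm_extends]
    exact h1
  have e : x ^ s - 1 = (x ^ s - (y : ℂ_[p]) ^ s) + ((y : ℂ_[p]) ^ s - 1) := by ring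
  rw [e]
  exact lt_of_le_of_lt (hUM _ _) (max_lt h2 h3)

theorem cp_like : CpLike ℂ_[p] p :=
  ⟨hp.out, cp_lt p, fun x hx => cp_val p x hx, fun x hx => cp_res p x hx⟩

end Pool.Agent.Work.MP_6d379e_ag.Ab
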