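import Pool.Agent.Work.MP_6d379e_ag.Ab.VDefs

/-!
# Definitions: pro-finite-etale bundles (FIXED, do not change)

Let `A` be the quotient of the torus `T` by the lattice generated by the `m i`.

* `Abl m` : the points of `A`.
* `Til m` : the points of the inverse limit of the tower of the multiplication maps
  `[N] : A → A` (compatible systems `a N` of points of `A`, `a (N N') ^ N' = a N`).
  It maps to `A` by `a ↦ a 1`; `Y` is the set of pairs `(t, a)` in `T × Til m` with the same image
  `a 1 = [t]` in `A`.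
* `LevAn m N H` : `H` is an analytic function on `T ×_A A`, where the second factor maps to `A` by
  `[N]` (the pairs `(t, α)` with `α ^ N = [t]`); this space is the disjoint union of tori, the
  components being parametrized by `τ ↦ (lat m l * τ ^ N, [τ])`.
* `YAn m h` : `h` is an analytic function on `Y = T ×_A lim A`: on every box
  `r⁻¹ ≤ ‖t i‖ ≤ r` a uniform limit of analytic functions of finite level.
* `PFE m f` : the pull back of the bundle `f` to `lim A` is trivial: there are matrices `Θ` and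
  `Θ'` of analytic functions on `Y`, inverse to each other as maps between the trivial bundle and
  the bundle `f 0`, and equivariant for the lattice.
* `IsLat m` : the `m i` generate a lattice of full rank: the vectors of the logarithms of the
  absolute values of their coordinates are linearly independent over the real numbers.
* `CpLike K p` : three properties of the field of `p`-adic complex numbers.
* `PCont p D` : the representation `D` of `ι → ℤ` is `p`-adically continuous.
-/

namespace Pool.Agent.Work.MP_6d379e_ag.Ab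

variable {ι ν : Type*} [Fintype ι] [Fintype ν] {K : Type*} [NontriviallyNormedField K]

/-- the lattice generated by the `m i` -/
def latG (m : ι → Tor ι K) : Subgroup (Tor ι K) where
  carrier := {t | ∃ l, lat m l = t}
  mul_mem' := by
    rintro _ _ ⟨l, rfl⟩ ⟨l', rfl⟩
    exact ⟨l + l', lat_add m l l'⟩
  one_mem' := ⟨0, lat_zero m⟩
  inv_mem' := by
    rintro _ ⟨l, rfl⟩
    exact ⟨-l, lat_neg m l⟩

/-- the points of the quotient of the torus by the lattice -/
abbrev Abl (m : ι → Tor ι K) : Type _ := Tor ι K ⧸ latG m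

/-- the points of the limit of the tower of the multiplication maps -/
def Til (m : ι → Tor ι K) : Type _ :=
  {a : ℕ+ → Abl m // ∀ N N' : ℕ+, a (N * N') ^ (N' : ℕ) = a N}

/-- analytic functions of level `N` -/
def LevAn (m : ι → Tor ι K) (N : ℕ+) (H : Tor ι K → Abl m → K) : Prop :=
  ∀ l : ι → ℤ, Ana fun τ => H (lat m l * τ ^ (N : ℕ)) (QuotientGroup.mk τ)

/-- analytic functions on the pull back of the torus to the limit of the tower -/
def YAn (m : ι → Tor ι K) (h : Tor ι K → Til m → K) : Prop :=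
  ∀ r : ℝ, 1 ≤ r → ∀ ε : ℝ, 0 < ε → ∃ (N : ℕ+) (H : Tor ι K → Abl m → K), LevAn m N H ∧
    ∀ t ∈ (ibox r : Set (Tor ι K)), ∀ a : Til m, a.1 1 = QuotientGroup.mk t →
      ‖h t a - H t (a.1 N)‖ ≤ ε

/-- the bundle is pro-finite-etale -/
def PFE (m : ι → Tor ι K) (f : (ι → ℤ) → Tor ι K → Matrix ν ν K) : Prop :=
  ∃ (r : ℕ) (Θ : Tor ι K → Til m → Matrix ν (Fin r) K)
    (Θ' : Tor ι K → Til m → Matrix (Fin r) ν K),
    (∀ i j, YAn m fun t a => Θ t a i j) ∧ (∀ i j, YAn m fun t a => Θ' t a i j) ∧
    ∀ (t : Tor ι K) (a : Til m), a.1 1 = QuotientGroup.mk t →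
      Θ t a * Θ' t a = f 0 t ∧ Θ' t a * Θ t a = 1 ∧
      ∀ l, Θ (lat m l * t) a = f l t * Θ t a

/-- the `m i` are a basis of a lattice of full rank in the torus -/
def IsLat (m : ι → Tor ι K) : Prop :=
  LinearIndependent ℝ fun (i j : ι) => Real.log ‖(m i j : K)‖

/-- properties of the field of `p`-adic complex numbers -/
structure CpLike (K : Type*) [NontriviallyNormedField K] (p : ℕ) : Prop where
  prime : p.Prime
  lt : ‖(p : K)‖ < 1
  val : ∀ x : K, x ≠ 0 → ∃ (n : ℕ) (k : ℤ), 0 < n ∧ ‖x‖ ^ n = ‖(p : K)‖ ^ k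
  res : ∀ x : K, ‖x‖ = 1 → ∃ n : ℕ, 0 < n ∧ ‖x ^ n - 1‖ < 1

/-- a `p`-adically continuous representation of `ι → ℤ` -/
structure PCont {r : ℕ} (p : ℕ) (D : (ι → ℤ) → Matrix (Fin r) (Fin r) K) : Prop where
  one : D 0 = 1
  mul : ∀ l l', D (l + l') = D l * D l'
  cont : ∀ ε : ℝ, 0 < ε → ∃ k : ℕ, ∀ (l : ι → ℤ) (i j : Fin r),
    ‖(D (fun a => (p : ℤ) ^ k * l a) - 1) i j‖ ≤ ε

/-- the matrix `D` is topologically unipotent -/
def TopU {r : ℕ} (D : Matrix (Fin r) (Fin r) K) : Prop :=
  ∀ ε : ℝ, 0 < ε → ∃ n0 : ℕ, ∀ n, n0 ≤ n → ∀ i j, ‖((D - 1) ^ n) i j‖ ≤ ε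

end Pool.Agent.Work.MP_6d379e_ag.Ab
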