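import Pool.Agent.Work.MP_6d379e_ag.Ab.PDefs

/-!
# Restriction to a sublattice   (size S-M)

`m' i = lat m (B i)` and `f' l' = f (fun j => ∑ i, l' i * B i j)`.
`lat m' l' = ∏ i, (lat m (B i)) ^ l' i = lat m (fun j => ∑ i, l' i * B i j)` (`lat_res`).
`IsBun` and `Homog` restrict: the same matrices `Φ, Ψ` (all conditions for `f'` are instances of
those for `f`; `f' 0 = f 0`).
-/

namespace Pool.Agent.Work.MP_6d379e_ag.Ab

variable {ι ν : Type*} [Fintype ι] [Fintype ν] {K : Type*} [NontriviallyNormedField K]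

/-- the basis of the sublattice -/
noncomputable def resM (m : ι → Tor ι K) (B : ι → ι → ℤ) : ι → Tor ι K := fun i => lat m (B i)

/-- the restricted factor of automorphy -/
def resF (B : ι → ι → ℤ) (f : (ι → ℤ) → Tor ι K → Matrix ν ν K) :
    (ι → ℤ) → Tor ι K → Matrix ν ν K := fun l' => f fun j => ∑ i, l' i * B i j

private theorem zpow_sum' {G α : Type*} [CommGroup G] (g : G) (S : Finset α) (a : α → ℤ) :
    g ^ (∑ i ∈ S, a i) = ∏ i ∈ S, g ^ a i := by
  classical
  induction S using Finset.induction_on with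
  | empty => rw [Finset.sum_empty, Finset.prod_empty, zpow_zero]
  | insert i S hi ih => rw [Finset.sum_insert hi, Finset.prod_insert hi, zpow_add, ih]

theorem lat_res (m : ι → Tor ι K) (B : ι → ι → ℤ) (l' : ι → ℤ) :
    lat (resM m B) l' = lat m fun j => ∑ i, l' i * B i j := by
  unfold resM lat
  have h1 : ∀ i, (∏ j, m j ^ B i j) ^ l' i = ∏ j, m j ^ (l' i * B i j) := by
    intro i
    rw [← Finset.prod_zpow]
    refine Finset.prod_congr rfl fun j _ => ?_
    rw [← zpow_mul, mul_comm]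
  rw [Finset.prod_congr rfl fun i _ => h1 i, Finset.prod_comm]
  refine Finset.prod_congr rfl fun j _ => ?_
  rw [zpow_sum']

variable {m : ι → Tor ι K} {f : (ι → ℤ) → Tor ι K → Matrix ν ν K}

private theorem res_add (B : ι → ι → ℤ) (l l' : ι → ℤ) :
    (fun j => ∑ i, (l + l') i * B i j) =
      (fun j => ∑ i, l i * B i j) + fun j => ∑ i, l' i * B i j := by
  funext j
  show ∑ i, (l i + l' i) * B i j = (∑ i, l i * B i j) + ∑ i, l' i * B i j
  rw [← Finset.sum_add_distrib]
  exact Finset.sum_congr rfl fun i _ => add_mul _ _ _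

private theorem res_zero (B : ι → ι → ℤ) :
    (fun j => ∑ i, (0 : ι → ℤ) i * B i j) = 0 := by
  funext j
  exact Finset.sum_eq_zero fun i _ => zero_mul _

theorem isBun_res (B : ι → ι → ℤ) (hf : IsBun m f) : IsBun (resM m B) (resF B f) := by
  refine ⟨fun l => hf.an _, fun l l' t => ?_⟩
  show f (fun j => ∑ i, (l + l') i * B i j) t =
    f (fun j => ∑ i, l i * B i j) (lat (resM m B) l' * t) * f (fun j => ∑ i, l' i * B i j) t
  rw [lat_res, res_add, hf.coc]

private theorem isHom_res {g : (ι → ℤ) → Tor ι K → Matrix ν ν K} {Φ : Tor ι K → Matrix ν ν K}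
    (B : ι → ι → ℤ) (h : IsHom m f g Φ) : IsHom (resM m B) (resF B f) (resF B g) Φ := by
  refine ⟨h.an, fun t => ?_, fun l t => ?_⟩
  · show Φ t * f (fun j => ∑ i, (0 : ι → ℤ) i * B i j) t = Φ t
    rw [res_zero, h.src t]
  · rw [lat_res]
    exact h.eqv _ t

theorem homog_res (B : ι → ι → ℤ) (hf : Homog m f) : Homog (resM m B) (resF B f) := by
  intro x
  obtain ⟨Φ, Ψ, h⟩ := hf x
  refine ⟨Φ, Ψ, isHom_res B h.hom, isHom_res B h.inv, fun t => ?_, fun t => ?_⟩
  · show Ψ t * Φ t = f (fun j => ∑ i, (0 : ι → ℤ) i * B i j) t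
    rw [res_zero, h.left t]
  · show Φ t * Ψ t = trans x f (fun j => ∑ i, (0 : ι → ℤ) i * B i j) t
    rw [res_zero, h.right t]

end Pool.Agent.Work.MP_6d379e_ag.Ab
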