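import Pool.Agent.Work.MP_6d379e_ag.Ab.PAlg
import Pool.Agent.Work.MP_6d379e_ag.Ab.PRes

/-!
# Descent from a sublattice of finite index   (size L)

Let `m' = resM m B`, `f' = resF B f`, `Λ' ⊆ (ι → ℤ)` the subgroup of all `fun j => ∑ i, l' i * B i j`;
`d * l ∈ Λ'` for all `l` (`hd`).

1. `x ↦ x ^ d` maps `latG m` into `latG m'` (`(lat m l) ^ d = lat m (d l)`), so it induces a group
   homomorphism `δ : Abl m → Abl m'`, `δ (mk x) = mk (x ^ d)` (`QuotientGroup.map`).
2. For `a : Til m` put `a' N = δ (a (N * d))`.  Then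
   `a' (N * N') ^ N' = δ (a (N * d * N') ^ N') = δ (a (N * d)) = a' N`, so `a' : Til m'`.
3. `rep : (ι → ℤ) → (ι → ℤ)` : a choice of representatives modulo `Λ'` with finite range:
   `l - rep l ∈ Λ'`, `rep l = rep l'` if `l - l' ∈ Λ'`, and the range is finite (the quotient by `Λ'`
   is finite because `d` kills the finitely generated group; or choose `rep` with values in
   `{0 ≤ l i < d}`: every `l` is congruent modulo `d (ι → ℤ) ⊆ Λ'` to such an element).
4. Let `(t, a) ∈ Y`.  Write `a.1 d = mk u`; `u ^ d = lat m l1 * t` for some `l1`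
   (as `a.1 d ^ d = a.1 1 = mk t`), and `a' 1 = δ (a d) = mk (u ^ d)`.  So there are `l` with
   `a' 1 = mk (lat m (-l) * t)` in `Abl m'`, and two such `l` differ by an element of `Λ'`
   (`hinj`).  Let `L t a` be the value of `rep` on them.
   `Θ t a = f l (lat m (-l) * t) * Θ1 (lat m (-l) * t) a'` with `l = L t a`, where `Θ1, Θ1'` are the
   data for `f'`; and `Θ' t a = Θ1' (lat m (-l) * t) a' * f (-l) t`.
5. The right hand side is the same for every `l` with `a' 1 = mk (lat m (-l) * t)`: for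
   `l'' ∈ Λ'`, `u = lat m (-l) * t` : `f (l + l'') (lat m (-l'') u) Θ1 (lat m (-l'') u) a'
   = f l u f l'' (lat m (-l'') u) Θ1 (lat m (-l'') u) a' = f l u Θ1 u a'` (equivariance of `Θ1`).
   Hence `Θ (lat m l0 * t) a` may be computed with `l + l0`:
   `f (l + l0) u Θ1 u a' = f l0 (lat m l * u) f l u Θ1 u a' = f l0 t Θ t a`.
   `Θ Θ' = f l u Θ1 Θ1' f (-l) t = f l u f 0 u f (-l) t = f 0 t`;
   `Θ' Θ = Θ1' f (-l) t f l u Θ1 = Θ1' f 0 u Θ1 = 1` (`Θ1' f 0 Θ1 = Θ1' Θ1 Θ1' Θ1 = 1`).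
6. Analyticity.  Let `r`, `ε` be given.  For the finitely many values `l` of `rep` the points
   `lat m (-l) * t`, `t ∈ ibox r`, lie in some `ibox r'`, where the entries of `f l` are bounded by
   `C ≥ 1`; choose a level `N` and functions `H1` of level `N` for `m'` approximating the entries of
   `Θ1` within `ε / C` on `ibox r'`.  For `(t, α)` with `t = lat m l0 * τ ^ (N d)`, `α = mk τ`
   put `l = rep l0` and `H t α = f l (lat m (-l) * t) * H1 (lat m (-l) * t) (δ α)` (well defined: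
   another representation has `l0' = l0 + N d l''`, the same `rep`).  On the component `l0` :
   `lat m (-l) * t = lat m (l0 - l) * τ ^ (N d)`, `lat m (l0 - l) = lat m' l'`, and
   `τ ↦ H1 (lat m' l' * (τ ^ d) ^ N) (mk (τ ^ d))` is analytic (`LevAn` composed with `τ ↦ τ ^ d`).
   For `(t, a) ∈ Y` and `α = a.1 (N * d)` one has `δ α = a' N`, and `l0` satisfies
   `a' 1 = (a' N) ^ N = mk (τ ^ (d N)) = mk (lat m (-l0) * t)`, so `rep l0 = L t a`, and
   `H t (a.1 (N * d))` is within `ε` of `Θ t a`.  Same for `Θ'`.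
-/

namespace Pool.Agent.Work.MP_6d379e_ag.Ab

variable {ι ν : Type*} [Fintype ι] [Fintype ν]
variable {K : Type*} [NontriviallyNormedField K] [IsUltrametricDist K]
variable {m : ι → Tor ι K} {f : (ι → ℤ) → Tor ι K → Matrix ν ν K}

private def Bv (B : ι → ι → ℤ) (l' : ι → ℤ) : ι → ℤ := fun j => ∑ i, l' i * B i j

omit [Fintype ν] [IsUltrametricDist K] in
private theorem lat_Bv (m : ι → Tor ι K) (B : ι → ι → ℤ) (l' : ι → ℤ) :
    lat (resM m B) l' = lat m (Bv B l') := lat_res m B l'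

private def BvH (B : ι → ι → ℤ) : (ι → ℤ) →+ (ι → ℤ) where
  toFun := Bv B
  map_zero' := by
    funext j
    simp [Bv]
  map_add' l l' := by
    funext j
    simp [Bv, add_mul, Finset.sum_add_distrib]

private theorem exists_rep (B : ι → ι → ℤ) (d : ℕ+)
    (hd : ∀ l : ι → ℤ, ∃ l' : ι → ℤ, ∀ j, ((d : ℕ) : ℤ) * l j = ∑ i, l' i * B i j) :
    ∃ (rep : (ι → ℤ) → (ι → ℤ)) (F : Finset (ι → ℤ)), (∀ l, rep l ∈ F) ∧
      (∀ l, ∃ l', l = rep l + Bv B l') ∧ ∀ l l', rep (l + Bv B l') = rep l := by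
  classical
  have hfin : Finite ((ι → ℤ) ⧸ (BvH B).range) := by
    refine Finite.of_surjective
      (fun k : ι → Fin (d : ℕ) => (QuotientAddGroup.mk (fun i => ((k i : ℕ) : ℤ)) :
        (ι → ℤ) ⧸ (BvH B).range)) ?_
    intro q
    obtain ⟨l, rfl⟩ := QuotientAddGroup.mk_surjective q
    have hdpos : (0 : ℤ) < ((d : ℕ) : ℤ) := by
      have := d.pos
      exact_mod_cast this
    refine ⟨fun i => ⟨(l i % ((d : ℕ) : ℤ)).toNat, ?_⟩, ?_⟩
    · have h1 := Int.emod_nonneg (l i) hdpos.ne'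
      have h2 := Int.emod_lt_of_pos (l i) hdpos
      omega
    · rw [QuotientAddGroup.eq]
      obtain ⟨l', hl'⟩ := hd (fun i => l i / ((d : ℕ) : ℤ))
      refine ⟨l', ?_⟩
      funext j
      have h1 := Int.emod_nonneg (l j) hdpos.ne'
      have h3 := Int.emod_add_mul_ediv (l j) ((d : ℕ) : ℤ)
      have h4 : (BvH B l') j = ((d : ℕ) : ℤ) * (l j / ((d : ℕ) : ℤ)) := (hl' j).symm
      rw [h4]
      show _ = -(((l j % ((d : ℕ) : ℤ)).toNat : ℕ) : ℤ) + l j
      rw [Int.toNat_of_nonneg h1]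
      linarith
  have hft := Fintype.ofFinite ((ι → ℤ) ⧸ (BvH B).range)
  refine ⟨fun l => Quotient.out (QuotientAddGroup.mk l : (ι → ℤ) ⧸ (BvH B).range),
    Finset.univ.image (fun q : (ι → ℤ) ⧸ (BvH B).range => Quotient.out q),
    fun l => Finset.mem_image.2 ⟨_, Finset.mem_univ _, rfl⟩, fun l => ?_, fun l l' => ?_⟩
  · have h1 : (QuotientAddGroup.mk (Quotient.out
        (QuotientAddGroup.mk l : (ι → ℤ) ⧸ (BvH B).range)) : (ι → ℤ) ⧸ (BvH B).range) =
        QuotientAddGroup.mk l := Quotient.out_eq _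
    rw [QuotientAddGroup.eq] at h1
    obtain ⟨l', hl'⟩ := h1
    refine ⟨l', ?_⟩
    have h2 : Bv B l' = -(Quotient.out (QuotientAddGroup.mk l : (ι → ℤ) ⧸ (BvH B).range)) + l :=
      hl'
    rw [h2]
    abel
  · have h1 : (QuotientAddGroup.mk (l + Bv B l') : (ι → ℤ) ⧸ (BvH B).range) =
        QuotientAddGroup.mk l := by
      rw [QuotientAddGroup.eq]
      refine ⟨-l', ?_⟩
      rw [map_neg]
      show -(Bv B l') = _
      abel
    simp only [h1]

omit [Fintype ν] [IsUltrametricDist K] in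
private theorem lat_nmul (m : ι → Tor ι K) (n : ℕ) (l : ι → ℤ) :
    lat m (fun j => (n : ℤ) * l j) = (lat m l) ^ n := by
  unfold lat
  rw [← Finset.prod_pow]
  refine Finset.prod_congr rfl fun i _ => ?_
  show m i ^ ((n : ℤ) * l i) = (m i ^ l i) ^ n
  rw [mul_comm, zpow_mul, zpow_natCast]

omit [Fintype ν] [IsUltrametricDist K] in
private theorem dl_le (m : ι → Tor ι K) (B : ι → ι → ℤ) (d : ℕ+)
    (hd : ∀ l : ι → ℤ, ∃ l' : ι → ℤ, ∀ j, ((d : ℕ) : ℤ) * l j = ∑ i, l' i * B i j) :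
    latG m ≤ (latG (resM m B)).comap (powMonoidHom (d : ℕ)) := by
  rintro _ ⟨l, rfl⟩
  obtain ⟨l', hl'⟩ := hd l
  refine ⟨l', ?_⟩
  rw [lat_Bv]
  have h1 : Bv B l' = fun j => ((d : ℕ) : ℤ) * l j := funext fun j => (hl' j).symm
  rw [h1, lat_nmul]
  rfl

/-- the map induced by the power map -/
private noncomputable def dmap (m : ι → Tor ι K) (B : ι → ι → ℤ) (d : ℕ+)
    (hd : ∀ l : ι → ℤ, ∃ l' : ι → ℤ, ∀ j, ((d : ℕ) : ℤ) * l j = ∑ i, l' i * B i j) :
    Abl m →* Abl (resM m B) :=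
  QuotientGroup.map (latG m) (latG (resM m B)) (powMonoidHom (d : ℕ)) (dl_le m B d hd)

omit [Fintype ν] [IsUltrametricDist K] in
private theorem dmap_mk (m : ι → Tor ι K) (B : ι → ι → ℤ) (d : ℕ+)
    (hd : ∀ l : ι → ℤ, ∃ l' : ι → ℤ, ∀ j, ((d : ℕ) : ℤ) * l j = ∑ i, l' i * B i j)
    (τ : Tor ι K) : dmap m B d hd (QuotientGroup.mk τ) = QuotientGroup.mk (τ ^ (d : ℕ)) := rfl

/-- the map of the towers -/
private noncomputable def tmap (m : ι → Tor ι K) (B : ι → ι → ℤ) (d : ℕ+)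
    (hd : ∀ l : ι → ℤ, ∃ l' : ι → ℤ, ∀ j, ((d : ℕ) : ℤ) * l j = ∑ i, l' i * B i j)
    (a : Til m) : Til (resM m B) :=
  ⟨fun N => dmap m B d hd (a.1 (N * d)), fun N N' => by
    have h1 := a.2 (N * d) N'
    have h2 : N * N' * d = N * d * N' := mul_right_comm N N' d
    rw [← map_pow, h2, h1]⟩

omit [Fintype ν] [IsUltrametricDist K] in
private theorem tmap_one {m : ι → Tor ι K} {B : ι → ι → ℤ} {d : ℕ+}
    (hd : ∀ l : ι → ℤ, ∃ l' : ι → ℤ, ∀ j, ((d : ℕ) : ℤ) * l j = ∑ i, l' i * B i j)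
    (a : Til m) (N : ℕ+) {t τ : Tor ι K} {l : ι → ℤ}
    (h1 : t = lat m l * τ ^ ((N * d : ℕ+) : ℕ)) (h2 : a.1 (N * d) = QuotientGroup.mk τ) :
    (tmap m B d hd a).1 1 = QuotientGroup.mk (lat m (-l) * t) := by
  rw [← til_pow (tmap m B d hd a) N]
  have h3 : (tmap m B d hd a).1 N = QuotientGroup.mk (τ ^ (d : ℕ)) := by
    show dmap m B d hd (a.1 (N * d)) = _
    rw [h2, dmap_mk]
  rw [h3, ← QuotientGroup.mk_pow]
  have h4 : lat m (-l) * t = (τ ^ (d : ℕ)) ^ (N : ℕ) := by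
    rw [h1, ← lat_add_mul, neg_add_cancel, lat_zero, one_mul, ← pow_mul, PNat.mul_coe,
      mul_comm]
  rw [h4]

omit [Fintype ν] [IsUltrametricDist K] in
private theorem R_unique (hinj : ∀ l, lat m l = 1 → l = 0) {B : ι → ι → ℤ} {l l1 : ι → ℤ}
    {t : Tor ι K} (h : (QuotientGroup.mk (lat m (-l) * t) : Abl (resM m B)) =
      QuotientGroup.mk (lat m (-l1) * t)) : ∃ l', l1 = l + Bv B l' := by
  obtain ⟨l', hl'⟩ := (mk_eq_iff _ _).1 h
  refine ⟨l', ?_⟩
  rw [lat_Bv, ← mul_assoc] at hl'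
  have h1 := mul_right_cancel hl'
  have h2 : lat m (Bv B l' + -l1 + l) = 1 := by
    rw [lat_add, lat_add, ← h1, lat_neg]
    exact inv_mul_cancel _
  have h3 := hinj _ h2
  have h4 : l1 = l + Bv B l' - (Bv B l' + -l1 + l) := by abel
  rw [h4, h3, sub_zero]

omit [Fintype ν] [IsUltrametricDist K] in
private theorem cond_iff (hinj : ∀ l, lat m l = 1 → l = 0) {B : ι → ι → ℤ} {d : ℕ+}
    (hd : ∀ l : ι → ℤ, ∃ l' : ι → ℤ, ∀ j, ((d : ℕ) : ℤ) * l j = ∑ i, l' i * B i j)
    {rep : (ι → ℤ) → (ι → ℤ)} (hrep : ∀ l l', rep (l + Bv B l') = rep l) (N : ℕ+)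
    (l l1 : ι → ℤ) (τ1 : Tor ι K) :
    (∃ (l0 : ι → ℤ) (τ : Tor ι K), lat m l1 * τ1 ^ ((N * d : ℕ+) : ℕ) =
      lat m l0 * τ ^ ((N * d : ℕ+) : ℕ) ∧
      (QuotientGroup.mk τ1 : Abl m) = QuotientGroup.mk τ ∧ rep l0 = l) ↔ rep l1 = l := by
  constructor
  · rintro ⟨l0, τ, h1, h2, h3⟩
    obtain ⟨l2, h4⟩ := (mk_eq_iff _ _).1 h2
    obtain ⟨l', hl'⟩ := hd (fun j => ((N : ℕ) : ℤ) * l2 j)
    have h5 : Bv B l' = fun j => (((N * d : ℕ+) : ℕ) : ℤ) * l2 j := by
      funext j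
      refine (hl' j).symm.trans ?_
      rw [PNat.mul_coe]
      push_cast
      ring
    rw [h4, mul_pow, ← lat_nmul, ← h5, ← mul_assoc] at h1
    have h6 := mul_right_cancel h1
    rw [← lat_add] at h6
    have h7 : lat m (l1 + Bv B l' - l0) = 1 := by
      rw [sub_eq_add_neg, lat_add, h6, lat_neg]
      exact mul_inv_cancel _
    have h8 := sub_eq_zero.1 (hinj _ h7)
    rw [← h3, ← h8, hrep]
  · intro h
    exact ⟨l1, τ1, rfl, rfl, h⟩

omit [Fintype ν] [IsUltrametricDist K] in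
private theorem desc_yan (hinj : ∀ l, lat m l = 1 → l = 0) {B : ι → ι → ℤ} {d : ℕ+}
    (hd : ∀ l : ι → ℤ, ∃ l' : ι → ℤ, ∀ j, ((d : ℕ) : ℤ) * l j = ∑ i, l' i * B i j)
    {rep : (ι → ℤ) → (ι → ℤ)} (hrep1 : ∀ l, ∃ l', l = rep l + Bv B l')
    (hrep : ∀ l l', rep (l + Bv B l') = rep l) {L : Tor ι K → Til m → (ι → ℤ)}
    (hL : ∀ t a, a.1 1 = QuotientGroup.mk t → ∀ l,
      (tmap m B d hd a).1 1 = QuotientGroup.mk (lat m (-l) * t) → L t a = rep l)
    (hL' : ∀ t a, a.1 1 = QuotientGroup.mk t →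
      (tmap m B d hd a).1 1 = QuotientGroup.mk (lat m (-(L t a)) * t))
    (l : ι → ℤ) {h1 : Tor ι K → Til (resM m B) → K} (hh1 : YAn (resM m B) h1)
    [∀ t a, Decidable (L t a = l)] :
    YAn m (fun t a => if L t a = l then h1 (lat m (-l) * t) (tmap m B d hd a) else 0) := by
  classical
  intro r hr ε hε
  have hmono : IsMono (fun t : Tor ι K => lat m (-l) * t) :=
    isMono_mul (isMono_const _) isMono_id
  obtain ⟨r', hr', hbox⟩ := isMono_ibox hmono hr
  obtain ⟨N, H1, hH1, hH1'⟩ := hh1 r' hr' ε hε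
  refine ⟨N * d, fun t α => if (∃ (l0 : ι → ℤ) (τ : Tor ι K),
    t = lat m l0 * τ ^ ((N * d : ℕ+) : ℕ) ∧ α = QuotientGroup.mk τ ∧ rep l0 = l) then
    H1 (lat m (-l) * t) (dmap m B d hd α) else 0, ?_, ?_⟩
  · intro l1
    by_cases hl1 : rep l1 = l
    · have he : (fun τ : Tor ι K => (if (∃ (l0 : ι → ℤ) (τ' : Tor ι K),
          lat m l1 * τ ^ ((N * d : ℕ+) : ℕ) = lat m l0 * τ' ^ ((N * d : ℕ+) : ℕ) ∧
          (QuotientGroup.mk τ : Abl m) = QuotientGroup.mk τ' ∧ rep l0 = l) then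
          H1 (lat m (-l) * (lat m l1 * τ ^ ((N * d : ℕ+) : ℕ)))
            (dmap m B d hd (QuotientGroup.mk τ)) else 0)) =
          fun τ => H1 (lat m (-l) * (lat m l1 * τ ^ ((N * d : ℕ+) : ℕ)))
            (dmap m B d hd (QuotientGroup.mk τ)) := by
        funext τ
        rw [if_pos ((cond_iff hinj hd hrep N l l1 τ).2 hl1)]
      show Ana (fun τ : Tor ι K => (if (∃ (l0 : ι → ℤ) (τ' : Tor ι K),
          lat m l1 * τ ^ ((N * d : ℕ+) : ℕ) = lat m l0 * τ' ^ ((N * d : ℕ+) : ℕ) ∧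
          (QuotientGroup.mk τ : Abl m) = QuotientGroup.mk τ' ∧ rep l0 = l) then
          H1 (lat m (-l) * (lat m l1 * τ ^ ((N * d : ℕ+) : ℕ)))
            (dmap m B d hd (QuotientGroup.mk τ)) else 0))
      rw [he]
      obtain ⟨l', hl'⟩ := hrep1 l1
      rw [hl1] at hl'
      have h2 := ana_comp (isMono_pow (d : ℕ) (isMono_id (ι := ι) (K := K))) (hH1 l')
      have h3 : (fun τ : Tor ι K => H1 (lat m (-l) * (lat m l1 * τ ^ ((N * d : ℕ+) : ℕ)))
            (dmap m B d hd (QuotientGroup.mk τ))) = fun τ =>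
          H1 (lat (resM m B) l' * (τ ^ (d : ℕ)) ^ (N : ℕ)) (QuotientGroup.mk (τ ^ (d : ℕ))) := by
        funext τ
        rw [dmap_mk, lat_Bv, hl', ← mul_assoc, ← lat_add, neg_add_cancel_left, ← pow_mul,
          PNat.mul_coe, mul_comm (N : ℕ)]
      rw [h3]
      exact h2
    · have he : (fun τ : Tor ι K => (if (∃ (l0 : ι → ℤ) (τ' : Tor ι K),
          lat m l1 * τ ^ ((N * d : ℕ+) : ℕ) = lat m l0 * τ' ^ ((N * d : ℕ+) : ℕ) ∧
          (QuotientGroup.mk τ : Abl m) = QuotientGroup.mk τ' ∧ rep l0 = l) then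
          H1 (lat m (-l) * (lat m l1 * τ ^ ((N * d : ℕ+) : ℕ)))
            (dmap m B d hd (QuotientGroup.mk τ)) else 0)) = fun _ => 0 := by
        funext τ
        rw [if_neg fun h => hl1 ((cond_iff hinj hd hrep N l l1 τ).1 h)]
      show Ana (fun τ : Tor ι K => (if (∃ (l0 : ι → ℤ) (τ' : Tor ι K),
          lat m l1 * τ ^ ((N * d : ℕ+) : ℕ) = lat m l0 * τ' ^ ((N * d : ℕ+) : ℕ) ∧
          (QuotientGroup.mk τ : Abl m) = QuotientGroup.mk τ' ∧ rep l0 = l) then
          H1 (lat m (-l) * (lat m l1 * τ ^ ((N * d : ℕ+) : ℕ)))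
            (dmap m B d hd (QuotientGroup.mk τ)) else 0))
      rw [he]
      exact ana_const 0
  · intro t ht a hta
    obtain ⟨l0, τ, e1, e2⟩ := til_rep a hta (N * d)
    have e3 := hL t a hta l0 (tmap_one hd a N e1 e2)
    have hcond : (∃ (l1 : ι → ℤ) (τ' : Tor ι K),
        t = lat m l1 * τ' ^ ((N * d : ℕ+) : ℕ) ∧ a.1 (N * d) = QuotientGroup.mk τ' ∧
        rep l1 = l) ↔ L t a = l := by
      rw [e3, e2]
      have h5 := cond_iff hinj hd hrep N l l0 τ
      rw [← e1] at h5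
      exact h5
    by_cases hl : L t a = l
    · beta_reduce
      rw [if_pos hl, if_pos (hcond.2 hl)]
      have h6 := hL' t a hta
      rw [hl] at h6
      exact hH1' _ (hbox t ht) (tmap m B d hd a) h6
    · beta_reduce
      rw [if_neg hl, if_neg (fun h => hl (hcond.1 h)), sub_zero, norm_zero]
      exact hε.le

theorem pfe_desc (hinj : ∀ l, lat m l = 1 → l = 0) (B : ι → ι → ℤ) (d : ℕ+)
    (hd : ∀ l : ι → ℤ, ∃ l' : ι → ℤ, ∀ j, ((d : ℕ) : ℤ) * l j = ∑ i, l' i * B i j)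
    (hf : IsBun m f) (h : PFE (resM m B) (resF B f)) : PFE m f := by
  classical
  obtain ⟨rep, F, hF, hrep1, hrep⟩ := exists_rep B d hd
  obtain ⟨r, Θ1, Θ1', hΘ1, hΘ1', hΘ⟩ := h
  -- the choice of the lattice element
  obtain ⟨L, hL, hLF⟩ : ∃ L : Tor ι K → Til m → (ι → ℤ), (∀ t a, a.1 1 = QuotientGroup.mk t →
      ∀ l, (tmap m B d hd a).1 1 = QuotientGroup.mk (lat m (-l) * t) → L t a = rep l) ∧
      ∀ t a, a.1 1 = QuotientGroup.mk t → L t a ∈ F := by
    have hex : ∀ (t : Tor ι K) (a : Til m), a.1 1 = QuotientGroup.mk t → ∃ l,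
        (tmap m B d hd a).1 1 = QuotientGroup.mk (lat m (-l) * t) := by
      intro t a hta
      obtain ⟨l0, τ, e1, e2⟩ := til_rep a hta (1 * d)
      exact ⟨l0, tmap_one hd a 1 e1 e2⟩
    have hL : ∀ (t : Tor ι K) (a : Til m), a.1 1 = QuotientGroup.mk t → ∀ l,
        (tmap m B d hd a).1 1 = QuotientGroup.mk (lat m (-l) * t) →
        (if h : ∃ l, (tmap m B d hd a).1 1 = QuotientGroup.mk (lat m (-l) * t) then
          rep h.choose else 0) = rep l := by
      intro t a hta l hl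
      have hh : ∃ l, (tmap m B d hd a).1 1 = QuotientGroup.mk (lat m (-l) * t) := ⟨l, hl⟩
      rw [dif_pos hh]
      obtain ⟨l', hl'⟩ := R_unique hinj (hl.symm.trans hh.choose_spec)
      rw [hl', hrep]
    refine ⟨fun t a => if h : ∃ l, (tmap m B d hd a).1 1 =
      QuotientGroup.mk (lat m (-l) * t) then rep h.choose else 0, hL, fun t a hta => ?_⟩
    obtain ⟨l, hl⟩ := hex t a hta
    beta_reduce
    rw [hL t a hta l hl]
    exact hF l
  have hex : ∀ (t : Tor ι K) (a : Til m), a.1 1 = QuotientGroup.mk t → ∃ l,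
      (tmap m B d hd a).1 1 = QuotientGroup.mk (lat m (-l) * t) := by
    intro t a hta
    obtain ⟨l0, τ, e1, e2⟩ := til_rep a hta (1 * d)
    exact ⟨l0, tmap_one hd a 1 e1 e2⟩
  have hL' : ∀ t a, a.1 1 = QuotientGroup.mk t →
      (tmap m B d hd a).1 1 = QuotientGroup.mk (lat m (-(L t a)) * t) := by
    intro t a hta
    obtain ⟨l, hl⟩ := hex t a hta
    rw [hL t a hta l hl, hl]
    obtain ⟨l', hl'⟩ := hrep1 l
    have h1 : lat m (-(rep l)) * t = lat (resM m B) l' * (lat m (-l) * t) := by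
      rw [lat_Bv, ← lat_add_mul]
      have h2 : -(rep l) = Bv B l' + -l := by
        conv_rhs => rw [hl']
        abel
      rw [h2]
    rw [h1, mk_lat_mul]
  -- cocycle rules
  have hcoc := hf.coc
  have hf0 : ∀ l t, f l t * f 0 t = f l t := fun l t => by
    have := hcoc l 0 t
    rw [lat_zero, one_mul, add_zero] at this
    exact this.symm
  have hinv : ∀ l t, f l (lat m (-l) * t) * f (-l) t = f 0 t := fun l t => by
    rw [← hcoc, add_neg_cancel]
  have hinv' : ∀ l t, f (-l) t * f l (lat m (-l) * t) = f 0 (lat m (-l) * t) := fun l t => by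
    have := hcoc (-l) l (lat m (-l) * t)
    rw [← lat_add_mul, add_neg_cancel, lat_zero, one_mul, neg_add_cancel] at this
    exact this.symm
  have hres0 : ∀ u, resF B f 0 u = f 0 u := fun u => by
    show f (fun j => ∑ i, (0 : ι → ℤ) i * B i j) u = f 0 u
    have h0 : (fun j => ∑ i, (0 : ι → ℤ) i * B i j) = (0 : ι → ℤ) := by
      funext j
      simp
    rw [h0]
  refine ⟨r, fun t a => f (L t a) (lat m (-(L t a)) * t) *
    Θ1 (lat m (-(L t a)) * t) (tmap m B d hd a),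
    fun t a => Θ1' (lat m (-(L t a)) * t) (tmap m B d hd a) * f (-(L t a)) t, ?_, ?_, ?_⟩
  · intro i j
    have h1 : YAn m (fun t a => ∑ l ∈ F, ∑ k, f l (lat m (-l) * t) i k *
        (if L t a = l then Θ1 (lat m (-l) * t) (tmap m B d hd a) k j else 0)) := by
      refine yAn_sum F fun l _ => yAn_sum Finset.univ fun k _ => ?_
      exact yAn_mul (yAn_fst (ana_translate (lat m (-l)) (hf.an l i k)))
        (desc_yan hinj hd hrep1 hrep hL hL' l (hΘ1 k j))
    refine yAn_congr (fun t a hta => ?_) h1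
    show (f (L t a) (lat m (-(L t a)) * t) *
      Θ1 (lat m (-(L t a)) * t) (tmap m B d hd a)) i j = _
    rw [Finset.sum_eq_single_of_mem (L t a) (hLF t a hta), Matrix.mul_apply]
    · refine Finset.sum_congr rfl fun k _ => ?_
      rw [if_pos rfl]
    · intro l _ hl
      refine Finset.sum_eq_zero fun k _ => ?_
      rw [if_neg (fun h => hl h.symm), mul_zero]
  · intro i j
    have h1 : YAn m (fun t a => ∑ l ∈ F, ∑ k,
        (if L t a = l then Θ1' (lat m (-l) * t) (tmap m B d hd a) i k else 0) *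
          f (-l) t k j) := by
      refine yAn_sum F fun l _ => yAn_sum Finset.univ fun k _ => ?_
      exact yAn_mul (desc_yan hinj hd hrep1 hrep hL hL' l (hΘ1' i k)) (yAn_fst (hf.an (-l) k j))
    refine yAn_congr (fun t a hta => ?_) h1
    show (Θ1' (lat m (-(L t a)) * t) (tmap m B d hd a) * f (-(L t a)) t) i j = _
    rw [Finset.sum_eq_single_of_mem (L t a) (hLF t a hta), Matrix.mul_apply]
    · refine Finset.sum_congr rfl fun k _ => ?_
      rw [if_pos rfl]
    · intro l _ hl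
      refine Finset.sum_eq_zero fun k _ => ?_
      rw [if_neg (fun h => hl h.symm), zero_mul]
  · intro t a hta
    obtain ⟨p1, p2, p3⟩ := hΘ _ _ (hL' t a hta)
    rw [hres0] at p1
    refine ⟨?_, ?_, fun l0 => ?_⟩
    · show f (L t a) (lat m (-(L t a)) * t) * Θ1 (lat m (-(L t a)) * t) (tmap m B d hd a) *
        (Θ1' (lat m (-(L t a)) * t) (tmap m B d hd a) * f (-(L t a)) t) = f 0 t
      rw [Matrix.mul_assoc, ← Matrix.mul_assoc (Θ1 _ _), p1, ← Matrix.mul_assoc, hf0, hinv]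
    · show Θ1' (lat m (-(L t a)) * t) (tmap m B d hd a) * f (-(L t a)) t *
        (f (L t a) (lat m (-(L t a)) * t) * Θ1 (lat m (-(L t a)) * t) (tmap m B d hd a)) = 1
      rw [Matrix.mul_assoc, ← Matrix.mul_assoc (f (-(L t a)) t), hinv', ← p1,
        Matrix.mul_assoc (Θ1 _ _), p2, Matrix.mul_one, p2]
    · show f (L (lat m l0 * t) a) (lat m (-(L (lat m l0 * t) a)) * (lat m l0 * t)) *
        Θ1 (lat m (-(L (lat m l0 * t) a)) * (lat m l0 * t)) (tmap m B d hd a) =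
        f l0 t * (f (L t a) (lat m (-(L t a)) * t) *
          Θ1 (lat m (-(L t a)) * t) (tmap m B d hd a))
      have hta' : a.1 1 = QuotientGroup.mk (lat m l0 * t) := by
        rw [hta, mk_lat_mul]
      have q1 := hL' t a hta
      have q2 := hL' (lat m l0 * t) a hta'
      have q3 : lat m (-(L (lat m l0 * t) a)) * (lat m l0 * t) =
          lat m (-(L (lat m l0 * t) a - l0)) * t := by
        rw [← lat_add_mul]
        have : -(L (lat m l0 * t) a) + l0 = -(L (lat m l0 * t) a - l0) := by abel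
        rw [this]
      rw [q3] at q2
      obtain ⟨l'', hl''⟩ := R_unique hinj (q1.symm.trans q2)
      obtain ⟨s1, s2, s3⟩ := hΘ _ _ q2
      have q4 : lat (resM m B) l'' * (lat m (-(L (lat m l0 * t) a - l0)) * t) =
          lat m (-(L t a)) * t := by
        rw [lat_Bv, ← lat_add_mul, hl'']
        have : Bv B l'' + -(L t a + Bv B l'') = -(L t a) := by abel
        rw [this]
      have q5 := s3 l''
      rw [q4] at q5
      have q6 : resF B f l'' (lat m (-(L (lat m l0 * t) a - l0)) * t) =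
          f (Bv B l'') (lat m (-(L (lat m l0 * t) a - l0)) * t) := rfl
      rw [q3, q5, q6, ← Matrix.mul_assoc, ← Matrix.mul_assoc]
      have q7 : L (lat m l0 * t) a = (l0 + L t a) + Bv B l'' := by
        rw [sub_eq_iff_eq_add] at hl''
        rw [hl'']
        abel
      have q8 : f (L (lat m l0 * t) a) (lat m (-(L (lat m l0 * t) a - l0)) * t) =
          f l0 t * f (L t a) (lat m (-(L t a)) * t) *
            f (Bv B l'') (lat m (-(L (lat m l0 * t) a - l0)) * t) := by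
        have w1 : f (L (lat m l0 * t) a) (lat m (-(L (lat m l0 * t) a - l0)) * t) =
            f (l0 + L t a) (lat m (-(L t a)) * t) *
              f (Bv B l'') (lat m (-(L (lat m l0 * t) a - l0)) * t) := by
          rw [← q4, lat_Bv, ← hcoc, ← q7]
        rw [w1, hcoc l0 (L t a), ← lat_add_mul, add_neg_cancel, lat_zero, one_mul]
      rw [q8]

end Pool.Agent.Work.MP_6d379e_ag.Ab
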