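import Pool.Agent.Work.MP_6d379e_ag.Ab.PDefs
import Pool.Agent.Work.MP_6d379e_ag.Ab.Mono

/-!
# Points of the tower and functions of finite level   (size M)

* `mk_eq_iff` : `QuotientGroup.eq`, membership in `latG m`.
* `til_rep` : write `a.1 N = mk τ0`.  `(a.1 N) ^ N = a.1 1 = mk t` (`til_pow`), so
  `mk (τ0 ^ N) = mk t` and `t = lat m l * τ0 ^ N` for some `l`.
* `til_rep_box` : write `l = l0 + N * l1` with `0 ≤ l0 i < N` and `τ = lat m l1 * τ0`; then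
  `lat m l0 * τ ^ N = t` and `mk τ = mk τ0`.
* `levAn_*` : closure properties of `Ana`; `levAn_fst` : `τ ↦ f (lat m l * τ ^ N)` (`ana_comp`).
* `levAn_up` : `H (lat m l * τ ^ (N N')) (mk τ ^ N') = H (lat m l * (τ ^ N') ^ N) (mk (τ ^ N'))`,
  composition with the monomial map `τ ↦ τ ^ N'`.
* `levAn_bdd` : as in `til_rep_box`, every `(t, α)` with `α ^ N = mk t` has the form
  `t = lat m l * τ ^ N`, `α = mk τ` with `l` in a finite set; for `t ∈ ibox r`, `τ ^ N` lies in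
  some `ibox r'` (`r' ≥ 1` the same for the finitely many `l`), hence `τ ∈ ibox r'`, and the
  function `τ ↦ H (lat m l * τ ^ N) (mk τ)` is bounded on `ibox r'` (contained in a box `BB`,
  `anOn_bdd`).
-/

namespace Pool.Agent.Work.MP_6d379e_ag.Ab

variable {ι : Type*} [Fintype ι] {K : Type*} [NontriviallyNormedField K]
variable {m : ι → Tor ι K}

theorem mk_eq_iff (t u : Tor ι K) :
    (QuotientGroup.mk t : Abl m) = QuotientGroup.mk u ↔ ∃ l, t = lat m l * u := by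
  rw [QuotientGroup.eq]
  constructor
  · rintro ⟨l, hl⟩
    refine ⟨-l, ?_⟩
    rw [lat_neg, hl, mul_inv, inv_inv, mul_assoc, inv_mul_cancel, mul_one]
  · rintro ⟨l, hl⟩
    refine ⟨-l, ?_⟩
    rw [lat_neg, hl, mul_inv, mul_assoc, inv_mul_cancel, mul_one]

theorem mk_lat_mul (l : ι → ℤ) (t : Tor ι K) :
    (QuotientGroup.mk (lat m l * t) : Abl m) = QuotientGroup.mk t :=
  (mk_eq_iff _ _).2 ⟨l, rfl⟩

theorem til_pow (a : Til m) (N : ℕ+) : (a.1 N) ^ (N : ℕ) = a.1 1 := by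
  have h := a.2 1 N
  rw [one_mul] at h
  exact h

/-- a point over `[t]` under `[N]` -/
private theorem pt_rep (N : ℕ+) (α : Abl m) {t : Tor ι K}
    (h : α ^ (N : ℕ) = QuotientGroup.mk t) :
    ∃ (l : ι → ℤ) (τ : Tor ι K), t = lat m l * τ ^ (N : ℕ) ∧ α = QuotientGroup.mk τ := by
  obtain ⟨τ, rfl⟩ := QuotientGroup.mk_surjective α
  have h1 : (QuotientGroup.mk t : Abl m) = QuotientGroup.mk (τ ^ (N : ℕ)) := by
    rw [← h]
    rfl
  obtain ⟨l, hl⟩ := (mk_eq_iff _ _).1 h1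
  exact ⟨l, τ, hl, rfl⟩

private theorem lat_nsmul (m : ι → Tor ι K) (l : ι → ℤ) (N : ℕ) :
    lat m (fun i => (N : ℤ) * l i) = lat m l ^ N := by
  show (∏ i, m i ^ ((N : ℤ) * l i)) = (∏ i, m i ^ l i) ^ N
  rw [← Finset.prod_pow]
  refine Finset.prod_congr rfl fun i _ => ?_
  rw [mul_comm, zpow_mul, zpow_natCast]

private theorem pt_rep_box (N : ℕ+) (α : Abl m) {t : Tor ι K}
    (h : α ^ (N : ℕ) = QuotientGroup.mk t) :
    ∃ (l : ι → ℤ) (τ : Tor ι K), (∀ i, 0 ≤ l i ∧ l i < (N : ℕ)) ∧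
      t = lat m l * τ ^ (N : ℕ) ∧ α = QuotientGroup.mk τ := by
  obtain ⟨l, τ, h1, h2⟩ := pt_rep N α h
  have hN : (0 : ℤ) < ((N : ℕ) : ℤ) := by exact_mod_cast N.pos
  refine ⟨fun i => l i % ((N : ℕ) : ℤ), lat m (fun i => l i / ((N : ℕ) : ℤ)) * τ,
    fun i => ⟨Int.emod_nonneg _ hN.ne', Int.emod_lt_of_pos _ hN⟩, ?_, ?_⟩
  · rw [mul_pow, ← lat_nsmul, ← mul_assoc, ← lat_add, h1]
    have h3 : ((fun i => l i % ((N : ℕ) : ℤ)) + fun i => ((N : ℕ) : ℤ) * (l i / ((N : ℕ) : ℤ)))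
        = l := by
      funext i
      exact Int.emod_add_mul_ediv (l i) _
    rw [h3]
  · rw [h2, mk_lat_mul]

theorem til_rep (a : Til m) {t : Tor ι K} (h : a.1 1 = QuotientGroup.mk t) (N : ℕ+) :
    ∃ (l : ι → ℤ) (τ : Tor ι K), t = lat m l * τ ^ (N : ℕ) ∧ a.1 N = QuotientGroup.mk τ :=
  pt_rep N (a.1 N) ((til_pow a N).trans h)

theorem til_rep_box (a : Til m) {t : Tor ι K} (h : a.1 1 = QuotientGroup.mk t) (N : ℕ+) :
    ∃ (l : ι → ℤ) (τ : Tor ι K), (∀ i, 0 ≤ l i ∧ l i < (N : ℕ)) ∧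
      t = lat m l * τ ^ (N : ℕ) ∧ a.1 N = QuotientGroup.mk τ :=
  pt_rep_box N (a.1 N) ((til_pow a N).trans h)

theorem levAn_const (N : ℕ+) (c : K) : LevAn m N fun _ _ => c := fun _ => ana_const c

theorem levAn_fst (N : ℕ+) {f : Tor ι K → K} (hf : Ana f) : LevAn m N fun t _ => f t := by
  intro l
  exact ana_comp (τ := fun τ : Tor ι K => lat m l * τ ^ (N : ℕ))
    (isMono_mul (isMono_const _) (isMono_pow _ isMono_id)) hf

theorem levAn_add {N : ℕ+} {H H' : Tor ι K → Abl m → K} (h : LevAn m N H)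
    (h' : LevAn m N H') : LevAn m N fun t α => H t α + H' t α :=
  fun l => ana_add (h l) (h' l)

theorem levAn_sub {N : ℕ+} {H H' : Tor ι K → Abl m → K} (h : LevAn m N H)
    (h' : LevAn m N H') : LevAn m N fun t α => H t α - H' t α :=
  fun l => ana_sub (h l) (h' l)

theorem levAn_mul {N : ℕ+} {H H' : Tor ι K → Abl m → K} (h : LevAn m N H)
    (h' : LevAn m N H') : LevAn m N fun t α => H t α * H' t α :=
  fun l => ana_mul (h l) (h' l)

theorem levAn_up {N : ℕ+} (N' : ℕ+) {H : Tor ι K → Abl m → K} (h : LevAn m N H) :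
    LevAn m (N * N') fun t α => H t (α ^ (N' : ℕ)) := by
  intro l
  have h1 := ana_comp (τ := fun τ : Tor ι K => τ ^ (N' : ℕ)) (isMono_pow _ isMono_id) (h l)
  have h2 : (fun τ : Tor ι K => H (lat m l * τ ^ ((N * N' : ℕ+) : ℕ))
      ((QuotientGroup.mk τ : Abl m) ^ (N' : ℕ))) =
      fun τ : Tor ι K => H (lat m l * (τ ^ (N' : ℕ)) ^ (N : ℕ))
        (QuotientGroup.mk (τ ^ (N' : ℕ))) := by
    funext τ
    rw [PNat.mul_coe, mul_comm (N : ℕ), pow_mul]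
    rfl
  rw [h2]
  exact h1

private theorem ibox_of_pow {N : ℕ} (hN : 0 < N) {r : ℝ} (hr : 1 ≤ r) {τ : Tor ι K}
    (h : τ ^ N ∈ (ibox r : Set (Tor ι K))) : τ ∈ (ibox r : Set (Tor ι K)) := by
  intro i
  obtain ⟨h1, h2⟩ := h i
  have h3 : ‖((τ ^ N) i : K)‖ = ‖(τ i : K)‖ ^ N := by
    rw [Pi.pow_apply, Units.val_pow_eq_pow_val, norm_pow]
  rw [h3] at h1 h2
  have hr0 : 0 < r := lt_of_lt_of_le one_pos hr
  have hp : 0 ≤ ‖(τ i : K)‖ := norm_nonneg _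
  constructor
  · by_contra hcon
    push Not at hcon
    have h4 : ‖(τ i : K)‖ ≤ 1 := hcon.le.trans (inv_le_one_of_one_le₀ hr)
    have h5 : ‖(τ i : K)‖ ^ N ≤ ‖(τ i : K)‖ ^ 1 := pow_le_pow_of_le_one hp h4 hN
    rw [pow_one] at h5
    linarith
  · by_contra hcon
    push Not at hcon
    have h4 : 1 ≤ ‖(τ i : K)‖ := hr.trans hcon.le
    have h5 : ‖(τ i : K)‖ ^ 1 ≤ ‖(τ i : K)‖ ^ N := pow_le_pow_right₀ h4 hN
    rw [pow_one] at h5
    linarith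

private theorem ana_bdd {f : Tor ι K → K} (hf : Ana f) (r : ℝ) :
    ∃ C : ℝ, ∀ t ∈ (ibox r : Set (Tor ι K)), ‖f t‖ ≤ C := by
  obtain ⟨q, hq⟩ := exists_small ι K
  obtain ⟨N, hN⟩ := ibox_subset_BB hq r
  obtain ⟨C, hC⟩ := anOn_bdd (ana_BB hf q _ _)
  exact ⟨C, fun t ht => hC t (hN ht)⟩

theorem levAn_bdd {N : ℕ+} {H : Tor ι K → Abl m → K} (h : LevAn m N H) {r : ℝ} (hr : 1 ≤ r) :
    ∃ C : ℝ, ∀ t ∈ (ibox r : Set (Tor ι K)), ∀ α : Abl m,
      α ^ (N : ℕ) = QuotientGroup.mk t → ‖H t α‖ ≤ C := by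
  classical
  have h1 : ∀ l : ι → ℤ, ∃ C : ℝ, 0 ≤ C ∧ ∀ τ : Tor ι K,
      lat m l * τ ^ (N : ℕ) ∈ (ibox r : Set (Tor ι K)) →
      ‖H (lat m l * τ ^ (N : ℕ)) (QuotientGroup.mk τ)‖ ≤ C := by
    intro l
    obtain ⟨r', hr', hb⟩ := isMono_ibox (τ := fun t : Tor ι K => (lat m l)⁻¹ * t)
      (isMono_mul (isMono_const _) isMono_id) hr
    obtain ⟨C, hC⟩ := ana_bdd (h l) r'
    refine ⟨max C 0, le_max_right _ _, fun τ hτ => le_trans (hC τ ?_) (le_max_left _ _)⟩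
    refine ibox_of_pow N.pos hr' ?_
    have h2 := hb _ hτ
    rw [inv_mul_cancel_left] at h2
    exact h2
  choose C hC0 hC using h1
  have hfin : (Set.univ.pi fun _ : ι => Set.Ico (0 : ℤ) ((N : ℕ) : ℤ)).Finite :=
    Set.Finite.pi fun _ => Set.finite_Ico _ _
  refine ⟨∑ l ∈ hfin.toFinset, C l, fun t ht α hα => ?_⟩
  obtain ⟨l, τ, hl, hlt, hτ⟩ := pt_rep_box N α hα
  have hmem : l ∈ hfin.toFinset := by
    rw [Set.Finite.mem_toFinset]
    intro i _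
    exact ⟨(hl i).1, (hl i).2⟩
  have h2 : ‖H t α‖ ≤ C l := by
    rw [hτ, hlt]
    refine hC l τ ?_
    rw [← hlt]
    exact ht
  exact h2.trans (Finset.single_le_sum (fun k _ => hC0 k) hmem)

end Pool.Agent.Work.MP_6d379e_ag.Ab
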