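import Pool.Agent.Work.MP_6d379e_ag.Ab.PVal
import Pool.Agent.Work.MP_6d379e_ag.Ab.WDefs

/-!
# Flat bundles with quasi-unipotent blocks are pro-finite-etale   (size M)

For each `i` let `c i ≠ 0` with `ρ (Pi.single i 1) - c i • 1` nilpotent, `χ l = ∏ i, c i ^ l i`,
`D l = (χ l)⁻¹ • ρ l`, a representation with `D (Pi.single i 1) - 1` nilpotent, so `TopU`, and
`PCont p D` by `pcont_of_topU`.  Take scalar `h1, h1i` for `χ` (`exists_char`) and matrices `h2, h2i`
for `D` (`exists_pow`); `h = h1 • h2`, `hi = h1i • h2i`, `h (lat m l * t) a = ρ l * h t a`.  Put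
`Θ t a = P t * h t a`, `Θ' t a = hi t a * Q t`.  On `Y`:
`Θ Θ' = P h hi Q = P Q = f 0 t`, `Θ' Θ = hi Q P h = 1`,
`Θ (l t) a = P (l t) ρ l h t a = P (l t) ρ l Q t P t h t a = f l t * Θ t a`.
Entries are `YAn` by `yAn_mul`, `yAn_sum`, `yAn_fst`.
-/

namespace Pool.Agent.Work.MP_6d379e_ag.Ab

variable {ι ν : Type*} [Fintype ι] [DecidableEq ι] [Fintype ν]
variable {K : Type*} [NontriviallyNormedField K] [IsUltrametricDist K] [CharZero K]
variable [CompleteSpace K] [IsAlgClosed K] {m : ι → Tor ι K} {p : ℕ}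

omit [IsUltrametricDist K] [CharZero K] [CompleteSpace K] [IsAlgClosed K] in
private theorem pl_topU {r : ℕ} {R : Matrix (Fin r) (Fin r) K} {c : K} (hc : c ≠ 0)
    (hn : IsNilpotent (R - c • (1 : Matrix (Fin r) (Fin r) K))) : TopU (c⁻¹ • R) := by
  intro ε hε
  obtain ⟨n0, hn0⟩ := hn
  refine ⟨n0, fun n hn i j => ?_⟩
  have h1 : c⁻¹ • R - 1 = c⁻¹ • (R - c • (1 : Matrix (Fin r) (Fin r) K)) := by
    rw [smul_sub, smul_smul, inv_mul_cancel₀ hc, one_smul]
  have h2 : (R - c • (1 : Matrix (Fin r) (Fin r) K)) ^ n = 0 := by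
    rw [← Nat.add_sub_cancel' hn, pow_add, hn0, zero_mul]
  rw [h1, smul_pow, h2, smul_zero, Matrix.zero_apply, norm_zero]
  exact hε.le

theorem pfe_of_flat (hm : Std m) (hK : CpLike K p) {f : (ι → ℤ) → Tor ι K → Matrix ν ν K}
    {r : ℕ} {P : Tor ι K → Matrix ν (Fin r) K} {Q : Tor ι K → Matrix (Fin r) ν K}
    {ρ : (ι → ℤ) → Matrix (Fin r) (Fin r) K} (h : FlatData m f P Q ρ)
    (hn : ∀ l, ∃ c : K, c ≠ 0 ∧ IsNilpotent (ρ l - c • (1 : Matrix (Fin r) (Fin r) K))) :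
    PFE m f := by
  choose c hc0 hcn using hn
  obtain ⟨χ, hχd⟩ : ∃ χ : (ι → ℤ) → Kˣ, χ = fun l =>
      ∏ i, Units.mk0 (c (Pi.single i 1)) (hc0 _) ^ l i := ⟨_, rfl⟩
  have hχ : ∀ l l', χ (l + l') = χ l * χ l' := by
    intro l l'
    rw [hχd, ← Finset.prod_mul_distrib]
    exact Finset.prod_congr rfl fun i _ => zpow_add _ _ _
  have hχ0 : χ 0 = 1 := by
    rw [hχd]
    exact Finset.prod_eq_one fun i _ => zpow_zero _
  have hχ1 : ∀ i, ((χ (Pi.single i 1) : Kˣ) : K) = c (Pi.single i 1) := by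
    intro i
    have h1 : χ (Pi.single i 1) = Units.mk0 (c (Pi.single i 1)) (hc0 _) := by
      rw [hχd]
      show ∏ j, Units.mk0 (c (Pi.single j 1)) (hc0 _) ^ (Pi.single i 1 : ι → ℤ) j = _
      rw [Finset.prod_eq_single i]
      · rw [Pi.single_eq_same, zpow_one]
      · intro j _ hj
        rw [Pi.single_eq_of_ne hj, zpow_zero]
      · intro hi
        exact absurd (Finset.mem_univ i) hi
    rw [h1, Units.val_mk0]
  obtain ⟨D, hDd⟩ : ∃ D : (ι → ℤ) → Matrix (Fin r) (Fin r) K, D = fun l =>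
      (((χ l : Kˣ) : K))⁻¹ • ρ l := ⟨_, rfl⟩
  have hχD : ∀ l, ((χ l : Kˣ) : K) • D l = ρ l := by
    intro l
    rw [hDd, smul_smul, mul_inv_cancel₀ (χ l).ne_zero, one_smul]
  have hD0 : D 0 = 1 := by
    rw [hDd]
    show (((χ 0 : Kˣ) : K))⁻¹ • ρ 0 = 1
    rw [hχ0, h.one, Units.val_one, inv_one, one_smul]
  have hD2 : ∀ l l', D (l + l') = D l * D l' := by
    intro l l'
    rw [hDd]
    show (((χ (l + l') : Kˣ) : K))⁻¹ • ρ (l + l') = ((χ l : Kˣ) : K)⁻¹ • ρ l *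
      ((χ l' : Kˣ) : K)⁻¹ • ρ l'
    rw [hχ, h.mul, smul_mul_smul_comm, Units.val_mul, mul_inv]
  have hDT : ∀ a : ι, TopU (D (Pi.single a 1)) := by
    intro a
    rw [hDd]
    show TopU ((((χ (Pi.single a 1) : Kˣ) : K))⁻¹ • ρ (Pi.single a 1))
    rw [hχ1 a]
    exact pl_topU (hc0 _) (hcn _)
  have hDP := pcont_of_topU hK.prime hK.lt hD0 hD2 hDT
  obtain ⟨h1, h1i, a1, a1i, e1⟩ := exists_char hm hK χ hχ
  obtain ⟨h2, h2i, a2, a2i, e2⟩ := exists_pow (inj_of_std hm) hK.prime hDP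
  refine ⟨r, fun t a => P t * (h1 t a • h2 t a), fun t a => (h1i t a • h2i t a) * Q t, ?_, ?_, ?_⟩
  · intro i j
    have h3 : (fun t a => (P t * (h1 t a • h2 t a)) i j) =
        fun (t : Tor ι K) (a : Til m) => ∑ k, P t i k * (h1 t a * h2 t a k j) := by
      funext t a
      rw [Matrix.mul_apply]
      rfl
    rw [h3]
    exact yAn_sum _ fun k _ => yAn_mul (yAn_fst (h.anP i k)) (yAn_mul a1 (a2 k j))
  · intro i j
    have h3 : (fun t a => ((h1i t a • h2i t a) * Q t) i j) =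
        fun (t : Tor ι K) (a : Til m) => ∑ k, (h1i t a * h2i t a i k) * Q t k j := by
      funext t a
      rw [Matrix.mul_apply]
      rfl
    rw [h3]
    exact yAn_sum _ fun k _ => yAn_mul (yAn_mul a1i (a2i i k)) (yAn_fst (h.anQ k j))
  · intro t a ha
    obtain ⟨e11, e12⟩ := e1 t a ha
    obtain ⟨e21, e22, e23⟩ := e2 t a ha
    have f1 : (h1 t a • h2 t a) * (h1i t a • h2i t a) = 1 := by
      rw [smul_mul_smul_comm, e11, e21, one_smul]
    have f2 : (h1i t a • h2i t a) * (h1 t a • h2 t a) = 1 := by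
      rw [smul_mul_smul_comm, mul_comm (h1i t a), e11, e22, one_smul]
    refine ⟨?_, ?_, fun l => ?_⟩
    · calc P t * (h1 t a • h2 t a) * ((h1i t a • h2i t a) * Q t)
          = P t * (((h1 t a • h2 t a) * (h1i t a • h2i t a)) * Q t) := by
            simp only [Matrix.mul_assoc]
        _ = f 0 t := by rw [f1, Matrix.one_mul, h.PQ]
    · calc (h1i t a • h2i t a) * Q t * (P t * (h1 t a • h2 t a))
          = (h1i t a • h2i t a) * ((Q t * P t) * (h1 t a • h2 t a)) := by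
            simp only [Matrix.mul_assoc]
        _ = 1 := by rw [h.QP, Matrix.one_mul, f2]
    · show P (lat m l * t) * (h1 (lat m l * t) a • h2 (lat m l * t) a) =
        f l t * (P t * (h1 t a • h2 t a))
      have f3 : h1 (lat m l * t) a • h2 (lat m l * t) a = ρ l * (h1 t a • h2 t a) := by
        rw [e12 l, e23 l, ← hχD l, ← smul_mul_smul_comm]
      rw [f3, h.eq]
      calc P (lat m l * t) * (ρ l * (h1 t a • h2 t a))
          = P (lat m l * t) * (ρ l * (1 * (h1 t a • h2 t a))) := by rw [Matrix.one_mul]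
        _ = P (lat m l * t) * ρ l * Q t * (P t * (h1 t a • h2 t a)) := by
            rw [← h.QP t]
            simp only [Matrix.mul_assoc]

end Pool.Agent.Work.MP_6d379e_ag.Ab
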