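import Pool.Agent.Work.MP_6d379e_ag.Ab.PRes

/-!
# Every lattice over a field with value group `p ^ ℚ` contains a standard one   (size M-L)

* `inj_of_lat` : `lat m l = 1` gives `∑ i, l i * log ‖m i j‖ = 0` for all `j`, so `l = 0` by linear
  independence.
* `exists_std` : by `CpLike.val`, `log ‖m i j‖ = v i j * log ‖p‖` with `v i j` rational, and
  `log ‖p‖ < 0`.  The real matrix `(log ‖m i j‖)` is invertible, so the rational matrix `V = (v i j)`
  is invertible over the rationals; choose a positive integer `N` such that `B = N V⁻¹` is an integer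
  matrix, and a positive integer `D` such that `D V` is an integer matrix.  `B V = N`, so
  `log ‖(lat m (B i)) j‖ = ∑ l, B i l * v l j * log ‖p‖ = N δ_ij log ‖p‖`: `Std (resM m B)`.
  For `l : ι → ℤ` (row vector) put `l' = D l V`, an integer vector; `l' B = D N l`, so `d = D N`
  works.
-/

namespace Pool.Agent.Work.MP_6d379e_ag.Ab

variable {ι : Type*} [Fintype ι] [DecidableEq ι]
variable {K : Type*} [NontriviallyNormedField K] {m : ι → Tor ι K} {p : ℕ}

omit [DecidableEq ι] in
private theorem log_lat (m : ι → Tor ι K) (l : ι → ℤ) (j : ι) :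
    Real.log ‖((lat m l j : Kˣ) : K)‖ = ∑ i, (l i : ℝ) * Real.log ‖(m i j : K)‖ := by
  have e : ((lat m l j : Kˣ) : K) = ∏ i, (m i j : K) ^ l i := by
    unfold lat
    rw [Finset.prod_apply, Units.coe_prod]
    refine Finset.prod_congr rfl fun i _ => ?_
    rw [Pi.pow_apply, Units.val_zpow_eq_zpow_val]
  rw [e, norm_prod, Real.log_prod]
  · refine Finset.sum_congr rfl fun i _ => ?_
    rw [norm_zpow, Real.log_zpow]
  · intro i _
    rw [norm_zpow]
    exact zpow_ne_zero _ (norm_ne_zero_iff.2 (Units.ne_zero _))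

theorem inj_of_lat (hm : IsLat m) : ∀ l, lat m l = 1 → l = 0 := by
  intro l hl
  unfold IsLat at hm
  rw [Fintype.linearIndependent_iff] at hm
  have h := hm (fun i => (l i : ℝ)) (by
    funext j
    have h1 := log_lat m l j
    rw [hl] at h1
    simp only [Pi.one_apply, Units.val_one, norm_one, Real.log_one] at h1
    rw [Finset.sum_apply]
    simp only [Pi.smul_apply, smul_eq_mul, Pi.zero_apply]
    exact h1.symm)
  funext i
  exact_mod_cast h i

omit [DecidableEq ι] in
private theorem clear_den (w : ι → ι → ℚ) : ∃ (N : ℕ) (b : ι → ι → ℤ), 0 < N ∧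
    ∀ i j, (b i j : ℚ) = N * w i j := by
  refine ⟨∏ i, ∏ j, (w i j).den, fun i j => ((∏ i, ∏ j, (w i j).den) / (w i j).den : ℕ) *
    (w i j).num, Finset.prod_pos fun i _ => Finset.prod_pos fun j _ => (w i j).den_pos, ?_⟩
  intro i j
  have hd : (w i j).den ∣ ∏ i, ∏ j, (w i j).den :=
    dvd_trans (Finset.dvd_prod_of_mem (fun j => (w i j).den) (Finset.mem_univ j))
      (Finset.dvd_prod_of_mem (fun i => ∏ j, (w i j).den) (Finset.mem_univ i))
  obtain ⟨c, hc⟩ := hd
  rw [hc]
  beta_reduce
  rw [Nat.mul_div_cancel_left _ (w i j).den_pos]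
  push_cast
  rw [← Rat.mul_den_eq_num (w i j)]
  ring

theorem exists_std (hm : IsLat m) (hK : CpLike K p) :
    ∃ (B : ι → ι → ℤ) (d : ℕ+), Std (resM m B) ∧
      ∀ l : ι → ℤ, ∃ l' : ι → ℤ, ∀ j, ((d : ℕ) : ℤ) * l j = ∑ i, l' i * B i j := by
  classical
  have hp0 : ‖(p : K)‖ ≠ 0 := by
    intro h0
    obtain ⟨x, hx⟩ := NormedField.exists_one_lt_norm K
    have hx0 : x ≠ 0 := by
      rintro rfl
      rw [norm_zero] at hx
      linarith
    obtain ⟨n, k, hn, he⟩ := hK.val x hx0
    have h1 : 1 < ‖x‖ ^ n := one_lt_pow₀ hx (by omega)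
    rw [he, h0] at h1
    rcases eq_or_ne k 0 with rfl | hk
    · simp at h1
    · rw [zero_zpow k hk] at h1
      linarith
  have hp : 0 < ‖(p : K)‖ := lt_of_le_of_ne (norm_nonneg _) (Ne.symm hp0)
  set L := Real.log ‖(p : K)‖ with hL
  have hL0 : L < 0 := Real.log_neg hp hK.lt
  have hv : ∀ i j, ∃ v : ℚ, Real.log ‖(m i j : K)‖ = (v : ℝ) * L := by
    intro i j
    obtain ⟨n, k, hn, he⟩ := hK.val (m i j : K) (Units.ne_zero _)
    refine ⟨(k : ℚ) / n, ?_⟩
    have h1 := congrArg Real.log he
    rw [Real.log_pow, Real.log_zpow] at h1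
    have hn' : (n : ℝ) ≠ 0 := by exact_mod_cast hn.ne'
    push_cast
    rw [div_mul_eq_mul_div, eq_div_iff hn', ← h1]
    ring
  choose v hv using hv
  set V : Matrix ι ι ℚ := Matrix.of v with hV
  have hdet : IsUnit V.det := by
    rw [isUnit_iff_ne_zero]
    intro h0
    have h1 : (V.map (fun q : ℚ => (q : ℝ))).det = 0 := by
      have := RingHom.map_det (Rat.castHom ℝ) V
      rw [h0, map_zero] at this
      exact this.symm
    obtain ⟨g, hg0, hg⟩ := Matrix.exists_vecMul_eq_zero_iff.2 h1
    apply hg0
    unfold IsLat at hm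
    rw [Fintype.linearIndependent_iff] at hm
    funext i
    refine hm g ?_ i
    funext j
    rw [Finset.sum_apply]
    simp only [Pi.smul_apply, smul_eq_mul, Pi.zero_apply]
    have h2 := congrFun hg j
    simp only [Matrix.vecMul, dotProduct, Matrix.map_apply, hV, Matrix.of_apply, Pi.zero_apply] at h2
    calc ∑ i, g i * Real.log ‖(m i j : K)‖ = (∑ i, g i * (v i j : ℝ)) * L := by
          rw [Finset.sum_mul]
          refine Finset.sum_congr rfl fun i _ => ?_
          rw [hv]
          ring
      _ = 0 := by rw [h2, zero_mul]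
  obtain ⟨N, B, hN, hB⟩ := clear_den (fun i j => V⁻¹ i j)
  obtain ⟨D, C, hD, hC⟩ := clear_den v
  have hBV : ∀ i j, ∑ l, (B i l : ℚ) * v l j = if i = j then (N : ℚ) else 0 := by
    intro i j
    have h1 := congrFun (congrFun (Matrix.nonsing_inv_mul V hdet) i) j
    rw [Matrix.mul_apply, Matrix.one_apply] at h1
    calc ∑ l, (B i l : ℚ) * v l j = N * ∑ l, V⁻¹ i l * V l j := by
          rw [Finset.mul_sum]
          refine Finset.sum_congr rfl fun l _ => ?_
          rw [hB]
          simp only [hV, Matrix.of_apply]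
          ring
      _ = _ := by
          rw [h1]
          split_ifs
          · rw [mul_one]
          · rw [mul_zero]
  have hVB : ∀ i j, ∑ l, v i l * (B l j : ℚ) = if i = j then (N : ℚ) else 0 := by
    intro i j
    have h1 := congrFun (congrFun (Matrix.mul_nonsing_inv V hdet) i) j
    rw [Matrix.mul_apply, Matrix.one_apply] at h1
    calc ∑ l, v i l * (B l j : ℚ) = N * ∑ l, V i l * V⁻¹ l j := by
          rw [Finset.mul_sum]
          refine Finset.sum_congr rfl fun l _ => ?_
          rw [hB]
          simp only [hV, Matrix.of_apply]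
          ring
      _ = _ := by
          rw [h1]
          split_ifs
          · rw [mul_one]
          · rw [mul_zero]
  have hlog : ∀ i j, Real.log ‖((resM m B i j : Kˣ) : K)‖ = if i = j then (N : ℝ) * L else 0 := by
    intro i j
    unfold resM
    rw [log_lat]
    have h1 : ∑ l, (B i l : ℝ) * (v l j : ℝ) = if i = j then (N : ℝ) else 0 := by
      have := congrArg (fun q : ℚ => (q : ℝ)) (hBV i j)
      push_cast at this
      rw [this]
      split_ifs
      · simp
      · simp
    calc ∑ l, (B i l : ℝ) * Real.log ‖(m l j : K)‖ = (∑ l, (B i l : ℝ) * (v l j : ℝ)) * L := by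
          rw [Finset.sum_mul]
          refine Finset.sum_congr rfl fun l _ => ?_
          rw [hv]
          ring
      _ = _ := by
          rw [h1]
          split_ifs
          · rfl
          · rw [zero_mul]
  refine ⟨B, ⟨D * N, Nat.mul_pos hD hN⟩, ⟨?_, ?_⟩, ?_⟩
  · intro i
    have h1 := hlog i i
    rw [if_pos rfl] at h1
    have h2 : 0 < ‖((resM m B i i : Kˣ) : K)‖ := norm_pos_iff.2 (Units.ne_zero _)
    rw [← Real.log_neg_iff h2, h1]
    have hN' : (0 : ℝ) < N := by exact_mod_cast hN
    exact mul_neg_of_pos_of_neg hN' hL0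
  · intro i j hij
    have h1 := hlog i j
    rw [if_neg hij] at h1
    have h2 : 0 < ‖((resM m B i j : Kˣ) : K)‖ := norm_pos_iff.2 (Units.ne_zero _)
    exact Real.eq_one_of_pos_of_log_eq_zero h2 h1
  · intro l
    refine ⟨fun i => ∑ k, l k * C k i, fun j => ?_⟩
    have h1 : (((D * N : ℕ) : ℤ) * l j : ℚ) = ∑ i, (∑ k, (l k : ℚ) * C k i) * B i j := by
      calc (((D * N : ℕ) : ℤ) * l j : ℚ) = D * ∑ k, (l k : ℚ) * (if k = j then (N : ℚ) else 0) := by
            rw [Finset.sum_eq_single j]
            · rw [if_pos rfl]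
              push_cast
              ring
            · intro b _ hb
              rw [if_neg hb, mul_zero]
            · intro h
              exact absurd (Finset.mem_univ j) h
        _ = D * ∑ k, (l k : ℚ) * ∑ i, v k i * (B i j : ℚ) := by
            congr 1
            refine Finset.sum_congr rfl fun k _ => ?_
            rw [hVB]
        _ = ∑ k, ∑ i, (l k : ℚ) * C k i * B i j := by
            rw [Finset.mul_sum]
            refine Finset.sum_congr rfl fun k _ => ?_
            rw [Finset.mul_sum, Finset.mul_sum]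
            refine Finset.sum_congr rfl fun i _ => ?_
            rw [hC]
            ring
        _ = _ := by
            rw [Finset.sum_comm]
            refine Finset.sum_congr rfl fun i _ => ?_
            rw [Finset.sum_mul]
    exact_mod_cast h1

end Pool.Agent.Work.MP_6d379e_ag.Ab
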