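import Pool.Agent.Work.MP_6d379e_ag.Ab.PAlg
import Pool.Agent.Work.MP_6d379e_ag.Ab.SubB

/-!
# Direct sums of pro-finite-etale bundles   (size M)

Let `r i`, `Θ i`, `Θ' i` be the data for `subB (p i) f` (`subB (p i) f 0 = p i`, `sub_zero'`).  Index
set `Σ i, Fin (r i) ≃ Fin r`; `Θ t a b (i, s) = Θ i t a b s`, `Θ' t a (i, s) b = Θ' i t a s b`.
On `Y` : `Θ Θ' = ∑ i, Θ i Θ' i = ∑ i, p i = f 0`.  For `i ≠ j` :
`Θ' i = Θ' i Θ i Θ' i = Θ' i p i`, `Θ j = Θ j Θ' j Θ j = p j Θ j`, so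
`Θ' i Θ j = Θ' i p i p j Θ j = 0`; and `Θ' i Θ i = 1`; so `Θ' Θ = 1`.
`Θ i (l t) a = f l t p i t Θ i t a = f l t Θ i t a`.
-/

namespace Pool.Agent.Work.MP_6d379e_ag.Ab

variable {ι ν : Type*} [Fintype ι] [Fintype ν] {K : Type*} [NontriviallyNormedField K]
variable {m : ι → Tor ι K} {f : (ι → ℤ) → Tor ι K → Matrix ν ν K}

theorem pfe_sum (hf : IsBun m f) {n : ℕ} {p : Fin n → Tor ι K → Matrix ν ν K}
    (hp : DecB m f p) (h : ∀ i, PFE m (subB (p i) f)) : PFE m f := by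
  classical
  choose r Θ Θ' hY hY' hE using h
  have hE0 : ∀ i (t : Tor ι K) (a : Til m), a.1 1 = QuotientGroup.mk t →
      Θ i t a * Θ' i t a = p i t := by
    intro i t a ha
    rw [(hE i t a ha).1]
    exact sub_zero' (hp.hom i) t
  have hL : ∀ i (t : Tor ι K) (a : Til m), a.1 1 = QuotientGroup.mk t →
      Θ' i t a = Θ' i t a * p i t := by
    intro i t a ha
    rw [← hE0 i t a ha, ← Matrix.mul_assoc, (hE i t a ha).2.1, Matrix.one_mul]
  have hR : ∀ i (t : Tor ι K) (a : Til m), a.1 1 = QuotientGroup.mk t →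
      p i t * Θ i t a = Θ i t a := by
    intro i t a ha
    rw [← hE0 i t a ha, Matrix.mul_assoc, (hE i t a ha).2.1, Matrix.mul_one]
  have hO : ∀ i j, i ≠ j → ∀ (t : Tor ι K) (a : Til m), a.1 1 = QuotientGroup.mk t →
      Θ' i t a * Θ j t a = 0 := by
    intro i j hij t a ha
    rw [hL i t a ha, ← hR j t a ha, Matrix.mul_assoc, ← Matrix.mul_assoc (p i t), hp.orth i j hij t,
      Matrix.zero_mul, Matrix.mul_zero]
  obtain ⟨R, e⟩ : ∃ R : ℕ, Nonempty ((Σ i, Fin (r i)) ≃ Fin R) := ⟨_, ⟨Fintype.equivFin _⟩⟩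
  obtain ⟨e⟩ := e
  refine ⟨R, fun t a => Matrix.of fun b s => Θ (e.symm s).1 t a b (e.symm s).2,
    fun t a => Matrix.of fun s b => Θ' (e.symm s).1 t a (e.symm s).2 b,
    fun b s => hY _ _ _, fun s b => hY' _ _ _, fun t a ha => ⟨?_, ?_, fun l => ?_⟩⟩
  · ext b c
    rw [Matrix.mul_apply]
    have h1 : ∀ s : Fin R, (Matrix.of fun b s => Θ (e.symm s).1 t a b (e.symm s).2) b s *
        (Matrix.of fun s b => Θ' (e.symm s).1 t a (e.symm s).2 b) s c =
        (fun x : Σ i, Fin (r i) => Θ x.1 t a b x.2 * Θ' x.1 t a x.2 c) (e.symm s) := fun s => rfl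
    rw [Finset.sum_congr rfl fun s _ => h1 s,
      Equiv.sum_comp e.symm (fun x : Σ i, Fin (r i) => Θ x.1 t a b x.2 * Θ' x.1 t a x.2 c),
      Fintype.sum_sigma]
    have h2 : ∀ i, ∑ u : Fin (r i), Θ i t a b u * Θ' i t a u c = p i t b c := by
      intro i
      rw [← hE0 i t a ha, Matrix.mul_apply]
    rw [Finset.sum_congr rfl fun i _ => h2 i, ← hp.sum t, Matrix.sum_apply]
  · ext s s'
    rw [Matrix.mul_apply]
    have h1 : ∀ x y : Σ i, Fin (r i), ∑ b, Θ' x.1 t a x.2 b * Θ y.1 t a b y.2 =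
        if x = y then 1 else 0 := by
      rintro ⟨i, u⟩ ⟨j, v⟩
      by_cases hij : i = j
      · subst hij
        have h2 : ∑ b, Θ' i t a u b * Θ i t a b v = (Θ' i t a * Θ i t a) u v := by
          rw [Matrix.mul_apply]
        show ∑ b, Θ' i t a u b * Θ i t a b v = _
        rw [h2, (hE i t a ha).2.1, Matrix.one_apply]
        by_cases huv : u = v
        · rw [if_pos huv, if_pos (congrArg (Sigma.mk i) huv)]
        · have h4 : (⟨i, u⟩ : Σ i, Fin (r i)) ≠ ⟨i, v⟩ := by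
            intro h5
            exact huv (eq_of_heq (Sigma.mk.inj h5).2)
          rw [if_neg huv, if_neg h4]
      · have h2 : ∑ b, Θ' i t a u b * Θ j t a b v = (Θ' i t a * Θ j t a) u v := by
          rw [Matrix.mul_apply]
        show ∑ b, Θ' i t a u b * Θ j t a b v = _
        have h4 : (⟨i, u⟩ : Σ i, Fin (r i)) ≠ ⟨j, v⟩ := by
          intro h5
          exact hij (Sigma.mk.inj h5).1
        rw [h2, hO i j hij t a ha, Matrix.zero_apply, if_neg h4]
    have h2 := h1 (e.symm s) (e.symm s')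
    rw [Matrix.one_apply]
    have h3 : (e.symm s = e.symm s') ↔ (s = s') := e.symm.injective.eq_iff
    simp only [h3] at h2
    exact h2
  · ext b s
    have h1 := (hE (e.symm s).1 t a ha).2.2 l
    have h2 : subB (p (e.symm s).1) f l t * Θ (e.symm s).1 t a = f l t * Θ (e.symm s).1 t a := by
      show f l t * p (e.symm s).1 t * Θ (e.symm s).1 t a = _
      rw [Matrix.mul_assoc, hR _ t a ha]
    rw [h2] at h1
    show Θ (e.symm s).1 (lat m l * t) a b (e.symm s).2 = _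
    rw [h1, Matrix.mul_apply, Matrix.mul_apply]
    rfl

end Pool.Agent.Work.MP_6d379e_ag.Ab
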