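import Pool.Agent.Work.MP_6d379e_ag.Ab.WAll
import Pool.Agent.Work.MP_6d379e_ag.Ab.PLoc
import Pool.Agent.Work.MP_6d379e_ag.Ab.PSum
import Pool.Agent.Work.MP_6d379e_ag.Ab.PDesc
import Pool.Agent.Work.MP_6d379e_ag.Ab.PSub
import Pool.Agent.Work.MP_6d379e_ag.Ab.PCpB

/-!
# Homogeneous bundles on totally degenerate abeloids are pro-finite-etale   (size S-M)

* `pfe_std` : decompose (`exists_dec`); the summands are `LocB` and homogeneous (`homog_sub`),
  flat with the nilpotency property (`loc_flat`), so `PFE` (`pfe_of_flat`); `pfe_sum`.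
* `pfe_of_homog` : `exists_std` gives `B`, `d`; the restriction of `f` is a homogeneous bundle for the
  standard lattice `resM m B` (`isBun_res`, `homog_res`), so it is `PFE` by `pfe_std`; `pfe_desc` with
  `inj_of_lat`.
* `pfe_cp` : `cp_like`, and the instances of `ℂ_[p]` (`NontriviallyNormedField`,
  `IsUltrametricDist`, `CompleteSpace`, `IsAlgClosed`, `CharZero`).
-/

namespace Pool.Agent.Work.MP_6d379e_ag.Ab

variable {ι ν : Type*} [Fintype ι] [Fintype ν] [DecidableEq ι] [DecidableEq ν]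

theorem pfe_std {K : Type*} [NontriviallyNormedField K] [IsUltrametricDist K]
    [CompleteSpace K] [IsAlgClosed K] [CharZero K] {m : ι → Tor ι K} {p : ℕ}
    {f : (ι → ℤ) → Tor ι K → Matrix ν ν K}
    (hm : Std m) (hK : CpLike K p) (hf : IsBun m f) (hh : Homog m f) : PFE m f := by
  obtain ⟨n, q, hq⟩ := exists_dec hm hf
  refine pfe_sum hf hq (fun i => ?_)
  obtain ⟨r, P, Q, ρ, hD, hN⟩ := loc_flat hm (hq.loc i) (homog_sub hm hf hh hq i)
  exact pfe_of_flat hm hK hD hN

theorem pfe_of_homog {K : Type*} [NontriviallyNormedField K] [IsUltrametricDist K]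
    [CompleteSpace K] [IsAlgClosed K] [CharZero K] {m : ι → Tor ι K} {p : ℕ}
    {f : (ι → ℤ) → Tor ι K → Matrix ν ν K}
    (hm : IsLat m) (hK : CpLike K p) (hf : IsBun m f) (hh : Homog m f) : PFE m f := by
  obtain ⟨B, d, hB, hd⟩ := exists_std hm hK
  exact pfe_desc (inj_of_lat hm) B d hd hf
    (pfe_std hB hK (isBun_res B hf) (homog_res B hh))

end Pool.Agent.Work.MP_6d379e_ag.Ab
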