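import Pool.Agent.Work.MP_6d379e_ag.Ab.PDefs

/-!
# Topologically unipotent matrices and p-adic powers   (size M-L)

Norms of matrices: the maximum of the norms of the entries; it is submultiplicative because `K` is
ultrametric.

`pcont_of_topU` : let `D` be a representation of `ι → ℤ` such that for every `a` the matrix
`E = D (Pi.single a 1)` is topologically unipotent, `E = 1 + X`, `X ^ n → 0`; let `C ≥ 1` bound all
`X ^ n`.  `E ^ (p ^ k) - 1 = ∑ j from 1 to p ^ k of binom (p ^ k) j • X ^ j`.  Given `ε > 0` choose `n0`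
with `‖X ^ j‖ ≤ ε` for `j ≥ n0` (`‖binom‖ ≤ 1`); for `1 ≤ j < n0` one has
`j * binom (p ^ k) j = p ^ k * binom (p ^ k - 1) (j - 1)`, so `‖binom (p ^ k) j‖ ≤ ‖p‖ ^ k / ‖j‖`,
which is at most `ε / C` for all `1 ≤ j < n0` if `k` is large.  So `‖E ^ (p ^ k) - 1‖ ≤ ε` for all
large `k`.  If `ε < 1` and `F = E ^ (p ^ k)`, then `‖F ^ n - 1‖ ≤ ε` for all `n : ℕ`
(`F ^ n - 1 = (F - 1) (1 + F + ...)`), and for the inverse `F⁻¹ = D (-(p ^ k) e_a)`:
`F⁻¹ - 1 = -(F - 1) F⁻¹`, so `‖F⁻¹‖ = 1` and `‖F⁻¹ - 1‖ ≤ ε` (ultrametric: if `‖F⁻¹‖ > 1` then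
`‖F⁻¹‖ = ‖F⁻¹ - 1‖ ≤ ε ‖F⁻¹‖`).  Hence `‖D (p ^ k * n e_a) - 1‖ ≤ ε` for all `n : ℤ`.
Finally `D (p ^ k * l)` is the product over `a` of `D (p ^ k * l a e_a)`, each within `ε` of `1`.

`pcont_bdd` : choose `k` for `ε = 1`; `l = l0 + p ^ k * l1` with `0 ≤ l0 a < p ^ k`,
`D l = D l0 * D (p ^ k * l1)`, and `D l0` takes finitely many values.
-/

namespace Pool.Agent.Work.MP_6d379e_ag.Ab

variable {ι : Type*} [Fintype ι] [DecidableEq ι]
variable {K : Type*} [NontriviallyNormedField K] [IsUltrametricDist K] [CharZero K]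
variable {r : ℕ} {p : ℕ}

/-- all entries are at most `C` -/
private def EL (C : ℝ) (A : Matrix (Fin r) (Fin r) K) : Prop := ∀ i j, ‖A i j‖ ≤ C

omit [CharZero K] in
private theorem el_mul {C C' : ℝ} {A B : Matrix (Fin r) (Fin r) K} (hC : 0 ≤ C) (hC' : 0 ≤ C')
    (hA : EL C A) (hB : EL C' B) : EL (C * C') (A * B) := by
  intro i j
  rw [Matrix.mul_apply]
  refine IsUltrametricDist.norm_sum_le_of_forall_le_of_nonneg (mul_nonneg hC hC') fun k _ => ?_
  rw [norm_mul]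
  exact mul_le_mul (hA i k) (hB k j) (norm_nonneg _) hC

omit [CharZero K] in
private theorem el_add {C : ℝ} {A B : Matrix (Fin r) (Fin r) K} (hA : EL C A) (hB : EL C B) :
    EL C (A + B) := by
  intro i j
  rw [Matrix.add_apply]
  exact (IsUltrametricDist.norm_add_le_max _ _).trans (max_le (hA i j) (hB i j))

omit [IsUltrametricDist K] [CharZero K] in
private theorem el_neg {C : ℝ} {A : Matrix (Fin r) (Fin r) K} (hA : EL C A) : EL C (-A) := by
  intro i j
  rw [Matrix.neg_apply, norm_neg]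
  exact hA i j

omit [IsUltrametricDist K] [CharZero K] in
private theorem el_mono {C C' : ℝ} {A : Matrix (Fin r) (Fin r) K} (h : C ≤ C') (hA : EL C A) :
    EL C' A := fun i j => (hA i j).trans h

omit [IsUltrametricDist K] [CharZero K] in
private theorem el_one : EL 1 (1 : Matrix (Fin r) (Fin r) K) := by
  intro i j
  by_cases h : i = j
  · rw [h, Matrix.one_apply_eq, norm_one]
  · rw [Matrix.one_apply_ne h, norm_zero]
    exact zero_le_one

omit [CharZero K] in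
private theorem el_of_sub {C : ℝ} {A : Matrix (Fin r) (Fin r) K} (h : EL C (A - 1)) :
    EL (max C 1) A := by
  have h1 := el_add (el_mono (le_max_left C 1) h) (el_mono (le_max_right C 1) el_one)
  rw [sub_add_cancel] at h1
  exact h1

omit [IsUltrametricDist K] [CharZero K] in
private theorem el_ex (A : Matrix (Fin r) (Fin r) K) : ∃ C : ℝ, 0 ≤ C ∧ EL C A := by
  refine ⟨∑ i, ∑ j, ‖A i j‖, Finset.sum_nonneg fun i _ => Finset.sum_nonneg fun j _ =>
    norm_nonneg _, fun i j => ?_⟩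
  have h1 : ‖A i j‖ ≤ ∑ j, ‖A i j‖ :=
    Finset.single_le_sum (f := fun j => ‖A i j‖) (fun k _ => norm_nonneg _) (Finset.mem_univ j)
  have h2 : ∑ j, ‖A i j‖ ≤ ∑ i, ∑ j, ‖A i j‖ :=
    Finset.single_le_sum (f := fun i => ∑ j, ‖A i j‖)
      (fun k _ => Finset.sum_nonneg fun j _ => norm_nonneg _) (Finset.mem_univ i)
  exact h1.trans h2

omit [CharZero K] in
/-- the inverse of a matrix close to one is close to one -/
private theorem el_inv {ε : ℝ} (h0 : 0 ≤ ε) (h1 : ε < 1) {A A' : Matrix (Fin r) (Fin r) K}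
    (hA : A * A' = 1) (h : EL ε (A - 1)) : EL ε (A' - 1) := by
  obtain ⟨M, hM0, hM⟩ := el_ex A'
  have key : A' - 1 = -((A - 1) * A') := by
    rw [sub_mul, hA, one_mul]
    abel
  have h2 : ∀ n : ℕ, EL (max 1 (ε ^ n * M)) A' := by
    intro n
    induction n with
    | zero =>
      rw [pow_zero, one_mul]
      exact el_mono (le_max_right _ _) hM
    | succ n ih =>
      have h3 := el_neg (el_mul h0 (zero_le_one.trans (le_max_left _ _)) h ih)
      rw [← key] at h3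
      refine el_mono ?_ (el_of_sub h3)
      refine max_le ?_ (le_max_left _ _)
      rcases le_total (ε ^ n * M) 1 with h4 | h4
      · rw [max_eq_left h4, mul_one]
        exact h1.le.trans (le_max_left _ _)
      · rw [max_eq_right h4, pow_succ']
        have h5 : ε * (ε ^ n * M) = ε * ε ^ n * M := by ring
        rw [h5]
        exact le_max_right _ _
  obtain ⟨n, hn⟩ : ∃ n : ℕ, ε ^ n * M ≤ 1 := by
    obtain ⟨n, hn⟩ := exists_pow_lt_of_lt_one (show (0 : ℝ) < (M + 1)⁻¹ by positivity) h1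
    refine ⟨n, ?_⟩
    have h3 : ε ^ n * M ≤ (M + 1)⁻¹ * M := mul_le_mul_of_nonneg_right hn.le hM0
    have h4 : (M + 1)⁻¹ * M ≤ 1 := by
      rw [inv_mul_le_iff₀ (by positivity)]
      linarith
    linarith
  have h3 := h2 n
  rw [max_eq_left hn] at h3
  have h4 := el_neg (el_mul h0 zero_le_one h h3)
  rw [mul_one, ← key] at h4
  exact h4

omit [IsUltrametricDist K] [CharZero K] in
private theorem pow_expand (X : Matrix (Fin r) (Fin r) K) (n : ℕ) :
    (X + 1) ^ n - 1 = ∑ j ∈ Finset.range n, (n.choose (j + 1) : K) • X ^ (j + 1) := by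
  rw [(Commute.one_right X).add_pow n, Finset.sum_range_succ']
  simp only [one_pow, mul_one, pow_zero, Nat.choose_zero_right, Nat.cast_one, add_sub_cancel_right]
  refine Finset.sum_congr rfl fun j _ => ?_
  rw [Nat.cast_smul_eq_nsmul, nsmul_eq_mul']

/-- powers of a topologically unipotent matrix tend to one -/
private theorem pow_tend (hp : p.Prime) (hlt : ‖(p : K)‖ < 1) {E : Matrix (Fin r) (Fin r) K}
    (hE : TopU E) {ε : ℝ} (hε : 0 < ε) : ∃ k0 : ℕ, ∀ k, k0 ≤ k → EL ε (E ^ (p ^ k) - 1) := by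
  obtain ⟨n0, hn0⟩ := hE ε hε
  choose M hM0 hM using fun n : ℕ => el_ex ((E - 1) ^ n)
  have hC0 : 0 ≤ ∑ n ∈ Finset.range (n0 + 1), M n := Finset.sum_nonneg fun n _ => hM0 n
  have hc0 : 0 ≤ ∑ j ∈ Finset.range (n0 + 1), ‖((j + 1 : ℕ) : K)‖⁻¹ :=
    Finset.sum_nonneg fun n _ => inv_nonneg.2 (norm_nonneg _)
  set C := ∑ n ∈ Finset.range (n0 + 1), M n
  set c := ∑ j ∈ Finset.range (n0 + 1), ‖((j + 1 : ℕ) : K)‖⁻¹
  obtain ⟨k0, hk0⟩ := exists_pow_lt_of_lt_one (show (0 : ℝ) < ε / (c * C + 1) by positivity) hlt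
  refine ⟨k0, fun k hk => ?_⟩
  have hpk : ‖(p : K)‖ ^ k * (c * C) ≤ ε := by
    have h1 : ‖(p : K)‖ ^ k ≤ ‖(p : K)‖ ^ k0 :=
      pow_le_pow_of_le_one (norm_nonneg _) hlt.le hk
    have h2 : ‖(p : K)‖ ^ k ≤ ε / (c * C + 1) := h1.trans hk0.le
    have h3 : 0 ≤ c * C := mul_nonneg hc0 hC0
    have h4 : ‖(p : K)‖ ^ k * (c * C) ≤ ε / (c * C + 1) * (c * C) :=
      mul_le_mul_of_nonneg_right h2 h3
    have h5 : ε / (c * C + 1) * (c * C) ≤ ε := by
      rw [div_mul_eq_mul_div, div_le_iff₀ (by positivity)]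
      nlinarith
    linarith
  have hX : E = (E - 1) + 1 := by rw [sub_add_cancel]
  have hexp : E ^ (p ^ k) - 1 = ∑ j ∈ Finset.range (p ^ k),
      ((p ^ k).choose (j + 1) : K) • (E - 1) ^ (j + 1) := by
    rw [← pow_expand, ← hX]
  rw [hexp]
  intro i i'
  rw [Matrix.sum_apply]
  refine IsUltrametricDist.norm_sum_le_of_forall_le_of_nonneg hε.le fun j hj => ?_
  rw [Matrix.smul_apply, smul_eq_mul, norm_mul]
  rcases le_or_gt n0 (j + 1) with h1 | h1
  · have h2 : ‖((p ^ k).choose (j + 1) : K)‖ ≤ 1 := IsUltrametricDist.norm_natCast_le_one K _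
    have h3 := hn0 (j + 1) h1 i i'
    calc _ ≤ 1 * ε := mul_le_mul h2 h3 (norm_nonneg _) zero_le_one
      _ = ε := one_mul ε
  · have hj1 : ((j + 1 : ℕ) : K) ≠ 0 := Nat.cast_ne_zero.2 (Nat.succ_ne_zero j)
    have hjn : 0 < ‖((j + 1 : ℕ) : K)‖ := norm_pos_iff.2 hj1
    have h2 : ‖((p ^ k).choose (j + 1) : K)‖ ≤ ‖(p : K)‖ ^ k * c := by
      obtain ⟨n, hn⟩ : ∃ n, p ^ k = n + 1 :=
        ⟨p ^ k - 1, (Nat.sub_add_cancel (Nat.one_le_pow _ _ hp.pos)).symm⟩
      have h3 : (p ^ k) * n.choose j = (p ^ k).choose (j + 1) * (j + 1) := by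
        rw [hn]
        exact Nat.add_one_mul_choose_eq n j
      have h4 : ‖(p : K)‖ ^ k * ‖(n.choose j : K)‖ =
          ‖((p ^ k).choose (j + 1) : K)‖ * ‖((j + 1 : ℕ) : K)‖ := by
        rw [← norm_pow, ← norm_mul, ← norm_mul]
        exact_mod_cast congrArg (fun x : ℕ => ‖(x : K)‖) h3
      have h5 : ‖(n.choose j : K)‖ ≤ 1 := IsUltrametricDist.norm_natCast_le_one K _
      have h6 : ‖((p ^ k).choose (j + 1) : K)‖ * ‖((j + 1 : ℕ) : K)‖ ≤ ‖(p : K)‖ ^ k := by
        rw [← h4]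
        calc _ ≤ ‖(p : K)‖ ^ k * 1 :=
              mul_le_mul_of_nonneg_left h5 (pow_nonneg (norm_nonneg _) _)
          _ = _ := mul_one _
      have h7 : ‖((p ^ k).choose (j + 1) : K)‖ ≤ ‖(p : K)‖ ^ k * ‖((j + 1 : ℕ) : K)‖⁻¹ := by
        rw [← div_eq_mul_inv, le_div_iff₀ hjn]
        exact h6
      refine h7.trans (mul_le_mul_of_nonneg_left ?_ (pow_nonneg (norm_nonneg _) _))
      exact Finset.single_le_sum (f := fun j : ℕ => ‖((j + 1 : ℕ) : K)‖⁻¹)
        (fun n _ => inv_nonneg.2 (norm_nonneg _)) (Finset.mem_range.2 (by omega))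
    have h3 : ‖((E - 1) ^ (j + 1)) i i'‖ ≤ C := by
      refine (hM (j + 1) i i').trans ?_
      exact Finset.single_le_sum (f := fun n : ℕ => M n)
        (fun n _ => hM0 n) (Finset.mem_range.2 (by omega))
    calc _ ≤ (‖(p : K)‖ ^ k * c) * C := mul_le_mul h2 h3 (norm_nonneg _)
          (mul_nonneg (pow_nonneg (norm_nonneg _) _) hc0)
      _ = ‖(p : K)‖ ^ k * (c * C) := by ring
      _ ≤ ε := hpk

/-- the subgroup of the elements at which the representation is close to one -/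
private def GG {D : (ι → ℤ) → Matrix (Fin r) (Fin r) K} (h1 : D 0 = 1)
    (h2 : ∀ l l', D (l + l') = D l * D l') {ε : ℝ} (hε : 0 < ε) (hε1 : ε < 1) :
    AddSubgroup (ι → ℤ) where
  carrier := {l | EL ε (D l - 1)}
  zero_mem' := by
    show EL ε (D 0 - 1)
    rw [h1, sub_self]
    intro i j
    rw [Matrix.zero_apply, norm_zero]
    exact hε.le
  add_mem' := by
    intro l l' hl hl'
    show EL ε (D (l + l') - 1)
    have h3 : D (l + l') - 1 = (D l - 1) * D l' + (D l' - 1) := by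
      rw [h2, sub_mul, one_mul]
      abel
    rw [h3]
    have h4 : EL 1 (D l') := by
      have h5 := el_of_sub hl'
      rw [max_eq_right hε1.le] at h5
      exact h5
    have h6 := el_mul hε.le zero_le_one hl h4
    rw [mul_one] at h6
    exact el_add h6 hl'
  neg_mem' := by
    intro l hl
    show EL ε (D (-l) - 1)
    refine el_inv hε.le hε1 (A := D l) ?_ hl
    rw [← h2, add_neg_cancel, h1]

omit [Fintype ι] [IsUltrametricDist K] [CharZero K] in
private theorem D_single {D : (ι → ℤ) → Matrix (Fin r) (Fin r) K} (h1 : D 0 = 1)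
    (h2 : ∀ l l', D (l + l') = D l * D l') (a : ι) (n : ℕ) :
    D (Pi.single a (n : ℤ)) = D (Pi.single a 1) ^ n := by
  induction n with
  | zero =>
    rw [Nat.cast_zero, Pi.single_zero, h1, pow_zero]
  | succ n ih =>
    rw [Nat.cast_succ, Pi.single_add, h2, ih, pow_succ]

theorem pcont_of_topU (hp : p.Prime) (hlt : ‖(p : K)‖ < 1)
    {D : (ι → ℤ) → Matrix (Fin r) (Fin r) K} (h1 : D 0 = 1)
    (h2 : ∀ l l', D (l + l') = D l * D l') (h : ∀ a : ι, TopU (D (Pi.single a 1))) :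
    PCont p D := by
  refine ⟨h1, h2, fun ε hε => ?_⟩
  have hε' : 0 < min ε (1 / 2) := lt_min hε (by norm_num)
  have hε1 : min ε (1 / 2) < 1 := lt_of_le_of_lt (min_le_right _ _) (by norm_num)
  choose k0 hk0 using fun a : ι => pow_tend hp hlt (h a) hε'
  refine ⟨∑ a, k0 a, fun l => ?_⟩
  have hmem : ∀ a, (Pi.single a (((p ^ (∑ a, k0 a) : ℕ)) : ℤ) : ι → ℤ) ∈
      GG h1 h2 hε' hε1 := by
    intro a
    show EL _ (D (Pi.single a _) - 1)
    rw [D_single h1 h2]
    exact hk0 a _ (Finset.single_le_sum (f := k0) (fun _ _ => Nat.zero_le _) (Finset.mem_univ a))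
  have hsum0 : ∀ q : ℤ, (fun a => q * l a) = ∑ a, l a • (Pi.single a q : ι → ℤ) := by
    intro q
    funext b
    rw [Finset.sum_apply, Finset.sum_eq_single b]
    · rw [Pi.smul_apply, Pi.single_eq_same, smul_eq_mul, mul_comm]
    · intro a _ hab
      rw [Pi.smul_apply, Pi.single_eq_of_ne (Ne.symm hab), smul_zero]
    · intro hb
      exact absurd (Finset.mem_univ b) hb
  have hsum : (fun a => (p : ℤ) ^ (∑ a, k0 a) * l a) =
      ∑ a, l a • (Pi.single a (((p ^ (∑ a, k0 a) : ℕ)) : ℤ) : ι → ℤ) := by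
    rw [← hsum0, Nat.cast_pow]
  have h3 : (fun a => (p : ℤ) ^ (∑ a, k0 a) * l a) ∈ GG h1 h2 hε' hε1 := by
    rw [hsum]
    exact AddSubgroup.sum_mem _ fun a _ => AddSubgroup.zsmul_mem _ (hmem a) (l a)
  intro i j
  exact (h3 i j).trans (min_le_left _ _)

theorem pcont_bdd (hp : p.Prime) {D : (ι → ℤ) → Matrix (Fin r) (Fin r) K} (h : PCont p D) :
    ∃ C : ℝ, ∀ l i j, ‖(D l) i j‖ ≤ C := by
  obtain ⟨k, hk⟩ := h.cont 1 one_pos
  choose M hM0 hM using fun l : ι → ℤ => el_ex (D l)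
  have hfin : (Set.univ.pi fun _ : ι => Set.Ico (0 : ℤ) ((p : ℤ) ^ k)).Finite :=
    Set.Finite.pi fun _ => Set.finite_Ico _ _
  refine ⟨∑ l ∈ hfin.toFinset, M l, fun l => ?_⟩
  have hq : (0 : ℤ) < (p : ℤ) ^ k := by
    have := hp.pos
    positivity
  have h1 : l = (fun a => l a % (p : ℤ) ^ k) + fun a => (p : ℤ) ^ k * (l a / (p : ℤ) ^ k) := by
    funext a
    exact (Int.emod_add_mul_ediv (l a) _).symm
  have h2 : EL 1 (D fun a => (p : ℤ) ^ k * (l a / (p : ℤ) ^ k)) := by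
    have h3 : EL 1 (D (fun a => (p : ℤ) ^ k * (l a / (p : ℤ) ^ k)) - 1) := hk _
    have h4 := el_of_sub h3
    rw [max_self] at h4
    exact h4
  have h3 := el_mul (hM0 _) zero_le_one (hM fun a => l a % (p : ℤ) ^ k) h2
  rw [mul_one, ← h.mul, ← h1] at h3
  refine el_mono ?_ h3
  refine Finset.single_le_sum (f := M) (fun k _ => hM0 k) ?_
  rw [Set.Finite.mem_toFinset]
  intro a _
  exact ⟨Int.emod_nonneg _ hq.ne', Int.emod_lt_of_pos _ hq⟩

end Pool.Agent.Work.MP_6d379e_ag.Ab
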