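import Pool.Agent.Work.MP_6d379e_ag.Ab.PAlg
import Pool.Agent.Work.MP_6d379e_ag.Ab.PTop

/-!
# Trivialization of a p-adically continuous representation on the tower   (size M-L)

For `k : ℕ` and `(t, a) ∈ Y` let `l_k = l_k (t, a)` be the unique `l` with `0 ≤ l i < p ^ k` such that
`t = lat m l * τ ^ (p ^ k)`, `a.1 (p ^ k) = mk τ` for some `τ` (`til_rep_box`; uniqueness modulo
`p ^ k` of any `l` with this property: two choices `(l, τ)`, `(l', τ')` have `τ' = lat m l'' * τ`,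
so `l = l' + p ^ k * l''` by injectivity).
* `l_k` depends only on `t` and `a.1 (p ^ k)`, and on the component
  `τ ↦ (lat m l * τ ^ (p ^ k), mk τ)` it is constant (the residue of `l`).  So `D (l_k)` is a matrix
  of functions of level `p ^ k`.
* `l_{k'} ≡ l_k` modulo `p ^ k` for `k ≤ k'`: if `t = lat m l' * τ' ^ (p ^ k')`,
  `a.1 (p ^ k') = mk τ'`, then `a.1 (p ^ k) = mk (τ' ^ (p ^ (k' - k)))`, so `l'` is an admissible
  choice for `k`.
* `l_k (lat m l0 * t, a) ≡ l_k (t, a) + l0` modulo `p ^ k`.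
If `l ≡ l'` modulo `p ^ k` then `D l = D l' * D (p ^ k * v)`; so with `C` from `pcont_bdd`
the matrices `D (l_k)` form a uniform Cauchy sequence on `Y`.  Let `h t a` be the limit
(`lim` of each entry; `0`, say, outside `Y`), it is a uniform limit on `Y` of functions of finite
level: `YAn` by `yAn_lim`.  Same for `hi` with `D (-l_k)`.  `D l_k * D (-l_k) = 1` gives
`h * hi = 1 = hi * h`; `D (l_k (lat m l0 * t, a))` and `D l0 * D (l_k (t, a))` have the same limit.
-/

namespace Pool.Agent.Work.MP_6d379e_ag.Ab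

variable {ι : Type*} [Fintype ι] [DecidableEq ι]
variable {K : Type*} [NontriviallyNormedField K] [IsUltrametricDist K] [CharZero K]
variable [CompleteSpace K] {m : ι → Tor ι K} {r : ℕ} {p : ℕ}

open Filter Topology

open Classical in
/-- the residue modulo `p ^ k` of the position -/
private noncomputable def ppL (m : ι → Tor ι K) (p k : ℕ) (t : Tor ι K) (α : Abl m) : ι → ℤ :=
  if h : ∃ l : ι → ℤ, ∃ τ : Tor ι K, t = lat m l * τ ^ (p ^ k) ∧ α = QuotientGroup.mk τ then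
    fun i => h.choose i % (p : ℤ) ^ k else 0

private theorem pp_lat_nsmul (m : ι → Tor ι K) (l : ι → ℤ) (N : ℕ) :
    lat m (fun i => (N : ℤ) * l i) = lat m l ^ N := by
  show (∏ i, m i ^ ((N : ℤ) * l i)) = (∏ i, m i ^ l i) ^ N
  rw [← Finset.prod_pow]
  refine Finset.prod_congr rfl fun i _ => ?_
  rw [mul_comm, zpow_mul, zpow_natCast]

/-- the residue of the position is well defined -/
private theorem ppL_spec (hinj : ∀ l, lat m l = 1 → l = 0) (k : ℕ) {t : Tor ι K} {α : Abl m}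
    {l : ι → ℤ} {τ : Tor ι K} (ht : t = lat m l * τ ^ (p ^ k)) (hα : α = QuotientGroup.mk τ) :
    ppL m p k t α = fun i => l i % (p : ℤ) ^ k := by
  have h : ∃ l : ι → ℤ, ∃ τ : Tor ι K, t = lat m l * τ ^ (p ^ k) ∧ α = QuotientGroup.mk τ :=
    ⟨l, τ, ht, hα⟩
  unfold ppL
  rw [dif_pos h]
  obtain ⟨τ', ht', hα'⟩ := h.choose_spec
  obtain ⟨w, hw⟩ := (mk_eq_iff (m := m) τ τ').1 (hα.symm.trans hα')
  set l' := h.choose with hl'
  have h1 : lat m (l + (fun i => ((p ^ k : ℕ) : ℤ) * w i) + -l') = 1 := by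
    rw [lat_add, lat_add, lat_neg, pp_lat_nsmul]
    have h2 : lat m l * lat m w ^ (p ^ k) * τ' ^ (p ^ k) = lat m l' * τ' ^ (p ^ k) := by
      rw [← ht', ht, hw, mul_pow, mul_assoc]
    have h3 := mul_right_cancel h2
    rw [h3, mul_inv_cancel]
  have h4 := hinj _ h1
  funext i
  have h5 := congrFun h4 i
  simp only [Pi.add_apply, Pi.neg_apply, Pi.zero_apply] at h5
  have h6 : l' i = l i + (p : ℤ) ^ k * w i := by
    push_cast at h5
    linarith
  show l' i % (p : ℤ) ^ k = l i % (p : ℤ) ^ k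
  rw [h6, Int.add_mul_emod_self_left]

/-- the level `p ^ k` -/
private def ppN (hp : p.Prime) (k : ℕ) : ℕ+ := ⟨p ^ k, pow_pos hp.pos k⟩

private theorem ppN_coe (hp : p.Prime) (k : ℕ) : ((ppN hp k : ℕ+) : ℕ) = p ^ k := rfl

private theorem pp_lev (hinj : ∀ l, lat m l = 1 → l = 0) (hp : p.Prime) (k : ℕ)
    (F : (ι → ℤ) → K) : LevAn m (ppN hp k) fun t α => F (ppL m p k t α) := by
  intro l
  have h : (fun τ : Tor ι K => F (ppL m p k (lat m l * τ ^ ((ppN hp k : ℕ+) : ℕ))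
      (QuotientGroup.mk τ))) = fun _ => F fun i => l i % (p : ℤ) ^ k := by
    funext τ
    rw [ppN_coe, ppL_spec (p := p) hinj k (l := l) (τ := τ) rfl rfl]
  rw [h]
  exact ana_const _

/-- the position of a point of `Y` -/
private noncomputable def ppM (hp : p.Prime) (t : Tor ι K) (a : Til m) (k : ℕ) : ι → ℤ :=
  ppL m p k t (a.1 (ppN hp k))

private theorem ppM_spec (hinj : ∀ l, lat m l = 1 → l = 0) (hp : p.Prime) {t : Tor ι K} {a : Til m}
    (h : a.1 1 = QuotientGroup.mk t) (k' : ℕ) :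
    ∃ l : ι → ℤ, (∀ k ≤ k', ppM hp t a k = fun i => l i % (p : ℤ) ^ k) ∧
      ∀ l0 : ι → ℤ, ppM hp (lat m l0 * t) a k' = fun i => (l0 i + l i) % (p : ℤ) ^ k' := by
  obtain ⟨l, τ, h1, h2⟩ := til_rep a h (ppN hp k')
  rw [ppN_coe] at h1
  refine ⟨l, ?_, ?_⟩
  · intro k hk
    have h3 : a.1 (ppN hp k) = QuotientGroup.mk (τ ^ (p ^ (k' - k))) := by
      have h4 := a.2 (ppN hp k) (ppN hp (k' - k))
      have h5 : ppN hp k * ppN hp (k' - k) = ppN hp k' := by
        apply PNat.eq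
        rw [PNat.mul_coe, ppN_coe, ppN_coe, ppN_coe, ← pow_add, Nat.add_sub_cancel' hk]
      rw [h5, h2, ppN_coe] at h4
      rw [← h4]
      rfl
    exact ppL_spec hinj k (l := l) (τ := τ ^ (p ^ (k' - k)))
      (by rw [h1, ← pow_mul, ← pow_add, Nat.sub_add_cancel hk]) h3
  · intro l0
    have h3 : lat m l0 * t = lat m (l0 + l) * τ ^ (p ^ k') := by
      rw [lat_add, h1, mul_assoc]
    exact ppL_spec hinj k' (l := l0 + l) (τ := τ) h3 h2

private theorem pp_mul_le {A B : Matrix (Fin r) (Fin r) K} {C ε : ℝ} (hC : 0 ≤ C) (hε : 0 ≤ ε)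
    (hA : ∀ i j, ‖A i j‖ ≤ C) (hB : ∀ i j, ‖B i j‖ ≤ ε) (i j : Fin r) : ‖(A * B) i j‖ ≤ C * ε := by
  rw [Matrix.mul_apply]
  refine IsUltrametricDist.norm_sum_le_of_forall_le_of_nonneg (mul_nonneg hC hε) fun s _ => ?_
  rw [norm_mul]
  exact mul_le_mul (hA i s) (hB s j) (norm_nonneg _) hC

/-- congruent positions have close matrices -/
private theorem pp_close (hp : p.Prime) {D : (ι → ℤ) → Matrix (Fin r) (Fin r) K} (hD : PCont p D)
    {ε : ℝ} (hε : 0 < ε) : ∃ k0 : ℕ, ∀ k, k0 ≤ k → ∀ l l' : ι → ℤ,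
      (∀ i, (p : ℤ) ^ k ∣ l' i - l i) → ∀ i j, ‖(D l' - D l) i j‖ ≤ ε := by
  obtain ⟨C, hC⟩ := pcont_bdd hp hD
  have hC1 : 0 < max C 1 := lt_of_lt_of_le one_pos (le_max_right _ _)
  obtain ⟨k0, hk0⟩ := hD.cont (ε / max C 1) (div_pos hε hC1)
  refine ⟨k0, fun k hk l l' hl i j => ?_⟩
  choose w hw using hl
  have h1 : l' = l + fun i => (p : ℤ) ^ k0 * ((p : ℤ) ^ (k - k0) * w i) := by
    funext i
    have h2 := hw i
    have h3 : (p : ℤ) ^ k = (p : ℤ) ^ k0 * (p : ℤ) ^ (k - k0) := by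
      rw [← pow_add, Nat.add_sub_cancel' hk]
    rw [h3] at h2
    show l' i = l i + (p : ℤ) ^ k0 * ((p : ℤ) ^ (k - k0) * w i)
    linarith
  have h4 : D l' - D l = D l * (D (fun i => (p : ℤ) ^ k0 * ((p : ℤ) ^ (k - k0) * w i)) - 1) := by
    rw [h1, hD.mul, mul_sub, mul_one]
  rw [h4]
  have h5 := pp_mul_le (C := max C 1) (ε := ε / max C 1) hC1.le (div_pos hε hC1).le
    (fun i j => (hC l i j).trans (le_max_left _ _))
    (fun i j => hk0 (fun a => (p : ℤ) ^ (k - k0) * w a) i j) i j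
  rw [mul_div_cancel₀ _ hC1.ne'] at h5
  exact h5

omit [IsUltrametricDist K] [CharZero K] [CompleteSpace K] in
private theorem pp_tend {F : ℕ → Matrix (Fin r) (Fin r) K} {M : Matrix (Fin r) (Fin r) K} :
    Tendsto F atTop (𝓝 M) ↔ ∀ i j, Tendsto (fun k => F k i j) atTop (𝓝 (M i j)) := by
  have e : Tendsto F atTop (𝓝 M) ↔ ∀ i, Tendsto (fun k => F k i) atTop (𝓝 (M i)) := tendsto_pi_nhds
  rw [e]
  exact forall_congr' fun i => tendsto_pi_nhds

/-- uniform limits on `Y` -/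
private theorem pp_lim (F : ℕ → Tor ι K → Til m → Matrix (Fin r) (Fin r) K)
    (hF : ∀ ε : ℝ, 0 < ε → ∃ k0 : ℕ, ∀ k k', k0 ≤ k → k ≤ k' → ∀ (t : Tor ι K) (a : Til m),
      a.1 1 = QuotientGroup.mk t → ∀ i j, ‖(F k' t a - F k t a) i j‖ ≤ ε) :
    ∃ h : Tor ι K → Til m → Matrix (Fin r) (Fin r) K,
      (∀ ε : ℝ, 0 < ε → ∃ k0 : ℕ, ∀ k, k0 ≤ k → ∀ (t : Tor ι K) (a : Til m),
        a.1 1 = QuotientGroup.mk t → ∀ i j, ‖h t a i j - F k t a i j‖ ≤ ε) ∧
      ∀ (t : Tor ι K) (a : Til m), a.1 1 = QuotientGroup.mk t →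
        Tendsto (fun k => F k t a) atTop (𝓝 (h t a)) := by
  have h1 : ∀ (t : Tor ι K) (a : Til m), ∃ M : Matrix (Fin r) (Fin r) K,
      a.1 1 = QuotientGroup.mk t → ∀ i j, Tendsto (fun k => F k t a i j) atTop (𝓝 (M i j)) := by
    intro t a
    by_cases hY : a.1 1 = QuotientGroup.mk t
    · have h2 : ∀ i j, ∃ x : K, Tendsto (fun k => F k t a i j) atTop (𝓝 x) := by
        intro i j
        apply cauchySeq_tendsto_of_complete
        rw [Metric.cauchySeq_iff']
        intro ε hε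
        obtain ⟨k0, hk0⟩ := hF (ε / 2) (half_pos hε)
        refine ⟨k0, fun k hk => ?_⟩
        have h3 := hk0 k0 k le_rfl hk t a hY i j
        rw [Matrix.sub_apply] at h3
        rw [dist_eq_norm]
        linarith
      choose M hM using h2
      exact ⟨fun i j => M i j, fun _ i j => hM i j⟩
    · exact ⟨0, fun h => absurd h hY⟩
  choose h hh using h1
  refine ⟨h, ?_, ?_⟩
  · intro ε hε
    obtain ⟨k0, hk0⟩ := hF ε hε
    refine ⟨k0, fun k hk t a hY i j => ?_⟩
    have h2 : Tendsto (fun k' => ‖F k' t a i j - F k t a i j‖) atTop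
        (𝓝 ‖h t a i j - F k t a i j‖) := ((hh t a hY i j).sub_const _).norm
    refine le_of_tendsto h2 ?_
    filter_upwards [eventually_ge_atTop k] with k' hk'
    have h3 := hk0 k k' hk hk' t a hY i j
    rwa [Matrix.sub_apply] at h3
  · intro t a hY
    rw [pp_tend]
    exact hh t a hY

theorem exists_pow (hinj : ∀ l, lat m l = 1 → l = 0) (hp : p.Prime)
    {D : (ι → ℤ) → Matrix (Fin r) (Fin r) K} (hD : PCont p D) :
    ∃ h hi : Tor ι K → Til m → Matrix (Fin r) (Fin r) K,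
      (∀ i j, YAn m fun t a => h t a i j) ∧ (∀ i j, YAn m fun t a => hi t a i j) ∧
      ∀ (t : Tor ι K) (a : Til m), a.1 1 = QuotientGroup.mk t →
        h t a * hi t a = 1 ∧ hi t a * h t a = 1 ∧
        ∀ l, h (lat m l * t) a = D l * h t a := by
  -- the uniform Cauchy property
  have hcong : ∀ (t : Tor ι K) (a : Til m), a.1 1 = QuotientGroup.mk t → ∀ k k', k ≤ k' →
      ∀ i, (p : ℤ) ^ k ∣ ppM hp t a k' i - ppM hp t a k i := by
    intro t a hY k k' hk i
    obtain ⟨l, hl, _⟩ := ppM_spec hinj hp hY k'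
    rw [hl k' le_rfl, hl k hk]
    show (p : ℤ) ^ k ∣ l i % (p : ℤ) ^ k' - l i % (p : ℤ) ^ k
    have h1 : (p : ℤ) ^ k ∣ l i % (p : ℤ) ^ k' - l i := by
      have h2 : (p : ℤ) ^ k' ∣ l i % (p : ℤ) ^ k' - l i := by
        have h3 := Int.emod_add_mul_ediv (l i) ((p : ℤ) ^ k')
        exact ⟨-(l i / (p : ℤ) ^ k'), by linarith⟩
      exact (pow_dvd_pow _ hk).trans h2
    have h4 : (p : ℤ) ^ k ∣ l i - l i % (p : ℤ) ^ k := by
      have h3 := Int.emod_add_mul_ediv (l i) ((p : ℤ) ^ k)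
      exact ⟨l i / (p : ℤ) ^ k, by linarith⟩
    have h5 := dvd_add h1 h4
    have h6 : l i % (p : ℤ) ^ k' - l i + (l i - l i % (p : ℤ) ^ k) =
        l i % (p : ℤ) ^ k' - l i % (p : ℤ) ^ k := by ring
    rwa [h6] at h5
  obtain ⟨h, hu, ht⟩ := pp_lim (fun k t a => D (ppM hp t a k)) (by
    intro ε hε
    obtain ⟨k0, hk0⟩ := pp_close hp hD hε
    exact ⟨k0, fun k k' hk hkk' t a hY => hk0 k hk _ _ (hcong t a hY k k' hkk')⟩)
  obtain ⟨hi, hiu, hit⟩ := pp_lim (fun k t a => D (-ppM hp t a k)) (by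
    intro ε hε
    obtain ⟨k0, hk0⟩ := pp_close hp hD hε
    refine ⟨k0, fun k k' hk hkk' t a hY => hk0 k hk _ _ fun i => ?_⟩
    have h1 := (hcong t a hY k k' hkk' i).neg_right
    have h2 : -(ppM hp t a k' i - ppM hp t a k i) = (-ppM hp t a k') i - (-ppM hp t a k) i := by
      simp only [Pi.neg_apply]
      ring
    rwa [h2] at h1)
  refine ⟨h, hi, ?_, ?_, ?_⟩
  · intro i j
    refine yAn_lim fun ε hε => ?_
    obtain ⟨k0, hk0⟩ := hu ε hε
    exact ⟨fun t a => D (ppM hp t a k0) i j,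
      yAn_of_lev (pp_lev hinj hp k0 fun l => D l i j), fun t a hY => hk0 k0 le_rfl t a hY i j⟩
  · intro i j
    refine yAn_lim fun ε hε => ?_
    obtain ⟨k0, hk0⟩ := hiu ε hε
    exact ⟨fun t a => D (-ppM hp t a k0) i j,
      yAn_of_lev (pp_lev hinj hp k0 fun l => D (-l) i j), fun t a hY => hk0 k0 le_rfl t a hY i j⟩
  · intro t a hY
    refine ⟨?_, ?_, ?_⟩
    · have h1 := (ht t a hY).mul (hit t a hY)
      refine tendsto_nhds_unique h1 ?_
      have h2 : (fun k => D (ppM hp t a k) * D (-ppM hp t a k)) = fun _ => 1 := by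
        funext k
        rw [← hD.mul, add_neg_cancel, hD.one]
      rw [h2]
      exact tendsto_const_nhds
    · have h1 := (hit t a hY).mul (ht t a hY)
      refine tendsto_nhds_unique h1 ?_
      have h2 : (fun k => D (-ppM hp t a k) * D (ppM hp t a k)) = fun _ => 1 := by
        funext k
        rw [← hD.mul, neg_add_cancel, hD.one]
      rw [h2]
      exact tendsto_const_nhds
    · intro l0
      have hY' : a.1 1 = QuotientGroup.mk (lat m l0 * t) := by rw [hY, mk_lat_mul]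
      have h1 := ht (lat m l0 * t) a hY'
      have h2 : Tendsto (fun k => D l0 * D (ppM hp t a k)) atTop (𝓝 (D l0 * h t a)) :=
        tendsto_const_nhds.mul (ht t a hY)
      have h3 : Tendsto (fun k => D (ppM hp (lat m l0 * t) a k) - D l0 * D (ppM hp t a k)) atTop
          (𝓝 0) := by
        rw [pp_tend]
        intro i j
        rw [Metric.tendsto_atTop]
        intro ε hε
        obtain ⟨k0, hk0⟩ := pp_close hp hD (half_pos hε)
        refine ⟨k0, fun k hk => ?_⟩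
        obtain ⟨l, hl, hl2⟩ := ppM_spec hinj hp hY k
        have h4 : ∀ i, (p : ℤ) ^ k ∣ ppM hp (lat m l0 * t) a k i - (l0 + ppM hp t a k) i := by
          intro i
          rw [hl2 l0, Pi.add_apply, hl k le_rfl]
          show (p : ℤ) ^ k ∣ (l0 i + l i) % (p : ℤ) ^ k - (l0 i + l i % (p : ℤ) ^ k)
          have h5 := Int.emod_add_mul_ediv (l i) ((p : ℤ) ^ k)
          have h6 := Int.emod_add_mul_ediv (l0 i + l i) ((p : ℤ) ^ k)
          exact ⟨l i / (p : ℤ) ^ k - (l0 i + l i) / (p : ℤ) ^ k, by linarith⟩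
        have h7 := hk0 k hk _ _ h4 i j
        rw [hD.mul] at h7
        rw [dist_eq_norm]
        have h8 : ((0 : Matrix (Fin r) (Fin r) K) i j) = 0 := rfl
        rw [h8, sub_zero]
        linarith
      have h4 := h3.add h2
      have h5 : (fun k => D (ppM hp (lat m l0 * t) a k) - D l0 * D (ppM hp t a k) +
          D l0 * D (ppM hp t a k)) = fun k => D (ppM hp (lat m l0 * t) a k) := by
        funext k
        rw [sub_add_cancel]
      rw [h5, zero_add] at h4
      exact tendsto_nhds_unique h1 h4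

end Pool.Agent.Work.MP_6d379e_ag.Ab
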