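import Pool.Agent.Work.MP_6d379e_ag.Ab.PChar
import Pool.Agent.Work.MP_6d379e_ag.Ab.PPow

/-!
# Every character of a standard lattice is trivialized on the tower   (size M-L)

`inj_of_std` : `‖(lat m l) j‖ = ‖m j j‖ ^ l j` (`norm_lat`), so `lat m l = 1` gives `l j = 0`.

`exists_char` : let `e_i = Pi.single i 1`, `c i = χ e_i`, `q i = m i i`, `‖q i‖ < 1`.
1. There are `n : ℕ+` and `k : ι → ℤ` with `‖c i‖ ^ n = ‖q i‖ ^ k i` for all `i`:
   `‖c i‖ ^ a = ‖p‖ ^ b`, `‖q i‖ ^ a' = ‖p‖ ^ b'` with `a, a' > 0` (`CpLike.val`) and `b' > 0`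
   because `‖q i‖ < 1`; so `‖c i‖ ^ (a b') = ‖q i‖ ^ (a' b)`; take a common exponent `n` (the
   product over `i`).
2. Choose `d i : Kˣ` with `d i ^ n = mon k (m i)` (`K` is algebraically closed), `δ l = ∏ i, d i ^ l i`,
   so `(δ l) ^ n = mon k (lat m l)`.  `‖mon k (m i)‖ = ‖q i‖ ^ k i` (`Std`), so `‖d i‖ = ‖c i‖`.
   `lev_char` gives `h1` with multiplier `δ`.
3. `η i = c i / d i` has norm `1`; by `CpLike.res` there is a common `M ≥ 1` with
   `‖η i ^ M - 1‖ < 1` for all `i` (`‖x - 1‖ < 1` implies `‖x ^ s - 1‖ < 1`).  The product of all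
   `η i - ζ` over the `M`-th roots of unity `ζ` (roots of `X ^ M - 1`, which splits) is
   `η i ^ M - 1`, of norm `< 1`, so there is `ζ i` with `ζ i ^ M = 1`, `‖η i - ζ i‖ < 1`.
   `lev_char` with `k = 0`, `n = M`, `δ l = ∏ i, ζ i ^ l i` gives `h2`.
4. `θ i = η i / ζ i` has `‖θ i - 1‖ < 1`; the `1 x 1` representation `D l = ∏ i, θ i ^ l i` is `PCont`
   (`pcont_of_topU`, `(θ i - 1) ^ n → 0`), and `exists_pow` with `r = 1` gives `h3`.
`h = h1 * h2 * h3` has the multiplier `δ l * ∏ ζ i ^ l i * ∏ θ i ^ l i = ∏ c i ^ l i = χ l`.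
-/

namespace Pool.Agent.Work.MP_6d379e_ag.Ab

variable {ι : Type*} [Fintype ι] [DecidableEq ι]
variable {K : Type*} [NontriviallyNormedField K] [IsUltrametricDist K] [CharZero K]
variable [CompleteSpace K] [IsAlgClosed K] {m : ι → Tor ι K} {p : ℕ}

theorem inj_of_std (hm : Std m) : ∀ l, lat m l = 1 → l = 0 := by
  intro l hl
  funext j
  have h1 := norm_lat hm l j
  rw [hl, Pi.one_apply, Units.val_one, norm_one] at h1
  exact (zpow_eq_one_iff_right₀ (norm_nonneg _) (hm.lt j).ne).1 h1.symm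

/-- the monomial as a homomorphism to the units -/
private def monU (k : ι → ℤ) : Tor ι K →* Kˣ where
  toFun t := ∏ i, t i ^ k i
  map_one' := by
    simp only [Pi.one_apply, one_zpow, Finset.prod_const_one]
  map_mul' s t := by
    simp only [Pi.mul_apply, mul_zpow, Finset.prod_mul_distrib]

private theorem monU_eq (k : ι → ℤ) (t : Tor ι K) : mon k t = ((monU k t : Kˣ) : K) := rfl

/-- the character with the given values on the generators -/
private def chr (d : ι → Kˣ) (l : ι → ℤ) : Kˣ := ∏ i, d i ^ l i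

private theorem chr_add (d : ι → Kˣ) (l l' : ι → ℤ) : chr d (l + l') = chr d l * chr d l' := by
  unfold chr
  rw [← Finset.prod_mul_distrib]
  exact Finset.prod_congr rfl fun i _ => by rw [Pi.add_apply, zpow_add]

private theorem chr_zero (d : ι → Kˣ) : chr d 0 = 1 := by
  unfold chr
  exact Finset.prod_eq_one fun i _ => by rw [Pi.zero_apply, zpow_zero]

private theorem chr_single (d : ι → Kˣ) (i : ι) : chr d (Pi.single i 1) = d i := by
  unfold chr
  rw [Finset.prod_eq_single i]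
  · rw [Pi.single_eq_same, zpow_one]
  · intro j _ hj
    rw [Pi.single_eq_of_ne hj, zpow_zero]
  · intro hi
    exact absurd (Finset.mem_univ i) hi

private theorem chr_mul (d e : ι → Kˣ) (l : ι → ℤ) :
    chr (fun i => d i * e i) l = chr d l * chr e l := by
  unfold chr
  rw [← Finset.prod_mul_distrib]
  exact Finset.prod_congr rfl fun i _ => by rw [mul_zpow]

private theorem chr_pow (d : ι → Kˣ) (n : ℕ) (l : ι → ℤ) :
    (chr d l) ^ n = ∏ i, (d i ^ n) ^ l i := by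
  unfold chr
  rw [← Finset.prod_pow]
  exact Finset.prod_congr rfl fun i _ => by
    rw [← zpow_natCast, ← zpow_mul, mul_comm, zpow_mul, zpow_natCast]

private theorem monU_lat (k l : ι → ℤ) : monU k (lat m l) = ∏ i, (monU k (m i)) ^ l i := by
  unfold lat
  rw [map_prod]
  exact Finset.prod_congr rfl fun i _ => by rw [map_zpow]

/-- a character is determined by its values on the generators -/
private theorem eq_chr (χ : (ι → ℤ) → Kˣ) (hχ : ∀ l l', χ (l + l') = χ l * χ l') (l : ι → ℤ) :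
    χ l = chr (fun i => χ (Pi.single i 1)) l := by
  obtain ⟨X, hX⟩ : ∃ X : (ι → ℤ) →+ Additive Kˣ, ∀ l, X l = Additive.ofMul (χ l) :=
    ⟨AddMonoidHom.mk' (fun l => Additive.ofMul (χ l)) fun l l' => by rw [hχ]; rfl, fun l => rfl⟩
  have h1 : l = ∑ i, l i • (Pi.single i 1 : ι → ℤ) := by
    funext j
    rw [Finset.sum_apply, Finset.sum_eq_single j]
    · rw [Pi.smul_apply, Pi.single_eq_same, smul_eq_mul, mul_one]
    · intro i _ hi
      rw [Pi.smul_apply, Pi.single_eq_of_ne hi.symm, smul_zero]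
    · intro hj
      exact absurd (Finset.mem_univ j) hj
  have h2 : X l = ∑ i, l i • X (Pi.single i 1) := by
    conv_lhs => rw [h1]
    rw [map_sum]
    exact Finset.sum_congr rfl fun i _ => map_zsmul X _ _
  rw [hX] at h2
  have h3 := congrArg Additive.toMul h2
  rw [toMul_ofMul, toMul_sum] at h3
  rw [h3]
  unfold chr
  refine Finset.prod_congr rfl fun i _ => ?_
  rw [toMul_zsmul, hX, toMul_ofMul]

/-- the absolute values are commensurable -/
private theorem val_one (hK : CpLike K p) (c q : Kˣ) (hq : ‖(q : K)‖ < 1) :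
    ∃ (n : ℕ) (k : ℤ), 0 < n ∧ ‖(c : K)‖ ^ n = ‖(q : K)‖ ^ k := by
  obtain ⟨a, b, ha, hab⟩ := hK.val c c.ne_zero
  obtain ⟨a', b', ha', hab'⟩ := hK.val q q.ne_zero
  have hp0 : 0 < ‖(p : K)‖ := by
    rcases (norm_nonneg (p : K)).lt_or_eq with h | h
    · exact h
    · exfalso
      have h1 : (p : K) = 0 := norm_eq_zero.1 h.symm
      have h2 : p = 0 := by exact_mod_cast h1
      exact hK.prime.ne_zero h2
  have hb' : 0 < b' := by
    by_contra hcon
    have h1 := one_le_zpow_of_nonpos₀ hp0 hK.lt.le (not_lt.1 hcon)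
    rw [← hab'] at h1
    have h2 : ‖(q : K)‖ ^ a' < 1 := pow_lt_one₀ (norm_nonneg _) hq ha'.ne'
    linarith
  obtain ⟨B, rfl⟩ := Int.eq_ofNat_of_zero_le hb'.le
  refine ⟨a * B, (a' : ℤ) * b, Nat.mul_pos ha (by exact_mod_cast hb'), ?_⟩
  rw [pow_mul, hab, zpow_mul, zpow_natCast, hab', ← zpow_natCast, ← zpow_mul, ← zpow_mul,
    mul_comm]

/-- a root of unity near an element -/
private theorem near_unity {η : K} {M : ℕ} (hM : 0 < M) (h : ‖η ^ M - 1‖ < 1) :
    ∃ ζ : K, ζ ^ M = 1 ∧ ‖η - ζ‖ < 1 := by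
  have hmon : (Polynomial.X ^ M - 1 : Polynomial K).Monic := by
    have := Polynomial.monic_X_pow_sub_C (1 : K) hM.ne'
    rwa [Polynomial.C_1] at this
  have h1 := (IsAlgClosed.splits (Polynomial.X ^ M - 1 : Polynomial K)).eval_eq_prod_roots_of_monic
    hmon η
  rw [Polynomial.eval_sub, Polynomial.eval_pow, Polynomial.eval_X, Polynomial.eval_one] at h1
  by_contra hcon
  push Not at hcon
  have h2 : ∀ s : Multiset K, (∀ z ∈ s, (1 : ℝ) ≤ ‖η - z‖) →
      (1 : ℝ) ≤ ‖(s.map fun z => η - z).prod‖ := by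
    intro s
    induction s using Multiset.induction_on with
    | empty =>
      intro _
      rw [Multiset.map_zero, Multiset.prod_zero, norm_one]
    | cons z s ih =>
      intro hs
      rw [Multiset.map_cons, Multiset.prod_cons, norm_mul]
      have k1 := hs z (Multiset.mem_cons_self z s)
      have k2 := ih fun w hw => hs w (Multiset.mem_cons_of_mem hw)
      nlinarith
  have h3 := h2 (Polynomial.X ^ M - 1 : Polynomial K).roots fun z hz => by
    apply hcon z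
    have k1 := (Polynomial.mem_roots'.1 hz).2
    rw [Polynomial.IsRoot.def, Polynomial.eval_sub, Polynomial.eval_pow, Polynomial.eval_X,
      Polynomial.eval_one] at k1
    exact sub_eq_zero.1 k1
  rw [← h1] at h3
  linarith

private theorem norm_of_pow {ζ : K} {M : ℕ} (hM : 0 < M) (h : ζ ^ M = 1) : ‖ζ‖ = 1 := by
  have h1 : ‖ζ‖ ^ M = 1 := by rw [← norm_pow, h, norm_one]
  exact (pow_eq_one_iff_of_nonneg (norm_nonneg _) hM.ne').1 h1

theorem exists_char (hm : Std m) (hK : CpLike K p) (χ : (ι → ℤ) → Kˣ)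
    (hχ : ∀ l l', χ (l + l') = χ l * χ l') :
    ∃ h hi : Tor ι K → Til m → K, YAn m h ∧ YAn m hi ∧
      ∀ (t : Tor ι K) (a : Til m), a.1 1 = QuotientGroup.mk t →
        h t a * hi t a = 1 ∧ ∀ l, h (lat m l * t) a = χ l * h t a := by
  have hinj := inj_of_std hm
  obtain ⟨c, hc⟩ : ∃ c : ι → Kˣ, c = fun i => χ (Pi.single i 1) := ⟨_, rfl⟩
  have hχc : ∀ l, χ l = chr c l := fun l => by rw [hc]; exact eq_chr χ hχ l
  -- a common exponent
  choose n0 k0 hn0 hk0 using fun i => val_one hK (c i) (m i i) (hm.lt i)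
  obtain ⟨n, hn⟩ : ∃ n : ℕ+, (n : ℕ) = ∏ i, n0 i :=
    ⟨⟨∏ i, n0 i, Finset.prod_pos fun i _ => hn0 i⟩, rfl⟩
  have hdvd : ∀ i, ∃ e : ℕ, (n : ℕ) = n0 i * e := fun i => by
    rw [hn]
    exact Finset.dvd_prod_of_mem n0 (Finset.mem_univ i)
  choose e he using hdvd
  obtain ⟨k, hk⟩ : ∃ k : ι → ℤ, k = fun i => k0 i * (e i : ℤ) := ⟨_, rfl⟩
  have hck : ∀ i, ‖(c i : K)‖ ^ (n : ℕ) = ‖(m i i : K)‖ ^ k i := by
    intro i
    rw [he i, pow_mul, hk0 i, hk, zpow_mul, zpow_natCast]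
  -- the roots
  have hroot : ∀ i, ∃ d : Kˣ, d ^ (n : ℕ) = monU k (m i) := by
    intro i
    obtain ⟨z, hz⟩ := IsAlgClosed.exists_pow_nat_eq ((monU k (m i) : Kˣ) : K) n.pos
    have hz0 : z ≠ 0 := by
      rintro rfl
      rw [zero_pow n.pos.ne'] at hz
      exact (monU k (m i)).ne_zero hz.symm
    refine ⟨Units.mk0 z hz0, ?_⟩
    ext
    rw [Units.val_pow_eq_pow_val, Units.val_mk0, hz]
  choose d hd using hroot
  have hmonn : ∀ i, ‖((monU k (m i) : Kˣ) : K)‖ = ‖(m i i : K)‖ ^ k i := by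
    intro i
    rw [← monU_eq, norm_mon, Finset.prod_eq_single i]
    · intro j _ hj
      rw [hm.one i j hj.symm, one_zpow]
    · intro hi
      exact absurd (Finset.mem_univ i) hi
  have hdc : ∀ i, ‖(d i : K)‖ = ‖(c i : K)‖ := by
    intro i
    have h1 : ‖(d i : K)‖ ^ (n : ℕ) = ‖(c i : K)‖ ^ (n : ℕ) := by
      rw [hck, ← hmonn, ← hd, Units.val_pow_eq_pow_val, norm_pow]
    exact (pow_left_inj₀ (norm_nonneg _) (norm_nonneg _) n.pos.ne').1 h1
  -- the roots of unity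
  have hz : ∀ i, ∃ (M : ℕ) (ζ : Kˣ), 0 < M ∧ ζ ^ M = 1 ∧ ‖((c i * (d i)⁻¹ : Kˣ) : K) - ζ‖ < 1 := by
    intro i
    have h1 : ‖((c i * (d i)⁻¹ : Kˣ) : K)‖ = 1 := by
      rw [Units.val_mul, norm_mul, Units.val_inv_eq_inv_val, norm_inv, hdc i]
      exact mul_inv_cancel₀ (norm_ne_zero_iff.2 (c i).ne_zero)
    obtain ⟨M, hM, h2⟩ := hK.res _ h1
    obtain ⟨ζ, h3, h4⟩ := near_unity hM h2
    have hζ0 : ζ ≠ 0 := by
      rintro rfl
      rw [zero_pow hM.ne'] at h3
      exact zero_ne_one h3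
    refine ⟨M, Units.mk0 ζ hζ0, hM, ?_, h4⟩
    ext
    rw [Units.val_pow_eq_pow_val, Units.val_mk0, h3, Units.val_one]
  choose M0 ζ hM0 hζ hηζ using hz
  obtain ⟨M, hM⟩ : ∃ M : ℕ+, (M : ℕ) = ∏ i, M0 i :=
    ⟨⟨∏ i, M0 i, Finset.prod_pos fun i _ => hM0 i⟩, rfl⟩
  have hζM : ∀ i, ζ i ^ (M : ℕ) = 1 := by
    intro i
    obtain ⟨e', he'⟩ : ∃ e' : ℕ, (M : ℕ) = M0 i * e' := by
      rw [hM]
      exact Finset.dvd_prod_of_mem M0 (Finset.mem_univ i)
    rw [he', pow_mul, hζ i, one_pow]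
  obtain ⟨θ, hθ⟩ : ∃ θ : ι → Kˣ, θ = fun i => c i * (d i)⁻¹ * (ζ i)⁻¹ := ⟨_, rfl⟩
  have hθ1 : ∀ i, ‖(θ i : K) - 1‖ < 1 := by
    intro i
    have hz1 : ‖(ζ i : K)‖ = 1 := norm_of_pow (hM0 i) (by
      have := congrArg (fun u : Kˣ => (u : K)) (hζ i)
      simpa using this)
    have h1 : (θ i : K) - 1 = (((c i * (d i)⁻¹ : Kˣ) : K) - ζ i) * ((ζ i)⁻¹ : Kˣ) := by
      rw [hθ, sub_mul, Units.mul_inv, Units.val_mul (c i * (d i)⁻¹)]
    rw [h1, norm_mul, Units.val_inv_eq_inv_val, norm_inv, hz1, inv_one, mul_one]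
    exact hηζ i
  have hprod : ∀ l, χ l = chr d l * chr ζ l * chr θ l := by
    intro l
    rw [← chr_mul, ← chr_mul, hχc]
    congr 1
    funext i
    rw [hθ]
    show c i = d i * ζ i * (c i * (d i)⁻¹ * (ζ i)⁻¹)
    ext
    rw [Units.val_mul, Units.val_mul, Units.val_mul, Units.val_mul, Units.val_inv_eq_inv_val,
      Units.val_inv_eq_inv_val]
    have e1 := (d i).ne_zero
    have e2 := (ζ i).ne_zero
    field_simp
  -- the three functions
  obtain ⟨h1, h1i, a1, a1i, p1⟩ := lev_char hinj k n (chr d) (chr_add d) (fun l => by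
    rw [monU_eq, monU_lat, ← Units.val_pow_eq_pow_val, chr_pow]
    congr 1
    exact Finset.prod_congr rfl fun i _ => by rw [hd i])
  obtain ⟨h2, h2i, a2, a2i, p2⟩ := lev_char hinj 0 M (chr ζ) (chr_add ζ) (fun l => by
    rw [mon_zero, ← Units.val_pow_eq_pow_val, chr_pow]
    rw [Finset.prod_eq_one fun i _ => by rw [hζM i, one_zpow], Units.val_one])
  have hD : PCont p (fun l : ι → ℤ => ((chr θ l : Kˣ) : K) • (1 : Matrix (Fin 1) (Fin 1) K)) := by
    refine pcont_of_topU hK.prime hK.lt ?_ ?_ ?_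
    · rw [chr_zero, Units.val_one, one_smul]
    · intro l l'
      rw [chr_add, Units.val_mul, Matrix.smul_mul, Matrix.one_mul, smul_smul]
    · intro i ε hε
      obtain ⟨n1, hn1⟩ := exists_pow_lt_of_lt_one hε (hθ1 i)
      refine ⟨n1, fun n' hn' a b => ?_⟩
      rw [chr_single]
      have e1 : ((θ i : Kˣ) : K) • (1 : Matrix (Fin 1) (Fin 1) K) - 1 =
          (((θ i : Kˣ) : K) - 1) • (1 : Matrix (Fin 1) (Fin 1) K) := by
        rw [sub_smul, one_smul]
      have e2 : ((((θ i : Kˣ) : K) - 1) • (1 : Matrix (Fin 1) (Fin 1) K)) ^ n' =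
          (((θ i : Kˣ) : K) - 1) ^ n' • (1 : Matrix (Fin 1) (Fin 1) K) := by
        rw [smul_pow, one_pow]
      rw [e1, e2, Matrix.smul_apply, Subsingleton.elim a b, Matrix.one_apply_eq, smul_eq_mul,
        mul_one, norm_pow]
      exact (pow_le_pow_of_le_one (norm_nonneg _) (hθ1 i).le hn').trans hn1.le
  obtain ⟨h3, h3i, a3, a3i, p3⟩ := exists_pow hinj hK.prime hD
  refine ⟨fun t a => h1 t a * h2 t a * h3 t a 0 0, fun t a => h1i t a * h2i t a * h3i t a 0 0,
    yAn_mul (yAn_mul a1 a2) (a3 0 0), yAn_mul (yAn_mul a1i a2i) (a3i 0 0), fun t a hta => ?_⟩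
  obtain ⟨u1, v1⟩ := p1 t a hta
  obtain ⟨u2, v2⟩ := p2 t a hta
  obtain ⟨u3, _, v3⟩ := p3 t a hta
  refine ⟨?_, fun l => ?_⟩
  · have w3 : h3 t a 0 0 * h3i t a 0 0 = 1 := by
      have := congrFun (congrFun u3 0) 0
      rw [Matrix.mul_apply, Fin.sum_univ_one, Matrix.one_apply_eq] at this
      exact this
    calc h1 t a * h2 t a * h3 t a 0 0 * (h1i t a * h2i t a * h3i t a 0 0)
        = (h1 t a * h1i t a) * (h2 t a * h2i t a) * (h3 t a 0 0 * h3i t a 0 0) := by ring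
      _ = 1 := by rw [u1, u2, w3, mul_one, mul_one]
  · have w3 : h3 (lat m l * t) a 0 0 = ((chr θ l : Kˣ) : K) * h3 t a 0 0 := by
      rw [v3 l, Matrix.smul_mul, Matrix.one_mul, Matrix.smul_apply, smul_eq_mul]
    show h1 (lat m l * t) a * h2 (lat m l * t) a * h3 (lat m l * t) a 0 0 =
      (χ l : K) * (h1 t a * h2 t a * h3 t a 0 0)
    rw [v1 l, v2 l, w3, hprod l, Units.val_mul, Units.val_mul]
    ring

end Pool.Agent.Work.MP_6d379e_ag.Ab
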