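import Pool.Agent.Work.MP_6d379e_ag.Ab.Lpol

/-!
# Laurent series on a box   (size M)

Let `t ∈ BB q a b`.  By `norm_mon_le_Wt` one has `‖c k * mon k t‖ ≤ ‖c k‖ * Wt q a b k`, which
tends to zero along the cofinite filter by `Dec`; a complete ultrametric field
(`NonarchimedeanAddGroup.summable_of_tendsto_cofinite_zero`) makes the family summable.  The bounds
on `ser` come from the ultrametric inequality for `tsum`
(`IsUltrametricDist.norm_tsum_le` ..., or pass to the limit in finite sums: the closed ball of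
radius `δ` is closed and an additive subgroup).

* `ser_sub_sum_le` : `ser c t - ∑ k ∈ S` is the `tsum` over the complement of `S`.
* `ser_anOn` : take `S = {k | ε < ‖c k‖ * Wt q a b k}`, finite, and `lpol_finset`.
* `dec_mono` : `Wt_mono`.  `dec_one` : `one_le_Wt` and `Wt_one`.
* `ser_shift` : termwise, `mon_mul`.
-/

namespace Pool.Agent.Work.MP_6d379e_ag.Ab

variable {ι : Type*} [Fintype ι] {K : Type*} [NontriviallyNormedField K] [IsUltrametricDist K]
variable {q : Tor ι K} {a b : ι → ℤ} {c c' : (ι → ℤ) → K}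

private theorem norm_term_le (c : (ι → ℤ) → K) {t : Tor ι K} (ht : t ∈ BB q a b) (k : ι → ℤ) :
    ‖c k * mon k t‖ ≤ ‖c k‖ * Wt q a b k := by
  rw [norm_mul]
  exact mul_le_mul_of_nonneg_left (norm_mon_le_Wt ht k) (norm_nonneg _)

theorem summable_ser [CompleteSpace K] (hc : Dec q a b c) {t : Tor ι K} (ht : t ∈ BB q a b) :
    Summable fun k => c k * mon k t := by
  refine NonarchimedeanAddGroup.summable_of_tendsto_cofinite_zero ?_
  rw [Metric.tendsto_nhds]
  intro ε hε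
  rw [Filter.eventually_cofinite]
  refine (hc (ε / 2) (half_pos hε)).subset fun k hk => ?_
  simp only [Set.mem_setOf_eq, dist_zero_right, not_lt] at hk ⊢
  have h1 := norm_term_le c ht k
  linarith

theorem ser_sub_sum_le [CompleteSpace K] (hc : Dec q a b c) {t : Tor ι K} (ht : t ∈ BB q a b)
    (S : Finset (ι → ℤ)) {δ : ℝ} (hδ : 0 ≤ δ) (hS : ∀ k, k ∉ S → ‖c k‖ * Wt q a b k ≤ δ) :
    ‖ser c t - ∑ k ∈ S, c k * mon k t‖ ≤ δ := by
  have h1 := (summable_ser hc ht).sum_add_tsum_subtype_compl S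
  have h2 : ser c t - ∑ k ∈ S, c k * mon k t = ∑' k : {k // k ∉ S}, c k * mon (k : ι → ℤ) t := by
    unfold ser
    rw [← h1]
    ring
  rw [h2]
  refine IsUltrametricDist.norm_tsum_le_of_forall_le_of_nonneg hδ fun k => ?_
  exact (norm_term_le c ht k.1).trans (hS k.1 k.2)

theorem ser_le [CompleteSpace K] (hc : Dec q a b c) {t : Tor ι K} (ht : t ∈ BB q a b)
    {C : ℝ} (hC : 0 ≤ C) (hk : ∀ k, ‖c k‖ * Wt q a b k ≤ C) : ‖ser c t‖ ≤ C := by
  have h := ser_sub_sum_le hc ht ∅ hC fun k _ => hk k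
  simpa using h

theorem ser_anOn [CompleteSpace K] (hc : Dec q a b c) : AnOn (BB q a b) (ser c) := by
  intro ε hε
  obtain ⟨P, hP⟩ := lpol_finset (hc ε hε).toFinset c
  refine ⟨P, fun t ht => ?_⟩
  rw [hP t]
  refine ser_sub_sum_le hc ht _ hε.le fun k hk => ?_
  rw [Set.Finite.mem_toFinset, Set.mem_setOf_eq, not_lt] at hk
  exact hk

theorem dec_zero : Dec q a b (0 : (ι → ℤ) → K) := by
  intro ε hε
  refine Set.finite_empty.subset fun k hk => ?_
  simp only [Set.mem_setOf_eq, Pi.zero_apply, norm_zero, zero_mul] at hk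
  exact absurd hk (not_lt.2 hε.le)

theorem dec_add (hc : Dec q a b c) (hc' : Dec q a b c') : Dec q a b (c + c') := by
  intro ε hε
  refine ((hc ε hε).union (hc' ε hε)).subset fun k hk => ?_
  simp only [Set.mem_setOf_eq, Pi.add_apply] at hk
  have hW := (Wt_pos q a b k).le
  rcases le_max_iff.1 (IsUltrametricDist.norm_add_le_max (c k) (c' k)) with h | h
  · left
    exact hk.trans_le (mul_le_mul_of_nonneg_right h hW)
  · right
    exact hk.trans_le (mul_le_mul_of_nonneg_right h hW)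

theorem dec_neg (hc : Dec q a b c) : Dec q a b (-c) := by
  intro ε hε
  simpa using hc ε hε

theorem dec_sub (hc : Dec q a b c) (hc' : Dec q a b c') : Dec q a b (c - c') := by
  rw [sub_eq_add_neg]
  exact dec_add hc (dec_neg hc')

theorem dec_smul (r : K) (hc : Dec q a b c) : Dec q a b (r • c) := by
  intro ε hε
  by_cases hr : r = 0
  · subst hr
    rw [zero_smul]
    exact dec_zero ε hε
  have hr' : 0 < ‖r‖ := norm_pos_iff.2 hr
  refine (hc (ε / ‖r‖) (div_pos hε hr')).subset fun k hk => ?_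
  simp only [Set.mem_setOf_eq, Pi.smul_apply, smul_eq_mul, norm_mul] at hk ⊢
  rw [div_lt_iff₀ hr']
  calc ε < ‖r‖ * ‖c k‖ * Wt q a b k := hk
    _ = ‖c k‖ * Wt q a b k * ‖r‖ := by ring

theorem dec_of_le (hc : Dec q a b c) {q' : Tor ι K} {a' b' : ι → ℤ}
    (h : ∀ k, ‖c' k‖ * Wt q' a' b' k ≤ ‖c k‖ * Wt q a b k) : Dec q' a' b' c' := by
  intro ε hε
  exact (hc ε hε).subset fun k hk => lt_of_lt_of_le hk (h k)

theorem dec_bdd (hc : Dec q a b c) : ∃ C : ℝ, ∀ k, ‖c k‖ * Wt q a b k ≤ C := by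
  refine ⟨1 + ∑ k ∈ (hc 1 one_pos).toFinset, ‖c k‖ * Wt q a b k, fun k => ?_⟩
  have h0 : ∀ j, 0 ≤ ‖c j‖ * Wt q a b j := fun j => mul_nonneg (norm_nonneg _) (Wt_pos q a b j).le
  by_cases hk : k ∈ (hc 1 one_pos).toFinset
  · have := Finset.single_le_sum (f := fun j => ‖c j‖ * Wt q a b j) (fun j _ => h0 j) hk
    linarith
  · have h1 : 0 ≤ ∑ k ∈ (hc 1 one_pos).toFinset, ‖c k‖ * Wt q a b k :=
      Finset.sum_nonneg fun j _ => h0 j
    rw [Set.Finite.mem_toFinset, Set.mem_setOf_eq, not_lt] at hk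
    linarith

theorem dec_mono (hq : ∀ i, ‖(q i : K)‖ ≤ 1) {a' b' : ι → ℤ} (hab : ∀ i, 0 ≤ a i + b i)
    (ha : ∀ i, a i ≤ a' i) (hb : ∀ i, b i ≤ b' i) (hc : Dec q a' b' c) : Dec q a b c := by
  exact dec_of_le hc fun k => mul_le_mul_of_nonneg_left (Wt_mono hq hab ha hb k) (norm_nonneg _)

theorem dec_one (hq : ∀ i, ‖(q i : K)‖ ≤ 1) (ha : ∀ i, 0 ≤ a i) (hb : ∀ i, 0 ≤ b i)
    (hc : Dec q a b c) : Dec 1 0 0 c := by
  refine dec_of_le hc fun k => mul_le_mul_of_nonneg_left ?_ (norm_nonneg _)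
  rw [Wt_one]
  exact one_le_Wt hq ha hb k

theorem ser_add [CompleteSpace K] (hc : Dec q a b c) (hc' : Dec q a b c') {t : Tor ι K}
    (ht : t ∈ BB q a b) : ser (c + c') t = ser c t + ser c' t := by
  unfold ser
  rw [← (summable_ser hc ht).tsum_add (summable_ser hc' ht)]
  exact tsum_congr fun k => by rw [Pi.add_apply, add_mul]

theorem ser_sub [CompleteSpace K] (hc : Dec q a b c) (hc' : Dec q a b c') {t : Tor ι K}
    (ht : t ∈ BB q a b) : ser (c - c') t = ser c t - ser c' t := by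
  unfold ser
  rw [← (summable_ser hc ht).tsum_sub (summable_ser hc' ht)]
  exact tsum_congr fun k => by rw [Pi.sub_apply, sub_mul]

theorem ser_smul (r : K) (c : (ι → ℤ) → K) (t : Tor ι K) : ser (r • c) t = r * ser c t := by
  unfold ser
  rw [← tsum_mul_left]
  exact tsum_congr fun k => by rw [Pi.smul_apply, smul_eq_mul, mul_assoc]

theorem ser_shift (c : (ι → ℤ) → K) (s t : Tor ι K) :
    ser c (s * t) = ser (fun k => c k * mon k s) t := by
  unfold ser
  exact tsum_congr fun k => by rw [mon_mul, mul_assoc]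

end Pool.Agent.Work.MP_6d379e_ag.Ab
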