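import Pool.Agent.Work.MP_6d379e_ag.Ab.Fib

/-!
# Splitting a Laurent series in the direction `i`   (size M)

`a'` is arbitrary (nonnegative) in the direction `i` and agrees with `a` in the other directions.

* `Wt_plus` : if `0 ≤ k i` then the `i`-th coordinate of the corner of `k` is `q i ^ (-(b i))` for
  both boxes, the other coordinates agree.  `Wt_minus` is the same with `k i < 0`.
* `plus_anOn` : the coefficients of `plus i f` form a family `c` with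
  `‖c k‖ * Wt q a' b k ≤ ‖cf f k‖ * Wt q a b k` (`Wt_plus`), so `Dec q a' b c` (`dec_of_le`,
  `cf_dec_BB`) and `ser_anOn`.  `plus_le` : `cf_le` and `ser_le` (`C ≥ 0` because `1 ∈ BB q a b`).
* `plus_add_minus` : `ser_add` on `BB q a b` and `hull_eq`.
* `plus_congr` : `cf_congr`.  `plus_add`, `plus_smul` : `cf_add`, `cf_smul`, `ser_add`, `ser_smul`.
* `plus_an2` : `an2_of_ser` with `c x k = if 0 ≤ k i then cf (F x) k else 0`, using `fib_cf_an` and
  `fib_unif` on the box `BB q a b` and `Wt_plus`.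
-/

namespace Pool.Agent.Work.MP_6d379e_ag.Ab

variable {ι κ : Type*} [Fintype ι] [Fintype κ]
variable {K : Type*} [NontriviallyNormedField K]

theorem Wt_plus (q : Tor ι K) {a a' b : ι → ℤ} {i : ι} (h : ∀ j, j ≠ i → a' j = a j)
    {k : ι → ℤ} (hk : 0 ≤ k i) : Wt q a' b k = Wt q a b k := by
  have h1 : corner q a' b k = corner q a b k := by
    funext j
    unfold corner
    by_cases hj : j = i
    · subst hj
      rw [if_pos hk, if_pos hk]
    · rw [h j hj]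
  unfold Wt
  rw [h1]

theorem Wt_minus (q : Tor ι K) {a b b' : ι → ℤ} {i : ι} (h : ∀ j, j ≠ i → b' j = b j)
    {k : ι → ℤ} (hk : k i < 0) : Wt q a b' k = Wt q a b k := by
  have h1 : corner q a b' k = corner q a b k := by
    funext j
    unfold corner
    by_cases hj : j = i
    · subst hj
      rw [if_neg (not_le.2 hk), if_neg (not_le.2 hk)]
    · rw [h j hj]
  unfold Wt
  rw [h1]

variable [IsUltrametricDist K] [CompleteSpace K] [IsAlgClosed K] [CharZero K]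
variable {q : Tor ι K} {a b a' b' : ι → ℤ} {f g : Tor ι K → K} {F : Tor κ K → Tor ι K → K}

open Classical in
private noncomputable def pc (i : ι) (c : (ι → ℤ) → K) : (ι → ℤ) → K :=
  fun k => if 0 ≤ k i then c k else 0

open Classical in
private noncomputable def mc (i : ι) (c : (ι → ℤ) → K) : (ι → ℤ) → K :=
  fun k => if 0 ≤ k i then 0 else c k

private theorem plus_def (i : ι) (f : Tor ι K → K) : plus i f = ser (pc i (cf f)) := rfl

private theorem minus_def (i : ι) (f : Tor ι K → K) : minus i f = ser (mc i (cf f)) := rfl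

private theorem pc_pos (c : (ι → ℤ) → K) {i : ι} {k : ι → ℤ} (h : 0 ≤ k i) :
    pc i c k = c k := by
  unfold pc
  rw [if_pos h]

private theorem pc_neg (c : (ι → ℤ) → K) {i : ι} {k : ι → ℤ} (h : ¬ 0 ≤ k i) :
    pc i c k = 0 := by
  unfold pc
  rw [if_neg h]

private theorem mc_pos (c : (ι → ℤ) → K) {i : ι} {k : ι → ℤ} (h : 0 ≤ k i) :
    mc i c k = 0 := by
  unfold mc
  rw [if_pos h]

private theorem mc_neg (c : (ι → ℤ) → K) {i : ι} {k : ι → ℤ} (h : ¬ 0 ≤ k i) :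
    mc i c k = c k := by
  unfold mc
  rw [if_neg h]

private theorem pc_le (q : Tor ι K) {a a' b : ι → ℤ} {i : ι} (h : ∀ j, j ≠ i → a' j = a j)
    (c : (ι → ℤ) → K) (k : ι → ℤ) : ‖pc i c k‖ * Wt q a' b k ≤ ‖c k‖ * Wt q a b k := by
  by_cases hk : 0 ≤ k i
  · rw [pc_pos c hk, Wt_plus q h hk]
  · rw [pc_neg c hk, norm_zero, zero_mul]
    exact mul_nonneg (norm_nonneg _) (Wt_pos q a b k).le

private theorem mc_le (q : Tor ι K) {a b b' : ι → ℤ} {i : ι} (h : ∀ j, j ≠ i → b' j = b j)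
    (c : (ι → ℤ) → K) (k : ι → ℤ) : ‖mc i c k‖ * Wt q a b' k ≤ ‖c k‖ * Wt q a b k := by
  by_cases hk : 0 ≤ k i
  · rw [mc_pos c hk, norm_zero, zero_mul]
    exact mul_nonneg (norm_nonneg _) (Wt_pos q a b k).le
  · rw [mc_neg c hk, Wt_minus q h (not_le.1 hk)]

private theorem pc_dec {i : ι} (h : ∀ j, j ≠ i → a' j = a j) {c : (ι → ℤ) → K}
    (hc : Dec q a b c) : Dec q a' b (pc i c) := dec_of_le hc (pc_le q h c)

private theorem mc_dec {i : ι} (h : ∀ j, j ≠ i → b' j = b j) {c : (ι → ℤ) → K}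
    (hc : Dec q a b c) : Dec q a b' (mc i c) := dec_of_le hc (mc_le q h c)

private theorem ser_zero0 (t : Tor ι K) : ser (0 : (ι → ℤ) → K) t = 0 := by
  unfold ser
  simp only [Pi.zero_apply, zero_mul, tsum_zero]

private theorem zero_le_of_bd (hq : ∀ i, ‖(q i : K)‖ ≤ 1) (ha : ∀ i, 0 ≤ a i)
    (hb : ∀ i, 0 ≤ b i) {C : ℝ} (hC : ∀ t ∈ BB q a b, ‖f t‖ ≤ C) : 0 ≤ C :=
  (norm_nonneg _).trans (hC 1 (circ_subset_BB hq ha hb one_mem_circ))

theorem plus_anOn (hq : ∀ i, ‖(q i : K)‖ ≤ 1) (ha : ∀ i, 0 ≤ a i) (hb : ∀ i, 0 ≤ b i)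
    (hf : AnOn (BB q a b) f) {i : ι} (h : ∀ j, j ≠ i → a' j = a j) :
    AnOn (BB q a' b) (plus i f) := by
  rw [plus_def]
  exact ser_anOn (pc_dec h (cf_dec_BB hq ha hb hf))

theorem minus_anOn (hq : ∀ i, ‖(q i : K)‖ ≤ 1) (ha : ∀ i, 0 ≤ a i) (hb : ∀ i, 0 ≤ b i)
    (hf : AnOn (BB q a b) f) {i : ι} (h : ∀ j, j ≠ i → b' j = b j) :
    AnOn (BB q a b') (minus i f) := by
  rw [minus_def]
  exact ser_anOn (mc_dec h (cf_dec_BB hq ha hb hf))

theorem plus_le (hq : ∀ i, ‖(q i : K)‖ ≤ 1) (ha : ∀ i, 0 ≤ a i) (hb : ∀ i, 0 ≤ b i)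
    (hf : AnOn (BB q a b) f) {i : ι} (h : ∀ j, j ≠ i → a' j = a j) {C : ℝ}
    (hC : ∀ t ∈ BB q a b, ‖f t‖ ≤ C) {t : Tor ι K} (ht : t ∈ BB q a' b) :
    ‖plus i f t‖ ≤ C := by
  rw [plus_def]
  exact ser_le (pc_dec h (cf_dec_BB hq ha hb hf)) ht (zero_le_of_bd hq ha hb hC)
    fun k => (pc_le q h _ k).trans (cf_le hq ha hb hf hC k)

theorem minus_le (hq : ∀ i, ‖(q i : K)‖ ≤ 1) (ha : ∀ i, 0 ≤ a i) (hb : ∀ i, 0 ≤ b i)
    (hf : AnOn (BB q a b) f) {i : ι} (h : ∀ j, j ≠ i → b' j = b j) {C : ℝ}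
    (hC : ∀ t ∈ BB q a b, ‖f t‖ ≤ C) {t : Tor ι K} (ht : t ∈ BB q a b') :
    ‖minus i f t‖ ≤ C := by
  rw [minus_def]
  exact ser_le (mc_dec h (cf_dec_BB hq ha hb hf)) ht (zero_le_of_bd hq ha hb hC)
    fun k => (mc_le q h _ k).trans (cf_le hq ha hb hf hC k)

theorem plus_add_minus (hq : ∀ i, ‖(q i : K)‖ ≤ 1) (ha : ∀ i, 0 ≤ a i) (hb : ∀ i, 0 ≤ b i)
    (hf : AnOn (BB q a b) f) (i : ι) {t : Tor ι K} (ht : t ∈ BB q a b) :
    plus i f t + minus i f t = f t := by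
  have hd := cf_dec_BB hq ha hb hf
  have h1 : pc i (cf f) + mc i (cf f) = cf f := by
    funext k
    rw [Pi.add_apply]
    by_cases hk : 0 ≤ k i
    · rw [pc_pos _ hk, mc_pos _ hk, add_zero]
    · rw [pc_neg _ hk, mc_neg _ hk, zero_add]
  rw [plus_def, minus_def, ← ser_add (pc_dec (i := i) (fun j _ => rfl) hd)
    (mc_dec (i := i) (fun j _ => rfl) hd) ht, h1]
  exact hull_eq hq ha hb hf ht

theorem plus_congr (i : ι) (h : ∀ t ∈ (circ : Set (Tor ι K)), f t = g t) :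
    plus i f = plus i g := by
  rw [plus_def, plus_def, cf_congr h]

theorem minus_congr (i : ι) (h : ∀ t ∈ (circ : Set (Tor ι K)), f t = g t) :
    minus i f = minus i g := by
  rw [minus_def, minus_def, cf_congr h]

theorem plus_zero (i : ι) (h : ∀ t ∈ (circ : Set (Tor ι K)), f t = 0) (t : Tor ι K) :
    plus i f t = 0 := by
  have h1 : pc i (0 : (ι → ℤ) → K) = 0 := by
    funext k
    by_cases hk : 0 ≤ k i
    · rw [pc_pos _ hk]
    · rw [pc_neg _ hk, Pi.zero_apply]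
  rw [plus_def, cf_eq_zero h, h1, ser_zero0]

theorem minus_zero (i : ι) (h : ∀ t ∈ (circ : Set (Tor ι K)), f t = 0) (t : Tor ι K) :
    minus i f t = 0 := by
  have h1 : mc i (0 : (ι → ℤ) → K) = 0 := by
    funext k
    by_cases hk : 0 ≤ k i
    · rw [mc_pos _ hk, Pi.zero_apply]
    · rw [mc_neg _ hk]
  rw [minus_def, cf_eq_zero h, h1, ser_zero0]

theorem plus_add (hq : ∀ i, ‖(q i : K)‖ ≤ 1) (ha : ∀ i, 0 ≤ a i) (hb : ∀ i, 0 ≤ b i)
    (hf : AnOn (BB q a b) f) (hg : AnOn (BB q a b) g) {i : ι} (h : ∀ j, j ≠ i → a' j = a j)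
    {t : Tor ι K} (ht : t ∈ BB q a' b) :
    plus i (fun t => f t + g t) t = plus i f t + plus i g t := by
  have h0 : (circ : Set (Tor ι K)) ⊆ BB q a b := circ_subset_BB hq ha hb
  have h1 : pc i (cf f + cf g) = pc i (cf f) + pc i (cf g) := by
    funext k
    rw [Pi.add_apply]
    by_cases hk : 0 ≤ k i
    · rw [pc_pos _ hk, pc_pos _ hk, pc_pos _ hk, Pi.add_apply]
    · rw [pc_neg _ hk, pc_neg _ hk, pc_neg _ hk, add_zero]
  rw [plus_def, plus_def, plus_def, cf_add (anOn_mono h0 hf) (anOn_mono h0 hg), h1,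
    ser_add (pc_dec h (cf_dec_BB hq ha hb hf)) (pc_dec h (cf_dec_BB hq ha hb hg)) ht]

theorem minus_add (hq : ∀ i, ‖(q i : K)‖ ≤ 1) (ha : ∀ i, 0 ≤ a i) (hb : ∀ i, 0 ≤ b i)
    (hf : AnOn (BB q a b) f) (hg : AnOn (BB q a b) g) {i : ι} (h : ∀ j, j ≠ i → b' j = b j)
    {t : Tor ι K} (ht : t ∈ BB q a b') :
    minus i (fun t => f t + g t) t = minus i f t + minus i g t := by
  have h0 : (circ : Set (Tor ι K)) ⊆ BB q a b := circ_subset_BB hq ha hb
  have h1 : mc i (cf f + cf g) = mc i (cf f) + mc i (cf g) := by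
    funext k
    rw [Pi.add_apply]
    by_cases hk : 0 ≤ k i
    · rw [mc_pos _ hk, mc_pos _ hk, mc_pos _ hk, add_zero]
    · rw [mc_neg _ hk, mc_neg _ hk, mc_neg _ hk, Pi.add_apply]
  rw [minus_def, minus_def, minus_def, cf_add (anOn_mono h0 hf) (anOn_mono h0 hg), h1,
    ser_add (mc_dec h (cf_dec_BB hq ha hb hf)) (mc_dec h (cf_dec_BB hq ha hb hg)) ht]

theorem plus_smul (i : ι) (c : K) (hf : AnOn circ f) (t : Tor ι K) :
    plus i (fun t => c * f t) t = c * plus i f t := by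
  have h0 : cf (fun t => c * f t) = c • cf f := by
    funext k
    rw [cf_smul c hf, Pi.smul_apply, smul_eq_mul]
  have h1 : pc i (c • cf f) = c • pc i (cf f) := by
    funext k
    rw [Pi.smul_apply]
    by_cases hk : 0 ≤ k i
    · rw [pc_pos _ hk, pc_pos _ hk, Pi.smul_apply]
    · rw [pc_neg _ hk, pc_neg _ hk, smul_zero]
  rw [plus_def, plus_def, h0, h1, ser_smul]

theorem minus_smul (i : ι) (c : K) (hf : AnOn circ f) (t : Tor ι K) :
    minus i (fun t => c * f t) t = c * minus i f t := by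
  have h0 : cf (fun t => c * f t) = c • cf f := by
    funext k
    rw [cf_smul c hf, Pi.smul_apply, smul_eq_mul]
  have h1 : mc i (c • cf f) = c • mc i (cf f) := by
    funext k
    rw [Pi.smul_apply]
    by_cases hk : 0 ≤ k i
    · rw [mc_pos _ hk, mc_pos _ hk, smul_zero]
    · rw [mc_neg _ hk, mc_neg _ hk, Pi.smul_apply]
  rw [minus_def, minus_def, h0, h1, ser_smul]

theorem plus_an2 (hq : ∀ i, ‖(q i : K)‖ ≤ 1) (ha : ∀ i, 0 ≤ a i) (hb : ∀ i, 0 ≤ b i)
    (hF : An2 q a b F) {i : ι} (h : ∀ j, j ≠ i → a' j = a j) :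
    An2 q a' b (fun x => plus i (F x)) := by
  refine an2_of_ser (c := fun x => pc i (cf (F x))) (fun k => ?_) fun ε hε => ?_
  · by_cases hk : 0 ≤ k i
    · refine anOn_congr (fun x _ => ?_) (fib_cf_an hq ha hb hF k)
      exact pc_pos _ hk
    · refine anOn_congr (fun x _ => ?_) (anOn_const circ (0 : K))
      exact pc_neg _ hk
  · obtain ⟨S, hS⟩ := fib_unif hq ha hb hF hε
    exact ⟨S, fun x hx k hk => (pc_le q h _ k).trans (hS x hx k hk)⟩

theorem minus_an2 (hq : ∀ i, ‖(q i : K)‖ ≤ 1) (ha : ∀ i, 0 ≤ a i) (hb : ∀ i, 0 ≤ b i)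
    (hF : An2 q a b F) {i : ι} (h : ∀ j, j ≠ i → b' j = b j) :
    An2 q a b' (fun x => minus i (F x)) := by
  refine an2_of_ser (c := fun x => mc i (cf (F x))) (fun k => ?_) fun ε hε => ?_
  · by_cases hk : 0 ≤ k i
    · refine anOn_congr (fun x _ => ?_) (anOn_const circ (0 : K))
      exact mc_pos _ hk
    · refine anOn_congr (fun x _ => ?_) (fib_cf_an hq ha hb hF k)
      exact mc_neg _ hk
  · obtain ⟨S, hS⟩ := fib_unif hq ha hb hF hε
    exact ⟨S, fun x hx k hk => (mc_le q h _ k).trans (hS x hx k hk)⟩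

end Pool.Agent.Work.MP_6d379e_ag.Ab
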