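import Pool.Agent.Work.MP_6d379e_ag.Ab.Glob2
import Pool.Agent.Work.MP_6d379e_ag.Ab.Lat

/-!
# Definitions for the algebra of homomorphisms (FIXED, do not change)

* `HomSp m f f'` : the vector space of homomorphisms.
* `BunFam m f` : an analytic family of bundles over the polycircle.
* `BunB m ν`, `EndA E` : bundled bundles and the endomorphism algebra, with its ring structure.
* `subB p f` : the direct summand of `f` cut out by the idempotent endomorphism `p`.
* `LocB m f` : nonzero bundle whose only idempotent endomorphisms are `0` and the identity.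
* `DecB m f p` : `p` is a decomposition of the identity into orthogonal idempotents with all
  summands `LocB`.
* `embT j z` : the point of the torus with `j`-th coordinate `z` and other coordinates `1`.
-/

namespace Pool.Agent.Work.MP_6d379e_ag.Ab

variable {ι κ ν : Type*} [Fintype ι] [Fintype κ] [Fintype ν]
variable {K : Type*} [NontriviallyNormedField K]

/-- the space of homomorphisms of bundles -/
def HomSp (m : ι → Tor ι K) (f f' : (ι → ℤ) → Tor ι K → Matrix ν ν K) :
    Submodule K (Tor ι K → Matrix ν ν K) where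
  carrier := {Φ | IsHom m f f' Φ}
  add_mem' := by
    rintro Φ Ψ h h'
    refine ⟨anaM_add h.an h'.an, fun t => ?_, fun l t => ?_⟩
    · simp only [Pi.add_apply, add_mul, h.src t, h'.src t]
    · simp only [Pi.add_apply, add_mul, mul_add, h.eqv l t, h'.eqv l t]
  zero_mem' := by
    refine ⟨anaM_const 0, fun t => ?_, fun l t => ?_⟩
    · simp
    · simp
  smul_mem' := by
    rintro c Φ h
    refine ⟨anaM_smul c h.an, fun t => ?_, fun l t => ?_⟩
    · simp only [Pi.smul_apply, Matrix.smul_mul, h.src t]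
    · simp only [Pi.smul_apply, Matrix.smul_mul, Matrix.mul_smul, h.eqv l t]

theorem mem_homSp {m : ι → Tor ι K} {f f' : (ι → ℤ) → Tor ι K → Matrix ν ν K}
    {Φ : Tor ι K → Matrix ν ν K} : Φ ∈ HomSp m f f' ↔ IsHom m f f' Φ := Iff.rfl

/-- an analytic family of bundles over the polycircle -/
structure BunFam (m : ι → Tor ι K) (f : Tor κ K → (ι → ℤ) → Tor ι K → Matrix ν ν K) : Prop where
  an : ∀ l, Ana2M fun x t => f x l t
  coc : ∀ x ∈ (circ : Set (Tor κ K)), ∀ l l' t,
    f x (l + l') t = f x l (lat m l' * t) * f x l' t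

/-- bundled bundles -/
structure BunB (m : ι → Tor ι K) (ν : Type*) [Fintype ν] where
  /-- the factor of automorphy -/
  f : (ι → ℤ) → Tor ι K → Matrix ν ν K
  isBun : IsBun m f

theorem isHom_comp {m : ι → Tor ι K} {f f' f'' : (ι → ℤ) → Tor ι K → Matrix ν ν K}
    {Φ Ψ : Tor ι K → Matrix ν ν K} (hΨ : IsHom m f' f'' Ψ) (hΦ : IsHom m f f' Φ) :
    IsHom m f f'' (fun t => Ψ t * Φ t) := by
  refine ⟨anaM_mul hΨ.an hΦ.an, fun t => ?_, fun l t => ?_⟩
  · rw [mul_assoc, hΦ.src t]
  · rw [mul_assoc, hΦ.eqv l t, ← mul_assoc, hΨ.eqv l t, mul_assoc]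

theorem isHom_id {m : ι → Tor ι K} {f : (ι → ℤ) → Tor ι K → Matrix ν ν K} (hf : IsBun m f) :
    IsHom m f f (f 0) := by
  have h1 : ∀ l t, f 0 (lat m l * t) * f l t = f l t := fun l t => by
    rw [← hf.coc 0 l t, zero_add]
  have h2 : ∀ l t, f l t * f 0 t = f l t := fun l t => by
    have := hf.coc l 0 t
    rw [lat_zero, one_mul, add_zero] at this
    exact this.symm
  refine ⟨hf.an 0, fun t => h2 0 t, fun l t => ?_⟩
  rw [h1, h2]

theorem isHom_one_mul {m : ι → Tor ι K} {f f' : (ι → ℤ) → Tor ι K → Matrix ν ν K}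
    {Φ : Tor ι K → Matrix ν ν K} (h : IsHom m f f' Φ) (t : Tor ι K) : f' 0 t * Φ t = Φ t := by
  have := h.eqv 0 t
  rw [lat_zero, one_mul, h.src t] at this
  exact this.symm

/-- the endomorphism algebra -/
def EndA {m : ι → Tor ι K} (E : BunB m ν) : Type _ := ↥(HomSp m E.f E.f)

section inst

variable {m : ι → Tor ι K} (E : BunB m ν)

noncomputable instance : AddCommGroup (EndA E) :=
  inferInstanceAs (AddCommGroup ↥(HomSp m E.f E.f))

noncomputable instance : Module K (EndA E) := inferInstanceAs (Module K ↥(HomSp m E.f E.f))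

/-- the underlying matrix function -/
def EndA.val {E : BunB m ν} (Φ : EndA E) : Tor ι K → Matrix ν ν K := Subtype.val Φ

/-- the constructor -/
def EndA.mk {E : BunB m ν} (Φ : Tor ι K → Matrix ν ν K) (h : IsHom m E.f E.f Φ) : EndA E :=
  ⟨Φ, h⟩

theorem EndA.isHom {E : BunB m ν} (Φ : EndA E) : IsHom m E.f E.f Φ.val := Subtype.property Φ

theorem EndA.ext' {E : BunB m ν} {Φ Ψ : EndA E} (h : ∀ t, Φ.val t = Ψ.val t) : Φ = Ψ :=
  Subtype.ext (funext h)

noncomputable instance : Mul (EndA E) :=
  ⟨fun Φ Ψ => EndA.mk (fun t => Φ.val t * Ψ.val t) (isHom_comp Φ.isHom Ψ.isHom)⟩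

noncomputable instance : One (EndA E) := ⟨EndA.mk (E.f 0) (isHom_id E.isBun)⟩

theorem EndA.val_mul {E : BunB m ν} (Φ Ψ : EndA E) (t : Tor ι K) :
    (Φ * Ψ).val t = Φ.val t * Ψ.val t := rfl

theorem EndA.val_one {E : BunB m ν} (t : Tor ι K) : (1 : EndA E).val t = E.f 0 t := rfl

theorem EndA.val_add {E : BunB m ν} (Φ Ψ : EndA E) (t : Tor ι K) :
    (Φ + Ψ).val t = Φ.val t + Ψ.val t := rfl

theorem EndA.val_smul {E : BunB m ν} (c : K) (Φ : EndA E) (t : Tor ι K) :
    (c • Φ).val t = c • Φ.val t := rfl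

theorem EndA.val_zero {E : BunB m ν} (t : Tor ι K) : (0 : EndA E).val t = 0 := rfl

noncomputable instance : Ring (EndA E) :=
  { (inferInstance : AddCommGroup (EndA E)) with
    mul := (· * ·)
    one := 1
    left_distrib := fun a b c => EndA.ext' fun t => by
      simp only [EndA.val_mul, EndA.val_add, mul_add]
    right_distrib := fun a b c => EndA.ext' fun t => by
      simp only [EndA.val_mul, EndA.val_add, add_mul]
    zero_mul := fun a => EndA.ext' fun t => by
      simp only [EndA.val_mul, EndA.val_zero, zero_mul]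
    mul_zero := fun a => EndA.ext' fun t => by
      simp only [EndA.val_mul, EndA.val_zero, mul_zero]
    mul_assoc := fun a b c => EndA.ext' fun t => by
      simp only [EndA.val_mul, mul_assoc]
    one_mul := fun a => EndA.ext' fun t => by
      simp only [EndA.val_mul, EndA.val_one]
      exact isHom_one_mul a.isHom t
    mul_one := fun a => EndA.ext' fun t => by
      simp only [EndA.val_mul, EndA.val_one]
      exact a.isHom.src t }

noncomputable instance : Algebra K (EndA E) :=
  Algebra.ofModule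
    (fun r x y => EndA.ext' fun t => by
      simp only [EndA.val_mul, EndA.val_smul, Matrix.smul_mul])
    (fun r x y => EndA.ext' fun t => by
      simp only [EndA.val_mul, EndA.val_smul, Matrix.mul_smul])

end inst

/-- the direct summand cut out by `p` -/
def subB (p : Tor ι K → Matrix ν ν K) (f : (ι → ℤ) → Tor ι K → Matrix ν ν K) :
    (ι → ℤ) → Tor ι K → Matrix ν ν K := fun l t => f l t * p t

/-- nonzero bundle with only trivial idempotent endomorphisms -/
structure LocB (m : ι → Tor ι K) (f : (ι → ℤ) → Tor ι K → Matrix ν ν K) : Prop where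
  bun : IsBun m f
  ne : ∃ t, f 0 t ≠ 0
  idem : ∀ p, IsHom m f f p → (∀ t, p t * p t = p t) → (∀ t, p t = 0) ∨ ∀ t, p t = f 0 t

/-- a decomposition into indecomposable summands -/
structure DecB (m : ι → Tor ι K) (f : (ι → ℤ) → Tor ι K → Matrix ν ν K) {n : ℕ}
    (p : Fin n → Tor ι K → Matrix ν ν K) : Prop where
  hom : ∀ i, IsHom m f f (p i)
  idem : ∀ i t, p i t * p i t = p i t
  orth : ∀ i j, i ≠ j → ∀ t, p i t * p j t = 0
  sum : ∀ t, ∑ i, p i t = f 0 t
  loc : ∀ i, LocB m (subB (p i) f)

/-- the point with `j`-th coordinate `z` and the other coordinates `1` -/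
def embT [DecidableEq ι] (j : ι) (z : Tor Unit K) : Tor ι K := Function.update 1 j (z ())

end Pool.Agent.Work.MP_6d379e_ag.Ab
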