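import Pool.Agent.Work.MP_6d379e_ag.Ab.WFlat
import Pool.Agent.Work.MP_6d379e_ag.Ab.HomSum
import Pool.Agent.Work.MP_6d379e_ag.Ab.DecEx

/-!
# Homogeneous bundles for a standard lattice are exactly the flat ones   (size M)

`flat_of_homog` : take a decomposition `p` (`exists_dec`); each `subB (p i) f` is `LocB` and
homogeneous (`homog_sub`), so `loc_flat` gives `r i, P i, Q i, ρ i`.  Let `r = ∑ i, r i`, index set
`Σ i, Fin (r i) ≃ Fin r`; `P t a (i, s) = P i t a s`, `Q t (i, s) a = Q i t s a`, `ρ` block diagonal.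
`P t Q t = ∑ i, P i t Q i t = ∑ i, p i t = f 0 t`; for `i ≠ j` :
`Q i t P j t = Q i t p i t p j t P j t = 0` (`Q i = Q i P i Q i = Q i p i`), so `Q t P t = 1`.
`f l t = ∑ i, f l t p i t = ∑ i, P i (l t) ρ i l Q i t` (`dec_sum`).

`homog_of_flat` : `Φ t = P (x * t) * Q t`, `Ψ t = P t * Q (x * t)` are inverse isomorphisms between
`f` and `trans x f` : `Φ (l t) f l t = P (x l t) Q (l t) P (l t) ρ l Q t = P (x l t) ρ l Q t` and
`f l (x t) Φ t = P (l x t) ρ l Q (x t) P (x t) Q t`, the same.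
-/

namespace Pool.Agent.Work.MP_6d379e_ag.Ab

variable {ι ν : Type*} [Fintype ι] [Fintype ν] [DecidableEq ι] [DecidableEq ν]
variable {K : Type*} [NontriviallyNormedField K] [IsUltrametricDist K]
variable [CompleteSpace K] [IsAlgClosed K] [CharZero K]
variable {m : ι → Tor ι K} {f : (ι → ℤ) → Tor ι K → Matrix ν ν K}

omit [DecidableEq ι] [DecidableEq ν] [IsUltrametricDist K] [CompleteSpace K] [IsAlgClosed K]
  [CharZero K] in
private theorem wa_fin {S : Type*} [Fintype S] [DecidableEq S] {P : Tor ι K → Matrix ν S K}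
    {Q : Tor ι K → Matrix S ν K} {ρ : (ι → ℤ) → Matrix S S K} (anP : AnaM P) (anQ : AnaM Q)
    (QP : ∀ t, Q t * P t = 1) (PQ : ∀ t, P t * Q t = f 0 t) (one : ρ 0 = 1)
    (mul : ∀ l l', ρ (l + l') = ρ l * ρ l')
    (eq : ∀ l t, f l t = P (lat m l * t) * ρ l * Q t) : IsFlatB m f := by
  obtain ⟨e⟩ : Nonempty (Fin (Fintype.card S) ≃ S) := ⟨(Fintype.equivFin S).symm⟩
  refine ⟨Fintype.card S, fun t => (P t).submatrix id e, fun t => (Q t).submatrix e id,
    fun l => (ρ l).submatrix e e, fun i j => anP i (e j), fun i j => anQ (e i) j, fun t => ?_,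
    fun t => ?_, ?_, fun l l' => ?_, fun l t => ?_⟩
  · show (Q t).submatrix e id * (P t).submatrix id e = 1
    have h1 : (Q t).submatrix e id * (P t).submatrix id e = (Q t * P t).submatrix e e :=
      (Matrix.submatrix_mul _ _ _ _ _ Function.bijective_id).symm
    rw [h1, QP, Matrix.submatrix_one_equiv]
  · show (P t).submatrix id e * (Q t).submatrix e id = f 0 t
    rw [Matrix.submatrix_mul_equiv, PQ, Matrix.submatrix_id_id]
  · show (ρ 0).submatrix e e = 1
    rw [one, Matrix.submatrix_one_equiv]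
  · show (ρ (l + l')).submatrix e e = (ρ l).submatrix e e * (ρ l').submatrix e e
    rw [Matrix.submatrix_mul_equiv, mul]
  · show f l t = (P (lat m l * t)).submatrix id e * (ρ l).submatrix e e * (Q t).submatrix e id
    rw [Matrix.submatrix_mul_equiv, Matrix.submatrix_mul_equiv, ← eq, Matrix.submatrix_id_id]

theorem flat_of_homog (hm : Std m) (hf : IsBun m f) (hh : Homog m f) : IsFlatB m f := by
  classical
  obtain ⟨n, p, hp⟩ := exists_dec hm hf
  have hlf := fun i => loc_flat hm (hp.loc i) (homog_sub hm hf hh hp i)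
  choose r P Q ρ hD hN using hlf
  have hPQ : ∀ i t, P i t * Q i t = p i t := fun i t => by
    rw [(hD i).PQ t]
    exact sub_zero' (hp.hom i) t
  have hQp : ∀ i t, Q i t * p i t = Q i t := fun i t => by
    rw [← hPQ, ← Matrix.mul_assoc, (hD i).QP t, Matrix.one_mul]
  have hpP : ∀ i t, p i t * P i t = P i t := fun i t => by
    rw [← hPQ, Matrix.mul_assoc, (hD i).QP t, Matrix.mul_one]
  have hQP0 : ∀ i j t, i ≠ j → Q i t * P j t = 0 := fun i j t hij => by
    rw [← hQp i t, ← hpP j t, Matrix.mul_assoc, ← Matrix.mul_assoc (p i t), hp.orth i j hij t,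
      Matrix.zero_mul, Matrix.mul_zero]
  have hmulbd : ∀ (u : Tor ι K) (M : ∀ i, Matrix (Fin (r i)) (Fin (r i)) K) (a : ν)
      (s : Σ i, Fin (r i)),
      ((Matrix.of fun (a : ν) (s : Σ i, Fin (r i)) => P s.1 u a s.2) *
        Matrix.blockDiagonal' M) a s = (P s.1 u * M s.1) a s.2 := by
    rintro u M a ⟨j, s⟩
    rw [Matrix.mul_apply, Fintype.sum_sigma, Finset.sum_eq_single j]
    · rw [Matrix.mul_apply]
      refine Finset.sum_congr rfl fun x _ => ?_
      rw [Matrix.blockDiagonal'_apply_eq]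
      rfl
    · intro i _ hij
      refine Finset.sum_eq_zero fun x _ => ?_
      rw [Matrix.blockDiagonal'_apply_ne _ _ _ hij, mul_zero]
    · intro h
      exact absurd (Finset.mem_univ j) h
  refine wa_fin (S := Σ i, Fin (r i))
    (P := fun t => Matrix.of fun (a : ν) (s : Σ i, Fin (r i)) => P s.1 t a s.2)
    (Q := fun t => Matrix.of fun (s : Σ i, Fin (r i)) (a : ν) => Q s.1 t s.2 a)
    (ρ := fun l => Matrix.blockDiagonal' fun i => ρ i l)
    (fun a s => (hD s.1).anP a s.2) (fun s a => (hD s.1).anQ s.2 a) (fun t => ?_) (fun t => ?_) ?_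
    (fun l l' => ?_) (fun l t => ?_)
  · ext ⟨i, s⟩ ⟨j, s'⟩
    have h1 : ((Matrix.of fun (s : Σ i, Fin (r i)) (a : ν) => Q s.1 t s.2 a) *
        (Matrix.of fun (a : ν) (s : Σ i, Fin (r i)) => P s.1 t a s.2) :
          Matrix (Σ i, Fin (r i)) (Σ i, Fin (r i)) K) ⟨i, s⟩ ⟨j, s'⟩ = (Q i t * P j t) s s' := by
      rw [Matrix.mul_apply, Matrix.mul_apply]
      rfl
    rw [h1]
    by_cases hij : i = j
    · subst hij
      rw [(hD i).QP t, Matrix.one_apply, Matrix.one_apply]
      simp only [Sigma.mk.injEq, heq_eq_eq, true_and]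
    · rw [hQP0 i j t hij, Matrix.one_apply, if_neg fun h => hij (congrArg Sigma.fst h)]
      rfl
  · ext a b
    rw [Matrix.mul_apply, Fintype.sum_sigma, ← hp.sum t, Matrix.sum_apply]
    refine Finset.sum_congr rfl fun i _ => ?_
    rw [← hPQ, Matrix.mul_apply]
    rfl
  · have h1 : (fun i => ρ i 0) = fun i => (1 : Matrix (Fin (r i)) (Fin (r i)) K) := by
      funext i
      exact (hD i).one
    rw [h1]
    exact Matrix.blockDiagonal'_one
  · rw [← Matrix.blockDiagonal'_mul]
    congr 1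
    funext i
    exact (hD i).mul l l'
  · ext a b
    rw [dec_sum hf hp l t, Matrix.sum_apply, Matrix.mul_apply, Fintype.sum_sigma]
    refine Finset.sum_congr rfl fun i _ => ?_
    rw [(hD i).eq l t, Matrix.mul_apply]
    refine Finset.sum_congr rfl fun x _ => ?_
    rw [hmulbd]
    rfl

theorem homog_of_flat (h : IsFlatB m f) : Homog m f := by
  obtain ⟨r, P, Q, ρ, h⟩ := h
  intro x
  refine ⟨fun t => P (x * t) * Q t, fun t => P t * Q (x * t), ⟨?_, ?_, ?_⟩, ⟨?_, ?_, ?_⟩, ?_, ?_⟩
  · exact anaM_mul (anaM_translate x h.anP) h.anQ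
  · intro t
    show P (x * t) * Q t * f 0 t = P (x * t) * Q t
    rw [← h.PQ t, Matrix.mul_assoc, ← Matrix.mul_assoc (Q t), h.QP t, Matrix.one_mul]
  · intro l t
    show P (x * (lat m l * t)) * Q (lat m l * t) * f l t = f l (x * t) * (P (x * t) * Q t)
    rw [h.eq l t, h.eq l (x * t), mul_left_comm x]
    have k1 : P (lat m l * (x * t)) * Q (lat m l * t) * (P (lat m l * t) * ρ l * Q t) =
        P (lat m l * (x * t)) * (Q (lat m l * t) * P (lat m l * t)) * ρ l * Q t := by
      simp only [Matrix.mul_assoc]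
    have k2 : P (lat m l * (x * t)) * ρ l * Q (x * t) * (P (x * t) * Q t) =
        P (lat m l * (x * t)) * ρ l * (Q (x * t) * P (x * t)) * Q t := by
      simp only [Matrix.mul_assoc]
    rw [k1, k2, h.QP, h.QP, Matrix.mul_one, Matrix.mul_one]
  · exact anaM_mul h.anP (anaM_translate x h.anQ)
  · intro t
    show P t * Q (x * t) * f 0 (x * t) = P t * Q (x * t)
    rw [← h.PQ (x * t), Matrix.mul_assoc, ← Matrix.mul_assoc (Q (x * t)), h.QP (x * t),
      Matrix.one_mul]
  · intro l t
    show P (lat m l * t) * Q (x * (lat m l * t)) * f l (x * t) = f l t * (P t * Q (x * t))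
    rw [h.eq l t, h.eq l (x * t), mul_left_comm x]
    have k1 : P (lat m l * t) * Q (lat m l * (x * t)) *
        (P (lat m l * (x * t)) * ρ l * Q (x * t)) =
        P (lat m l * t) * (Q (lat m l * (x * t)) * P (lat m l * (x * t))) * ρ l * Q (x * t) := by
      simp only [Matrix.mul_assoc]
    have k2 : P (lat m l * t) * ρ l * Q t * (P t * Q (x * t)) =
        P (lat m l * t) * ρ l * (Q t * P t) * Q (x * t) := by
      simp only [Matrix.mul_assoc]
    rw [k1, k2, h.QP, h.QP, Matrix.mul_one, Matrix.mul_one]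
  · intro t
    show P t * Q (x * t) * (P (x * t) * Q t) = f 0 t
    have k1 : P t * Q (x * t) * (P (x * t) * Q t) = P t * (Q (x * t) * P (x * t)) * Q t := by
      simp only [Matrix.mul_assoc]
    rw [k1, h.QP, Matrix.mul_one, h.PQ]
  · intro t
    show P (x * t) * Q t * (P t * Q (x * t)) = f 0 (x * t)
    have k1 : P (x * t) * Q t * (P t * Q (x * t)) = P (x * t) * (Q t * P t) * Q (x * t) := by
      simp only [Matrix.mul_assoc]
    rw [k1, h.QP, Matrix.mul_one, h.PQ]

end Pool.Agent.Work.MP_6d379e_ag.Ab
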