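import Pool.Agent.Work.MP_6d379e_ag.Ab.WWt

/-!
# Equivariant sections through every vector of the fibre   (size M)

Let `X` be the space of analytic `s` with `s (y t) = φ y t *ᵥ s t` (`y ∈ circ`) and
`e t *ᵥ s t = s t`, and `W = {s 1 | s ∈ X}`, a subspace of `ν → K`.  It is closed
(finite-dimensional over a complete field, `Submodule.closed_of_finiteDimensional`).

Let `e 1 *ᵥ v = v`, `s t = e t *ᵥ v`, an analytic section, and
`G x = ψ x 1 *ᵥ s x`, analytic on `circ` in each coordinate (`ana2_at` etc.).  `G 1 = v`, because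
`ψ 1 1 = e 1` (`φ 1 1 = φ 1 1 * φ 1 1` by `mul` with `x = y = 1`, `t = 1`, multiply by `ψ 1 1`:
`e 1 = e 1 * φ 1 1 = φ 1 1` using `left`, `φ_tgt`; then `ψ 1 1 = ψ 1 1 e 1 = ψ 1 1 φ 1 1 = e 1`).
By `cf_eq` at `x = 1` : `v i = ∑' k, cf (fun x => G x i) k` (`mon_one`), a convergent series
(`summable_ser`), for every `i`.  The vector with coordinates `cf (fun x => G x i) k` is `s' 1` for
the `s' ∈ X` of `weight_comp`, so it lies in `W`.  Finite partial sums lie in `W`, and `W` is closed,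
so `v ∈ W`.
-/

namespace Pool.Agent.Work.MP_6d379e_ag.Ab

variable {ι ν : Type*} [Fintype ι] [Fintype ν]
variable {K : Type*} [NontriviallyNormedField K] [IsUltrametricDist K]
variable [CompleteSpace K] [IsAlgClosed K] [CharZero K]
variable {e : Tor ι K → Matrix ν ν K} {φ ψ : Tor ι K → Tor ι K → Matrix ν ν K}

private theorem we_circ : (1 : Tor ι K) ∈ (circ : Set (Tor ι K)) := by
  intro i
  rw [Pi.one_apply, Units.val_one, norm_one]

private theorem we_psi (h : FlatAct e φ ψ) : ψ 1 1 = e 1 := by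
  have h1 := h.mul 1 we_circ 1 we_circ 1
  rw [one_mul] at h1
  have h2 := h.left 1 we_circ 1
  have h3 := h.φ_tgt 1 we_circ 1
  rw [one_mul] at h3
  have h4 := h.ψ_src 1 we_circ 1
  rw [one_mul] at h4
  have h5 : φ 1 1 = e 1 := by
    have h6 : ψ 1 1 * φ 1 1 = ψ 1 1 * (φ 1 1 * φ 1 1) := congrArg (fun M => ψ 1 1 * M) h1
    rw [← mul_assoc, h2, h3] at h6
    exact h6.symm
  rw [h5, h4] at h2
  exact h2

theorem exists_equivariant (h : FlatAct e φ ψ) {v : ν → K} (hv : (e 1).mulVec v = v) :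
    ∃ s : Tor ι K → ν → K, (∀ i, Ana fun t => s t i) ∧
      (∀ y ∈ (circ : Set (Tor ι K)), ∀ t, s (y * t) = (φ y t).mulVec (s t)) ∧
      (∀ t, (e t).mulVec (s t) = s t) ∧ s 1 = v := by
  obtain ⟨W, hW⟩ : ∃ W : Submodule K (ν → K), ∀ w, w ∈ W ↔
      ∃ s : Tor ι K → ν → K, (∀ i, Ana fun t => s t i) ∧
        (∀ y ∈ (circ : Set (Tor ι K)), ∀ t, s (y * t) = (φ y t).mulVec (s t)) ∧
        (∀ t, (e t).mulVec (s t) = s t) ∧ s 1 = w := by
    refine ⟨⟨⟨⟨{w | ∃ s : Tor ι K → ν → K, (∀ i, Ana fun t => s t i) ∧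
        (∀ y ∈ (circ : Set (Tor ι K)), ∀ t, s (y * t) = (φ y t).mulVec (s t)) ∧
        (∀ t, (e t).mulVec (s t) = s t) ∧ s 1 = w}, ?_⟩, ?_⟩, ?_⟩, fun w => Iff.rfl⟩
    · rintro w w' ⟨s, h1, h2, h3, rfl⟩ ⟨s', h1', h2', h3', rfl⟩
      refine ⟨s + s', fun i => ana_add (h1 i) (h1' i), fun y hy t => ?_, fun t => ?_, rfl⟩
      · show s (y * t) + s' (y * t) = (φ y t).mulVec (s t + s' t)
        rw [Matrix.mulVec_add, h2 y hy, h2' y hy]
      · show (e t).mulVec (s t + s' t) = s t + s' t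
        rw [Matrix.mulVec_add, h3, h3']
    · refine ⟨0, fun i => ana_const 0, fun y _ t => ?_, fun t => ?_, rfl⟩
      · show (0 : ν → K) = (φ y t).mulVec 0
        rw [Matrix.mulVec_zero]
      · show (e t).mulVec 0 = 0
        rw [Matrix.mulVec_zero]
    · rintro c w ⟨s, h1, h2, h3, rfl⟩
      refine ⟨c • s, fun i => ana_smul c (h1 i), fun y hy t => ?_, fun t => ?_, rfl⟩
      · show c • s (y * t) = (φ y t).mulVec (c • s t)
        rw [Matrix.mulVec_smul, h2 y hy]
      · show (e t).mulVec (c • s t) = c • s t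
        rw [Matrix.mulVec_smul, h3]
  rw [← hW]
  have hcl : IsClosed (W : Set (ν → K)) := Submodule.closed_of_finiteDimensional W
  obtain ⟨s, hsd⟩ : ∃ s : Tor ι K → ν → K, s = fun t => (e t).mulVec v := ⟨_, rfl⟩
  have hs : ∀ i, Ana fun t => s t i := by
    intro i
    rw [hsd]
    show Ana fun t => ∑ j, e t i j * v j
    exact ana_sum _ fun j _ => ana_mul (h.an_e i j) (ana_const (v j))
  have hes : ∀ t, (e t).mulVec (s t) = s t := by
    intro t
    rw [hsd]
    show (e t).mulVec ((e t).mulVec v) = (e t).mulVec v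
    rw [Matrix.mulVec_mulVec, h.idem]
  have hG : ∀ i, AnOn circ fun x => ((ψ x 1).mulVec (s x)) i := by
    intro i
    show AnOn circ fun x => ∑ j, ψ x 1 i j * s x j
    exact anOn_sum _ fun j _ => anOn_mul_circ (ana2_at (h.an_ψ i j) 1) (ana_circ (hs j))
  have hG1 : (ψ 1 1).mulVec (s 1) = v := by
    rw [we_psi h, hes, hsd]
    exact hv
  have hmem : ∀ k : ι → ℤ, (fun i => cf (fun x => ((ψ x 1).mulVec (s x)) i) k) ∈ W := by
    intro k
    obtain ⟨s', h1, h2, h3, h4⟩ := weight_comp h hs hes k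
    rw [hW]
    exact ⟨s', h1, h2, h3, funext h4⟩
  have hsum : HasSum (fun k : ι → ℤ => fun i => cf (fun x => ((ψ x 1).mulVec (s x)) i) k) v := by
    rw [Pi.hasSum]
    intro i
    have h1 := cf_eq (hG i) we_circ
    have h2 : (1 : Tor ι K) ∈ BB (1 : Tor ι K) 0 0 := by
      rw [BB_one]
      exact we_circ
    have h3 := (summable_ser (cf_dec (hG i)) h2).hasSum
    have h4 : (∑' k, cf (fun x => ((ψ x 1).mulVec (s x)) i) k * mon k (1 : Tor ι K)) = v i := by
      have h5 : ((ψ 1 1).mulVec (s 1)) i = v i := by rw [hG1]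
      rw [← h5, h1]
      rfl
    rw [h4] at h3
    simp only [mon_one, mul_one] at h3
    exact h3
  exact hcl.mem_of_tendsto hsum (Filter.Eventually.of_forall fun S => W.sum_mem fun k _ => hmem k)

theorem flatAct_dual (h : FlatAct e φ ψ) :
    FlatAct (fun t => (e t).transpose) (fun x t => (ψ x t).transpose)
      (fun x t => (φ x t).transpose) := by
  refine ⟨fun i j => h.an_e j i, fun i j => h.an_ψ j i, fun i j => h.an_φ j i, fun t => ?_,
    fun x hx t => ?_, fun x hx t => ?_, fun x hx t => ?_, fun x hx t => ?_, fun x hx t => ?_,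
    fun x hx t => ?_, fun x hx y hy t => ?_⟩
  · rw [← Matrix.transpose_mul, h.idem]
  · rw [← Matrix.transpose_mul, h.ψ_tgt x hx]
  · rw [← Matrix.transpose_mul, h.ψ_src x hx]
  · rw [← Matrix.transpose_mul, h.φ_tgt x hx]
  · rw [← Matrix.transpose_mul, h.φ_src x hx]
  · rw [← Matrix.transpose_mul, h.left x hx]
  · rw [← Matrix.transpose_mul, h.right x hx]
  · have hxy : x * y ∈ (circ : Set (Tor ι K)) := by
      intro i
      rw [Pi.mul_apply, Units.val_mul, norm_mul, hx i, hy i, mul_one]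
    rw [← Matrix.transpose_mul]
    congr 1
    have h1 : e t * ψ y t = ψ y t := h.ψ_tgt y hy t
    have h2 : ψ (x * y) t * e (x * y * t) = ψ (x * y) t := h.ψ_src _ hxy t
    have h3 : φ x (y * t) * ψ x (y * t) = e (x * y * t) := by
      rw [h.right x hx, mul_assoc]
    have h4 : φ x (y * t) * e (y * t) = φ x (y * t) := h.φ_src x hx _
    calc ψ (x * y) t = ψ (x * y) t * (φ x (y * t) * ψ x (y * t)) := by rw [h3, h2]
      _ = ψ (x * y) t * (φ x (y * t) * (φ y t * ψ y t) * ψ x (y * t)) := by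
        rw [h.right y hy, h4]
      _ = (ψ (x * y) t * (φ x (y * t) * φ y t)) * ψ y t * ψ x (y * t) := by
        simp only [Matrix.mul_assoc]
      _ = ψ y t * ψ x (y * t) := by
        rw [← h.mul x hx y hy t, h.left _ hxy, h1]

end Pool.Agent.Work.MP_6d379e_ag.Ab
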