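import Pool.Agent.Work.MP_6d379e_ag.Ab.WPQ
import Pool.Agent.Work.MP_6d379e_ag.Ab.CoB
import Pool.Agent.Work.MP_6d379e_ag.Ab.LamEx

/-!
# Flat trivialization of a bundle with a flat action   (size M)

Take `r, P, Q` from `exists_PQ` for `e = f 0`.  Let `R l t = Q (lat m l * t) * f l t * P t`.
`φ y` is a homomorphism `f → trans y f` : `φ y (lat m l * t) * f l t = f l (y * t) * φ y t`.  So for
`y ∈ circ`:
`R l (y t) = Q (l t) ψ y (l t) f l (y t) φ y t P t = Q (l t) ψ y (l t) φ y (l t) f l t P t`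
`= Q (l t) f 0 (l t) f l t P t = R l t`   (`Q f 0 = Q P Q = Q`).
So `R l` is constant (`ana_eq_of_circ` with `t0 = 1`); call it `ρ l`.
`f l t = f 0 (l t) f l t f 0 t = P (l t) Q (l t) f l t P t Q t = P (l t) ρ l Q t`.
`ρ 0 = Q f 0 P = 1`; `ρ (l + l') = Q (l l' t) f l (l' t) f l' t P t`
`= Q (l l' t) f l (l' t) P (l' t) Q (l' t) f l' t P t = ρ l * ρ l'`.

`loc_flat` : take `φ, ψ` from `exists_flatAct`.  For the last statement let `L`, `N` be as in
`exists_lam` and `Φ t = P t * ρ l * Q t`, an endomorphism of `f` (the `ρ l` commute), `c = L Φ`.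
`Φ - c • f 0` has `L = 0`, so `(P t (ρ l - c) Q t) ^ N = 0`, and
`(ρ l - c) ^ N = Q t (P t (ρ l - c) Q t) ^ N P t = 0` for `N ≥ 1` (one may enlarge `N`).
`c ≠ 0`: `Φ` is invertible in the endomorphisms (inverse `P ρ (-l) Q`), so `L Φ ≠ 0` by
multiplicativity and `L (f 0) = 1`.
-/

namespace Pool.Agent.Work.MP_6d379e_ag.Ab

variable {ι ν : Type*} [Fintype ι] [Fintype ν] [DecidableEq ι] [DecidableEq ν]
variable {K : Type*} [NontriviallyNormedField K] [IsUltrametricDist K]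
variable [CompleteSpace K] [IsAlgClosed K] [CharZero K]
variable {m : ι → Tor ι K} {f : (ι → ℤ) → Tor ι K → Matrix ν ν K}

private theorem wf_src (hf : IsBun m f) (l : ι → ℤ) (t : Tor ι K) : f l t * f 0 t = f l t := by
  have h1 := hf.coc l 0 t
  rw [add_zero, lat_zero, one_mul] at h1
  exact h1.symm

private theorem wf_tgt (hf : IsBun m f) (l : ι → ℤ) (t : Tor ι K) :
    f 0 (lat m l * t) * f l t = f l t := by
  have h1 := hf.coc 0 l t
  rw [zero_add] at h1
  exact h1.symm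

theorem flat_of_act (hf : IsBun m f) {φ ψ : Tor ι K → Tor ι K → Matrix ν ν K}
    (h : FlatAct (f 0) φ ψ)
    (hi : ∀ x ∈ (circ : Set (Tor ι K)), IsIso2 m f (trans x f) (φ x) (ψ x)) :
    IsFlatB m f := by
  obtain ⟨r, P, Q, hP, hQ, hQP, hPQ, hPe, hQe⟩ := exists_PQ h
  obtain ⟨R, hR⟩ : ∃ R : (ι → ℤ) → Tor ι K → Matrix (Fin r) (Fin r) K,
      ∀ l t, R l t = Q (lat m l * t) * f l t * P t := ⟨_, fun _ _ => rfl⟩
  have h1 : ∀ l, ∀ y ∈ (circ : Set (Tor ι K)), ∀ t, R l (y * t) = R l t := by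
    intro l y hy t
    have e1 := (hi y hy).hom.eqv l t
    have e2 : trans y f l t = f l (y * t) := rfl
    rw [e2] at e1
    have e3 : f l (y * t) * (φ y t * P t) = φ y (lat m l * t) * f l t * P t := by
      rw [← Matrix.mul_assoc, ← e1]
    have e4 : Q (lat m l * t) * f 0 (lat m l * t) = Q (lat m l * t) := by
      rw [← hPQ, ← Matrix.mul_assoc, hQP, Matrix.one_mul]
    rw [hR, hR, mul_left_comm, hQe y hy, hPe y hy, Matrix.mul_assoc, e3]
    have e5 : Q (lat m l * t) * ψ y (lat m l * t) * (φ y (lat m l * t) * f l t * P t)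
        = Q (lat m l * t) * (ψ y (lat m l * t) * φ y (lat m l * t)) * f l t * P t := by
      simp only [Matrix.mul_assoc]
    rw [e5, h.left y hy, e4]
  have h2 : ∀ l t, R l t = R l 1 := by
    intro l t
    have e1 : AnaM (R l) := by
      have e2 : R l = fun t => Q (lat m l * t) * f l t * P t := funext (hR l)
      rw [e2]
      exact anaM_mul (anaM_mul (anaM_translate (lat m l) hQ) (hf.an l)) hP
    ext i j
    refine ana_eq_of_circ (f := fun t => R l t i j) (g := fun _ => R l 1 i j) (e1 i j)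
      (ana_const _) 1 (fun u hu => ?_) t
    show R l (u * 1) i j = R l 1 i j
    rw [h1 l u hu 1]
  have h3 : ∀ l t, f l t = P (lat m l * t) * R l t * Q t := by
    intro l t
    have e1 : P (lat m l * t) * (Q (lat m l * t) * f l t * P t) * Q t
        = P (lat m l * t) * Q (lat m l * t) * f l t * (P t * Q t) := by
      simp only [Matrix.mul_assoc]
    rw [hR, e1, hPQ, hPQ, wf_tgt hf, wf_src hf]
  refine ⟨r, P, Q, fun l => R l 1, hP, hQ, hQP, hPQ, ?_, fun l l' => ?_, fun l t => ?_⟩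
  · show R 0 1 = 1
    rw [hR, lat_zero, one_mul, ← hPQ]
    have e1 : Q 1 * (P 1 * Q 1) * P 1 = Q 1 * P 1 * (Q 1 * P 1) := by
      simp only [Matrix.mul_assoc]
    rw [e1, hQP, Matrix.one_mul]
  · show R (l + l') 1 = R l 1 * R l' 1
    rw [← h2 l (lat m l' * 1), hR, hR, hR, lat_add_mul, hf.coc]
    have e1 : Q (lat m l * (lat m l' * 1)) * f l (lat m l' * 1) * P (lat m l' * 1) *
        (Q (lat m l' * 1) * f l' 1 * P 1)
        = Q (lat m l * (lat m l' * 1)) * (f l (lat m l' * 1) *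
          (P (lat m l' * 1) * Q (lat m l' * 1) * f l' 1)) * P 1 := by
      simp only [Matrix.mul_assoc]
    rw [e1, hPQ, wf_tgt hf]
  · show f l t = P (lat m l * t) * R l 1 * Q t
    rw [← h2 l t]
    exact h3 l t

private theorem wf_hom {r : ℕ} {P : Tor ι K → Matrix ν (Fin r) K}
    {Q : Tor ι K → Matrix (Fin r) ν K} {ρ : (ι → ℤ) → Matrix (Fin r) (Fin r) K}
    (hD : FlatData m f P Q ρ) (A : Matrix (Fin r) (Fin r) K) (hA : ∀ l, A * ρ l = ρ l * A) :
    IsHom m f f (fun t => P t * A * Q t) := by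
  refine ⟨anaM_mul (anaM_mul hD.anP (anaM_const A)) hD.anQ, fun t => ?_, fun l t => ?_⟩
  · have e1 : P t * A * Q t * (P t * Q t) = P t * A * (Q t * P t) * Q t := by
      simp only [Matrix.mul_assoc]
    rw [← hD.PQ, e1, hD.QP, Matrix.mul_one]
  · have e1 : P (lat m l * t) * A * Q (lat m l * t) * (P (lat m l * t) * ρ l * Q t)
        = P (lat m l * t) * (A * (Q (lat m l * t) * P (lat m l * t)) * ρ l) * Q t := by
      simp only [Matrix.mul_assoc]
    have e2 : P (lat m l * t) * ρ l * Q t * (P t * A * Q t)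
        = P (lat m l * t) * (ρ l * (Q t * P t) * A) * Q t := by
      simp only [Matrix.mul_assoc]
    rw [hD.eq l t, e1, e2, hD.QP, hD.QP, Matrix.mul_one, Matrix.mul_one, hA]

private theorem wf_pow {r : ℕ} {P : Matrix ν (Fin r) K} {Q : Matrix (Fin r) ν K}
    (h : Q * P = 1) (B : Matrix (Fin r) (Fin r) K) (n : ℕ) :
    (P * B * Q) ^ (n + 1) = P * B ^ (n + 1) * Q := by
  induction n with
  | zero => rw [zero_add, pow_one, pow_one]
  | succ n ih =>
    have e1 : P * B ^ (n + 1) * Q * (P * B * Q) = P * (B ^ (n + 1) * (Q * P) * B) * Q := by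
      simp only [Matrix.mul_assoc]
    rw [pow_succ, ih, e1, h, Matrix.mul_one, ← pow_succ]

theorem loc_flat (hm : Std m) (hf : LocB m f) (hh : Homog m f) :
    ∃ (r : ℕ) (P : Tor ι K → Matrix ν (Fin r) K) (Q : Tor ι K → Matrix (Fin r) ν K)
      (ρ : (ι → ℤ) → Matrix (Fin r) (Fin r) K), FlatData m f P Q ρ ∧
      ∀ l, ∃ c : K, c ≠ 0 ∧ IsNilpotent (ρ l - c • (1 : Matrix (Fin r) (Fin r) K)) := by
  obtain ⟨φ, ψ, hA, hi⟩ := exists_flatAct hm hf hh
  obtain ⟨r, P, Q, ρ, hD⟩ := flat_of_act hf.bun hA hi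
  refine ⟨r, P, Q, ρ, hD, fun l => ?_⟩
  obtain ⟨L, N, hL⟩ := exists_lam hm hf
  have hcomm : ∀ l l', ρ l * ρ l' = ρ l' * ρ l := by
    intro l l'
    rw [← hD.mul, ← hD.mul, add_comm]
  obtain ⟨Φ, hΦ⟩ : ∃ Φ : (ι → ℤ) → Tor ι K → Matrix ν ν K, ∀ l, Φ l = fun t => P t * ρ l * Q t := ⟨_, fun _ => rfl⟩
  have hhom : ∀ l, IsHom m f f (Φ l) := by
    intro l
    rw [hΦ]
    exact wf_hom hD (ρ l) fun l' => hcomm l l'
  have hc : L (Φ l) * L (Φ (-l)) = 1 := by
    rw [← hL.mul _ _ (hhom l) (hhom (-l))]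
    have e1 : (fun t => Φ l t * Φ (-l) t) = f 0 := by
      funext t
      rw [hΦ, hΦ]
      have e2 : P t * ρ l * Q t * (P t * ρ (-l) * Q t)
          = P t * (ρ l * (Q t * P t) * ρ (-l)) * Q t := by
        simp only [Matrix.mul_assoc]
      show P t * ρ l * Q t * (P t * ρ (-l) * Q t) = f 0 t
      rw [e2, hD.QP, Matrix.mul_one, ← hD.mul, add_neg_cancel, hD.one, Matrix.mul_one, hD.PQ]
    rw [e1, hL.one]
  refine ⟨L (Φ l), left_ne_zero_of_mul_eq_one hc, N + 1, ?_⟩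
  obtain ⟨c, hcd⟩ : ∃ c, c = L (Φ l) := ⟨_, rfl⟩
  rw [← hcd]
  have hid := isHom_id hf.bun
  have h1 : L (fun t => Φ l t + (-c) • f 0 t) = 0 := by
    rw [hL.add _ _ (hhom l) (isHom_smul (-c) hid), hL.smul (-c) (f 0) hid, hL.one, ← hcd]
    ring
  have h2 := hL.nil _ (isHom_add (hhom l) (isHom_smul (-c) hid)) h1 1
  have h3 : Φ l 1 + (-c) • f 0 1 = P 1 * (ρ l - c • (1 : Matrix (Fin r) (Fin r) K)) * Q 1 := by
    rw [hΦ, ← hD.PQ, Matrix.mul_sub, Matrix.sub_mul, Matrix.mul_smul, Matrix.mul_one,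
      Matrix.smul_mul, neg_smul, ← sub_eq_add_neg]
  rw [h3] at h2
  have h4 : (P 1 * (ρ l - c • (1 : Matrix (Fin r) (Fin r) K)) * Q 1) ^ (N + 1) = 0 := by
    rw [pow_succ, h2, Matrix.zero_mul]
  rw [wf_pow (hD.QP 1)] at h4
  have h5 : Q 1 * (P 1 * (ρ l - c • (1 : Matrix (Fin r) (Fin r) K)) ^ (N + 1) * Q 1) * P 1
      = (Q 1 * P 1) * (ρ l - c • (1 : Matrix (Fin r) (Fin r) K)) ^ (N + 1) * (Q 1 * P 1) := by
    simp only [Matrix.mul_assoc]
  rw [h4, hD.QP, Matrix.mul_zero, Matrix.zero_mul, Matrix.one_mul, Matrix.mul_one] at h5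
  exact h5.symm

end Pool.Agent.Work.MP_6d379e_ag.Ab
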