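import Pool.Agent.Work.MP_6d379e_ag.Ab.WEval

/-!
# Trivialization by equivariant sections   (size M-L)

Let `V1 = {v | e 1 *ᵥ v = v}`, `v_1, ..., v_r` a basis, `s_j` from `exists_equivariant`, and
`P t i j = s_j t i`; so `P (y t) = φ y t * P t`, `e t * P t = P t`, and the columns of `P 1` are
`v_j`.  Apply the same to `flatAct_dual` : the space `{w | (e 1)ᵀ *ᵥ w = w}` has the same dimension
`r` (rank of the idempotent `e 1` and of its transpose), and we get `Q0 t`, an `r x ν` matrix with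
`Q0 (y t) = Q0 t * ψ y t`, `Q0 t * e t = Q0 t`, whose rows at `t = 1` are a basis of that space.

`Q0 t * P t` has analytic entries and for `u ∈ circ`:
`Q0 u * P u = Q0 1 ψ u 1 φ u 1 P 1 = Q0 1 e 1 P 1 = Q0 1 P 1`; so by `ana_eq_of_circ` (with `t0 = 1`,
comparison with a constant function) `Q0 t * P t = M` is constant.  `M` is invertible: if
`M *ᵥ a = 0` then `v = P 1 *ᵥ a ∈ V1` is orthogonal to all `w` with `(e 1)ᵀ w = w`, hence
for every `u`: `u · v = u · e 1 v = ((e 1)ᵀ u) · v = 0`, so `v = 0` and `a = 0`.  Let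
`Q t = M⁻¹ * Q0 t`.  Then `Q t * P t = 1`, `Q (y t) = Q t * ψ y t`, `Q t * e t = Q t`.
`P 1 * Q 1 = e 1` : on `V1`, `P 1 Q 1 (P 1 a) = P 1 a`; and `P 1 Q 1 v = P 1 Q 1 e 1 v` for all `v`.
For `u ∈ circ`: `P u * Q u = φ u 1 P 1 Q 1 ψ u 1 = φ u 1 e 1 ψ u 1 = e u` (`u * 1 = u`); by
`ana_eq_of_circ` `P t * Q t = e t` for all `t`.
-/

namespace Pool.Agent.Work.MP_6d379e_ag.Ab

variable {ι ν : Type*} [Fintype ι] [Fintype ν]
variable {K : Type*} [NontriviallyNormedField K] [IsUltrametricDist K]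
variable [CompleteSpace K] [IsAlgClosed K] [CharZero K]
variable {e : Tor ι K → Matrix ν ν K} {φ ψ : Tor ι K → Tor ι K → Matrix ν ν K}

omit [IsUltrametricDist K] [CompleteSpace K] [IsAlgClosed K] [CharZero K] in
/-- factorization of an idempotent matrix -/
private theorem idem_factor (E : Matrix ν ν K) (hE : E * E = E) :
    ∃ (r : ℕ) (A : Matrix ν (Fin r) K) (B : Matrix (Fin r) ν K), A * B = E ∧ B * A = 1 := by
  classical
  obtain ⟨b, hb⟩ : ∃ b : Module.Basis (Fin (Module.finrank K (LinearMap.range E.mulVecLin))) K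
      (LinearMap.range E.mulVecLin), b = Module.finBasis K _ := ⟨_, rfl⟩
  have hAB : (Matrix.of fun i j => (b j : ν → K) i) *
      (Matrix.of fun j i => b.repr (E.mulVecLin.rangeRestrict (Pi.single i 1)) j) = E := by
    ext i i'
    rw [Matrix.mul_apply]
    have h1 := b.sum_repr (E.mulVecLin.rangeRestrict (Pi.single i' 1))
    have h2 : ((∑ j, b.repr (E.mulVecLin.rangeRestrict (Pi.single i' 1)) j • b j :
        LinearMap.range E.mulVecLin) : ν → K) i =
        ((E.mulVecLin.rangeRestrict (Pi.single i' 1) : LinearMap.range E.mulVecLin) : ν → K) i := by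
      rw [h1]
    rw [Submodule.coe_sum, Finset.sum_apply] at h2
    have h3 : ((E.mulVecLin.rangeRestrict (Pi.single i' 1) : LinearMap.range E.mulVecLin) :
        ν → K) i = E i i' := by
      show (E.mulVec (Pi.single i' 1)) i = E i i'
      rw [Matrix.mulVec_single_one]
      rfl
    rw [h3] at h2
    rw [← h2]
    refine Finset.sum_congr rfl fun j _ => ?_
    show (b j : ν → K) i * b.repr (E.mulVecLin.rangeRestrict (Pi.single i' 1)) j =
      b.repr (E.mulVecLin.rangeRestrict (Pi.single i' 1)) j * (b j : ν → K) i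
    rw [mul_comm]
  have hEA : E * (Matrix.of fun i j => (b j : ν → K) i) = (Matrix.of fun i j => (b j : ν → K) i) := by
    ext i j
    obtain ⟨v, hv⟩ := (b j).2
    have h1 : (E.mulVec v) = (b j : ν → K) := hv
    have h2 : (E.mulVec (b j : ν → K)) = (b j : ν → K) := by
      rw [← h1, Matrix.mulVec_mulVec, hE]
    exact congrFun h2 i
  have hinj : ∀ X : Matrix (Fin (Module.finrank K (LinearMap.range E.mulVecLin)))
      (Fin (Module.finrank K (LinearMap.range E.mulVecLin))) K,
      (Matrix.of fun i j => (b j : ν → K) i) * X = 0 → X = 0 := by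
    intro X hX
    ext j k
    have h1 : ∑ j, X j k • b j = 0 := by
      apply Subtype.ext
      funext i
      rw [Submodule.coe_sum, Finset.sum_apply]
      have h2 := congrFun (congrFun hX i) k
      rw [Matrix.mul_apply] at h2
      refine Eq.trans (Finset.sum_congr rfl fun j _ => ?_) h2
      show X j k * (b j : ν → K) i = (b j : ν → K) i * X j k
      rw [mul_comm]
    exact Fintype.linearIndependent_iff.1 b.linearIndependent (fun j => X j k) h1 j
  refine ⟨_, _, _, hAB, ?_⟩
  refine sub_eq_zero.1 (hinj _ ?_)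
  rw [Matrix.mul_sub, ← Matrix.mul_assoc, hAB, hEA, Matrix.mul_one, sub_self]

private theorem anaM_eq {μ μ' : Type*} [Fintype μ] [Fintype μ'] {F G : Tor ι K → Matrix μ μ' K}
    (hF : AnaM F) (hG : AnaM G)
    (h : ∀ u ∈ (circ : Set (Tor ι K)), F (u * 1) = G (u * 1)) (t : Tor ι K) : F t = G t := by
  ext i j
  exact ana_eq_of_circ (hF i j) (hG i j) 1 (fun u hu => by rw [h u hu]) t

theorem exists_PQ (h : FlatAct e φ ψ) :
    ∃ (r : ℕ) (P : Tor ι K → Matrix ν (Fin r) K) (Q : Tor ι K → Matrix (Fin r) ν K),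
      AnaM P ∧ AnaM Q ∧ (∀ t, Q t * P t = 1) ∧ (∀ t, P t * Q t = e t) ∧
      (∀ y ∈ (circ : Set (Tor ι K)), ∀ t, P (y * t) = φ y t * P t) ∧
      ∀ y ∈ (circ : Set (Tor ι K)), ∀ t, Q (y * t) = Q t * ψ y t := by
  obtain ⟨r, A, B, hAB, hBA⟩ := idem_factor (e 1) (h.idem 1)
  have hA : e 1 * A = A := by rw [← hAB, Matrix.mul_assoc, hBA, Matrix.mul_one]
  have hB : B * e 1 = B := by rw [← hAB, ← Matrix.mul_assoc, hBA, Matrix.one_mul]
  have hs : ∀ j : Fin r, ∃ s : Tor ι K → ν → K, (∀ i, Ana fun t => s t i) ∧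
      (∀ y ∈ (circ : Set (Tor ι K)), ∀ t, s (y * t) = (φ y t).mulVec (s t)) ∧
      (∀ t, (e t).mulVec (s t) = s t) ∧ s 1 = fun i => A i j := fun j =>
    exists_equivariant h (by
      funext i
      exact congrFun (congrFun hA i) j)
  have hs' : ∀ j : Fin r, ∃ s : Tor ι K → ν → K, (∀ i, Ana fun t => s t i) ∧
      (∀ y ∈ (circ : Set (Tor ι K)), ∀ t, s (y * t) = ((ψ y t).transpose).mulVec (s t)) ∧
      (∀ t, ((e t).transpose).mulVec (s t) = s t) ∧ s 1 = fun i => B j i := fun j =>
    exists_equivariant (flatAct_dual h) (by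
      funext i
      have h1 := congrFun (congrFun hB j) i
      rw [Matrix.mul_apply] at h1
      refine Eq.trans (Finset.sum_congr rfl fun k _ => ?_) h1
      show e 1 k i * B j k = B j k * e 1 k i
      rw [mul_comm])
  choose s s1 s2 s3 s4 using hs
  choose s' s1' s2' s3' s4' using hs'
  have hP1 : (Matrix.of fun i j => s j 1 i : Matrix ν (Fin r) K) = A := by
    ext i j
    exact congrFun (s4 j) i
  have hQ1 : (Matrix.of fun j i => s' j 1 i : Matrix (Fin r) ν K) = B := by
    ext j i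
    exact congrFun (s4' j) i
  have hPy : ∀ y ∈ (circ : Set (Tor ι K)), ∀ t,
      (Matrix.of fun i j => s j (y * t) i : Matrix ν (Fin r) K) =
        φ y t * (Matrix.of fun i j => s j t i : Matrix ν (Fin r) K) := by
    intro y hy t
    ext i j
    exact congrFun (s2 j y hy t) i
  have hQy : ∀ y ∈ (circ : Set (Tor ι K)), ∀ t,
      (Matrix.of fun j i => s' j (y * t) i : Matrix (Fin r) ν K) =
        (Matrix.of fun j i => s' j t i : Matrix (Fin r) ν K) * ψ y t := by
    intro y hy t
    ext j i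
    rw [Matrix.mul_apply]
    refine Eq.trans (congrFun (s2' j y hy t) i) (Finset.sum_congr rfl fun k _ => ?_)
    show ψ y t k i * s' j t k = s' j t k * ψ y t k i
    rw [mul_comm]
  have hPa : AnaM (fun t => (Matrix.of fun i j => s j t i : Matrix ν (Fin r) K)) :=
    fun i j => s1 j i
  have hQa : AnaM (fun t => (Matrix.of fun j i => s' j t i : Matrix (Fin r) ν K)) :=
    fun j i => s1' j i
  refine ⟨r, fun t => Matrix.of fun i j => s j t i, fun t => Matrix.of fun j i => s' j t i,
    hPa, hQa, fun t => ?_, fun t => ?_, hPy, hQy⟩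
  · refine anaM_eq (anaM_mul hQa hPa) (anaM_const 1) (fun u hu => ?_) t
    rw [hPy u hu 1, hQy u hu 1, hP1, hQ1, Matrix.mul_assoc, ← Matrix.mul_assoc (ψ u 1),
      h.left u hu 1, hA, hBA]
  · refine anaM_eq (anaM_mul hPa hQa) h.an_e (fun u hu => ?_) t
    rw [hPy u hu 1, hQy u hu 1, hP1, hQ1, ← Matrix.mul_assoc, Matrix.mul_assoc (φ u 1), hAB,
      h.φ_src u hu 1, h.right u hu 1]

end Pool.Agent.Work.MP_6d379e_ag.Ab
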