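import Pool.Agent.Work.MP_6d379e_ag.Ab.WDefs
import Pool.Agent.Work.MP_6d379e_ag.Ab.Fib

/-!
# Weight components of a section   (size M)

Let `s` be an analytic section (`e t *ᵥ s t = s t`), `F x t = ψ x t *ᵥ s (x * t)`, jointly analytic
on `circ x torus` (`ana2_comp`, products), `k : ι → ℤ`, and
`s' t i = (mon k t)⁻¹ * cf (fun x => F x t i) k`.
* `s'` is analytic: on each box by `xcf_an` (`ana2_An2`, `ana_iff_BB`), times `mon (-k)`.
* For `y ∈ circ`: `ψ x (y t) = φ y t * ψ (x y) t`: indeed `φ (xy) t = φ x (y t) φ y t`, so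
  `ψ x (y t) = ψ x (y t) φ (xy) t ψ (xy) t` (`right`, `ψ_src` : `ψ x (y t) e (x y t) = ψ x (y t)`)
  `= ψ x (y t) φ x (y t) φ y t ψ (xy) t = e (y t) φ y t ψ (xy) t = φ y t ψ (xy) t`.
  So `F x (y t) = φ y t *ᵥ F (x y) t`, and by linearity of `cf` and `cf_translate`
  (`cf (fun x => F (x y) t i) k = mon k y * cf (fun x => F x t i) k`, commutativity)
  `s' (y t) = (mon k (y t))⁻¹ * mon k y • φ y t *ᵥ (...) = φ y t *ᵥ s' t`.
* `e t *ᵥ s' t = s' t` because `e t * ψ x t = ψ x t` and `cf` is linear.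
* At `t = 1` : `mon k 1 = 1` and `F x 1 = ψ x 1 *ᵥ s x` (`x * 1 = x`).
-/

namespace Pool.Agent.Work.MP_6d379e_ag.Ab

variable {ι ν : Type*} [Fintype ι] [Fintype ν]
variable {K : Type*} [NontriviallyNormedField K] [IsUltrametricDist K]
variable [CompleteSpace K] [IsAlgClosed K] [CharZero K]
variable {e : Tor ι K → Matrix ν ν K} {φ ψ : Tor ι K → Tor ι K → Matrix ν ν K}

omit [IsUltrametricDist K] [CompleteSpace K] [IsAlgClosed K] [CharZero K] in
/-- the functions whose coefficients are taken are jointly analytic -/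
private theorem ww_an (h : FlatAct e φ ψ) {s : Tor ι K → ν → K} (hs : ∀ i, Ana fun t => s t i)
    (i : ν) : Ana2 fun (x t : Tor ι K) => ((ψ x t).mulVec (s (x * t))) i := by
  have h1 : (fun (x t : Tor ι K) => ((ψ x t).mulVec (s (x * t))) i) =
      fun x t => ∑ j, ψ x t i j * s (x * t) j := by
    funext x t
    rfl
  rw [h1]
  refine ana2_sum Finset.univ fun j _ => ana2_mul (h.an_ψ i j) ?_
  exact ana2_of_ana (τ := fun x t => x * t) (isMono_mul isMono_inl isMono_inr) (hs j)

omit [IsUltrametricDist K] [CompleteSpace K] [IsAlgClosed K] [CharZero K] in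
/-- the cocycle relation for the inverse maps -/
private theorem ww_psi (h : FlatAct e φ ψ) {x y : Tor ι K} (hx : x ∈ (circ : Set (Tor ι K)))
    (hy : y ∈ (circ : Set (Tor ι K))) (t : Tor ι K) :
    ψ x (y * t) = φ y t * ψ (x * y) t := by
  have hxy : x * y ∈ (circ : Set (Tor ι K)) := circ_mul hx hy
  have h1 : ψ x (y * t) * e (x * (y * t)) = ψ x (y * t) := h.ψ_src x hx (y * t)
  have h2 : φ (x * y) t * ψ (x * y) t = e ((x * y) * t) := h.right _ hxy t
  have h3 : φ (x * y) t = φ x (y * t) * φ y t := h.mul x hx y hy t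
  have h4 : ψ x (y * t) * φ x (y * t) = e (y * t) := h.left x hx (y * t)
  have h5 : e (y * t) * φ y t = φ y t := h.φ_tgt y hy t
  calc ψ x (y * t) = ψ x (y * t) * e (x * (y * t)) := h1.symm
    _ = ψ x (y * t) * e ((x * y) * t) := by rw [mul_assoc]
    _ = ψ x (y * t) * (φ (x * y) t * ψ (x * y) t) := by rw [h2]
    _ = ψ x (y * t) * (φ x (y * t) * φ y t * ψ (x * y) t) := by rw [h3]
    _ = ψ x (y * t) * φ x (y * t) * φ y t * ψ (x * y) t := by simp only [mul_assoc]
    _ = e (y * t) * φ y t * ψ (x * y) t := by rw [h4]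
    _ = φ y t * ψ (x * y) t := by rw [h5]

/-- coefficients commute with matrices -/
private theorem ww_cf_mulVec (A : Matrix ν ν K) {G : Tor ι K → ν → K}
    (hG : ∀ i, AnOn circ fun x => G x i) (k : ι → ℤ) (i : ν) :
    cf (fun x => (A.mulVec (G x)) i) k = (A.mulVec fun j => cf (fun x => G x j) k) i := by
  have h1 : (fun x => (A.mulVec (G x)) i) = fun x => ∑ j, A i j * G x j := by
    funext x
    rfl
  rw [h1, cf_sum Finset.univ (F := fun j x => A i j * G x j)
    (fun j _ => anOn_smul _ (hG j))]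
  show _ = ∑ j, A i j * cf (fun x => G x j) k
  refine Finset.sum_congr rfl fun j _ => ?_
  rw [cf_smul _ (hG j)]

theorem weight_comp (h : FlatAct e φ ψ) {s : Tor ι K → ν → K} (hs : ∀ i, Ana fun t => s t i)
    (hes : ∀ t, (e t).mulVec (s t) = s t) (k : ι → ℤ) :
    ∃ s' : Tor ι K → ν → K, (∀ i, Ana fun t => s' t i) ∧
      (∀ y ∈ (circ : Set (Tor ι K)), ∀ t, s' (y * t) = (φ y t).mulVec (s' t)) ∧
      (∀ t, (e t).mulVec (s' t) = s' t) ∧
      ∀ i, s' 1 i = cf (fun x => ((ψ x 1).mulVec (s x)) i) k := by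
  have hF : ∀ i, Ana2 fun (x t : Tor ι K) => ((ψ x t).mulVec (s (x * t))) i :=
    fun i => ww_an h hs i
  have hFt : ∀ t i, AnOn circ fun x : Tor ι K => ((ψ x t).mulVec (s (x * t))) i :=
    fun t i => ana2_at (hF i) t
  refine ⟨fun t i => mon (-k) t * cf (fun x => ((ψ x t).mulVec (s (x * t))) i) k,
    fun i => ?_, fun y hy t => ?_, fun t => ?_, fun i => ?_⟩
  · refine ana_mul (ana_mon (-k)) ?_
    obtain ⟨q, hq⟩ := exists_small ι K
    exact (ana_iff_BB hq).2 fun N => xcf_an (ana2_An2 (hF i) q _ _) k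
  · funext i
    have h1 : cf (fun x => ((ψ x (y * t)).mulVec (s (x * (y * t)))) i) =
        cf (fun x => ((φ y t).mulVec ((ψ (y * x) t).mulVec (s ((y * x) * t)))) i) := by
      refine cf_congr fun x hx => ?_
      rw [ww_psi h hx hy t, Matrix.mulVec_mulVec, mul_comm y x, mul_assoc x y t]
    have h2 : ∀ j, AnOn circ fun x : Tor ι K =>
        ((ψ (y * x) t).mulVec (s ((y * x) * t))) j := fun j =>
      anOn_isMono (τ := fun x : Tor ι K => y * x) (isMono_mul (isMono_const y) isMono_id)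
        (fun x hx => circ_mul hy hx) (hFt t j)
    have h3 : ∀ j, cf (fun x => ((ψ (y * x) t).mulVec (s ((y * x) * t))) j) k =
        mon k y * cf (fun x => ((ψ x t).mulVec (s (x * t))) j) k := fun j =>
      cf_translate (f := fun x => ((ψ x t).mulVec (s (x * t))) j) hy (hFt t j) k
    show mon (-k) (y * t) * cf (fun x => ((ψ x (y * t)).mulVec (s (x * (y * t)))) i) k = _
    rw [h1, ww_cf_mulVec (φ y t) h2 k i]
    show mon (-k) (y * t) *
        ∑ j, φ y t i j * cf (fun x => ((ψ (y * x) t).mulVec (s ((y * x) * t))) j) k =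
      ∑ j, φ y t i j * (mon (-k) t * cf (fun x => ((ψ x t).mulVec (s (x * t))) j) k)
    rw [Finset.mul_sum]
    refine Finset.sum_congr rfl fun j _ => ?_
    rw [h3 j, mon_mul, mon_neg, mon_neg]
    have h4 := mon_ne_zero k y
    have h5 := mon_ne_zero k t
    field_simp
  · funext i
    have h1 : cf (fun x => ((ψ x t).mulVec (s (x * t))) i) =
        cf (fun x => ((e t).mulVec ((ψ x t).mulVec (s (x * t)))) i) := by
      refine cf_congr fun x hx => ?_
      rw [Matrix.mulVec_mulVec, h.ψ_tgt x hx t]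
    show _ = mon (-k) t * cf (fun x => ((ψ x t).mulVec (s (x * t))) i) k
    rw [h1, ww_cf_mulVec (e t) (hFt t) k i]
    show ∑ j, e t i j * (mon (-k) t * cf (fun x => ((ψ x t).mulVec (s (x * t))) j) k) =
      mon (-k) t * ∑ j, e t i j * cf (fun x => ((ψ x t).mulVec (s (x * t))) j) k
    rw [Finset.mul_sum]
    refine Finset.sum_congr rfl fun j _ => ?_
    ring
  · show mon (-k) 1 * cf (fun x => ((ψ x 1).mulVec (s (x * 1))) i) k = _
    rw [mon_one, one_mul]
    simp only [mul_one]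

end Pool.Agent.Work.MP_6d379e_ag.Ab
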