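import Pool.Agent.Work.MP_6d379e_ag.Ab.Glob2
import Pool.Agent.Work.MP_6d379e_ag.Ab.Glue

/-!
# Definitions for the solution spaces (FIXED, do not change)

* `CocSys m A` : a system of matrices `A l x t`, jointly analytic in `x` (polycircle) and `t`
  (torus), with the cocycle rule; it describes the linear equations
  `s t = A l x t *ᵥ s (lat m l * t)` for all `l`.
* `Sol m A x` : the space of analytic solutions at the parameter `x`.
* `AnV`, `An2V`, `Bd` : analyticity on a box, joint analyticity, sup bound, for vector functions.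
* `OpB q a b a' b' C L` : `L x` is for every `x` in the polycircle a linear operator from the
  analytic vector functions on `BB q a b` to those on `BB q a' b'`, of norm at most `C`, and it
  respects joint analyticity.
* `trF S s` : the Laurent polynomial part of `s` with exponents in `S`.
* `LocSol m A x s` : `s` satisfies the equations for the generators inside the box `BB (qq m) 1 1`.
* `Gx m A x s` : the extension of a local solution.
* `kerR R x` : the common kernel of the rows `ρ x`, `ρ ∈ R`.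
-/

namespace Pool.Agent.Work.MP_6d379e_ag.Ab

variable {ι κ σ : Type*} [Fintype ι] [Fintype κ] [Fintype σ]
variable {K : Type*} [NontriviallyNormedField K]

/-- a cocycle system of linear equations, analytic in the parameter -/
structure CocSys (m : ι → Tor ι K) (A : (ι → ℤ) → Tor κ K → Tor ι K → Matrix σ σ K) : Prop where
  an : ∀ l, Ana2M (A l)
  coc : ∀ l l', ∀ x ∈ (circ : Set (Tor κ K)), ∀ t,
    A (l + l') x t = A l x t * A l' x (lat m l * t)

/-- the space of solutions -/
def Sol (m : ι → Tor ι K) (A : (ι → ℤ) → Tor κ K → Tor ι K → Matrix σ σ K) (x : Tor κ K) :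
    Submodule K (Tor ι K → σ → K) where
  carrier := {s | (∀ i, Ana fun t => s t i) ∧
    ∀ l t, s t = (A l x t).mulVec (s (lat m l * t))}
  add_mem' := by
    rintro s s' ⟨h1, h2⟩ ⟨h1', h2'⟩
    refine ⟨fun i => ana_add (h1 i) (h1' i), fun l t => ?_⟩
    simp only [Pi.add_apply, Matrix.mulVec_add]
    rw [← h2 l t, ← h2' l t]
  zero_mem' := by
    refine ⟨fun i => ana_const 0, fun l t => ?_⟩
    simp
  smul_mem' := by
    rintro c s ⟨h1, h2⟩
    refine ⟨fun i => ana_smul c (h1 i), fun l t => ?_⟩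
    simp only [Pi.smul_apply, Matrix.mulVec_smul]
    rw [← h2 l t]

/-- analytic vector functions -/
def AnV (U : Set (Tor ι K)) (s : Tor ι K → σ → K) : Prop := ∀ i, AnOn U fun t => s t i

/-- jointly analytic vector functions on polycircle times box -/
def An2V (q : Tor ι K) (a b : ι → ℤ) (S : Tor κ K → Tor ι K → σ → K) : Prop :=
  ∀ i, An2 q a b fun x t => S x t i

/-- sup bound -/
def Bd (U : Set (Tor ι K)) (s : Tor ι K → σ → K) (C : ℝ) : Prop := ∀ t ∈ U, ∀ i, ‖s t i‖ ≤ C

/-- a bounded linear operator between spaces of analytic vector functions, analytic in the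
parameter -/
structure OpB (q : Tor ι K) (a b a' b' : ι → ℤ) (C : ℝ)
    (L : Tor κ K → (Tor ι K → σ → K) → Tor ι K → σ → K) : Prop where
  an : ∀ x ∈ (circ : Set (Tor κ K)), ∀ s, AnV (BB q a b) s → AnV (BB q a' b') (L x s)
  joint : ∀ S : Tor κ K → Tor ι K → σ → K, An2V q a b S → An2V q a' b' (fun x => L x (S x))
  add : ∀ x ∈ (circ : Set (Tor κ K)), ∀ s s', AnV (BB q a b) s → AnV (BB q a b) s' →
    ∀ t ∈ BB q a' b', L x (s + s') t = L x s t + L x s' t
  smul : ∀ x ∈ (circ : Set (Tor κ K)), ∀ (c : K) (s), AnV (BB q a b) s →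
    ∀ t ∈ BB q a' b', L x (c • s) t = c • L x s t
  bd : ∀ x ∈ (circ : Set (Tor κ K)), ∀ s D, AnV (BB q a b) s → 0 ≤ D → Bd (BB q a b) s D →
    Bd (BB q a' b') (L x s) (C * D)

/-- the operator `L` extends solutions: it fixes them -/
def FixSol (m : ι → Tor ι K) (A : (ι → ℤ) → Tor κ K → Tor ι K → Matrix σ σ K) (a' b' : ι → ℤ)
    (L : Tor κ K → (Tor ι K → σ → K) → Tor ι K → σ → K) : Prop :=
  ∀ x ∈ (circ : Set (Tor κ K)), ∀ s ∈ Sol m A x, ∀ t ∈ BB (qq m) a' b', L x s t = s t

/-- the part of the Laurent series with exponents in `S` -/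
noncomputable def trF (S : Finset (ι → ℤ)) (s : Tor ι K → σ → K) : Tor ι K → σ → K :=
  fun t i => ∑ k ∈ S, cf (fun t => s t i) k * mon k t

/-- local solutions on the box `BB (qq m) 1 1` -/
def LocSol [DecidableEq ι] (m : ι → Tor ι K)
    (A : (ι → ℤ) → Tor κ K → Tor ι K → Matrix σ σ K)
    (x : Tor κ K) (s : Tor ι K → σ → K) : Prop :=
  ∀ l : ι → ℤ, (l = 0 ∨ ∃ i, l = Pi.single i 1 ∨ l = Pi.single i (-1)) →
    ∀ t ∈ BB (qq m) (1 : ι → ℤ) (1 : ι → ℤ), lat m l * t ∈ BB (qq m) (1 : ι → ℤ) (1 : ι → ℤ) →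
      s t = (A l x t).mulVec (s (lat m l * t))

open Classical in
/-- the global extension of a local solution -/
noncomputable def Gx (m : ι → Tor ι K) (A : (ι → ℤ) → Tor κ K → Tor ι K → Matrix σ σ K)
    (x : Tor κ K) (s : Tor ι K → σ → K) : Tor ι K → σ → K := fun t =>
  if h : ∃ l : ι → ℤ, lat m l * t ∈ BB (qq m) (1 : ι → ℤ) (1 : ι → ℤ) then
    (A h.choose x t).mulVec (s (lat m h.choose * t)) else 0

/-- the common kernel of the rows -/
def kerR {N : ℕ} (R : Set (Tor κ K → Fin N → K)) (x : Tor κ K) : Submodule K (Fin N → K) where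
  carrier := {c | ∀ ρ ∈ R, ∑ j, ρ x j * c j = 0}
  add_mem' := by
    intro c c' h h' ρ hρ
    simp only [Pi.add_apply, mul_add, Finset.sum_add_distrib, h ρ hρ, h' ρ hρ, add_zero]
  zero_mem' := by
    intro ρ _
    simp
  smul_mem' := by
    intro r c h ρ hρ
    have : ∑ j, ρ x j * (r • c) j = r * ∑ j, ρ x j * c j := by
      rw [Finset.mul_sum]
      exact Finset.sum_congr rfl fun j _ => by simp [mul_left_comm]
    rw [this, h ρ hρ, mul_zero]

end Pool.Agent.Work.MP_6d379e_ag.Ab
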