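import Pool.Agent.Work.MP_6d379e_ag.Ab.Defs

/-!
# Roots of norm one of a polynomial   (size M-L)

`K` is an algebraically closed ultrametric field.  Write `P = C a * ∏ (X - r)` over the multiset of
roots.  For a polynomial `Q ≠ 0` let `M Q` be the maximum of the norms of the coefficients and
`bot Q ≤ top Q` the smallest and the largest index at which it is attained.  Gauss lemma with end
indices, for a factor `X - r` (a direct computation with
`(X - r) * Q`, whose coefficient at `k` is `Q.coeff (k - 1) - r * Q.coeff k`):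
* `‖r‖ < 1` : `M` is unchanged, `bot` and `top` increase by `1`;
* `‖r‖ > 1` : `M` is multiplied by `‖r‖`, `bot` and `top` are unchanged;
* `‖r‖ = 1` : `M` and `bot` are unchanged, `top` increases by `1`.
So `M P = ‖a‖ * ∏ over roots with ‖r‖ > 1 of ‖r‖`, and the number of roots with `‖r‖ = 1` is
`top P - bot P = j0 - i0`.  For `‖z‖ = 1` : `‖z - r‖ = 1` if `‖r‖ < 1`, `= ‖r‖` if `‖r‖ > 1`, and
`‖z - r‖ ≤ 1` if `‖r‖ = 1`.  Hence `‖P.eval z‖ = M * ∏ over roots with ‖r‖ = 1 of ‖z - r‖`; there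
are `j0 - i0 ≥ 1` factors, and the smallest one, for the root `r`, satisfies
`‖z - r‖ ^ (j0 - i0) ≤ ‖P.eval z‖ / M`.
-/

namespace Pool.Agent.Work.MP_6d379e_ag.Ab

variable {K : Type*} [NontriviallyNormedField K] [IsUltrametricDist K] [IsAlgClosed K]

omit [IsAlgClosed K] in
private theorem nsub_le {a b : K} {C : ℝ} (ha : ‖a‖ ≤ C) (hb : ‖b‖ ≤ C) : ‖a - b‖ ≤ C := by
  have h := IsUltrametricDist.norm_add_le_max a (-b)
  rw [norm_neg, ← sub_eq_add_neg] at h
  exact h.trans (max_le ha hb)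

omit [IsAlgClosed K] in
private theorem nsub_lt {a b : K} {C : ℝ} (ha : ‖a‖ < C) (hb : ‖b‖ < C) : ‖a - b‖ < C := by
  have h := IsUltrametricDist.norm_add_le_max a (-b)
  rw [norm_neg, ← sub_eq_add_neg] at h
  exact lt_of_le_of_lt h (max_lt ha hb)

omit [IsAlgClosed K] in
private theorem nsub_left {a b : K} (h : ‖b‖ < ‖a‖) : ‖a - b‖ = ‖a‖ := by
  refine le_antisymm (nsub_le le_rfl h.le) ?_
  by_contra h1
  push Not at h1
  have h2 : ‖a - b - (-b)‖ < ‖a‖ := nsub_lt h1 (by rw [norm_neg]; exact h)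
  rw [sub_neg_eq_add, sub_add_cancel] at h2
  exact lt_irrefl _ h2

omit [IsAlgClosed K] in
private theorem nsub_right {a b : K} (h : ‖a‖ < ‖b‖) : ‖a - b‖ = ‖b‖ := by
  rw [← norm_neg (a - b), neg_sub]
  exact nsub_left h

private structure PDat (c : ℕ → K) (M : ℝ) (i j : ℕ) : Prop where
  pos : 0 < M
  lo : ‖c i‖ = M
  hi : ‖c j‖ = M
  le : ∀ k, ‖c k‖ ≤ M
  lt : ∀ k, k < i ∨ j < k → ‖c k‖ < M

omit [IsUltrametricDist K] [IsAlgClosed K] in
private theorem PDat.uniq {c : ℕ → K} {M M' : ℝ} {i j i' j' : ℕ} (h : PDat c M i j)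
    (h' : PDat c M' i' j') : M = M' ∧ i = i' ∧ j = j' := by
  have hM : M = M' := by
    refine le_antisymm ?_ ?_
    · rw [← h.lo]
      exact h'.le i
    · rw [← h'.lo]
      exact h.le i'
  subst hM
  refine ⟨rfl, ?_, ?_⟩
  · rcases lt_trichotomy i i' with h1 | h1 | h1
    · have h2 := h'.lt i (Or.inl h1)
      rw [h.lo] at h2
      exact absurd h2 (lt_irrefl _)
    · exact h1
    · have h2 := h.lt i' (Or.inl h1)
      rw [h'.lo] at h2
      exact absurd h2 (lt_irrefl _)
  · rcases lt_trichotomy j j' with h1 | h1 | h1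
    · have h2 := h.lt j' (Or.inr h1)
      rw [h'.hi] at h2
      exact absurd h2 (lt_irrefl _)
    · exact h1
    · have h2 := h'.lt j (Or.inr h1)
      rw [h.hi] at h2
      exact absurd h2 (lt_irrefl _)

omit [IsUltrametricDist K] [IsAlgClosed K] in
private theorem coeff_fac (Q : Polynomial K) (r : K) (k : ℕ) :
    ((Polynomial.X - Polynomial.C r) * Q).coeff k =
      (Polynomial.X * Q).coeff k - r * Q.coeff k := by
  rw [sub_mul, Polynomial.coeff_sub, Polynomial.coeff_C_mul]

omit [IsUltrametricDist K] [IsAlgClosed K] in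
private theorem xq_le {Q : Polynomial K} {M : ℝ} {i j : ℕ} (h : PDat Q.coeff M i j) (k : ℕ) :
    ‖(Polynomial.X * Q).coeff k‖ ≤ M := by
  cases k with
  | zero =>
    rw [Polynomial.coeff_X_mul_zero, norm_zero]
    exact h.pos.le
  | succ k =>
    rw [Polynomial.coeff_X_mul]
    exact h.le k

omit [IsUltrametricDist K] [IsAlgClosed K] in
private theorem xq_lt {Q : Polynomial K} {M : ℝ} {i j : ℕ} (h : PDat Q.coeff M i j) (k : ℕ)
    (hk : k < i + 1 ∨ j + 1 < k) : ‖(Polynomial.X * Q).coeff k‖ < M := by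
  cases k with
  | zero =>
    rw [Polynomial.coeff_X_mul_zero, norm_zero]
    exact h.pos
  | succ k =>
    rw [Polynomial.coeff_X_mul]
    exact h.lt k (by omega)

omit [IsAlgClosed K] in
private theorem pdat_small {Q : Polynomial K} {M : ℝ} {i j : ℕ} (h : PDat Q.coeff M i j) {r : K}
    (hr : ‖r‖ < 1) :
    PDat ((Polynomial.X - Polynomial.C r) * Q).coeff M (i + 1) (j + 1) := by
  have hb : ∀ k, ‖r * Q.coeff k‖ < M := by
    intro k
    rw [norm_mul]
    calc ‖r‖ * ‖Q.coeff k‖ ≤ ‖r‖ * M := mul_le_mul_of_nonneg_left (h.le k) (norm_nonneg r)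
      _ < 1 * M := mul_lt_mul_of_pos_right hr h.pos
      _ = M := one_mul M
  refine ⟨h.pos, ?_, ?_, ?_, ?_⟩
  · rw [coeff_fac, Polynomial.coeff_X_mul, nsub_left (by rw [h.lo]; exact hb _), h.lo]
  · rw [coeff_fac, Polynomial.coeff_X_mul, nsub_left (by rw [h.hi]; exact hb _), h.hi]
  · intro k
    rw [coeff_fac]
    exact nsub_le (xq_le h k) (hb k).le
  · intro k hk
    rw [coeff_fac]
    exact nsub_lt (xq_lt h k hk) (hb k)

omit [IsAlgClosed K] in
private theorem pdat_big {Q : Polynomial K} {M : ℝ} {i j : ℕ} (h : PDat Q.coeff M i j) {r : K}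
    (hr : 1 < ‖r‖) :
    PDat ((Polynomial.X - Polynomial.C r) * Q).coeff (‖r‖ * M) i j := by
  have hM : M < ‖r‖ * M := by
    calc M = 1 * M := (one_mul M).symm
      _ < ‖r‖ * M := mul_lt_mul_of_pos_right hr h.pos
  have ha : ∀ k, ‖(Polynomial.X * Q).coeff k‖ < ‖r‖ * M := fun k =>
    lt_of_le_of_lt (xq_le h k) hM
  have hr0 : 0 < ‖r‖ := lt_trans one_pos hr
  refine ⟨mul_pos hr0 h.pos, ?_, ?_, ?_, ?_⟩
  · rw [coeff_fac, nsub_right (by rw [norm_mul, h.lo]; exact ha _), norm_mul, h.lo]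
  · rw [coeff_fac, nsub_right (by rw [norm_mul, h.hi]; exact ha _), norm_mul, h.hi]
  · intro k
    rw [coeff_fac]
    refine nsub_le (ha k).le ?_
    rw [norm_mul]
    exact mul_le_mul_of_nonneg_left (h.le k) hr0.le
  · intro k hk
    rw [coeff_fac]
    refine nsub_lt (ha k) ?_
    rw [norm_mul]
    exact mul_lt_mul_of_pos_left (h.lt k hk) hr0

omit [IsAlgClosed K] in
private theorem pdat_one {Q : Polynomial K} {M : ℝ} {i j : ℕ} (h : PDat Q.coeff M i j) {r : K}
    (hr : ‖r‖ = 1) :
    PDat ((Polynomial.X - Polynomial.C r) * Q).coeff M i (j + 1) := by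
  have hb : ∀ k, ‖r * Q.coeff k‖ = ‖Q.coeff k‖ := fun k => by rw [norm_mul, hr, one_mul]
  refine ⟨h.pos, ?_, ?_, ?_, ?_⟩
  · rw [coeff_fac, nsub_right, hb, h.lo]
    rw [hb, h.lo]
    exact xq_lt h i (Or.inl (by omega))
  · rw [coeff_fac, Polynomial.coeff_X_mul, nsub_left, h.hi]
    rw [hb, h.hi]
    exact h.lt _ (Or.inr (by omega))
  · intro k
    rw [coeff_fac]
    refine nsub_le (xq_le h k) ?_
    rw [hb]
    exact h.le k
  · intro k hk
    rw [coeff_fac]
    refine nsub_lt (xq_lt h k (by omega)) ?_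
    rw [hb]
    exact h.lt k (by omega)

open Classical in
omit [IsAlgClosed K] in
private theorem pdat_prod (a : K) (ha : a ≠ 0) (S : Multiset K) : ∃ (M : ℝ) (i : ℕ),
    PDat (Polynomial.C a * (S.map (fun r => Polynomial.X - Polynomial.C r)).prod).coeff M i
      (i + Multiset.card (S.filter (fun r => ‖r‖ = 1))) ∧
    ∀ z : K, ‖z‖ = 1 →
      ‖(Polynomial.C a * (S.map (fun r => Polynomial.X - Polynomial.C r)).prod).eval z‖ =
        M * ((S.filter (fun r => ‖r‖ = 1)).map (fun r => ‖z - r‖)).prod := by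
  induction S using Multiset.induction with
  | empty =>
    refine ⟨‖a‖, 0, ?_, ?_⟩
    · simp only [Multiset.map_zero, Multiset.prod_zero, mul_one, Multiset.filter_zero,
        Multiset.card_zero, add_zero]
      refine ⟨norm_pos_iff.2 ha, by rw [Polynomial.coeff_C_zero], by rw [Polynomial.coeff_C_zero],
        ?_, ?_⟩
      · intro k
        rw [Polynomial.coeff_C]
        split_ifs
        · exact le_rfl
        · rw [norm_zero]
          exact norm_nonneg a
      · intro k hk
        rw [Polynomial.coeff_C, if_neg (by omega), norm_zero]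
        exact norm_pos_iff.2 ha
    · intro z _
      simp
  | cons r S ih =>
    obtain ⟨M, i, hd, he⟩ := ih
    have hP : Polynomial.C a *
        ((r ::ₘ S).map (fun r => Polynomial.X - Polynomial.C r)).prod =
        (Polynomial.X - Polynomial.C r) *
          (Polynomial.C a * (S.map (fun r => Polynomial.X - Polynomial.C r)).prod) := by
      rw [Multiset.map_cons, Multiset.prod_cons]
      ring
    have hev : ∀ z : K, ‖((Polynomial.X - Polynomial.C r) *
          (Polynomial.C a * (S.map (fun r => Polynomial.X - Polynomial.C r)).prod)).eval z‖ =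
        ‖z - r‖ *
          ‖(Polynomial.C a * (S.map (fun r => Polynomial.X - Polynomial.C r)).prod).eval z‖ := by
      intro z
      rw [Polynomial.eval_mul, norm_mul, Polynomial.eval_sub, Polynomial.eval_X,
        Polynomial.eval_C]
    rw [hP]
    rcases lt_trichotomy ‖r‖ 1 with hr | hr | hr
    · rw [Multiset.filter_cons_of_neg _ (by exact ne_of_lt hr)]
      refine ⟨M, i + 1, ?_, ?_⟩
      · have h1 := pdat_small hd hr
        rw [show i + 1 + Multiset.card (S.filter (fun r => ‖r‖ = 1)) =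
          i + Multiset.card (S.filter (fun r => ‖r‖ = 1)) + 1 by omega]
        exact h1
      · intro z hz
        rw [hev z, he z hz, nsub_left (by rw [hz]; exact hr), hz, one_mul]
    · rw [Multiset.filter_cons_of_pos _ (by exact hr)]
      refine ⟨M, i, ?_, ?_⟩
      · have h1 := pdat_one hd hr
        rw [Multiset.card_cons, ← add_assoc]
        exact h1
      · intro z hz
        rw [hev z, he z hz, Multiset.map_cons, Multiset.prod_cons]
        ring
    · rw [Multiset.filter_cons_of_neg _ (by exact ne_of_gt hr)]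
      refine ⟨‖r‖ * M, i, pdat_big hd hr, ?_⟩
      intro z hz
      rw [hev z, he z hz, nsub_right (by rw [hz]; exact hr)]
      ring

omit [IsUltrametricDist K] [IsAlgClosed K] in
private theorem pow_le_mprod (z : K) {m : ℝ} (hm : 0 ≤ m) (T : Multiset K)
    (h : ∀ r ∈ T, m ≤ ‖z - r‖) :
    m ^ Multiset.card T ≤ (T.map (fun r => ‖z - r‖)).prod := by
  induction T using Multiset.induction with
  | empty => simp
  | cons r T ih =>
    rw [Multiset.card_cons, Multiset.map_cons, Multiset.prod_cons, pow_succ, mul_comm]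
    exact mul_le_mul (h r (Multiset.mem_cons_self r T))
      (ih fun r' hr' => h r' (Multiset.mem_cons_of_mem hr')) (pow_nonneg hm _) (norm_nonneg _)

theorem poly_root (P : Polynomial K) {M : ℝ} (hM : 0 < M) {i0 j0 : ℕ} (hij : i0 < j0)
    (hi0 : ‖P.coeff i0‖ = M) (hj0 : ‖P.coeff j0‖ = M) (hle : ∀ i, ‖P.coeff i‖ ≤ M)
    (hlt : ∀ i, i < i0 ∨ j0 < i → ‖P.coeff i‖ < M) {z : K} (hz : ‖z‖ = 1) :
    ∃ r : K, ‖r‖ = 1 ∧ P.eval r = 0 ∧ ‖z - r‖ ^ (j0 - i0) ≤ ‖P.eval z‖ / M := by
  classical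
  have hd : PDat P.coeff M i0 j0 := ⟨hM, hi0, hj0, hle, hlt⟩
  have hP0 : P ≠ 0 := by
    intro h
    rw [h, Polynomial.coeff_zero, norm_zero] at hi0
    exact hM.ne hi0
  have hsp : P = Polynomial.C P.leadingCoeff *
      (P.roots.map (fun r => Polynomial.X - Polynomial.C r)).prod :=
    (IsAlgClosed.splits P).eq_prod_roots
  obtain ⟨M', i', hd', he'⟩ := pdat_prod P.leadingCoeff
    (Polynomial.leadingCoeff_ne_zero.2 hP0) P.roots
  rw [← hsp] at hd' he'
  obtain ⟨h1, h2, h3⟩ := hd.uniq hd'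
  subst h1
  subst h2
  set T := P.roots.filter (fun r => ‖r‖ = 1) with hT
  have hcard : Multiset.card T = j0 - i0 := by omega
  have hne : T.toFinset.Nonempty := by
    rw [Finset.nonempty_iff_ne_empty, Ne, Multiset.toFinset_eq_empty]
    intro h0
    rw [h0, Multiset.card_zero] at hcard
    omega
  obtain ⟨r, hr, hmin⟩ := Finset.exists_min_image T.toFinset (fun r => ‖z - r‖) hne
  have hrT : r ∈ T := Multiset.mem_toFinset.1 hr
  have hrT' := Multiset.mem_filter.1 hrT
  refine ⟨r, hrT'.2, (Polynomial.mem_roots hP0).1 hrT'.1, ?_⟩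
  rw [he' z hz, mul_div_cancel_left₀ _ hM.ne', ← hcard]
  exact pow_le_mprod z (norm_nonneg _) T fun r' hr' => hmin r' (Multiset.mem_toFinset.2 hr')

end Pool.Agent.Work.MP_6d379e_ag.Ab
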